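import Pool.Agent.P.MP_e0a138_an.ABase

set_option autoImplicit false
set_option linter.unusedSectionVars false
set_option linter.unusedVariables false

open MeasureTheory Filter Topology Metric Complex
open scoped ENNReal NNReal ContDiff InnerProductSpace ComplexConjugate

noncomputable section
namespace Pool.Agent.P.MP_e0a138_an.AD

variable {H : Type} [NormedAddCommGroup H] [InnerProductSpace ℂ H] [CompleteSpace H]

theorem mem_closure_of_perp (T : Set H) (v : H)
    (h : ∀ w, (∀ s ∈ T, ⟪s, w⟫_ℂ = 0) → ⟪w, v⟫_ℂ = 0) :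
    v ∈ (Submodule.span ℂ T).topologicalClosure := by
  rw [← Submodule.orthogonal_orthogonal_eq_closure, Submodule.mem_orthogonal]
  intro w hw
  exact h w fun s hs => Submodule.inner_right_of_mem_orthogonal (Submodule.subset_span hs) hw

theorem AB1_decomp (T : Set H) (v : H) :
    ∃ v₁ v₂, v = v₁ + v₂ ∧ v₁ ∈ (Submodule.span ℂ T).topologicalClosure ∧
      (∀ s ∈ T, ⟪s, v₂⟫_ℂ = 0) ∧ ‖v₁‖ ≤ ‖v‖ := by
  set K := (Submodule.span ℂ T).topologicalClosure with hK
  have : CompleteSpace K := (Submodule.isClosed_topologicalClosure _).completeSpace_coe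
  refine ⟨K.starProjection v, v - K.starProjection v, by abel, K.starProjection_apply_mem v,
    fun s hs => ?_, K.norm_starProjection_apply_le v⟩
  exact Submodule.inner_right_of_mem_orthogonal
    (Submodule.le_topologicalClosure _ (Submodule.subset_span hs))
    (K.sub_starProjection_mem_orthogonal v)

theorem ext_perp {H' : Type} [NormedAddCommGroup H'] [NormedSpace ℂ H'] (T : Set H)
    (A B : H →L[ℂ] H') (h1 : ∀ s ∈ T, A s = B s)
    (h2 : ∀ v, (∀ s ∈ T, ⟪s, v⟫_ℂ = 0) → A v = B v) : A = B := by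
  ext v
  obtain ⟨v₁, v₂, rfl, hv₁, hv₂⟩ := AB1_decomp T v
  have hle : (Submodule.span ℂ T).topologicalClosure ≤ LinearMap.ker (A - B : H →L[ℂ] H').toLinearMap := by
    refine Submodule.topologicalClosure_minimal _ (Submodule.span_le.2 fun s hs => ?_)
      (A - B).isClosed_ker
    simp [h1 s hs]
  have h3 : A v₁ = B v₁ := by simpa [sub_eq_zero] using hle hv₁
  rw [map_add, map_add, h3, h2 v₂ hv₂.1]

theorem Sym.span {G : Set (H × H)} (hG : Sym G) : Sym (Submodule.span ℂ G : Set (H × H)) := by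
  intro a ha b hb
  induction ha using Submodule.span_induction with
  | mem a ha =>
    induction hb using Submodule.span_induction with
    | mem b hb => exact hG a ha b hb
    | zero => simp
    | add x y _ _ hx hy => simp [inner_add_right, hx, hy]
    | smul c x _ hx => simp [inner_smul_right, hx]
  | zero => simp
  | add x y _ _ hx hy => simp [inner_add_left, hx, hy]
  | smul c x _ hx => simp [inner_smul_left, hx]

theorem Sym.norm_sq {G : Set (H × H)} (hG : Sym G) {a : H × H} (ha : a ∈ Submodule.span ℂ G)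
    {s : ℂ} (hs : s ∈ ({I, -I} : Set ℂ)) : ‖a.2 + s • a.1‖ ^ 2 = ‖a.1‖ ^ 2 + ‖a.2‖ ^ 2 := by
  have h1 : ⟪a.2, a.1⟫_ℂ = ⟪a.1, a.2⟫_ℂ := hG.span a ha a ha
  have h2 : (⟪a.2, a.1⟫_ℂ).im = 0 := by
    rw [← Complex.conj_eq_iff_im, inner_conj_symm, h1]
  rw [@norm_add_sq ℂ, inner_smul_right, norm_smul]
  rcases hs with rfl | rfl <;> simp [h2, add_comm]

theorem inK_fst {G : Set (H × H)} {g : H × H} (hg : g ∈ G) : InK G g.1 := fun w hw => by
  rw [← inner_conj_symm, hw g hg, map_zero]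

theorem inK_of_mem_closure {G : Set (H × H)} {T : Set H} (hT : ∀ t ∈ T, InK G t) {v : H}
    (hv : v ∈ (Submodule.span ℂ T).topologicalClosure) : InK G v := fun w hw => by
  have hle : (Submodule.span ℂ T).topologicalClosure ≤ LinearMap.ker (innerSL ℂ w).toLinearMap :=
    Submodule.topologicalClosure_minimal _ (Submodule.span_le.2 fun t ht => hT t ht w hw)
      (innerSL ℂ w).isClosed_ker
  exact hle hv

theorem exists_decomp (G : Set (H × H)) (v : H) :
    ∃ v₁ v₂, v = v₁ + v₂ ∧ InK G v₁ ∧ Perp G v₂ ∧ ‖v₁‖ ≤ ‖v‖ := by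
  obtain ⟨v₁, v₂, h, hv₁, hv₂, hn⟩ := AB1_decomp (Prod.fst '' G) v
  refine ⟨v₁, v₂, h, inK_of_mem_closure ?_ hv₁, fun g hg => hv₂ _ ⟨g, hg, rfl⟩, hn⟩
  rintro _ ⟨g, hg, rfl⟩
  exact inK_fst hg

theorem EssSA.approx {G : Set (H × H)} (hG : EssSA G) {s : ℂ} (hs : s ∈ ({I, -I} : Set ℂ))
    {v : H} (hv : InK G v) {e : ℝ} (he : 0 < e) :
    ∃ a ∈ Submodule.span ℂ G, ‖a.2 + s • a.1 - v‖ < e := by
  let L : (H × H) →ₗ[ℂ] H := LinearMap.snd ℂ H H + s • LinearMap.fst ℂ H H
  have h1 : v ∈ (Submodule.span ℂ (L '' G)).topologicalClosure :=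
    mem_closure_of_perp _ v fun w hw =>
      hv w ((hG.2 s hs w).1 fun g hg => hw _ ⟨g, hg, rfl⟩)
  rw [← Submodule.map_span] at h1
  obtain ⟨_, ⟨a, ha, rfl⟩, hd⟩ := Metric.mem_closure_iff.1 h1 e he
  refine ⟨a, ha, ?_⟩
  rw [dist_comm, dist_eq_norm] at hd
  exact hd

end Pool.Agent.P.MP_e0a138_an.AD
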