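import Pool.Agent.P.MP_e0a138_an.AB1

set_option autoImplicit false
set_option linter.unusedSectionVars false
set_option linter.unusedVariables false

open MeasureTheory Filter Topology Metric Complex
open scoped ENNReal NNReal ContDiff InnerProductSpace ComplexConjugate

noncomputable section
namespace Pool.Agent.P.MP_e0a138_an.AD

variable {H : Type} [NormedAddCommGroup H] [InnerProductSpace ℂ H] [CompleteSpace H]

theorem AB2_memI : I ∈ ({I, -I} : Set ℂ) := Set.mem_insert _ _

theorem AB2_memNegI : -I ∈ ({I, -I} : Set ℂ) := Set.mem_insert_of_mem _ rfl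

theorem AB2_norm_le {G : Set (H × H)} (hG : EssSA G) {a : H × H}
    (ha : a ∈ (Submodule.span ℂ G).topologicalClosure) : ‖a‖ ≤ ‖a.2 + I • a.1‖ := by
  have hcl : IsClosed {a : H × H | ‖a‖ ≤ ‖a.2 + I • a.1‖} :=
    isClosed_le (by fun_prop) (by fun_prop)
  have hsub : (Submodule.span ℂ G : Set (H × H)) ⊆ {a : H × H | ‖a‖ ≤ ‖a.2 + I • a.1‖} := by
    intro b hb
    have h := Sym.norm_sq (G := G) hG.1 hb AB2_memI
    have h1 : ‖b.1‖ ≤ ‖b.2 + I • b.1‖ := by
      apply (sq_le_sq₀ (norm_nonneg _) (norm_nonneg _)).mp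
      nlinarith [sq_nonneg ‖b.2‖]
    have h2 : ‖b.2‖ ≤ ‖b.2 + I • b.1‖ := by
      apply (sq_le_sq₀ (norm_nonneg _) (norm_nonneg _)).mp
      nlinarith [sq_nonneg ‖b.1‖]
    exact (Prod.norm_def b).le.trans (max_le h1 h2)
  exact closure_minimal hsub hcl ha

theorem AB2_perp {G : Set (H × H)} (hG : EssSA G) {v : H} (hv : Perp G v) {a : H × H}
    (ha : a ∈ (Submodule.span ℂ G).topologicalClosure) : ⟪a.2 + I • a.1, v⟫_ℂ = 0 := by
  have hcl : IsClosed {a : H × H | ⟪a.2 + I • a.1, v⟫_ℂ = 0} :=
    isClosed_eq (by fun_prop) continuous_const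
  have hsub : (Submodule.span ℂ G : Set (H × H)) ⊆ {a : H × H | ⟪a.2 + I • a.1, v⟫_ℂ = 0} := by
    intro b hb
    have hb' : b ∈ Submodule.span ℂ G := hb
    show ⟪b.2 + I • b.1, v⟫_ℂ = 0
    induction hb' using Submodule.span_induction with
    | mem x hx => exact (hG.2 I AB2_memI v).2 hv x hx
    | zero => simp
    | add x y hx hy ihx ihy =>
      have e : (x + y).2 + I • (x + y).1 = (x.2 + I • x.1) + (y.2 + I • y.1) := by
        simp only [Prod.snd_add, Prod.fst_add, smul_add]; abel
      rw [e, inner_add_left, ihx hx, ihy hy, add_zero]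
    | smul c x hx ih =>
      have e : (c • x).2 + I • (c • x).1 = c • (x.2 + I • x.1) := by
        simp only [Prod.smul_snd, Prod.smul_fst, smul_add, smul_comm I c]
      rw [e, inner_smul_left, ih hx, mul_zero]
  exact closure_minimal hsub hcl ha

theorem EssSA.exists_res {G : Set (H × H)} (hG : EssSA G) : ∃ R, IsRes G R := by
  set Gb : Submodule ℂ (H × H) := (Submodule.span ℂ G).topologicalClosure with hGb
  have : CompleteSpace Gb := (Submodule.isClosed_topologicalClosure _).completeSpace_coe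
  let p : Gb →L[ℂ] H :=
    (ContinuousLinearMap.snd ℂ H H + I • ContinuousLinearMap.fst ℂ H H).comp Gb.subtypeL
  have hp : ∀ a : Gb, p a = (a : H × H).2 + I • (a : H × H).1 := fun a => rfl
  have hanti : AntilipschitzWith 1 p := by
    apply ContinuousLinearMap.antilipschitz_of_bound
    intro a
    rw [hp]
    simpa using AB2_norm_le hG a.2
  have hclo : IsClosed (Set.range p) := hanti.isClosed_range p.uniformContinuous
  let K : Submodule ℂ H := LinearMap.range (p : Gb →ₗ[ℂ] H)
  have hK : IsClosed (K : Set H) := hclo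
  have : CompleteSpace K := hK.completeSpace_coe
  let e : Gb ≃L[ℂ] K := p.equivRange hanti.injective hclo
  have he : ∀ a : Gb, (e a : H) = p a := fun a => rfl
  refine ⟨(ContinuousLinearMap.fst ℂ H H).comp (Gb.subtypeL.comp
    ((e.symm : K →L[ℂ] Gb).comp K.orthogonalProjectionOnto)), ?_, ?_⟩
  · intro g hg
    have hg' : g ∈ Gb := Submodule.le_topologicalClosure _ (Submodule.subset_span hg)
    have h1 : g.2 + I • g.1 = (e ⟨g, hg'⟩ : H) := rfl
    simp only [ContinuousLinearMap.comp_apply]
    rw [h1, Submodule.orthogonalProjectionOnto_mem_subspace_eq_self]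
    simp
  · intro v hv
    have h0 : K.orthogonalProjectionOnto v = 0 := by
      rw [Submodule.orthogonalProjectionOnto_eq_zero_iff, Submodule.mem_orthogonal]
      rintro u ⟨a, rfl⟩
      exact AB2_perp hG hv a.2
    simp only [ContinuousLinearMap.comp_apply, h0, map_zero]

theorem IsRes.span {G : Set (H × H)} {R : H →L[ℂ] H} {s : ℂ}
    (hR : ∀ g ∈ G, R (g.2 + s • g.1) = g.1) {a : H × H} (ha : a ∈ Submodule.span ℂ G) :
    R (a.2 + s • a.1) = a.1 := by
  induction ha using Submodule.span_induction with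
  | mem x hx => exact hR x hx
  | zero => simp
  | add x y hx hy ihx ihy =>
    have e : (x + y).2 + s • (x + y).1 = (x.2 + s • x.1) + (y.2 + s • y.1) := by
      simp only [Prod.snd_add, Prod.fst_add, smul_add]; abel
    rw [e, map_add, ihx, ihy, Prod.fst_add]
  | smul c x hx ih =>
    have e : (c • x).2 + s • (c • x).1 = c • (x.2 + s • x.1) := by
      simp only [Prod.smul_snd, Prod.smul_fst, smul_add, smul_comm s c]
    rw [e, map_smul, ih, Prod.smul_fst]

theorem AB2_ext {G : Set (H × H)} (hG : EssSA G) {s : ℂ} (hs : s ∈ ({I, -I} : Set ℂ))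
    {H' : Type} [NormedAddCommGroup H'] [NormedSpace ℂ H'] (A B : H →L[ℂ] H')
    (h1 : ∀ g ∈ G, A (g.2 + s • g.1) = B (g.2 + s • g.1)) (h2 : ∀ v, Perp G v → A v = B v) :
    A = B := by
  refine ext_perp ((fun g : H × H => g.2 + s • g.1) '' G) A B ?_ ?_
  · rintro _ ⟨g, hg, rfl⟩
    exact h1 g hg
  · intro v hv
    exact h2 v ((hG.2 s hs v).1 fun g hg => hv _ ⟨g, hg, rfl⟩)

theorem IsRes.props {G : Set (H × H)} {R : H →L[ℂ] H} (hG : EssSA G) (hR : IsRes G R) :
    ‖R‖ ≤ 1 ∧ (∀ g ∈ G, star R (g.2 + (-I) • g.1) = g.1) ∧ (∀ v, Perp G v → star R v = 0) ∧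
      R * star R = star R * R ∧ ∀ v, InK G (R v) := by
  have hK : ∀ v, InK G (R v) := by
    intro v w hw
    have h : (innerSL ℂ w).comp R = 0 := by
      refine AB2_ext hG AB2_memI _ _ ?_ ?_
      · intro g hg
        simp only [ContinuousLinearMap.comp_apply, innerSL_apply_apply,
          zero_apply]
        rw [hR.1 g hg, ← inner_conj_symm, hw g hg, map_zero]
      · intro x hx
        simp only [ContinuousLinearMap.comp_apply, hR.2 x hx, map_zero,
          zero_apply]
    simpa using congrArg (fun A : H →L[ℂ] ℂ => A v) h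
  have h0 : ∀ v, Perp G v → star R v = 0 := by
    intro v hv
    apply ext_inner_left ℂ
    intro x
    rw [ContinuousLinearMap.star_eq_adjoint, ContinuousLinearMap.adjoint_inner_right,
      ← inner_conj_symm, hK x v hv, map_zero, inner_zero_right]
  have h1 : ∀ g ∈ G, star R (g.2 + (-I) • g.1) = g.1 := by
    intro g hg
    have h : (innerSL ℂ (g.2 + (-I) • g.1)).comp R = innerSL ℂ g.1 := by
      refine AB2_ext hG AB2_memI _ _ ?_ ?_
      · intro a ha
        simp only [ContinuousLinearMap.comp_apply, innerSL_apply_apply]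
        rw [hR.1 a ha, inner_add_left, inner_add_right, inner_smul_left, inner_smul_right,
          hG.1 g hg a ha]
        simp
      · intro x hx
        simp only [ContinuousLinearMap.comp_apply, innerSL_apply_apply]
        rw [hR.2 x hx, inner_zero_right, hx g hg]
    apply ext_inner_right ℂ
    intro x
    rw [ContinuousLinearMap.star_eq_adjoint, ContinuousLinearMap.adjoint_inner_left]
    exact congrArg (fun A : H →L[ℂ] ℂ => A x) h
  have hn : ‖R‖ ≤ 1 := by
    refine ContinuousLinearMap.opNorm_le_bound _ zero_le_one fun v => ?_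
    obtain ⟨v₁, v₂, hv, k1, k2, k3⟩ := exists_decomp G v
    have e1 : R v = R v₁ := by rw [hv, map_add, hR.2 v₂ k2, add_zero]
    rw [e1, one_mul]
    refine le_trans ?_ k3
    refine le_of_forall_pos_le_add fun e he => ?_
    have hpos : 0 < e / (1 + ‖R‖) := by positivity
    obtain ⟨a, ha, hae⟩ := hG.approx AB2_memI k1 hpos
    have e2 : R v₁ = a.1 - R (a.2 + I • a.1 - v₁) := by
      rw [map_sub, IsRes.span hR.1 ha]; abel
    have e3 : ‖a.1‖ ≤ ‖a.2 + I • a.1‖ :=
      (norm_fst_le a).trans (AB2_norm_le hG (Submodule.le_topologicalClosure _ ha))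
    have e4 : ‖a.2 + I • a.1‖ ≤ ‖v₁‖ + ‖a.2 + I • a.1 - v₁‖ := norm_le_insert' _ _
    have e5 : ‖R (a.2 + I • a.1 - v₁)‖ ≤ ‖R‖ * ‖a.2 + I • a.1 - v₁‖ := R.le_opNorm _
    have e6 : ‖R v₁‖ ≤ ‖a.1‖ + ‖R (a.2 + I • a.1 - v₁)‖ := by rw [e2]; exact norm_sub_le _ _
    have e7 : (1 + ‖R‖) * ‖a.2 + I • a.1 - v₁‖ ≤ e := by
      have h := (lt_div_iff₀ (by positivity : 0 < 1 + ‖R‖)).1 hae
      linarith
    linarith
  have hp : R - star R = (-2 * I) • (star R * R) := by
    refine AB2_ext hG AB2_memI _ _ ?_ ?_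
    · intro g hg
      have e : g.2 + I • g.1 = (g.2 + (-I) • g.1) + (2 * I) • g.1 := by
        rw [add_assoc, ← add_smul]; congr 2; ring
      simp only [sub_apply, smul_apply,
        mul_apply_eq_comp]
      rw [hR.1 g hg]
      conv_lhs => rw [e, map_add, h1 g hg, map_smul]
      rw [neg_mul, neg_smul]; abel
    · intro x hx
      simp only [sub_apply, smul_apply,
        mul_apply_eq_comp, hR.2 x hx, h0 x hx, map_zero, smul_zero, sub_zero]
  have hm : R - star R = (-2 * I) • (R * star R) := by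
    refine AB2_ext hG AB2_memNegI _ _ ?_ ?_
    · intro g hg
      have e : g.2 + (-I) • g.1 = (g.2 + I • g.1) + (-2 * I) • g.1 := by
        rw [add_assoc, ← add_smul]; congr 2; ring
      simp only [sub_apply, smul_apply,
        mul_apply_eq_comp]
      rw [h1 g hg]
      conv_lhs => rw [e, map_add, hR.1 g hg, map_smul]
      abel
    · intro x hx
      simp only [sub_apply, smul_apply,
        mul_apply_eq_comp, hR.2 x hx, h0 x hx, map_zero, smul_zero, sub_zero]
  refine ⟨hn, h1, h0, ?_, hK⟩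
  have hne : (-2 * I : ℂ) ≠ 0 := mul_ne_zero (by norm_num) I_ne_zero
  exact smul_right_injective _ hne (hm.symm.trans hp)

end Pool.Agent.P.MP_e0a138_an.AD
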