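import Pool.Agent.P.MP_e0a138_an.ABase

set_option autoImplicit false
set_option linter.unusedSectionVars false
set_option linter.unusedVariables false

open MeasureTheory Filter Topology Metric Complex
open scoped ENNReal NNReal ContDiff InnerProductSpace ComplexConjugate

noncomputable section
namespace Pool.Agent.P.MP_e0a138_an.AD

variable {H : Type} [NormedAddCommGroup H] [InnerProductSpace ℂ H] [CompleteSpace H]

theorem Ff_props {f : ℝ → ℝ} (hf : Continuous f) (hc : HasCompactSupport f) (h0 : ∀ x, 0 ≤ f x) :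
    Continuous (Ff f) ∧ ∃ r₀ C : ℝ, 0 < r₀ ∧ (∀ r < r₀, Ff f r = 0) ∧
      ∀ r, 0 ≤ Ff f r ∧ Ff f r ≤ C := by
  obtain ⟨L, hL0, hL⟩ := hc.exists_pos_le_norm
  obtain ⟨C, hC⟩ := hf.bounded_above_of_compact_support hc
  have hr : 0 < (1 + L ^ 2)⁻¹ := by positivity
  have hz : ∀ r < (1 + L ^ 2)⁻¹, Ff f r = 0 := fun r h => by
    unfold Ff
    split_ifs with h1
    · refine hL _ ?_
      rw [lt_inv_comm₀ h1 (by positivity)] at h
      rw [Real.norm_of_nonneg (Real.sqrt_nonneg _)]
      exact Real.le_sqrt_of_sq_le (by linarith)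
    · rfl
  refine ⟨continuous_iff_continuousAt.2 fun r => ?_, _, C, hr, hz, fun r => ?_⟩
  · rcases lt_or_ge r (1 + L ^ 2)⁻¹ with h | h
    · refine (continuousAt_const (y := (0 : ℝ))).congr ?_
      filter_upwards [Iio_mem_nhds h] with x hx using (hz x hx).symm
    · have h1 : 0 < r := hr.trans_le h
      have h2 : ContinuousAt (fun r : ℝ => f √(r⁻¹ - 1)) r :=
        hf.continuousAt.comp (Real.continuous_sqrt.continuousAt.comp
          ((continuousAt_inv₀ h1.ne').sub continuousAt_const))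
      refine h2.congr ?_
      filter_upwards [Ioi_mem_nhds h1] with x hx using (if_pos hx).symm
  · unfold Ff
    split_ifs
    · exact ⟨h0 _, (le_abs_self _).trans (hC _)⟩
    · exact ⟨le_rfl, (norm_nonneg _).trans (hC 0)⟩

theorem fc_sqrt {f : ℝ → ℝ} (hf : Continuous f) (hc : HasCompactSupport f) (h0 : ∀ x, 0 ≤ f x) :
    ∃ C : ℝ≥0, ∀ (H : Type) [NormedAddCommGroup H] [InnerProductSpace ℂ H] [CompleteSpace H]
      (R : H →L[ℂ] H), R * star R = star R * R →
      ∃ S : H →L[ℂ] H, star S = S ∧ S * S = fc f R ∧ ‖S‖ ≤ C ∧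
        ∀ e, ∃ v, S e = R v ∧ ‖v‖ ≤ C * ‖S e‖ := by
  obtain ⟨hF, r₀, C, hr, hz, hb⟩ := Ff_props hf hc h0
  refine ⟨⟨max √C √r₀⁻¹, le_max_of_le_left (Real.sqrt_nonneg _)⟩, fun H _ _ _ R hR => ?_⟩
  have hQ : IsSelfAdjoint (star R * R) := IsSelfAdjoint.star_mul_self R
  have hs : Continuous fun r => √(Ff f r) := Real.continuous_sqrt.comp hF
  have hm : ∀ r, 0 < max r r₀ := fun r => lt_max_of_lt_right hr
  have hg : Continuous fun r : ℝ => (max r r₀)⁻¹ :=
    (continuous_id.max continuous_const).inv₀ fun r => (hm r).ne'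
  have hg' : Continuous fun r : ℝ => r * (max r r₀)⁻¹ := continuous_id'.mul hg
  set Q := star R * R with hQd
  set S := cfc (fun r => √(Ff f r)) Q with hS
  set G := cfc (fun r : ℝ => (max r r₀)⁻¹) Q with hG
  have hGs : star G = G := (cfc_predicate (fun r : ℝ => (max r r₀)⁻¹) Q : IsSelfAdjoint G)
  have hQG : Q * G = cfc (fun r : ℝ => r * (max r r₀)⁻¹) Q := by
    rw [cfc_mul _ _ Q continuous_id'.continuousOn hg.continuousOn, cfc_id' ℝ Q]
  have h1 : Q * G * S = S := by
    rw [hQG, hS, ← cfc_mul _ _ Q hg'.continuousOn hs.continuousOn]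
    refine cfc_congr fun r _ => ?_
    rcases lt_or_ge r r₀ with h | h
    · simp [hz r h]
    · simp [max_eq_left h, (hr.trans_le h).ne']
  have h2 : ‖star R * G‖ ≤ √r₀⁻¹ := by
    refine Real.le_sqrt_of_sq_le ?_
    rw [sq, ← CStarRing.norm_star_mul_self, star_mul, star_star, hGs, mul_assoc, ← mul_assoc R,
      hR, hQG, hG, ← cfc_mul _ _ Q hg.continuousOn hg'.continuousOn]
    refine norm_cfc_le (by positivity) fun r hr' => ?_
    have h3 : 0 ≤ r := spectrum_star_mul_self_nonneg r hr'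
    have h4 := hm r
    rw [Real.norm_of_nonneg (by positivity)]
    refine (mul_le_of_le_one_right (by positivity) ?_).trans (inv_anti₀ hr (le_max_right _ _))
    exact mul_inv_le_one_of_le₀ (le_max_left _ _) h4.le
  refine ⟨S, (cfc_predicate (fun r => √(Ff f r)) Q : IsSelfAdjoint S), ?_, ?_, fun e =>
    ⟨(star R * G) (S e), ?_, ?_⟩⟩
  · rw [fc_eq, hS, ← cfc_mul _ _ Q hs.continuousOn hs.continuousOn]
    exact cfc_congr fun r _ => Real.mul_self_sqrt (hb r).1
  · refine le_max_of_le_left (norm_cfc_le (Real.sqrt_nonneg _) fun r _ => ?_)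
    rw [Real.norm_of_nonneg (Real.sqrt_nonneg _)]
    exact Real.sqrt_le_sqrt (hb r).2
  · have h5 : R * (star R * G) * S = S := by rw [← mul_assoc R, hR, h1]
    exact (congrArg (· e) h5).symm
  · exact ((star R * G).le_opNorm _).trans
      (mul_le_mul_of_nonneg_right (le_max_of_le_right h2) (norm_nonneg _))

end Pool.Agent.P.MP_e0a138_an.AD
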