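import Pool.Agent.P.MP_e0a138_an.AB1

set_option autoImplicit false
set_option linter.unusedSectionVars false
set_option linter.unusedVariables false

open MeasureTheory Filter Topology Metric Complex
open scoped ENNReal NNReal ContDiff InnerProductSpace ComplexConjugate

noncomputable section
namespace Pool.Agent.P.MP_e0a138_an.AD

variable {H₁ H₂ : Type} [NormedAddCommGroup H₁] [InnerProductSpace ℂ H₁] [CompleteSpace H₁]
  [NormedAddCommGroup H₂] [InnerProductSpace ℂ H₂] [CompleteSpace H₂] {ι : Type}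
  {l : Filter ℝ} {s : ι → H₂} {Wp : ι → ℝ → H₁}

theorem ab4a_lim {β : Type} [NormedAddCommGroup β] {f : ℝ → β} {b : β} (C : ℝ)
    (h : ∀ e : ℝ, 0 < e → ∃ (g : ℝ → ℝ) (c : ℝ), c ≤ C * e ∧ Tendsto g l (𝓝 c) ∧
      ∀ᶠ t in l, ‖f t - b‖ ≤ g t) : Tendsto f l (𝓝 b) := by
  refine Metric.tendsto_nhds.2 fun ε hε => ?_
  have hC : 0 < |C| + 1 := by positivity
  obtain ⟨g, c, h1, h2, h3⟩ := h (ε / (|C| + 1)) (div_pos hε hC)
  have h4 : c < ε := by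
    refine h1.trans_lt ?_
    rw [← mul_div_assoc, div_lt_iff₀ hC]
    nlinarith [le_abs_self C]
  filter_upwards [h3, h2.eventually (gt_mem_nhds h4)] with t h5 h6
  rw [dist_eq_norm]
  exact h5.trans_lt h6

theorem ab4a_norm {x : ℝ → H₁} {u : H₂}
    (h : Tendsto (fun h => ‖x h‖ ^ 2) l (𝓝 (‖u‖ ^ 2))) : Tendsto (fun h => ‖x h‖) l (𝓝 ‖u‖) := by
  have h1 := h.sqrt
  simpa only [Real.sqrt_sq (norm_nonneg _)] using h1

theorem ab4a_self {x : ℝ → H₁} {u : H₂}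
    (h : Tendsto (fun h => ⟪x h, x h⟫_ℂ) l (𝓝 ⟪u, u⟫_ℂ)) :
    Tendsto (fun h => ‖x h‖) l (𝓝 ‖u‖) := by
  refine ab4a_norm ?_
  have h1 := (RCLike.continuous_re.tendsto _).comp h
  simpa only [Function.comp_def, inner_self_eq_norm_sq] using h1

theorem ab4a_add {x y : ℝ → H₁} {u v : H₂} (hx : Tendsto (fun h => ‖x h‖) l (𝓝 ‖u‖))
    (hy : Tendsto (fun h => ‖y h‖) l (𝓝 ‖v‖))
    (h : Tendsto (fun h => ⟪x h, y h⟫_ℂ) l (𝓝 ⟪u, v⟫_ℂ)) :
    Tendsto (fun h => ‖x h + y h‖) l (𝓝 ‖u + v‖) := by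
  refine ab4a_norm ?_
  simp only [norm_add_sq (𝕜 := ℂ)]
  exact ((hx.pow 2).add (((RCLike.continuous_re.tendsto _).comp h).const_mul 2)).add (hy.pow 2)

theorem ab4a_sub {x y : ℝ → H₁} {u v : H₂} (hx : Tendsto (fun h => ‖x h‖) l (𝓝 ‖u‖))
    (hy : Tendsto (fun h => ‖y h‖) l (𝓝 ‖v‖))
    (h : Tendsto (fun h => ⟪x h, y h⟫_ℂ) l (𝓝 ⟪u, v⟫_ℂ)) :
    Tendsto (fun h => ‖x h - y h‖) l (𝓝 ‖u - v‖) := by
  refine ab4a_norm ?_
  simp only [norm_sub_sq (𝕜 := ℂ)]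
  exact ((hx.pow 2).sub (((RCLike.continuous_re.tendsto _).comp h).const_mul 2)).add (hy.pow 2)

section
variable (hg : ∀ a b, Tendsto (fun h => ⟪Wp a h, Wp b h⟫_ℂ) l (𝓝 ⟪s a, s b⟫_ℂ))
include hg

theorem ab4a_span {u : H₂} (hu : u ∈ Submodule.span ℂ (Set.range s)) : ∃ y : ℝ → H₁,
    (∀ a, Tendsto (fun h => ⟪Wp a h, y h⟫_ℂ) l (𝓝 ⟪s a, u⟫_ℂ)) ∧
    ∀ (x : ℝ → H₁) (v : H₂), (∀ a, Tendsto (fun h => ⟪Wp a h, x h⟫_ℂ) l (𝓝 ⟪s a, v⟫_ℂ)) →
      Tendsto (fun h => ⟪y h, x h⟫_ℂ) l (𝓝 ⟪u, v⟫_ℂ) := by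
  induction hu using Submodule.span_induction with
  | mem u hu =>
    obtain ⟨a, rfl⟩ := hu
    exact ⟨Wp a, fun b => hg b a, fun x v h => h a⟩
  | zero => exact ⟨fun _ => 0, fun a => by simp [tendsto_const_nhds],
      fun x v _ => by simp [tendsto_const_nhds]⟩
  | add u u' _ _ ih ih' =>
    obtain ⟨y, h1, h2⟩ := ih
    obtain ⟨y', h1', h2'⟩ := ih'
    refine ⟨fun h => y h + y' h, fun a => ?_, fun x v h => ?_⟩
    · simp only [inner_add_right]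
      exact (h1 a).add (h1' a)
    · simp only [inner_add_left]
      exact (h2 x v h).add (h2' x v h)
  | smul c u _ ih =>
    obtain ⟨y, h1, h2⟩ := ih
    refine ⟨fun h => c • y h, fun a => ?_, fun x v h => ?_⟩
    · simp only [inner_smul_right]
      exact (h1 a).const_mul c
    · simp only [inner_smul_left]
      exact (h2 x v h).const_mul _

theorem Rel.label (a : ι) : Rel l s Wp (Wp a) (s a) :=
  ⟨Submodule.le_topologicalClosure _ (Submodule.subset_span ⟨a, rfl⟩), ab4a_self (hg a a),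
    fun b => hg b a⟩

theorem Rel.inner {x y : ℝ → H₁} {u v : H₂} (hx : Rel l s Wp x u) (hy : Rel l s Wp y v) :
    Tendsto (fun h => ⟪x h, y h⟫_ℂ) l (𝓝 ⟪u, v⟫_ℂ) := by
  refine ab4a_lim (2 * ‖v‖) fun e he => ?_
  obtain ⟨u', hu', hd⟩ := Metric.mem_closure_iff.1 hx.1 e he
  rw [dist_eq_norm] at hd
  obtain ⟨y', h1, h2⟩ := ab4a_span hg hu'
  have h3 := ab4a_sub (ab4a_self (h2 y' u' h1)) hx.2.1 (h2 x u hx.2.2)
  have h4 := tendsto_iff_norm_sub_tendsto_zero.1 (h2 y v hy.2.2)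
  refine ⟨_, _, ?_, ((h3.mul hy.2.1).add h4).add_const (‖u' - u‖ * ‖v‖),
    Eventually.of_forall fun t => ?_⟩
  · rw [norm_sub_rev]
    nlinarith [norm_nonneg v]
  · have e1 : ⟪x t, y t⟫_ℂ - ⟪u, v⟫_ℂ =
        -⟪y' t - x t, y t⟫_ℂ + (⟪y' t, y t⟫_ℂ - ⟪u', v⟫_ℂ) + ⟪u' - u, v⟫_ℂ := by
      simp only [inner_sub_left]
      ring
    rw [e1]
    refine norm_add₃_le.trans (add_le_add (add_le_add ?_ le_rfl) (norm_inner_le_norm _ _))
    rw [norm_neg]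
    exact norm_inner_le_norm _ _

theorem Rel.add {x y : ℝ → H₁} {u v : H₂} (hx : Rel l s Wp x u) (hy : Rel l s Wp y v) :
    Rel l s Wp (fun h => x h + y h) (u + v) := by
  refine ⟨Submodule.add_mem _ hx.1 hy.1, ab4a_add hx.2.1 hy.2.1 (Rel.inner hg hx hy), fun a => ?_⟩
  simp only [inner_add_right]
  exact (hx.2.2 a).add (hy.2.2 a)

theorem Rel.smul {x : ℝ → H₁} {u : H₂} (c : ℂ) (hx : Rel l s Wp x u) :
    Rel l s Wp (fun h => c • x h) (c • u) := by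
  refine ⟨Submodule.smul_mem _ c hx.1, ?_, fun a => ?_⟩
  · simp only [norm_smul]
    exact hx.2.1.const_mul _
  · simp only [inner_smul_right]
    exact (hx.2.2 a).const_mul c

theorem Rel.zero : Rel l s Wp (fun _ => 0) 0 :=
  ⟨Submodule.zero_mem _, by simp [tendsto_const_nhds], fun a => by simp [tendsto_const_nhds]⟩

theorem Rel.dist {x y : ℝ → H₁} {u v : H₂} (hx : Rel l s Wp x u) (hy : Rel l s Wp y v) :
    Tendsto (fun h => ‖x h - y h‖) l (𝓝 ‖u - v‖) :=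
  ab4a_sub hx.2.1 hy.2.1 (Rel.inner hg hx hy)

theorem Rel.of_approx {x : ℝ → H₁} {v : H₂} (h : ∀ e : ℝ, 0 < e → ∃ y u, Rel l s Wp y u ∧
    ‖u - v‖ ≤ e ∧ ∀ᶠ h in l, ‖y h - x h‖ ≤ e) : Rel l s Wp x v := by
  refine ⟨?_, ab4a_lim 2 fun e he => ?_, fun a => ab4a_lim (2 * ‖s a‖) fun e he => ?_⟩
  · refine (Submodule.isClosed_topologicalClosure _).closure_subset
      (Metric.mem_closure_iff.2 fun e he => ?_)
    obtain ⟨y, u, h1, h2, -⟩ := h (e / 2) (half_pos he)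
    refine ⟨u, h1.1, ?_⟩
    rw [dist_comm, dist_eq_norm]
    linarith
  · obtain ⟨y, u, h1, h2, h3⟩ := h e he
    refine ⟨_, _, ?_, ((tendsto_iff_norm_sub_tendsto_zero.1 h1.2.1).const_add e).add_const e,
      h3.mono fun t ht => ?_⟩
    · linarith
    · have e1 : ‖x t‖ - ‖v‖ = -(‖y t‖ - ‖x t‖) + (‖y t‖ - ‖u‖) + (‖u‖ - ‖v‖) := by ring
      rw [e1]
      refine norm_add₃_le.trans (add_le_add (add_le_add ?_ le_rfl)
        ((abs_norm_sub_norm_le u v).trans h2))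
      rw [norm_neg]
      exact (abs_norm_sub_norm_le _ _).trans ht
  · obtain ⟨y, u, h1, h2, h3⟩ := h e he
    refine ⟨_, _, ?_, (((Rel.label hg a).2.1.mul_const e).add
      (tendsto_iff_norm_sub_tendsto_zero.1 (h1.2.2 a))).add_const (‖s a‖ * e),
      h3.mono fun t ht => ?_⟩
    · linarith
    · have e1 : ⟪Wp a t, x t⟫_ℂ - ⟪s a, v⟫_ℂ =
          -⟪Wp a t, y t - x t⟫_ℂ + (⟪Wp a t, y t⟫_ℂ - ⟪s a, u⟫_ℂ) + ⟪s a, u - v⟫_ℂ := by
        simp only [inner_sub_right]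
        ring
      rw [e1]
      refine norm_add₃_le.trans (add_le_add (add_le_add ?_ le_rfl)
        ((norm_inner_le_norm _ _).trans (mul_le_mul_of_nonneg_left h2 (norm_nonneg _))))
      rw [norm_neg]
      exact (norm_inner_le_norm _ _).trans (mul_le_mul_of_nonneg_left ht (norm_nonneg _))

end

end Pool.Agent.P.MP_e0a138_an.AD
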