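import Pool.Agent.P.MP_e0a138_an.AB4a
import Pool.Agent.P.MP_e0a138_an.AB2

set_option autoImplicit false
set_option linter.unusedSectionVars false
set_option linter.unusedVariables false

open MeasureTheory Filter Topology Metric Complex
open scoped ENNReal NNReal ContDiff InnerProductSpace ComplexConjugate

noncomputable section
namespace Pool.Agent.P.MP_e0a138_an.AD

variable {H₁ H₂ : Type} [NormedAddCommGroup H₁] [InnerProductSpace ℂ H₁] [CompleteSpace H₁]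
  [NormedAddCommGroup H₂] [InnerProductSpace ℂ H₂] [CompleteSpace H₂] {ι : Type}
  {l : Filter ℝ} {s : ι → H₂} {Wp : ι → ℝ → H₁}

variable {G₁ : ℝ → Set (H₁ × H₁)} {G₂ : Set (H₂ × H₂)} {c : ℂ}

theorem AB4b_lift (hA : Apx l G₁ G₂ s Wp c) {a : H₂ × H₂} (ha : a ∈ Submodule.span ℂ G₂) :
    ∃ x y : ℝ → H₁, Rel l s Wp x a.1 ∧ Rel l s Wp y a.2 ∧
      ∀ᶠ h in l, (x h, y h) ∈ Submodule.span ℂ (G₁ h) := by
  induction ha using Submodule.span_induction with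
  | mem g hg =>
    obtain ⟨a, a', e1, e2, w, h1, h2⟩ := hA.int g hg
    have hw : Rel l s Wp w (s a') := Rel.of_approx hA.gram fun e he =>
      ⟨Wp a', s a', Rel.label hA.gram a', by simpa using he.le,
        (h2.eventually_le_const he).mono fun h hh => by rwa [norm_sub_rev]⟩
    have r1 := Rel.smul hA.gram c⁻¹ (Rel.label hA.gram a)
    have r2 := Rel.smul hA.gram c⁻¹ hw
    rw [e1, inv_smul_smul₀ hA.ne] at r1
    rw [e2, inv_smul_smul₀ hA.ne] at r2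
    exact ⟨_, _, r1, r2, h1.mono fun h hh =>
      Submodule.smul_mem _ c⁻¹ (Submodule.subset_span hh)⟩
  | zero =>
    exact ⟨_, _, Rel.zero hA.gram, Rel.zero hA.gram,
      Eventually.of_forall fun h => Submodule.zero_mem _⟩
  | add a b _ _ iha ihb =>
    obtain ⟨x, y, h1, h2, h3⟩ := iha
    obtain ⟨x', y', h1', h2', h3'⟩ := ihb
    exact ⟨_, _, Rel.add hA.gram h1 h1', Rel.add hA.gram h2 h2',
      (h3.and h3').mono fun h hh => Submodule.add_mem _ hh.1 hh.2⟩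
  | smul t a _ iha =>
    obtain ⟨x, y, h1, h2, h3⟩ := iha
    exact ⟨_, _, Rel.smul hA.gram t h1, Rel.smul hA.gram t h2,
      h3.mono fun h hh => Submodule.smul_mem _ t hh⟩

theorem Apx.sym [l.NeBot] (hA : Apx l G₁ G₂ s Wp c) (h1 : ∀ h, Sym (G₁ h)) : Sym G₂ := by
  intro a ha b hb
  obtain ⟨x, y, r1, r2, r3⟩ := AB4b_lift hA (Submodule.subset_span ha)
  obtain ⟨x', y', r1', r2', r3'⟩ := AB4b_lift hA (Submodule.subset_span hb)
  refine tendsto_nhds_unique (Rel.inner hA.gram r2 r1') ((Rel.inner hA.gram r1 r2').congr' ?_)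
  exact (r3.and r3').mono fun h hh => ((h1 h).span _ hh.1 _ hh.2).symm

theorem Apx.res_step (hA : Apx l G₁ G₂ s Wp c) {sg : ℂ} (hs : sg ∈ ({I, -I} : Set ℂ))
    (hG : EssSA G₂) {R₁ : ℝ → H₁ →L[ℂ] H₁} {R₂ : H₂ →L[ℂ] H₂} (n1 : ∀ h, ‖R₁ h‖ ≤ 1)
    (n2 : ‖R₂‖ ≤ 1) (r1 : ∀ h, ∀ g ∈ G₁ h, R₁ h (g.2 + sg • g.1) = g.1)
    (r2 : ∀ g ∈ G₂, R₂ (g.2 + sg • g.1) = g.1) {x : ℝ → H₁} {v : H₂} (hx : Rel l s Wp x v) :
    Rel l s Wp (fun h => R₁ h (x h)) (R₂ v) := by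
  have hv : InK G₂ v := inK_of_mem_closure (by rintro _ ⟨a, rfl⟩; exact hA.sub a) hx.1
  refine Rel.of_approx hA.gram fun e he => ?_
  obtain ⟨a, ha, hd⟩ := hG.approx hs hv he
  obtain ⟨y, y', h1, h2, h3⟩ := AB4b_lift hA ha
  have h4 := Rel.dist hA.gram (Rel.add hA.gram h2 (Rel.smul hA.gram sg h1)) hx
  refine ⟨y, a.1, h1, ?_, (h3.and (h4.eventually_le_const hd)).mono fun h hh => ?_⟩
  · rw [← IsRes.span r2 ha, ← map_sub]
    exact (R₂.le_of_opNorm_le n2 _).trans (by rw [one_mul]; exact hd.le)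
  · have h5 : R₁ h (y' h + sg • y h) = y h := IsRes.span (r1 h) hh.1
    rw [← h5, ← map_sub]
    exact ((R₁ h).le_of_opNorm_le (n1 h) _).trans (by rw [one_mul]; exact hh.2)

end Pool.Agent.P.MP_e0a138_an.AD
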