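import Pool.Agent.P.MP_e0a138_an.AB4b

set_option autoImplicit false
set_option linter.unusedSectionVars false
set_option linter.unusedVariables false

open MeasureTheory Filter Topology Metric Complex
open scoped ENNReal NNReal ContDiff InnerProductSpace ComplexConjugate

noncomputable section
namespace Pool.Agent.P.MP_e0a138_an.AD

variable {H₁ H₂ : Type} [NormedAddCommGroup H₁] [InnerProductSpace ℂ H₁] [CompleteSpace H₁]
  [NormedAddCommGroup H₂] [InnerProductSpace ℂ H₂] [CompleteSpace H₂] {ι : Type}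
  {l : Filter ℝ} {s : ι → H₂} {Wp : ι → ℝ → H₁}

variable {G₁ : ℝ → Set (H₁ × H₁)} {G₂ : Set (H₂ × H₂)} {c : ℂ}

theorem AB4c_near {H : Type} [NormedAddCommGroup H] [InnerProductSpace ℂ H] [CompleteSpace H]
    {R : H →L[ℂ] H} (hR : ‖R‖ ≤ 1) {F : ℝ → ℝ} (hF : Continuous F) {p : Polynomial ℝ} {e : ℝ}
    (he : 0 ≤ e) (hp : ∀ x ∈ Set.Icc (-1 : ℝ) 1, |p.eval x - F x| < e) (v : H) :
    ‖Polynomial.aeval (star R * R) p v - cfc F (star R * R) v‖ ≤ e * ‖v‖ := by
  have hs : IsSelfAdjoint (star R * R) := IsSelfAdjoint.star_mul_self R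
  have hn : ‖star R * R‖ ≤ 1 := by
    rw [CStarRing.norm_star_mul_self]
    exact mul_le_one₀ hR (norm_nonneg _) hR
  have h1 : ‖Polynomial.aeval (star R * R) p - cfc F (star R * R)‖ ≤ e := by
    rw [← cfc_polynomial p (star R * R) hs,
      ← cfc_sub _ _ _ p.continuous.continuousOn hF.continuousOn]
    refine norm_cfc_le he fun x hx => (hp x (abs_le.1 ?_)).le
    exact (spectrum.norm_le_norm_mul_of_mem hx).trans
      (mul_le_one₀ hn (norm_nonneg _) ContinuousLinearMap.norm_id_le)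
  exact ((Polynomial.aeval (star R * R) p - cfc F (star R * R)).le_opNorm v).trans
    (mul_le_mul_of_nonneg_right h1 (norm_nonneg _))

theorem AB4c_poly
    (hg : ∀ a b, Tendsto (fun h => ⟪Wp a h, Wp b h⟫_ℂ) l (𝓝 ⟪s a, s b⟫_ℂ))
    {Q₁ : ℝ → H₁ →L[ℂ] H₁} {Q₂ : H₂ →L[ℂ] H₂}
    (hQ : ∀ x v, Rel l s Wp x v → Rel l s Wp (fun h => Q₁ h (x h)) (Q₂ v)) (p : Polynomial ℝ)
    {x : ℝ → H₁} {v : H₂} (hx : Rel l s Wp x v) :
    Rel l s Wp (fun h => Polynomial.aeval (Q₁ h) p (x h)) (Polynomial.aeval Q₂ p v) := by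
  induction p using Polynomial.induction_on with
  | C r =>
    simp only [Polynomial.aeval_C, Algebra.algebraMap_eq_smul_one,
      smul_apply, one_apply_eq_self, ← Complex.coe_smul]
    exact Rel.smul hg r hx
  | add p q hp hq =>
    simp only [map_add, add_apply]
    exact Rel.add hg hp hq
  | monomial n r ih =>
    have e : Polynomial.C r * Polynomial.X ^ (n + 1) =
        Polynomial.X * (Polynomial.C r * Polynomial.X ^ n) := by ring
    rw [e]
    simp only [map_mul (Polynomial.aeval _) Polynomial.X, Polynomial.aeval_X,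
      mul_apply_eq_comp]
    exact hQ _ _ ih

theorem Apx.cfc_tendsto (hA : Apx l G₁ G₂ s Wp c) (h1 : ∀ h, EssSA (G₁ h)) (h2 : EssSA G₂)
    {R₁ : ℝ → H₁ →L[ℂ] H₁} {R₂ : H₂ →L[ℂ] H₂} (r1 : ∀ h, IsRes (G₁ h) (R₁ h)) (r2 : IsRes G₂ R₂)
    {F : ℝ → ℝ} (hF : Continuous F) (a b : ι) :
    Tendsto (fun h => ⟪Wp a h, cfc F (star (R₁ h) * R₁ h) (Wp b h)⟫_ℂ) l
      (𝓝 ⟪s a, cfc F (star R₂ * R₂) (s b)⟫_ℂ) := by
  have hg := hA.gram
  have p1 := fun h => (r1 h).props (h1 h)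
  have p2 := r2.props h2
  have hQ : ∀ x v, Rel l s Wp x v →
      Rel l s Wp (fun h => (star (R₁ h) * R₁ h) (x h)) ((star R₂ * R₂) v) := fun x v hx =>
    hA.res_step (sg := -I) (R₁ := fun h => star (R₁ h)) (R₂ := star R₂) (Or.inr rfl) h2
      (fun h => (norm_star _).trans_le (p1 h).1) ((norm_star _).trans_le p2.1)
      (fun h => (p1 h).2.1) p2.2.1
      (hA.res_step (sg := I) (Or.inl rfl) h2 (fun h => (p1 h).1) p2.1 (fun h => (r1 h).1) r2.1 hx)
  refine Rel.inner hg (Rel.label hg a) (Rel.of_approx hg fun e he => ?_)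
  have hb : 0 < ‖s b‖ + 1 := by positivity
  have he' := div_pos he hb
  obtain ⟨p, hp⟩ := exists_polynomial_near_of_continuousOn (-1) 1 F hF.continuousOn _ he'
  have hk : ∀ t : ℝ, t ≤ ‖s b‖ + 1 → e / (‖s b‖ + 1) * t ≤ e := fun t ht =>
    (mul_le_mul_of_nonneg_left ht he'.le).trans_eq (div_mul_cancel₀ e hb.ne')
  refine ⟨_, _, AB4c_poly hg hQ p (Rel.label hg b),
    (AB4c_near p2.1 hF he'.le hp _).trans (hk _ (by linarith)), ?_⟩
  filter_upwards [(Rel.label hg b).2.1.eventually (ge_mem_nhds (lt_add_one ‖s b‖))] with h hh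
  exact (AB4c_near (p1 h).1 hF he'.le hp _).trans (hk _ hh)

end Pool.Agent.P.MP_e0a138_an.AD
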