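import Pool.Agent.P.MP_e0a138_an.ABase

set_option autoImplicit false
set_option linter.unusedSectionVars false
set_option linter.unusedVariables false

open MeasureTheory Filter Topology Metric Complex
open scoped ENNReal NNReal ContDiff InnerProductSpace ComplexConjugate

noncomputable section
namespace Pool.Agent.P.MP_e0a138_an.AD

variable {H : Type} [NormedAddCommGroup H] [InnerProductSpace ℂ H] [CompleteSpace H]

theorem AB5a_enorm_sq {E : Type} [NormedAddCommGroup E] (x : E) :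
    ‖x‖ₑ ^ 2 = ENNReal.ofReal (‖x‖ ^ 2) := by
  rw [← ofReal_norm, ENNReal.ofReal_pow (norm_nonneg _)]

theorem enorm_sq_eq_tsum {J : Type} (b : HilbertBasis J ℂ H) (x : H) :
    ‖x‖ₑ ^ 2 = ∑' j, ‖⟪x, b j⟫_ℂ‖ₑ ^ 2 := by
  have h1 := (b.hasSum_inner_mul_inner x x).mapL Complex.reCLM
  have h2 : HasSum (fun j => ‖⟪x, b j⟫_ℂ‖ ^ 2) (‖x‖ ^ 2) := by
    convert h1 using 1
    · funext j
      rw [← inner_conj_symm (b j) x, Complex.mul_conj, Complex.normSq_eq_norm_sq]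
      simp only [Complex.reCLM_apply, Complex.ofReal_re]
    · simp only [Complex.reCLM_apply]
      rw [← inner_self_eq_norm_sq (𝕜 := ℂ) x]
      rfl
  rw [AB5a_enorm_sq, ← h2.tsum_eq,
    ENNReal.ofReal_tsum_of_nonneg (fun j => sq_nonneg _) h2.summable]
  exact tsum_congr fun j => (AB5a_enorm_sq _).symm

theorem enorm_sq_eq_ofReal {S : H →L[ℂ] H} (hS : star S = S) (x : H) :
    ‖S x‖ₑ ^ 2 = ENNReal.ofReal (⟪x, (S * S) x⟫_ℂ).re := by
  have h : ⟪x, (S * S) x⟫_ℂ = ⟪S x, S x⟫_ℂ := by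
    have h0 : ContinuousLinearMap.adjoint S = S := by
      rw [← ContinuousLinearMap.star_eq_adjoint]; exact hS
    have := ContinuousLinearMap.adjoint_inner_right S x (S x)
    rw [h0] at this
    exact this
  rw [h, AB5a_enorm_sq, ← inner_self_eq_norm_sq (𝕜 := ℂ) (S x)]
  rfl

theorem AB5a_bessel {n : ℕ} {e : Fin n → H} (he : Orthonormal ℂ e) (y : H) :
    ∑ j, ‖⟪e j, y⟫_ℂ‖ₑ ^ 2 ≤ ‖y‖ₑ ^ 2 := by
  have h := he.sum_inner_products_le y (s := Finset.univ)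
  simp only [AB5a_enorm_sq]
  rw [← ENNReal.ofReal_sum_of_nonneg (fun j _ => sq_nonneg _)]
  exact ENNReal.ofReal_le_ofReal h

theorem AB5a_adj (A : H →L[ℂ] H) (x y : H) : ⟪A x, y⟫_ℂ = ⟪x, (star A) y⟫_ℂ := by
  rw [ContinuousLinearMap.star_eq_adjoint, ContinuousLinearMap.adjoint_inner_right]

theorem AB5a_enorm_inner_symm (x y : H) : ‖⟪x, y⟫_ℂ‖ₑ = ‖⟪y, x⟫_ℂ‖ₑ := by
  rw [← ofReal_norm, ← ofReal_norm, norm_inner_symm]

theorem AB5a_hs {J : Type} (b : HilbertBasis J ℂ H) (A : H →L[ℂ] H) :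
    ∑' j, ‖A (b j)‖ₑ ^ 2 = ∑' j, ‖(star A) (b j)‖ₑ ^ 2 := by
  have h1 : ∀ j, ‖A (b j)‖ₑ ^ 2 = ∑' k, ‖⟪(star A) (b k), b j⟫_ℂ‖ₑ ^ 2 := by
    intro j
    rw [enorm_sq_eq_tsum b]
    refine tsum_congr fun k => ?_
    rw [AB5a_adj, AB5a_enorm_inner_symm]
  simp only [h1]
  rw [ENNReal.tsum_comm]
  exact tsum_congr fun k => (enorm_sq_eq_tsum b _).symm

theorem AB5a_fin_le {J : Type} (b : HilbertBasis J ℂ H) (A : H →L[ℂ] H) {n : ℕ} {e : Fin n → H}
    (he : Orthonormal ℂ e) : ∑ j, ‖A (e j)‖ₑ ^ 2 ≤ ∑' k, ‖(star A) (b k)‖ₑ ^ 2 := by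
  have h1 : ∀ j, ‖A (e j)‖ₑ ^ 2 = ∑' k, ‖⟪e j, (star A) (b k)⟫_ℂ‖ₑ ^ 2 := by
    intro j
    rw [enorm_sq_eq_tsum b]
    refine tsum_congr fun k => ?_
    rw [AB5a_adj]
  simp only [h1]
  rw [← tsum_fintype (L := SummationFilter.unconditional _), ENNReal.tsum_comm]
  refine ENNReal.tsum_le_tsum fun k => ?_
  rw [tsum_fintype]
  exact AB5a_bessel he _

theorem trA_eq_tsum {J : Type} (b : HilbertBasis J ℂ H) {M S : H →L[ℂ] H} (hM : star M = M)
    (hS : star S = S) : trA M (S * S) = ∑' j, ‖M (S (b j))‖ₑ ^ 2 := by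
  have hst : star (S * M) = M * S := by rw [star_mul, hM, hS]
  have hterm : ∀ x : H, ENNReal.ofReal (⟪M x, (S * S) (M x)⟫_ℂ).re = ‖(S * M) x‖ₑ ^ 2 :=
    fun x => (enorm_sq_eq_ofReal hS (M x)).symm
  unfold trA
  simp only [hterm]
  apply le_antisymm
  · refine iSup_le fun n => iSup_le fun e => iSup_le fun he => ?_
    have := AB5a_fin_le b (S * M) he
    rw [hst] at this
    exact this
  · have h2 := AB5a_hs b (S * M)
    rw [hst] at h2
    have h3 : ∑' j, ‖M (S (b j))‖ₑ ^ 2 = ∑' j, ‖(S * M) (b j)‖ₑ ^ 2 := h2.symm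
    rw [h3, ENNReal.tsum_eq_iSup_sum]
    refine iSup_le fun s => ?_
    have he : Orthonormal ℂ (fun j : Fin s.card => b (s.equivFin.symm j : J)) :=
      b.orthonormal.comp (fun j : Fin s.card => (s.equivFin.symm j : J))
        (Subtype.val_injective.comp s.equivFin.symm.injective)
    refine le_iSup_of_le s.card (le_iSup_of_le _ (le_iSup_of_le he (le_of_eq ?_)))
    rw [← Finset.sum_coe_sort s]
    exact (s.equivFin.symm.sum_comp (fun j : s => ‖(S * M) (b (j : J))‖ₑ ^ 2)).symm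

theorem exists_countable_basis [TopologicalSpace.SeparableSpace H] :
    ∃ (J : Type) (_ : Countable J), Nonempty (HilbertBasis J ℂ H) := by
  obtain ⟨w, b, hb⟩ := exists_hilbertBasis ℂ H
  refine ⟨w, ?_, ⟨b⟩⟩
  refine Pairwise.countable_of_isOpen_disjoint (s := fun j : w => ball (b j) (1 / 2)) ?_
    (fun j => isOpen_ball) (fun j => nonempty_ball.2 (by norm_num))
  intro i j hij
  refine ball_disjoint_ball ?_
  have h0 : ⟪b i, b j⟫_ℂ = 0 := b.orthonormal.2 hij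
  have h1 := norm_sub_sq (𝕜 := ℂ) (b i) (b j)
  rw [h0, b.orthonormal.1 i, b.orthonormal.1 j] at h1
  simp only [map_zero, mul_zero, sub_zero] at h1
  rw [dist_eq_norm]
  nlinarith [norm_nonneg (b i - b j)]

end Pool.Agent.P.MP_e0a138_an.AD
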