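import Pool.Agent.P.MP_e0a138_an.AB5a

set_option autoImplicit false
set_option linter.unusedSectionVars false
set_option linter.unusedVariables false

open MeasureTheory Filter Topology Metric Complex
open scoped ENNReal NNReal ContDiff InnerProductSpace ComplexConjugate

noncomputable section
namespace Pool.Agent.P.MP_e0a138_an.AD

variable {H : Type} [NormedAddCommGroup H] [InnerProductSpace ℂ H] [CompleteSpace H]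

variable [TopologicalSpace.SeparableSpace H] {Ω J : Type} [MeasurableSpace Ω] [Fintype J]
  (ν : Measure Ω) {w : J → Ω → H}

theorem AB5b_norm {I : Type} (b : HilbertBasis I ℂ H) {S : H →L[ℂ] H} (hS : star S = S) (x : H) :
    ‖S x‖ₑ ^ 2 = ∑' i, ‖⟪x, S (b i)⟫_ℂ‖ₑ ^ 2 := by
  rw [enorm_sq_eq_tsum b]
  refine tsum_congr fun i => ?_
  rw [← ContinuousLinearMap.adjoint_inner_right, ← ContinuousLinearMap.star_eq_adjoint, hS]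

theorem AB5b_sum {I : Type} [Countable I] (b : HilbertBasis I ℂ H)
    (hw : ∀ j u, Measurable fun o => ⟪w j o, u⟫_ℂ) {S : H →L[ℂ] H} (hS : star S = S)
    (μ : Measure Ω) : ∑ j, ∫⁻ o, ‖S (w j o)‖ₑ ^ 2 ∂μ =
      ∑' i, ∑ j, ∫⁻ o, ‖⟪w j o, S (b i)⟫_ℂ‖ₑ ^ 2 ∂μ := by
  rw [Summable.tsum_finsetSum fun _ _ => ENNReal.summable]
  refine Finset.sum_congr rfl fun j _ => ?_
  simp_rw [AB5b_norm b hS]
  exact lintegral_tsum fun i => ((hw j _).enorm.pow_const 2).aemeasurable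

theorem measurable_frame (hw : ∀ j u, Measurable fun o => ⟪w j o, u⟫_ℂ) {S : H →L[ℂ] H}
    (hS : star S = S) (j : J) : Measurable fun o => ‖S (w j o)‖ₑ ^ 2 := by
  obtain ⟨I, _, ⟨b⟩⟩ := exists_countable_basis (H := H)
  simp_rw [AB5b_norm b hS]
  exact Measurable.tsum fun i => (hw j _).enorm.pow_const 2

theorem frame_eq (hw : ∀ j u, Measurable fun o => ⟪w j o, u⟫_ℂ) {M S : H →L[ℂ] H}
    (hM : star M = M) (hS : star S = S) (c : ℝ≥0∞)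
    (h : ∀ e, ∑ j, ∫⁻ o, ‖⟪w j o, S e⟫_ℂ‖ₑ ^ 2 ∂ν = c * ‖M (S e)‖ₑ ^ 2) :
    ∑ j, ∫⁻ o, ‖S (w j o)‖ₑ ^ 2 ∂ν = c * trA M (S * S) := by
  obtain ⟨I, _, ⟨b⟩⟩ := exists_countable_basis (H := H)
  rw [AB5b_sum b hw hS, trA_eq_tsum b hM hS, ← ENNReal.tsum_mul_left]
  exact tsum_congr fun i => h _

theorem frame_trunc (hw : ∀ j u, Measurable fun o => ⟪w j o, u⟫_ℂ) {S : H →L[ℂ] H}
    (hS : star S = S) {c d : ℝ≥0∞} (hc : c ≠ ⊤) {K : Set Ω} (hK : MeasurableSet K)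
    (h : ∀ e, ∑ j, ∫⁻ o, ‖⟪w j o, S e⟫_ℂ‖ₑ ^ 2 ∂ν = c * ‖S e‖ₑ ^ 2)
    (ht : ∀ e, ∑ j, ∫⁻ o in Kᶜ, ‖⟪w j o, S e⟫_ℂ‖ₑ ^ 2 ∂ν ≤ d * (c * ‖S e‖ₑ ^ 2)) :
    ∑ j, ∫⁻ o in K, ‖S (w j o)‖ₑ ^ 2 ∂ν ≤ c * trA 1 (S * S) ∧
      (1 - d) * (c * trA 1 (S * S)) ≤ ∑ j, ∫⁻ o in K, ‖S (w j o)‖ₑ ^ 2 ∂ν := by
  obtain ⟨I, _, ⟨b⟩⟩ := exists_countable_basis (H := H)
  have hs : ∀ e, (∑ j, ∫⁻ o in K, ‖⟪w j o, S e⟫_ℂ‖ₑ ^ 2 ∂ν) +
      ∑ j, ∫⁻ o in Kᶜ, ‖⟪w j o, S e⟫_ℂ‖ₑ ^ 2 ∂ν = c * ‖S e‖ₑ ^ 2 := fun e => by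
    rw [← Finset.sum_add_distrib, ← h e]
    exact Finset.sum_congr rfl fun j _ => lintegral_add_compl _ hK
  rw [AB5b_sum b hw hS, trA_eq_tsum b (star_one _) hS, ← ENNReal.tsum_mul_left,
    ← ENNReal.tsum_mul_left]
  refine ⟨ENNReal.tsum_le_tsum fun i => ?_, ENNReal.tsum_le_tsum fun i => ?_⟩
  · exact le_self_add.trans (hs (b i)).le
  · have hf : c * ‖S (b i)‖ₑ ^ 2 ≠ ⊤ := ENNReal.mul_ne_top hc (ENNReal.pow_ne_top enorm_ne_top)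
    rw [one_apply_eq_self, ENNReal.sub_mul fun _ _ => hf, one_mul, tsub_le_iff_right]
    exact (hs (b i)).ge.trans (add_le_add le_rfl (ht _))

end Pool.Agent.P.MP_e0a138_an.AD
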