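import Pool.Agent.P.MP_e0a138_an.AB2

set_option autoImplicit false
set_option linter.unusedSectionVars false
set_option linter.unusedVariables false

open MeasureTheory Filter Topology Metric Complex
open scoped ENNReal NNReal ContDiff InnerProductSpace ComplexConjugate

noncomputable section
namespace Pool.Agent.P.MP_e0a138_an.AD

variable {H : Type} [NormedAddCommGroup H] [InnerProductSpace ℂ H] [CompleteSpace H]

theorem tail_ext {G : Set (H × H)} {R : H →L[ℂ] H} (hG : EssSA G) (hR : IsRes G R)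
    (hsub : ∀ a ∈ Submodule.span ℂ G, a ∈ G) {Ω J : Type} [MeasurableSpace Ω] [Fintype J]
    (ν : Measure Ω) {w : J → Ω → H} (hw : ∀ j u, Measurable fun o => ⟪w j o, u⟫_ℂ)
    {a : Ω → ℝ≥0∞} (ha : Measurable a) (ha' : ∀ o, a o ≠ ⊤) {C : ℝ≥0∞} (hC : C ≠ ⊤)
    (h : ∀ g ∈ G, ∑ j, ∫⁻ o, a o * ‖⟪w j o, g.1⟫_ℂ‖ₑ ^ 2 ∂ν ≤ C * (‖g.1‖ₑ ^ 2 + ‖g.2‖ₑ ^ 2))
    (v : H) : ∑ j, ∫⁻ o, a o * ‖⟪w j o, R v⟫_ℂ‖ₑ ^ 2 ∂ν ≤ C * ‖v‖ₑ ^ 2 := by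
  obtain ⟨v₁, v₂, hv, h1, h2, hn⟩ := exists_decomp G v
  have hI : I ∈ ({I, -I} : Set ℂ) := Set.mem_insert _ _
  choose g hg hgv using fun n : ℕ => hG.approx hI h1 (e := 1 / ((n : ℝ) + 1)) (by positivity)
  have hlim : Tendsto (fun n => (g n).2 + I • (g n).1) atTop (𝓝 v₁) :=
    tendsto_iff_norm_sub_tendsto_zero.2 (squeeze_zero (fun _ => norm_nonneg _)
      (fun n => (hgv n).le) tendsto_one_div_add_atTop_nhds_zero_nat)
  have hRv : R v = R v₁ := by rw [hv, map_add, hR.2 v₂ h2, add_zero]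
  have hlim1 : Tendsto (fun n => (g n).1) atTop (𝓝 (R v)) := by
    rw [hRv]
    exact ((R.continuous.tendsto v₁).comp hlim).congr fun n => hR.1 _ (hsub _ (hg n))
  have hm : ∀ j u, Measurable fun o => a o * ‖⟪w j o, u⟫_ℂ‖ₑ ^ 2 := fun j u =>
    ha.mul ((hw j u).enorm.pow_const 2)
  have hsq : Continuous fun x : ℝ≥0∞ => x ^ 2 := ENNReal.continuous_pow 2
  have hpt : ∀ o, Tendsto (fun n => ∑ j, a o * ‖⟪w j o, (g n).1⟫_ℂ‖ₑ ^ 2) atTop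
      (𝓝 (∑ j, a o * ‖⟪w j o, R v⟫_ℂ‖ₑ ^ 2)) := fun o =>
    tendsto_finsetSum _ fun j _ => ENNReal.Tendsto.const_mul
      ((hsq.tendsto _).comp (tendsto_const_nhds.inner hlim1).enorm) (Or.inr (ha' o))
  have hrhs : ∀ n, ‖(g n).1‖ₑ ^ 2 + ‖(g n).2‖ₑ ^ 2 = ‖(g n).2 + I • (g n).1‖ₑ ^ 2 := by
    intro n
    have := Sym.norm_sq (G := G) hG.1 (hg n) hI
    rw [← ofReal_norm_eq_enorm, ← ofReal_norm_eq_enorm, ← ofReal_norm_eq_enorm,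
      ← ENNReal.ofReal_pow (norm_nonneg _), ← ENNReal.ofReal_pow (norm_nonneg _),
      ← ENNReal.ofReal_pow (norm_nonneg _), this,
      ENNReal.ofReal_add (sq_nonneg _) (sq_nonneg _)]
  have hr : Tendsto (fun n => C * ‖(g n).2 + I • (g n).1‖ₑ ^ 2) atTop (𝓝 (C * ‖v₁‖ₑ ^ 2)) :=
    ENNReal.Tendsto.const_mul ((hsq.tendsto _).comp hlim.enorm) (Or.inr hC)
  calc ∑ j, ∫⁻ o, a o * ‖⟪w j o, R v⟫_ℂ‖ₑ ^ 2 ∂ν
      = ∫⁻ o, ∑ j, a o * ‖⟪w j o, R v⟫_ℂ‖ₑ ^ 2 ∂ν :=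
        (lintegral_finset_sum _ fun j _ => hm j _).symm
    _ = ∫⁻ o, liminf (fun n => ∑ j, a o * ‖⟪w j o, (g n).1⟫_ℂ‖ₑ ^ 2) atTop ∂ν :=
        lintegral_congr fun o => (hpt o).liminf_eq.symm
    _ ≤ liminf (fun n => ∫⁻ o, ∑ j, a o * ‖⟪w j o, (g n).1⟫_ℂ‖ₑ ^ 2 ∂ν) atTop :=
        lintegral_liminf_le fun n => Finset.measurable_sum _ fun j _ => hm j _
    _ ≤ liminf (fun n => C * ‖(g n).2 + I • (g n).1‖ₑ ^ 2) atTop := by
        refine liminf_le_liminf (Eventually.of_forall fun n => ?_)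
        rw [lintegral_finset_sum _ fun j _ => hm j _, ← hrhs]
        exact h _ (hsub _ (hg n))
    _ = C * ‖v₁‖ₑ ^ 2 := hr.liminf_eq
    _ ≤ C * ‖v‖ₑ ^ 2 := by
        have : ‖v₁‖ₑ ≤ ‖v‖ₑ := by
          rw [← ofReal_norm_eq_enorm, ← ofReal_norm_eq_enorm]
          exact ENNReal.ofReal_le_ofReal hn
        gcongr

end Pool.Agent.P.MP_e0a138_an.AD
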