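import Pool.Agent.P.MP_e0a138_an.AB1

set_option autoImplicit false
set_option linter.unusedSectionVars false
set_option linter.unusedVariables false

open MeasureTheory Filter Topology Metric Complex
open scoped ENNReal NNReal ContDiff InnerProductSpace ComplexConjugate

noncomputable section
namespace Pool.Agent.P.MP_e0a138_an.AD

variable {N p q k : ℕ} {W : Type} [NormedAddCommGroup W] [InnerProductSpace ℂ W]
  [FiniteDimensional ℂ W] [CompleteSpace W]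

variable {S : Type} [MeasurableSpace S] {ν : Measure S}

theorem toL_ae {f : S → W} (h : MemLp f 2 ν) : toL ν f =ᵐ[ν] f := by
  unfold toL
  rw [dif_pos h]
  exact h.coeFn_toLp

theorem memLp_of_ae {a : Lp W 2 ν} {f : S → W} (h : a =ᵐ[ν] f) : MemLp f 2 ν :=
  (memLp_congr_ae h).1 (Lp.memLp a)

theorem inner_eq_of_ae {a b : Lp W 2 ν} {f g : S → W} (ha : a =ᵐ[ν] f) (hb : b =ᵐ[ν] g) :
    ⟪a, b⟫_ℂ = ∫ s, ⟪f s, g s⟫_ℂ ∂ν := by
  rw [L2.inner_def]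
  refine integral_congr_ae ?_
  filter_upwards [ha, hb] with s h1 h2
  rw [h1, h2]

theorem AB7_eLp_sq (f : S → W) : eLpNorm f 2 ν ^ 2 = ∫⁻ s, ‖f s‖ₑ ^ 2 ∂ν := by
  rw [eLpNorm_eq_lintegral_rpow_enorm_toReal (by norm_num) (by norm_num)]
  simp only [ENNReal.toReal_ofNat]
  rw [← ENNReal.rpow_natCast, ← ENNReal.rpow_mul]
  norm_num

theorem enorm_sq_eq_of_ae {a : Lp W 2 ν} {f : S → W} (ha : a =ᵐ[ν] f) :
    ‖a‖ₑ ^ 2 = ∫⁻ s, ‖f s‖ₑ ^ 2 ∂ν := by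
  rw [Lp.enorm_def, eLpNorm_congr_ae ha, AB7_eLp_sq]

theorem memLp_two_iff {f : S → W} :
    MemLp f 2 ν ↔ AEStronglyMeasurable f ν ∧ ∫⁻ s, ‖f s‖ₑ ^ 2 ∂ν ≠ ⊤ := by
  rw [← AB7_eLp_sq]
  constructor
  · intro h
    exact ⟨h.1, ENNReal.pow_ne_top h.2.ne⟩
  · rintro ⟨h1, h2⟩
    refine ⟨h1, lt_top_iff_ne_top.2 fun h => h2 ?_⟩
    rw [h]
    simp

theorem AB7_meas {A : S → W →L[ℂ] W} (hA : AEStronglyMeasurable A ν) {f : S → W}
    (hf : AEStronglyMeasurable f ν) : AEStronglyMeasurable (fun s => A s (f s)) ν := by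
  have hc : Continuous fun z : (W →L[ℂ] W) × W => z.1 z.2 := by fun_prop
  exact hc.comp_aestronglyMeasurable (hA.prodMk hf)

theorem AB7_le {A : S → W →L[ℂ] W} {C : ℝ} (hC : ∀ᵐ s ∂ν, ‖A s‖ ≤ C) (f : S → W) :
    ∀ᵐ s ∂ν, ‖A s (f s)‖ ≤ C * ‖f s‖ := by
  filter_upwards [hC] with s hs
  exact ((A s).le_opNorm _).trans (mul_le_mul_of_nonneg_right hs (norm_nonneg _))

theorem AB7_mem {A : S → W →L[ℂ] W} (hA : AEStronglyMeasurable A ν) {C : ℝ}
    (hC : ∀ᵐ s ∂ν, ‖A s‖ ≤ C) (v : Lp W 2 ν) : MemLp (fun s => A s (v s)) 2 ν :=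
  MemLp.of_le_mul (Lp.memLp v) (AB7_meas hA (Lp.aestronglyMeasurable v)) (AB7_le hC v)

theorem exists_mul {A : S → W →L[ℂ] W} (hA : AEStronglyMeasurable A ν) {C : ℝ}
    (hC : ∀ᵐ s ∂ν, ‖A s‖ ≤ C) :
    ∃ M : Lp W 2 ν →L[ℂ] Lp W 2 ν, ∀ v, M v =ᵐ[ν] fun s => A s (v s) := by
  let L : Lp W 2 ν →ₗ[ℂ] Lp W 2 ν :=
    { toFun := fun v => (AB7_mem hA hC v).toLp _
      map_add' := fun v w => by
        refine Lp.ext ?_
        filter_upwards [(AB7_mem hA hC (v + w)).coeFn_toLp, (AB7_mem hA hC v).coeFn_toLp,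
          (AB7_mem hA hC w).coeFn_toLp, Lp.coeFn_add v w,
          Lp.coeFn_add ((AB7_mem hA hC v).toLp _) ((AB7_mem hA hC w).toLp _)] with s h1 h2 h3 h4 h5
        rw [h1, h5, Pi.add_apply, h2, h3, h4, Pi.add_apply, map_add]
      map_smul' := fun c v => by
        refine Lp.ext ?_
        filter_upwards [(AB7_mem hA hC (c • v)).coeFn_toLp, (AB7_mem hA hC v).coeFn_toLp,
          Lp.coeFn_smul c v, Lp.coeFn_smul c ((AB7_mem hA hC v).toLp _)] with s h1 h2 h3 h4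
        rw [h1, RingHom.id_apply, h4, Pi.smul_apply, h2, h3, Pi.smul_apply, map_smul] }
  have hL : ∀ v, L v =ᵐ[ν] fun s => A s (v s) := fun v => (AB7_mem hA hC v).coeFn_toLp
  refine ⟨L.mkContinuous C fun v => ?_, hL⟩
  refine Lp.norm_le_mul_norm_of_ae_le_mul ?_
  filter_upwards [hL v, AB7_le hC v] with s h1 h2
  rw [h1]
  exact h2

theorem AB7_tr {w : S → ℝ} {M : Lp W 2 ν →L[ℂ] Lp W 2 ν}
    (hM : ∀ v, M v =ᵐ[ν] fun s => (w s : ℂ) • v s) (T : Lp W 2 ν →L[ℂ] Lp W 2 ν) :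
    tr w T = trA M T := by
  unfold tr trA
  refine le_antisymm ?_ ?_
  · refine iSup_le fun n => iSup_le fun e => iSup_le fun v => iSup_le fun he => iSup_le fun hv => ?_
    have : ∀ j, v j = M (e j) := fun j => Lp.ext ((hv j).trans (hM (e j)).symm)
    refine le_iSup_of_le n (le_iSup_of_le e (le_iSup_of_le he (le_of_eq ?_)))
    simp only [this]
  · refine iSup_le fun n => iSup_le fun e => iSup_le fun he => ?_
    exact le_iSup_of_le n (le_iSup_of_le e (le_iSup_of_le (fun j => M (e j))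
      (le_iSup_of_le he (le_iSup_of_le (fun j => hM (e j)) le_rfl))))

theorem exists_mul_real {w : S → ℝ} (hw : AEStronglyMeasurable w ν) {C : ℝ}
    (hC : ∀ᵐ s ∂ν, |w s| ≤ C) :
    ∃ M : Lp W 2 ν →L[ℂ] Lp W 2 ν, star M = M ∧ (∀ v, M v =ᵐ[ν] fun s => (w s : ℂ) • v s) ∧
      ∀ T, tr w T = trA M T := by
  have hc : Continuous fun r : ℝ => ((r : ℂ) • (1 : W →L[ℂ] W)) := by fun_prop
  have hA : AEStronglyMeasurable (fun s => ((w s : ℂ) • (1 : W →L[ℂ] W))) ν :=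
    hc.comp_aestronglyMeasurable hw
  have hb : ∀ᵐ s ∂ν, ‖((w s : ℂ) • (1 : W →L[ℂ] W))‖ ≤ C := by
    filter_upwards [hC] with s hs
    rw [norm_smul, Complex.norm_real, Real.norm_eq_abs]
    refine le_trans ?_ hs
    have h1 : ‖(1 : W →L[ℂ] W)‖ ≤ 1 := ContinuousLinearMap.norm_id_le
    exact mul_le_of_le_one_right (abs_nonneg _) h1
  obtain ⟨M, hM⟩ := exists_mul hA hb
  have hM' : ∀ v, M v =ᵐ[ν] fun s => (w s : ℂ) • v s := hM
  refine ⟨M, ?_, hM', AB7_tr hM'⟩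
  rw [ContinuousLinearMap.star_eq_adjoint]
  symm
  rw [ContinuousLinearMap.eq_adjoint_iff]
  intro x y
  rw [inner_eq_of_ae (hM' x) (ae_eq_refl _), inner_eq_of_ae (ae_eq_refl _) (hM' y)]
  refine integral_congr_ae (Eventually.of_forall fun s => ?_)
  simp only [inner_smul_left, inner_smul_right, Complex.conj_ofReal]

theorem tr_one (T : Lp W 2 ν →L[ℂ] Lp W 2 ν) : tr (fun _ => 1) T = trA 1 T := by
  refine AB7_tr (fun v => Eventually.of_forall fun s => ?_) T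
  simp

theorem norm_proj_le {P : W →L[ℂ] W} (h1 : P * P = P) (h2 : star P = P) : ‖P‖ ≤ 1 := by
  have h3 : ‖P‖ * ‖P‖ = ‖P‖ := by
    rw [← CStarRing.norm_star_mul_self, h2, h1]
  by_contra h
  push Not at h
  nlinarith

theorem AB7_proj {P : W →L[ℂ] W} (h2 : star P = P) (x y : W) : ⟪P x, y⟫_ℂ = ⟪x, P y⟫_ℂ := by
  conv_lhs => rw [← h2]
  rw [ContinuousLinearMap.star_eq_adjoint, ContinuousLinearMap.adjoint_inner_left]

theorem proj_val {G : Set (Lp W 2 ν × Lp W 2 ν)} {P : S → W →L[ℂ] W}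
    (hP : AEStronglyMeasurable P ν) (hP2 : ∀ᵐ s ∂ν, P s * P s = P s ∧ star (P s) = P s)
    (hG : ∀ g ∈ G, ∀ᵐ s ∂ν, P s (g.1 s) = g.1 s) {v : Lp W 2 ν} (hv : InK G v) :
    ∀ᵐ s ∂ν, P s (v s) = v s := by
  have hb : ∀ᵐ s ∂ν, ‖P s‖ ≤ 1 := by
    filter_upwards [hP2] with s hs
    exact norm_proj_le hs.1 hs.2
  obtain ⟨M, hM⟩ := exists_mul hP hb
  have hw : (v - M v : Lp W 2 ν) =ᵐ[ν] fun s => v s - P s (v s) := by
    filter_upwards [Lp.coeFn_sub v (M v), hM v] with s h1 h2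
    rw [h1, Pi.sub_apply, h2]
  have key : ∀ u : Lp W 2 ν, (∀ᵐ s ∂ν, P s (u s) = u s) → ⟪u, v - M v⟫_ℂ = 0 := by
    intro u hu
    rw [inner_eq_of_ae (ae_eq_refl _) hw]
    refine integral_eq_zero_of_ae ?_
    filter_upwards [hu, hP2] with s h1 h2
    rw [inner_sub_right, ← AB7_proj h2.2, h1, sub_self, Pi.zero_apply]
  have h1 : ⟪v - M v, v⟫_ℂ = 0 := hv _ fun g hg => key _ (hG g hg)
  have h2 : ⟪M v, v - M v⟫_ℂ = 0 := by
    refine key _ ?_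
    filter_upwards [hM v, hP2] with s h1 h2
    rw [h1, ← mul_apply_eq_comp, h2.1]
  have h3 : ⟪v - M v, v - M v⟫_ℂ = 0 := by
    rw [inner_sub_right, h1, ← inner_conj_symm, h2]
    simp
  have h4 : v - M v = 0 := inner_self_eq_zero.1 h3
  have h5 : M v = v := (sub_eq_zero.1 h4).symm
  have h6 := hM v
  rw [h5] at h6
  filter_upwards [h6] with s hs
  exact hs.symm

end Pool.Agent.P.MP_e0a138_an.AD
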