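import Pool.Agent.P.MP_e0a138_an.ABase

set_option autoImplicit false
set_option linter.unusedSectionVars false
set_option linter.unusedVariables false

open MeasureTheory Filter Topology Metric Complex
open scoped ENNReal NNReal ContDiff InnerProductSpace ComplexConjugate

noncomputable section
namespace Pool.Agent.P.MP_e0a138_an.AD


theorem squeeze_ennreal {l : Filter ℝ} [l.NeBot] {t : ℝ → ℝ≥0∞} {a : ℕ → ℝ → ℝ≥0∞}
    {b d : ℕ → ℝ≥0∞} (hd : Tendsto d atTop (𝓝 0))
    (h : ∀ K, ∀ᶠ h in l, a K h ≤ t h ∧ (1 - d K) * t h ≤ a K h)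
    (ha : ∀ K, Tendsto (a K) l (𝓝 (b K))) (hb : ∀ K, b K ≠ ⊤) :
    ⨆ K, b K ≠ ⊤ ∧ Tendsto t l (𝓝 (⨆ K, b K)) := by
  have h1 : Tendsto (fun K => 1 - d K) atTop (𝓝 1) := by
    have := ENNReal.Tendsto.sub (tendsto_const_nhds (x := (1 : ℝ≥0∞))) hd
      (Or.inl ENNReal.one_ne_top)
    simpa using this
  have key : ∀ K K', (1 - d K') * b K ≤ b K' := by
    intro K K'
    have hne : (1 - d K') ≠ ⊤ := ne_top_of_le_ne_top ENNReal.one_ne_top tsub_le_self
    refine le_of_tendsto_of_tendsto (ENNReal.Tendsto.const_mul (ha K) (Or.inr hne)) (ha K') ?_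
    filter_upwards [h K, h K'] with x hx hx'
    exact (mul_le_mul_right hx.1 _).trans hx'.2
  constructor
  · obtain ⟨K0, hK0⟩ := (h1.eventually (lt_mem_nhds (zero_lt_one' ℝ≥0∞))).exists
    intro htop
    have h2 : (1 - d K0) * ⨆ K, b K ≤ b K0 := by
      rw [ENNReal.mul_iSup]
      exact iSup_le fun K => key K K0
    rw [htop, ENNReal.mul_top hK0.ne'] at h2
    exact hb K0 (top_le_iff.1 h2)
  · refine tendsto_order.2 ⟨fun c hc => ?_, fun c hc => ?_⟩
    · obtain ⟨K, hK⟩ := lt_iSup_iff.1 hc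
      filter_upwards [h K, (ha K).eventually (lt_mem_nhds hK)] with x hx hx'
      exact hx'.trans_le hx.1
    · have h2 : Tendsto (fun K => (1 - d K) * c) atTop (𝓝 (1 * c)) :=
        ENNReal.Tendsto.mul_const h1 (Or.inl one_ne_zero)
      rw [one_mul] at h2
      obtain ⟨K, hK⟩ := (h2.eventually (lt_mem_nhds hc)).exists
      have hK' : b K < (1 - d K) * c := (le_iSup b K).trans_lt hK
      filter_upwards [h K, (ha K).eventually (gt_mem_nhds hK')] with x hx hx'
      by_contra hcon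
      exact absurd ((mul_le_mul_right (not_lt.1 hcon) _).trans hx.2) (not_le.2 hx')

theorem final_limit {X Y ι D : Type} [MeasureSpace X] [MeasureSpace Y]
    [SFinite (volume : Measure X)] [SFinite (volume : Measure Y)] [Fintype ι] [Fintype D]
    {l : Filter ℝ} [l.NeBot] [l.IsCountablyGenerated] {φ : ℝ → ι × D → X × Y → ℝ≥0∞}
    {t : ℝ → ℝ≥0∞} {Lf : ι → Y → ℝ≥0∞} {B : Set Y} {Om : ℕ → Set (X × Y)} {d : ℕ → ℝ≥0∞}
    {C : ℝ≥0∞} (hB : MeasurableSet B) (hO : ∀ K, MeasurableSet (Om K)) (hmono : Monotone Om)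
    (hU : ⋃ K, Om K = Set.univ) (hfin : ∀ K, volume (Om K ∩ Set.univ ×ˢ B) ≠ ⊤) (hC : C ≠ ⊤)
    (hφ : ∀ᶠ h in l, ∀ j, Measurable (φ h j) ∧ ∀ o, φ h j o ≤ C ∧ (o.2 ∉ B → φ h j o = 0))
    (hlim : ∀ i, ∀ᵐ a, a ∈ B → ∃ g : D → X → ℝ≥0∞,
      (∀ e x, Tendsto (fun h => φ h (i, e) (x, a)) l (𝓝 (g e x))) ∧ ∑ e, ∫⁻ x, g e x = Lf i a)
    (hd : Tendsto d atTop (𝓝 0))
    (ht : ∀ K, ∀ᶠ h in l, ∑ j, ∫⁻ o in Om K, φ h j o ≤ t h ∧
      (1 - d K) * t h ≤ ∑ j, ∫⁻ o in Om K, φ h j o) :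
    (∀ i, AEMeasurable (Lf i) (volume.restrict B)) ∧
    ∑ i, ∫⁻ a in B, Lf i a ≠ ⊤ ∧ Tendsto t l (𝓝 (∑ i, ∫⁻ a in B, Lf i a)) := by
  classical
  set F : ι × D → X × Y → ℝ≥0∞ := fun j o => liminf (fun h => φ h j o) l with hF
  have hzero : ∀ j (o : X × Y), o.2 ∉ B → Tendsto (fun h => φ h j o) l (𝓝 0) := by
    intro j o ho
    refine tendsto_const_nhds.congr' ?_
    filter_upwards [hφ] with h hh
    exact (((hh j).2 o).2 ho).symm
  have hconv : ∀ j, ∀ᵐ o : X × Y, Tendsto (fun h => φ h j o) l (𝓝 (F j o)) := by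
    rintro ⟨i, e⟩
    have h0 : ∀ᵐ o : X × Y ∂((volume : Measure X).prod (volume : Measure Y)), o.2 ∈ B →
        ∃ g : D → X → ℝ≥0∞, (∀ e x, Tendsto (fun h => φ h (i, e) (x, o.2)) l (𝓝 (g e x))) ∧
          ∑ e, ∫⁻ x, g e x = Lf i o.2 :=
      Measure.quasiMeasurePreserving_snd.ae (hlim i)
    rw [Measure.volume_eq_prod]
    filter_upwards [h0] with o ho
    by_cases hoB : o.2 ∈ B
    · obtain ⟨g, hg, -⟩ := ho hoB
      have h1 : Tendsto (fun h => φ h (i, e) o) l (𝓝 (g e o.1)) := hg e o.1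
      have h2 : F (i, e) o = g e o.1 := h1.liminf_eq
      rw [h2]; exact h1
    · have h1 := hzero (i, e) o hoB
      have h2 : F (i, e) o = 0 := h1.liminf_eq
      rw [h2]; exact h1
  have hFm : ∀ j, AEMeasurable (F j) volume := by
    intro j
    refine ENNReal.aemeasurable_of_tendsto' (f := fun h => if Measurable (φ h j) then φ h j else 0)
      l (fun h => ?_) ?_
    · by_cases hm : Measurable (φ h j)
      · rw [if_pos hm]; exact hm.aemeasurable
      · rw [if_neg hm]; exact aemeasurable_const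
    · filter_upwards [hconv j] with o ho
      refine ho.congr' ?_
      filter_upwards [hφ] with h hh
      rw [if_pos (hh j).1]
  set bd : X × Y → ℝ≥0∞ := (Set.univ ×ˢ B).indicator fun _ => C with hbd
  have hUB : MeasurableSet ((Set.univ : Set X) ×ˢ B) := MeasurableSet.univ.prod hB
  have hbdfin : ∀ K, ∫⁻ o in Om K, bd o ≠ ⊤ := by
    intro K
    rw [hbd, lintegral_indicator_const hUB, Measure.restrict_apply hUB, Set.inter_comm]
    exact ENNReal.mul_ne_top hC (hfin K)
  have hle : ∀ᶠ h in l, ∀ j o, φ h j o ≤ bd o := by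
    filter_upwards [hφ] with h hh j o
    by_cases hoB : o.2 ∈ B
    · rw [hbd, Set.indicator_of_mem (Set.mem_prod.2 ⟨Set.mem_univ _, hoB⟩)]
      exact ((hh j).2 o).1
    · rw [((hh j).2 o).2 hoB]; exact bot_le
  have ha : ∀ K, Tendsto (fun h => ∑ j, ∫⁻ o in Om K, φ h j o) l
      (𝓝 (∑ j, ∫⁻ o in Om K, F j o)) := by
    intro K
    refine tendsto_finsetSum _ fun j _ => ?_
    refine tendsto_lintegral_filter_of_dominated_convergence bd ?_ ?_ (hbdfin K)
      (ae_restrict_of_ae (hconv j))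
    · filter_upwards [hφ] with h hh using (hh j).1
    · filter_upwards [hle] with h hh using Eventually.of_forall (hh j)
  have hb : ∀ K, ∑ j, ∫⁻ o in Om K, F j o ≠ ⊤ := by
    intro K
    refine ENNReal.sum_ne_top.2 fun j _ => ne_top_of_le_ne_top (hbdfin K) ?_
    refine lintegral_mono_ae (ae_restrict_of_ae ?_)
    filter_upwards [hconv j] with o ho
    refine le_of_tendsto ho ?_
    filter_upwards [hle] with h hh using hh j o
  have hsup : ⨆ K, ∑ j, ∫⁻ o in Om K, F j o = ∑ j, ∫⁻ o, F j o := by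
    rw [← ENNReal.finsetSum_iSup_of_monotone]
    · refine Finset.sum_congr rfl fun j _ => ?_
      rw [← setLIntegral_iUnion_of_directed (F j) hmono.directed_le, hU, Measure.restrict_univ]
    · intro j K K' hKK
      exact lintegral_mono_set (hmono hKK)
  have hval : ∑ j, ∫⁻ o, F j o = ∑ i, ∫⁻ a in B, Lf i a := by
    rw [Fintype.sum_prod_type]
    refine Finset.sum_congr rfl fun i _ => ?_
    have hm : ∀ e, AEMeasurable (F (i, e)) ((volume : Measure X).prod (volume : Measure Y)) :=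
      fun e => by simpa [Measure.volume_eq_prod] using hFm (i, e)
    have h1 : ∀ e, ∫⁻ o, F (i, e) o = ∫⁻ a, ∫⁻ x, F (i, e) (x, a) := by
      intro e
      rw [Measure.volume_eq_prod, lintegral_prod_symm _ (hm e)]
    simp only [h1]
    rw [← lintegral_finsetSum' _ fun e _ => (hm e).lintegral_prod_left', ← lintegral_indicator hB]
    refine lintegral_congr_ae ?_
    filter_upwards [hlim i] with a ha'
    by_cases haB : a ∈ B
    · obtain ⟨g, hg, hs⟩ := ha' haB
      rw [Set.indicator_of_mem haB, ← hs]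
      refine Finset.sum_congr rfl fun e _ => lintegral_congr fun x => ?_
      exact (hg e x).liminf_eq
    · rw [Set.indicator_of_notMem haB]
      refine Finset.sum_eq_zero fun e _ => ?_
      have h2 : ∀ x, F (i, e) (x, a) = 0 := fun x => (hzero (i, e) (x, a) haB).liminf_eq
      simp only [h2, lintegral_zero]
  have := squeeze_ennreal (t := t) (a := fun K h => ∑ j, ∫⁻ o in Om K, φ h j o)
    (b := fun K => ∑ j, ∫⁻ o in Om K, F j o) hd ht ha hb
  rw [hsup, hval] at this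
  refine ⟨fun i => ?_, this⟩
  have hm : ∀ e, AEMeasurable (F (i, e)) ((volume : Measure X).prod (volume : Measure Y)) :=
    fun e => by simpa [Measure.volume_eq_prod] using hFm (i, e)
  have h3 : AEMeasurable (fun a => ∑ e, ∫⁻ x, F (i, e) (x, a)) (volume : Measure Y) :=
    Finset.aemeasurable_fun_sum _ fun e _ => (hm e).lintegral_prod_left'
  refine h3.restrict.congr ((ae_restrict_iff' hB).2 ?_)
  filter_upwards [hlim i] with a ha' haB
  obtain ⟨g, hg, hs⟩ := ha' haB
  rw [← hs]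
  refine Finset.sum_congr rfl fun e _ => lintegral_congr fun x => ?_
  exact (hg e x).liminf_eq

end Pool.Agent.P.MP_e0a138_an.AD
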