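import Pool.Agent.P.MP_e0a138_an.ADef2

set_option autoImplicit false
set_option linter.unusedSectionVars false

open MeasureTheory Filter Topology Metric Complex
open scoped ENNReal NNReal ContDiff InnerProductSpace ComplexConjugate

noncomputable section
namespace Pool.Agent.P.MP_e0a138_an.AD

variable {N p q k : ℕ} {W : Type} [NormedAddCommGroup W] [InnerProductSpace ℂ W]
  [FiniteDimensional ℂ W] [CompleteSpace W]

instance haarProd : (volume : Measure (Eu p × Eu q)).IsAddHaarMeasure :=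
  Measure.prod.instIsAddHaarMeasure _ _

instance haarProd3 : (volume : Measure (Eu p × Eu q × Eu q)).IsAddHaarMeasure :=
  Measure.prod.instIsAddHaarMeasure _ _

section calc1
variable {E : Type} [NormedAddCommGroup E] [NormedSpace ℝ E]

/-- evaluation of a complex linear operator as a real bilinear map -/
def evC (W : Type) [NormedAddCommGroup W] [InnerProductSpace ℂ W] :
    (W →L[ℂ] W) →L[ℝ] W →L[ℝ] W :=
  ContinuousLinearMap.restrictScalarsL ℂ W W ℝ ℝ

@[simp] theorem evC_apply (M : W →L[ℂ] W) (y : W) : evC W M y = M y := rfl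

theorem contDiffOn_capp {n : WithTop ℕ∞} {M : E → W →L[ℂ] W} {f : E → W} {O : Set E}
    (hM : ContDiffOn ℝ n M O) (hf : ContDiffOn ℝ n f O) :
    ContDiffOn ℝ n (fun x => M x (f x)) O :=
  ((evC W).contDiff.comp_contDiffOn hM).clm_apply hf

theorem contDiffAt_capp {n : WithTop ℕ∞} {M : E → W →L[ℂ] W} {f : E → W} {x : E}
    (hM : ContDiffAt ℝ n M x) (hf : ContDiffAt ℝ n f x) :
    ContDiffAt ℝ n (fun x => M x (f x)) x :=
  ((evC W).contDiff.contDiffAt.comp x hM).clm_apply hf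

theorem continuousOn_capp {X : Type} [TopologicalSpace X] {M : X → W →L[ℂ] W} {f : X → W}
    {O : Set X} (hM : ContinuousOn M O) (hf : ContinuousOn f O) :
    ContinuousOn (fun x => M x (f x)) O := hM.clm_apply hf

theorem differentiableAt_capp {M : E → W →L[ℂ] W} {f : E → W} {x : E}
    (hM : DifferentiableAt ℝ M x) (hf : DifferentiableAt ℝ f x) :
    DifferentiableAt ℝ (fun x => M x (f x)) x :=
  ((evC W).differentiableAt.comp x hM).clm_apply hf

theorem fderiv_capp {M : E → W →L[ℂ] W} {f : E → W} {x : E}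
    (hM : DifferentiableAt ℝ M x) (hf : DifferentiableAt ℝ f x) (b : E) :
    fderiv ℝ (fun x => M x (f x)) x b = fderiv ℝ M x b (f x) + M x (fderiv ℝ f x b) := by
  have h := (((evC W).hasFDerivAt.comp x hM.hasFDerivAt).clm_apply hf.hasFDerivAt).fderiv
  have h' : fderiv ℝ (fun x => M x (f x)) x = _ := h
  rw [h']
  simp [add_comm]

theorem fderiv_csmul {c : E → ℂ} {f : E → W} {x : E}
    (hc : DifferentiableAt ℝ c x) (hf : DifferentiableAt ℝ f x) (b : E) :
    fderiv ℝ (fun x => c x • f x) x b = fderiv ℝ c x b • f x + c x • fderiv ℝ f x b := by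
  rw [show (fun x => c x • f x) = c • f from rfl, fderiv_smul hc hf]
  simp [add_comm]

theorem fderiv_ofReal {c : E → ℝ} {x : E} (hc : DifferentiableAt ℝ c x) (b : E) :
    fderiv ℝ (fun x => (c x : ℂ)) x b = (fderiv ℝ c x b : ℝ) := by
  have h : fderiv ℝ (fun x => (c x : ℂ)) x = _ :=
    (ofRealCLM.hasFDerivAt.comp x hc.hasFDerivAt).fderiv
  rw [h]; simp

theorem contDiffOn_ofReal {n : WithTop ℕ∞} {c : E → ℝ} {O : Set E} (hc : ContDiffOn ℝ n c O) :
    ContDiffOn ℝ n (fun x => (c x : ℂ)) O := ofRealCLM.contDiff.comp_contDiffOn hc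

theorem contDiffOn_star {n : WithTop ℕ∞} {M : E → W →L[ℂ] W} {O : Set E}
    (hM : ContDiffOn ℝ n M O) : ContDiffOn ℝ n (fun x => star (M x)) O :=
  (starL' ℝ : (W →L[ℂ] W) ≃L[ℝ] (W →L[ℂ] W)).contDiff.comp_contDiffOn hM

theorem contDiffOn_fderiv_apply' {G : Type} [NormedAddCommGroup G] [NormedSpace ℝ G] {f : E → G}
    {O : Set E} (hO : IsOpen O) (hf : ContDiffOn ℝ ∞ f O) (b : E) :
    ContDiffOn ℝ ∞ (fun x => fderiv ℝ f x b) O :=
  (hf.fderiv_of_isOpen hO (m := ∞) (by simp)).clm_apply contDiffOn_const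

theorem diffAt_of_contDiffOn {G : Type} [NormedAddCommGroup G] [NormedSpace ℝ G] {f : E → G}
    {O : Set E} (hO : IsOpen O) (hf : ContDiffOn ℝ ∞ f O) {x : E} (hx : x ∈ O) :
    DifferentiableAt ℝ f x :=
  (hf.contDiffAt (hO.mem_nhds hx)).differentiableAt (by simp)

theorem contDiff_of_cpt {G : Type} [NormedAddCommGroup G] [NormedSpace ℝ G] {n : WithTop ℕ∞}
    {f : E → G} {O K : Set E} (hO : IsOpen O) (hK : IsClosed K) (hKO : K ⊆ O)
    (hf : ContDiffOn ℝ n f O) (h0 : ∀ x ∉ K, f x = 0) : ContDiff ℝ n f := by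
  refine contDiff_iff_contDiffAt.2 fun x => ?_
  by_cases hx : x ∈ K
  · exact hf.contDiffAt (hO.mem_nhds (hKO hx))
  · refine (contDiffAt_const (c := (0 : G))).congr_of_eventuallyEq ?_
    filter_upwards [hK.isOpen_compl.mem_nhds hx] with y hy using h0 y hy

theorem continuous_of_cpt {X G : Type} [TopologicalSpace X] [TopologicalSpace G] [Zero G]
    {f : X → G} {O K : Set X} (hO : IsOpen O) (hK : IsClosed K) (hKO : K ⊆ O)
    (hf : ContinuousOn f O) (h0 : ∀ x ∉ K, f x = 0) : Continuous f := by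
  refine continuous_iff_continuousAt.2 fun x => ?_
  by_cases hx : x ∈ K
  · exact hf.continuousAt (hO.mem_nhds (hKO hx))
  · refine (continuousAt_const (y := (0 : G))).congr ?_
    filter_upwards [hK.isOpen_compl.mem_nhds hx] with y hy using (h0 y hy).symm

theorem fderiv_eq_zero_of_closed {G : Type} [NormedAddCommGroup G] [NormedSpace ℝ G]
    {f : E → G} {O K : Set E} (hO : IsOpen O) (hK : IsClosed K)
    (h0 : ∀ x ∈ O, x ∉ K → f x = 0) {x : E} (hx : x ∈ O) (hxK : x ∉ K) : fderiv ℝ f x = 0 := by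
  have : f =ᶠ[𝓝 x] fun _ => 0 := by
    filter_upwards [hK.isOpen_compl.mem_nhds hxK, hO.mem_nhds hx] with y hy hy' using h0 y hy' hy
  rw [this.fderiv_eq]; simp

theorem contDiffOn_op {κ : Type} [Fintype κ] {b : κ → E} {A : κ → E → W →L[ℂ] W}
    {B : E → W →L[ℂ] W} {u : E → W} {O : Set E} (hO : IsOpen O)
    (hA : ∀ a, ContDiffOn ℝ ∞ (A a) O) (hB : ContDiffOn ℝ ∞ B O) (hu : ContDiffOn ℝ ∞ u O) :
    ContDiffOn ℝ ∞ (op b A B u) O :=
  (ContDiffOn.sum fun a _ => contDiffOn_capp (hA a) (contDiffOn_fderiv_apply' hO hu _)).add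
    (contDiffOn_capp hB hu)

theorem op_congr {κ : Type} [Fintype κ] {b : κ → E} {A : κ → E → W →L[ℂ] W}
    {B : E → W →L[ℂ] W} {u v : E → W} {x : E} (h : u =ᶠ[𝓝 x] v) :
    op b A B u x = op b A B v x := by
  simp only [op, h.fderiv_eq, h.eq_of_nhds]

theorem op_eq_zero {κ : Type} [Fintype κ] {b : κ → E} {A : κ → E → W →L[ℂ] W}
    {B : E → W →L[ℂ] W} {u : E → W} {O K : Set E} (hO : IsOpen O) (hK : IsClosed K)
    (h0 : ∀ x ∈ O, x ∉ K → u x = 0) {x : E} (hx : x ∈ O) (hxK : x ∉ K) : op b A B u x = 0 := by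
  simp [op, fderiv_eq_zero_of_closed hO hK h0 hx hxK, h0 x hx hxK]

theorem op_smul {κ : Type} [Fintype κ] {b : κ → E} {A : κ → E → W →L[ℂ] W}
    {B : E → W →L[ℂ] W} {c : E → ℂ} {u : E → W} {x : E} (hc : DifferentiableAt ℝ c x)
    (hu : DifferentiableAt ℝ u x) :
    op b A B (fun y => c y • u y) x =
      c x • op b A B u x + ∑ a, fderiv ℝ c x (b a) • A a x (u x) := by
  simp only [op, fderiv_csmul hc hu, map_add, map_smul, Finset.sum_add_distrib, smul_add,
    Finset.smul_sum]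
  abel

theorem op_add {κ : Type} [Fintype κ] {b : κ → E} {A : κ → E → W →L[ℂ] W}
    {B : E → W →L[ℂ] W} {u v : E → W} {x : E} (hu : DifferentiableAt ℝ u x)
    (hv : DifferentiableAt ℝ v x) :
    op b A B (fun y => u y + v y) x = op b A B u x + op b A B v x := by
  have : fderiv ℝ (fun y => u y + v y) x = fderiv ℝ u x + fderiv ℝ v x := fderiv_add hu hv
  simp only [op, this, add_apply, map_add, Finset.sum_add_distrib]
  abel

end calc1

theorem sc_pos {h : ℝ} (hh : 0 < h) : 0 < sc h := Real.rpow_pos_of_pos hh _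

theorem tendsto_rpow_zero {c : ℝ} (hc : 0 < c) :
    Tendsto (fun h : ℝ => h ^ c) (𝓝[>] 0) (𝓝 0) := by
  have := (Real.continuousAt_rpow_const 0 c (Or.inr hc.le)).tendsto
  rw [Real.zero_rpow hc.ne'] at this
  exact this.mono_left nhdsWithin_le_nhds

theorem sc_tendsto : Tendsto sc (𝓝[>] 0) (𝓝 0) := tendsto_rpow_zero (by norm_num)

theorem div_sc {h : ℝ} (hh : 0 < h) : h / sc h = h ^ (1 / 4 : ℝ) := by
  rw [sc, div_eq_iff (Real.rpow_pos_of_pos hh _).ne', ← Real.rpow_add hh]; norm_num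

theorem sc_sq_div {h : ℝ} (hh : 0 < h) : sc h ^ 2 / h = h ^ (1 / 2 : ℝ) := by
  rw [sc, div_eq_iff hh.ne', ← Real.rpow_natCast, ← Real.rpow_mul hh.le,
    ← Real.rpow_add_one hh.ne']
  norm_num

theorem div_sc_tendsto : Tendsto (fun h => h / sc h) (𝓝[>] 0) (𝓝 0) :=
  (tendsto_rpow_zero (c := 1 / 4) (by norm_num)).congr'
    (eventually_mem_nhdsWithin.mono fun _ hh => (div_sc hh).symm)

theorem sc_sq_div_tendsto : Tendsto (fun h => sc h ^ 2 / h) (𝓝[>] 0) (𝓝 0) :=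
  (tendsto_rpow_zero (c := 1 / 2) (by norm_num)).congr'
    (eventually_mem_nhdsWithin.mono fun _ hh => (sc_sq_div hh).symm)

theorem div_sc_le_one {h : ℝ} (hh : 0 < h) (h1 : h ≤ 1) : h / sc h ≤ 1 := by
  rw [div_sc hh]; exact Real.rpow_le_one hh.le h1 (by norm_num)

/-- the standard basis as an orthonormal basis -/
def bsB (n : ℕ) : OrthonormalBasis (Fin n) ℝ (Eu n) := EuclideanSpace.basisFun (Fin n) ℝ

theorem bsB_apply {n : ℕ} (a : Fin n) : bsB n a = bs a := EuclideanSpace.basisFun_apply _ _ a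

theorem coe_bsB (n : ℕ) : ⇑(bsB n) = bs := funext bsB_apply

theorem finrank_Eu (n : ℕ) : Module.finrank ℝ (Eu n) = n := by
  simpa using Module.finrank_eq_card_basis (bsB n).toBasis

theorem orthonormal_bs (n : ℕ) : Orthonormal ℝ (bs : Fin n → Eu n) :=
  coe_bsB n ▸ (bsB n).orthonormal

theorem norm_bs {n : ℕ} (a : Fin n) : ‖bs a‖ = 1 := (orthonormal_bs n).1 a

theorem sum_bs {n : ℕ} (v : Eu n) : ∑ a, ⟪bs a, v⟫_ℝ • bs a = v := by
  simpa [bsB_apply] using (bsB n).sum_repr' v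

theorem inner_bs_bs {n : ℕ} (a b : Fin n) : ⟪bs a, bs b⟫_ℝ = if a = b then 1 else 0 :=
  orthonormal_iff_ite.1 (orthonormal_bs n) a b

theorem sum_inner_bs {n : ℕ} (v w : Eu n) : ∑ a, ⟪bs a, v⟫_ℝ * ⟪bs a, w⟫_ℝ = ⟪v, w⟫_ℝ := by
  simpa [bsB_apply, real_inner_comm] using (bsB n).sum_inner_mul_inner v w

theorem norm_sq_bs {n : ℕ} (v : Eu n) : ‖v‖ ^ 2 = ∑ a, ⟪bs a, v⟫_ℝ ^ 2 := by
  rw [← real_inner_self_eq_norm_sq, ← sum_inner_bs]; simp [sq]

theorem sum_cb (w : Eu p × Eu q) : ∑ a, crd a w • cb a = w := by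
  simp only [Fintype.sum_sum_type, crd, cb, Sum.elim_inl, Sum.elim_inr]
  ext1 <;> simp [Prod.fst_sum, Prod.snd_sum, sum_bs]

theorem norm_cbh_le {h : ℝ} (h0 : 0 ≤ h) (h1 : h ≤ 1) (a : Fin p ⊕ Fin q) : ‖cbh h a‖ ≤ 1 := by
  rcases a with a | a <;> simp [cbh, norm_bs, norm_smul, abs_of_nonneg h0, h1]

theorem norm_cb_le (a : Fin p ⊕ Fin q) : ‖cb a‖ ≤ 1 := by
  rcases a with a | a <;> simp [cb, norm_bs]

/-- a coordinate as a continuous linear map -/
def crdL (a : Fin p ⊕ Fin q) : Eu p × Eu q →L[ℝ] ℝ :=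
  Sum.elim (fun b => innerSL ℝ (bs b) ∘L ContinuousLinearMap.fst ℝ _ _)
    (fun b => innerSL ℝ (bs b) ∘L ContinuousLinearMap.snd ℝ _ _) a

@[simp] theorem crdL_apply (a : Fin p ⊕ Fin q) (z : Eu p × Eu q) : crdL a z = crd a z := by
  rcases a with a | a <;> rfl

theorem mem_ball_prod {r : ℝ} {x : Eu p} {y : Eu q} :
    (x, y) ∈ ball (0 : Eu p × Eu q) r ↔ x ∈ ball (0 : Eu p) r ∧ y ∈ ball (0 : Eu q) r := by
  simp [Prod.norm_def]

theorem mem_closedBall_prod {r : ℝ} {x : Eu p} {y : Eu q} :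
    (x, y) ∈ closedBall (0 : Eu p × Eu q) r ↔
      x ∈ closedBall (0 : Eu p) r ∧ y ∈ closedBall (0 : Eu q) r := by
  simp [Prod.norm_def]

theorem dom_eq {y : Eu q} (hy : y ∈ ball (0 : Eu q) 1) :
    {x : Eu p | (x, y) ∈ ball (0 : Eu p × Eu q) 1} = ball 0 1 := by
  ext x; simp only [Set.mem_ofPred_eq, mem_ball_prod, hy, and_true]

theorem norm_ph (β : Eu q → ℝ) (h : ℝ) (y η : Eu q) (L : Eu q →L[ℝ] Eu q) (Y : Eu q) :
    ‖ph β h y η L Y‖ = |bw β h y L Y| := by
  rw [ph, norm_mul, mul_comm I, Complex.norm_exp_ofReal_mul_I, mul_one, Complex.norm_real,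
    Real.norm_eq_abs]

theorem contDiff_bw {n : WithTop ℕ∞} {β : Eu q → ℝ} (hβ : ContDiff ℝ n β) (h : ℝ) (y : Eu q)
    (L : Eu q →L[ℝ] Eu q) : ContDiff ℝ n (bw β h y L) :=
  contDiff_const.mul (hβ.comp ((L.contDiff.comp (contDiff_id.sub contDiff_const)).const_smul _))

theorem contDiff_ph {n : WithTop ℕ∞} {β : Eu q → ℝ} (hβ : ContDiff ℝ n β) (h : ℝ) (y η : Eu q)
    (L : Eu q →L[ℝ] Eu q) : ContDiff ℝ n (ph β h y η L) :=
  (ofRealCLM.contDiff.comp (contDiff_bw hβ h y L)).mul (Complex.contDiff_exp.comp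
    (contDiff_const.mul (ofRealCLM.contDiff.comp
      ((contDiff_const.inner ℝ (contDiff_id.sub contDiff_const)).div_const _))))

theorem jac_ne_zero (e : Eu q ≃L[ℝ] Eu q) : jac e ≠ 0 := by
  have := e.toLinearEquiv.isUnit_det'.ne_zero
  simpa [jac, ContinuousLinearMap.det] using this

theorem jac_refl : jac (ContinuousLinearEquiv.refl ℝ (Eu q)) = 1 := by
  simp [jac, ContinuousLinearMap.det]

theorem exists_window : ∃ β : Eu q → ℝ, ContDiff ℝ ∞ β ∧ HasCompactSupport β ∧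
    ∫ y, β y ^ 2 = 1 := by
  let f : ContDiffBump (0 : Eu q) := ⟨1, 2, one_pos, one_lt_two⟩
  have hc : Continuous fun y => f y ^ 2 := f.continuous.pow 2
  have hs : HasCompactSupport fun y => f y ^ 2 :=
    f.hasCompactSupport.comp_left (g := fun t : ℝ => t ^ 2) (by simp)
  have hp : 0 < ∫ y, f y ^ 2 := hc.integral_pos_of_hasCompactSupport_nonneg_nonzero hs
    (fun y => sq_nonneg _) (x := 0) (by simp [f.one_of_mem_closedBall (mem_closedBall_self zero_le_one)])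
  refine ⟨fun y => (√(∫ y, f y ^ 2))⁻¹ * f y, contDiff_const.mul f.contDiff,
    f.hasCompactSupport.mul_left, ?_⟩
  simp only [mul_pow, integral_const_mul, inv_pow, Real.sq_sqrt hp.le]
  exact inv_mul_cancel₀ hp.ne'

end Pool.Agent.P.MP_e0a138_an.AD
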