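import Pool.Agent.P.MP_e0a138_an.ADefs

set_option autoImplicit false
set_option linter.unusedSectionVars false

open MeasureTheory Filter Topology Metric Complex
open scoped ENNReal NNReal ContDiff InnerProductSpace ComplexConjugate

noncomputable section
namespace Pool.Agent.P.MP_e0a138_an.AD

section hilbert
variable {H : Type} [NormedAddCommGroup H] [InnerProductSpace ℂ H] [CompleteSpace H]

/-- symmetric graph -/
def Sym (G : Set (H × H)) : Prop := ∀ a ∈ G, ∀ b ∈ G, ⟪a.2, b.1⟫_ℂ = ⟪a.1, b.2⟫_ℂ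

/-- `v` lies in the closure of the domain -/
def InK (G : Set (H × H)) (v : H) : Prop := ∀ w, Perp G w → ⟪w, v⟫_ℂ = 0

/-- trace of `M T M` -/
def trA (M T : H →L[ℂ] H) : ℝ≥0∞ :=
  ⨆ (n : ℕ) (e : Fin n → H) (_ : Orthonormal ℂ e),
    ∑ j, ENNReal.ofReal (⟪M (e j), T (M (e j))⟫_ℂ).re

/-- the function applied to `R* R` -/
def Ff (f : ℝ → ℝ) (r : ℝ) : ℝ := if 0 < r then f √(r⁻¹ - 1) else 0

/-- `f(D)` for real `f` -/
def fc (f : ℝ → ℝ) (R : H →L[ℂ] H) : H →L[ℂ] H :=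
  cfc (fun r : ℝ => if 0 < r then f √(r⁻¹ - 1) else 0) (star R * R)

theorem fc_eq (f : ℝ → ℝ) (R : H →L[ℂ] H) : fc f R = cfc (Ff f) (star R * R) := rfl

variable {H₁ H₂ : Type} [NormedAddCommGroup H₁] [InnerProductSpace ℂ H₁] [CompleteSpace H₁]
  [NormedAddCommGroup H₂] [InnerProductSpace ℂ H₂] [CompleteSpace H₂] {ι : Type}

/-- `x h` converges to `v` in the sense of the approximate isometry `s a ↦ Wp a h` -/
def Rel (l : Filter ℝ) (s : ι → H₂) (Wp : ι → ℝ → H₁) (x : ℝ → H₁) (v : H₂) : Prop :=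
  v ∈ (Submodule.span ℂ (Set.range s)).topologicalClosure ∧
    Tendsto (fun h => ‖x h‖) l (𝓝 ‖v‖) ∧
    ∀ a, Tendsto (fun h => ⟪Wp a h, x h⟫_ℂ) l (𝓝 ⟪s a, v⟫_ℂ)

/-- approximate intertwining of the graphs `G₁ h` and `G₂` -/
structure Apx (l : Filter ℝ) (G₁ : ℝ → Set (H₁ × H₁)) (G₂ : Set (H₂ × H₂)) (s : ι → H₂)
    (Wp : ι → ℝ → H₁) (c : ℂ) : Prop where
  ne : c ≠ 0
  gram : ∀ a b, Tendsto (fun h => ⟪Wp a h, Wp b h⟫_ℂ) l (𝓝 ⟪s a, s b⟫_ℂ)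
  int : ∀ g ∈ G₂, ∃ a a', s a = c • g.1 ∧ s a' = c • g.2 ∧ ∃ w : ℝ → H₁,
    (∀ᶠ h in l, (Wp a h, w h) ∈ G₁ h) ∧ Tendsto (fun h => ‖w h - Wp a' h‖) l (𝓝 0)
  sub : ∀ a, InK G₂ (s a)

end hilbert

variable {N p q k : ℕ} {W : Type} [NormedAddCommGroup W] [InnerProductSpace ℂ W]
  [FiniteDimensional ℂ W] [CompleteSpace W]

/-- trace of `w T w` on `Lp` -/
def tr {S : Type} [MeasurableSpace S] {ν : Measure S} (w : S → ℝ)
    (T : Lp W 2 ν →L[ℂ] Lp W 2 ν) : ℝ≥0∞ :=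
  ⨆ (n : ℕ) (e : Fin n → Lp W 2 ν) (v : Fin n → Lp W 2 ν) (_ : Orthonormal ℂ e)
    (_ : ∀ j, v j =ᵐ[ν] fun s => (w s : ℂ) • e j s), ∑ j, ENNReal.ofReal (⟪v j, T (v j)⟫_ℂ).re

open Classical in
/-- the class of a function in `L²` -/
def toL {S : Type} [MeasurableSpace S] (ν : Measure S) (f : S → W) : Lp W 2 ν :=
  if h : MemLp f 2 ν then h.toLp f else 0

section chart
variable {E : Type} [NormedAddCommGroup E] [NormedSpace ℝ E] {κ : Type} [Fintype κ]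

/-- a first order operator in a chart -/
def op (b : κ → E) (A : κ → E → W →L[ℂ] W) (B : E → W →L[ℂ] W) (u : E → W) (x : E) : W :=
  ∑ a, A a x (fderiv ℝ u x (b a)) + B x (u x)

/-- test sections in a chart -/
def Tst (O : Set E) (P : E → W →L[ℂ] W) (a : E → W) : Prop :=
  ContDiff ℝ ∞ a ∧ HasCompactSupport a ∧ tsupport a ⊆ O ∧ ∀ x, P x (a x) = a x

/-- coefficients of a first order operator with skew symbol -/
structure Coef (O : Set E) (A : κ → E → W →L[ℂ] W) (B P : E → W →L[ℂ] W) (ρ : E → ℝ) : Prop where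
  isOpen : IsOpen O
  hA : ∀ a, ContDiffOn ℝ ∞ (A a) O
  hB : ContDiffOn ℝ ∞ B O
  hP : ContDiffOn ℝ ∞ P O
  hρ : ContDiffOn ℝ ∞ ρ O
  pos : ∀ x ∈ O, 0 < ρ x
  idem : ∀ x ∈ O, P x * P x = P x
  sa : ∀ x ∈ O, star (P x) = P x
  skew : ∀ a, ∀ x ∈ O, star (A a x) = -A a x
  comm : ∀ a, ∀ x ∈ O, A a x * P x = P x * A a x

variable [MeasureSpace E]

/-- weighted measure on a chart -/
def wm (O : Set E) (ρ : E → ℝ) : Measure E :=
  (volume.restrict O).withDensity fun x => ENNReal.ofReal (ρ x)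

/-- mollification -/
def mol (j : E → ℝ) (v : E → W) (x : E) : W := ∫ y, j (x - y) • v y

/-- `γ` identifies `(O, m)` with a piece of `(S, ν)` -/
structure Emb {S E : Type} [MeasurableSpace S] [MeasurableSpace E] (ν : Measure S) (m : Measure E)
    (O : Set E) (γ : E → S) : Prop where
  meas : MeasurableSet O
  conc : m Oᶜ = 0
  emb : MeasurableEmbedding (O.domRestrict γ)
  res : ν.restrict (γ '' O) = m.map γ

/-- a system of patches with cutoffs -/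
structure Pat {S : Type} [MeasurableSpace S] (ν : Measure S) (J : Type) (b : κ → E)
    (G : Set (Lp W 2 ν × Lp W 2 ν)) (Pg : S → W →L[ℂ] W) where
  O : J → Set E
  γ : J → E → S
  π : J → S → E
  A : J → κ → E → W →L[ℂ] W
  B : J → E → W →L[ℂ] W
  ρ : J → E → ℝ
  θ : J → S → ℝ
  K : J → Set E
  χ : ℕ → S → ℝ
  fs : ℕ → Finset J
  δ : ℕ → ℝ
  cnt : Countable J
  coef : ∀ P, Coef (O P) (A P) (B P) (fun x => Pg (γ P x)) (ρ P)
  emb : ∀ P, Emb ν (wm (O P) (ρ P)) (O P) (γ P)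
  inv : ∀ P, ∀ x ∈ O P, π P (γ P x) = x
  cover : ∀ᵐ s ∂ν, ∃ P, s ∈ γ P '' O P
  test : ∀ P a, Tst (O P) (fun x => Pg (γ P x)) a → ∃ g ∈ G,
    g.1 =ᵐ[ν] (γ P '' O P).indicator (fun s => a (π P s)) ∧
    g.2 =ᵐ[ν] (γ P '' O P).indicator fun s => op b (A P) (B P) a (π P s)
  val : ∀ g ∈ G, (∀ᵐ s ∂ν, Pg s (g.1 s) = g.1 s) ∧ ∀ᵐ s ∂ν, Pg s (g.2 s) = g.2 s
  sym : Sym G
  K_cpt : ∀ P, IsCompact (K P)
  K_sub : ∀ P, K P ⊆ O P
  θ_nonneg : ∀ P s, 0 ≤ θ P s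
  θ_supp : ∀ P s, s ∉ γ P '' K P → θ P s = 0
  θ_smooth : ∀ P, ContDiffOn ℝ ∞ (fun x => θ P (γ P x)) (O P)
  χ_smooth : ∀ n P, ContDiffOn ℝ ∞ (fun x => χ n (γ P x)) (O P)
  χ_mem : ∀ n, ∀ᵐ s ∂ν, 0 ≤ χ n s ∧ χ n s ≤ 1
  χ_sum : ∀ n, ∀ᵐ s ∂ν, ∑ P ∈ fs n, χ n s * θ P s = χ n s
  χ_lim : ∀ᵐ s ∂ν, Tendsto (fun n => χ n s) atTop (𝓝 1)
  δ_lim : Tendsto δ atTop (𝓝 0)
  grad : ∀ n P, ∀ x ∈ K P,
    ‖∑ a, ((fderiv ℝ (fun y => χ n (γ P y)) x (b a) : ℝ) : ℂ) • A P a x‖ ≤ δ n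

end chart

/-- number operator -/
def num (ε : Eu N → W →L[ℂ] W) (S : Submodule ℝ (Eu N)) : W →L[ℂ] W :=
  ∑ a, ε (S.starProjection (bs a)) * star (ε (S.starProjection (bs a)))

theorem deg_eq (ε : Eu N → W →L[ℂ] W) (S : Submodule ℝ (Eu N)) (j : ℕ) :
    deg ε S j = (num ε S - (j : ℂ) • 1 : W →L[ℂ] W).ker.starProjection := rfl

/-- `v ↦ -ι(v)` as a continuous linear map -/
def ioL (ε : Eu N →L[ℝ] W →L[ℂ] W) : Eu N →L[ℝ] W →L[ℂ] W :=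
  -((starL' ℝ : (W →L[ℂ] W) ≃L[ℝ] (W →L[ℂ] W)) : (W →L[ℂ] W) →L[ℝ] (W →L[ℂ] W)) ∘L ε

@[simp] theorem ioL_apply (ε : Eu N →L[ℝ] W →L[ℂ] W) (v : Eu N) : ioL ε v = -star (ε v) := rfl

/-- Clifford multiplication as a continuous linear map -/
def clL (ε : Eu N →L[ℝ] W →L[ℂ] W) : Eu N →L[ℝ] W →L[ℂ] W := ε + ioL ε

@[simp] theorem clL_apply (ε : Eu N →L[ℝ] W →L[ℂ] W) (v : Eu N) : clL ε v = cl ε v := by
  simp [clL, cl, sub_eq_add_neg]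

/-- skew part of a product of Clifford multiplications -/
def Kc (ε : Eu N → W →L[ℂ] W) (v w : Eu N) : W →L[ℂ] W :=
  (-(1 / 2 : ℂ)) • (cl ε v * cl ε w - cl ε w * cl ε v)

/-- index of a plaque -/
abbrev Tr (q k : ℕ) : Type := Fin k × Eu q × Eu q

/-- coordinate vectors -/
def cb : Fin p ⊕ Fin q → Eu p × Eu q := Sum.elim (fun b => (bs b, 0)) (fun b => (0, bs b))

/-- scaled coordinate vectors -/
def cbh (h : ℝ) : Fin p ⊕ Fin q → Eu p × Eu q :=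
  Sum.elim (fun b => (bs b, 0)) (fun b => (0, h • bs b))

/-- coordinates -/
def crd (a : Fin p ⊕ Fin q) (z : Eu p × Eu q) : ℝ := 
  Sum.elim (fun b => ⟪bs b, z.1⟫_ℝ) (fun b => ⟪bs b, z.2⟫_ℝ) a

/-- the scale of the wave packets -/
def sc (h : ℝ) : ℝ := h ^ (3 / 4 : ℝ)

/-- the window -/
def bw (β : Eu q → ℝ) (h : ℝ) (y : Eu q) (L : Eu q →L[ℝ] Eu q) (Y : Eu q) : ℝ :=
  (√(sc h ^ q))⁻¹ * β ((sc h)⁻¹ • L (Y - y))

/-- window times phase -/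
def ph (β : Eu q → ℝ) (h : ℝ) (y η : Eu q) (L : Eu q →L[ℝ] Eu q) (Y : Eu q) : ℂ :=
  (bw β h y L Y : ℂ) * cexp (I * ((⟪η, Y - y⟫_ℝ / h : ℝ) : ℂ))

/-- Fourier transform on the product -/
def FT (G : Eu p × Eu q → W) (ζ : Eu p × Eu q) : W :=
  ∫ z, cexp (-(2 * Real.pi * I * ((⟪ζ.1, z.1⟫_ℝ + ⟪ζ.2, z.2⟫_ℝ : ℝ) : ℂ))) • G z

/-- windowed Fourier transform -/
def Lam (β : Eu q → ℝ) (h : ℝ) (G : Eu p × Eu q → W) (o : Eu p × Eu q × Eu q) : W :=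
  ∫ z, (conj (ph β h o.2.1 o.2.2 (ContinuousLinearMap.id ℝ _) z.2) *
    cexp (-(2 * Real.pi * I * ((⟪o.1, z.1⟫_ℝ : ℝ) : ℂ)))) • G z

/-- Jacobian -/
def jac (e : Eu q ≃L[ℝ] Eu q) : ℝ≥0 := ‖(e : Eu q →L[ℝ] Eu q).det‖₊

/-- `D_F + h D_H` -/
def Dh (DF DH : (Eu N → W) → Eu N → W) (h : ℝ) (u : Eu N → W) : Eu N → W :=
  DF u + (h : ℂ) • DH u

/-- the truncated phase space -/
def Om (p q : ℕ) (K : ℕ) : Set (Eu p × Eu q × Eu q) :=
  closedBall 0 K ×ˢ (Set.univ ×ˢ closedBall 0 K)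

namespace Atl
variable (A : Atl N p q k) (ε : Eu N →L[ℝ] W →L[ℂ] W)

/-- The graph of `D` on smooth forms. -/
def grM (μ : Measure (Eu N)) (D : (Eu N → W) → Eu N → W) : Set (Lp W 2 μ × Lp W 2 μ) :=
  {g | ∃ u, A.Form ε u ∧ g.1 =ᵐ[μ] u ∧ g.2 =ᵐ[μ] D u}

/-- The graph of the leaf operator on sections of the leaf supported in one plaque. -/
def grL (D : (Eu N → W) → Eu N → W) (t₀ : Fin k × Eu q × Eu q) (l : Measure (Eu N × Eu N)) :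
    Set (Lp W 2 l × Lp W 2 l) :=
  {g | ∃ t u, A.Reach t₀ t ∧ A.Form ε u ∧ A.Loc t.1 u ∧
    g.1 =ᵐ[l] (A.plq t).indicator (fun z => u z.1) ∧
    g.2 =ᵐ[l] (A.plq t).indicator fun z => D u z.1 + I • cl ε z.2 (u z.1)}

/-- projection onto tangential forms -/
def Pi (m : Eu N) : W →L[ℂ] W := deg ε (A.T m)ᗮ 0

/-- gradient of a coordinate -/
def gr (i : Fin k) (a : Fin p ⊕ Fin q) (m : Eu N) : Eu N :=
  A.shp m (gradient (fun n => crd a (A.φ i n)) m)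

/-- `J` as a continuous linear map -/
def JL (m : Eu N) : Eu N →L[ℝ] Eu N := LinearMap.toContinuousLinearMap ((A.J_lin m).mk' _)

/-- the differential of a chart, followed by the isometry `J` -/
def jd (i : Fin k) (z : Eu p × Eu q) : Eu p × Eu q →L[ℝ] Eu N :=
  A.JL (A.ψ i z) ∘L fderiv ℝ (A.ψ i) z

/-- symbol in a chart -/
def sy (c : Eu N →L[ℝ] W →L[ℂ] W) (Q : Eu N → Submodule ℝ (Eu N)) (i : Fin k)
    (a : Fin p ⊕ Fin q) (z : Eu p × Eu q) : W →L[ℂ] W :=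
  c ((Q (A.ψ i z)).starProjection (A.gr i a (A.ψ i z)))

/-- `D` is a first order operator with symbol `c ∘ P_Q` -/
def IsOp (c : Eu N →L[ℝ] W →L[ℂ] W) (Q : Eu N → Submodule ℝ (Eu N))
    (D : (Eu N → W) → Eu N → W) : Prop :=
  ∀ i, ∃ Z : Eu p × Eu q → W →L[ℂ] W, ContDiffOn ℝ ∞ Z (ball 0 1) ∧ ∀ u, A.Form ε u →
    ∀ z ∈ ball (0 : Eu p × Eu q) 1, D u (A.ψ i z) = op cb (A.sy c Q i) Z (fun z => u (A.ψ i z)) z

/-- a subbundle of the tangent bundle -/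
def SubB (Q : Eu N → Submodule ℝ (Eu N)) : Prop :=
  ContDiffOn ℝ ∞ (fun m => (Q m).starProjection) A.M ∧ ∀ m ∈ A.M, Q m ≤ A.T m

/-- the pair of signature operators -/
structure Dir (μ : Measure (Eu N)) (DF DH : (Eu N → W) → Eu N → W) : Prop where
  opF : A.IsOp ε (clL ε) A.F DF
  opH : A.IsOp ε (clL ε) A.H DH
  formF : ∀ u, A.Form ε u → A.Form ε (DF u)
  formH : ∀ u, A.Form ε u → A.Form ε (DH u)
  symF : ∀ u v, A.Form ε u → A.Form ε v → ∫ m, ⟪DF u m, v m⟫_ℂ ∂μ = ∫ m, ⟪u m, DF v m⟫_ℂ ∂μ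
  symH : ∀ u v, A.Form ε u → A.Form ε v → ∫ m, ⟪DH u m, v m⟫_ℂ ∂μ = ∫ m, ⟪u m, DH v m⟫_ℂ ∂μ

/-- extension by zero from a chart -/
def ext {G : Type} [Zero G] (i : Fin k) (a : Eu p × Eu q → G) : Eu N → G :=
  (A.U i).indicator fun m => a (A.φ i m)

/-- transverse part of a transition map -/
def tau (i j : Fin k) (z : Eu p × Eu q) : Eu q := (A.φ j (A.ψ i z)).2

/-- its transverse derivative -/
def dta (i j : Fin k) (z : Eu p × Eu q) : Eu q →L[ℝ] Eu q :=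
  fderiv ℝ (fun Y => A.tau i j (z.1, Y)) z.2

/-- the plaque of the chart `j` through `z` -/
def tri (j : Fin k) (z : Eu N × Eu N) : Tr q k :=
  (j, (A.φ j z.1).2, ContinuousLinearMap.adjoint
    (A.jd j (A.φ j z.1) ∘L ContinuousLinearMap.inr ℝ (Eu p) (Eu q)) z.2)

/-- compact part of a plaque -/
def kplq (r : ℝ) (t : Tr q k) : Set (Eu N × Eu N) :=
  A.gam t '' {x | (x, t.2.1) ∈ closedBall (0 : Eu p × Eu q) r}

/-- linear holonomy from the plaque `t₀`, independent of the chain -/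
structure Hd (t₀ : Tr q k) (B : Tr q k → Eu q ≃L[ℝ] Eu q) : Prop where
  mem : t₀.2.1 ∈ ball (0 : Eu q) 1
  base : B t₀ = ContinuousLinearEquiv.refl ℝ _
  cons : ∀ t t', A.Reach t₀ t → A.Reach t₀ t' → ∀ x ∈ ball (0 : Eu p) 1,
    A.ψ t.1 (x, t.2.1) ∈ A.U t'.1 → A.tau t.1 t'.1 (x, t.2.1) = t'.2.1 →
    t.2.2 = ContinuousLinearMap.adjoint (A.dta t.1 t'.1 (x, t.2.1)) t'.2.2 ∧
    (B t' : Eu q →L[ℝ] Eu q) = A.dta t.1 t'.1 (x, t.2.1) ∘L (B t : Eu q →L[ℝ] Eu q)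

/-- wave packet -/
def pk (β : Eu q → ℝ) (h : ℝ) (t : Tr q k) (L : Eu q →L[ℝ] Eu q) (u : Eu N → W) (m : Eu N) : W :=
  ph β h t.2.1 t.2.2 L (A.φ t.1 m).2 • u m

/-- the leaf operator applied to `u` -/
def lft (DF : (Eu N → W) → Eu N → W) (t : Tr q k) (u : Eu N → W) (m : Eu N) : W :=
  DF u m + I • cl ε (A.cov t.1 t.2.2 m) (u m)

/-- cutoff times the square root of the density -/
def kap (i : Fin k) : Eu p × Eu q → ℝ :=
  (ball 0 1).indicator fun z => A.χ i (A.ψ i z) * √(A.rho i z)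

/-- localisation in a chart -/
def loc (i : Fin k) (v : Eu N → W) (z : Eu p × Eu q) : W := (A.kap i z : ℂ) • v (A.ψ i z)

/-- localised plane wave -/
def uf (i : Fin k) (ξ : Eu p) (e : W) : Eu N → W :=
  A.ext i fun z => (((A.χ i (A.ψ i z) * (√(A.rho i z))⁻¹ : ℝ) : ℂ) *
    cexp (2 * Real.pi * I * ((⟪ξ, z.1⟫_ℝ : ℝ) : ℂ))) • A.Pi ε (A.ψ i z) e

/-- the frame on `M` -/
def wv (μ : Measure (Eu N)) (β : Eu q → ℝ) (h : ℝ) (j : Fin k × Fin (Module.finrank ℂ W))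
    (o : Eu p × Eu q × Eu q) : Lp W 2 μ :=
  toL μ (A.pk β h (j.1, o.2) (ContinuousLinearMap.id ℝ _)
    (A.uf ε j.1 o.1 (stdOrthonormalBasis ℂ W j.2)))

/-- the section of the leaf given by `u` on the plaque `t` -/
def sec (l : Measure (Eu N × Eu N)) (t : Tr q k) (u : Eu N → W) : Lp W 2 l :=
  toL l ((A.plq t).indicator fun z => u z.1)

/-- labels -/
def Lab (t₀ : Tr q k) : Type :=
  {a : Tr q k × (Eu N → W) // A.Reach t₀ a.1 ∧ A.Form ε a.2 ∧ A.Loc a.1.1 a.2}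

/-- the vector in phase space direction `a` at scale `h` -/
def wh (h : ℝ) (i : Fin k) (a : Fin p ⊕ Fin q) (z : Eu p × Eu q) : Eu N :=
  Sum.elim (fun b => (A.F (A.ψ i z)).starProjection (A.gr i (.inl b) (A.ψ i z)) +
    h • (A.H (A.ψ i z)).starProjection (A.gr i (.inl b) (A.ψ i z)))
    (fun b => A.gr i (.inr b) (A.ψ i z)) a

end Atl

end Pool.Agent.P.MP_e0a138_an.AD
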