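import Mathlib

set_option autoImplicit false

open MeasureTheory Filter Topology Metric Complex
open scoped ENNReal NNReal ContDiff InnerProductSpace

noncomputable section
namespace Pool.Agent.P.MP_e0a138_an.AD

/-- Euclidean space. -/
def Eu (n : ℕ) : Type := EuclideanSpace ℝ (Fin n)

instance instN (n : ℕ) : NormedAddCommGroup (Eu n) :=
  (inferInstance : NormedAddCommGroup (EuclideanSpace ℝ (Fin n)))
instance instI (n : ℕ) : InnerProductSpace ℝ (Eu n) :=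
  (inferInstance : InnerProductSpace ℝ (EuclideanSpace ℝ (Fin n)))
instance instF (n : ℕ) : FiniteDimensional ℝ (Eu n) :=
  (inferInstance : FiniteDimensional ℝ (EuclideanSpace ℝ (Fin n)))
instance instM (n : ℕ) : MeasurableSpace (Eu n) := borel _
instance instB (n : ℕ) : BorelSpace (Eu n) := ⟨rfl⟩

/-- A closed submanifold `M` of `ℝ^N` with the Riemannian metric `⟪J m v, J m w⟫` and a foliation,
given by `k` foliated charts on the unit ball of `ℝ^p × ℝ^q` (sup norm) and a subordinate partition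
of unity by squares. `J m` maps the tangent spaces of `M` and of the leaves isometrically onto the
subspaces `T m` and `F m` of Euclidean space. -/
structure Atl (N p q k : ℕ) where
  M : Set (Eu N)
  J : Eu N → Eu N → Eu N
  T : Eu N → Submodule ℝ (Eu N)
  F : Eu N → Submodule ℝ (Eu N)
  U : Fin k → Set (Eu N)
  ψ : Fin k → Eu p × Eu q → Eu N
  φ : Fin k → Eu N → Eu p × Eu q
  χ : Fin k → Eu N → ℝ
  J_lin : ∀ m, IsLinearMap ℝ (J m)
  J_smooth : ∀ v, ContDiff ℝ ∞ fun m => J m v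
  J_inj : ∀ m, Function.Injective (J m)
  U_open : ∀ i, IsOpen (U i)
  ψ_smooth : ∀ i, ContDiff ℝ ∞ (ψ i)
  φ_smooth : ∀ i, ContDiff ℝ ∞ (φ i)
  χ_smooth : ∀ i, ContDiff ℝ ∞ (χ i)
  image : ∀ i, ψ i '' ball 0 1 = M ∩ U i
  left_inv : ∀ i, ∀ z ∈ ball (0 : Eu p × Eu q) 1, φ i (ψ i z) = z
  T_eq : ∀ i, ∀ z ∈ ball (0 : Eu p × Eu q) 1, ∀ v,
    v ∈ T (ψ i z) ↔ ∃ w, J (ψ i z) (fderiv ℝ (ψ i) z w) = v
  F_eq : ∀ i, ∀ z ∈ ball (0 : Eu p × Eu q) 1, ∀ v,
    v ∈ F (ψ i z) ↔ ∃ x, J (ψ i z) (fderiv ℝ (ψ i) z (x, 0)) = v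
  χ_supp : ∀ i, ∃ r < 1, ∀ m ∈ M, m ∉ ψ i '' closedBall 0 r → χ i m = 0
  χ_sum : ∀ m ∈ M, ∑ i, χ i m ^ 2 = 1

/-- Bounded operators. -/
abbrev Op (H : Type) [NormedAddCommGroup H] [InnerProductSpace ℂ H] : Type := H →L[ℂ] H

/-- The Liouville measure `dy dη` on `{|y| < 1} × ℝ^q`. -/
def lio (q : ℕ) : Measure (Eu q × Eu q) := volume.restrict (ball 0 1 ×ˢ Set.univ)

section hilbert
variable {H : Type} [NormedAddCommGroup H] [InnerProductSpace ℂ H] [CompleteSpace H]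

/-- `v` is orthogonal to the domain of the operator with graph `G`. -/
def Perp (G : Set (H × H)) (v : H) : Prop := ∀ g ∈ G, ⟪g.1, v⟫_ℂ = 0

/-- The operator `D` with graph spanned by `G` is symmetric, and `D ± i` have dense range in the
closure of the domain. -/
def EssSA (G : Set (H × H)) : Prop :=
  (∀ a ∈ G, ∀ b ∈ G, ⟪a.2, b.1⟫_ℂ = ⟪a.1, b.2⟫_ℂ) ∧
    ∀ s ∈ ({I, -I} : Set ℂ), ∀ v, (∀ g ∈ G, ⟪g.2 + s • g.1, v⟫_ℂ = 0) ↔ Perp G v

/-- `R` is the resolvent `(D + i)⁻¹`, extended by zero. -/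
def IsRes (G : Set (H × H)) (R : Op H) : Prop :=
  (∀ g ∈ G, R (g.2 + I • g.1) = g.1) ∧ ∀ v, Perp G v → R v = 0

/-- `f(D)` for even `f`, from the resolvent `R = (D + i)⁻¹` through `R* R = (1 + D²)⁻¹`. -/
def fn (f : ℝ → ℂ) (R : Op H) : Op H :=
  cfc (fun r : ℂ => if 0 < r.re then f √(r.re⁻¹ - 1) else 0) (star R * R)

end hilbert

variable {N p q k : ℕ} {W : Type} [NormedAddCommGroup W] [InnerProductSpace ℂ W]
  [FiniteDimensional ℂ W] [CompleteSpace W]

/-- The space `L²(ν; W)`. -/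
def L2 (W : Type) [NormedAddCommGroup W] {S : Type} [MeasurableSpace S] (ν : Measure S) : Type :=
  Lp W 2 ν

section
variable {S : Type} [MeasurableSpace S] {ν : Measure S}

instance instN2 : NormedAddCommGroup (L2 W ν) := (inferInstance : NormedAddCommGroup (Lp W 2 ν))
instance instI2 : InnerProductSpace ℂ (L2 W ν) := (inferInstance : InnerProductSpace ℂ (Lp W 2 ν))
instance instC2 : CompleteSpace (L2 W ν) := (inferInstance : CompleteSpace (Lp W 2 ν))

/-- `v` is the class of the function `f`. -/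
def Rep (v : L2 W ν) (f : S → W) : Prop := (show Lp W 2 ν from v) =ᵐ[ν] f

/-- The operator `w T w`, with `w` a real function, has trace `τ` in every Hilbert basis. -/
def HasTr (w : S → ℝ) (T : Op (L2 W ν)) (τ : ℂ) : Prop :=
  ∃ M : Op (L2 W ν), (∀ v f, Rep v f → Rep (M v) fun s => (w s : ℂ) • f s) ∧
    ∀ (J : Type) (b : HilbertBasis J ℂ (L2 W ν)), HasSum (fun j => ⟪b j, (M * T * M) (b j)⟫_ℂ) τ

end

/-- Canonical anticommutation relations of exterior multiplication `ε` and its adjoint. -/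
def IsCAR (ε : Eu N → Op W) : Prop :=
  IsLinearMap ℝ ε ∧ ∀ v w, ε v * ε w + ε w * ε v = 0 ∧
    star (ε v) * ε w + ε w * star (ε v) = ((⟪v, w⟫_ℝ : ℝ) : ℂ) • 1

/-- Standard basis. -/
def bs {n : ℕ} (a : Fin n) : Eu n := EuclideanSpace.single a (1 : ℝ)

/-- Projection onto the forms of degree `j` along the subspace `S`: the `j`-eigenspace of the
number operator of `S`. -/
def deg (ε : Eu N → Op W) (S : Submodule ℝ (Eu N)) (j : ℕ) : Op W :=
  (∑ a, ε (S.starProjection (bs a)) * star (ε (S.starProjection (bs a))) - (j : ℂ) • 1 :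
    Op W).ker.starProjection

/-- Clifford multiplication `ε - ι`. -/
def cl (ε : Eu N → Op W) (v : Eu N) : Op W := ε v - star (ε v)

namespace Atl
variable (A : Atl N p q k) (ε : Eu N → Op W)

/-- The orthogonal complement of `F` in `T`. -/
def H (m : Eu N) : Submodule ℝ (Eu N) := (A.F m)ᗮ ⊓ A.T m

/-- Smooth differential forms on `M`. -/
def Form (u : Eu N → W) : Prop :=
  ContDiffOn ℝ ∞ u A.M ∧ ∀ m ∈ A.M, deg ε (A.T m)ᗮ 0 (u m) = u m

/-- The vector of `T m` dual to the restriction to `M` of the covector `ξ` of `ℝ^N`. -/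
def shp (m ξ : Eu N) : Eu N :=
  Classical.epsilon fun t => t ∈ A.T m ∧ ∀ v, A.J m v ∈ A.T m → ⟪t, A.J m v⟫_ℝ = ⟪ξ, v⟫_ℝ

/-- Exterior multiplication by the restriction to `M` of `dx_{a₁} ∧ ... ∧ dx_{a_r}`. -/
def dx (l : List (Fin N)) (m : Eu N) : Op W := (l.map fun a => ε (A.shp m (bs a))).prod

/-- `d` is the de Rham differential: it is additive and `d (f dx_I) = df ∧ dx_I` for smooth `f`
of degree zero. -/
def IsD (d : (Eu N → W) → Eu N → W) : Prop :=
  (∀ u v, A.Form ε u → A.Form ε v → ∀ m ∈ A.M, d (u + v) m = d u m + d v m) ∧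
    ∀ (l : List (Fin N)) (f u : Eu N → W), ContDiff ℝ ∞ f → (∀ n v, star (ε v) (f n) = 0) →
      (∀ n ∈ A.M, u n = A.dx ε l n (f n)) →
      ∀ m ∈ A.M, d u m = ∑ a, A.dx ε (a :: l) m (fderiv ℝ f m (bs a))

/-- The component of `d` that raises the transverse degree by `r`. -/
def dc (d : (Eu N → W) → Eu N → W) (r : ℕ) (u : Eu N → W) (m : Eu N) : W :=
  ∑ j ∈ Finset.range (N + 1), deg ε (A.H m) (j + r) (d (fun n => deg ε (A.H n) j (u n)) m)

/-- Riemannian density in a chart. -/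
def rho (i : Fin k) (z : Eu p × Eu q) : ℝ :=
  √(Matrix.gram ℝ fun a : Fin p ⊕ Fin q => A.J (A.ψ i z) (fderiv ℝ (A.ψ i) z
    (Sum.elim (fun b => (bs b, 0)) (fun b => (0, bs b)) a))).det

/-- `μ` is the Riemannian volume of `M`. -/
def IsVol (μ : Measure (Eu N)) : Prop :=
  μ A.Mᶜ = 0 ∧ ∀ i, μ.restrict (A.U i) =
    ((volume.restrict (ball 0 1)).withDensity fun z => ENNReal.ofReal (A.rho i z)).map (A.ψ i)

/-- `δ` is the formal adjoint of `d`. -/
def IsAdj (μ : Measure (Eu N)) (d δ : (Eu N → W) → Eu N → W) : Prop :=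
  ∀ u, A.Form ε u → A.Form ε (δ u) ∧
    ∀ v, A.Form ε v → ∫ m, ⟪δ u m, v m⟫_ℂ ∂μ = ∫ m, ⟪u m, d v m⟫_ℂ ∂μ

/-- The graph of `D` on smooth forms. -/
def graphM (μ : Measure (Eu N)) (D : (Eu N → W) → Eu N → W) : Set (L2 W μ × L2 W μ) :=
  {g | ∃ u, A.Form ε u ∧ Rep g.1 u ∧ Rep g.2 (D u)}

/-- The conormal vector `η · dy` of the chart `i` at `m`. -/
def cov (i : Fin k) (η : Eu q) (m : Eu N) : Eu N :=
  A.shp m (gradient (fun n => ⟪η, (A.φ i n).2⟫_ℝ) m)

/-- Parametrisation of the plaque `(i, y, η)` of the linearized foliation. -/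
def gam (t : Fin k × Eu q × Eu q) (x : Eu p) : Eu N × Eu N :=
  (A.ψ t.1 (x, t.2.1), A.cov t.1 t.2.2 (A.ψ t.1 (x, t.2.1)))

/-- The plaque `(i, y, η)`. -/
def plq (t : Fin k × Eu q × Eu q) : Set (Eu N × Eu N) :=
  A.gam t '' {x | (x, t.2.1) ∈ ball (0 : Eu p × Eu q) 1}

/-- Plaques joined by a chain of plaques. -/
def Reach : Fin k × Eu q × Eu q → Fin k × Eu q × Eu q → Prop :=
  Relation.ReflTransGen fun a b => (A.plq a ∩ A.plq b).Nonempty

/-- The measure `rho(x, y) dx` on a plaque. -/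
def pm (t : Fin k × Eu q × Eu q) : Measure (Eu N × Eu N) :=
  ((volume.restrict {x | (x, t.2.1) ∈ ball (0 : Eu p × Eu q) 1}).withDensity
    fun x => ENNReal.ofReal (A.rho t.1 (x, t.2.1))).map (A.gam t)

/-- `l` is carried by the leaf through the plaque `t₀` and is a constant multiple of
`rho(x, y) dx` on each plaque. -/
def IsLeaf (t₀ : Fin k × Eu q × Eu q) (l : Measure (Eu N × Eu N)) : Prop :=
  l (⋃ t ∈ {t | A.Reach t₀ t}, A.plq t)ᶜ = 0 ∧
    ∀ t, A.Reach t₀ t → ∃ c : ℝ≥0, c ≠ 0 ∧ l.restrict (A.plq t) = c • A.pm t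

/-- Support in a compact part of the chart `i`. -/
def Loc (i : Fin k) (u : Eu N → W) : Prop :=
  ∃ r < 1, ∀ m ∈ A.M, m ∉ A.ψ i '' closedBall 0 r → u m = 0

/-- The graph of `D + i (ε(ν) - ι(ν))` on sections of the leaf supported in one plaque. -/
def graphL (D : (Eu N → W) → Eu N → W) (t₀ : Fin k × Eu q × Eu q) (l : Measure (Eu N × Eu N)) :
    Set (L2 W l × L2 W l) :=
  {g | ∃ t u, A.Reach t₀ t ∧ A.Form ε u ∧ A.Loc t.1 u ∧
    Rep g.1 ((A.plq t).indicator fun z => u z.1) ∧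
    Rep g.2 ((A.plq t).indicator fun z => D u z.1 + I • cl ε z.2 (u z.1))}

end Atl

end Pool.Agent.P.MP_e0a138_an.AD
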