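import Pool.Agent.P.MP_e0a138_an.ABase

set_option autoImplicit false
set_option linter.unusedSectionVars false
set_option linter.unusedVariables false
set_option linter.deprecated false

open MeasureTheory Filter Topology Metric Complex
open scoped ENNReal NNReal ContDiff InnerProductSpace ComplexConjugate

noncomputable section
namespace Pool.Agent.P.MP_e0a138_an.AD

variable {N p q k : ℕ} {W : Type} [NormedAddCommGroup W] [InnerProductSpace ℂ W]
  [FiniteDimensional ℂ W] [CompleteSpace W]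

variable {ε : Eu N →L[ℝ] W →L[ℂ] W}

theorem cl_star (v : Eu N) : star (cl ε v) = -cl ε v := by
  simp only [cl, star_sub, star_star, neg_sub]

theorem cl_mul (hε : IsCAR ε) (v w : Eu N) :
    cl ε v * cl ε w + cl ε w * cl ε v = ((-(2 * ⟪v, w⟫_ℝ) : ℝ) : ℂ) • 1 := by
  have h1 := (hε.2 v w).1
  have h2 := (hε.2 v w).2
  have h3 := (hε.2 w v).2
  have h4 : star (ε v) * star (ε w) + star (ε w) * star (ε v) = 0 := by
    have := congrArg star h1
    rw [star_add, star_mul, star_mul, star_zero, add_comm] at this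
    exact this
  rw [real_inner_comm] at h3
  have e : cl ε v * cl ε w + cl ε w * cl ε v = (ε v * ε w + ε w * ε v) +
      (star (ε v) * star (ε w) + star (ε w) * star (ε v)) -
      (star (ε v) * ε w + ε w * star (ε v)) - (star (ε w) * ε v + ε v * star (ε w)) := by
    simp only [cl]; noncomm_ring
  rw [e, h1, h2, h3, h4]
  push_cast
  module

theorem eps_smul (t : ℝ) (v : Eu N) : ε (t • v) = (t : ℂ) • ε v := by
  rw [map_smul, Complex.coe_smul]

theorem cl_smul (t : ℝ) (v : Eu N) : cl ε (t • v) = (t : ℂ) • cl ε v := by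
  simp only [cl, eps_smul, star_smul, smul_sub, Complex.star_def, Complex.conj_ofReal]

theorem num_star (S : Submodule ℝ (Eu N)) : star (num ε S) = num ε S := by
  simp only [num, star_sum, star_mul, star_star]

theorem num_comm (hε : IsCAR ε) (S : Submodule ℝ (Eu N)) (v : Eu N) :
    num ε S * ε v - ε v * num ε S = ε (S.starProjection v) := by
  have key : ∀ x : Eu N, ε x * star (ε x) * ε v - ε v * (ε x * star (ε x)) =
      ((⟪x, v⟫_ℝ : ℝ) : ℂ) • ε x := by
    intro x
    have h1 := (hε.2 x v).1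
    have h2 := (hε.2 x v).2
    have e : ε x * star (ε x) * ε v - ε v * (ε x * star (ε x)) =
        ε x * (star (ε x) * ε v + ε v * star (ε x)) - (ε x * ε v + ε v * ε x) * star (ε x) := by
      noncomm_ring
    rw [e, h1, h2, zero_mul, sub_zero, mul_smul_comm, mul_one]
  have hs : S.starProjection v =
      ∑ a, ⟪S.starProjection (bs a), v⟫_ℝ • S.starProjection (bs a) := by
    have h1 : S.starProjection v = S.starProjection (S.starProjection v) :=
      (Submodule.starProjection_eq_self_iff.2 (S.starProjection_apply_mem v)).symm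
    rw [h1, ← sum_bs (S.starProjection v), map_sum]
    refine Finset.sum_congr rfl fun a _ => ?_
    rw [map_smul, Submodule.inner_starProjection_left_eq_right]
  rw [hs, map_sum, num, Finset.sum_mul, Finset.mul_sum, ← Finset.sum_sub_distrib]
  refine Finset.sum_congr rfl fun a _ => ?_
  rw [key, eps_smul]

theorem num_comm_star (hε : IsCAR ε) (S : Submodule ℝ (Eu N)) (v : Eu N) :
    star (ε v) * num ε S - num ε S * star (ε v) = star (ε (S.starProjection v)) := by
  have := congrArg star (num_comm hε S v)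
  rwa [star_sub, star_mul, star_mul, num_star] at this

theorem AL1_inner_num (S : Submodule ℝ (Eu N)) (x : W) :
    (⟪x, num ε S x⟫_ℂ).re = ∑ a, ‖star (ε (S.starProjection (bs a))) x‖ ^ 2 := by
  rw [num, ContinuousLinearMap.sum_apply, inner_sum, Complex.re_sum]
  refine Finset.sum_congr rfl fun a _ => ?_
  rw [ContinuousLinearMap.mul_apply, ← ContinuousLinearMap.adjoint_inner_left,
    ← ContinuousLinearMap.star_eq_adjoint, inner_self_eq_norm_sq_to_K]
  norm_cast

theorem AL1_norm_le (hε : IsCAR ε) (v : Eu N) (hv : ‖v‖ ≤ 1) (x : W) :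
    ‖star (ε v) x‖ ^ 2 ≤ ‖x‖ ^ 2 := by
  have h2 := (hε.2 v v).2
  have h3 := congrArg (fun T : W →L[ℂ] W => (⟪x, T x⟫_ℂ).re) h2
  simp only [ContinuousLinearMap.add_apply, ContinuousLinearMap.mul_apply, inner_add_right,
    ContinuousLinearMap.smul_apply, ContinuousLinearMap.one_apply, inner_smul_right,
    Complex.add_re] at h3
  have a1 : (⟪x, star (ε v) (ε v x)⟫_ℂ).re = ‖ε v x‖ ^ 2 := by
    rw [ContinuousLinearMap.star_eq_adjoint, ContinuousLinearMap.adjoint_inner_right,
      inner_self_eq_norm_sq_to_K]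
    norm_cast
  have a2 : (⟪x, ε v (star (ε v) x)⟫_ℂ).re = ‖star (ε v) x‖ ^ 2 := by
    rw [← ContinuousLinearMap.adjoint_inner_left, ← ContinuousLinearMap.star_eq_adjoint,
      inner_self_eq_norm_sq_to_K]
    norm_cast
  have a3 : (((⟪v, v⟫_ℝ : ℝ) : ℂ) * ⟪x, x⟫_ℂ).re = ‖v‖ ^ 2 * ‖x‖ ^ 2 := by
    rw [Complex.re_ofReal_mul, real_inner_self_eq_norm_sq, inner_self_eq_norm_sq_to_K]
    norm_cast
  rw [a1, a2, a3] at h3
  have h4 : ‖v‖ ^ 2 ≤ 1 := by nlinarith [norm_nonneg v]
  nlinarith [sq_nonneg ‖ε v x‖, sq_nonneg ‖x‖]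

theorem AL1_re_bounds (hε : IsCAR ε) (S : Submodule ℝ (Eu N)) {c : ℂ} {x : W} (hx : x ≠ 0)
    (h : num ε S x = c • x) : 0 ≤ c.re ∧ c.re ≤ N := by
  have h1 := AL1_inner_num (ε := ε) S x
  have h2 : (⟪x, c • x⟫_ℂ).re = c.re * ‖x‖ ^ 2 := by
    rw [inner_smul_right, inner_self_eq_norm_sq_to_K]
    have : ((‖x‖ : ℂ) ^ 2) = ((‖x‖ ^ 2 : ℝ) : ℂ) := by norm_cast
    simp only [Complex.coe_algebraMap, this, Complex.mul_re, Complex.ofReal_re, Complex.ofReal_im,
      mul_zero, sub_zero]
  rw [h, h2] at h1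
  have hp : 0 < ‖x‖ ^ 2 := by positivity
  have h3 : 0 ≤ ∑ a, ‖star (ε (S.starProjection (bs a))) x‖ ^ 2 :=
    Finset.sum_nonneg fun a _ => sq_nonneg _
  have h4 : ∑ a, ‖star (ε (S.starProjection (bs a))) x‖ ^ 2 ≤ N * ‖x‖ ^ 2 := by
    calc _ ≤ ∑ _a : Fin N, ‖x‖ ^ 2 := Finset.sum_le_sum fun a _ =>
            AL1_norm_le hε _ ((S.norm_starProjection_apply_le _).trans (norm_bs a).le) x
      _ = _ := by simp
  rw [← h1] at h3 h4
  exact ⟨nonneg_of_mul_nonneg_left h3 hp, le_of_mul_le_mul_right h4 hp⟩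

theorem AL1_descent (hε : IsCAR ε) (S : Submodule ℝ (Eu N)) (m : ℕ) :
    ∀ {c : ℂ} {x : W}, x ≠ 0 → num ε S x = c • x → c.re < m → ∃ j : ℕ, c = j := by
  induction m with
  | zero =>
    intro c x hx h hm
    have := (AL1_re_bounds hε S hx h).1
    simp only [Nat.cast_zero] at hm
    linarith
  | succ m ih =>
    intro c x hx h hm
    by_cases h0 : ∀ a, star (ε (S.starProjection (bs a))) x = 0
    · have : num ε S x = 0 := by
        rw [num, ContinuousLinearMap.sum_apply]
        refine Finset.sum_eq_zero fun a _ => ?_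
        rw [ContinuousLinearMap.mul_apply, h0, map_zero]
      rw [this] at h
      exact ⟨0, by simpa [hx] using h.symm⟩
    · push Not at h0
      obtain ⟨a, ha⟩ := h0
      have h1 := num_comm_star hε S (S.starProjection (bs a))
      rw [Submodule.starProjection_eq_self_iff.2 (S.starProjection_apply_mem _)] at h1
      have h2 := congrArg (fun T : W →L[ℂ] W => T x) h1
      simp only [ContinuousLinearMap.sub_apply, ContinuousLinearMap.mul_apply, h, map_smul] at h2
      have h3 : num ε S (star (ε (S.starProjection (bs a))) x) =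
          (c - 1) • star (ε (S.starProjection (bs a))) x := by
        rw [sub_smul, one_smul]
        exact (sub_eq_iff_eq_add.2 (by rw [add_comm]; exact sub_eq_iff_eq_add.1 h2 |>.trans (add_comm _ _) |>.trans (add_comm _ _))).symm
      obtain ⟨j, hj⟩ := ih ha h3 (by
        simp only [Complex.sub_re, Complex.one_re]
        push_cast at hm
        linarith)
      exact ⟨j + 1, by push_cast; rw [← hj]; ring⟩

theorem num_eigen (hε : IsCAR ε) (S : Submodule ℝ (Eu N)) {c : ℂ} {x : W} (hx : x ≠ 0)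
    (h : num ε S x = c • x) : ∃ j ≤ N, c = (j : ℕ) := by
  have hb := (AL1_re_bounds hε S hx h).2
  obtain ⟨j, hj⟩ := AL1_descent hε S (N + 1) hx h (by push_cast; linarith)
  refine ⟨j, ?_, hj⟩
  rw [hj, Complex.natCast_re] at hb
  exact_mod_cast hb

theorem ext_eigen (hε : IsCAR ε) (S : Submodule ℝ (Eu N)) {A B : W →L[ℂ] W}
    (h : ∀ j ≤ N, ∀ x, num ε S x = ((j : ℕ) : ℂ) • x → A x = B x) : A = B := by
  have hsym : (num ε S : W →ₗ[ℂ] W).IsSymmetric :=
    ContinuousLinearMap.isSelfAdjoint_iff_isSymmetric.1 (num_star S)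
  have htop : (⨆ μ, Module.End.eigenspace (num ε S : W →ₗ[ℂ] W) μ) = ⊤ :=
    Submodule.orthogonal_eq_bot_iff.1 hsym.orthogonalComplement_iSup_eigenspaces_eq_bot
  ext x
  have hx : x ∈ ⨆ μ, Module.End.eigenspace (num ε S : W →ₗ[ℂ] W) μ := htop ▸ Submodule.mem_top
  refine Submodule.iSup_induction _ (motive := fun x => A x = B x) hx ?_ (by simp) ?_
  · intro c y hy
    have hy' : num ε S y = c • y := Module.End.mem_eigenspace_iff.1 hy
    by_cases h0 : y = 0
    · simp [h0]
    · obtain ⟨j, hj, rfl⟩ := num_eigen hε S h0 hy'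
      exact h j hj y hy'
  · intro y z hy hz
    rw [map_add, map_add, hy, hz]

end Pool.Agent.P.MP_e0a138_an.AD
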