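import Pool.Agent.P.MP_e0a138_an.AL1

set_option autoImplicit false
set_option linter.unusedSectionVars false
set_option linter.unusedVariables false

open MeasureTheory Filter Topology Metric Complex
open scoped ENNReal NNReal ContDiff InnerProductSpace ComplexConjugate

noncomputable section
namespace Pool.Agent.P.MP_e0a138_an.AD

variable {N p q k : ℕ} {W : Type} [NormedAddCommGroup W] [InnerProductSpace ℂ W]
  [FiniteDimensional ℂ W] [CompleteSpace W]

variable {ε : Eu N →L[ℝ] W →L[ℂ] W}

theorem al2_mem (S : Submodule ℝ (Eu N)) (j : ℕ) (x : W) :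
    x ∈ (num ε S - (j : ℂ) • 1 : W →L[ℂ] W).ker ↔ num ε S x = (j : ℂ) • x := by
  rw [LinearMap.mem_ker]
  change num ε S x - (j : ℂ) • x = 0 ↔ _
  rw [sub_eq_zero]

theorem deg_idem (S : Submodule ℝ (Eu N)) (j : ℕ) : deg ε S j * deg ε S j = deg ε S j :=
  Submodule.isIdempotentElem_starProjection _

theorem deg_star (S : Submodule ℝ (Eu N)) (j : ℕ) : star (deg ε S j) = deg ε S j :=
  isSelfAdjoint_starProjection _

theorem num_deg (S : Submodule ℝ (Eu N)) (j : ℕ) (x : W) :
    num ε S (deg ε S j x) = (j : ℂ) • deg ε S j x :=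
  (al2_mem S j _).1 (Submodule.starProjection_apply_mem _ x)

theorem deg_eigen (S : Submodule ℝ (Eu N)) {i : ℕ} (j : ℕ) {x : W} (hx : num ε S x = (i : ℂ) • x) :
    deg ε S j x = if i = j then x else 0 := by
  split_ifs with h
  · subst h
    exact Submodule.starProjection_eq_self_iff.2 ((al2_mem S i x).2 hx)
  · refine (Submodule.starProjection_apply_eq_zero_iff _).2 fun w hw => ?_
    have hw' := (al2_mem S j w).1 hw
    have h1 : ⟪num ε S w, x⟫_ℂ = ⟪w, num ε S x⟫_ℂ := by
      rw [← ContinuousLinearMap.adjoint_inner_right, ← ContinuousLinearMap.star_eq_adjoint,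
        num_star]
    rw [hw', hx, inner_smul_left, inner_smul_right, map_natCast] at h1
    have h2 : ((j : ℂ) - i) * ⟪w, x⟫_ℂ = 0 := by rw [sub_mul, h1, sub_self]
    refine (mul_eq_zero.1 h2).resolve_left fun h3 => h ?_
    exact_mod_cast (sub_eq_zero.1 h3).symm

theorem sum_deg (hε : IsCAR ε) (S : Submodule ℝ (Eu N)) :
    ∑ j ∈ Finset.range (N + 1), deg ε S j = 1 := by
  refine ext_eigen hε S fun i hi x hx => ?_
  rw [sum_apply]
  simp only [deg_eigen S _ hx]
  rw [Finset.sum_ite_eq, if_pos (Finset.mem_range.2 (Nat.lt_succ_of_le hi))]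
  rfl

theorem deg_comm (hε : IsCAR ε) (S : Submodule ℝ (Eu N)) (j : ℕ) {A : W →L[ℂ] W}
    (h : num ε S * A = A * num ε S) : deg ε S j * A = A * deg ε S j := by
  refine ext_eigen hε S fun i hi x hx => ?_
  have h1 : num ε S (A x) = (i : ℂ) • A x := by
    have := congrArg (fun B : W →L[ℂ] W => B x) h
    simp only [mul_apply_eq_comp] at this
    rw [this, hx, map_smul]
  simp only [mul_apply_eq_comp]
  rw [deg_eigen S j h1, deg_eigen S j hx]
  split_ifs
  · rfl
  · rw [map_zero]

theorem al2_comm (hε : IsCAR ε) {S : Submodule ℝ (Eu N)} {v : Eu N} (hv : v ∈ Sᗮ) :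
    num ε S * ε v = ε v * num ε S ∧ num ε S * star (ε v) = star (ε v) * num ε S := by
  have h0 : S.starProjection v = 0 := (Submodule.starProjection_apply_eq_zero_iff S).2 hv
  have h1 := num_comm hε S v
  have h2 := num_comm_star hε S v
  rw [h0, map_zero] at h1 h2
  rw [star_zero] at h2
  exact ⟨sub_eq_zero.1 h1, (sub_eq_zero.1 h2).symm⟩

theorem al2_keep (hε : IsCAR ε) (S : Submodule ℝ (Eu N)) (v : Eu N) {i : ℕ} {x : W}
    (hx : num ε S x = (i : ℂ) • x) :
    num ε S (ε (v - S.starProjection v) x) = (i : ℂ) • ε (v - S.starProjection v) x := by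
  have h := congrArg (fun A : W →L[ℂ] W => A x)
    (al2_comm hε (S.sub_starProjection_mem_orthogonal v)).1
  simp only [mul_apply_eq_comp] at h
  rw [h, hx, map_smul]

theorem al2_raise (hε : IsCAR ε) (S : Submodule ℝ (Eu N)) (v : Eu N) {i : ℕ} {x : W}
    (hx : num ε S x = (i : ℂ) • x) :
    num ε S (ε (S.starProjection v) x) = ((i + 1 : ℕ) : ℂ) • ε (S.starProjection v) x := by
  have h := congrArg (fun A : W →L[ℂ] W => A x) (num_comm hε S (S.starProjection v))
  have e : S.starProjection (S.starProjection v) = S.starProjection v :=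
    Submodule.starProjection_eq_self_iff.2 (S.starProjection_apply_mem v)
  simp only [sub_apply, mul_apply_eq_comp] at h
  rw [e, hx, map_smul, sub_eq_iff_eq_add] at h
  rw [h]
  push_cast
  rw [add_smul, one_smul, add_comm]

theorem al2_sum (hε : IsCAR ε) (S : Submodule ℝ (Eu N)) (v : Eu N) (r : ℕ) {i : ℕ} (hi : i ≤ N)
    {x : W} (hx : num ε S x = (i : ℂ) • x) :
    (∑ j ∈ Finset.range (N + 1), deg ε S (j + r) * ε v * deg ε S j) x =
      (if i = i + r then ε (v - S.starProjection v) x else 0) +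
        if i + 1 = i + r then ε (S.starProjection v) x else 0 := by
  rw [sum_apply, Finset.sum_eq_single i]
  · have e : ε v x = ε (v - S.starProjection v) x + ε (S.starProjection v) x := by
      rw [map_sub, sub_apply, sub_add_cancel]
    simp only [mul_apply_eq_comp]
    rw [deg_eigen S i hx, if_pos rfl, e, map_add, deg_eigen S _ (al2_keep hε S v hx),
      deg_eigen S _ (al2_raise hε S v hx)]
  · intro j _ hj
    simp only [mul_apply_eq_comp]
    rw [deg_eigen S j hx, if_neg hj.symm, map_zero, map_zero]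
  · intro h
    exact absurd (Finset.mem_range.2 (Nat.lt_succ_of_le hi)) h

theorem sum_deg_eps0 (hε : IsCAR ε) (S : Submodule ℝ (Eu N)) (v : Eu N) :
    ∑ j ∈ Finset.range (N + 1), deg ε S (j + 0) * ε v * deg ε S j =
      ε (v - S.starProjection v) := by
  refine ext_eigen hε S fun i hi x hx => ?_
  rw [al2_sum hε S v 0 hi hx, if_pos (add_zero i).symm, if_neg (by omega), add_zero]

theorem sum_deg_eps1 (hε : IsCAR ε) (S : Submodule ℝ (Eu N)) (v : Eu N) :
    ∑ j ∈ Finset.range (N + 1), deg ε S (j + 1) * ε v * deg ε S j =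
      ε (S.starProjection v) := by
  refine ext_eigen hε S fun i hi x hx => ?_
  rw [al2_sum hε S v 1 hi hx, if_neg (by omega), if_pos rfl, zero_add]

theorem deg_comm_eps (hε : IsCAR ε) {S : Submodule ℝ (Eu N)} (j : ℕ) {v : Eu N} (hv : v ∈ Sᗮ) :
    deg ε S j * ε v = ε v * deg ε S j ∧ deg ε S j * star (ε v) = star (ε v) * deg ε S j ∧
      deg ε S j * cl ε v = cl ε v * deg ε S j := by
  have h1 := deg_comm hε S j (al2_comm hε hv).1
  have h2 := deg_comm hε S j (al2_comm hε hv).2
  refine ⟨h1, h2, ?_⟩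
  rw [cl, mul_sub, sub_mul, h1, h2]

theorem deg_comm_deg (hε : IsCAR ε) {S S' : Submodule ℝ (Eu N)} (h : S' ≤ Sᗮ) (i j : ℕ) :
    deg ε S i * deg ε S' j = deg ε S' j * deg ε S i := by
  have h1 : num ε S * num ε S' = num ε S' * num ε S := by
    rw [show num ε S' = ∑ a, ε (S'.starProjection (bs a)) * star (ε (S'.starProjection (bs a)))
      from rfl, Finset.mul_sum, Finset.sum_mul]
    refine Finset.sum_congr rfl fun a _ => ?_
    obtain ⟨h2, h3⟩ := al2_comm hε (h (S'.starProjection_apply_mem (bs a)))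
    rw [← mul_assoc, h2, mul_assoc, h3, mul_assoc]
  exact (deg_comm hε S' j (deg_comm hε S i h1).symm).symm

end Pool.Agent.P.MP_e0a138_an.AD
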