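import Pool.Agent.P.MP_e0a138_an.AL2

set_option autoImplicit false
set_option linter.unusedSectionVars false
set_option linter.unusedVariables false

open MeasureTheory Filter Topology Metric Complex
open scoped ENNReal NNReal ContDiff InnerProductSpace ComplexConjugate

noncomputable section
namespace Pool.Agent.P.MP_e0a138_an.AD

variable {N p q k : ℕ} {W : Type} [NormedAddCommGroup W] [InnerProductSpace ℂ W]
  [FiniteDimensional ℂ W] [CompleteSpace W]

variable {ε : Eu N →L[ℝ] W →L[ℂ] W}

/-- Interpolation polynomial evaluated at an operator. -/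
def al3P (j : ℕ) (T : W →L[ℂ] W) : ℕ → W →L[ℂ] W
  | 0 => 1
  | n + 1 => (if n = j then 1 else ((j : ℂ) - n)⁻¹ • (T - (n : ℂ) • 1)) * al3P j T n

theorem al3P_eigen (j : ℕ) {T : W →L[ℂ] W} {c : ℂ} {x : W} (hx : T x = c • x) (n : ℕ) :
    al3P j T n x =
      (∏ l ∈ Finset.range n, if l = j then 1 else ((j : ℂ) - l)⁻¹ * (c - l)) • x := by
  induction n with
  | zero => simp [al3P]
  | succ n ih =>
    rw [al3P, ContinuousLinearMap.mul_apply, ih, Finset.prod_range_succ, map_smul, mul_smul]
    congr 1
    split_ifs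
    · simp
    · rw [ContinuousLinearMap.smul_apply, ContinuousLinearMap.sub_apply, hx,
        ContinuousLinearMap.smul_apply, ContinuousLinearMap.one_apply, ← sub_smul, mul_smul]

theorem al3_deg (hε : IsCAR ε) (S : Submodule ℝ (Eu N)) (j : ℕ) :
    deg ε S j = al3P j (num ε S) (N + 1) := by
  refine ext_eigen hε S fun i hi x hx => ?_
  rw [deg_eigen S j hx, al3P_eigen j hx]
  split_ifs with h
  · subst h
    rw [Finset.prod_eq_one, one_smul]
    intro l _
    split_ifs with h
    · rfl
    · refine inv_mul_cancel₀ (sub_ne_zero.2 ?_)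
      exact_mod_cast Ne.symm h
  · rw [Finset.prod_eq_zero (Finset.mem_range.2 (Nat.lt_succ_of_le hi)), zero_smul]
    rw [if_neg h, sub_self, mul_zero]

theorem al3P_smooth {E : Type} [NormedAddCommGroup E] [NormedSpace ℝ E] {T : E → W →L[ℂ] W}
    {O : Set E} (h : ContDiffOn ℝ ∞ T O) (j n : ℕ) :
    ContDiffOn ℝ ∞ (fun x => al3P j (T x) n) O := by
  induction n with
  | zero => exact contDiffOn_const
  | succ n ih =>
    simp only [al3P]
    refine ContDiffOn.mul ?_ ih
    split_ifs
    · exact contDiffOn_const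
    · exact (h.sub contDiffOn_const).const_smul _

theorem contDiffOn_num {E : Type} [NormedAddCommGroup E] [NormedSpace ℝ E]
    {S : E → Submodule ℝ (Eu N)} {O : Set E}
    (h : ContDiffOn ℝ ∞ (fun x => (S x).starProjection) O) :
    ContDiffOn ℝ ∞ (fun x => num ε (S x)) O := by
  have h1 : ∀ a, ContDiffOn ℝ ∞ (fun x => ε ((S x).starProjection (bs a))) O := fun a =>
    ε.contDiff.comp_contDiffOn (h.clm_apply contDiffOn_const)
  exact ContDiffOn.sum fun a _ => (h1 a).mul (contDiffOn_star (h1 a))

theorem contDiffOn_deg (hε : IsCAR ε) {E : Type} [NormedAddCommGroup E] [NormedSpace ℝ E]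
    {S : E → Submodule ℝ (Eu N)} {O : Set E}
    (h : ContDiffOn ℝ ∞ (fun x => (S x).starProjection) O) (j : ℕ) :
    ContDiffOn ℝ ∞ (fun x => deg ε (S x) j) O := by
  simp only [al3_deg hε]
  exact al3P_smooth (contDiffOn_num h) j _

end Pool.Agent.P.MP_e0a138_an.AD
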