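import Pool.Agent.P.MP_e0a138_an.AB7
import Pool.Agent.P.MP_e0a138_an.AB5a
import Pool.Agent.P.MP_e0a138_an.AB3

set_option autoImplicit false
set_option linter.unusedSectionVars false
set_option linter.unusedVariables false

open MeasureTheory Filter Topology Metric Complex
open scoped ENNReal NNReal ContDiff InnerProductSpace ComplexConjugate

noncomputable section
namespace Pool.Agent.P.MP_e0a138_an.AD

section hilbert
variable {H : Type} [NormedAddCommGroup H] [InnerProductSpace ℂ H] [CompleteSpace H]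

/-- positive part of the real part of `c * f` -/
def pp (c : ℂ) (f : ℝ → ℂ) (x : ℝ) : ℝ := max (c * f x).re 0

theorem pp_props (c : ℂ) {f : ℝ → ℂ} (hf : Continuous f) (hc : HasCompactSupport f) :
    Continuous (pp c f) ∧ HasCompactSupport (pp c f) ∧ ∀ x, 0 ≤ pp c f x :=
  ⟨(continuous_re.comp (continuous_const.mul hf)).max continuous_const,
    hc.comp_left (g := fun z : ℂ => max (c * z).re 0) (by simp), fun x => le_max_right _ _⟩

theorem pp_sum (f : ℝ → ℂ) (x : ℝ) : f x = (pp 1 f x : ℂ) + (-1) * (pp (-1) f x : ℂ) +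
    I * (pp (-I) f x : ℂ) + (-I) * (pp I f x : ℂ) := by
  have h1 := max_zero_sub_max_neg_zero_eq_self (f x).re
  have h2 := max_zero_sub_max_neg_zero_eq_self (f x).im
  apply Complex.ext
  · simp [pp]; linarith
  · simp [pp]; linarith

theorem fn_eq {f : ℝ → ℂ} (hf : Continuous f) (hc : HasCompactSupport f) (R : H →L[ℂ] H) :
    fn f R = fc (pp 1 f) R + (-1 : ℂ) • fc (pp (-1) f) R + I • fc (pp (-I) f) R +
      (-I) • fc (pp I f) R := by
  have hs : IsSelfAdjoint (star R * R) := IsSelfAdjoint.star_mul_self R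
  have hn : IsStarNormal (star R * R) := hs.isStarNormal
  have h1 : ∀ c, fc (pp c f) R = cfc (fun x : ℂ => (Ff (pp c f) x.re : ℂ)) (star R * R) :=
    fun c => cfc_real_eq_complex _ hs
  have h2 : ∀ c, Continuous fun x : ℂ => (Ff (pp c f) x.re : ℂ) := fun c => by
    obtain ⟨a, b, d⟩ := pp_props c hf hc
    exact continuous_ofReal.comp ((Ff_props a b d).1.comp continuous_re)
  have h3 : ∀ c d : ℂ, Continuous fun x : ℂ => d • (Ff (pp c f) x.re : ℂ) := fun c d =>
    (h2 c).const_smul d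
  rw [h1, h1, h1, h1, ← cfc_smul _ _ _ (h2 _).continuousOn, ← cfc_smul _ _ _ (h2 _).continuousOn,
    ← cfc_smul _ _ _ (h2 _).continuousOn,
    ← cfc_add _ _ _ (h2 _).continuousOn (h3 _ _).continuousOn,
    ← cfc_add _ _ _ ((h2 _).fun_add (h3 _ _)).continuousOn (h3 _ _).continuousOn,
    ← cfc_add _ _ _ (((h2 _).fun_add (h3 _ _)).fun_add (h3 _ _)).continuousOn (h3 _ _).continuousOn]
  unfold fn
  congr 1
  funext x
  simp only [Ff, smul_eq_mul]
  split_ifs
  · exact pp_sum f _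
  · simp

theorem hasSum_trA {M S : H →L[ℂ] H} (hM : star M = M) (hS : star S = S)
    (h : trA M (S * S) ≠ ⊤) {J : Type} (b : HilbertBasis J ℂ H) :
    HasSum (fun j => ⟪b j, (M * (S * S) * M) (b j)⟫_ℂ) ((trA M (S * S)).toReal : ℂ) := by
  have hst : star (S * M) = M * S := by rw [star_mul, hM, hS]
  have h2 := AB5a_hs b (S * M)
  rw [hst] at h2
  have h3 : trA M (S * S) = ∑' j, ‖(S * M) (b j)‖ₑ ^ 2 := (trA_eq_tsum b hM hS).trans h2.symm
  rw [h3] at h ⊢
  have h4 := ENNReal.hasSum_toReal h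
  rw [← ENNReal.tsum_toReal_eq fun j => ENNReal.pow_ne_top enorm_ne_top] at h4
  convert Complex.hasSum_ofReal.2 h4 using 2 with j
  have h5 : M * (S * S) * M = star (S * M) * (S * M) := by rw [hst]; simp only [mul_assoc]
  rw [h5, ENNReal.toReal_pow, toReal_enorm]
  have h6 := AB5a_adj (S * M) (b j) ((S * M) (b j))
  rw [inner_self_eq_norm_sq_to_K] at h6
  rw [Complex.ofReal_pow]
  exact h6.symm

theorem hasSum_add_op {J : Type} {b : J → H} {M T T' : H →L[ℂ] H} {a a' : ℂ}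
    (h : HasSum (fun j => ⟪b j, (M * T * M) (b j)⟫_ℂ) a)
    (h' : HasSum (fun j => ⟪b j, (M * T' * M) (b j)⟫_ℂ) a') :
    HasSum (fun j => ⟪b j, (M * (T + T') * M) (b j)⟫_ℂ) (a + a') := by
  have e : (fun j => ⟪b j, (M * (T + T') * M) (b j)⟫_ℂ) =
      fun j => ⟪b j, (M * T * M) (b j)⟫_ℂ + ⟪b j, (M * T' * M) (b j)⟫_ℂ := by
    funext j
    rw [mul_add, add_mul]
    exact inner_add_right _ _ _
  rw [e]
  exact h.add h'

theorem hasSum_smul_op {J : Type} {b : J → H} {M T : H →L[ℂ] H} {a : ℂ}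
    (h : HasSum (fun j => ⟪b j, (M * T * M) (b j)⟫_ℂ) a) (c : ℂ) :
    HasSum (fun j => ⟪b j, (M * (c • T) * M) (b j)⟫_ℂ) (c * a) := by
  have e : (fun j => ⟪b j, (M * (c • T) * M) (b j)⟫_ℂ) =
      fun j => c * ⟪b j, (M * T * M) (b j)⟫_ℂ := by
    funext j
    rw [mul_smul_comm, smul_mul_assoc]
    exact inner_smul_right _ _ _
  rw [e]
  exact h.mul_left c

end hilbert

variable {W : Type} [NormedAddCommGroup W] [InnerProductSpace ℂ W]
  [FiniteDimensional ℂ W] [CompleteSpace W]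
variable {S : Type} [MeasurableSpace S] {ν : Measure S} {w : S → ℝ}

theorem hasTr_of_tr (hw : AEStronglyMeasurable w ν) {C : ℝ} (hC : ∀ᵐ s ∂ν, |w s| ≤ C)
    {T Q : Lp W 2 ν →L[ℂ] Lp W 2 ν} (hQ : star Q = Q) (hT : Q * Q = T) (h : tr w T ≠ ⊤) :
    HasTr (W := W) (ν := ν) w T ((tr w T).toReal : ℂ) := by
  obtain ⟨M, hM, hMv, hM2⟩ := exists_mul_real (W := W) hw hC
  subst hT
  rw [hM2] at h ⊢
  refine ⟨M, fun v f hv => ?_, fun J b => hasSum_trA (H := Lp W 2 ν) hM hQ h b⟩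
  filter_upwards [hMv v, hv] with s h1 h2
  exact h1.trans (congrArg _ h2)

theorem HasTr.add {T T' : Op (L2 W ν)} {a a' : ℂ} (h : HasTr w T a) (h' : HasTr w T' a') :
    HasTr w (T + T') (a + a') := by
  obtain ⟨M, h1, h2⟩ := h
  obtain ⟨M', h1', h2'⟩ := h'
  obtain rfl : M = M' := ContinuousLinearMap.ext fun v => Lp.ext
    ((h1 v _ EventuallyEq.rfl).trans (h1' v _ EventuallyEq.rfl).symm)
  exact ⟨M, h1, fun J b => hasSum_add_op (h2 J b) (h2' J b)⟩

theorem HasTr.smul {T : Op (L2 W ν)} {a : ℂ} (h : HasTr w T a) (c : ℂ) :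
    HasTr w (c • T) (c * a) := by
  obtain ⟨M, h1, h2⟩ := h
  exact ⟨M, h1, fun J b => hasSum_smul_op (h2 J b) c⟩

end Pool.Agent.P.MP_e0a138_an.AD
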