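import Pool.Agent.P.MP_e0a138_an.GE9b

set_option autoImplicit false
set_option linter.unusedSectionVars false
set_option linter.unusedVariables false

open MeasureTheory Filter Topology Metric Complex
open scoped ENNReal NNReal ContDiff InnerProductSpace ComplexConjugate

noncomputable section
namespace Pool.Agent.P.MP_e0a138_an.AD

variable {N p q k : ℕ} {W : Type} [NormedAddCommGroup W] [InnerProductSpace ℂ W]
  [FiniteDimensional ℂ W] [CompleteSpace W]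
variable {A : Atl N p q k} {ε : Eu N →L[ℝ] W →L[ℂ] W}

namespace Atl
variable {Q : Eu N → Submodule ℝ (Eu N)} {d δ : (Eu N → W) → Eu N → W} {μ : Measure (Eu N)}

theorem exists_adj (hε : IsCAR ε) (hμ : A.IsVol μ) (hQ : A.SubB Q) (hd : A.IsOp ε ε Q d)
    (hf : ∀ u, A.Form ε u → A.Form ε (d u)) : ∃ δ, A.IsAdj ε μ d δ := by
  choose Z hZ hZ' using adj_chart hε hQ hd hf
  obtain ⟨r, -, hr, hχ⟩ := A.exists_r
  let bb : (Eu N → W) → Fin k → Eu p × Eu q → W := fun v i z =>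
    ((A.χ i (A.ψ i z) ^ 2 : ℝ) : ℂ) • v (A.ψ i z)
  let aa : (Eu N → W) → Fin k → Eu p × Eu q → W := fun v i =>
    op cb (A.sy (ioL ε) Q i) (Z i) (bb v i)
  refine ⟨fun v m => ∑ i, A.ext i (aa v i) m, fun v hv => ?_⟩
  have hb : ∀ i, ContDiffOn ℝ ∞ (bb v i) (ball 0 1) := fun i =>
    (contDiffOn_ofReal (((A.χ_smooth i).comp (A.ψ_smooth i)).pow 2).contDiffOn).smul
      (hv.chart i).1
  have hbP : ∀ i, ∀ z ∈ ball (0 : Eu p × Eu q) 1, A.Pi ε (A.ψ i z) (bb v i z) = bb v i z :=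
    fun i z hz => by simp only [bb, map_smul, (hv.chart i).2 z hz]
  have hb0 : ∀ i, ∀ z ∈ ball (0 : Eu p × Eu q) 1, z ∉ closedBall (0 : Eu p × Eu q) r →
      bb v i z = 0 := fun i z hz hz' => by
    simp only [bb, (chart_zero hr (hχ i)).1 z hz hz']
    simp
  have ha0 : ∀ i, ∀ z ∈ ball (0 : Eu p × Eu q) 1, z ∉ closedBall (0 : Eu p × Eu q) r →
      aa v i z = 0 := fun i z hz hz' => op_eq_zero isOpen_ball isClosed_closedBall (hb0 i) hz hz'
  have hform : ∀ i, A.Form ε (A.ext i (aa v i)) := fun i =>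
    (ext_form i (contDiffOn_op isOpen_ball (smooth_sy _ hQ i) (hZ i) (hb i)) hr (ha0 i)
      (hZ' i _ (hb i) (hbP i)).1).1
  refine ⟨Form.sum _ fun i _ => hform i, fun u hu => ?_⟩
  have hχ' : ∀ i, ContinuousOn (fun m => ((A.χ i m ^ 2 : ℝ) : ℂ) • v m) A.M := fun i =>
    (continuous_ofReal.comp ((A.χ_smooth i).continuous.pow 2)).continuousOn.smul hv.1.continuousOn
  have h1 : ∀ i, ∫ m, ⟪A.ext i (aa v i) m, u m⟫_ℂ ∂μ =
      ∫ m, ⟪((A.χ i m ^ 2 : ℝ) : ℂ) • v m, d u m⟫_ℂ ∂μ := fun i => by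
    rw [hμ.integral_loc i (f := fun m => ⟪A.ext i (aa v i) m, u m⟫_ℂ) fun m _ hm => by
        rw [ext, Set.indicator_of_notMem hm, inner_zero_left],
      hμ.integral_loc i (f := fun m => ⟪((A.χ i m ^ 2 : ℝ) : ℂ) • v m, d u m⟫_ℂ) fun m hM hm => by
        simp [(chart_zero hr (hχ i)).2 m hM hm]]
    refine Eq.trans (integral_congr_ae ?_)
      ((hZ' i _ (hb i) (hbP i)).2 u hu (Or.inr ⟨r, hr, hb0 i⟩))
    have hae : ∀ᵐ z ∂wm (ball (0 : Eu p × Eu q) 1) (A.rho i), z ∈ ball (0 : Eu p × Eu q) 1 :=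
      (hμ.emb i).conc
    filter_upwards [hae] with z hz
    rw [ext_chart i _ hz]
  simp only [sum_inner]
  rw [integral_finsetSum _ fun i _ =>
      hμ.integrable ((hform i).1.continuousOn.inner (𝕜 := ℂ) hu.1.continuousOn),
    Finset.sum_congr rfl fun i _ => h1 i, ← integral_finsetSum _ fun i _ =>
      hμ.integrable ((hχ' i).inner (𝕜 := ℂ) (hf u hu).1.continuousOn)]
  refine integral_congr_ae ?_
  filter_upwards [hμ.ae_mem] with m hm
  rw [← sum_inner, ← Finset.sum_smul, ← ofReal_sum, A.χ_sum m hm, ofReal_one, one_smul]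

theorem IsAdj.dirac (hε : IsCAR ε) (hμ : A.IsVol μ) (hQ : A.SubB Q) (hd : A.IsOp ε ε Q d)
    (hf : ∀ u, A.Form ε u → A.Form ε (d u)) (h : A.IsAdj ε μ d δ) :
    A.IsOp ε (clL ε) Q (fun u => d u + δ u) ∧ (∀ u, A.Form ε u → A.Form ε (d u + δ u)) ∧
      ∀ u v, A.Form ε u → A.Form ε v →
        ∫ m, ⟪(d u + δ u) m, v m⟫_ℂ ∂μ = ∫ m, ⟪u m, (d v + δ v) m⟫_ℂ ∂μ := by
  refine ⟨fun i => ?_, fun u hu => (hf u hu).add (h u hu).1, fun u v hu hv => ?_⟩
  · obtain ⟨Z, hZ, h1⟩ := hd i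
    obtain ⟨Z', hZ', h2⟩ := h.isOp hε hμ hQ hd hf i
    refine ⟨fun z => Z z + Z' z, hZ.add hZ', fun u hu z hz => ?_⟩
    change d u _ + δ u _ = _
    rw [h1 u hu z hz, h2 u hu z hz]
    simp only [op, sy, clL, add_apply, Finset.sum_add_distrib]
    abel
  · have c1 := hu.1.continuousOn
    have c2 := hv.1.continuousOn
    have e : ∫ m, ⟪d u m, v m⟫_ℂ ∂μ = ∫ m, ⟪u m, δ v m⟫_ℂ ∂μ := by
      have h3 := congrArg (starRingEnd ℂ) ((h v hv).2 u hu)
      rw [← integral_conj, ← integral_conj] at h3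
      simp only [inner_conj_symm] at h3
      exact h3.symm
    simp only [Pi.add_apply, inner_add_left, inner_add_right]
    rw [integral_add (hμ.integrable ((hf u hu).1.continuousOn.inner (𝕜 := ℂ) c2))
        (hμ.integrable ((h u hu).1.1.continuousOn.inner (𝕜 := ℂ) c2)),
      integral_add (hμ.integrable (c1.inner (𝕜 := ℂ) (hf v hv).1.continuousOn))
        (hμ.integrable (c1.inner (𝕜 := ℂ) (h v hv).1.1.continuousOn)), e, (h u hu).2 v hv, add_comm]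

theorem dir_of_adj {d : (Eu N → W) → Eu N → W} (hd : A.IsD ε d) (hε : IsCAR ε) (hμ : A.IsVol μ)
    {δF δH : (Eu N → W) → Eu N → W}
    (hF : A.IsAdj ε μ (A.dc ε d 0) δF) (hH : A.IsAdj ε μ (A.dc ε d 1) δH) :
    A.Dir ε μ (fun u => A.dc ε d 0 u + δF u) fun u => A.dc ε d 1 u + δH u := by
  obtain ⟨h0, h1⟩ := dc_op hd hε
  obtain ⟨a1, a2, a3⟩ := hF.dirac hε hμ A.subB_F h0 fun u hu => dc_form hd hε A.subB_F h0 hu
  obtain ⟨b1, b2, b3⟩ := hH.dirac hε hμ A.subB_H h1 fun u hu => dc_form hd hε A.subB_H h1 hu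
  exact ⟨a1, b1, a2, b2, a3, b3⟩

theorem exists_adjs {d : (Eu N → W) → Eu N → W} (hd : A.IsD ε d) (hε : IsCAR ε)
    (hμ : A.IsVol μ) :
    (∃ δ, A.IsAdj ε μ (A.dc ε d 0) δ) ∧ ∃ δ, A.IsAdj ε μ (A.dc ε d 1) δ := by
  obtain ⟨h0, h1⟩ := dc_op hd hε
  exact ⟨exists_adj hε hμ A.subB_F h0 fun u hu => dc_form hd hε A.subB_F h0 hu,
    exists_adj hε hμ A.subB_H h1 fun u hu => dc_form hd hε A.subB_H h1 hu⟩

end Atl

end Pool.Agent.P.MP_e0a138_an.AD
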