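import Pool.Agent.P.MP_e0a138_an.GE11

set_option autoImplicit false
set_option linter.unusedSectionVars false
set_option linter.unusedVariables false

open MeasureTheory Filter Topology Metric Complex
open scoped ENNReal NNReal ContDiff InnerProductSpace ComplexConjugate

noncomputable section
namespace Pool.Agent.P.MP_e0a138_an.AD

variable {N p q k : ℕ} {W : Type} [NormedAddCommGroup W] [InnerProductSpace ℂ W]
  [FiniteDimensional ℂ W] [CompleteSpace W]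
variable {A : Atl N p q k}

namespace Atl

/-- words in the transverse transition maps -/
def GE12word (A : Atl N p q k) (d : ℕ → Eu p) : List (Fin k × Fin k × ℕ) → Eu q → Eu q
  | [] => id
  | a :: l => fun Y => A.tau a.1 a.2.1 (d a.2.2, GE12word A d l Y)

theorem GE12slice (A : Atl N p q k) (i j : Fin k) (x : Eu p) :
    Differentiable ℝ fun Y : Eu q => A.tau i j (x, Y) :=
  ((tau_smooth (A := A) i j).differentiable (by simp)).comp
    ((differentiable_const x).prodMk differentiable_id)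

theorem GE12diff (A : Atl N p q k) (d : ℕ → Eu p) (l : List (Fin k × Fin k × ℕ)) :
    Differentiable ℝ (GE12word A d l) := by
  induction l with
  | nil => exact differentiable_id
  | cons a l ih => exact (GE12slice A a.1 a.2.1 (d a.2.2)).comp ih

theorem GE12adj_inj (e : Eu q ≃L[ℝ] Eu q) {v w : Eu q}
    (h : ContinuousLinearMap.adjoint (e : Eu q →L[ℝ] Eu q) v =
      ContinuousLinearMap.adjoint (e : Eu q →L[ℝ] Eu q) w) : v = w := by
  refine ext_inner_right ℝ fun u => ?_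
  have h1 := ContinuousLinearMap.adjoint_inner_left (e : Eu q →L[ℝ] Eu q) (e.symm u) v
  have h2 := ContinuousLinearMap.adjoint_inner_left (e : Eu q →L[ℝ] Eu q) (e.symm u) w
  simp only [ContinuousLinearEquiv.coe_coe, ContinuousLinearEquiv.apply_symm_apply] at h1 h2
  rw [← h1, ← h2]
  exact congrArg (fun t => ⟪t, e.symm u⟫_ℝ) h

theorem exists_words (A : Atl N p q k) : ∃ Fm : Set (Eu q → Eu q), Fm.Countable ∧ id ∈ Fm ∧
    (∀ σ ∈ Fm, Differentiable ℝ σ) ∧ ∀ σ ∈ Fm, ∀ (i j : Fin k) (x : Eu p) (y₀ : Eu q),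
      (x, σ y₀) ∈ ball (0 : Eu p × Eu q) 1 → A.ψ i (x, σ y₀) ∈ A.U j → ∃ σ' ∈ Fm,
        σ' y₀ = A.tau i j (x, σ y₀) ∧
        fderiv ℝ σ' y₀ = A.dta i j (x, σ y₀) ∘L fderiv ℝ σ y₀ := by
  have : ProperSpace (Eu p) := FiniteDimensional.proper ℝ (Eu p)
  refine ⟨Set.range (GE12word A (TopologicalSpace.denseSeq (Eu p))), Set.countable_range _,
    ⟨[], rfl⟩, ?_, ?_⟩
  · rintro σ ⟨l, rfl⟩
    exact GE12diff A _ l
  · rintro σ ⟨l, rfl⟩ i j x y₀ hz hj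
    obtain ⟨n, hn⟩ := (TopologicalSpace.denseRange_denseSeq (Eu p)).mem_nhds
      (tau_loc (A := A) hz hj)
    obtain ⟨-, -, -, h1, h2⟩ := hn
    refine ⟨_, ⟨(i, j, n) :: l, rfl⟩, h1, ?_⟩
    rw [← h2]
    exact fderiv_comp y₀ (GE12slice A i j _ _) (GE12diff A _ l y₀)

theorem ae_hd (A : Atl N p q k) (i : Fin k) :
    ∀ᵐ a : Eu q × Eu q, a.1 ∈ ball (0 : Eu q) 1 → ∃ B, A.Hd (i, a) B := by
  obtain ⟨Fm, hc, hid, hd, hw⟩ := A.exists_words
  have h0 : ∀ᵐ y : Eu q, ∀ σ ∈ Fm, ∀ σ' ∈ Fm, σ y = σ' y → fderiv ℝ σ y = fderiv ℝ σ' y :=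
    (ae_ball_iff hc).2 fun σ hσ => (ae_ball_iff hc).2 fun σ' hσ' =>
      ae_fderiv_eq (hd σ hσ) (hd σ' hσ')
  have h1 : ∀ᵐ a : Eu q × Eu q, ∀ σ ∈ Fm, ∀ σ' ∈ Fm, σ a.1 = σ' a.1 →
      fderiv ℝ σ a.1 = fderiv ℝ σ' a.1 :=
    (Measure.quasiMeasurePreserving_fst (μ := (volume : Measure (Eu q)))
      (ν := (volume : Measure (Eu q)))).ae h0
  filter_upwards [h1] with a ha hy
  have key : ∀ t, A.Reach (i, a) t → ∃ e : Eu q ≃L[ℝ] Eu q, ∃ σ ∈ Fm, σ a.1 = t.2.1 ∧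
      (e : Eu q →L[ℝ] Eu q) = fderiv ℝ σ a.1 ∧
      ContinuousLinearMap.adjoint (e : Eu q →L[ℝ] Eu q) t.2.2 = a.2 := by
    intro t ht
    induction ht with
    | refl =>
      refine ⟨ContinuousLinearEquiv.refl ℝ _, id, hid, rfl, ?_, ?_⟩
      · rw [fderiv_id]; rfl
      · rw [ContinuousLinearEquiv.coe_refl, ContinuousLinearMap.adjoint_id]; rfl
    | @tail t t' _ hst ih =>
      obtain ⟨e, σ, hσ, e1, e2, e3⟩ := ih
      obtain ⟨z, ⟨x, hx, rfl⟩, hz'⟩ := hst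
      have hx' : (x, t.2.1) ∈ ball (0 : Eu p × Eu q) 1 := hx
      obtain ⟨g1, g2, g3⟩ := (gam_mem_iff (mem_ball_prod.1 hx').2 (mem_ball_prod.1 hx').1).1 hz'
      obtain ⟨σ', hσ', s1, s2⟩ := hw σ hσ t.1 t'.1 x a.1 (e1 ▸ hx') (e1 ▸ g1)
      obtain ⟨f, hf⟩ := dta_equiv (A := A) hx' g1
      rw [e1] at s1 s2
      have hcomp : ((e.trans f : Eu q ≃L[ℝ] Eu q) : Eu q →L[ℝ] Eu q) =
          A.dta t.1 t'.1 (x, t.2.1) ∘L (e : Eu q →L[ℝ] Eu q) := by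
        rw [← hf]; rfl
      refine ⟨e.trans f, σ', hσ', s1.trans g2, ?_, ?_⟩
      · rw [hcomp, s2, e2]
      · rw [hcomp, ContinuousLinearMap.adjoint_comp, ContinuousLinearMap.comp_apply, ← g3, e3]
  choose! B hB using key
  refine ⟨B, hy, ?_, ?_⟩
  · obtain ⟨σ, hσ, e1, e2, -⟩ := hB (i, a) Relation.ReflTransGen.refl
    apply ContinuousLinearEquiv.coe_injective
    show (B (i, a) : Eu q →L[ℝ] Eu q) = _
    rw [e2, ha σ hσ id hid e1, fderiv_id]; rfl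
  · intro t t' ht ht' x hx g1 g2
    obtain ⟨σ, hσ, e1, e2, e3⟩ := hB t ht
    obtain ⟨σ', hσ', f1, f2, f3⟩ := hB t' ht'
    have hx' : (x, t.2.1) ∈ ball (0 : Eu p × Eu q) 1 := mem_ball_prod.2 ⟨hx, ht.mem hy⟩
    obtain ⟨σ'', hσ'', s1, s2⟩ := hw σ hσ t.1 t'.1 x a.1 (e1 ▸ hx') (e1 ▸ g1)
    rw [e1] at s1 s2
    have hB' : (B t' : Eu q →L[ℝ] Eu q) =
        A.dta t.1 t'.1 (x, t.2.1) ∘L (B t : Eu q →L[ℝ] Eu q) := by
      rw [f2, ← ha σ'' hσ'' σ' hσ' (by rw [s1, g2, f1]), s2, e2]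
    refine ⟨GE12adj_inj (B t) ?_, hB'⟩
    rw [e3, ← f3, hB', ContinuousLinearMap.adjoint_comp, ContinuousLinearMap.comp_apply]

end Atl

end Pool.Agent.P.MP_e0a138_an.AD
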