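import Pool.Agent.P.MP_e0a138_an.PA2

set_option autoImplicit false
set_option linter.unusedSectionVars false
set_option linter.unusedVariables false

open MeasureTheory Filter Topology Metric Complex
open scoped ENNReal NNReal ContDiff InnerProductSpace ComplexConjugate

noncomputable section
namespace Pool.Agent.P.MP_e0a138_an.AD

variable {N p q k : ℕ} {W : Type} [NormedAddCommGroup W] [InnerProductSpace ℂ W]
  [FiniteDimensional ℂ W] [CompleteSpace W]
variable {E : Type} [NormedAddCommGroup E] [NormedSpace ℝ E] [FiniteDimensional ℝ E]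
  [MeasureSpace E] [BorelSpace E] [(volume : Measure E).IsAddHaarMeasure] {κ : Type} [Fintype κ]

variable {S J : Type} [MeasurableSpace S] {ν : Measure S} {b : κ → E}
  {G : Set (Lp W 2 ν × Lp W 2 ν)} {Pg : S → W →L[ℂ] W}

theorem Pat.cut_tendsto (Z : Pat ν J b G Pg) (w : Lp W 2 ν) : ∃ (v : ℕ → Lp W 2 ν)
    (vP : ℕ → J → Lp W 2 ν), (∀ n, v n =ᵐ[ν] fun s => (Z.χ n s : ℂ) • w s) ∧
      (∀ n P, vP n P =ᵐ[ν] fun s => ((Z.χ n s * Z.θ P s : ℝ) : ℂ) • w s) ∧
      (∀ n, ∑ P ∈ Z.fs n, vP n P = v n) ∧ (∀ n, ‖v n‖ ≤ ‖w‖) ∧ Tendsto v atTop (𝓝 w) := by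
  have h1 : ∀ n, ∃ v : Lp W 2 ν, v =ᵐ[ν] fun s => (Z.χ n s : ℂ) • w s := by
    intro n
    obtain ⟨M, -, hM, -⟩ := exists_mul_real (W := W) (Z.aesm_χ n) (C := 1)
      ((Z.χ_mem n).mono fun s hs => by rw [abs_of_nonneg hs.1]; exact hs.2)
    exact ⟨M w, hM w⟩
  have h2 : ∀ n P, ∃ v : Lp W 2 ν,
      v =ᵐ[ν] fun s => ((Z.χ n s * Z.θ P s : ℝ) : ℂ) • w s := by
    intro n P
    obtain ⟨C, hC⟩ := Z.θ_bdd P
    obtain ⟨M, -, hM, -⟩ := exists_mul_real (W := W) (w := fun s => Z.χ n s * Z.θ P s)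
      ((Z.aesm_χ n).mul (Z.aesm_θ P)) (C := C)
      ((Z.χ_mem n).mono fun s hs => by
        rw [abs_mul, abs_of_nonneg hs.1]
        exact (mul_le_of_le_one_left (abs_nonneg _) hs.2).trans (hC s))
    exact ⟨M w, hM w⟩
  choose v hv using h1
  choose vP hvP using h2
  refine ⟨v, vP, hv, hvP, fun n => ?_, fun n => ?_, ?_⟩
  · refine Lp.ext ?_
    have h3 : ∀ᵐ s ∂ν, ∀ P ∈ Z.fs n, vP n P s = ((Z.χ n s * Z.θ P s : ℝ) : ℂ) • w s :=
      (Finset.eventually_all _).2 fun P _ => hvP n P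
    filter_upwards [Lp.coeFn_finsetSum (Z.fs n) (vP n), h3, hv n, Z.χ_sum n] with s a1 a2 a3 a4
    rw [a1, a3, Finset.sum_apply, Finset.sum_congr rfl a2, ← Finset.sum_smul, ← Complex.ofReal_sum,
      a4]
  · refine Lp.norm_le_norm_of_ae_le ?_
    filter_upwards [hv n, Z.χ_mem n] with s a1 a2
    rw [a1, norm_smul, Complex.norm_real, Real.norm_eq_abs, abs_of_nonneg a2.1]
    exact mul_le_of_le_one_left (norm_nonneg _) a2.2
  · have e : ∀ n, (v n - w : Lp W 2 ν) =ᵐ[ν] fun s => ((Z.χ n s - 1 : ℝ) : ℂ) • w s := by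
      intro n
      filter_upwards [Lp.coeFn_sub (v n) w, hv n] with s a1 a2
      rw [a1, Pi.sub_apply, a2, Complex.ofReal_sub, sub_smul, Complex.ofReal_one, one_smul]
    have t : Tendsto (fun n => ∫⁻ s, ‖((Z.χ n s - 1 : ℝ) : ℂ) • w s‖ₑ ^ 2 ∂ν) atTop
        (𝓝 (∫⁻ s, (0 : ℝ≥0∞) ∂ν)) := by
      refine tendsto_lintegral_of_dominated_convergence' (fun s => ‖w s‖ₑ ^ 2) (fun n => ?_)
        (fun n => ?_) ?_ ?_
      · exact ((memLp_of_ae (e n)).1.enorm).pow_const 2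
      · filter_upwards [Z.χ_mem n] with s hs
        refine pow_le_pow_left' ?_ 2
        rw [← ofReal_norm, ← ofReal_norm]
        refine ENNReal.ofReal_le_ofReal ?_
        rw [norm_smul, Complex.norm_real, Real.norm_eq_abs]
        refine mul_le_of_le_one_left (norm_nonneg _) ?_
        rw [abs_le]
        constructor <;> linarith [hs.1, hs.2]
      · exact (memLp_two_iff.1 (Lp.memLp w)).2
      · filter_upwards [Z.χ_lim] with s hs
        have c : Continuous fun t : ℝ => ‖((t - 1 : ℝ) : ℂ) • w s‖ₑ ^ 2 :=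
          (ENNReal.continuous_pow 2).comp (by fun_prop)
        have := (c.tendsto 1).comp hs
        simpa [Function.comp_def] using this
    rw [lintegral_zero] at t
    have t2 : Tendsto (fun n => ‖v n - w‖ₑ ^ 2) atTop (𝓝 0) := by
      refine t.congr fun n => ?_
      rw [enorm_sq_eq_of_ae (e n)]
    have t3 := (ENNReal.tendsto_toReal ENNReal.zero_ne_top).comp t2
    have t4 := (Real.continuous_sqrt.tendsto _).comp t3
    rw [tendsto_iff_norm_sub_tendsto_zero]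
    simpa [Function.comp_def] using t4

theorem Pat.deficiency (Z : Pat ν J b G Pg) {sg : ℂ} (hs : sg ∈ ({I, -I} : Set ℂ))
    {w : Lp W 2 ν} (hw : ∀ g ∈ G, ⟪g.2 + sg • g.1, w⟫_ℂ = 0) (hP : ∀ᵐ s ∂ν, Pg s (w s) = w s) :
    w = 0 := by
  obtain ⟨v, vP, hv, hvP, hsum, hle, hlim⟩ := Z.cut_tendsto w
  have key : ∀ n, ‖v n‖ ^ 2 ≤ |Z.δ n| * ‖w‖ ^ 2 := by
    intro n
    choose g C r hg h1 h2 h3 h4 using fun P => Z.piece hw hP n P (hv n) (hvP n P)
    set x : ℕ → Lp W 2 ν × Lp W 2 ν := fun j => ∑ P ∈ Z.fs n, g P j with hx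
    have hxs : ∀ j, x j ∈ Submodule.span ℂ G := fun j =>
      Submodule.sum_mem _ fun P _ => Submodule.subset_span (hg P j)
    have x1 : Tendsto (fun j => (x j).1) atTop (𝓝 (v n)) := by
      rw [← hsum n]
      simp only [hx, Prod.fst_sum]
      exact tendsto_finsetSum _ fun P _ => h1 P
    have x2 : ∀ j, ‖(x j).2‖ ≤ ∑ P ∈ Z.fs n, C P := by
      intro j
      simp only [hx, Prod.snd_sum]
      exact norm_sum_le_of_le _ fun P _ => h2 P j
    have x3 : Tendsto (fun j => ⟪(x j).2 + sg • (x j).1, v n⟫_ℂ) atTop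
        (𝓝 (∑ P ∈ Z.fs n, r P)) := by
      refine (tendsto_finsetSum (Z.fs n) fun P _ => h3 P).congr fun j => ?_
      simp only [hx, Prod.fst_sum, Prod.snd_sum, Finset.smul_sum, ← Finset.sum_add_distrib,
        sum_inner]
    have x4 : ‖∑ P ∈ Z.fs n, r P‖ ≤ Z.δ n * (⟪v n, w⟫_ℂ).re := by
      rw [← hsum n, sum_inner, Complex.re_sum, Finset.mul_sum]
      exact norm_sum_le_of_le _ fun P _ => h4 P
    have real : ∀ j, (⟪(x j).2, (x j).1⟫_ℂ).im = 0 := by
      intro j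
      have a := Z.sym.span (x j) (hxs j) (x j) (hxs j)
      have a2 := congrArg Complex.im a
      rw [← inner_conj_symm (x j).1 (x j).2, Complex.conj_im] at a2
      linarith
    have y1 : Tendsto (fun j => ⟪(x j).2, v n - (x j).1⟫_ℂ) atTop (𝓝 0) := by
      have y0 : Tendsto (fun j => (∑ P ∈ Z.fs n, C P) * ‖v n - (x j).1‖) atTop (𝓝 0) := by
        have := ((tendsto_const_nhds (x := v n)).sub x1).norm.const_mul (∑ P ∈ Z.fs n, C P)
        simpa using this
      refine squeeze_zero_norm (fun j => ?_) y0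
      exact (norm_inner_le_norm _ _).trans (mul_le_mul_of_nonneg_right (x2 j) (norm_nonneg _))
    have y2 : Tendsto (fun j => conj sg * ⟪(x j).1, v n⟫_ℂ) atTop
        (𝓝 (conj sg * ⟪v n, v n⟫_ℂ)) := (x1.inner tendsto_const_nhds).const_mul _
    have y3 := (Complex.continuous_im.tendsto _).comp (y1.add y2)
    have y4 := (Complex.continuous_im.tendsto _).comp x3
    have y5 : (∑ P ∈ Z.fs n, r P).im = (0 + conj sg * ⟪v n, v n⟫_ℂ).im := by
      refine tendsto_nhds_unique y4 (y3.congr fun j => ?_)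
      simp only [Function.comp_apply, inner_add_left, inner_smul_left, inner_sub_right,
        Complex.add_im, Complex.sub_im, real j, sub_zero]
    have y6 : ‖v n‖ ^ 2 ≤ |(∑ P ∈ Z.fs n, r P).im| := by
      rw [y5, zero_add, inner_self_eq_norm_sq_to_K]
      have e : ((‖v n‖ : ℂ)) ^ 2 = ((‖v n‖ ^ 2 : ℝ) : ℂ) := by push_cast; rfl
      rcases hs with rfl | rfl
      · change _ ≤ |(conj I * (‖v n‖ : ℂ) ^ 2).im|
        rw [e]
        simp only [Complex.conj_I, Complex.mul_im, Complex.neg_re, Complex.I_re, Complex.neg_im,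
          Complex.I_im, Complex.ofReal_re, Complex.ofReal_im]
        rw [le_abs]; right; linarith
      · change _ ≤ |(conj (-I) * (‖v n‖ : ℂ) ^ 2).im|
        rw [e]
        simp only [map_neg, Complex.conj_I, neg_neg, Complex.mul_im, Complex.I_re,
          Complex.I_im, Complex.ofReal_re, Complex.ofReal_im]
        rw [le_abs]; left; linarith
    have y7 : |(⟪v n, w⟫_ℂ).re| ≤ ‖w‖ ^ 2 := by
      refine (Complex.abs_re_le_norm _).trans ((norm_inner_le_norm _ _).trans ?_)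
      rw [sq]
      exact mul_le_mul_of_nonneg_right (hle n) (norm_nonneg _)
    calc ‖v n‖ ^ 2 ≤ _ := y6
      _ ≤ _ := Complex.abs_im_le_norm _
      _ ≤ _ := x4
      _ ≤ |Z.δ n * (⟪v n, w⟫_ℂ).re| := le_abs_self _
      _ ≤ _ := by
        rw [abs_mul]
        exact mul_le_mul_of_nonneg_left y7 (abs_nonneg _)
  have l1 : Tendsto (fun n => ‖v n‖ ^ 2) atTop (𝓝 (‖w‖ ^ 2)) := hlim.norm.pow 2
  have l2 : Tendsto (fun n => |Z.δ n| * ‖w‖ ^ 2) atTop (𝓝 (|0| * ‖w‖ ^ 2)) :=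
    Z.δ_lim.abs.mul_const _
  have l3 := le_of_tendsto_of_tendsto' l1 l2 key
  rw [abs_zero, zero_mul] at l3
  have : ‖w‖ ^ 2 = 0 := le_antisymm l3 (sq_nonneg _)
  exact norm_eq_zero.1 (pow_eq_zero_iff two_ne_zero |>.1 this)

theorem Pat.dense (Z : Pat ν J b G Pg) {w : Lp W 2 ν} (hw : Perp G w)
    (hP : ∀ᵐ s ∂ν, Pg s (w s) = w s) : w = 0 := by
  obtain ⟨v, vP, hv, hvP, hsum, hle, hlim⟩ := Z.cut_tendsto w
  have k1 : ∀ n P, ⟪vP n P, w⟫_ℂ = 0 := by
    intro n P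
    obtain ⟨a, K', g, -, -, -, -, hg, ht, -⟩ := Z.approx hP n P (hvP n P)
    have t : Tendsto (fun j => ⟪(g j).1, w⟫_ℂ) atTop (𝓝 ⟪vP n P, w⟫_ℂ) :=
      ht.inner tendsto_const_nhds
    refine tendsto_nhds_unique t (tendsto_const_nhds.congr fun j => ?_)
    exact (hw _ (hg j).1).symm
  have k2 : ∀ n, ⟪v n, w⟫_ℂ = 0 := by
    intro n
    rw [← hsum n, sum_inner]
    exact Finset.sum_eq_zero fun P _ => k1 n P
  have t : Tendsto (fun n => ⟪v n, w⟫_ℂ) atTop (𝓝 ⟪w, w⟫_ℂ) := hlim.inner tendsto_const_nhds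
  have : ⟪w, w⟫_ℂ = 0 := tendsto_nhds_unique t (tendsto_const_nhds.congr fun n => (k2 n).symm)
  exact inner_self_eq_zero.1 this

theorem Pat.essSA (Z : Pat ν J b G Pg) : EssSA G := by
  refine ⟨Z.sym, fun sg hs v => ?_⟩
  obtain ⟨M, hM⟩ := exists_mul (W := W) Z.aesm_Pg (C := 1)
    (Z.proj.mono fun s h => norm_proj_le h.1 h.2)
  have hP : ∀ᵐ s ∂ν, Pg s (M v s) = M v s := by
    filter_upwards [hM v, Z.proj] with s a1 a2
    rw [a1, ← mul_apply_eq_comp, a2.1]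
  have k : ∀ u : Lp W 2 ν, (∀ᵐ s ∂ν, Pg s (u s) = u s) → ⟪u, M v⟫_ℂ = ⟪u, v⟫_ℂ := by
    intro u hu
    rw [inner_eq_of_ae (EventuallyEq.refl _ _) (hM v),
      inner_eq_of_ae (a := u) (b := v) (EventuallyEq.refl _ _) (EventuallyEq.refl _ _)]
    refine integral_congr_ae ?_
    filter_upwards [hu, Z.proj] with s a1 a2
    rw [← ContinuousLinearMap.adjoint_inner_left, ← ContinuousLinearMap.star_eq_adjoint, a2.2, a1]
  have k2 : ∀ g ∈ G, ⟪g.2 + sg • g.1, M v⟫_ℂ = ⟪g.2 + sg • g.1, v⟫_ℂ := by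
    intro g hg
    rw [inner_add_left, inner_add_left, inner_smul_left, inner_smul_left, k _ (Z.val g hg).1,
      k _ (Z.val g hg).2]
  constructor
  · intro h g hg
    have z : M v = 0 := Z.deficiency hs (fun g hg => (k2 g hg).trans (h g hg)) hP
    rw [← k _ (Z.val g hg).1, z, inner_zero_right]
  · intro h g hg
    have z : M v = 0 := Z.dense (fun g hg => (k _ (Z.val g hg).1).trans (h g hg)) hP
    rw [← k2 g hg, z, inner_zero_right]

end Pool.Agent.P.MP_e0a138_an.AD
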