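import Pool.Agent.P.MP_e0a138_an.GE7
import Pool.Agent.P.MP_e0a138_an.PA3
import Pool.Agent.P.MP_e0a138_an.AB2

set_option autoImplicit false
set_option linter.unusedSectionVars false
set_option linter.unusedVariables false

open MeasureTheory Filter Topology Metric Complex
open scoped ENNReal NNReal ContDiff InnerProductSpace ComplexConjugate

noncomputable section
namespace Pool.Agent.P.MP_e0a138_an.AD

variable {N p q k : ℕ} {W : Type} [NormedAddCommGroup W] [InnerProductSpace ℂ W]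
  [FiniteDimensional ℂ W] [CompleteSpace W]
variable {A : Atl N p q k} {ε : Eu N →L[ℝ] W →L[ℂ] W}

namespace Atl
variable {DF DH : (Eu N → W) → Eu N → W} {μ : Measure (Eu N)}

theorem Dir.chart (hD : A.Dir ε μ DF DH) (i : Fin k) : ∃ ZF ZH : Eu p × Eu q → W →L[ℂ] W,
    ContDiffOn ℝ ∞ ZF (ball 0 1) ∧ ContDiffOn ℝ ∞ ZH (ball 0 1) ∧ ∀ (h : ℝ) u, A.Form ε u →
      ∀ z ∈ ball (0 : Eu p × Eu q) 1, Dh DF DH h u (A.ψ i z) =
        op cb (fun a z => A.sy (clL ε) A.F i a z + (h : ℂ) • A.sy (clL ε) A.H i a z)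
          (fun z => ZF z + (h : ℂ) • ZH z) (fun z => u (A.ψ i z)) z := by
  obtain ⟨ZF, hZF, hF⟩ := hD.opF i
  obtain ⟨ZH, hZH, hH⟩ := hD.opH i
  refine ⟨ZF, ZH, hZF, hZH, fun h u hu z hz => ?_⟩
  have e : Dh DF DH h u (A.ψ i z) = DF u (A.ψ i z) + (h : ℂ) • DH u (A.ψ i z) := rfl
  rw [e, hF u hu z hz, hH u hu z hz]
  simp only [op, add_apply, smul_apply,
    Finset.sum_add_distrib, smul_add, Finset.smul_sum]
  abel

theorem Dir.grM_val (hD : A.Dir ε μ DF DH) (hμ : A.IsVol μ) (h : ℝ) :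
    ∀ g ∈ A.grM ε μ (Dh DF DH h), (∀ᵐ m ∂μ, A.Pi ε m (g.1 m) = g.1 m) ∧
      ∀ᵐ m ∂μ, A.Pi ε m (g.2 m) = g.2 m := by
  rintro g ⟨u, hu, h1, h2⟩
  constructor
  · filter_upwards [hμ.ae_mem, h1] with m hm e
    rw [e]; exact hu.2 m hm
  · filter_upwards [hμ.ae_mem, h2] with m hm e
    rw [e]; exact (hD.form h hu).2 m hm

theorem GE16_coef (hε : IsCAR ε) (h : ℝ) (i : Fin k) {B : Eu p × Eu q → W →L[ℂ] W}
    (hB : ContDiffOn ℝ ∞ B (ball 0 1)) :
    Coef (ball (0 : Eu p × Eu q) 1)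
      (fun a z => A.sy (clL ε) A.F i a z + (h : ℂ) • A.sy (clL ε) A.H i a z) B
      (fun z => A.Pi ε (A.ψ i z)) (A.rho i) where
  isOpen := isOpen_ball
  hA := fun a => (smooth_sy _ A.subB_F i a).add ((smooth_sy _ A.subB_H i a).const_smul (h : ℂ))
  hB := hB
  hP := contDiffOn_iff.1 (A.smooth_Pi hε) i
  hρ := rho_smooth i
  pos := fun z hz => rho_pos i hz
  idem := fun z hz => Pi_idem _
  sa := fun z hz => Pi_star _
  skew := fun a z hz => by
    simp only [sy, clL_apply, star_add, star_smul, cl_star, Complex.star_def, conj_ofReal,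
      smul_neg, neg_add]
  comm := fun a z hz => by
    rw [add_mul, mul_add, smul_mul_assoc, mul_smul_comm, (sy_comm hε A.subB_F i a hz).2.2,
      (sy_comm hε A.subB_H i a hz).2.2]

theorem GE16_test (hD : A.Dir ε μ DF DH) (hμ : A.IsVol μ) (h : ℝ) (i : Fin k)
    {S : Fin p ⊕ Fin q → Eu p × Eu q → W →L[ℂ] W} {B : Eu p × Eu q → W →L[ℂ] W}
    (hB : ∀ u, A.Form ε u → ∀ z ∈ ball (0 : Eu p × Eu q) 1, Dh DF DH h u (A.ψ i z) =
      op cb S B (fun z => u (A.ψ i z)) z)
    (a : Eu p × Eu q → W) (ha : Tst (ball 0 1) (fun z => A.Pi ε (A.ψ i z)) a) :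
    ∃ g ∈ A.grM ε μ (Dh DF DH h),
      g.1 =ᵐ[μ] (A.ψ i '' ball 0 1).indicator (fun s => a (A.φ i s)) ∧
      g.2 =ᵐ[μ] (A.ψ i '' ball 0 1).indicator fun s => op cb S B a (A.φ i s) := by
  obtain ⟨h1, h2, h3, h4⟩ := ha
  obtain ⟨r, hr0, hr1, hr⟩ := exists_closedBall_of_cpt h2 h3
  have h0 : ∀ z ∈ ball (0 : Eu p × Eu q) 1, z ∉ closedBall (0 : Eu p × Eu q) r → a z = 0 :=
    fun z _ hz => image_eq_zero_of_notMem_tsupport fun hh => hz (hr hh)
  obtain ⟨hu, hl⟩ := ext_form (A := A) (ε := ε) i h1.contDiffOn hr1 h0 fun z _ => h4 z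
  refine ⟨_, hD.mem_grM hμ h hu, ?_, ?_⟩
  · filter_upwards [hμ.ae_mem, toL_ae (hμ.memLp hu.1.continuousOn)] with m hm e
    rw [e, A.image]
    by_cases hU : m ∈ A.U i
    · rw [Set.indicator_of_mem (Set.mem_inter hm hU), ext, Set.indicator_of_mem hU]
    · rw [Set.indicator_of_notMem (fun hh => hU hh.2), ext, Set.indicator_of_notMem hU]
  · filter_upwards [hμ.ae_mem, toL_ae (hμ.memLp (hD.form h hu).1.continuousOn)] with m hm e
    rw [e, A.image]
    by_cases hU : m ∈ A.U i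
    · rw [Set.indicator_of_mem (Set.mem_inter hm hU)]
      obtain ⟨hz, hm'⟩ := φ_mem hm hU
      have := hB _ hu _ hz
      rw [hm'] at this
      rw [this]
      refine op_congr ?_
      filter_upwards [isOpen_ball.mem_nhds hz] with y hy using ext_chart i a hy
    · rw [Set.indicator_of_notMem (fun hh => hU hh.2)]
      obtain ⟨r1, hr1, e1⟩ := hD.opF.loc hu hl
      obtain ⟨r2, hr2, e2⟩ := hD.opH.loc hu hl
      have e3 : Dh DF DH h (A.ext i a) m = DF (A.ext i a) m + (h : ℂ) • DH (A.ext i a) m := rfl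
      rw [e3, (chart_zero hr1 e1).2 m hm hU, (chart_zero hr2 e2).2 m hm hU, smul_zero, add_zero]

theorem GE16_theta {m : Eu N} (hm : m ∈ A.M) (i : Fin k) :
    (A.ψ i '' ball 0 1).indicator (fun s => A.χ i s ^ 2) m = A.χ i m ^ 2 := by
  refine Set.indicator_apply_eq_self.2 fun hh => ?_
  rw [A.image] at hh
  by_contra h0
  exact hh ⟨hm, mem_U_of_χ hm fun h1 => h0 (by rw [h1]; simp)⟩

theorem Dir.essSA_M (hD : A.Dir ε μ DF DH) (hε : IsCAR ε) (hμ : A.IsVol μ) (h : ℝ) :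
    EssSA (A.grM ε μ (Dh DF DH h)) := by
  choose ZF ZH hZF hZH hZ using hD.chart
  obtain ⟨r, hr0, hr1, hr⟩ := A.exists_r
  refine Pat.essSA (J := Fin k) (b := (cb : Fin p ⊕ Fin q → Eu p × Eu q)) (Pg := A.Pi ε)
    { O := fun _ => ball 0 1
      γ := A.ψ
      π := A.φ
      A := fun i a z => A.sy (clL ε) A.F i a z + (h : ℂ) • A.sy (clL ε) A.H i a z
      B := fun i z => ZF i z + (h : ℂ) • ZH i z
      ρ := A.rho
      θ := fun i => (A.ψ i '' ball 0 1).indicator fun s => A.χ i s ^ 2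
      K := fun _ => closedBall 0 r
      χ := fun _ _ => 1
      fs := fun _ => Finset.univ
      δ := fun _ => 0
      cnt := inferInstance
      coef := fun i => GE16_coef hε h i ((hZF i).add ((hZH i).const_smul (h : ℂ)))
      emb := fun i => hμ.emb i
      inv := fun i z hz => A.left_inv i z hz
      cover := hμ.cover
      test := fun i a ha => GE16_test hD hμ h i (hZ i h) a ha
      val := hD.grM_val hμ h
      sym := hD.sym hμ h
      K_cpt := fun _ => isCompact_closedBall _ _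
      K_sub := fun _ => closedBall_subset_ball hr1
      θ_nonneg := fun i s => Set.indicator_nonneg (fun _ _ => sq_nonneg _) s
      θ_supp := fun i s hs => ?_
      θ_smooth := fun i => ?_
      χ_smooth := fun _ _ => contDiffOn_const
      χ_mem := fun _ => Eventually.of_forall fun _ => ⟨zero_le_one, le_rfl⟩
      χ_sum := fun _ => ?_
      χ_lim := Eventually.of_forall fun _ => tendsto_const_nhds
      δ_lim := tendsto_const_nhds
      grad := fun _ _ _ _ => by simp }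
  · refine Set.indicator_apply_eq_zero.2 fun hh => ?_
    rw [A.image] at hh
    rw [hr i s hh.1 hs]; simp
  · refine (((A.χ_smooth i).comp (A.ψ_smooth i)).pow 2).contDiffOn.congr fun z hz => ?_
    exact GE16_theta (ψ_mem i hz).1 i
  · filter_upwards [hμ.ae_mem] with m hm
    simp only [one_mul, GE16_theta hm]
    exact A.χ_sum m hm

theorem Dir.inK_val (hD : A.Dir ε μ DF DH) (hε : IsCAR ε) (hμ : A.IsVol μ) (h : ℝ) {v : Lp W 2 μ}
    (hv : InK (A.grM ε μ (Dh DF DH h)) v) : ∀ᵐ m ∂μ, A.Pi ε m (v m) = v m :=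
  proj_val (hμ.aesm (A.smooth_Pi hε).continuousOn)
    (Eventually.of_forall fun m => ⟨Pi_idem m, Pi_star m⟩)
    (fun g hg => (hD.grM_val hμ h g hg).1) hv

end Atl

end Pool.Agent.P.MP_e0a138_an.AD
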