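import Pool.Agent.P.MP_e0a138_an.GE14

set_option autoImplicit false
set_option linter.unusedSectionVars false
set_option linter.unusedVariables false

open MeasureTheory Filter Topology Metric Complex
open scoped ENNReal NNReal ContDiff InnerProductSpace ComplexConjugate

noncomputable section
namespace Pool.Agent.P.MP_e0a138_an.AD

variable {N p q k : ℕ} {W : Type} [NormedAddCommGroup W] [InnerProductSpace ℂ W]
  [FiniteDimensional ℂ W] [CompleteSpace W]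
variable {A : Atl N p q k}

namespace Atl

theorem GE14b_const {S : ℕ → Finset (Tr q k)}
    (one : ∀ t, ∀ z ∈ A.plq t, ∀ j j', A.χ j z.1 ≠ 0 → A.χ j' z.1 ≠ 0 → (∃ n, A.tri j z ∈ S n) →
      ∃ n, A.tri j' z ∈ S n) {t : Tr q k} {z z' : Eu N × Eu N} (hz : z ∈ A.plq t)
    (hz' : z' ∈ A.plq t) (h : ∀ j, A.χ j z.1 ≠ 0 → ∃ n, A.tri j z ∈ S n) :
    ∀ j, A.χ j z'.1 ≠ 0 → ∃ n, A.tri j z' ∈ S n := by
  have ht := mem_ball_of_plq hz
  have hmem : ∀ x ∈ ball (0 : Eu p) 1, A.gam t x ∈ A.plq t := fun x hx =>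
    plq_eq (A := A) ht ▸ Set.mem_image_of_mem _ hx
  rw [plq_eq ht] at hz hz'
  obtain ⟨x, hx, rfl⟩ := hz
  obtain ⟨x', hx', rfl⟩ := hz'
  let G : Eu p → Prop := fun x => ∀ j, A.χ j (A.gam t x).1 ≠ 0 → ∃ n, A.tri j (A.gam t x) ∈ S n
  refine (convex_ball (0 : Eu p) 1).isPreconnected.induction₂' (fun a b => G a → G b)
    (fun a ha => ?_) (fun _ _ _ _ _ _ h1 h2 h3 => h2 (h1 h3)) hx hx' h
  obtain ⟨j, hj⟩ := exists_χ (plq_fst (hmem a ha)).1
  have hc : Continuous fun y : Eu p => A.χ j (A.gam t y).1 :=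
    (A.χ_smooth j).continuous.comp ((A.ψ_smooth t.1).continuous.comp
      (continuous_id.prodMk continuous_const))
  have h1 : ∀ᶠ y in 𝓝 a, A.χ j (A.gam t y).1 ≠ 0 := hc.continuousAt.eventually_ne hj
  have h2 := tri_ev ht ha (j := j) (mem_U_of_χ (plq_fst (hmem a ha)).1 hj)
  filter_upwards [self_mem_nhdsWithin, nhdsWithin_le_nhds h1, nhdsWithin_le_nhds h2] with y hy e1 e2
  exact ⟨fun hG j' hj' => one t _ (hmem y hy) j j' e1 hj' (e2 ▸ hG j hj),
    fun hG j' hj' => one t _ (hmem a ha) j j' hj hj' (e2 ▸ hG j e1)⟩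

theorem kgraph {r : ℝ} (hr : r < 1)
    (hχ : ∀ i, ∀ m ∈ A.M, m ∉ A.ψ i '' closedBall 0 r → A.χ i m = 0) {t₀ : Tr q k}
    (h0 : t₀.2.1 ∈ ball (0 : Eu q) 1) : ∃ S : ℕ → Finset (Tr q k), Monotone S ∧
      (∀ n, ∀ t ∈ S n, A.Reach t₀ t) ∧
      (∀ n t t', t ∈ S n → (A.kplq r t ∩ A.kplq r t').Nonempty → t' ∈ S (n + 1)) ∧
      ∀ t, A.Reach t₀ t → ∀ z ∈ A.plq t, ∀ j, A.χ j z.1 ≠ 0 → ∃ n, A.tri j z ∈ S n := by
  classical
  have hz0 : A.gam t₀ 0 ∈ A.plq t₀ :=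
    plq_eq (A := A) h0 ▸ Set.mem_image_of_mem _ (mem_ball_self one_pos)
  obtain ⟨j0, hj0⟩ := exists_χ (plq_fst hz0).1
  let S : ℕ → Finset (Tr q k) := fun n => Nat.rec {A.tri j0 (A.gam t₀ 0)}
    (fun _ s => s ∪ s.biUnion fun t => (kplq_finite (A := A) hr t).toFinset) n
  have hS : ∀ n, S (n + 1) = S n ∪ (S n).biUnion fun t => (kplq_finite (A := A) hr t).toFinset :=
    fun _ => rfl
  have h3 : ∀ n t t', t ∈ S n → (A.kplq r t ∩ A.kplq r t').Nonempty → t' ∈ S (n + 1) := by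
    intro n t t' ht h
    rw [hS]
    exact Finset.mem_union_right _ (Finset.mem_biUnion.2 ⟨t, ht, (Set.Finite.mem_toFinset _).2 h⟩)
  have one : ∀ t, ∀ z ∈ A.plq t, ∀ j j', A.χ j z.1 ≠ 0 → A.χ j' z.1 ≠ 0 → (∃ n, A.tri j z ∈ S n) →
      ∃ n, A.tri j' z ∈ S n := fun t z hz j j' hj hj' ⟨n, hn⟩ =>
    ⟨n + 1, h3 n _ _ hn ⟨z, mem_kplq_tri hr hχ hz hj, mem_kplq_tri hr hχ hz hj'⟩⟩
  refine ⟨S, monotone_nat_of_le_succ fun n => ?_, fun n => ?_, h3, fun t ht => ?_⟩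
  · rw [hS]
    exact Finset.subset_union_left
  · induction n with
    | zero =>
      intro t ht
      obtain rfl : t = A.tri j0 (A.gam t₀ 0) := Finset.mem_singleton.1 ht
      exact Relation.ReflTransGen.single ⟨_, hz0, mem_plq_tri hz0 (mem_U_of_χ (plq_fst hz0).1 hj0)⟩
    | succ n ih =>
      intro t ht
      rw [hS] at ht
      rcases Finset.mem_union.1 ht with h | h
      · exact ih t h
      · obtain ⟨t', h1, h2⟩ := Finset.mem_biUnion.1 h
        obtain ⟨z, h4, h5⟩ := (Set.Finite.mem_toFinset _).1 h2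
        exact Relation.ReflTransGen.tail (ih t' h1) ⟨z, kplq_subset hr _ h4, kplq_subset hr _ h5⟩
  · induction ht with
    | refl =>
      exact fun z hz => GE14b_const one hz0 hz fun j hj =>
        one t₀ _ hz0 j0 j hj0 hj ⟨0, Finset.mem_singleton_self _⟩
    | tail _ h ih =>
      obtain ⟨w, h1, h2⟩ := h
      exact fun z hz => GE14b_const one h2 hz (ih w h1)

end Atl

end Pool.Agent.P.MP_e0a138_an.AD
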