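import Pool.Agent.P.MP_e0a138_an.GE15a
import Pool.Agent.P.MP_e0a138_an.GE14b

set_option autoImplicit false
set_option linter.unusedSectionVars false
set_option linter.unusedVariables false

open MeasureTheory Filter Topology Metric Complex
open scoped ENNReal NNReal ContDiff InnerProductSpace ComplexConjugate

noncomputable section
namespace Pool.Agent.P.MP_e0a138_an.AD

variable {N p q k : ℕ} {W : Type} [NormedAddCommGroup W] [InnerProductSpace ℂ W]
  [FiniteDimensional ℂ W] [CompleteSpace W]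
variable {A : Atl N p q k}

namespace Atl

theorem leaf_cutoff {r : ℝ} (hr : r < 1)
    (hχ : ∀ i, ∀ m ∈ A.M, m ∉ A.ψ i '' closedBall 0 r → A.χ i m = 0) {t₀ : Tr q k}
    (h0 : t₀.2.1 ∈ ball (0 : Eu q) 1) :
    ∃ (c : ℕ → Eu N × Eu N → ℝ) (fs : ℕ → Finset {t // A.Reach t₀ t}) (C : ℝ), 0 ≤ C ∧
      (∀ n t, A.Reach t₀ t → ContDiffOn ℝ ∞ (fun x => c n (A.gam t x)) (ball 0 1)) ∧
      (∀ n t x, A.Reach t₀ t → (x, t.2.1) ∈ closedBall (0 : Eu p × Eu q) r →
        ‖fderiv ℝ (fun x => c n (A.gam t x)) x‖ ≤ C * (1 / (n + 1 : ℝ))) ∧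
      ∀ t, A.Reach t₀ t → ∀ z ∈ A.plq t, (∀ n, 0 ≤ c n z ∧ c n z ≤ 1) ∧
        Tendsto (fun n => c n z) atTop (𝓝 1) ∧
        ∀ n, ∑ P ∈ fs n, c n z * (A.plq P.1).indicator (fun z => A.χ P.1.1 z.1 ^ 2) z = c n z := by
  classical
  obtain ⟨S, hSm, hSr, hSn, hSc⟩ := kgraph hr hχ h0
  obtain ⟨α, hα01, hαS, hαlim, hαd⟩ := exists_alpha S hSm
  obtain ⟨C, hC0, hC⟩ := A.cut_grad hr
  refine ⟨fun n z => ∑ j, A.χ j z.1 ^ 2 * α n (A.tri j z),
    fun n => (S (n + 1)).subtype (fun t => A.Reach t₀ t), C, hC0, ?_, ?_, ?_⟩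
  · intro n t ht x hx
    have hev := cut_smooth (A := A) (α n) (ht.mem h0) hx
    have hsm : ContDiff ℝ ∞ (fun x' : Eu p =>
        ∑ j, A.χ j (A.ψ t.1 (x', t.2.1)) ^ 2 * α n (A.tri j (A.gam t x))) := by
      refine ContDiff.sum fun j _ => ?_
      exact (((A.χ_smooth j).comp ((A.ψ_smooth t.1).comp
        (contDiff_id.prodMk contDiff_const))).pow 2).mul contDiff_const
    exact (hsm.contDiffAt.congr_of_eventuallyEq hev).contDiffWithinAt
  · intro n t x ht hx
    have hx1 : x ∈ ball (0 : Eu p) 1 :=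
      closedBall_subset_ball hr (mem_closedBall_prod.1 hx).1
    have hev := cut_smooth (A := A) (α n) (ht.mem h0) hx1
    rw [hev.fderiv_eq]
    have hzk : A.gam t x ∈ A.kplq r t := ⟨x, hx, rfl⟩
    refine hC t.1 x t.2.1 (fun j => α n (A.tri j (A.gam t x))) (α n t) _ hx (by positivity) ?_
    intro j hj
    have hzj : A.gam t x ∈ A.kplq r (A.tri j (A.gam t x)) :=
      mem_kplq_tri hr hχ (kplq_subset hr t hzk) hj
    exact hαd n _ _ (fun m hm => hSn m _ _ hm ⟨_, hzj, hzk⟩)
      (fun m hm => hSn m _ _ hm ⟨_, hzk, hzj⟩)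
  · intro t ht z hz
    have hM : z.1 ∈ A.M := (plq_fst hz).1
    have hsum := A.χ_sum z.1 hM
    refine ⟨fun n => ⟨?_, ?_⟩, ?_, fun n => ?_⟩
    · exact Finset.sum_nonneg fun j _ => mul_nonneg (sq_nonneg _) (hα01 n _).1
    · rw [← hsum]
      exact Finset.sum_le_sum fun j _ => mul_le_of_le_one_right (sq_nonneg _) (hα01 n _).2
    · have h1 : Tendsto (fun n => ∑ j, A.χ j z.1 ^ 2 * α n (A.tri j z)) atTop
          (𝓝 (∑ j, A.χ j z.1 ^ 2)) := by
        refine tendsto_finsetSum _ fun j _ => ?_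
        by_cases hj : A.χ j z.1 = 0
        · simp [hj]
        · obtain ⟨m, hm⟩ := hSc t ht z hz j hj
          simpa using (hαlim m _ hm).const_mul (A.χ j z.1 ^ 2)
      rwa [hsum] at h1
    · by_cases hc : ∑ j, A.χ j z.1 ^ 2 * α n (A.tri j z) = 0
      · simp only [hc, zero_mul, Finset.sum_const_zero]
      · obtain ⟨j0, -, hj0⟩ := Finset.exists_ne_zero_of_sum_ne_zero hc
        have hχ0 : A.χ j0 z.1 ≠ 0 := by
          intro h
          apply hj0
          rw [h]
          ring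
        have hS0 : A.tri j0 z ∈ S n := hαS n _ (right_ne_zero_of_mul hj0)
        have hall : ∀ j, A.χ j z.1 ≠ 0 → A.tri j z ∈ S (n + 1) := fun j hj =>
          hSn n _ _ hS0 ⟨z, mem_kplq_tri hr hχ hz hχ0, mem_kplq_tri hr hχ hz hj⟩
        rw [← Finset.mul_sum]
        have h1 : ∑ P ∈ (S (n + 1)).subtype (fun t => A.Reach t₀ t),
            (A.plq P.1).indicator (fun z => A.χ P.1.1 z.1 ^ 2) z =
            ∑ P ∈ S (n + 1), (A.plq P).indicator (fun z => A.χ P.1 z.1 ^ 2) z :=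
          Finset.sum_subtype_of_mem
            (fun P : Tr q k => (A.plq P).indicator (fun z => A.χ P.1 z.1 ^ 2) z) (hSr (n + 1))
        have h2 : ∑ j, A.χ j z.1 ^ 2 =
            ∑ P ∈ S (n + 1), (A.plq P).indicator (fun z => A.χ P.1 z.1 ^ 2) z := by
          refine Finset.sum_bij_ne_zero (fun j _ _ => A.tri j z) ?_ ?_ ?_ ?_
          · intro j _ hj
            exact hall j (fun h => hj (by rw [h]; ring))
          · intro j _ _ j' _ _ h
            exact congrArg Prod.fst h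
          · intro P hP hP0
            have hzP : z ∈ A.plq P := by
              by_contra h
              exact hP0 (Set.indicator_of_notMem h _)
            rw [Set.indicator_of_mem hzP] at hP0
            exact ⟨P.1, Finset.mem_univ _, hP0, tri_eq hzP⟩
          · intro j _ hj
            have hj' : A.χ j z.1 ≠ 0 := fun h => hj (by rw [h]; ring)
            rw [Set.indicator_of_mem (kplq_subset hr _ (mem_kplq_tri hr hχ hz hj'))]
            rfl
        rw [h1, ← h2, hsum, mul_one]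

end Atl

end Pool.Agent.P.MP_e0a138_an.AD
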