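import Pool.Agent.P.MP_e0a138_an.GE7

set_option autoImplicit false
set_option linter.unusedSectionVars false
set_option linter.unusedVariables false

open MeasureTheory Filter Topology Metric Complex
open scoped ENNReal NNReal ContDiff InnerProductSpace ComplexConjugate

noncomputable section
namespace Pool.Agent.P.MP_e0a138_an.AD

variable {N p q k : ℕ} {W : Type} [NormedAddCommGroup W] [InnerProductSpace ℂ W]
  [FiniteDimensional ℂ W] [CompleteSpace W]
variable {A : Atl N p q k} {ε : Eu N →L[ℝ] W →L[ℂ] W}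

namespace Atl
variable {DF DH : (Eu N → W) → Eu N → W} {μ : Measure (Eu N)}

/-- a test section on a plaque extends to a form; the leaf operator in plaque coordinates -/
theorem Dir.plaque (hD : A.Dir ε μ DF DH) (hε : IsCAR ε) (i : Fin k) :
    ∃ Z : Eu p × Eu q → W →L[ℂ] W, ContDiffOn ℝ ∞ Z (ball 0 1) ∧
      ∀ (y η : Eu q) (a : Eu p → W), y ∈ ball (0 : Eu q) 1 →
        Tst (ball 0 1) (fun x => A.Pi ε (A.ψ i (x, y))) a → ∃ u, A.Form ε u ∧ A.Loc i u ∧
          ∀ x ∈ ball (0 : Eu p) 1, u (A.ψ i (x, y)) = a x ∧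
            A.lft ε DF (i, y, η) u (A.ψ i (x, y)) =
              op bs (fun b x => A.sy (clL ε) A.F i (.inl b) (x, y))
                (fun x => Z (x, y) + I • cl ε (A.cov i η (A.ψ i (x, y)))) a x := by
  obtain ⟨Z, hZ, hop⟩ := hD.opF i
  refine ⟨Z, hZ, fun y η a hy ha => ?_⟩
  obtain ⟨ha1, ha2, ha3, ha4⟩ := ha
  obtain ⟨b0, hb1, hb2, hb3, -, hb5⟩ :=
    exists_contDiff_tsupport_subset (n := ⊤) (isOpen_ball.mem_nhds hy)
  obtain ⟨r1, -, hr1, hK1⟩ := exists_closedBall_of_cpt ha2 ha3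
  obtain ⟨r2, -, hr2, hK2⟩ := exists_closedBall_of_cpt hb2 hb1
  have hr : max r1 r2 < 1 := max_lt hr1 hr2
  let g : Eu p × Eu q → W := fun z => (b0 z.2 : ℂ) • A.Pi ε (A.ψ i z) (a z.1)
  have gs : ContDiffOn ℝ ∞ g (ball 0 1) :=
    (contDiffOn_ofReal (hb3.comp contDiff_snd).contDiffOn).smul
      (contDiffOn_capp ((A.smooth_Pi hε).comp (A.ψ_smooth i).contDiffOn
        fun z hz => (ψ_mem i hz).1) (ha1.comp contDiff_fst).contDiffOn)
  have g0 : ∀ z ∈ ball (0 : Eu p × Eu q) 1, z ∉ closedBall (0 : Eu p × Eu q) (max r1 r2) →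
      g z = 0 := by
    rintro ⟨x, Y⟩ - hz
    rw [mem_closedBall_prod, not_and_or] at hz
    rcases hz with hz | hz
    · have e : a x = 0 := image_eq_zero_of_notMem_tsupport fun h =>
        hz (closedBall_subset_closedBall (le_max_left _ _) (hK1 h))
      show (b0 Y : ℂ) • A.Pi ε (A.ψ i (x, Y)) (a x) = 0
      rw [e, map_zero, smul_zero]
    · have e : b0 Y = 0 := image_eq_zero_of_notMem_tsupport fun h =>
        hz (closedBall_subset_closedBall (le_max_right _ _) (hK2 h))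
      show (b0 Y : ℂ) • A.Pi ε (A.ψ i (x, Y)) (a x) = 0
      rw [e, ofReal_zero, zero_smul]
  have hF : A.Form ε (A.ext i g) := by
    refine ⟨ext_smooth i gs hr g0, fun m hm => ?_⟩
    show A.Pi ε m (A.ext i g m) = A.ext i g m
    by_cases hU : m ∈ A.U i
    · obtain ⟨h1, h2⟩ := φ_mem hm hU
      have e : A.ext i g m = (b0 (A.φ i m).2 : ℂ) • A.Pi ε m (a (A.φ i m).1) := by
        rw [ext, Set.indicator_of_mem hU]
        show (b0 (A.φ i m).2 : ℂ) • A.Pi ε (A.ψ i (A.φ i m)) (a (A.φ i m).1) = _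
        rw [h2]
      rw [e, map_smul]
      exact congrArg _ (DFunLike.congr_fun (Pi_idem m) _)
    · rw [ext, Set.indicator_of_notMem hU, map_zero]
  have hv : ∀ x ∈ ball (0 : Eu p) 1, A.ext i g (A.ψ i (x, y)) = a x := fun x hx => by
    rw [ext_chart i g (mem_ball_prod.2 ⟨hx, hy⟩)]
    show (b0 y : ℂ) • A.Pi ε (A.ψ i (x, y)) (a x) = a x
    rw [hb5, ofReal_one, one_smul]
    exact ha4 x
  refine ⟨A.ext i g, hF, ⟨_, hr, ext_zero i g0⟩, fun x hx => ⟨hv x hx, ?_⟩⟩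
  have hz : (x, y) ∈ ball (0 : Eu p × Eu q) 1 := mem_ball_prod.2 ⟨hx, hy⟩
  have hd : DifferentiableAt ℝ (fun z => A.ext i g (A.ψ i z)) (x, y) :=
    diffAt_of_contDiffOn isOpen_ball (contDiffOn_iff.1 hF.1 i) hz
  have hder : ∀ e : Eu p, fderiv ℝ (fun z => A.ext i g (A.ψ i z)) (x, y) (e, 0) =
      fderiv ℝ a x e := fun e => by
    have h1 := HasFDerivAt.comp x (f := fun x' : Eu p => (x', y)) hd.hasFDerivAt
      (hasFDerivAt_prodMk_left (𝕜 := ℝ) x y)
    have h2 : a =ᶠ[𝓝 x] (fun z => A.ext i g (A.ψ i z)) ∘ fun x' => (x', y) := by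
      filter_upwards [isOpen_ball.mem_nhds hx] with x' hx' using (hv x' hx').symm
    rw [h2.fderiv_eq, h1.fderiv]
    rfl
  show DF (A.ext i g) (A.ψ i (x, y)) +
    I • cl ε (A.cov i η (A.ψ i (x, y))) (A.ext i g (A.ψ i (x, y))) = _
  rw [hop _ hF _ hz, op, op, Fintype.sum_sum_type, hv x hx]
  simp only [sy_F_inr (clL ε) i _ hz, cb, Sum.elim_inl, hder, zero_apply, Finset.sum_const_zero,
    add_zero, add_apply, smul_apply, add_assoc]

end Atl

end Pool.Agent.P.MP_e0a138_an.AD
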