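import Pool.Agent.P.MP_e0a138_an.GE17a
import Pool.Agent.P.MP_e0a138_an.GE17p
import Pool.Agent.P.MP_e0a138_an.GE15b
import Pool.Agent.P.MP_e0a138_an.PA3

set_option autoImplicit false
set_option linter.unusedSectionVars false
set_option linter.unusedVariables false

open MeasureTheory Filter Topology Metric Complex
open scoped ENNReal NNReal ContDiff InnerProductSpace ComplexConjugate

noncomputable section
namespace Pool.Agent.P.MP_e0a138_an.AD

variable {N p q k : ℕ} {W : Type} [NormedAddCommGroup W] [InnerProductSpace ℂ W]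
  [FiniteDimensional ℂ W] [CompleteSpace W]
variable {A : Atl N p q k} {ε : Eu N →L[ℝ] W →L[ℂ] W}

namespace Atl
variable {DF DH : (Eu N → W) → Eu N → W} {μ : Measure (Eu N)} {l : Measure (Eu N × Eu N)}
  {t₀ : Tr q k}

theorem GE17b_slice {G : Type} [NormedAddCommGroup G] [NormedSpace ℝ G] {f : Eu p × Eu q → G}
    (hf : ContDiffOn ℝ ∞ f (ball 0 1)) {y : Eu q} (hy : y ∈ ball (0 : Eu q) 1) :
    ContDiffOn ℝ ∞ (fun x : Eu p => f (x, y)) (ball 0 1) :=
  hf.comp (contDiff_id.prodMk contDiff_const).contDiffOn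
    fun x hx => mem_ball_prod.2 ⟨hx, hy⟩

theorem GE17b_bound (A : Atl N p q k) (ε : Eu N →L[ℝ] W →L[ℂ] W) {r : ℝ} (hr : r < 1) :
    ∃ L : ℝ, 0 ≤ L ∧ ∀ (i : Fin k) (b : Fin p), ∀ z ∈ closedBall (0 : Eu p × Eu q) r,
      ‖A.sy (clL ε) A.F i (.inl b) z‖ ≤ L := by
  have h : ∀ j : Fin k × Fin p, ∃ L : ℝ, ∀ z ∈ closedBall (0 : Eu p × Eu q) r,
      ‖A.sy (clL ε) A.F j.1 (.inl j.2) z‖ ≤ L := fun j =>
    (isCompact_closedBall (0 : Eu p × Eu q) r).exists_bound_of_continuousOn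
      ((smooth_sy (clL ε) A.subB_F j.1 (.inl j.2)).continuousOn.mono (closedBall_subset_ball hr))
  choose L hL using h
  refine ⟨∑ j, |L j|, Finset.sum_nonneg fun j _ => abs_nonneg _, fun i b z hz => ?_⟩
  exact (hL (i, b) z hz).trans ((le_abs_self _).trans
    (Finset.single_le_sum (f := fun j => |L j|) (fun j _ => abs_nonneg _) (Finset.mem_univ (i, b))))

theorem GE17b_cpt {r : ℝ} (y : Eu q) :
    IsCompact {x : Eu p | (x, y) ∈ closedBall (0 : Eu p × Eu q) r} := by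
  refine (isCompact_closedBall (0 : Eu p) r).of_isClosed_subset ?_ ?_
  · exact isClosed_closedBall.preimage (continuous_id.prodMk continuous_const)
  · intro x hx
    exact (mem_closedBall_prod.1 hx).1

theorem GE17b_coef (hε : IsCAR ε) {t : Tr q k} (ht : t.2.1 ∈ ball (0 : Eu q) 1)
    {Z : Eu p × Eu q → W →L[ℂ] W} (hZ : ContDiffOn ℝ ∞ Z (ball 0 1)) {c : ℝ≥0} (hc : c ≠ 0) :
    Coef (ball (0 : Eu p) 1) (fun (b : Fin p) x => A.sy (clL ε) A.F t.1 (.inl b) (x, t.2.1))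
      (fun x => Z (x, t.2.1) + I • cl ε (A.cov t.1 t.2.2 (A.ψ t.1 (x, t.2.1))))
      (fun x => A.Pi ε (A.gam t x).1) (fun x => (c : ℝ) * A.rho t.1 (x, t.2.1)) where
  isOpen := isOpen_ball
  hA := fun b => GE17b_slice (smooth_sy (clL ε) A.subB_F t.1 (.inl b)) ht
  hB := by
    refine (GE17b_slice hZ ht).add (ContDiffOn.const_smul I ?_)
    have h1 := GE17b_slice (contDiffOn_iff.1 (smooth_cov (A := A) t.1 t.2.2) t.1) ht
    have h2 := (clL ε).contDiff.comp_contDiffOn h1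
    refine h2.congr fun x _ => ?_
    exact (clL_apply ε _).symm
  hP := GE17b_slice (contDiffOn_iff.1 (A.smooth_Pi hε) t.1) ht
  hρ := contDiffOn_const.mul (GE17b_slice (rho_smooth t.1) ht)
  pos := fun x hx => mul_pos (NNReal.coe_pos.2 (pos_iff_ne_zero.2 hc))
    (rho_pos t.1 (mem_ball_prod.2 ⟨hx, ht⟩))
  idem := fun x _ => Pi_idem _
  sa := fun x _ => Pi_star _
  skew := fun b x _ => by
    simp only [sy, clL_apply]
    exact cl_star _
  comm := fun b x hx =>
    (sy_comm hε A.subB_F t.1 (.inl b) (mem_ball_prod.2 ⟨hx, ht⟩)).2.2.symm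

theorem Dir.essSA_L (hD : A.Dir ε μ DF DH) (hε : IsCAR ε) (h0 : t₀.2.1 ∈ ball (0 : Eu q) 1)
    (hl : A.IsLeaf t₀ l) (hs : Sym (A.grL ε DF t₀ l)) : EssSA (A.grL ε DF t₀ l) := by
  obtain ⟨r, hr0, hr, hχ⟩ := A.exists_r
  obtain ⟨L, hL0, hL⟩ := GE17b_bound A ε hr
  obtain ⟨cf, fs, C, hC0, hsm, hgr, hpt⟩ := leaf_cutoff hr hχ h0
  choose Z hZ hZ2 using hD.plaque hε
  have hc0 : ∀ t : {t // A.Reach t₀ t}, ∃ c : ℝ≥0, c ≠ 0 ∧
      l.restrict (A.plq t.1) = c • A.pm t.1 := fun t => hl.2 t.1 t.2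
  choose c hc hc2 using hc0
  have hm : ∀ t : {t // A.Reach t₀ t}, t.1.2.1 ∈ ball (0 : Eu q) 1 := fun t => t.2.mem h0
  have hae := hl.ae_mem
  refine Pat.essSA (J := {t // A.Reach t₀ t}) (b := (bs : Fin p → Eu p))
    (Pg := fun z => A.Pi ε z.1)
    { O := fun _ => ball 0 1
      γ := fun t => A.gam t.1
      π := fun t z => (A.φ t.1.1 z.1).1
      A := fun t b x => A.sy (clL ε) A.F t.1.1 (.inl b) (x, t.1.2.1)
      B := fun t x => Z t.1.1 (x, t.1.2.1) +
        I • cl ε (A.cov t.1.1 t.1.2.2 (A.ψ t.1.1 (x, t.1.2.1)))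
      ρ := fun t x => (c t : ℝ) * A.rho t.1.1 (x, t.1.2.1)
      θ := fun t => (A.plq t.1).indicator fun z => A.χ t.1.1 z.1 ^ 2
      K := fun t => {x | (x, t.1.2.1) ∈ closedBall (0 : Eu p × Eu q) r}
      χ := cf
      fs := fs
      δ := fun n => (p * L * C) * (1 / (n + 1 : ℝ))
      cnt := (countable_reach t₀).to_subtype
      coef := fun t => GE17b_coef hε (hm t) (hZ t.1.1) (hc t)
      emb := fun t => emb_plq (hm t) (hc2 t)
      inv := fun t x hx => gam_inv (hm t) hx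
      cover := ?_
      test := ?_
      val := hD.grL_val hε h0 hl
      sym := hs
      K_cpt := fun t => GE17b_cpt _
      K_sub := fun t x hx => closedBall_subset_ball hr (mem_closedBall_prod.1 hx).1
      θ_nonneg := fun t z => Set.indicator_nonneg (fun _ _ => sq_nonneg _) z
      θ_supp := ?_
      θ_smooth := ?_
      χ_smooth := fun n t => hsm n t.1 t.2
      χ_mem := fun n => hae.mono fun z ⟨t, ht, hz⟩ => (hpt t ht z hz).1 n
      χ_sum := fun n => hae.mono fun z ⟨t, ht, hz⟩ => (hpt t ht z hz).2.2 n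
      χ_lim := hae.mono fun z ⟨t, ht, hz⟩ => (hpt t ht z hz).2.1
      δ_lim := ?_
      grad := ?_ }
  · filter_upwards [hae] with z ⟨t, ht, hz⟩
    exact ⟨⟨t, ht⟩, by rwa [← plq_eq (ht.mem h0)]⟩
  · intro t a ha
    obtain ⟨u, hu, hloc, hx⟩ := hZ2 t.1.1 t.1.2.1 t.1.2.2 a (hm t) ha
    refine ⟨_, hD.mem_grL hε h0 hl t.2 hu hloc, ?_, ?_⟩
    · refine (sec_ae h0 hl t.2 hu.1.continuousOn).trans (EventuallyEq.of_eq ?_)
      rw [plq_eq (hm t)]
      refine Set.indicator_congr fun w hw => ?_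
      obtain ⟨x, hx1, rfl⟩ := hw
      simp only [gam_inv (hm t) hx1]
      exact (hx x hx1).1
    · refine (sec_ae h0 hl t.2 (hD.lft hε t.1 hu hloc).1.1.continuousOn).trans
        (EventuallyEq.of_eq ?_)
      rw [plq_eq (hm t)]
      refine Set.indicator_congr fun w hw => ?_
      obtain ⟨x, hx1, rfl⟩ := hw
      simp only [gam_inv (hm t) hx1]
      exact (hx x hx1).2
  · intro t z hz
    by_cases hp : z ∈ A.plq t.1
    · rw [Set.indicator_of_mem hp]
      have hp' := hp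
      rw [plq_eq (hm t)] at hp'
      obtain ⟨x, hx1, rfl⟩ := hp'
      have hb : (x, t.1.2.1) ∈ ball (0 : Eu p × Eu q) 1 := mem_ball_prod.2 ⟨hx1, hm t⟩
      have := (chart_zero hr (hχ t.1.1)).1 _ hb fun h => hz ⟨x, h, rfl⟩
      change A.χ t.1.1 (A.ψ t.1.1 (x, t.1.2.1)) ^ 2 = 0
      rw [this]; simp
    · exact Set.indicator_of_notMem hp _
  · intro t
    have h1 : ContDiffOn ℝ ∞ (fun x : Eu p => A.χ t.1.1 (A.ψ t.1.1 (x, t.1.2.1)) ^ 2) (ball 0 1) :=
      (((A.χ_smooth _).comp ((A.ψ_smooth _).comp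
        (contDiff_id.prodMk contDiff_const))).pow 2).contDiffOn
    refine h1.congr fun x hx => ?_
    have : A.gam t.1 x ∈ A.plq t.1 := by
      rw [plq_eq (hm t)]; exact ⟨x, hx, rfl⟩
    rw [Set.indicator_of_mem this]
    rfl
  · have := tendsto_one_div_add_atTop_nhds_zero_nat (𝕜 := ℝ) |>.const_mul (p * L * C)
    simpa using this
  · intro n t x hx
    have h1 := hgr n t.1 x t.2 hx
    have hC : 0 ≤ C * (1 / (n + 1 : ℝ)) := by positivity
    refine (norm_sum_le _ _).trans ?_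
    refine (Finset.sum_le_sum (g := fun _ => C * (1 / (n + 1 : ℝ)) * L) fun b _ => ?_).trans ?_
    · rw [norm_smul, Complex.norm_real]
      refine mul_le_mul ?_ (hL _ b _ hx) (norm_nonneg _) hC
      refine (ContinuousLinearMap.le_opNorm _ _).trans ?_
      rw [norm_bs, mul_one]
      exact h1
    · rw [Finset.sum_const, Finset.card_univ, Fintype.card_fin, nsmul_eq_mul]
      exact le_of_eq (by ring)

end Atl

end Pool.Agent.P.MP_e0a138_an.AD
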