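import Pool.Agent.P.MP_e0a138_an.GE19a

set_option autoImplicit false
set_option linter.unusedSectionVars false
set_option linter.unusedVariables false

open MeasureTheory Filter Topology Metric Complex
open scoped ENNReal NNReal ContDiff InnerProductSpace ComplexConjugate

noncomputable section
namespace Pool.Agent.P.MP_e0a138_an.AD

variable {N p q k : ℕ} {W : Type} [NormedAddCommGroup W] [InnerProductSpace ℂ W]
  [FiniteDimensional ℂ W] [CompleteSpace W]
variable {A : Atl N p q k} {ε : Eu N →L[ℝ] W →L[ℂ] W}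

theorem GE19b_diff {S J : Type} [MeasurableSpace S] {ν : Measure S} [Fintype J]
    {f g a : S → W} {b : J → S → W} {c d : ℂ} (hf : MemLp f 2 ν) (hg : MemLp g 2 ν)
    (ha : MemLp a 2 ν) (hb : ∀ l, MemLp (b l) 2 ν)
    (h : ∀ᵐ s ∂ν, f s = g s + c • a s + d • ∑ l, b l s) :
    toL ν f - toL ν g = c • toL ν a + d • ∑ l, toL ν (b l) := by
  refine Lp.ext ?_
  have h1 : ∀ᵐ s ∂ν, ∀ l, toL ν (b l) s = b l s := ae_all_iff.2 fun l => toL_ae (hb l)
  filter_upwards [h, h1, toL_ae hf, toL_ae hg, toL_ae ha, Lp.coeFn_sub (toL ν f) (toL ν g),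
    Lp.coeFn_add (c • toL ν a) (d • ∑ l, toL ν (b l)), Lp.coeFn_smul c (toL ν a),
    Lp.coeFn_smul d (∑ l, toL ν (b l)),
    Lp.coeFn_finsetSum Finset.univ fun l => toL ν (b l)] with s e0 e1 e2 e3 e4 e5 e6 e7 e8 e9
  rw [e5, e6, Pi.sub_apply, Pi.add_apply, e7, e8, Pi.smul_apply, Pi.smul_apply, e9, e2, e3, e4,
    e0, Finset.sum_apply, Finset.sum_congr rfl fun l _ => e1 l]
  abel

namespace Atl
variable {DF DH : (Eu N → W) → Eu N → W} {μ : Measure (Eu N)}

theorem Dir.intertwine (hD : A.Dir ε μ DF DH) (hε : IsCAR ε) (hμ : A.IsVol μ) {β : Eu q → ℝ}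
    (hβ : ContDiff ℝ ∞ β) (hc : HasCompactSupport β) (t : Tr q k) (e : Eu q ≃L[ℝ] Eu q)
    {u : Eu N → W} (hu : A.Form ε u) (hl : A.Loc t.1 u) :
    Tendsto (fun h => ‖toL μ (Dh DF DH h (A.pk β h t (e.symm : Eu q →L[ℝ] Eu q) u)) -
      toL μ (A.pk β h t (e.symm : Eu q →L[ℝ] Eu q) (A.lft ε DF t u))‖) (𝓝[>] 0) (𝓝 0) := by
  set L : Eu q →L[ℝ] Eu q := (e.symm : Eu q →L[ℝ] Eu q) with hL
  let β' : Fin q → Eu q → ℝ := fun l s => fderiv ℝ β s (L (bs l))
  let v : Fin q → Eu N → W := fun l m => cl ε (A.gr t.1 (.inr l) m) (u m)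
  have hβ' : ∀ l, Continuous (β' l) := fun l =>
    (hβ.continuous_fderiv (by simp)).clm_apply continuous_const
  have hc' : ∀ l, HasCompactSupport (β' l) := fun l => hc.fderiv_apply ℝ _
  have hv : ∀ l, ContinuousOn (v l) A.M := fun l => by
    have h1 : ContinuousOn (fun m => clL ε (A.gr t.1 (.inr l) m)) A.M :=
      (clL ε).continuous.comp_continuousOn (smooth_gr t.1 (.inr l)).continuousOn
    simp only [clL_apply] at h1
    exact continuousOn_capp h1 hu.1.continuousOn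
  have hlv : ∀ l, A.Loc t.1 (v l) := fun l => by
    obtain ⟨r, hr, h0⟩ := hl
    exact ⟨r, hr, fun m hm hm' => by simp only [v, h0 m hm hm', map_zero]⟩
  have hH : ContinuousOn (DH u) A.M := (hD.formH u hu).1.continuousOn
  obtain ⟨C₀, hC₀⟩ := pk_norm_bound hμ hβ.continuous hc t e hH (hD.opH.loc hu hl)
  choose C hC using fun l => pk_norm_bound hμ (hβ' l) (hc' l) t e (hv l) (hlv l)
  have hlim : Tendsto (fun h : ℝ => h * C₀ + h / sc h * ∑ l, C l) (𝓝[>] 0) (𝓝 0) := by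
    have h1 : Tendsto (fun h : ℝ => h) (𝓝[>] 0) (𝓝 0) := tendsto_nhdsWithin_of_tendsto_nhds tendsto_id
    simpa using (h1.mul_const C₀).add (div_sc_tendsto.mul_const (∑ l, C l))
  refine squeeze_zero' (Eventually.of_forall fun h => norm_nonneg _) ?_ hlim
  filter_upwards [self_mem_nhdsWithin] with h hh
  have hh : 0 < h := hh
  have key := GE19b_diff (ν := μ) (c := (h : ℂ)) (d := ((h / sc h : ℝ) : ℂ))
    (hμ.memLp (hD.form h (pk_form hβ h t L hu)).1.continuousOn)
    (hμ.memLp (pk_continuousOn hβ.continuous h t L (hD.lft hε t hu hl).1.1.continuousOn))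
    (hμ.memLp (pk_continuousOn hβ.continuous h t L hH))
    (fun l => hμ.memLp (pk_continuousOn (hβ' l) h t L (hv l)))
    (hμ.ae_mem.mono fun m hm => hD.pk_eq hβ hh t L hu hl m hm)
  rw [key]
  have hs : 0 ≤ h / sc h := (div_pos hh (sc_pos hh)).le
  refine (norm_add_le _ _).trans (add_le_add ?_ ?_)
  · rw [norm_smul, Complex.norm_real, Real.norm_of_nonneg hh.le]
    exact mul_le_mul_of_nonneg_left (hC₀ h hh) hh.le
  · rw [norm_smul, Complex.norm_real, Real.norm_of_nonneg hs]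
    exact mul_le_mul_of_nonneg_left
      ((norm_sum_le _ _).trans (Finset.sum_le_sum fun l _ => hC l h hh)) hs

end Atl

end Pool.Agent.P.MP_e0a138_an.AD
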