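import Pool.Agent.P.MP_e0a138_an.GE20
import Pool.Agent.P.MP_e0a138_an.GE19b
import Pool.Agent.P.MP_e0a138_an.GE17b
import Pool.Agent.P.MP_e0a138_an.GE16
import Pool.Agent.P.MP_e0a138_an.AB4c

set_option autoImplicit false
set_option linter.unusedSectionVars false
set_option linter.unusedVariables false

open MeasureTheory Filter Topology Metric Complex
open scoped ENNReal NNReal ContDiff InnerProductSpace ComplexConjugate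

noncomputable section
namespace Pool.Agent.P.MP_e0a138_an.AD

variable {N p q k : ℕ} {W : Type} [NormedAddCommGroup W] [InnerProductSpace ℂ W]
  [FiniteDimensional ℂ W] [CompleteSpace W]
variable {A : Atl N p q k} {ε : Eu N →L[ℝ] W →L[ℂ] W}

theorem GE21_inner {H : Type} [NormedAddCommGroup H] [InnerProductSpace ℂ H] (c : ℝ≥0)
    (x y : H) : ⟪(((√(c : ℝ))⁻¹ : ℝ) : ℂ) • x, (((√(c : ℝ))⁻¹ : ℝ) : ℂ) • y⟫_ℂ =
      (((c : ℝ)⁻¹ : ℝ) : ℂ) * ⟪x, y⟫_ℂ := by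
  rw [inner_smul_left, inner_smul_right, conj_ofReal, ← mul_assoc, ← ofReal_mul, ← mul_inv,
    Real.mul_self_sqrt c.coe_nonneg]

theorem GE21_inK {H : Type} [NormedAddCommGroup H] [InnerProductSpace ℂ H] {G : Set (H × H)}
    {v : H} (hv : InK G v) (c : ℂ) : InK G (c • v) := fun w hw => by
  rw [inner_smul_right, hv w hw, mul_zero]

namespace Atl
variable {DF DH : (Eu N → W) → Eu N → W} {μ : Measure (Eu N)} {l : Measure (Eu N × Eu N)}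
  {t₀ : Tr q k} {B : Tr q k → Eu q ≃L[ℝ] Eu q}

theorem Dir.apx (hD : A.Dir ε μ DF DH) (hε : IsCAR ε) (hμ : A.IsVol μ) (hB : A.Hd t₀ B)
    (hl : A.IsLeaf t₀ l) {c : ℝ≥0} (hc0 : c ≠ 0)
    (hc : ∀ t, A.Reach t₀ t → l.restrict (A.plq t) = (c * jac (B t)) • A.pm t)
    {β : Eu q → ℝ} (hβ : ContDiff ℝ ∞ β) (hβc : HasCompactSupport β) (hn : ∫ y, β y ^ 2 = 1) :
    Apx (𝓝[>] 0) (fun h => A.grM ε μ (Dh DF DH h)) (A.grL ε DF t₀ l)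
      (fun a : A.Lab ε t₀ => (((√(c : ℝ))⁻¹ : ℝ) : ℂ) • A.sec l a.1.1 a.1.2)
      (fun a h => toL μ (A.pk β h a.1.1 ((B a.1.1).symm : Eu q →L[ℝ] Eu q) a.1.2))
      (((√(c : ℝ))⁻¹ : ℝ) : ℂ) := by
  refine ⟨?_, fun a b => ?_, fun g hg => ?_, fun a => ?_⟩
  · have h1 : (0 : ℝ) < c := NNReal.coe_pos.2 (pos_iff_ne_zero.2 hc0)
    exact ofReal_ne_zero.2 (inv_ne_zero (Real.sqrt_pos.2 h1).ne')
  · rw [GE21_inner]
    exact gram_tendsto hμ hB hl hc0 hc hβ.continuous hβc hn a.2.1 b.2.1 a.2.2.1.1.continuousOn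
      b.2.2.1.1.continuousOn a.2.2.2 b.2.2.2
  · obtain ⟨t, u, ht, hu, hloc, e1, e2⟩ := hD.of_mem_grL hε hB.mem hl hg
    obtain ⟨hu', hloc'⟩ := hD.lft hε t hu hloc
    refine ⟨⟨(t, u), ht, hu, hloc⟩, ⟨(t, A.lft ε DF t u), ht, hu', hloc'⟩, by rw [e1], by rw [e2],
      fun h => toL μ (Dh DF DH h (A.pk β h t ((B t).symm : Eu q →L[ℝ] Eu q) u)),
      Eventually.of_forall fun h => hD.mem_grM hμ h (pk_form hβ h t _ hu), ?_⟩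
    exact hD.intertwine hε hμ hβ hβc t (B t) hu hloc
  · exact GE21_inK (inK_fst (hD.mem_grL hε hB.mem hl a.2.1 a.2.2.1 a.2.2.2)) _

theorem Dir.essSA_leaf (hD : A.Dir ε μ DF DH) (hε : IsCAR ε) (hμ : A.IsVol μ) (hB : A.Hd t₀ B)
    (hl : A.IsLeaf t₀ l) : EssSA (A.grL ε DF t₀ l) := by
  obtain ⟨c, hc0, hc⟩ := hB.scale hl
  obtain ⟨β, hβ, hβc, hn⟩ := exists_window (q := q)
  exact hD.essSA_L hε hB.mem hl ((hD.apx hε hμ hB hl hc0 hc hβ hβc hn).sym (hD.sym hμ))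

theorem Dir.fc_tendsto (hD : A.Dir ε μ DF DH) (hε : IsCAR ε) (hμ : A.IsVol μ) (hB : A.Hd t₀ B)
    (hl : A.IsLeaf t₀ l) {β : Eu q → ℝ} (hβ : ContDiff ℝ ∞ β) (hβc : HasCompactSupport β)
    (hn : ∫ y, β y ^ 2 = 1) {R : ℝ → Lp W 2 μ →L[ℂ] Lp W 2 μ}
    (hR : ∀ h, IsRes (A.grM ε μ (Dh DF DH h)) (R h)) {S : Lp W 2 l →L[ℂ] Lp W 2 l}
    (hS : IsRes (A.grL ε DF t₀ l) S) {f : ℝ → ℝ} (hf : Continuous (Ff f)) :
    ∃ c : ℝ≥0, c ≠ 0 ∧ l.restrict (A.plq t₀) = c • A.pm t₀ ∧ ∀ u, A.Form ε u → A.Loc t₀.1 u →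
      Tendsto (fun h => ENNReal.ofReal (⟪toL μ (A.pk β h t₀ (ContinuousLinearMap.id ℝ _) u),
        fc f (R h) (toL μ (A.pk β h t₀ (ContinuousLinearMap.id ℝ _) u))⟫_ℂ).re) (𝓝[>] 0)
        (𝓝 ((c : ℝ≥0∞)⁻¹ * ENNReal.ofReal (⟪A.sec l t₀ u, fc f S (A.sec l t₀ u)⟫_ℂ).re)) := by
  obtain ⟨c, hc0, hc⟩ := hB.scale hl
  have h0 : A.Reach t₀ t₀ := Relation.ReflTransGen.refl
  refine ⟨c, hc0, by rw [hc t₀ h0, hB.base, jac_refl, mul_one], fun u hu hloc => ?_⟩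
  have h1 := (hD.apx hε hμ hB hl hc0 hc hβ hβc hn).cfc_tendsto (hD.essSA_M hε hμ)
    (hD.essSA_leaf hε hμ hB hl) hR hS hf ⟨(t₀, u), h0, hu, hloc⟩ ⟨(t₀, u), h0, hu, hloc⟩
  have e : ((B t₀).symm : Eu q →L[ℝ] Eu q) = ContinuousLinearMap.id ℝ _ := by
    rw [hB.base]
    rfl
  have h2 : (0 : ℝ) < c := NNReal.coe_pos.2 (pos_iff_ne_zero.2 hc0)
  simp only [e, map_smul, GE21_inner] at h1
  have h3 := (ENNReal.continuous_ofReal.tendsto _).comp ((continuous_re.tendsto _).comp h1)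
  rw [re_ofReal_mul, ENNReal.ofReal_mul (inv_nonneg.2 h2.le), ENNReal.ofReal_inv_of_pos h2,
    ENNReal.ofReal_coe_nnreal] at h3
  exact h3

end Atl

end Pool.Agent.P.MP_e0a138_an.AD
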