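import Pool.Agent.P.MP_e0a138_an.GE25b
import Pool.Agent.P.MP_e0a138_an.AB3
import Pool.Agent.P.MP_e0a138_an.AB5b

set_option autoImplicit false
set_option linter.unusedSectionVars false
set_option linter.unusedVariables false

open MeasureTheory Filter Topology Metric Complex
open scoped ENNReal NNReal ContDiff InnerProductSpace ComplexConjugate

noncomputable section
namespace Pool.Agent.P.MP_e0a138_an.AD

variable {N p q k : ℕ} {W : Type} [NormedAddCommGroup W] [InnerProductSpace ℂ W]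
  [FiniteDimensional ℂ W] [CompleteSpace W]
variable {A : Atl N p q k} {ε : Eu N →L[ℝ] W →L[ℂ] W}

theorem Om_props (p q : ℕ) : (∀ K, MeasurableSet (Om p q K)) ∧ Monotone (Om p q) ∧
    ⋃ K, Om p q K = Set.univ ∧
    ∀ K, volume (Om p q K ∩ Set.univ ×ˢ (ball (0 : Eu q) 1 ×ˢ Set.univ)) ≠ ⊤ := by
  have hm : ∀ K, MeasurableSet (Om p q K) := fun K =>
    measurableSet_closedBall.prod (MeasurableSet.univ.prod measurableSet_closedBall)
  refine ⟨hm, fun K K' h o ho => ?_, Set.eq_univ_of_forall fun o => ?_, fun K => ?_⟩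
  · have h1 : (K : ℝ) ≤ K' := Nat.cast_le.2 h
    exact ⟨closedBall_subset_closedBall h1 ho.1, trivial, closedBall_subset_closedBall h1 ho.2.2⟩
  · obtain ⟨K, hK⟩ := exists_nat_ge (max ‖o.1‖ ‖o.2.2‖)
    exact Set.mem_iUnion.2 ⟨K, mem_closedBall_zero_iff.2 ((le_max_left _ _).trans hK), trivial,
      mem_closedBall_zero_iff.2 ((le_max_right _ _).trans hK)⟩
  · refine ((measure_mono fun o ho => ?_).trans_lt
      ((isCompact_closedBall (0 : Eu p) K).prod ((isCompact_closedBall (0 : Eu q) 1).prod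
        (isCompact_closedBall (0 : Eu q) K))).measure_lt_top).ne
    exact ⟨ho.1.1, ball_subset_closedBall ho.2.2.1, ho.1.2.2⟩

namespace Atl
variable {DF DH : (Eu N → W) → Eu N → W} {μ : Measure (Eu N)}

theorem Dir.trunc (hD : A.Dir ε μ DF DH) (hε : IsCAR ε) (hμ : A.IsVol μ) {β : Eu q → ℝ}
    (hβ : ContDiff ℝ ∞ β) (hc : HasCompactSupport β) (hn : ∫ y, β y ^ 2 = 1)
    {R : ℝ → Lp W 2 μ →L[ℂ] Lp W 2 μ} (hR : ∀ h, IsRes (A.grM ε μ (Dh DF DH h)) (R h))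
    {f : ℝ → ℝ} (hf : Continuous f) (hfc : HasCompactSupport f) (h0 : ∀ x, 0 ≤ f x)
    {φ : ℝ → Fin k × Fin (Module.finrank ℂ W) → Eu p × Eu q × Eu q → ℝ≥0∞}
    (hφ : ∀ h j o, φ h j o =
      ENNReal.ofReal (⟪A.wv ε μ β h j o, fc f (R h) (A.wv ε μ β h j o)⟫_ℂ).re) :
    ∃ (C : ℝ≥0) (d : ℕ → ℝ≥0∞), Tendsto d atTop (𝓝 0) ∧
      (∀ᶠ h in 𝓝[>] (0 : ℝ), ∀ j, Measurable (φ h j) ∧
        ∀ o, φ h j o ≤ C ∧ (o.2 ∉ ball (0 : Eu q) 1 ×ˢ Set.univ → φ h j o = 0)) ∧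
      ∀ K, ∀ᶠ h in 𝓝[>] (0 : ℝ), ∑ j, ∫⁻ o in Om p q K, φ h j o ≤
          ENNReal.ofReal ((2 * Real.pi * h) ^ q) * tr (fun _ => 1) (fc f (R h)) ∧
        (1 - d K) * (ENNReal.ofReal ((2 * Real.pi * h) ^ q) * tr (fun _ => 1) (fc f (R h))) ≤
          ∑ j, ∫⁻ o in Om p q K, φ h j o := by
  have := hμ.separable (W := W)
  obtain ⟨Cf, hCf⟩ := fc_sqrt hf hfc h0
  obtain ⟨Ct, hCt⟩ := hD.tail_res hε hμ hβ hc
  obtain ⟨Cw, hCw⟩ := wv_bound hε hμ hβ.continuous hc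
  have hp := fun h => IsRes.props (hD.essSA_M hε hμ h) (hR h)
  choose S hS1 hS2 hS3 hS4 using fun h => hCf _ (R h) (hp h).2.2.2.1
  have hφ' : ∀ h j o, φ h j o = ‖S h (A.wv ε μ β h j o)‖ₑ ^ 2 := fun h j o => by
    rw [hφ, enorm_sq_eq_ofReal (hS1 h), hS2]
  have hw := fun h => wv_measurable hε hμ hβ.continuous hc h
  have hle : ∀ x y : Lp W 2 μ, ‖x‖ ≤ Cf * ‖y‖ → ‖x‖ₑ ^ 2 ≤ (Cf : ℝ≥0∞) ^ 2 * ‖y‖ₑ ^ 2 := by
    intro x y hxy
    rw [← mul_pow, enorm_eq_nnnorm, enorm_eq_nnnorm, ← ENNReal.coe_mul]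
    exact pow_le_pow_left' (ENNReal.coe_le_coe.2 hxy) 2
  refine ⟨Cf ^ 2 * Cw, fun K => Ct / K ^ 2 * (Cf : ℝ≥0∞) ^ 2, ?_, ?_, fun K => ?_⟩
  · have h1 : Tendsto (fun K : ℕ => ((K : ℝ≥0∞)⁻¹) ^ 2) atTop (𝓝 0) := by
      have := ENNReal.Tendsto.pow (n := 2) ENNReal.tendsto_inv_nat_nhds_zero
      rwa [zero_pow two_ne_zero] at this
    have h2 := ENNReal.Tendsto.const_mul (a := (Ct : ℝ≥0∞) * (Cf : ℝ≥0∞) ^ 2) h1
      (Or.inr (ENNReal.mul_ne_top ENNReal.coe_ne_top (ENNReal.pow_ne_top ENNReal.coe_ne_top)))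
    rw [mul_zero] at h2
    refine h2.congr fun K => ?_
    rw [div_eq_mul_inv, ENNReal.inv_pow, mul_right_comm]
  · filter_upwards [hCw] with h hh j
    refine ⟨?_, fun o => ⟨?_, fun ho => ?_⟩⟩
    · rw [funext (hφ' h j)]
      exact measurable_frame (hw h) (hS1 h) j
    · rw [hφ', ENNReal.coe_mul, ENNReal.coe_pow]
      refine (hle _ _ (((S h).le_opNorm _).trans
        (mul_le_mul_of_nonneg_right (hS3 h) (norm_nonneg _)))).trans ?_
      exact mul_le_mul_right (hh j o).1 _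
    · rw [hφ', (hh j o).2 fun h1 => ho ⟨h1, trivial⟩, map_zero, enorm_zero, zero_pow two_ne_zero]
  · filter_upwards [Ioc_mem_nhdsGT (zero_lt_one' ℝ)] with h hh
    simp only [hφ', tr_one, ← hS2]
    refine frame_trunc volume (hw h) (hS1 h) ENNReal.ofReal_ne_top ((Om_props p q).1 K)
      (fun e => ?_) fun e => ?_
    · obtain ⟨v, hv, -⟩ := hS4 h e
      refine wv_frame hε hμ hβ.continuous hc hn hh.1 (hD.inK_val hε hμ h ?_)
      rw [hv]
      exact (hp h).2.2.2.2 v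
    · obtain ⟨v, hv, hv'⟩ := hS4 h e
      have h1 := hCt h hh (R h) (hR h) v K
      rw [← hv] at h1
      refine h1.trans ?_
      rw [mul_assoc _ ((Cf : ℝ≥0∞) ^ 2), mul_left_comm ((Cf : ℝ≥0∞) ^ 2)]
      exact mul_le_mul_right (mul_le_mul_right (hle _ _ hv') _) _

end Atl

end Pool.Agent.P.MP_e0a138_an.AD
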