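import Pool.Agent.P.MP_e0a138_an.GE5

set_option autoImplicit false
set_option linter.unusedSectionVars false
set_option linter.unusedVariables false

open MeasureTheory Filter Topology Metric Complex
open scoped ENNReal NNReal ContDiff InnerProductSpace ComplexConjugate

noncomputable section
namespace Pool.Agent.P.MP_e0a138_an.AD

variable {N p q k : ℕ} {W : Type} [NormedAddCommGroup W] [InnerProductSpace ℂ W]
  [FiniteDimensional ℂ W] [CompleteSpace W]
variable {A : Atl N p q k}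

namespace Atl

theorem GE5b_measQ (A : Atl N p q k) (i : Fin k) : MeasurableSet (A.M ∩ A.U i) :=
  A.isCompact_M.isClosed.measurableSet.inter (A.U_open i).measurableSet

theorem GE5b_measS (A : Atl N p q k) (i j : Fin k) :
    MeasurableSet (ball (0 : Eu p × Eu q) 1 ∩ A.ψ i ⁻¹' (A.M ∩ A.U j)) :=
  measurableSet_ball.inter ((A.ψ_smooth i).continuous.measurable (A.GE5b_measQ j))

theorem GE5b_compat (A : Atl N p q k) (i j : Fin k) :
    ((wm (ball (0 : Eu p × Eu q) 1) (A.rho i)).map (A.ψ i)).restrict (A.M ∩ A.U j) =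
      ((wm (ball (0 : Eu p × Eu q) 1) (A.rho j)).map (A.ψ j)).restrict (A.M ∩ A.U i) := by
  have hm : ∀ (l : Fin k) (μ : Measure (Eu p × Eu q)), AEMeasurable (A.ψ l) μ := fun l μ =>
    (A.ψ_smooth l).continuous.measurable.aemeasurable
  rw [restrict_map_wm measurableSet_ball (hm i _) (A.GE5b_measQ j) (A.GE5b_measS i j),
    restrict_map_wm measurableSet_ball (hm j _) (A.GE5b_measQ i) (A.GE5b_measS j i)]
  have hd : Differentiable ℝ fun z => A.φ j (A.ψ i z) :=
    ((A.φ_smooth j).comp (A.ψ_smooth i)).differentiable (by simp)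
  refine change_var (A.GE5b_measS i j) (A.GE5b_measS j i) (T := fun z => A.φ j (A.ψ i z))
    (T' := fun z => fderiv ℝ (fun z => A.φ j (A.ψ i z)) z)
    (fun z _ => (hd z).hasFDerivAt.hasFDerivWithinAt) (fun z hz y hy e => ?_) ?_
    (rho_continuous i).continuousOn (rho_continuous j).continuousOn
    (fun z hz => rho_trans hz.1 hz.2.2) (hm i _) (hm j _)
    (fun z hz => (φ_mem hz.2.1 hz.2.2).2.symm)
  · refine injOn_ψ (A := A) i hz.1 hy.1 ?_
    rw [← (φ_mem hz.2.1 hz.2.2).2, ← (φ_mem hy.2.1 hy.2.2).2]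
    exact congrArg (A.ψ j) e
  · ext y
    constructor
    · rintro ⟨z, hz, rfl⟩
      refine ⟨(φ_mem hz.2.1 hz.2.2).1, ?_⟩
      rw [Set.mem_preimage, (φ_mem hz.2.1 hz.2.2).2]
      exact ψ_mem i hz.1
    · rintro ⟨hy, h1, h2⟩
      refine ⟨A.φ i (A.ψ j y), ⟨(φ_mem h1 h2).1, ?_⟩, ?_⟩
      · rw [Set.mem_preimage, (φ_mem h1 h2).2]
        exact ψ_mem j hy
      · show A.φ j (A.ψ i (A.φ i (A.ψ j y))) = y
        rw [(φ_mem h1 h2).2, A.left_inv j y hy]

theorem exists_vol (A : Atl N p q k) : ∃ μ, A.IsVol μ := by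
  obtain ⟨l, h0, hl⟩ := glue (Q := fun i => A.M ∩ A.U i) A.GE5b_measQ
    (m := fun i => (wm (ball (0 : Eu p × Eu q) 1) (A.rho i)).map (A.ψ i)) (fun i => by
      rw [Measure.map_apply (A.ψ_smooth i).continuous.measurable (A.GE5b_measQ i).compl]
      exact measure_mono_null (fun z hz hb => hz (ψ_mem i hb)) (wm_compl measurableSet_ball))
    A.GE5b_compat
  have hM : l A.Mᶜ = 0 :=
    measure_mono_null (Set.compl_subset_compl.2 (Set.iUnion_subset fun i => Set.inter_subset_left)) h0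
  refine ⟨l, hM, fun i => Eq.trans (Measure.restrict_congr_set ?_) (hl i)⟩
  have hae : ∀ᵐ m ∂l, m ∈ A.M := hM
  filter_upwards [hae] with m hm
  exact propext ⟨fun h => ⟨hm, h⟩, fun h => h.2⟩

end Atl

end Pool.Agent.P.MP_e0a138_an.AD
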