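import Pool.Agent.P.MP_e0a138_an.GE26b
import Pool.Agent.P.MP_e0a138_an.GE25c
import Pool.Agent.P.MP_e0a138_an.GE21
import Pool.Agent.P.MP_e0a138_an.GE12
import Pool.Agent.P.MP_e0a138_an.GE10
import Pool.Agent.P.MP_e0a138_an.AB8
import Pool.Agent.P.MP_e0a138_an.AT1
import Pool.Agent.P.MP_e0a138_an.GE5b

set_option autoImplicit false
set_option linter.unusedSectionVars false
set_option linter.unusedVariables false

open MeasureTheory Filter Topology Metric Complex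
open scoped ENNReal NNReal ContDiff InnerProductSpace ComplexConjugate

noncomputable section
namespace Pool.Agent.P.MP_e0a138_an.AD

variable {N p q k : ℕ} {W : Type} [NormedAddCommGroup W] [InnerProductSpace ℂ W]
  [FiniteDimensional ℂ W] [CompleteSpace W]
variable {A : Atl N p q k} {ε : Eu N →L[ℝ] W →L[ℂ] W}

namespace Atl
variable {DF DH : (Eu N → W) → Eu N → W} {μ : Measure (Eu N)}

theorem Dir.weyl (hD : A.Dir ε μ DF DH) (hε : IsCAR ε) (hμ : A.IsVol μ) {f : ℝ → ℝ}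
    (hf : Continuous f) (hfc : HasCompactSupport f) (h0 : ∀ x, 0 ≤ f x)
    {R : ℝ → Lp W 2 μ →L[ℂ] Lp W 2 μ} {l : Fin k → Eu q × Eu q → Measure (Eu N × Eu N)}
    {S : ∀ i a, Lp W 2 (l i a) →L[ℂ] Lp W 2 (l i a)}
    (hR : ∀ h, IsRes (A.grM ε μ (Dh DF DH h)) (R h))
    (hS : ∀ i, ∀ᵐ a : Eu q × Eu q, a.1 ∈ ball 0 1 →
      A.IsLeaf (i, a) (l i a) ∧ IsRes (A.grL ε DF (i, a) (l i a)) (S i a)) {L : ℝ≥0∞}
    (hL : L = ∑ i, ∫⁻ a in ball 0 1 ×ˢ Set.univ,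
      tr ((A.plq (i, a)).indicator fun z => A.χ i z.1) (fc f (S i a))) :
    (∀ i, AEMeasurable (fun a => tr ((A.plq (i, a)).indicator fun z => A.χ i z.1)
      (fc f (S i a))) (lio q)) ∧
    L ≠ ⊤ ∧ Tendsto (fun h : ℝ => ENNReal.ofReal (h ^ q) * tr (fun _ => 1) (fc f (R h)))
      (𝓝[>] 0) (𝓝 (ENNReal.ofReal ((2 * Real.pi)⁻¹ ^ q) * L)) := by
  obtain ⟨β, hβ, hc, hn⟩ := exists_window (q := q)
  obtain ⟨φ, hφ⟩ : ∃ φ : ℝ → Fin k × Fin (Module.finrank ℂ W) → Eu p × Eu q × Eu q → ℝ≥0∞,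
      ∀ h j o, φ h j o =
        ENNReal.ofReal (⟪A.wv ε μ β h j o, fc f (R h) (A.wv ε μ β h j o)⟫_ℂ).re :=
    ⟨_, fun _ _ _ => rfl⟩
  obtain ⟨C, d, hd, h1, h2⟩ := hD.trunc hε hμ hβ hc hn hR hf hfc h0 hφ
  obtain ⟨o1, o2, o3, o4⟩ := Om_props p q
  obtain ⟨r, C', -, hu⟩ := A.uf_props hε
  have hlim : ∀ i, ∀ᵐ a : Eu q × Eu q, a ∈ ball (0 : Eu q) 1 ×ˢ (Set.univ : Set (Eu q)) →
      ∃ g : Fin (Module.finrank ℂ W) → Eu p → ℝ≥0∞,
        (∀ e x, Tendsto (fun h => φ h (i, e) (x, a)) (𝓝[>] 0) (𝓝 (g e x))) ∧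
        ∑ e, ∫⁻ x, g e x = tr ((A.plq (i, a)).indicator fun z => A.χ i z.1) (fc f (S i a)) := by
    intro i
    filter_upwards [hS i, A.ae_hd i] with a ha hb hm
    obtain ⟨B, hB⟩ := hb hm.1
    obtain ⟨hl, hr⟩ := ha hm.1
    obtain ⟨c, c0, hc1, hc2⟩ := hD.fc_tendsto hε hμ hB hl hβ hc hn hR hr (Ff_props hf hfc h0).1
    refine ⟨_, fun e ξ => ?_,
      hD.leaf_frame (t := (i, a)) hε hm.1 hl c0 hc1 (hD.essSA_leaf hε hμ hB hl) hr hf hfc h0⟩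
    simp only [hφ]
    exact hc2 _ (hu i ξ _).1 (hu i ξ _).2.1
  have key := final_limit (measurableSet_ball.prod MeasurableSet.univ) o1 o2 o3 o4
    ENNReal.coe_ne_top h1 hlim hd h2
  rw [← hL] at key
  refine ⟨key.1, key.2.1, ?_⟩
  have hp : 0 < 2 * Real.pi := by positivity
  refine (ENNReal.Tendsto.const_mul key.2.2 (Or.inr ENNReal.ofReal_ne_top)).congr' ?_
  filter_upwards [self_mem_nhdsWithin] with h hh
  rw [← mul_assoc, ← ENNReal.ofReal_mul (by positivity), ← mul_pow, ← mul_assoc,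
    inv_mul_cancel₀ hp.ne', one_mul]

/-- the asymptotic formula for the families `T`, `T'` -/
def Good (A : Atl N p q k) {μ : Measure (Eu N)} {l : Fin k → Eu q × Eu q → Measure (Eu N × Eu N)}
    (T : ℝ → Op (L2 W μ)) (T' : ∀ i a, Op (L2 W (l i a))) : Prop :=
  ∃ (τ : ℝ → ℂ) (σ : Fin k → Eu q × Eu q → ℂ),
    (∀ᶠ h in 𝓝[>] 0, HasTr (fun _ => 1) (T h) (τ h)) ∧
    (∀ i, Integrable (σ i) (lio q) ∧ ∀ᵐ a ∂lio q,
      HasTr ((A.plq (i, a)).indicator fun z => A.χ i z.1) (T' i a) (σ i a)) ∧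
    Tendsto (fun h : ℝ => (h : ℂ) ^ q * τ h) (𝓝[>] 0)
      (𝓝 ((2 * Real.pi : ℂ)⁻¹ ^ q * ∑ i, ∫ a, σ i a ∂lio q))

variable {l : Fin k → Eu q × Eu q → Measure (Eu N × Eu N)}

theorem Good.add {T U : ℝ → Op (L2 W μ)} {T' U' : ∀ i a, Op (L2 W (l i a))} (h : A.Good T T')
    (h' : A.Good U U') : A.Good (fun h => T h + U h) fun i a => T' i a + U' i a := by
  obtain ⟨τ, σ, a1, a2, a3⟩ := h
  obtain ⟨τ', σ', b1, b2, b3⟩ := h'
  refine ⟨fun h => τ h + τ' h, fun i a => σ i a + σ' i a, ?_, fun i => ⟨?_, ?_⟩, ?_⟩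
  · filter_upwards [a1, b1] with h x y using x.add y
  · exact (a2 i).1.add (b2 i).1
  · filter_upwards [(a2 i).2, (b2 i).2] with h x y using x.add y
  · simp only [integral_add (a2 _).1 (b2 _).1, Finset.sum_add_distrib, mul_add]
    exact a3.add b3

theorem Good.smul {T : ℝ → Op (L2 W μ)} {T' : ∀ i a, Op (L2 W (l i a))} (h : A.Good T T')
    (c : ℂ) : A.Good (fun h => c • T h) fun i a => c • T' i a := by
  obtain ⟨τ, σ, a1, a2, a3⟩ := h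
  refine ⟨fun h => c * τ h, fun i a => c * σ i a, ?_, fun i => ⟨?_, ?_⟩, ?_⟩
  · filter_upwards [a1] with h x using x.smul c
  · exact (a2 i).1.const_mul c
  · filter_upwards [(a2 i).2] with h x using x.smul c
  · simp only [integral_const_mul, ← Finset.mul_sum, mul_left_comm _ c]
    exact a3.const_mul c

theorem hasTr_leaf {l : Measure (Eu N × Eu N)} {t : Tr q k} (ht : t.2.1 ∈ ball (0 : Eu q) 1)
    (hl : A.IsLeaf t l) {G : Set (Lp W 2 l × Lp W 2 l)} (hG : EssSA G)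
    {S : Lp W 2 l →L[ℂ] Lp W 2 l} (hS : IsRes G S)
    {f : ℝ → ℝ} (hf : Continuous f) (hfc : HasCompactSupport f) (h0 : ∀ x, 0 ≤ f x)
    (h : tr ((A.plq t).indicator fun z => A.χ t.1 z.1) (fc f S) ≠ ⊤) :
    HasTr (W := W) (ν := l) ((A.plq t).indicator fun z => A.χ t.1 z.1) (fc f S)
      ((tr ((A.plq t).indicator fun z => A.χ t.1 z.1) (fc f S)).toReal : ℂ) := by
  obtain ⟨C, hC⟩ := fc_sqrt hf hfc h0
  obtain ⟨Q, q1, q2, -⟩ := hC _ S (IsRes.props hG hS).2.2.2.1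
  have hw : AEStronglyMeasurable ((A.plq t).indicator fun z : Eu N × Eu N => A.χ t.1 z.1) l :=
    (IsLeaf.aesm ht hl (A.χ_smooth t.1).continuous.continuousOn).indicator (measurableSet_plq t)
  have hb : ∀ᵐ z ∂l, |(A.plq t).indicator (fun z : Eu N × Eu N => A.χ t.1 z.1) z| ≤ 1 :=
    Eventually.of_forall fun z => by
      by_cases hz : z ∈ A.plq t
      · rw [Set.indicator_of_mem hz]
        exact (sq_le_one_iff_abs_le_one _).1 (χ_sq_le (plq_fst hz).1 t.1)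
      · rw [Set.indicator_of_notMem hz, abs_zero]; exact zero_le_one
  exact hasTr_of_tr hw hb q1 q2 h

theorem Dir.good_pos (hD : A.Dir ε μ DF DH) (hε : IsCAR ε) (hμ : A.IsVol μ) {f : ℝ → ℝ}
    (hf : Continuous f) (hfc : HasCompactSupport f) (h0 : ∀ x, 0 ≤ f x)
    {R : ℝ → Lp W 2 μ →L[ℂ] Lp W 2 μ} {S : ∀ i a, Lp W 2 (l i a) →L[ℂ] Lp W 2 (l i a)}
    (hR : ∀ h, IsRes (A.grM ε μ (Dh DF DH h)) (R h))
    (hS : ∀ i, ∀ᵐ a : Eu q × Eu q, a.1 ∈ ball 0 1 →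
      A.IsLeaf (i, a) (l i a) ∧ IsRes (A.grL ε DF (i, a) (l i a)) (S i a)) :
    A.Good (W := W) (μ := μ) (l := l) (fun h => fc f (R h)) fun i a => fc f (S i a) := by
  have hm : MeasurableSet (ball (0 : Eu q) 1 ×ˢ (Set.univ : Set (Eu q))) :=
    measurableSet_ball.prod MeasurableSet.univ
  obtain ⟨Lf, hLf⟩ : ∃ Lf : Fin k → Eu q × Eu q → ℝ≥0∞, ∀ i a, Lf i a =
      tr ((A.plq (i, a)).indicator fun z => A.χ i z.1) (fc f (S i a)) := ⟨_, fun _ _ => rfl⟩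
  obtain ⟨t, ht⟩ : ∃ t : ℝ → ℝ≥0∞, ∀ h, t h = tr (fun _ => 1) (fc f (R h)) := ⟨_, fun _ => rfl⟩
  obtain ⟨k1, k2, k3⟩ := hD.weyl hε hμ hf hfc h0 hR hS (L := ∑ i, ∫⁻ a,
    tr ((A.plq (i, a)).indicator fun z => A.χ i z.1) (fc f (S i a)) ∂lio q) rfl
  simp only [← hLf, ← ht] at k1 k2 k3
  have k4 : ∀ i, ∫⁻ a, Lf i a ∂lio q ≠ ⊤ := fun i => ENNReal.sum_ne_top.1 k2 i (Finset.mem_univ i)
  have k5 : ∀ i, ∀ᵐ a ∂lio q, Lf i a < ⊤ := fun i => ae_lt_top' (k1 i) (k4 i)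
  have k6 := ENNReal.mul_ne_top (ENNReal.ofReal_ne_top (r := (2 * Real.pi)⁻¹ ^ q)) k2
  obtain ⟨C, hC⟩ := fc_sqrt hf hfc h0
  refine ⟨fun h => ((t h).toReal : ℂ), fun i a => ((Lf i a).toReal : ℂ), ?_,
    fun i => ⟨(integrable_toReal_of_lintegral_ne_top (k1 i) (k4 i)).ofReal, ?_⟩, ?_⟩
  · filter_upwards [k3.eventually (gt_mem_nhds k6.lt_top), self_mem_nhdsWithin] with h h1 h2
    obtain ⟨Q, q1, q2, -⟩ := hC _ (R h) (IsRes.props (hD.essSA_M hε hμ h) (hR h)).2.2.2.1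
    have h3 : t h ≠ ⊤ := fun h4 => by
      rw [h4, ENNReal.mul_top (ENNReal.ofReal_pos.2 (pow_pos h2 q)).ne'] at h1
      exact lt_irrefl _ h1
    rw [ht] at h3 ⊢
    exact hasTr_of_tr aestronglyMeasurable_const (C := 1)
      (Eventually.of_forall fun _ => abs_one.le) q1 q2 h3
  · filter_upwards [k5 i, ae_restrict_of_ae (hS i), ae_restrict_of_ae (A.ae_hd i),
      ae_restrict_mem hm] with a h1 h2 h3 h4
    obtain ⟨B, hB⟩ := h3 h4.1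
    obtain ⟨hl, hr⟩ := h2 h4.1
    rw [hLf] at h1 ⊢
    exact hasTr_leaf (t := (i, a)) h4.1 hl (hD.essSA_leaf hε hμ hB hl) hr hf hfc h0 h1.ne
  · have h1 := (continuous_ofReal.tendsto _).comp ((ENNReal.tendsto_toReal k6).comp k3)
    have h2 : ∀ i, ∫ a, ((Lf i a).toReal : ℂ) ∂lio q = ((∫⁻ a, Lf i a ∂lio q).toReal : ℂ) :=
      fun i => by rw [← integral_toReal (k1 i) (k5 i)]; exact integral_complex_ofReal
    simp only [h2]
    rw [ENNReal.toReal_mul, ENNReal.toReal_ofReal (by positivity),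
      ENNReal.toReal_sum fun i _ => k4 i] at h1
    push_cast at h1
    refine h1.congr' ?_
    filter_upwards [self_mem_nhdsWithin] with h hh
    simp only [Function.comp]
    rw [ENNReal.toReal_mul, ENNReal.toReal_ofReal (pow_pos hh q).le]
    push_cast
    rfl

end Atl

theorem main (A : Atl N p q k) (ε : Eu N → Op W) (hε : IsCAR ε) :
    (∃ μ, A.IsVol μ) ∧ (∃ d, A.IsD ε d) ∧ ∀ μ d, A.IsVol μ → A.IsD ε d →
    (∃ δ, A.IsAdj ε μ (A.dc ε d 0) δ) ∧ (∃ δ, A.IsAdj ε μ (A.dc ε d 1) δ) ∧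
    ∀ δF δH, A.IsAdj ε μ (A.dc ε d 0) δF → A.IsAdj ε μ (A.dc ε d 1) δH →
    ∀ (DF : (Eu N → W) → Eu N → W) (D : ℝ → (Eu N → W) → Eu N → W),
    (∀ u m, DF u m = A.dc ε d 0 u m + δF u m) →
    (∀ h u m, D h u m = DF u m + (h : ℂ) • (A.dc ε d 1 u m + δH u m)) →
    (∀ h, EssSA (A.graphM ε μ (D h)) ∧ ∃ R, IsRes (A.graphM ε μ (D h)) R) ∧
    (∀ i, ∀ᵐ a ∂lio q, (∃ l, A.IsLeaf (i, a) l) ∧ ∀ l, A.IsLeaf (i, a) l →
      EssSA (A.graphL ε DF (i, a) l) ∧ ∃ S, IsRes (A.graphL ε DF (i, a) l) S) ∧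
    ∀ f : ℝ → ℂ, Continuous f → HasCompactSupport f → (∀ x, f (-x) = f x) →
    ∀ (R : ℝ → Op (L2 W μ)) (l : Fin k → Eu q × Eu q → Measure (Eu N × Eu N))
      (S : ∀ i a, Op (L2 W (l i a))),
    (∀ h, IsRes (A.graphM ε μ (D h)) (R h)) →
    (∀ i, ∀ᵐ a ∂lio q, A.IsLeaf (i, a) (l i a) ∧ IsRes (A.graphL ε DF (i, a) (l i a)) (S i a)) →
    ∃ (τ : ℝ → ℂ) (σ : Fin k → Eu q × Eu q → ℂ),
      (∀ᶠ h in 𝓝[>] 0, HasTr (fun _ => 1) (fn f (R h)) (τ h)) ∧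
      (∀ i, Integrable (σ i) (lio q) ∧ ∀ᵐ a ∂lio q,
        HasTr ((A.plq (i, a)).indicator fun z => A.χ i z.1) (fn f (S i a)) (σ i a)) ∧
      Tendsto (fun h : ℝ => (h : ℂ) ^ q * τ h) (𝓝[>] 0)
        (𝓝 ((2 * Real.pi : ℂ)⁻¹ ^ q * ∑ i, ∫ a, σ i a ∂lio q)) := by
  obtain ⟨ε, rfl⟩ : ∃ ε' : Eu N →L[ℝ] W →L[ℂ] W, ⇑ε' = ε :=
    ⟨LinearMap.toContinuousLinearMap (hε.1.mk' ε), rfl⟩
  have hm : MeasurableSet (ball (0 : Eu q) 1 ×ˢ (Set.univ : Set (Eu q))) :=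
    measurableSet_ball.prod MeasurableSet.univ
  refine ⟨A.exists_vol, A.exists_d hε, fun μ d hμ hd =>
    ⟨(Atl.exists_adjs hd hε hμ).1, (Atl.exists_adjs hd hε hμ).2, ?_⟩⟩
  intro δF δH hF hH DF D e1 e2
  obtain rfl : DF = fun u => A.dc ε d 0 u + δF u := funext fun u => funext (e1 u)
  have hD := Atl.dir_of_adj hd hε hμ hF hH
  obtain rfl : D = Dh (fun u => A.dc ε d 0 u + δF u) fun u => A.dc ε d 1 u + δH u :=
    funext fun h => funext fun u => funext (e2 h u)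
  refine ⟨fun h => ⟨hD.essSA_M hε hμ h, (hD.essSA_M hε hμ h).exists_res⟩, fun i => ?_,
    fun f hf hfc _ R l S hR hS => ?_⟩
  · refine (ae_restrict_iff' hm).2 ?_
    filter_upwards [A.ae_hd i] with a ha hm
    obtain ⟨B, hB⟩ := ha hm.1
    exact ⟨hB.exists_leaf, fun l hl =>
      ⟨hD.essSA_leaf hε hμ hB hl, (hD.essSA_leaf hε hμ hB hl).exists_res⟩⟩
  · have key : ∀ c, A.Good (W := W) (μ := μ) (l := l) (fun h => fc (pp c f) (R h))
        fun i a => fc (pp c f) (S i a) := fun c =>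
      hD.good_pos (R := R) (l := l) (S := S) hε hμ (pp_props c hf hfc).1 (pp_props c hf hfc).2.1
        (pp_props c hf hfc).2.2 hR
        (fun i => ((ae_restrict_iff' hm).1 (hS i)).mono fun a ha h => ha ⟨h, trivial⟩)
    simp only [fn_eq hf hfc]
    exact (((key 1).add ((key (-1)).smul (-1))).add ((key (-I)).smul I)).add ((key I).smul (-I))

end Pool.Agent.P.MP_e0a138_an.AD
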