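import Pool.Agent.P.MP_e0a138_an.AB7

set_option autoImplicit false
set_option linter.unusedSectionVars false
set_option linter.unusedVariables false

open MeasureTheory Filter Topology Metric Complex
open scoped ENNReal NNReal ContDiff InnerProductSpace ComplexConjugate

noncomputable section
namespace Pool.Agent.P.MP_e0a138_an.AD

variable {N p q k : ℕ} {W : Type} [NormedAddCommGroup W] [InnerProductSpace ℂ W]
  [FiniteDimensional ℂ W] [CompleteSpace W]
variable {E : Type} [NormedAddCommGroup E] [NormedSpace ℝ E] [FiniteDimensional ℝ E]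
  [MeasureSpace E] [BorelSpace E] [(volume : Measure E).IsAddHaarMeasure] {κ : Type} [Fintype κ]

theorem wm_ae {O : Set E} (hO : MeasurableSet O) {ρ : E → ℝ} : ∀ᵐ x ∂wm O ρ, x ∈ O := by
  exact (withDensity_absolutelyContinuous _ _).ae_le (ae_restrict_mem hO)

theorem wm_compl {O : Set E} (hO : MeasurableSet O) {ρ : E → ℝ} : wm O ρ Oᶜ = 0 := by
  exact wm_ae hO

theorem an1_aem {O : Set E} (hO : MeasurableSet O) {ρ : E → ℝ} (hρ : ContinuousOn ρ O) :
    AEMeasurable (fun x => ENNReal.ofReal (ρ x)) (volume.restrict O) :=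
  (hρ.aemeasurable hO).ennreal_ofReal

theorem lintegral_wm {O : Set E} (hO : MeasurableSet O) {ρ : E → ℝ} (hρ : ContinuousOn ρ O)
    (f : E → ℝ≥0∞) : ∫⁻ x, f x ∂wm O ρ = ∫⁻ x in O, ENNReal.ofReal (ρ x) * f x := by
  exact lintegral_withDensity_eq_lintegral_mul_non_measurable₀ _ (an1_aem hO hρ)
    (Eventually.of_forall fun _ => ENNReal.ofReal_lt_top) f

theorem integral_wm {F : Type} [NormedAddCommGroup F] [NormedSpace ℝ F] {O : Set E}
    (hO : MeasurableSet O) {ρ : E → ℝ} (hρ : ContinuousOn ρ O) (h0 : ∀ x ∈ O, 0 ≤ ρ x)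
    (f : E → F) : ∫ x, f x ∂wm O ρ = ∫ x in O, ρ x • f x := by
  rw [wm, integral_withDensity_eq_integral_toReal_smul₀ (an1_aem hO hρ)
    (Eventually.of_forall fun _ => ENNReal.ofReal_lt_top) f]
  exact setIntegral_congr_fun hO fun x hx => by
    simp only [ENNReal.toReal_ofReal (h0 x hx)]

theorem ae_wm_iff {O : Set E} (hO : MeasurableSet O) {ρ : E → ℝ} (hρ : ContinuousOn ρ O)
    (h0 : ∀ x ∈ O, 0 < ρ x) {P : E → Prop} : (∀ᵐ x ∂wm O ρ, P x) ↔ ∀ᵐ x, x ∈ O → P x := by
  rw [wm, ae_withDensity_iff' (an1_aem hO hρ), ae_restrict_iff'₀ hO.nullMeasurableSet]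
  refine eventually_congr (Eventually.of_forall fun x => forall_congr' fun hx => ?_)
  exact ⟨fun h => h (ENNReal.ofReal_pos.2 (h0 x hx)).ne', fun h _ => h⟩

theorem aesm_wm {F : Type} [NormedAddCommGroup F] {O : Set E} (hO : MeasurableSet O) {ρ : E → ℝ}
    {f : E → F} (hf : ContinuousOn f O) : AEStronglyMeasurable f (wm O ρ) := by
  exact (hf.aestronglyMeasurable hO).mono_ac (withDensity_absolutelyContinuous _ _)

theorem an1_restr {O K : Set E} (hK : MeasurableSet K) (hKO : K ⊆ O) (ρ : E → ℝ) :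
    (wm O ρ).restrict K = (volume.restrict K).withDensity fun x => ENNReal.ofReal (ρ x) := by
  rw [wm, restrict_withDensity hK, Measure.restrict_restrict_of_subset hKO]

theorem an1_up {O K : Set E} (hK : IsCompact K) (hKO : K ⊆ O) {ρ : E → ℝ}
    (hρ : ContinuousOn ρ O) :
    ∃ C : ℝ≥0, (wm O ρ).restrict K ≤ (C : ℝ≥0∞) • (volume : Measure E).restrict K := by
  obtain ⟨C, hC⟩ := hK.exists_bound_of_continuousOn (hρ.mono hKO)
  refine ⟨C.toNNReal, ?_⟩
  rw [an1_restr hK.measurableSet hKO, ← withDensity_const]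
  refine withDensity_mono ?_
  filter_upwards [ae_restrict_mem hK.measurableSet] with x hx
  exact ENNReal.ofReal_le_ofReal ((le_abs_self _).trans (hC x hx))

theorem an1_low {O K : Set E} (hK : IsCompact K) (hKO : K ⊆ O) {ρ : E → ℝ}
    (hρ : ContinuousOn ρ O) (h0 : ∀ x ∈ O, 0 < ρ x) :
    ∃ C : ℝ≥0∞, C ≠ ⊤ ∧ (volume : Measure E).restrict K ≤ C • (wm O ρ).restrict K := by
  rcases K.eq_empty_or_nonempty with rfl | hne
  · exact ⟨0, ENNReal.zero_ne_top, by simp⟩
  obtain ⟨x0, hx0, hm⟩ := hK.exists_isMinOn hne (hρ.mono hKO)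
  have hp : ENNReal.ofReal (ρ x0) ≠ 0 := (ENNReal.ofReal_pos.2 (h0 x0 (hKO hx0))).ne'
  have h1 : ENNReal.ofReal (ρ x0) • (volume : Measure E).restrict K ≤ (wm O ρ).restrict K := by
    rw [an1_restr hK.measurableSet hKO, ← withDensity_const]
    refine withDensity_mono ?_
    filter_upwards [ae_restrict_mem hK.measurableSet] with x hx
    exact ENNReal.ofReal_le_ofReal (hm hx)
  refine ⟨(ENNReal.ofReal (ρ x0))⁻¹, ENNReal.inv_ne_top.2 hp, fun s => ?_⟩
  have h2 := h1 s
  rw [Measure.smul_apply, smul_eq_mul] at h2 ⊢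
  calc (volume : Measure E).restrict K s
      = (ENNReal.ofReal (ρ x0))⁻¹ * (ENNReal.ofReal (ρ x0) * (volume : Measure E).restrict K s) := by
        rw [← mul_assoc, ENNReal.inv_mul_cancel hp ENNReal.ofReal_ne_top, one_mul]
    _ ≤ _ := by gcongr

theorem memLp_wm_iff {O K : Set E} (hO : MeasurableSet O) (hK : IsCompact K) (hKO : K ⊆ O)
    {ρ : E → ℝ} (hρ : ContinuousOn ρ O) (h0 : ∀ x ∈ O, 0 < ρ x) {v : E → W}
    (hv : ∀ x ∉ K, v x = 0) : MemLp v 2 (wm O ρ) ↔ MemLp v 2 volume := by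
  have e : v = K.indicator v := by
    funext x
    by_cases hx : x ∈ K
    · rw [Set.indicator_of_mem hx]
    · rw [Set.indicator_of_notMem hx, hv x hx]
  obtain ⟨C, hC⟩ := an1_up hK hKO hρ
  obtain ⟨c, hc, hc'⟩ := an1_low hK hKO hρ h0
  rw [e, memLp_indicator_iff_restrict hK.measurableSet,
    memLp_indicator_iff_restrict hK.measurableSet]
  exact ⟨fun h => h.of_measure_le_smul hc hc', fun h => h.of_measure_le_smul ENNReal.coe_ne_top hC⟩

theorem lintegral_wm_le {O K : Set E} (hO : MeasurableSet O) (hK : IsCompact K) (hKO : K ⊆ O)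
    {ρ : E → ℝ} (hρ : ContinuousOn ρ O) : ∃ C : ℝ≥0, ∀ f : E → ℝ≥0∞,
      (∀ x ∈ O, x ∉ K → f x = 0) → ∫⁻ x, f x ∂wm O ρ ≤ C * ∫⁻ x in K, f x := by
  obtain ⟨C, hC⟩ := an1_up hK hKO hρ
  refine ⟨C, fun f hf => ?_⟩
  have e : f =ᵐ[wm O ρ] K.indicator f := by
    filter_upwards [wm_ae hO] with x hxO
    by_cases hx : x ∈ K
    · rw [Set.indicator_of_mem hx]
    · rw [Set.indicator_of_notMem hx, hf x hxO hx]
  rw [lintegral_congr_ae e, lintegral_indicator hK.measurableSet]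
  refine (lintegral_mono' hC le_rfl).trans (le_of_eq ?_)
  rw [lintegral_smul_measure, smul_eq_mul]

theorem memLp_wm_of_cpt {O K : Set E} (hO : MeasurableSet O) (hK : IsCompact K) (hKO : K ⊆ O)
    {ρ : E → ℝ} (hρ : ContinuousOn ρ O) {v : E → W} (hc : ContinuousOn v O)
    (hv : ∀ x ∈ O, x ∉ K → v x = 0) : MemLp v 2 (wm O ρ) := by
  obtain ⟨C, hC⟩ := an1_up hK hKO hρ
  have e : v =ᵐ[wm O ρ] K.indicator v := by
    filter_upwards [wm_ae hO] with x hxO
    by_cases hx : x ∈ K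
    · rw [Set.indicator_of_mem hx]
    · rw [Set.indicator_of_notMem hx, hv x hxO hx]
  rw [memLp_congr_ae e, memLp_indicator_iff_restrict hK.measurableSet]
  refine MemLp.of_measure_le_smul ENNReal.coe_ne_top hC ?_
  obtain ⟨B, hB⟩ := hK.exists_bound_of_continuousOn (hc.mono hKO)
  have : IsFiniteMeasure ((volume : Measure E).restrict K) :=
    isFiniteMeasure_restrict.2 hK.measure_lt_top.ne
  exact MemLp.of_bound ((hc.mono hKO).aestronglyMeasurable hK.measurableSet) B
    ((ae_restrict_mem hK.measurableSet).mono hB)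

end Pool.Agent.P.MP_e0a138_an.AD
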