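import Pool.Agent.P.MP_e0a138_an.AN9

set_option autoImplicit false
set_option linter.unusedSectionVars false
set_option linter.unusedVariables false

open MeasureTheory Filter Topology Metric Complex
open scoped ENNReal NNReal ContDiff InnerProductSpace ComplexConjugate

noncomputable section
namespace Pool.Agent.P.MP_e0a138_an.AD

variable {N p q k : ℕ} {W : Type} [NormedAddCommGroup W] [InnerProductSpace ℂ W]
  [FiniteDimensional ℂ W] [CompleteSpace W]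

theorem an10_wt (h : ℝ) (ζ : Eu p × Eu q) : ‖ζ.1‖ ^ 2 + ‖(2 * Real.pi * h) • ζ.2‖ ^ 2 ≤
    ∑ a, (2 * Real.pi * (⟪ζ.1, (cbh h a : Eu p × Eu q).1⟫_ℝ +
      ⟪ζ.2, (cbh h a : Eu p × Eu q).2⟫_ℝ)) ^ 2 := by
  rw [Fintype.sum_sum_type, norm_sq_bs, norm_sq_bs]
  refine add_le_add (Finset.sum_le_sum fun a _ => ?_) (le_of_eq (Finset.sum_congr rfl fun a _ => ?_))
  · simp only [cbh, Sum.elim_inl, inner_zero_right, add_zero]
    rw [real_inner_comm, mul_pow]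
    have h1 : 1 ≤ (2 * Real.pi) ^ 2 := one_le_pow₀ (by linarith [Real.pi_gt_three])
    exact le_mul_of_one_le_left (sq_nonneg _) h1
  · simp only [cbh, Sum.elim_inr, inner_zero_right, zero_add, real_inner_smul_right]
    rw [real_inner_comm]
    ring

theorem an10_e (t : ℝ) :
    ‖(2 * Real.pi * I * (t : ℂ))‖ₑ ^ 2 = ENNReal.ofReal ((2 * Real.pi * t) ^ 2) := by
  have e : (2 * Real.pi * I * (t : ℂ)) = ((2 * Real.pi * t : ℝ) : ℂ) * I := by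
    push_cast
    ring
  rw [e, ← ofReal_norm, ← ENNReal.ofReal_pow (norm_nonneg _), norm_mul, norm_I, mul_one,
    Complex.norm_real, Real.norm_eq_abs, sq_abs]

theorem an10_pt {F : Eu p × Eu q → W} (hF : ContDiff ℝ ∞ F) (hc : HasCompactSupport F) (h : ℝ)
    (ζ : Eu p × Eu q) :
    ENNReal.ofReal (‖ζ.1‖ ^ 2 + ‖(2 * Real.pi * h) • ζ.2‖ ^ 2) * ‖FT F ζ‖ₑ ^ 2 ≤
      ∑ a, ‖FT (fun z => fderiv ℝ F z (cbh h a)) ζ‖ₑ ^ 2 := by
  refine (mul_le_mul_left (ENNReal.ofReal_le_ofReal (an10_wt h ζ)) _).trans (le_of_eq ?_)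
  rw [ENNReal.ofReal_sum_of_nonneg fun _ _ => sq_nonneg _, Finset.sum_mul]
  refine Finset.sum_congr rfl fun a _ => ?_
  rw [FT_fderiv hF hc, enorm_smul, ← an10_e]
  exact (mul_pow _ _ _).symm

theorem an10_int {F : Eu p × Eu q → W} (hF : ContDiff ℝ ∞ F) (hc : HasCompactSupport F) (h : ℝ) :
    ∫⁻ ζ : Eu p × Eu q, ENNReal.ofReal (‖ζ.1‖ ^ 2 + ‖(2 * Real.pi * h) • ζ.2‖ ^ 2) *
      ‖FT F ζ‖ₑ ^ 2 ≤ ∑ a, ∫⁻ z, ‖fderiv ℝ F z (cbh h a)‖ₑ ^ 2 := by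
  have h1 : ∀ w, Continuous fun z => fderiv ℝ F z w := fun w =>
    (hF.continuous_fderiv (by simp)).clm_apply continuous_const
  have h2 : ∀ w, HasCompactSupport fun z => fderiv ℝ F z w := fun w => hc.fderiv_apply ℝ w
  have h3 := fun w => (h1 w).integrable_of_hasCompactSupport (μ := volume) (h2 w)
  refine (lintegral_mono (an10_pt hF hc h)).trans (le_of_eq ?_)
  rw [lintegral_finsetSum _ fun a _ => (FT_continuous (h3 _)).enorm.measurable.pow_const 2]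
  exact Finset.sum_congr rfl fun a _ => plancherel2 (h3 _) ((h1 _).memLp_of_hasCompactSupport (h2 _))

theorem an10_dbw {β : Eu q → ℝ} (hβ : ContDiff ℝ ∞ β) (h : ℝ) (y : Eu q) (a : Fin p ⊕ Fin q)
    (z : Eu p × Eu q) :
    fderiv ℝ (fun z : Eu p × Eu q => bw β h y (ContinuousLinearMap.id ℝ _) z.2) z (cbh h a) =
      h / sc h * bw (fun t => fderiv ℝ β t (cb a : Eu p × Eu q).2) h y
        (ContinuousLinearMap.id ℝ _) z.2 := by
  have h1 : HasFDerivAt (fun z : Eu p × Eu q => (sc h)⁻¹ • (z.2 - y))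
      ((sc h)⁻¹ • ContinuousLinearMap.snd ℝ (Eu p) (Eu q)) z :=
    ((hasFDerivAt_snd (𝕜 := ℝ) (p := z)).sub_const y).const_smul (sc h)⁻¹
  have h2 := ((hβ.differentiable (by simp) _).hasFDerivAt.comp z h1).const_mul (√(sc h ^ q))⁻¹
  have h3 : fderiv ℝ (fun z : Eu p × Eu q => bw β h y (ContinuousLinearMap.id ℝ _) z.2) z = _ :=
    h2.fderiv
  have h4 : (cbh h a : Eu p × Eu q).2 = h • (cb a : Eu p × Eu q).2 := by
    rcases a with a | a <;> simp [cbh, cb]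
  rw [h3]
  simp only [_root_.smul_apply, ContinuousLinearMap.comp_apply,
    ContinuousLinearMap.coe_snd', h4, map_smul, smul_eq_mul, bw, ContinuousLinearMap.id_apply]
  ring

theorem an10_sq (x y : ℝ≥0∞) : (x + y) ^ 2 ≤ 2 * (x ^ 2 + y ^ 2) := by
  have := ENNReal.rpow_add_le_mul_rpow_add_rpow x y (p := 2) (by norm_num)
  norm_num at this
  exact_mod_cast this

theorem an10_d {β : Eu q → ℝ} (hβ : ContDiff ℝ ∞ β) {h : ℝ} (h0 : 0 < h) (h1 : h ≤ 1)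
    {G : Eu p × Eu q → W} (hG : ContDiff ℝ ∞ G) (y : Eu q) (a : Fin p ⊕ Fin q) (z : Eu p × Eu q) :
    ‖fderiv ℝ (fun z => (bw β h y (ContinuousLinearMap.id ℝ _) z.2 : ℂ) • G z) z (cbh h a)‖ₑ ^ 2 ≤
      2 * (‖bw (fun t => fderiv ℝ β t (cb a : Eu p × Eu q).2) h y
          (ContinuousLinearMap.id ℝ _) z.2‖ₑ ^ 2 * ‖G z‖ₑ ^ 2 +
        ‖bw β h y (ContinuousLinearMap.id ℝ _) z.2‖ₑ ^ 2 * ‖fderiv ℝ G z (cbh h a)‖ₑ ^ 2) := by
  have hb : DifferentiableAt ℝ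
      (fun z : Eu p × Eu q => bw β h y (ContinuousLinearMap.id ℝ _) z.2) z :=
    ((contDiff_bw hβ h y _).comp contDiff_snd).differentiable (by simp) z
  have hb' : DifferentiableAt ℝ
      (fun z : Eu p × Eu q => (bw β h y (ContinuousLinearMap.id ℝ _) z.2 : ℂ)) z :=
    ofRealCLM.differentiableAt.comp z hb
  rw [fderiv_csmul hb' (hG.differentiable (by simp) z), fderiv_ofReal hb, an10_dbw hβ,
    ← mul_pow, ← mul_pow]
  refine le_trans (pow_le_pow_left' ((enorm_add_le _ _).trans ?_) 2) (an10_sq _ _)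
  have e : ∀ r : ℝ, ‖(r : ℂ)‖ₑ = ‖r‖ₑ := fun r => by
    rw [← ofReal_norm, ← ofReal_norm, Complex.norm_real]
  rw [enorm_smul, enorm_smul, e, e, enorm_mul]
  refine add_le_add (mul_le_mul_left (mul_le_of_le_one_left' ?_) _) le_rfl
  rw [Real.enorm_eq_ofReal (div_pos h0 (sc_pos h0)).le]
  exact ENNReal.ofReal_le_one.2 (div_sc_le_one h0 h1)

theorem an10_meas {γ : Eu q → ℝ} (hγ : Continuous γ) (h : ℝ) {g : Eu p × Eu q → W}
    (hg : Continuous g) : Measurable fun x : Eu q × Eu p × Eu q =>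
      ‖bw γ h x.1 (ContinuousLinearMap.id ℝ _) x.2.2‖ₑ ^ 2 * ‖g x.2‖ₑ ^ 2 := by
  have h1 : Continuous fun x : Eu q × Eu p × Eu q =>
      bw γ h x.1 (ContinuousLinearMap.id ℝ _) x.2.2 := by
    unfold bw
    fun_prop
  exact (h1.enorm.measurable.pow_const 2).mul ((hg.comp continuous_snd).enorm.measurable.pow_const 2)

theorem an10_m1 {γ : Eu q → ℝ} (hγ : Continuous γ) (h : ℝ) {g : Eu p × Eu q → W}
    (hg : Continuous g) (y : Eu q) : Measurable fun z : Eu p × Eu q =>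
      ‖bw γ h y (ContinuousLinearMap.id ℝ _) z.2‖ₑ ^ 2 * ‖g z‖ₑ ^ 2 := by
  have h1 : Continuous fun z : Eu p × Eu q => bw γ h y (ContinuousLinearMap.id ℝ _) z.2 := by
    unfold bw
    fun_prop
  exact (h1.enorm.measurable.pow_const 2).mul (hg.enorm.measurable.pow_const 2)

theorem an10_m2 {γ : Eu q → ℝ} (hγ : Continuous γ) (h : ℝ) {g : Eu p × Eu q → W}
    (hg : Continuous g) : Measurable fun y : Eu q => ∫⁻ z : Eu p × Eu q,
      ‖bw γ h y (ContinuousLinearMap.id ℝ _) z.2‖ₑ ^ 2 * ‖g z‖ₑ ^ 2 :=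
  (an10_meas hγ h hg).lintegral_prod_right'

theorem an10_swap {γ : Eu q → ℝ} (hγ : Continuous γ) {h : ℝ} (h0 : 0 < h) {g : Eu p × Eu q → W}
    (hg : Continuous g) :
    ∫⁻ y, ∫⁻ z : Eu p × Eu q, ‖bw γ h y (ContinuousLinearMap.id ℝ _) z.2‖ₑ ^ 2 * ‖g z‖ₑ ^ 2 =
      (∫⁻ t, ‖γ t‖ₑ ^ 2) * ∫⁻ z, ‖g z‖ₑ ^ 2 := by
  rw [lintegral_lintegral_swap (an10_meas hγ h hg).aemeasurable,
    ← lintegral_const_mul _ (hg.enorm.measurable.pow_const 2)]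
  refine lintegral_congr fun z => ?_
  rw [lintegral_mul_const' _ _ (ENNReal.pow_ne_top enorm_ne_top), integral_bw_sq' hγ h0]

theorem Lam_tail {β : Eu q → ℝ} (hβ : ContDiff ℝ ∞ β) (hc : HasCompactSupport β) (p : ℕ) :
    ∃ C : ℝ≥0, ∀ h ∈ Set.Ioc (0 : ℝ) 1, ∀ G : Eu p × Eu q → W, ContDiff ℝ ∞ G →
      HasCompactSupport G →
      ∫⁻ o, ENNReal.ofReal (‖o.1‖ ^ 2 + ‖o.2.2‖ ^ 2) * ‖Lam β h G o‖ₑ ^ 2 ≤
        ENNReal.ofReal ((2 * Real.pi * h) ^ q) * C *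
          ((∑ a, ∫⁻ z, ‖fderiv ℝ G z (cbh h a)‖ₑ ^ 2) + ∫⁻ z, ‖G z‖ₑ ^ 2) := by
  have hd : ∀ w, Continuous fun t => fderiv ℝ β t w := fun w =>
    (hβ.continuous_fderiv (by simp)).clm_apply continuous_const
  have hfin : 2 * ((∑ a : Fin p ⊕ Fin q, ∫⁻ t, ‖fderiv ℝ β t (cb a : Eu p × Eu q).2‖ₑ ^ 2) +
      ∫⁻ t, ‖β t‖ₑ ^ 2) ≠ ⊤ := by
    refine ENNReal.mul_ne_top (by simp) (ENNReal.add_ne_top.2
      ⟨ENNReal.sum_ne_top.2 fun a _ => ?_, ?_⟩)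
    · rw [lintegral_window (hd _) (hc.fderiv_apply ℝ _)]
      exact ENNReal.ofReal_ne_top
    · rw [lintegral_window hβ.continuous hc]
      exact ENNReal.ofReal_ne_top
  refine ⟨(2 * ((∑ a : Fin p ⊕ Fin q, ∫⁻ t, ‖fderiv ℝ β t (cb a : Eu p × Eu q).2‖ₑ ^ 2) +
      ∫⁻ t, ‖β t‖ₑ ^ 2)).toNNReal, fun h hh G hG hGc => ?_⟩
  rw [ENNReal.coe_toNNReal hfin]
  have hI : Integrable G := hG.continuous.integrable_of_hasCompactSupport hGc
  have hD : ∀ w, Continuous fun z => fderiv ℝ G z w := fun w =>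
    (hG.continuous_fderiv (by simp)).clm_apply continuous_const
  have hm : Measurable fun o : Eu p × Eu q × Eu q =>
      ENNReal.ofReal (‖o.1‖ ^ 2 + ‖o.2.2‖ ^ 2) * ‖Lam β h G o‖ₑ ^ 2 :=
    (ENNReal.continuous_ofReal.comp (by fun_prop)).measurable.mul
      ((Lam_continuous hβ.continuous hc h hI).enorm.measurable.pow_const 2)
  have hpos : 2 * Real.pi * h ≠ 0 := (mul_pos Real.two_pi_pos hh.1).ne'
  rw [lintegral_scale hh.1 hm, mul_assoc (ENNReal.ofReal _)]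
  refine mul_le_mul_right ?_ _
  have m1 := fun a : Fin p ⊕ Fin q =>
    an10_m2 (hd (cb a : Eu p × Eu q).2) h hG.continuous
  have m2 := fun a : Fin p ⊕ Fin q => an10_m2 hβ.continuous h (hD (cbh h a))
  have key : ∀ y, ∫⁻ ζ : Eu p × Eu q, ENNReal.ofReal (‖ζ.1‖ ^ 2 + ‖(2 * Real.pi * h) • ζ.2‖ ^ 2) *
      ‖Lam β h G (ζ.1, y, (2 * Real.pi * h) • ζ.2)‖ₑ ^ 2 ≤
      ∑ a : Fin p ⊕ Fin q, 2 * ((∫⁻ z : Eu p × Eu q,
        ‖bw (fun t => fderiv ℝ β t (cb a : Eu p × Eu q).2) h y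
          (ContinuousLinearMap.id ℝ _) z.2‖ₑ ^ 2 * ‖G z‖ₑ ^ 2) + ∫⁻ z : Eu p × Eu q,
        ‖bw β h y (ContinuousLinearMap.id ℝ _) z.2‖ₑ ^ 2 * ‖fderiv ℝ G z (cbh h a)‖ₑ ^ 2) := by
    intro y
    have hF : ContDiff ℝ ∞ fun z : Eu p × Eu q =>
        (bw β h y (ContinuousLinearMap.id ℝ _) z.2 : ℂ) • G z :=
      (ofRealCLM.contDiff.comp ((contDiff_bw hβ h y _).comp contDiff_snd)).smul hG
    have hFc : HasCompactSupport fun z : Eu p × Eu q =>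
        (bw β h y (ContinuousLinearMap.id ℝ _) z.2 : ℂ) • G z := hGc.smul_left
    simp only [norm_Lam β hh.1, inv_smul_smul₀ hpos]
    refine (an10_int hF hFc h).trans (Finset.sum_le_sum fun a _ => ?_)
    refine (lintegral_mono (an10_d hβ hh.1 hh.2 hG y a)).trans (le_of_eq ?_)
    rw [lintegral_const_mul' _ _ (by simp),
      lintegral_add_left (an10_m1 (hd (cb a : Eu p × Eu q).2) h hG.continuous y)]
  refine (lintegral_mono key).trans ?_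
  rw [lintegral_finsetSum _ fun a _ => ((m1 a).fun_add (m2 a)).const_mul 2]
  have e : ∀ a : Fin p ⊕ Fin q, ∫⁻ y, 2 * ((∫⁻ z : Eu p × Eu q,
        ‖bw (fun t => fderiv ℝ β t (cb a : Eu p × Eu q).2) h y
          (ContinuousLinearMap.id ℝ _) z.2‖ₑ ^ 2 * ‖G z‖ₑ ^ 2) + ∫⁻ z : Eu p × Eu q,
        ‖bw β h y (ContinuousLinearMap.id ℝ _) z.2‖ₑ ^ 2 * ‖fderiv ℝ G z (cbh h a)‖ₑ ^ 2) =
      2 * ((∫⁻ t, ‖fderiv ℝ β t (cb a : Eu p × Eu q).2‖ₑ ^ 2) * (∫⁻ z, ‖G z‖ₑ ^ 2) +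
        (∫⁻ t, ‖β t‖ₑ ^ 2) * ∫⁻ z, ‖fderiv ℝ G z (cbh h a)‖ₑ ^ 2) := fun a => by
    rw [lintegral_const_mul' _ _ (by simp), lintegral_add_left (m1 a),
      an10_swap (hd _) hh.1 hG.continuous, an10_swap hβ.continuous hh.1 (hD _)]
  simp only [e]
  rw [← Finset.mul_sum, Finset.sum_add_distrib, ← Finset.sum_mul, ← Finset.mul_sum, mul_assoc,
    add_mul]
  exact mul_le_mul_right (add_le_add (mul_le_mul_right le_add_self _)
    (mul_le_mul_right le_self_add _)) _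

end Pool.Agent.P.MP_e0a138_an.AD
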