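import Pool.Agent.P.MP_e0a138_an.ABase

set_option autoImplicit false
set_option linter.unusedSectionVars false
set_option linter.unusedVariables false

open MeasureTheory Filter Topology Metric Complex
open scoped ENNReal NNReal ContDiff InnerProductSpace ComplexConjugate

noncomputable section
namespace Pool.Agent.P.MP_e0a138_an.AD

variable {N p q k : ℕ} {W : Type} [NormedAddCommGroup W] [InnerProductSpace ℂ W]
  [FiniteDimensional ℂ W] [CompleteSpace W]

theorem AN11a_taylor {E : Type} [NormedAddCommGroup E] [NormedSpace ℝ E] {τ : E → E}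
    (hτ : ContDiff ℝ ∞ τ) (y : E) :
    ∃ C : ℝ, 0 ≤ C ∧ ∀ᶠ w in 𝓝 (0 : E), ‖τ (y + w) - τ y - fderiv ℝ τ y w‖ ≤ C * ‖w‖ ^ 2 := by
  have h1 : ContDiffAt ℝ 1 (fderiv ℝ τ) y :=
    (hτ.fderiv_right (m := 1) (by norm_cast)).contDiffAt
  obtain ⟨K, s, hs, hK⟩ := h1.exists_lipschitzOnWith
  obtain ⟨r, hr, hrs⟩ := Metric.mem_nhds_iff.1 hs
  refine ⟨K, K.2, ?_⟩
  filter_upwards [Metric.ball_mem_nhds (0 : E) hr] with w hw
  have hw' : ‖w‖ < r := by simpa using hw
  have hd : Differentiable ℝ τ := hτ.differentiable (by simp)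
  have hsub : closedBall y ‖w‖ ⊆ s := (closedBall_subset_ball hw').trans hrs
  have hb : ∀ x ∈ closedBall y ‖w‖, ‖fderiv ℝ τ x - fderiv ℝ τ y‖ ≤ K * ‖w‖ := by
    intro x hx
    have := hK.dist_le_mul x (hsub hx) y (hsub (mem_closedBall_self (norm_nonneg _)))
    rw [dist_eq_norm] at this
    exact this.trans (mul_le_mul_of_nonneg_left (mem_closedBall.1 hx) K.2)
  have := (convex_closedBall y ‖w‖).norm_image_sub_le_of_norm_hasFDerivWithin_le'
    (f := τ) (f' := fderiv ℝ τ) (φ := fderiv ℝ τ y) (x := y) (y := y + w)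
    (fun x _ => (hd x).hasFDerivAt.hasFDerivWithinAt) hb (mem_closedBall_self (norm_nonneg _))
    (by simp [mem_closedBall, dist_eq_norm])
  simp only [add_sub_cancel_left] at this
  calc _ ≤ K * ‖w‖ * ‖w‖ := this
    _ = K * ‖w‖ ^ 2 := by ring

theorem AN11a_norm_exp (a : ℝ) : ‖cexp (I * (a : ℂ))‖ = 1 := by
  rw [mul_comm I, Complex.norm_exp_ofReal_mul_I]

theorem gram_pt {β : Eu q → ℝ} (hβ : Continuous β) (hc : HasCompactSupport β) {Φ : Eu q → ℂ}
    (hΦ : Continuous Φ) {τ : Eu q → Eu q} (hτ : ContDiff ℝ ∞ τ) (y η y' η' : Eu q)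
    (B B' : Eu q ≃L[ℝ] Eu q) (hcons : Φ y ≠ 0 → τ y = y' →
      η = ContinuousLinearMap.adjoint (fderiv ℝ τ y) η' ∧
      (B' : Eu q →L[ℝ] Eu q) = fderiv ℝ τ y ∘L (B : Eu q →L[ℝ] Eu q)) (t : Eu q) :
    Tendsto (fun h : ℝ => ((β t * β ((sc h)⁻¹ • B'.symm (τ (y + sc h • B t) - y')) : ℝ) : ℂ) *
      cexp (I * (((⟪η', τ (y + sc h • B t) - y'⟫_ℝ - ⟪η, sc h • B t⟫_ℝ) / h : ℝ) : ℂ)) *
      Φ (y + sc h • B t)) (𝓝[>] 0)
      (𝓝 (((β t ^ 2 : ℝ) : ℂ) * {Y | τ Y = y'}.indicator Φ y)) := by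
  have hw : Tendsto (fun h : ℝ => sc h • B t) (𝓝[>] 0) (𝓝 0) := by
    simpa using sc_tendsto.smul_const (B t)
  have hyw : Tendsto (fun h : ℝ => y + sc h • B t) (𝓝[>] 0) (𝓝 y) := by
    simpa using hw.const_add y
  have hΦt : Tendsto (fun h : ℝ => Φ (y + sc h • B t)) (𝓝[>] 0) (𝓝 (Φ y)) :=
    (hΦ.tendsto y).comp hyw
  have hpos : ∀ᶠ h : ℝ in 𝓝[>] 0, 0 < h := eventually_mem_nhdsWithin
  by_cases h0 : Φ y = 0
  · have e0 : {Y | τ Y = y'}.indicator Φ y = 0 := by
      by_cases hy : y ∈ {Y | τ Y = y'}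
      · rw [Set.indicator_of_mem hy, h0]
      · exact Set.indicator_of_notMem hy _
    rw [e0, mul_zero]
    obtain ⟨C, hC⟩ := hβ.bounded_above_of_compact_support hc
    refine squeeze_zero_norm (a := fun h : ℝ => C * C * ‖Φ (y + sc h • B t)‖) (fun h => ?_) ?_
    · rw [norm_mul, norm_mul, AN11a_norm_exp, mul_one, Complex.norm_real, norm_mul]
      exact mul_le_mul_of_nonneg_right
        (mul_le_mul (hC _) (hC _) (norm_nonneg _) ((norm_nonneg _).trans (hC t))) (norm_nonneg _)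
    · have := hΦt.norm.const_mul (C * C)
      simpa [h0] using this
  by_cases hy : τ y = y'
  · obtain ⟨hη, hB⟩ := hcons h0 hy
    rw [Set.indicator_of_mem (show y ∈ {Y | τ Y = y'} from hy)]
    obtain ⟨C, hC0, hC⟩ := AN11a_taylor hτ y
    set D := fderiv ℝ τ y with hD
    set R : ℝ → Eu q := fun h => τ (y + sc h • B t) - τ y - D (sc h • B t) with hR
    have hRb : ∀ᶠ h : ℝ in 𝓝[>] 0, ‖R h‖ ≤ C * ‖B t‖ ^ 2 * sc h ^ 2 := by
      filter_upwards [hw.eventually hC] with h hh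
      refine hh.trans (le_of_eq ?_)
      rw [norm_smul, mul_pow, Real.norm_eq_abs, sq_abs]; ring
    have hDB : D (B t) = B' t := by
      have := congrArg (fun L : Eu q →L[ℝ] Eu q => L t) hB
      simpa using this.symm
    have hR1 : Tendsto (fun h => (sc h)⁻¹ • R h) (𝓝[>] 0) (𝓝 0) := by
      refine squeeze_zero_norm' (a := fun h => C * ‖B t‖ ^ 2 * sc h) ?_
        (by simpa using sc_tendsto.const_mul (C * ‖B t‖ ^ 2))
      filter_upwards [hRb, hpos] with h hh hp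
      have hs := sc_pos hp
      rw [norm_smul, norm_inv, Real.norm_eq_abs, abs_of_pos hs, inv_mul_le_iff₀ hs]
      exact hh.trans (le_of_eq (by ring))
    have harg : Tendsto (fun h => (sc h)⁻¹ • B'.symm (τ (y + sc h • B t) - y')) (𝓝[>] 0)
        (𝓝 t) := by
      have h1 : Tendsto (fun h => t + B'.symm ((sc h)⁻¹ • R h)) (𝓝[>] 0) (𝓝 t) := by
        have := ((B'.symm.continuous.tendsto 0).comp hR1).const_add t
        simpa using this
      refine h1.congr' ?_
      filter_upwards [hpos] with h hp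
      have hs := (sc_pos hp).ne'
      have e1 : τ (y + sc h • B t) - y' = R h + sc h • B' t := by
        simp only [hR, map_smul, hDB, hy]; abel
      rw [e1, map_add, map_smul, map_smul, B'.symm_apply_apply, smul_add, smul_smul,
        inv_mul_cancel₀ hs, one_smul, add_comm]
    have hph : Tendsto (fun h => (⟪η', τ (y + sc h • B t) - y'⟫_ℝ - ⟪η, sc h • B t⟫_ℝ) / h)
        (𝓝[>] 0) (𝓝 0) := by
      refine squeeze_zero_norm' (a := fun h => ‖η'‖ * (C * ‖B t‖ ^ 2) * (sc h ^ 2 / h)) ?_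
        (by simpa using sc_sq_div_tendsto.const_mul (‖η'‖ * (C * ‖B t‖ ^ 2)))
      filter_upwards [hRb, hpos] with h hh hp
      have e1 : ⟪η', τ (y + sc h • B t) - y'⟫_ℝ - ⟪η, sc h • B t⟫_ℝ = ⟪η', R h⟫_ℝ := by
        rw [hη, ContinuousLinearMap.adjoint_inner_left, ← inner_sub_right, hR, hy]
      rw [e1, norm_div, Real.norm_eq_abs h, abs_of_pos hp, div_le_iff₀ hp]
      calc ‖⟪η', R h⟫_ℝ‖ ≤ ‖η'‖ * ‖R h‖ := norm_inner_le_norm _ _
        _ ≤ ‖η'‖ * (C * ‖B t‖ ^ 2 * sc h ^ 2) := mul_le_mul_of_nonneg_left hh (norm_nonneg _)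
        _ = _ := by field_simp
    have hA : Tendsto (fun h : ℝ =>
        ((β t * β ((sc h)⁻¹ • B'.symm (τ (y + sc h • B t) - y')) : ℝ) : ℂ)) (𝓝[>] 0)
        (𝓝 ((β t ^ 2 : ℝ) : ℂ)) := by
      refine (continuous_ofReal.tendsto _).comp ?_
      rw [sq]
      exact ((hβ.tendsto t).comp harg).const_mul _
    have hE : Tendsto (fun h : ℝ => cexp (I *
        (((⟪η', τ (y + sc h • B t) - y'⟫_ℝ - ⟪η, sc h • B t⟫_ℝ) / h : ℝ) : ℂ))) (𝓝[>] 0)
        (𝓝 1) := by
      have hc1 : Continuous fun a : ℝ => cexp (I * (a : ℂ)) :=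
        Complex.continuous_exp.comp (continuous_const.mul continuous_ofReal)
      have := (hc1.tendsto 0).comp hph
      simp only [ofReal_zero, mul_zero, Complex.exp_zero] at this
      exact this
    have := (hA.mul hE).mul hΦt
    rw [mul_one] at this
    exact this
  · rw [Set.indicator_of_notMem (show y ∉ {Y | τ Y = y'} from hy), mul_zero]
    have hv : Tendsto (fun h : ℝ => ‖B'.symm (τ (y + sc h • B t) - y')‖) (𝓝[>] 0)
        (𝓝 ‖B'.symm (τ y - y')‖) :=
      ((B'.symm.continuous.tendsto _).comp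
        (((hτ.continuous.tendsto y).comp hyw).sub_const y')).norm
    have hv0 : 0 < ‖B'.symm (τ y - y')‖ := by
      rw [norm_pos_iff, Ne, map_eq_zero_iff _ B'.symm.injective, sub_eq_zero]; exact hy
    have hsi : Tendsto (fun h : ℝ => (sc h)⁻¹) (𝓝[>] 0) atTop :=
      tendsto_inv_nhdsGT_zero.comp
        (tendsto_nhdsWithin_iff.2 ⟨sc_tendsto, hpos.mono fun h hp => sc_pos hp⟩)
    have htop := hsi.atTop_mul_pos hv0 hv
    obtain ⟨r, hr⟩ := hc.isCompact.isBounded.subset_closedBall (0 : Eu q)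
    refine tendsto_const_nhds.congr' ?_
    filter_upwards [htop.eventually_gt_atTop r, hpos] with h hh hp
    have hz : β ((sc h)⁻¹ • B'.symm (τ (y + sc h • B t) - y')) = 0 := by
      refine image_eq_zero_of_notMem_tsupport fun hm => ?_
      have := mem_closedBall_zero_iff.1 (hr hm)
      rw [norm_smul, Real.norm_eq_abs, abs_of_pos (inv_pos.2 (sc_pos hp))] at this
      exact absurd hh (not_lt.2 this)
    rw [hz, mul_zero, ofReal_zero, zero_mul, zero_mul]

end Pool.Agent.P.MP_e0a138_an.AD
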