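import Pool.Agent.P.MP_e0a138_an.AN11a

set_option autoImplicit false
set_option linter.unusedSectionVars false
set_option linter.unusedVariables false

open MeasureTheory Filter Topology Metric Complex
open scoped ENNReal NNReal ContDiff InnerProductSpace ComplexConjugate

noncomputable section
namespace Pool.Agent.P.MP_e0a138_an.AD

variable {N p q k : ℕ} {W : Type} [NormedAddCommGroup W] [InnerProductSpace ℂ W]
  [FiniteDimensional ℂ W] [CompleteSpace W]

theorem an11b_sub (f : Eu q → ℂ) {s : ℝ} (hs : 0 < s) (y : Eu q) (B : Eu q ≃L[ℝ] Eu q) :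
    ∫ Y, f Y = ∫ t, (s ^ q * jac B : ℝ) • f (y + s • B t) := by
  have h1 := integral_image_eq_integral_abs_det_fderiv_smul (volume : Measure (Eu q))
    (s := Set.univ) (f := fun t => y + s • B t) (f' := fun _ => s • (B : Eu q →L[ℝ] Eu q))
    MeasurableSet.univ (fun t _ => ((B.hasFDerivAt.const_smul s).const_add y).hasFDerivWithinAt)
    (fun t _ t' _ e => B.injective (smul_right_injective _ hs.ne' (add_left_cancel e))) f
  have h2 : (fun t => y + s • B t) '' Set.univ = Set.univ :=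
    Set.image_univ_of_surjective fun Y => ⟨B.symm (s⁻¹ • (Y - y)), by simp [smul_smul, hs.ne']⟩
  have h3 : |(s • (B : Eu q →L[ℝ] Eu q)).det| = s ^ q * jac B := by
    rw [ContinuousLinearMap.det, ContinuousLinearMap.toLinearMap_smul, LinearMap.det_smul, finrank_Eu,
      abs_mul, abs_of_pos (pow_pos hs _)]
    rfl
  simpa only [h2, h3, Measure.restrict_univ] using h1

theorem an11b_pt (β : Eu q → ℝ) {h : ℝ} (hh : 0 < h) (y η y' η' : Eu q) (B B' : Eu q ≃L[ℝ] Eu q)
    (t T : Eu q) (c : ℂ) :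
    (sc h ^ q * jac B : ℝ) • (conj (ph β h y η (B.symm : Eu q →L[ℝ] Eu q) (y + sc h • B t)) *
      ph β h y' η' (B'.symm : Eu q →L[ℝ] Eu q) T * c) =
    ((jac B : ℝ) : ℂ) * (((β t * β ((sc h)⁻¹ • B'.symm (T - y')) : ℝ) : ℂ) *
      cexp (I * (((⟪η', T - y'⟫_ℝ - ⟪η, sc h • B t⟫_ℝ) / h : ℝ) : ℂ)) * c) := by
  have h0 := sc_pos hh
  have h1 : (sc h)⁻¹ • B.symm (sc h • B t) = t := by simp [smul_smul, h0.ne']
  have h2 : sc h ^ q * ((√(sc h ^ q))⁻¹ * (√(sc h ^ q))⁻¹) = 1 := by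
    rw [← mul_inv, Real.mul_self_sqrt (pow_pos h0 _).le, mul_inv_cancel₀ (pow_pos h0 _).ne']
  have h3 : ((sc h ^ q : ℝ) : ℂ) * ((((√(sc h ^ q))⁻¹ : ℝ) : ℂ) * (((√(sc h ^ q))⁻¹ : ℝ) : ℂ)) = 1 := by
    exact_mod_cast h2
  simp only [ph, bw, add_sub_cancel_left, ContinuousLinearEquiv.coe_coe, h1, map_mul, conj_ofReal,
    ← Complex.exp_conj, conj_I, real_smul, sub_div, ofReal_sub, mul_sub, ofReal_mul]
  rw [sub_eq_add_neg (I * _), Complex.exp_add, ← neg_mul]
  generalize cexp (-I * _) = e1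
  generalize cexp (I * _) = e2
  linear_combination ((jac B : ℝ) : ℂ) * (β t) * (β ((sc h)⁻¹ • B'.symm (T - y'))) * e1 * e2 * c * h3

theorem gram_core {β : Eu q → ℝ} (hβ : Continuous β) (hc : HasCompactSupport β)
    {Φ : Eu p × Eu q → ℂ} (hΦ : Continuous Φ) (hΦc : HasCompactSupport Φ)
    {τ : Eu p × Eu q → Eu q} (hτ : ContDiff ℝ ∞ τ) (y η y' η' : Eu q) (B B' : Eu q ≃L[ℝ] Eu q)
    (hcons : ∀ x, Φ (x, y) ≠ 0 → τ (x, y) = y' →
      η = ContinuousLinearMap.adjoint (fderiv ℝ (fun Y => τ (x, Y)) y) η' ∧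
      (B' : Eu q →L[ℝ] Eu q) = fderiv ℝ (fun Y => τ (x, Y)) y ∘L (B : Eu q →L[ℝ] Eu q)) :
    Tendsto (fun h : ℝ => ∫ z, conj (ph β h y η (B.symm : Eu q →L[ℝ] Eu q) z.2) *
      ph β h y' η' (B'.symm : Eu q →L[ℝ] Eu q) (τ z) * Φ z) (𝓝[>] 0)
      (𝓝 ((((jac B : ℝ) * ∫ t, β t ^ 2 : ℝ) : ℂ) *
        ∫ x, {x | τ (x, y) = y'}.indicator (fun x => Φ (x, y)) x)) := by
  obtain ⟨C, hC⟩ := hβ.bounded_above_of_compact_support hc
  obtain ⟨D, hD⟩ := hΦ.bounded_above_of_compact_support hΦc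
  set K : Set (Eu p) := Prod.fst '' tsupport Φ with hK
  have hKc : IsCompact K := hΦc.isCompact.image continuous_fst
  set G : ℝ → Eu p × Eu q → ℂ := fun h z =>
    ((β z.2 * β ((sc h)⁻¹ • B'.symm (τ (z.1, y + sc h • B z.2) - y')) : ℝ) : ℂ) *
      cexp (I * (((⟪η', τ (z.1, y + sc h • B z.2) - y'⟫_ℝ - ⟪η, sc h • B z.2⟫_ℝ) / h : ℝ) : ℂ)) *
      Φ (z.1, y + sc h • B z.2) with hG
  have hτc := hτ.continuous
  have Gc : ∀ h, Continuous (G h) := fun h => by
    rw [hG]; fun_prop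
  have Gb : ∀ h z, ‖G h z‖ ≤ K.indicator (fun _ => C * D) z.1 * ‖β z.2‖ := fun h z => by
    by_cases hz : z.1 ∈ K
    · rw [Set.indicator_of_mem hz, hG, norm_mul, norm_mul, mul_comm I,
        Complex.norm_exp_ofReal_mul_I, mul_one, Complex.norm_real, norm_mul, mul_comm (C * D),
        mul_assoc]
      exact mul_le_mul_of_nonneg_left (mul_le_mul (hC _) (hD _) (norm_nonneg _)
        ((norm_nonneg _).trans (hC 0))) (norm_nonneg _)
    · have : Φ (z.1, y + sc h • B z.2) = 0 :=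
        image_eq_zero_of_notMem_tsupport fun hm => hz ⟨_, hm, rfl⟩
      simp [hG, this, Set.indicator_of_notMem hz]
  have bi : Integrable (fun z : Eu p × Eu q => K.indicator (fun _ => C * D) z.1 * ‖β z.2‖) :=
    Integrable.mul_prod ((integrable_indicator_iff hKc.measurableSet).2
      (integrableOn_const hKc.measure_lt_top.ne)) (hβ.integrable_of_hasCompactSupport hc).norm
  have lim := tendsto_integral_filter_of_dominated_convergence (l := 𝓝[>] (0 : ℝ)) (F := G)
    (f := fun z => {x | τ (x, y) = y'}.indicator (fun x => Φ (x, y)) z.1 * ((β z.2 ^ 2 : ℝ) : ℂ)) _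
    (Eventually.of_forall fun h => (Gc h).aestronglyMeasurable)
    (Eventually.of_forall fun h => Eventually.of_forall (Gb h)) bi
    (Eventually.of_forall fun z => by
      rw [mul_comm]
      exact gram_pt hβ hc (Φ := fun Y => Φ (z.1, Y)) (by fun_prop) (τ := fun Y => τ (z.1, Y))
        (hτ.comp (contDiff_const.prodMk contDiff_id)) y η y' η' B B' (hcons z.1) z.2)
  rw [Measure.volume_eq_prod, integral_prod_mul (fun x => {x | τ (x, y) = y'}.indicator
    (fun x => Φ (x, y)) x) fun t => ((β t ^ 2 : ℝ) : ℂ), integral_complex_ofReal, mul_comm] at lim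
  rw [ofReal_mul, mul_assoc]
  refine (lim.const_mul _).congr' (eventually_mem_nhdsWithin.mono fun h hh => ?_)
  have i1 : Integrable (G h) (volume.prod volume) :=
    bi.mono' (Gc h).aestronglyMeasurable (Eventually.of_forall (Gb h))
  have i2 : Integrable (fun z : Eu p × Eu q =>
      conj (ph β h y η (B.symm : Eu q →L[ℝ] Eu q) z.2) *
      ph β h y' η' (B'.symm : Eu q →L[ℝ] Eu q) (τ z) * Φ z) (volume.prod volume) := by
    refine Continuous.integrable_of_hasCompactSupport ?_ hΦc.mul_left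
    unfold ph bw
    fun_prop
  simp only
  rw [Measure.volume_eq_prod, integral_prod _ i2, integral_prod _ i1, ← integral_const_mul]
  refine integral_congr_ae (Eventually.of_forall fun x => ?_)
  simp only
  rw [← integral_const_mul, an11b_sub (fun Y => _ * Φ (x, Y)) (sc_pos hh) y B]
  exact integral_congr_ae (Eventually.of_forall fun t => (an11b_pt β hh y η y' η' B B' t _ _).symm)

end Pool.Agent.P.MP_e0a138_an.AD
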