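import Pool.Agent.P.MP_e0a138_an.ABase

set_option autoImplicit false
set_option linter.unusedSectionVars false
set_option linter.unusedVariables false

open MeasureTheory Filter Topology Metric Complex
open scoped ENNReal NNReal ContDiff InnerProductSpace ComplexConjugate

noncomputable section
namespace Pool.Agent.P.MP_e0a138_an.AD

variable {N p q k : ℕ} {W : Type} [NormedAddCommGroup W] [InnerProductSpace ℂ W]
  [FiniteDimensional ℂ W] [CompleteSpace W]

theorem ae_fderiv_eq {f g : Eu q → Eu q} (hf : Differentiable ℝ f) (hg : Differentiable ℝ g) :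
    ∀ᵐ y, f y = g y → fderiv ℝ f y = fderiv ℝ g y := by
  have hs : MeasurableSet {y | f y = g y} :=
    (isClosed_eq hf.continuous hg.continuous).measurableSet
  have h1 : ApproximatesLinearOn (fun y => f y - g y) (0 : Eu q →L[ℝ] Eu q) {y | f y = g y} 0 := by
    intro x hx y hy
    have hx' : f x = g x := hx
    have hy' : f y = g y := hy
    simp [hx', hy']
  have h2 := h1.norm_fderiv_sub_le volume hs (fun y => fderiv ℝ f y - fderiv ℝ g y)
    fun y _ => ((hf y).hasFDerivAt.sub (hg y).hasFDerivAt).hasFDerivWithinAt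
  filter_upwards [(ae_restrict_iff' hs).1 h2] with y hy h
  have h3 := hy h
  rwa [sub_zero, nonpos_iff_eq_zero, nnnorm_eq_zero, sub_eq_zero] at h3

theorem AN12_equiv {n : ℕ} {L : Eu n →L[ℝ] Eu N} (h : Function.Injective L) :
    ∃ e : Eu n ≃L[ℝ] Eu n, (e : Eu n →L[ℝ] Eu n) = ContinuousLinearMap.adjoint L ∘L L := by
  have h1 : Function.Injective (ContinuousLinearMap.adjoint L ∘L L) := by
    refine (injective_iff_map_eq_zero _).2 fun x hx => h ?_
    have h2 : ⟪L x, L x⟫_ℝ = 0 := by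
      rw [← ContinuousLinearMap.adjoint_inner_left]
      rw [ContinuousLinearMap.comp_apply] at hx
      rw [hx, inner_zero_left]
    rw [map_zero]
    exact inner_self_eq_zero.1 h2
  exact ⟨(LinearEquiv.ofInjectiveEndo
    (ContinuousLinearMap.adjoint L ∘L L : Eu n →L[ℝ] Eu n).toLinearMap h1).toContinuousLinearEquiv,
    ContinuousLinearMap.ext fun _ => rfl⟩

theorem AN12_proj {n : ℕ} {L : Eu n →L[ℝ] Eu N} (h : Function.Injective L) :
    L.range.starProjection = L ∘L (ContinuousLinearMap.adjoint L ∘L L).inverse ∘L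
      ContinuousLinearMap.adjoint L := by
  obtain ⟨e, he⟩ := AN12_equiv h
  refine ContinuousLinearMap.ext fun u => ?_
  refine Submodule.eq_starProjection_of_mem_of_inner_eq_zero ⟨_, rfl⟩ ?_
  rintro _ ⟨x, rfl⟩
  have h1 : ∀ y, ContinuousLinearMap.adjoint L (L (e.symm y)) = y := fun y => by
    have := congrArg (fun A : Eu n →L[ℝ] Eu n => A (e.symm y)) he
    simpa using this.symm
  rw [← he, ContinuousLinearMap.inverse_equiv]
  change ⟪u - L (e.symm (ContinuousLinearMap.adjoint L u)), L x⟫_ℝ = 0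
  rw [← ContinuousLinearMap.adjoint_inner_left, map_sub, h1, sub_self, inner_zero_left]

theorem AN12_adj {n : ℕ} : ContDiff ℝ ∞ fun L : Eu n →L[ℝ] Eu N => ContinuousLinearMap.adjoint L :=
  (LinearMap.toContinuousLinearMap
    ({ toFun := fun L => ContinuousLinearMap.adjoint L
       map_add' := fun a b => map_add _ a b
       map_smul' := fun c a => by simp } :
      (Eu n →L[ℝ] Eu N) →ₗ[ℝ] (Eu N →L[ℝ] Eu n))).contDiff

theorem contDiffOn_starProjection {E : Type} [NormedAddCommGroup E] [NormedSpace ℝ E] {n : ℕ}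
    {L : E → Eu n →L[ℝ] Eu N} {O : Set E} (hL : ContDiffOn ℝ ∞ L O)
    (inj : ∀ x ∈ O, Function.Injective (L x)) :
    ContDiffOn ℝ ∞ (fun x => (L x).range.starProjection) O := by
  have hA : ContDiffOn ℝ ∞ (fun x => ContinuousLinearMap.adjoint (L x)) O :=
    AN12_adj.comp_contDiffOn hL
  have hG : ContDiffOn ℝ ∞ (fun x => ContinuousLinearMap.adjoint (L x) ∘L L x) O :=
    hA.clm_comp hL
  have hI : ContDiffOn ℝ ∞ (fun x => (ContinuousLinearMap.adjoint (L x) ∘L L x).inverse) O := by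
    intro x hx
    obtain ⟨e, he⟩ := AN12_equiv (inj x hx)
    have h1 := contDiffAt_map_inverse (n := ∞) e
    rw [he] at h1
    exact h1.comp_contDiffWithinAt x (hG x hx)
  exact (hL.clm_comp (hI.clm_comp hA)).congr fun x hx => AN12_proj (inj x hx)

/-- the coordinate basis of the product -/
def AN12_B (p q : ℕ) : Module.Basis (Fin p ⊕ Fin q) ℝ (Eu p × Eu q) :=
  (bsB p).toBasis.prod (bsB q).toBasis

theorem AN12_B_apply (a : Fin p ⊕ Fin q) : AN12_B p q a = cb a := by
  cases a <;> simp [AN12_B, cb, Module.Basis.prod_apply, bsB_apply]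

theorem det_block {L : Eu p × Eu q →L[ℝ] Eu p × Eu q} (h : ∀ x, (L (x, 0)).2 = 0) :
    L.det = (ContinuousLinearMap.fst ℝ _ _ ∘L L ∘L ContinuousLinearMap.inl ℝ _ _).det *
      (ContinuousLinearMap.snd ℝ _ _ ∘L L ∘L ContinuousLinearMap.inr ℝ _ _).det := by
  unfold ContinuousLinearMap.det
  rw [← LinearMap.det_toMatrix (AN12_B p q), ← LinearMap.det_toMatrix (bsB p).toBasis,
    ← LinearMap.det_toMatrix (bsB q).toBasis,
    ← Matrix.fromBlocks_toBlocks (LinearMap.toMatrix (AN12_B p q) (AN12_B p q) _)]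
  have h0 : (LinearMap.toMatrix (AN12_B p q) (AN12_B p q)
      (L : Eu p × Eu q →ₗ[ℝ] Eu p × Eu q)).toBlocks₂₁ = 0 := by
    ext i j
    simp [Matrix.toBlocks₂₁, LinearMap.toMatrix_apply, AN12_B, Module.Basis.prod_apply, h]
  rw [h0, Matrix.det_fromBlocks_zero₂₁]
  congr 2
  · ext i j
    simp [Matrix.toBlocks₁₁, LinearMap.toMatrix_apply, AN12_B, Module.Basis.prod_apply]
  · ext i j
    simp [Matrix.toBlocks₂₂, LinearMap.toMatrix_apply, AN12_B, Module.Basis.prod_apply]

theorem det_gram_comp (L : Eu p × Eu q →L[ℝ] Eu N) (T : Eu p × Eu q →L[ℝ] Eu p × Eu q) :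
    (Matrix.gram ℝ fun a : Fin p ⊕ Fin q => L (T (cb a))).det =
      (Matrix.gram ℝ fun a : Fin p ⊕ Fin q => L (cb a)).det * T.det ^ 2 := by
  set J := LinearMap.toMatrix (AN12_B p q) (AN12_B p q) (T : Eu p × Eu q →ₗ[ℝ] Eu p × Eu q) with hJ
  have h1 : ∀ a, L (T (cb a)) = ∑ b, J b a • L (cb b) := fun a => by
    conv_lhs => rw [← (AN12_B p q).sum_repr (T (cb a))]
    simp only [map_sum, map_smul, hJ, LinearMap.toMatrix_apply, AN12_B_apply,
      ContinuousLinearMap.coe_coe]
  have h2 : (Matrix.gram ℝ fun a : Fin p ⊕ Fin q => L (T (cb a))) =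
      J.transpose * (Matrix.gram ℝ fun a : Fin p ⊕ Fin q => L (cb a)) * J := by
    ext a b
    simp only [Matrix.gram_apply, h1, Matrix.mul_apply, Matrix.transpose_apply, inner_sum,
      sum_inner, real_inner_smul_left, real_inner_smul_right, Finset.sum_mul]
    exact Finset.sum_congr rfl fun _ _ => Finset.sum_congr rfl fun _ _ => by ring
  rw [h2, Matrix.det_mul, Matrix.det_mul, Matrix.det_transpose, hJ, LinearMap.det_toMatrix]
  unfold ContinuousLinearMap.det
  ring

theorem det_gram_pos {L : Eu p × Eu q →L[ℝ] Eu N} (h : Function.Injective L) :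
    0 < (Matrix.gram ℝ fun a : Fin p ⊕ Fin q => L (cb a)).det := by
  refine (Matrix.posDef_gram_iff_linearIndependent.2 ?_).det_pos
  have h1 := (AN12_B p q).linearIndependent.map' (L : Eu p × Eu q →ₗ[ℝ] Eu N)
    (LinearMap.ker_eq_bot.2 h)
  have h2 : (fun a : Fin p ⊕ Fin q => L (cb a)) =
      (L : Eu p × Eu q →ₗ[ℝ] Eu N) ∘ AN12_B p q := funext fun a => by simp [AN12_B_apply]
  rwa [h2]

end Pool.Agent.P.MP_e0a138_an.AD
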