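import Pool.Agent.P.MP_e0a138_an.AB7

set_option autoImplicit false
set_option linter.unusedSectionVars false
set_option linter.unusedVariables false

open MeasureTheory Filter Topology Metric Complex
open scoped ENNReal NNReal ContDiff InnerProductSpace ComplexConjugate

noncomputable section
namespace Pool.Agent.P.MP_e0a138_an.AD

variable {N p q k : ℕ} {W : Type} [NormedAddCommGroup W] [InnerProductSpace ℂ W]
  [FiniteDimensional ℂ W] [CompleteSpace W]

variable {S E : Type} [MeasurableSpace S] [MeasurableSpace E] {ν : Measure S} {m : Measure E}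
  {O : Set E} {γ : E → S}

theorem AN13_m (h : Emb ν m O γ) :
    m = (m.comap (Subtype.val : O → E)).map (Subtype.val : O → E) := by
  rw [map_comap_subtype_coe h.meas]
  exact (Measure.restrict_eq_self_of_ae_mem (mem_ae_iff.2 h.conc)).symm

theorem Emb.of_continuousOn [TopologicalSpace S] [PolishSpace S] [BorelSpace S]
    [TopologicalSpace E] [PolishSpace E] [BorelSpace E] (hO : MeasurableSet O) (hm : m Oᶜ = 0)
    (hγ : ContinuousOn γ O) (inj : Set.InjOn γ O) (res : ν.restrict (γ '' O) = m.map γ) :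
    Emb ν m O γ := by
  have := hO.standardBorel
  exact ⟨hO, hm, (continuousOn_iff_continuous_domRestrict.1 hγ).measurable.measurableEmbedding
    (Set.injOn_iff_injective.1 inj), res⟩

theorem Emb.measurableSet (h : Emb ν m O γ) : MeasurableSet (γ '' O) := by
  have h1 := h.emb.measurableSet_range
  have h2 : Set.range (O.domRestrict γ) = γ '' O := by
    ext s
    constructor
    · rintro ⟨x, rfl⟩
      exact ⟨x.1, x.2, rfl⟩
    · rintro ⟨x, hx, rfl⟩
      exact ⟨⟨x, hx⟩, rfl⟩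
  rwa [h2] at h1

theorem Emb.aemeasurable (h : Emb ν m O γ) : AEMeasurable γ m := by
  rw [AN13_m h, (MeasurableEmbedding.subtype_coe h.meas).aemeasurable_map_iff]
  exact h.emb.measurable.aemeasurable

theorem AN13_res (h : Emb ν m O γ) :
    ν.restrict (γ '' O) = (m.comap (Subtype.val : O → E)).map (O.domRestrict γ) := by
  have h1 : AEMeasurable γ ((m.comap (Subtype.val : O → E)).map (Subtype.val : O → E)) := by
    rw [← AN13_m h]
    exact h.aemeasurable
  have h2 := AEMeasurable.map_map_of_aemeasurable h1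
    (measurable_subtype_coe.aemeasurable (μ := m.comap (Subtype.val : O → E)))
  rw [← AN13_m h] at h2
  rw [h.res, h2]
  rfl

theorem Emb.lintegral (h : Emb ν m O γ) (f : S → ℝ≥0∞) :
    ∫⁻ s in γ '' O, f s ∂ν = ∫⁻ x, f (γ x) ∂m := by
  rw [AN13_res h, h.emb.lintegral_map]
  conv_rhs => rw [AN13_m h, (MeasurableEmbedding.subtype_coe h.meas).lintegral_map]
  rfl

theorem Emb.integral {F : Type} [NormedAddCommGroup F] [NormedSpace ℝ F] (h : Emb ν m O γ)
    (f : S → F) : ∫ s in γ '' O, f s ∂ν = ∫ x, f (γ x) ∂m := by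
  rw [AN13_res h, h.emb.integral_map]
  conv_rhs => rw [AN13_m h, (MeasurableEmbedding.subtype_coe h.meas).integral_map]
  rfl

theorem Emb.ae_iff (h : Emb ν m O γ) {P : S → Prop} :
    (∀ᵐ s ∂ν, s ∈ γ '' O → P s) ↔ ∀ᵐ x ∂m, P (γ x) := by
  rw [← ae_restrict_iff' h.measurableSet, AN13_res h, h.emb.ae_map_iff]
  conv_rhs => rw [AN13_m h, (MeasurableEmbedding.subtype_coe h.meas).ae_map_iff]
  rfl

theorem Emb.aesm_iff {F : Type} [NormedAddCommGroup F] (h : Emb ν m O γ) {f : S → F} :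
    AEStronglyMeasurable f (ν.restrict (γ '' O)) ↔ AEStronglyMeasurable (fun x => f (γ x)) m := by
  rw [AN13_res h, h.emb.aestronglyMeasurable_map_iff]
  conv_rhs =>
    rw [AN13_m h, (MeasurableEmbedding.subtype_coe h.meas).aestronglyMeasurable_map_iff]
  rfl

theorem AN13_memLp (h : Emb ν m O γ) {f : S → W} :
    MemLp f 2 (ν.restrict (γ '' O)) ↔ MemLp (fun x => f (γ x)) 2 m := by
  rw [AN13_res h, h.emb.memLp_map_measure_iff]
  conv_rhs => rw [AN13_m h, (MeasurableEmbedding.subtype_coe h.meas).memLp_map_measure_iff]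
  rfl

theorem Emb.memLp_comp (h : Emb ν m O γ) {f : S → W} (hf : MemLp f 2 ν) :
    MemLp (fun x => f (γ x)) 2 m := (AN13_memLp h).1 (hf.restrict _)

theorem Emb.memLp_ind (h : Emb ν m O γ) {f : S → W} (hf : MemLp (fun x => f (γ x)) 2 m) :
    MemLp ((γ '' O).indicator f) 2 ν :=
  (memLp_indicator_iff_restrict h.measurableSet).2 ((AN13_memLp h).2 hf)

theorem Emb.inner_ind (h : Emb ν m O γ) (f g : S → W) :
    ∫ s, ⟪(γ '' O).indicator f s, g s⟫_ℂ ∂ν = ∫ x, ⟪f (γ x), g (γ x)⟫_ℂ ∂m := by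
  rw [← h.integral fun s => ⟪f s, g s⟫_ℂ, ← integral_indicator h.measurableSet]
  refine integral_congr_ae (Eventually.of_forall fun s => ?_)
  by_cases hs : s ∈ γ '' O
  · simp only [Set.indicator_of_mem hs]
  · simp only [Set.indicator_of_notMem hs, inner_zero_left]

theorem Emb.lintegral_ind (h : Emb ν m O γ) (f : S → W) :
    ∫⁻ s, ‖(γ '' O).indicator f s‖ₑ ^ 2 ∂ν = ∫⁻ x, ‖f (γ x)‖ₑ ^ 2 ∂m := by
  rw [← h.lintegral fun s => ‖f s‖ₑ ^ 2, ← lintegral_indicator h.measurableSet]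
  refine lintegral_congr fun s => ?_
  by_cases hs : s ∈ γ '' O
  · simp only [Set.indicator_of_mem hs]
  · simp [Set.indicator_of_notMem hs]

theorem aesm_of_cover {F J : Type} [NormedAddCommGroup F] [Countable J] {m : J → Measure E}
    {O : J → Set E} {γ : J → E → S} (h : ∀ j, Emb ν (m j) (O j) (γ j))
    (hc : ∀ᵐ s ∂ν, ∃ j, s ∈ γ j '' O j) {f : S → F}
    (hf : ∀ j, AEStronglyMeasurable (fun x => f (γ j x)) (m j)) : AEStronglyMeasurable f ν := by
  have h1 : ν.restrict (⋃ j, γ j '' O j) = ν :=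
    Measure.restrict_eq_self_of_ae_mem (hc.mono fun s hs => Set.mem_iUnion.2 hs)
  rw [← h1, aestronglyMeasurable_iUnion_iff]
  exact fun j => (h j).aesm_iff.2 (hf j)

theorem ae_of_cover {J : Type} [Countable J] {m : J → Measure E}
    {O : J → Set E} {γ : J → E → S} (h : ∀ j, Emb ν (m j) (O j) (γ j))
    (hc : ∀ᵐ s ∂ν, ∃ j, s ∈ γ j '' O j) {P : S → Prop}
    (hf : ∀ j, ∀ᵐ x ∂m j, P (γ j x)) : ∀ᵐ s ∂ν, P s := by
  have h1 : ∀ᵐ s ∂ν, ∀ j, s ∈ γ j '' O j → P s := ae_all_iff.2 fun j => (h j).ae_iff.2 (hf j)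
  filter_upwards [hc, h1] with s hs h2
  obtain ⟨j, hj⟩ := hs
  exact h2 j hj

end Pool.Agent.P.MP_e0a138_an.AD
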