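import Pool.Agent.P.MP_e0a138_an.AN1

set_option autoImplicit false
set_option linter.unusedSectionVars false
set_option linter.unusedVariables false

open MeasureTheory Filter Topology Metric Complex
open scoped ENNReal NNReal ContDiff InnerProductSpace ComplexConjugate

noncomputable section
namespace Pool.Agent.P.MP_e0a138_an.AD

variable {N p q k : ℕ} {W : Type} [NormedAddCommGroup W] [InnerProductSpace ℂ W]
  [FiniteDimensional ℂ W] [CompleteSpace W]
variable {E : Type} [NormedAddCommGroup E] [NormedSpace ℝ E] [FiniteDimensional ℝ E]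
  [MeasureSpace E] [BorelSpace E] [(volume : Measure E).IsAddHaarMeasure] {κ : Type} [Fintype κ]

variable {S : Type} [MeasurableSpace S]

theorem change_var {S₁ S₂ : Set E} (h₁ : MeasurableSet S₁) (h₂ : MeasurableSet S₂) {T : E → E}
    {T' : E → E →L[ℝ] E} (hT : ∀ x ∈ S₁, HasFDerivWithinAt T (T' x) S₁ x) (inj : Set.InjOn T S₁)
    (img : T '' S₁ = S₂) {ρ₁ ρ₂ : E → ℝ} (c₁ : ContinuousOn ρ₁ S₁) (c₂ : ContinuousOn ρ₂ S₂)
    (hρ : ∀ x ∈ S₁, ρ₁ x = ρ₂ (T x) * |(T' x).det|) {γ₁ γ₂ : E → S}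
    (m₁ : AEMeasurable γ₁ (volume.restrict S₁)) (m₂ : AEMeasurable γ₂ (volume.restrict S₂))
    (hγ : ∀ x ∈ S₁, γ₁ x = γ₂ (T x)) : (wm S₁ ρ₁).map γ₁ = (wm S₂ ρ₂).map γ₂ := by
  ext s hs
  have a₁ : AEMeasurable γ₁ (wm S₁ ρ₁) := m₁.mono_ac (withDensity_absolutelyContinuous _ _)
  have a₂ : AEMeasurable γ₂ (wm S₂ ρ₂) := m₂.mono_ac (withDensity_absolutelyContinuous _ _)
  have n₁ : NullMeasurableSet (γ₁ ⁻¹' s) (volume.restrict S₁) := m₁.nullMeasurable hs
  have n₂ : NullMeasurableSet (γ₂ ⁻¹' s) (volume.restrict S₂) := m₂.nullMeasurable hs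
  rw [Measure.map_apply_of_aemeasurable a₁ hs, Measure.map_apply_of_aemeasurable a₂ hs, wm, wm,
    withDensity_apply₀ _ n₁, withDensity_apply₀ _ n₂, ← lintegral_indicator₀ n₁,
    ← lintegral_indicator₀ n₂, ← img,
    lintegral_image_eq_lintegral_abs_det_fderiv_mul volume h₁ hT inj]
  refine setLIntegral_congr_fun h₁ fun x hx => ?_
  by_cases hxs : γ₂ (T x) ∈ s
  · have h1 : x ∈ γ₁ ⁻¹' s := by rw [Set.mem_preimage, hγ x hx]; exact hxs
    have h2 : T x ∈ γ₂ ⁻¹' s := hxs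
    simp only [Set.indicator_of_mem h1, Set.indicator_of_mem h2]
    rw [hρ x hx, ENNReal.ofReal_mul' (abs_nonneg _), mul_comm]
  · have h1 : x ∉ γ₁ ⁻¹' s := by rw [Set.mem_preimage, hγ x hx]; exact hxs
    have h2 : T x ∉ γ₂ ⁻¹' s := hxs
    simp only [Set.indicator_of_notMem h1, Set.indicator_of_notMem h2, mul_zero]

theorem restrict_map_wm {O : Set E} (hO : MeasurableSet O) {ρ : E → ℝ} {γ : E → S}
    (hγ : AEMeasurable γ (volume.restrict O)) {Q : Set S} (hQ : MeasurableSet Q)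
    (hQ' : MeasurableSet (O ∩ γ ⁻¹' Q)) :
    ((wm O ρ).map γ).restrict Q = (wm (O ∩ γ ⁻¹' Q) ρ).map γ := by
  have a : AEMeasurable γ (wm O ρ) := hγ.mono_ac (withDensity_absolutelyContinuous _ _)
  have e : wm (O ∩ γ ⁻¹' Q) ρ = (wm O ρ).restrict (O ∩ γ ⁻¹' Q) := by
    rw [wm, wm, restrict_withDensity hQ', Measure.restrict_restrict hQ',
      Set.inter_eq_left.2 Set.inter_subset_left]
  ext t ht
  rw [e, Measure.restrict_apply ht, Measure.map_apply_of_aemeasurable a (ht.inter hQ),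
    Measure.map_apply_of_aemeasurable a.restrict ht, Measure.restrict_apply' hQ']
  refine measure_congr ?_
  filter_upwards [wm_ae (ρ := ρ) hO] with x hx
  refine propext ⟨fun h => ⟨h.1, hx, h.2⟩, fun h => ⟨h.1, h.2.2⟩⟩

theorem smul_wm (O : Set E) (ρ : E → ℝ) (c : ℝ≥0) :
    c • wm O ρ = wm O fun x => (c : ℝ) * ρ x := by
  have e : (fun x => ENNReal.ofReal ((c : ℝ) * ρ x))
      = (c : ℝ≥0∞) • fun x => ENNReal.ofReal (ρ x) := by
    funext x
    rw [ENNReal.ofReal_mul c.coe_nonneg, ENNReal.ofReal_coe_nnreal]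
    rfl
  rw [wm, wm, e, withDensity_smul' _ _ ENNReal.coe_ne_top]
  rfl

theorem glue {J : Type} [Countable J] {Q : J → Set S} (hQ : ∀ i, MeasurableSet (Q i))
    {m : J → Measure S} (hm : ∀ i, m i (Q i)ᶜ = 0)
    (hc : ∀ i j, (m i).restrict (Q j) = (m j).restrict (Q i)) :
    ∃ l : Measure S, l (⋃ i, Q i)ᶜ = 0 ∧ ∀ i, l.restrict (Q i) = m i := by
  obtain ⟨f, hf⟩ := exists_injective_nat J
  let D : J → Set S := fun i => Q i \ ⋃ j, ⋃ (_ : f j < f i), Q j
  have hD : ∀ i, MeasurableSet (D i) := fun i =>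
    (hQ i).diff (MeasurableSet.iUnion fun j => MeasurableSet.iUnion fun _ => hQ j)
  have hDQ : ∀ i, D i ⊆ Q i := fun i => Set.sdiff_subset
  have hlt : ∀ i j, f j < f i → Disjoint (D i) (D j) := by
    intro i j h
    rw [Set.disjoint_left]
    intro x hx hx'
    exact hx.2 (Set.mem_iUnion₂.2 ⟨j, h, hx'.1⟩)
  have hdis : Pairwise (Function.onFun Disjoint D) := by
    intro i j hij
    rcases lt_or_gt_of_ne (hf.ne hij) with h | h
    · exact (hlt j i h).symm
    · exact hlt i j h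
  have hcov : ∀ n, ∀ i, f i = n → ∀ x ∈ Q i, x ∈ ⋃ j, D j := by
    intro n
    induction n using Nat.strong_induction_on with
    | _ n ih =>
      intro i hi x hx
      by_cases h : x ∈ ⋃ j, ⋃ (_ : f j < f i), Q j
      · obtain ⟨j, hj, hxj⟩ := Set.mem_iUnion₂.1 h
        exact ih (f j) (hi ▸ hj) j rfl x hxj
      · exact Set.mem_iUnion.2 ⟨i, hx, h⟩
  refine ⟨Measure.sum fun i => (m i).restrict (D i), ?_, fun i => ?_⟩
  · rw [Measure.sum_apply _ (MeasurableSet.iUnion hQ).compl, ENNReal.tsum_eq_zero]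
    intro i
    rw [Measure.restrict_apply (MeasurableSet.iUnion hQ).compl]
    have : (⋃ i, Q i)ᶜ ∩ D i = ∅ :=
      Set.eq_empty_of_forall_notMem fun x hx => hx.1 (Set.mem_iUnion.2 ⟨i, hDQ i hx.2⟩)
    rw [this, measure_empty]
  · have e : ∀ j, ((m j).restrict (D j)).restrict (Q i) = (m i).restrict (D j) := by
      intro j
      rw [Measure.restrict_comm (hQ i), ← hc i j, Measure.restrict_restrict (hD j),
        Set.inter_eq_left.2 (hDQ j)]
    rw [Measure.restrict_sum _ (hQ i)]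
    simp only [e]
    rw [← Measure.restrict_iUnion hdis hD]
    refine Measure.restrict_eq_self_of_ae_mem ?_
    have : ∀ᵐ x ∂m i, x ∈ Q i := hm i
    filter_upwards [this] with x hx using hcov _ i rfl x hx

end Pool.Agent.P.MP_e0a138_an.AD
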