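import Pool.Agent.P.MP_e0a138_an.AB7

set_option autoImplicit false
set_option linter.unusedSectionVars false
set_option linter.unusedVariables false

open MeasureTheory Filter Topology Metric Complex
open scoped ENNReal NNReal ContDiff InnerProductSpace ComplexConjugate

noncomputable section
namespace Pool.Agent.P.MP_e0a138_an.AD

variable {N p q k : ℕ} {W : Type} [NormedAddCommGroup W] [InnerProductSpace ℂ W]
  [FiniteDimensional ℂ W] [CompleteSpace W]
variable {E : Type} [NormedAddCommGroup E] [NormedSpace ℝ E] [FiniteDimensional ℝ E]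
  [MeasureSpace E] [BorelSpace E] [(volume : Measure E).IsAddHaarMeasure] {κ : Type} [Fintype κ]

theorem AN1a_cs {a g : E → ℝ≥0∞} (ha : Measurable a) (hg : Measurable g) :
    (∫⁻ y, a y * g y) ^ 2 ≤ (∫⁻ y, a y) * ∫⁻ y, a y * g y ^ 2 := by
  have hpq : (2 : ℝ).HolderConjugate 2 := Real.HolderConjugate.two_two
  have h1 : AEMeasurable (fun y => a y ^ (1 / 2 : ℝ)) volume := (ha.pow_const _).aemeasurable
  have h2 : AEMeasurable (fun y => a y ^ (1 / 2 : ℝ) * g y) volume :=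
    ((ha.pow_const _).mul hg).aemeasurable
  have h := ENNReal.lintegral_mul_le_Lp_mul_Lq volume hpq h1 h2
  have hs : ∀ t : ℝ≥0∞, (t ^ (1 / 2 : ℝ)) ^ (2 : ℝ) = t := fun t => by
    rw [← ENNReal.rpow_mul]; norm_num
  have hs' : ∀ t : ℝ≥0∞, (t ^ (1 / 2 : ℝ)) ^ 2 = t := fun t => by
    rw [← ENNReal.rpow_natCast]; exact_mod_cast hs t
  have e1 : ∀ y, ((fun y => a y ^ (1 / 2 : ℝ)) * fun y => a y ^ (1 / 2 : ℝ) * g y) y
      = a y * g y := fun y => by
    simp only [Pi.mul_apply]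
    rw [← mul_assoc, ← sq, hs']
  have e2 : ∀ y, (a y ^ (1 / 2 : ℝ) * g y) ^ (2 : ℝ) = a y * g y ^ 2 := fun y => by
    rw [ENNReal.mul_rpow_of_nonneg _ _ (by norm_num), hs, ← ENNReal.rpow_natCast]
    norm_num
  simp only [e1, e2, hs] at h
  calc (∫⁻ y, a y * g y) ^ 2
      ≤ ((∫⁻ y, a y) ^ (1 / 2 : ℝ) * (∫⁻ y, a y * g y ^ 2) ^ (1 / 2 : ℝ)) ^ 2 := by gcongr
    _ = _ := by rw [mul_pow, hs', hs']

theorem AN1a_meas {η f : E → ℝ≥0∞} (hη : Measurable η) (hf : Measurable f) :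
    ∫⁻ x, (∫⁻ y, η (x - y) * f y) ^ 2 ≤ (∫⁻ x, η x) ^ 2 * ∫⁻ y, f y ^ 2 := by
  have hm : Measurable fun z : E × E => η (z.1 - z.2) * f z.2 ^ 2 :=
    (hη.comp (measurable_fst.sub measurable_snd)).mul ((hf.comp measurable_snd).pow_const _)
  calc ∫⁻ x, (∫⁻ y, η (x - y) * f y) ^ 2
      ≤ ∫⁻ x, (∫⁻ x, η x) * ∫⁻ y, η (x - y) * f y ^ 2 := by
        refine lintegral_mono fun x => ?_
        have := AN1a_cs (a := fun y => η (x - y)) (hη.comp (measurable_const.sub measurable_id)) hf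
        rwa [lintegral_sub_left_eq_self η x] at this
    _ = (∫⁻ x, η x) * ∫⁻ x, ∫⁻ y, η (x - y) * f y ^ 2 :=
        lintegral_const_mul _ hm.lintegral_prod_right'
    _ = (∫⁻ x, η x) * ∫⁻ y, ∫⁻ x, η (x - y) * f y ^ 2 := by
        rw [lintegral_lintegral_swap hm.aemeasurable]
    _ = (∫⁻ x, η x) * ∫⁻ y, (∫⁻ x, η x) * f y ^ 2 := by
        congr 1
        refine lintegral_congr fun y => ?_
        have hm' : Measurable fun x : E => η (x - y) :=
          hη.comp (measurable_id.sub measurable_const)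
        rw [lintegral_mul_const _ hm', lintegral_sub_right_eq_self η y]
    _ = (∫⁻ x, η x) ^ 2 * ∫⁻ y, f y ^ 2 := by
        rw [lintegral_const_mul _ (hf.pow_const _), ← mul_assoc, sq]

theorem young {η f : E → ℝ≥0∞} (hη : Measurable η) (hf : AEMeasurable f volume) :
    ∫⁻ x, (∫⁻ y, η (x - y) * f y) ^ 2 ≤ (∫⁻ x, η x) ^ 2 * ∫⁻ y, f y ^ 2 := by
  have e1 : ∀ x, ∫⁻ y, η (x - y) * f y = ∫⁻ y, η (x - y) * hf.mk f y := fun x =>
    lintegral_congr_ae (hf.ae_eq_mk.mono fun y hy => by simp only [hy])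
  have e2 : ∫⁻ y, f y ^ 2 = ∫⁻ y, hf.mk f y ^ 2 :=
    lintegral_congr_ae (hf.ae_eq_mk.mono fun y hy => by simp only [hy])
  simp only [e1, e2]
  exact AN1a_meas hη hf.measurable_mk

end Pool.Agent.P.MP_e0a138_an.AD
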