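import Pool.Agent.P.MP_e0a138_an.AN1a

set_option autoImplicit false
set_option linter.unusedSectionVars false
set_option linter.unusedVariables false

open MeasureTheory Filter Topology Metric Complex
open scoped ENNReal NNReal ContDiff InnerProductSpace ComplexConjugate

noncomputable section
namespace Pool.Agent.P.MP_e0a138_an.AD

variable {N p q k : ℕ} {W : Type} [NormedAddCommGroup W] [InnerProductSpace ℂ W]
  [FiniteDimensional ℂ W] [CompleteSpace W]
variable {E : Type} [NormedAddCommGroup E] [NormedSpace ℝ E] [FiniteDimensional ℝ E]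
  [MeasureSpace E] [BorelSpace E] [(volume : Measure E).IsAddHaarMeasure] {κ : Type} [Fintype κ]

theorem an2_cs {η f : E → ℝ≥0∞} (hη : Measurable η) (hf : Measurable f) (h1 : ∫⁻ x, η x = 1) :
    (∫⁻ x, η x * f x) ^ 2 ≤ ∫⁻ x, η x * f x ^ 2 := by
  have h := ENNReal.lintegral_mul_le_Lp_mul_Lq (volume.withDensity η) Real.HolderConjugate.two_two
    (f := fun _ : E => (1 : ℝ≥0∞)) (g := f) aemeasurable_const hf.aemeasurable
  have e1 : ∫⁻ a, ((fun _ : E => (1 : ℝ≥0∞)) * f) a ∂(volume.withDensity η) = ∫⁻ x, η x * f x := by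
    rw [lintegral_withDensity_eq_lintegral_mul _ hη (measurable_const.mul hf)]
    simp
  have e2 : ∫⁻ a, (1 : ℝ≥0∞) ^ (2 : ℝ) ∂(volume.withDensity η) = 1 := by
    rw [lintegral_withDensity_eq_lintegral_mul _ hη measurable_const]
    simpa using h1
  have e3 : ∫⁻ a, f a ^ (2 : ℝ) ∂(volume.withDensity η) = ∫⁻ x, η x * f x ^ 2 := by
    rw [lintegral_withDensity_eq_lintegral_mul _ hη (hf.pow_const _)]
    simp
  rw [e1, e2, e3, ENNReal.one_rpow, one_mul] at h
  refine (pow_le_pow_left' h 2).trans_eq ?_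
  rw [← ENNReal.rpow_natCast, ← ENNReal.rpow_mul]
  norm_num

theorem an2_trans {v : E → W} (hv : MemLp v 2 volume) :
    Tendsto (fun t : E => ∫⁻ x, ‖v (x - t) - v x‖ₑ ^ 2) (𝓝 0) (𝓝 0) := by
  let g : E → C(E, E) := fun t => ⟨fun x => x - t, by fun_prop⟩
  have hg : Continuous g := ContinuousMap.continuous_of_continuous_uncurry g
    (continuous_snd.sub continuous_fst)
  have hm : ∀ t, MeasurePreserving (g t) (volume : Measure E) volume := fun t =>
    measurePreserving_sub_right volume t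
  have hc : Continuous fun t => Lp.compMeasurePreserving (g t) (hm t) (hv.toLp v) :=
    Continuous.compMeasurePreservingLp continuous_const hg hm (by simp)
  have hae : ∀ t, (Lp.compMeasurePreserving (g t) (hm t) (hv.toLp v) : E → W)
      =ᵐ[volume] fun x => v (x - t) := fun t =>
    (Lp.coeFn_compMeasurePreserving _ (hm t)).trans
      ((hm t).quasiMeasurePreserving.ae_eq_comp hv.coeFn_toLp)
  have h1 : ∀ t, ∫⁻ x, ‖v (x - t) - v x‖ₑ ^ 2 =
      ‖Lp.compMeasurePreserving (g t) (hm t) (hv.toLp v)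
        - Lp.compMeasurePreserving (g 0) (hm 0) (hv.toLp v)‖ₑ ^ 2 := by
    intro t
    refine (enorm_sq_eq_of_ae ?_).symm
    filter_upwards [Lp.coeFn_sub (Lp.compMeasurePreserving (g t) (hm t) (hv.toLp v))
      (Lp.compMeasurePreserving (g 0) (hm 0) (hv.toLp v)), hae t, hae 0] with x h1 h2 h3
    rw [h1, Pi.sub_apply, h2, h3, sub_zero]
  simp_rw [h1]
  have h2 := ENNReal.Tendsto.pow (n := 2)
    ((hc.sub (continuous_const (y := Lp.compMeasurePreserving (g 0) (hm 0) (hv.toLp v)))).enorm.tendsto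
      0)
  simpa using h2

theorem an2_est {j : E → ℝ} (hj : Continuous j) (hc : HasCompactSupport j) (h0 : ∀ x, 0 ≤ j x)
    (h1 : ∫ x, j x = 1) {v : E → W} (hv : MemLp v 2 volume) (hs : StronglyMeasurable v) :
    ∫⁻ x, ‖mol j v x - v x‖ₑ ^ 2 ≤ ∫⁻ t, ‖j t‖ₑ * ∫⁻ x, ‖v (x - t) - v x‖ₑ ^ 2 := by
  have hi : Integrable j := hj.integrable_of_hasCompactSupport hc
  have h2 : ∫⁻ x, ‖j x‖ₑ = 1 := by
    rw [← ofReal_integral_norm_eq_lintegral_enorm hi]
    simp only [Real.norm_of_nonneg (h0 _)]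
    rw [h1, ENNReal.ofReal_one]
  have hm : Measurable fun z : E × E => ‖v (z.1 - z.2) - v z.1‖ₑ :=
    ((hs.comp_measurable (measurable_fst.sub measurable_snd)).sub
      (hs.comp_measurable measurable_fst)).enorm
  have h3 : ∀ x, ‖mol j v x - v x‖ₑ ^ 2 ≤ ∫⁻ t, ‖j t‖ₑ * ‖v (x - t) - v x‖ₑ ^ 2 := by
    intro x
    have hl : LocallyIntegrable (fun t => v (x - t)) volume :=
      (hv.comp_measurePreserving (Measure.measurePreserving_sub_left volume x)).locallyIntegrable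
        (by norm_num)
    have e1 : mol j v x = ∫ t, j t • v (x - t) := by
      rw [← integral_sub_left_eq_self (fun t => j t • v (x - t)) volume x]
      simp only [mol, sub_sub_cancel]
    have e2 : mol j v x - v x = ∫ t, j t • (v (x - t) - v x) := by
      simp only [smul_sub]
      rw [integral_sub (hl.integrable_smul_left_of_hasCompactSupport hj hc) (hi.smul_const _),
        integral_smul_const, h1, one_smul, e1]
    refine le_trans ?_ (an2_cs hj.measurable.enorm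
      (hm.comp (measurable_const.prodMk measurable_id)) h2)
    refine pow_le_pow_left' ?_ 2
    rw [e2]
    refine (enorm_integral_le_lintegral_enorm _).trans_eq ?_
    simp only [enorm_smul, Function.comp_apply, id]
  refine (lintegral_mono h3).trans_eq ?_
  rw [lintegral_lintegral_swap
    ((hj.measurable.enorm.comp measurable_snd).mul (hm.pow_const 2)).aemeasurable]
  refine lintegral_congr fun t => ?_
  exact lintegral_const_mul' _ _ enorm_ne_top

theorem an2_conv {j : ℕ → E → ℝ} (hj : ∀ n, Continuous (j n)) (h0 : ∀ n x, 0 ≤ j n x)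
    (hz : ∀ (n : ℕ) x, 1 / (n + 1 : ℝ) ≤ ‖x‖ → j n x = 0) (h1 : ∀ n, ∫ x, j n x = 1)
    {v : E → W} (hv : MemLp v 2 volume) :
    Tendsto (fun n => ∫⁻ x, ‖mol (j n) v x - v x‖ₑ ^ 2) atTop (𝓝 0) := by
  have hc : ∀ n, HasCompactSupport (j n) := fun n =>
    HasCompactSupport.intro (isCompact_closedBall (0 : E) (1 / (n + 1 : ℝ))) fun x hx =>
      hz n x (le_of_lt (by simpa using hx))
  have hae := hv.1.ae_eq_mk
  have hv' : MemLp (hv.1.mk v) 2 volume := hv.ae_eq hae
  have e : ∀ n, ∫⁻ x, ‖mol (j n) v x - v x‖ₑ ^ 2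
      = ∫⁻ x, ‖mol (j n) (hv.1.mk v) x - hv.1.mk v x‖ₑ ^ 2 := by
    intro n
    refine lintegral_congr_ae ?_
    filter_upwards [hae] with x hx
    have : mol (j n) v x = mol (j n) (hv.1.mk v) x := by
      refine integral_congr_ae ?_
      filter_upwards [hae] with y hy
      rw [hy]
    rw [hx, this]
  simp_rw [e]
  refine ENNReal.tendsto_nhds_zero.2 fun ε hε => ?_
  obtain ⟨δ, hδ, hδ'⟩ := Metric.eventually_nhds_iff.1
    (ENNReal.tendsto_nhds_zero.1 (an2_trans hv') ε hε)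
  filter_upwards [(tendsto_one_div_add_atTop_nhds_zero_nat (𝕜 := ℝ)).eventually
    (gt_mem_nhds hδ)] with n hn
  refine (an2_est (hj n) (hc n) (h0 n) (h1 n) hv' hv.1.stronglyMeasurable_mk).trans ?_
  have h2 : ∫⁻ x, ‖j n x‖ₑ = 1 := by
    rw [← ofReal_integral_norm_eq_lintegral_enorm
      ((hj n).integrable_of_hasCompactSupport (hc n))]
    simp only [Real.norm_of_nonneg (h0 _ _)]
    rw [h1, ENNReal.ofReal_one]
  calc _ ≤ ∫⁻ t, ‖j n t‖ₑ * ε := by
        refine lintegral_mono fun t => ?_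
        rcases le_or_gt (1 / (n + 1 : ℝ)) ‖t‖ with h | h
        · simp [hz n t h]
        · exact mul_le_mul_right (hδ' (by simpa using h.trans hn)) _
    _ = ε := by rw [lintegral_mul_const _ (hj n).measurable.enorm, h2, one_mul]

theorem moll (E W : Type) [NormedAddCommGroup E] [NormedSpace ℝ E] [FiniteDimensional ℝ E]
    [MeasureSpace E] [BorelSpace E] [(volume : Measure E).IsAddHaarMeasure]
    [NormedAddCommGroup W] [InnerProductSpace ℂ W] [FiniteDimensional ℂ W] [CompleteSpace W] :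
    ∃ (j : ℕ → E → ℝ) (C : ℝ≥0), (∀ n, ContDiff ℝ ∞ (j n)) ∧ (∀ n x, 0 ≤ j n x) ∧
      (∀ (n : ℕ) x, 1 / (n + 1 : ℝ) ≤ ‖x‖ → j n x = 0) ∧
      (∀ n, ∫⁻ x, (‖j n x‖ₑ + ‖x‖ₑ * ‖fderiv ℝ (j n) x‖ₑ) ≤ C) ∧
      ∀ v : E → W, MemLp v 2 volume →
        Tendsto (fun n => ∫⁻ x, ‖mol (j n) v x - v x‖ₑ ^ 2) atTop (𝓝 0) := by
  let φ : ContDiffBump (0 : E) := ⟨1 / 2, 1, by norm_num, by norm_num⟩
  obtain ⟨j0, hj0⟩ : ∃ j0 : E → ℝ, j0 = φ.normed volume := ⟨_, rfl⟩
  have a1 : ContDiff ℝ ∞ j0 := hj0 ▸ φ.contDiff_normed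
  have a2 : ∀ x, 0 ≤ j0 x := fun x => hj0 ▸ φ.nonneg_normed x
  have a3 : ∀ x, 1 ≤ ‖x‖ → j0 x = 0 := by
    intro x hx
    by_contra h
    have h2 : x ∈ Function.support (φ.normed volume) := hj0 ▸ h
    rw [φ.support_normed_eq] at h2
    have h3 : ‖x‖ < 1 := by simpa [φ] using h2
    linarith
  have a4 : ∫ x, j0 x = 1 := hj0 ▸ φ.integral_normed
  have a5 : HasCompactSupport j0 := hj0 ▸ φ.hasCompactSupport_normed
  obtain ⟨G, hG⟩ : ∃ G : E → ℝ, G = fun x => ‖j0 x‖ + ‖x‖ * ‖fderiv ℝ j0 x‖ := ⟨_, rfl⟩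
  have b1 : Continuous G := by
    have := a1.continuous_fderiv (by simp)
    have := a1.continuous
    rw [hG]
    fun_prop
  have b2 : HasCompactSupport G := by
    rw [hG]
    exact a5.norm.add (a5.fderiv (𝕜 := ℝ)).norm.mul_left
  have b3 : ∀ x, 0 ≤ G x := fun x => by rw [hG]; positivity
  have hc : ∀ n : ℕ, (0 : ℝ) < n + 1 := fun n => by positivity
  have sc : ∀ (n : ℕ) (f : E → ℝ), ∫ x, (n + 1 : ℝ) ^ Module.finrank ℝ E * f ((n + 1 : ℝ) • x)
      = ∫ x, f x := by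
    intro n f
    rw [integral_const_mul, Measure.integral_comp_smul, abs_of_pos (by positivity), smul_eq_mul,
      ← mul_assoc, mul_inv_cancel₀ (by positivity), one_mul]
  have c1 : ∀ n : ℕ, ContDiff ℝ ∞
      fun x : E => (n + 1 : ℝ) ^ Module.finrank ℝ E * j0 ((n + 1 : ℝ) • x) := fun n =>
    contDiff_const.mul (a1.comp (contDiff_const_smul _))
  have c2 : ∀ (n : ℕ) (x : E), 0 ≤ (n + 1 : ℝ) ^ Module.finrank ℝ E * j0 ((n + 1 : ℝ) • x) :=
    fun n x => mul_nonneg (by positivity) (a2 _)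
  have c3 : ∀ (n : ℕ) (x : E), 1 / (n + 1 : ℝ) ≤ ‖x‖ →
      (n + 1 : ℝ) ^ Module.finrank ℝ E * j0 ((n + 1 : ℝ) • x) = 0 := by
    intro n x hx
    rw [a3, mul_zero]
    rw [norm_smul, Real.norm_of_nonneg (hc n).le, mul_comm]
    exact (div_le_iff₀ (hc n)).1 hx
  refine ⟨fun n x => (n + 1 : ℝ) ^ Module.finrank ℝ E * j0 ((n + 1 : ℝ) • x),
    Real.toNNReal (∫ x, G x), c1, c2, c3, fun n => ?_, fun v hv =>
      an2_conv (fun n => (c1 n).continuous) c2 c3 (fun n => (sc n j0).trans a4) hv⟩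
  have d1 : ∀ x : E, fderiv ℝ
      (fun x : E => (n + 1 : ℝ) ^ Module.finrank ℝ E * j0 ((n + 1 : ℝ) • x)) x
      = ((n + 1 : ℝ) ^ Module.finrank ℝ E * (n + 1)) • fderiv ℝ j0 ((n + 1 : ℝ) • x) := by
    intro x
    have h1 := ((a1.differentiable (by simp) ((n + 1 : ℝ) • x)).hasFDerivAt.comp x
      ((hasFDerivAt_id x).const_smul (n + 1 : ℝ))).const_mul ((n + 1 : ℝ) ^ Module.finrank ℝ E)
    refine h1.fderiv.trans ?_
    ext b
    simp [mul_assoc]
  have d2 : Integrable fun x : E => (n + 1 : ℝ) ^ Module.finrank ℝ E * G ((n + 1 : ℝ) • x) :=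
    ((b1.integrable_of_hasCompactSupport b2).comp_smul (hc n).ne').const_mul _
  change _ ≤ ENNReal.ofReal (∫ x, G x)
  rw [← sc n G, ofReal_integral_eq_lintegral_ofReal d2
    (ae_of_all _ fun x => mul_nonneg (by positivity) (b3 _))]
  refine le_of_eq (lintegral_congr fun x => ?_)
  rw [d1, ← ofReal_norm, ← ofReal_norm, ← ofReal_norm,
    ← ENNReal.ofReal_mul (norm_nonneg _), ← ENNReal.ofReal_add (norm_nonneg _) (by positivity), hG]
  congr 1
  simp only [norm_mul, norm_smul, norm_pow, Real.norm_of_nonneg (hc n).le]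
  ring

end Pool.Agent.P.MP_e0a138_an.AD
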