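import Pool.Agent.P.MP_e0a138_an.AB7

set_option autoImplicit false
set_option linter.unusedSectionVars false
set_option linter.unusedVariables false

open MeasureTheory Filter Topology Metric Complex
open scoped ENNReal NNReal ContDiff InnerProductSpace ComplexConjugate

noncomputable section
namespace Pool.Agent.P.MP_e0a138_an.AD

variable {N p q k : ℕ} {W : Type} [NormedAddCommGroup W] [InnerProductSpace ℂ W]
  [FiniteDimensional ℂ W] [CompleteSpace W]
variable {E : Type} [NormedAddCommGroup E] [NormedSpace ℝ E] [FiniteDimensional ℝ E]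
  [MeasureSpace E] [BorelSpace E] [(volume : Measure E).IsAddHaarMeasure] {κ : Type} [Fintype κ]

theorem mol_props {j : E → ℝ} (hj : ContDiff ℝ ∞ j) {e : ℝ} (he : 0 < e)
    (hj0 : ∀ x, e ≤ ‖x‖ → j x = 0) {v : E → W} (hv : MemLp v 2 volume) :
    ContDiff ℝ ∞ (mol j v) ∧
      (∀ x b, fderiv ℝ (mol j v) x b = ∫ y, fderiv ℝ j (x - y) b • v y) ∧
      ∀ K : Set E, (∀ x ∉ K, v x = 0) → ∀ x ∉ cthickening e K, mol j v x = 0 := by
  have : ProperSpace E := FiniteDimensional.proper ℝ E
  have hc : HasCompactSupport j :=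
    HasCompactSupport.intro (isCompact_closedBall (0 : E) e) fun x hx =>
      hj0 x (by
        rw [mem_closedBall_zero_iff, not_le] at hx
        exact hx.le)
  have hl : LocallyIntegrable v volume := hv.locallyIntegrable (by norm_num)
  have hm : mol j v =
      convolution v j (ContinuousLinearMap.lsmul ℝ ℝ : ℝ →L[ℝ] W →L[ℝ] W).flip volume := by
    funext x; rfl
  have hj1 : ContDiff ℝ 1 j := hj.of_le (by simp)
  refine ⟨?_, ?_, ?_⟩
  · rw [hm]
    exact hc.contDiff_convolution_right (n := ⊤) _ hl hj
  · intro x b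
    rw [hm, (hc.hasFDerivAt_convolution_right _ hl hj1 x).fderiv,
      convolution_precompR_apply _ hl (hc.fderiv ℝ) (hj1.continuous_fderiv (by simp))]
    rfl
  · intro K hK x hx
    have h0 : ∀ y, j (x - y) • v y = 0 := by
      intro y
      by_cases hy : y ∈ K
      · rw [hj0 (x - y) ?_, zero_smul]
        by_contra hlt
        exact hx (mem_cthickening_of_dist_le x y e K hy
          (by rw [dist_eq_norm]; exact (not_le.1 hlt).le))
      · rw [hK y hy, smul_zero]
    simp only [mol, h0, integral_zero]

end Pool.Agent.P.MP_e0a138_an.AD
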