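import Pool.Agent.P.MP_e0a138_an.AN1

set_option autoImplicit false
set_option linter.unusedSectionVars false
set_option linter.unusedVariables false

open MeasureTheory Filter Topology Metric Complex
open scoped ENNReal NNReal ContDiff InnerProductSpace ComplexConjugate

noncomputable section
namespace Pool.Agent.P.MP_e0a138_an.AD

variable {N p q k : ℕ} {W : Type} [NormedAddCommGroup W] [InnerProductSpace ℂ W]
  [FiniteDimensional ℂ W] [CompleteSpace W]
variable {E : Type} [NormedAddCommGroup E] [NormedSpace ℝ E] [FiniteDimensional ℝ E]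
  [MeasureSpace E] [BorelSpace E] [(volume : Measure E).IsAddHaarMeasure] {κ : Type} [Fintype κ]

variable {O : Set E} {A : κ → E → W →L[ℂ] W} {B P : E → W →L[ℂ] W} {ρ : E → ℝ}

theorem AN3b_int {K : Set E} (hO : IsOpen O) (hK : IsCompact K) (hKO : K ⊆ O) {c : E → ℝ}
    (hc : Continuous c) (h0 : ∀ y ∉ K, c y = 0) {M : E → W →L[ℂ] W} (hM : ContinuousOn M O)
    {v : E → W} (hv : MemLp v 2 volume) : Integrable (fun y => c y • M y (v y)) := by
  have hM' : Continuous fun y => c y • M y :=
    continuous_of_cpt hO hK.isClosed hKO (hc.continuousOn.smul hM) fun y hy => by simp [h0 y hy]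
  obtain ⟨C, hC⟩ := hK.exists_bound_of_continuousOn hM'.continuousOn
  have hvK : IntegrableOn v K := (hv.locallyIntegrable (by norm_num)).integrableOn_isCompact hK
  have hsupp : Function.support (fun y => c y • M y (v y)) ⊆ K := by
    intro y hy
    by_contra hyK
    exact hy (by simp [h0 y hyK])
  rw [← integrableOn_iff_integrable_of_support_subset hsupp]
  have hm : AEStronglyMeasurable (fun y => evC W (c y • M y) (v y)) (volume.restrict K) :=
    (evC W).aestronglyMeasurable_comp₂ hM'.aestronglyMeasurable hvK.aestronglyMeasurable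
  refine Integrable.mono' (hvK.norm.const_mul C) hm ?_
  refine (ae_restrict_iff' hK.measurableSet).2 (Eventually.of_forall fun y hy => ?_)
  exact ((c y • M y).le_opNorm (v y)).trans
    (mul_le_mul_of_nonneg_right (hC y hy) (norm_nonneg _))

theorem AN3b_fd0 {j : E → ℝ} {e : ℝ} (hj : ∀ x, e ≤ ‖x‖ → j x = 0) {z : E} (hz : e < ‖z‖) :
    fderiv ℝ j z = 0 := by
  have : j =ᶠ[𝓝 z] fun _ => 0 := by
    filter_upwards [(isOpen_lt continuous_const continuous_norm).mem_nhds hz] with y hy
      using hj y (le_of_lt hy)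
  rw [this.fderiv_eq]; simp

theorem AN3b_rsmul (c : ℝ) (w u : W) : ⟪c • w, u⟫_ℂ = c • ⟪w, u⟫_ℂ := by
  rw [← Complex.coe_smul, inner_smul_left]; simp

theorem AN3b_rsmul' (c : ℝ) (w u : W) : ⟪w, c • u⟫_ℂ = c • ⟪w, u⟫_ℂ := by
  rw [← Complex.coe_smul, inner_smul_right]; simp

theorem AN3b_star (M : W →L[ℂ] W) (w u : W) : ⟪M w, u⟫_ℂ = ⟪w, star M u⟫_ℂ := by
  rw [ContinuousLinearMap.star_eq_adjoint, ContinuousLinearMap.adjoint_inner_right]

theorem AN3b_fderiv {j : E → ℝ} (hj : ContDiff ℝ ∞ j) {Q : E → W →L[ℂ] W} {x y : E}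
    (hQ : DifferentiableAt ℝ Q y) (w : W) (b : E) :
    fderiv ℝ (fun y => j (x - y) • Q y w) y b =
      j (x - y) • fderiv ℝ Q y b w - fderiv ℝ j (x - y) b • Q y w := by
  have h1 : HasFDerivAt (fun y => j (x - y))
      ((fderiv ℝ j (x - y)).comp (-ContinuousLinearMap.id ℝ E)) y :=
    (hj.differentiable (by simp) (x - y)).hasFDerivAt.comp y
      ((hasFDerivAt_id y).const_sub x)
  have h2 : DifferentiableAt ℝ (fun y => Q y w) y :=
    differentiableAt_capp hQ (differentiableAt_const w)
  have h3 := (h1.smul h2.hasFDerivAt).fderiv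
  have h4 : fderiv ℝ (fun y => j (x - y) • Q y w) y = _ := h3
  have h5 : fderiv ℝ (fun y => Q y w) y b = fderiv ℝ Q y b w := by
    rw [fderiv_capp hQ (differentiableAt_const w)]; simp
  rw [h4]
  simp [h5, sub_eq_add_neg]

theorem fried_id (hc : Coef O A B P ρ) (b : κ → E) : ∃ Nn : E → W →L[ℂ] W, ContinuousOn Nn O ∧
    ∀ (j : E → ℝ) (e : ℝ) (x : E) (v g : E → W), ContDiff ℝ ∞ j → 0 < e →
      (∀ x, e ≤ ‖x‖ → j x = 0) → closedBall x e ⊆ O → MemLp v 2 volume → MemLp g 2 volume →
      (∀ a, Tst O P a → ∫ y, ⟪op b A B a y, v y⟫_ℂ ∂wm O ρ = ∫ y, ⟪a y, g y⟫_ℂ ∂wm O ρ) →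
      ∑ a, ∫ y, fderiv ℝ j (x - y) (b a) • A a y (P y (v y)) =
        ∫ y, j (x - y) • (P y (g y) - Nn y (v y)) := by
  have hO := hc.isOpen
  have hQ : ContDiffOn ℝ ∞ (fun y => (ρ y)⁻¹ • P y) O :=
    (hc.hρ.inv fun y hy => (hc.pos y hy).ne').smul hc.hP
  set Q : E → W →L[ℂ] W := fun y => (ρ y)⁻¹ • P y with hQdef
  have hN : ContDiffOn ℝ ∞
      (fun y => ρ y • (∑ a, A a y * fderiv ℝ Q y (b a) + B y * Q y)) O :=
    hc.hρ.smul ((ContDiffOn.sum fun a _ =>
      (hc.hA a).mul (contDiffOn_fderiv_apply' hO hQ _)).add (hc.hB.mul hQ))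
  refine ⟨fun y => star (ρ y • (∑ a, A a y * fderiv ℝ Q y (b a) + B y * Q y)),
    (contDiffOn_star hN).continuousOn, ?_⟩
  set Nn : E → W →L[ℂ] W :=
    fun y => star (ρ y • (∑ a, A a y * fderiv ℝ Q y (b a) + B y * Q y)) with hNdef
  have hNc : ContinuousOn Nn O := (contDiffOn_star hN).continuousOn
  intro j e x v g hj he hj0 hKO hv hg H
  have hK : IsCompact (closedBall x e) := isCompact_closedBall x e
  have hout : ∀ y ∉ closedBall x e, e < ‖x - y‖ := fun y hy => by
    rw [mem_closedBall, dist_comm, dist_eq_norm, not_le] at hy; exact hy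
  have hz : ∀ y ∉ closedBall x e, j (x - y) = 0 := fun y hy => hj0 _ (hout y hy).le
  have hz' : ∀ a, ∀ y ∉ closedBall x e, fderiv ℝ j (x - y) (b a) = 0 := fun a y hy => by
    rw [AN3b_fd0 hj0 (hout y hy)]; rfl
  have hjs : ContDiff ℝ ∞ fun y => j (x - y) := hj.comp (contDiff_const.sub contDiff_id)
  have hjd : ∀ a, Continuous fun y => fderiv ℝ j (x - y) (b a) := fun a =>
    ((hj.continuous_fderiv (by simp)).comp (continuous_const.sub continuous_id)).clm_apply
      continuous_const
  have i1 : ∀ a, Integrable fun y => fderiv ℝ j (x - y) (b a) • A a y (P y (v y)) := fun a =>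
    AN3b_int (M := fun y => A a y * P y) hO hK hKO (hjd a) (hz' a)
      ((hc.hA a).mul hc.hP).continuousOn hv
  have i2 : Integrable fun y => j (x - y) • Nn y (v y) :=
    AN3b_int hO hK hKO hjs.continuous hz hNc hv
  have i3 : Integrable fun y => j (x - y) • P y (g y) :=
    AN3b_int hO hK hKO hjs.continuous hz hc.hP.continuousOn hg
  have i4 : Integrable fun y => ∑ a, fderiv ℝ j (x - y) (b a) • A a y (P y (v y)) :=
    integrable_finsetSum _ fun a _ => i1 a
  have i5 : Integrable fun y =>
      ∑ a, fderiv ℝ j (x - y) (b a) • A a y (P y (v y)) + j (x - y) • Nn y (v y) := i4.add i2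
  have key : ∫ y, (∑ a, fderiv ℝ j (x - y) (b a) • A a y (P y (v y)) + j (x - y) • Nn y (v y)) =
      ∫ y, j (x - y) • P y (g y) := by
    refine ext_inner_left ℂ fun w => ?_
    have hT : Tst O P fun y => j (x - y) • Q y w := by
      have h0 : ∀ y ∉ closedBall x e, j (x - y) • Q y w = 0 := fun y hy => by simp [hz y hy]
      refine ⟨contDiff_of_cpt hO isClosed_closedBall hKO
        (hjs.contDiffOn.smul (contDiffOn_capp hQ contDiffOn_const)) h0,
        HasCompactSupport.intro hK h0, ?_, fun y => ?_⟩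
      · refine (closure_minimal ?_ isClosed_closedBall).trans hKO
        intro y hy
        by_contra hyK
        exact hy (h0 y hyK)
      · by_cases hy : y ∈ O
        · have h1 : P y (P y w) = P y w := congrArg (fun M : W →L[ℂ] W => M w) (hc.idem y hy)
          simp [hQdef, h1]
        · have h1 : j (x - y) • Q y w = 0 := h0 y fun h => hy (hKO h)
          simp only [h1, map_zero]
    have h1 := H _ hT
    rw [integral_wm hO.measurableSet hc.hρ.continuousOn fun y hy => (hc.pos y hy).le,
      integral_wm hO.measurableSet hc.hρ.continuousOn fun y hy => (hc.pos y hy).le] at h1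
    rw [← integral_inner i5, ← integral_inner i3,
      ← setIntegral_eq_integral_of_forall_compl_eq_zero (s := O),
      ← setIntegral_eq_integral_of_forall_compl_eq_zero (s := O)
        (f := fun y => ⟪w, j (x - y) • P y (g y)⟫_ℂ)]
    · refine Eq.trans ?_ (h1.trans ?_)
      · refine setIntegral_congr_fun hO.measurableSet fun y hy => ?_
        have hρ0 := (hc.pos y hy).ne'
        have hAP : ∀ a, ρ y • ⟪A a y (Q y w), v y⟫_ℂ = -⟪w, A a y (P y (v y))⟫_ℂ := fun a => by
          have e1 : A a y (Q y w) = (ρ y)⁻¹ • (A a y * P y) w := by simp [hQdef]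
          rw [e1, AN3b_rsmul, smul_inv_smul₀ hρ0, AN3b_star, star_mul, hc.sa y hy,
            hc.skew a y hy, mul_neg, ← hc.comm a y hy]
          simp
        have hNv : ⟪w, Nn y (v y)⟫_ℂ = ∑ a, ρ y • ⟪A a y (fderiv ℝ Q y (b a) w), v y⟫_ℂ +
            ρ y • ⟪B y (Q y w), v y⟫_ℂ := by
          rw [hNdef, ← AN3b_star, smul_apply, AN3b_rsmul,
            add_apply, sum_apply, inner_add_left,
            sum_inner, smul_add, Finset.smul_sum]
          rfl
        simp only [op, AN3b_fderiv hj (diffAt_of_contDiffOn hO hQ hy),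
          inner_add_right, inner_sum, AN3b_rsmul', hNv, inner_add_left, sum_inner, map_sub,
          ContinuousLinearMap.map_smul_of_tower, inner_sub_left, AN3b_rsmul, smul_add, smul_sub,
          Finset.smul_sum, Finset.sum_sub_distrib]
        simp only [smul_comm (ρ y) (fderiv ℝ j (x - y) _), hAP, smul_comm (ρ y) (j (x - y)),
          smul_neg, Finset.sum_neg_distrib]
        abel
      · refine setIntegral_congr_fun hO.measurableSet fun y hy => ?_
        have hρ0 := (hc.pos y hy).ne'
        have e1 : Q y w = (ρ y)⁻¹ • P y w := by simp [hQdef]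
        simp only [e1, AN3b_rsmul, AN3b_rsmul']
        rw [smul_comm, smul_inv_smul₀ hρ0, AN3b_star, hc.sa y hy]
    · intro y hy
      simp [hz y fun h => hy (hKO h)]
    · intro y hy
      simp [hz y fun h => hy (hKO h), hz' _ y fun h => hy (hKO h)]
  rw [integral_add i4 i2, integral_finsetSum _ fun a _ => i1 a] at key
  simp only [smul_sub]
  rw [integral_sub i3 i2, ← key, add_sub_cancel_right]

end Pool.Agent.P.MP_e0a138_an.AD
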