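import Pool.Agent.P.MP_e0a138_an.AN3a
import Pool.Agent.P.MP_e0a138_an.AN3b

set_option autoImplicit false
set_option linter.unusedSectionVars false
set_option linter.unusedVariables false

open MeasureTheory Filter Topology Metric Complex
open scoped ENNReal NNReal ContDiff InnerProductSpace ComplexConjugate

noncomputable section
namespace Pool.Agent.P.MP_e0a138_an.AD

variable {N p q k : ℕ} {W : Type} [NormedAddCommGroup W] [InnerProductSpace ℂ W]
  [FiniteDimensional ℂ W] [CompleteSpace W]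
variable {E : Type} [NormedAddCommGroup E] [NormedSpace ℝ E] [FiniteDimensional ℝ E]
  [MeasureSpace E] [BorelSpace E] [(volume : Measure E).IsAddHaarMeasure] {κ : Type} [Fintype κ]

variable {O : Set E} {A : κ → E → W →L[ℂ] W} {B P : E → W →L[ℂ] W} {ρ : E → ℝ}

theorem an4a_int {φ : E → ℝ} (hφ : Continuous φ) {x : E} {e : ℝ}
    (h0 : ∀ y ∉ closedBall x e, φ y = 0) {T : E → W →L[ℂ] W}
    (hT : ContinuousOn T (closedBall x e)) {v : E → W} (hv : MemLp v 2 volume) :
    Integrable (fun y => φ y • T y (v y)) := by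
  have hK : IsCompact (closedBall x e) := isCompact_closedBall x e
  have hvi : IntegrableOn v (closedBall x e) :=
    (hv.locallyIntegrable (by norm_num)).integrableOn_isCompact hK
  have hc : ContinuousOn (fun y => φ y • T y) (closedBall x e) := hφ.continuousOn.smul hT
  obtain ⟨C, hC⟩ := hK.exists_bound_of_continuousOn hc
  have hm : AEStronglyMeasurable (fun y => (φ y • T y) (v y)) (volume.restrict (closedBall x e)) :=
    (isBoundedBilinearMap_apply (𝕜 := ℂ) (E := W) (F := W)).continuous.comp_aestronglyMeasurable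
      ((hc.aestronglyMeasurable measurableSet_closedBall).prodMk hvi.aestronglyMeasurable)
  have h1 : IntegrableOn (fun y => (φ y • T y) (v y)) (closedBall x e) := by
    refine Integrable.mono' (hvi.norm.const_mul C) hm ?_
    filter_upwards [ae_restrict_mem measurableSet_closedBall] with y hy
    exact ((φ y • T y).le_opNorm _).trans (mul_le_mul_of_nonneg_right (hC y hy) (norm_nonneg _))
  exact h1.integrable_of_forall_notMem_eq_zero fun y hy => by simp [h0 y hy]

theorem an4a_bd {F : E → W} {c : ℝ≥0} {j : E → ℝ} {x : E} {v g : E → W}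
    (h : ∀ y, ‖F y‖ ≤
      c * ((‖j (x - y)‖ + ‖x - y‖ * ‖fderiv ℝ j (x - y)‖) * (‖v y‖ + ‖g y‖))) :
    ‖∫ y, F y‖ₑ ≤
      c * ∫⁻ y, (‖j (x - y)‖ₑ + ‖x - y‖ₑ * ‖fderiv ℝ j (x - y)‖ₑ) * (‖v y‖ₑ + ‖g y‖ₑ) := by
  rw [← lintegral_const_mul' _ _ ENNReal.coe_ne_top]
  refine (enorm_integral_le_lintegral_enorm F).trans (lintegral_mono fun y => ?_)
  simp only [enorm_eq_nnnorm]
  norm_cast
  rw [← NNReal.coe_le_coe]
  push_cast
  exact h y

theorem an4a_nb {G : Type} [NormedAddCommGroup G] {f : E → G} {K : Set E} (hK : IsCompact K)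
    (hf : ContinuousOn f K) : ∃ C : ℝ≥0, ∀ x ∈ K, ‖f x‖ ≤ C := by
  obtain ⟨C, hC⟩ := hK.exists_bound_of_continuousOn hf
  exact ⟨C.toNNReal, fun x hx => (hC x hx).trans (Real.le_coe_toNNReal C)⟩

theorem an4a_lip {G : Type} [NormedAddCommGroup G] [NormedSpace ℝ G] {f : E → G} {K : Set E}
    (hO : IsOpen O) (hK : IsCompact K) (hKO : K ⊆ O) (hf : ContDiffOn ℝ ∞ f O) :
    ∃ L : ℝ≥0, ∀ x ∈ K, ∀ y ∈ K, ‖f x - f y‖ ≤ L * ‖x - y‖ := by
  have h : LocallyLipschitzOn K f := fun x hx => by
    have h1 : ContDiffAt ℝ 1 f x := (hf.contDiffAt (hO.mem_nhds (hKO hx))).of_le (by simp)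
    obtain ⟨L, t, ht, h2⟩ := h1.exists_lipschitzOnWith
    exact ⟨L, t, mem_nhdsWithin_of_mem_nhds ht, h2⟩
  obtain ⟨L, hL⟩ := h.exists_lipschitzOnWith_of_compact hK
  refine ⟨L, fun x hx y hy => ?_⟩
  have := hL.dist_le_mul x hx y hy
  rwa [dist_eq_norm, dist_eq_norm] at this

theorem an4a_out {x y : E} {e : ℝ} (h : y ∉ closedBall x e) : e < ‖x - y‖ := by
  rwa [mem_closedBall, dist_comm, dist_eq_norm, not_le] at h

theorem an4a_dj {j : E → ℝ} {e : ℝ} (hj0 : ∀ x, e ≤ ‖x‖ → j x = 0) {z : E} (hz : e < ‖z‖) :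
    fderiv ℝ j z = 0 :=
  fderiv_eq_zero_of_closed (O := Set.univ) (K := closedBall 0 e) isOpen_univ isClosed_closedBall
    (fun y _ hy => hj0 y (by rw [mem_closedBall_zero_iff, not_le] at hy; exact hy.le))
    (Set.mem_univ _) (by rwa [mem_closedBall_zero_iff, not_le])

theorem fried_bound (hc : Coef O A B P ρ) (b : κ → E) {K : Set E} (hK : IsCompact K) {e₀ : ℝ}
    (he₀ : 0 < e₀) (hKO : cthickening (2 * e₀) K ⊆ O) : ∃ C : ℝ≥0,
    ∀ (j : E → ℝ) (e : ℝ) (v g : E → W), ContDiff ℝ ∞ j → 0 < e → e ≤ e₀ →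
      (∀ x, e ≤ ‖x‖ → j x = 0) → MemLp v 2 volume → MemLp g 2 volume →
      (∀ a, Tst O P a → ∫ y, ⟪op b A B a y, v y⟫_ℂ ∂wm O ρ = ∫ y, ⟪a y, g y⟫_ℂ ∂wm O ρ) →
      ∀ x ∈ cthickening e₀ K, ‖op b A B (fun y => P y (mol j v y)) x‖ₑ ≤
        C * ∫⁻ y, (‖j (x - y)‖ₑ + ‖x - y‖ₑ * ‖fderiv ℝ j (x - y)‖ₑ) * (‖v y‖ₑ + ‖g y‖ₑ) := by
  obtain ⟨Nn, hNn, hid⟩ := fried_id hc b
  have hK2 : IsCompact (cthickening (2 * e₀) K) := hK.cthickening
  have hQ : ∀ a, ContDiffOn ℝ ∞ (fun y => A a y * P y) O := fun a => (hc.hA a).mul hc.hP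
  have hM : ContDiffOn ℝ ∞ (fun x => ∑ a, A a x * fderiv ℝ P x (b a) + B x * P x) O :=
    (ContDiffOn.sum fun a _ =>
      (hc.hA a).mul (contDiffOn_fderiv_apply' hc.isOpen hc.hP (b a))).add (hc.hB.mul hc.hP)
  obtain ⟨CM, hCM⟩ := an4a_nb hK2 (hM.continuousOn.mono hKO)
  obtain ⟨CP, hCP⟩ := an4a_nb hK2 (hc.hP.continuousOn.mono hKO)
  obtain ⟨CN, hCN⟩ := an4a_nb hK2 (hNn.mono hKO)
  choose L hL using fun a => an4a_lip hc.isOpen hK2 hKO (hQ a)
  refine ⟨CM + ∑ a, L a * ‖b a‖₊ + (CP + CN), fun j e v g hj he hee hj0 hv hg ht x hx => ?_⟩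
  have hball : closedBall x e ⊆ cthickening (2 * e₀) K :=
    (closedBall_subset_cthickening hx e).trans
      ((cthickening_cthickening_subset he.le he₀.le K).trans (cthickening_mono (by linarith) K))
  have hx2 : x ∈ cthickening (2 * e₀) K := hball (mem_closedBall_self he.le)
  have hxO : x ∈ O := hKO hx2
  obtain ⟨m1, m2, -⟩ := mol_props hj he hj0 hv
  have hsub : Continuous fun y : E => x - y := continuous_const.sub continuous_id
  have c1 : Continuous fun y => j (x - y) := hj.continuous.comp hsub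
  have c2 : ∀ a, Continuous fun y => fderiv ℝ j (x - y) (b a) := fun a =>
    ((hj.continuous_fderiv (by simp)).comp hsub).clm_apply continuous_const
  have z1 : ∀ y ∉ closedBall x e, j (x - y) = 0 := fun y hy => hj0 _ (an4a_out hy).le
  have z2 : ∀ y ∉ closedBall x e, fderiv ℝ j (x - y) = 0 := fun y hy =>
    an4a_dj hj0 (an4a_out hy)
  have z3 : ∀ a, ∀ y ∉ closedBall x e, fderiv ℝ j (x - y) (b a) = 0 := fun a y hy => by
    rw [z2 y hy]; rfl
  have i1 : Integrable fun y => j (x - y) • v y :=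
    an4a_int c1 z1 (T := fun _ => 1) continuousOn_const hv
  have i2 : ∀ a, Integrable fun y => fderiv ℝ j (x - y) (b a) • v y := fun a =>
    an4a_int (c2 a) (z3 a) (T := fun _ => 1) continuousOn_const hv
  have i3 : ∀ a, Integrable fun y => fderiv ℝ j (x - y) (b a) • A a y (P y (v y)) := fun a =>
    an4a_int (c2 a) (z3 a) (T := fun y => A a y * P y)
      ((hQ a).continuousOn.mono (hball.trans hKO)) hv
  have i4 : ∀ a, Integrable fun y =>
      fderiv ℝ j (x - y) (b a) • (A a x * P x - A a y * P y) (v y) := fun a =>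
    an4a_int (c2 a) (z3 a) (T := fun y => A a x * P x - A a y * P y)
      (continuousOn_const.sub ((hQ a).continuousOn.mono (hball.trans hKO))) hv
  have e1 : (∑ a, A a x * fderiv ℝ P x (b a) + B x * P x) (mol j v x) =
      ∫ y, j (x - y) • (∑ a, A a x * fderiv ℝ P x (b a) + B x * P x) (v y) := by
    rw [mol, ← ContinuousLinearMap.integral_comp_comm _ i1]
    simp only [ContinuousLinearMap.map_smul_of_tower]
  have e2 : ∀ a, (A a x * P x) (fderiv ℝ (mol j v) x (b a)) =
      (∫ y, fderiv ℝ j (x - y) (b a) • (A a x * P x - A a y * P y) (v y)) +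
        ∫ y, fderiv ℝ j (x - y) (b a) • A a y (P y (v y)) := fun a => by
    rw [m2, ← ContinuousLinearMap.integral_comp_comm _ (i2 a), ← integral_add (i4 a) (i3 a)]
    refine integral_congr_ae (Eventually.of_forall fun y => ?_)
    simp only [ContinuousLinearMap.map_smul_of_tower, ← smul_add]
    congr 1
    simp
  have e3 : op b A B (fun y => P y (mol j v y)) x =
      (∑ a, A a x * fderiv ℝ P x (b a) + B x * P x) (mol j v x) +
        ∑ a, (A a x * P x) (fderiv ℝ (mol j v) x (b a)) := by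
    have d1 := diffAt_of_contDiffOn hc.isOpen hc.hP hxO
    have d2 : DifferentiableAt ℝ (mol j v) x := m1.differentiable (by simp) x
    simp only [op, fderiv_capp d1 d2, map_add, Finset.sum_add_distrib]
    simp only [add_apply, sum_apply, mul_apply_eq_comp]
    abel
  rw [e3, e1, Finset.sum_congr rfl fun a _ => e2 a, Finset.sum_add_distrib,
    hid j e x v g hj he hj0 (hball.trans hKO) hv hg ht, ← add_assoc]
  have b1 := an4a_bd (c := CM) (j := j) (x := x) (v := v) (g := g)
    (F := fun y => j (x - y) • (∑ a, A a x * fderiv ℝ P x (b a) + B x * P x) (v y)) fun y => by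
      have h1 := ((∑ a, A a x * fderiv ℝ P x (b a) + B x * P x).le_opNorm (v y)).trans
        (mul_le_mul_of_nonneg_right (hCM x hx2) (norm_nonneg _))
      rw [norm_smul]
      refine (mul_le_mul_of_nonneg_left h1 (norm_nonneg _)).trans ?_
      rw [mul_left_comm]
      refine mul_le_mul_of_nonneg_left ?_ CM.2
      exact mul_le_mul (le_add_of_nonneg_right (by positivity))
        (le_add_of_nonneg_right (norm_nonneg _)) (norm_nonneg _) (by positivity)
  have b2 := fun a => an4a_bd (c := L a * ‖b a‖₊) (j := j) (x := x) (v := v) (g := g)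
    (F := fun y => fderiv ℝ j (x - y) (b a) • (A a x * P x - A a y * P y) (v y)) fun y => by
      by_cases hy : y ∈ closedBall x e
      · have h1 := ((A a x * P x - A a y * P y).le_opNorm (v y)).trans
          (mul_le_mul_of_nonneg_right (hL a x hx2 y (hball hy)) (norm_nonneg _))
        have h2 := (fderiv ℝ j (x - y)).le_opNorm (b a)
        rw [norm_smul]
        refine (mul_le_mul h2 h1 (norm_nonneg _) (by positivity)).trans ?_
        have h3 : ‖x - y‖ * ‖fderiv ℝ j (x - y)‖ * ‖v y‖ ≤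
            (‖j (x - y)‖ + ‖x - y‖ * ‖fderiv ℝ j (x - y)‖) * (‖v y‖ + ‖g y‖) :=
          mul_le_mul (le_add_of_nonneg_left (norm_nonneg _))
            (le_add_of_nonneg_right (norm_nonneg _)) (norm_nonneg _) (by positivity)
        refine le_trans (le_of_eq ?_) (mul_le_mul_of_nonneg_left h3 (L a * ‖b a‖₊).2)
        simp only [NNReal.coe_mul, coe_nnnorm]
        ring
      · rw [z3 a y hy, zero_smul, norm_zero]
        positivity
  have b3 := an4a_bd (c := CP + CN) (j := j) (x := x) (v := v) (g := g)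
    (F := fun y => j (x - y) • (P y (g y) - Nn y (v y))) fun y => by
      by_cases hy : y ∈ closedBall x e
      · have h1 := ((P y).le_opNorm (g y)).trans
          (mul_le_mul_of_nonneg_right (hCP y (hball hy)) (norm_nonneg _))
        have h2 := ((Nn y).le_opNorm (v y)).trans
          (mul_le_mul_of_nonneg_right (hCN y (hball hy)) (norm_nonneg _))
        have h3 : ‖P y (g y) - Nn y (v y)‖ ≤ ((CP + CN : ℝ≥0) : ℝ) * (‖v y‖ + ‖g y‖) := by
          refine (norm_sub_le _ _).trans ((add_le_add h1 h2).trans ?_)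
          have h4 : 0 ≤ (CP : ℝ) * ‖v y‖ := by positivity
          have h5 : 0 ≤ (CN : ℝ) * ‖g y‖ := by positivity
          push_cast
          nlinarith
        rw [norm_smul]
        refine (mul_le_mul_of_nonneg_left h3 (norm_nonneg _)).trans ?_
        rw [mul_left_comm]
        refine mul_le_mul_of_nonneg_left ?_ (CP + CN).2
        exact mul_le_mul_of_nonneg_right (le_add_of_nonneg_right (by positivity)) (by positivity)
      · rw [z1 y hy, zero_smul, norm_zero]
        positivity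
  rw [ENNReal.coe_add, ENNReal.coe_add, add_mul, add_mul, ENNReal.ofNNReal_finsetSum, Finset.sum_mul]
  exact (enorm_add_le _ _).trans (add_le_add ((enorm_add_le _ _).trans (add_le_add b1
    ((enorm_sum_le _ _).trans (Finset.sum_le_sum fun a _ => b2 a)))) b3)

end Pool.Agent.P.MP_e0a138_an.AD
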