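import Pool.Agent.P.MP_e0a138_an.AN4a
import Pool.Agent.P.MP_e0a138_an.AN2

set_option autoImplicit false
set_option linter.unusedSectionVars false
set_option linter.unusedVariables false

open MeasureTheory Filter Topology Metric Complex
open scoped ENNReal NNReal ContDiff InnerProductSpace ComplexConjugate

noncomputable section
namespace Pool.Agent.P.MP_e0a138_an.AD

variable {N p q k : ℕ} {W : Type} [NormedAddCommGroup W] [InnerProductSpace ℂ W]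
  [FiniteDimensional ℂ W] [CompleteSpace W]
variable {E : Type} [NormedAddCommGroup E] [NormedSpace ℝ E] [FiniteDimensional ℝ E]
  [MeasureSpace E] [BorelSpace E] [(volume : Measure E).IsAddHaarMeasure] {κ : Type} [Fintype κ]

variable {O : Set E} {A : κ → E → W →L[ℂ] W} {B P : E → W →L[ℂ] W} {ρ : E → ℝ}

theorem AN4b_sq_fin {v g : E → W} (hv : MemLp v 2 volume) (hg : MemLp g 2 volume) :
    ∫⁻ y, (‖v y‖ₑ + ‖g y‖ₑ) ^ 2 ≠ ⊤ := by
  have h1 := (memLp_two_iff.1 hv).2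
  have h2 := (memLp_two_iff.1 hg).2
  have hle : ∀ y, (‖v y‖ₑ + ‖g y‖ₑ) ^ 2 ≤ 2 * ‖v y‖ₑ ^ 2 + 2 * ‖g y‖ₑ ^ 2 := by
    intro y
    have h : (‖v y‖₊ + ‖g y‖₊) ^ 2 ≤ 2 * ‖v y‖₊ ^ 2 + 2 * ‖g y‖₊ ^ 2 := by
      have : ((‖v y‖₊ : ℝ) + ‖g y‖₊) ^ 2 ≤ 2 * (‖v y‖₊ : ℝ) ^ 2 + 2 * (‖g y‖₊ : ℝ) ^ 2 := by
        nlinarith [sq_nonneg ((‖v y‖₊ : ℝ) - ‖g y‖₊)]
      exact_mod_cast this
    simp only [enorm_eq_nnnorm]
    exact_mod_cast h
  refine ne_top_of_le_ne_top ?_ (lintegral_mono hle)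
  have hm : AEMeasurable (fun y => 2 * ‖v y‖ₑ ^ 2) (volume : Measure E) :=
    (hv.1.enorm.pow_const 2).const_mul 2
  rw [lintegral_add_left' hm, lintegral_const_mul' _ _ (by simp),
    lintegral_const_mul' _ _ (by simp)]
  exact ENNReal.add_ne_top.2 ⟨ENNReal.mul_ne_top (by simp) h1, ENNReal.mul_ne_top (by simp) h2⟩

theorem friedrichs (hc : Coef O A B P ρ) (b : κ → E) {K : Set E} (hK : IsCompact K) (hKO : K ⊆ O)
    {v : E → W} (hv : MemLp v 2 (wm O ρ)) (hvK : ∀ x ∉ K, v x = 0)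
    (hP : ∀ᵐ x ∂wm O ρ, P x (v x) = v x) :
    ∃ (a : ℕ → E → W) (K' : Set E), IsCompact K' ∧ K ⊆ K' ∧ K' ⊆ O ∧
      (∀ n, Tst O P (a n) ∧ ∀ x ∉ K', a n x = 0) ∧
      Tendsto (fun n => ∫⁻ x, ‖a n x - v x‖ₑ ^ 2 ∂wm O ρ) atTop (𝓝 0) ∧
      ∀ g : E → W, MemLp g 2 (wm O ρ) → (∀ x ∉ K, g x = 0) →
        (∀ a', Tst O P a' → ∫ y, ⟪op b A B a' y, v y⟫_ℂ ∂wm O ρ = ∫ y, ⟪a' y, g y⟫_ℂ ∂wm O ρ) →
        ∃ C : ℝ≥0, ∀ n, ∫⁻ x, ‖op b A B (a n) x‖ₑ ^ 2 ∂wm O ρ ≤ C := by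
  have : ProperSpace E := FiniteDimensional.proper_real E
  have hO := hc.isOpen
  have hOm : MeasurableSet O := hO.measurableSet
  have hρ : ContinuousOn ρ O := hc.hρ.continuousOn
  obtain ⟨δ, hδ, hδO⟩ := hK.exists_cthickening_subset_open hO hKO
  obtain ⟨e₀, he₀d⟩ : ∃ e₀ : ℝ, 2 * e₀ = δ := ⟨δ / 2, by ring⟩
  have he₀ : 0 < e₀ := by linarith
  have h2 : cthickening (2 * e₀) K ⊆ O := he₀d ▸ hδO
  have hK'O : cthickening e₀ K ⊆ O := (cthickening_mono (by linarith) K).trans h2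
  have hK' : IsCompact (cthickening e₀ K) := hK.cthickening
  have hKK' : K ⊆ cthickening e₀ K := self_subset_cthickening K
  obtain ⟨n₀, hn₀⟩ := exists_nat_one_div_lt he₀
  obtain ⟨j, C, hj, -, hj0, hjC, hjv⟩ := moll E W
  have hvV : MemLp v 2 volume := (memLp_wm_iff hOm hK hKO hρ hc.pos hvK).1 hv
  have hepos : ∀ n : ℕ, (0 : ℝ) < 1 / (((n + n₀ : ℕ) : ℝ) + 1) := fun n => by positivity
  have hele : ∀ n : ℕ, 1 / (((n + n₀ : ℕ) : ℝ) + 1) ≤ e₀ := fun n => by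
    refine le_trans ?_ hn₀.le
    refine one_div_le_one_div_of_le (by positivity) ?_
    push_cast
    linarith [(Nat.cast_nonneg n : (0 : ℝ) ≤ n)]
  have hm := fun n : ℕ => mol_props (hj (n + n₀)) (hepos n) (hj0 (n + n₀)) hvV
  have hm0 : ∀ n, ∀ x ∉ cthickening e₀ K, mol (j (n + n₀)) v x = 0 := fun n x hx =>
    (hm n).2.2 K hvK x fun h => hx (cthickening_mono (hele n) K h)
  have ha0 : ∀ n, ∀ x ∉ cthickening e₀ K, P x (mol (j (n + n₀)) v x) = 0 := fun n x hx => by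
    rw [hm0 n x hx, map_zero]
  obtain ⟨C₁, hC₁⟩ := lintegral_wm_le hOm hK' hK'O hρ
  refine ⟨fun n x => P x (mol (j (n + n₀)) v x), cthickening e₀ K, hK', hKK', hK'O,
    fun n => ⟨⟨?_, ?_, ?_, fun x => ?_⟩, ha0 n⟩, ?_, fun g hg hgK hw => ?_⟩
  · exact contDiff_of_cpt hO hK'.isClosed hK'O (contDiffOn_capp hc.hP (hm n).1.contDiffOn) (ha0 n)
  · exact HasCompactSupport.intro hK' (ha0 n)
  · refine (closure_minimal (fun x hx => ?_) hK'.isClosed).trans hK'O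
    by_contra h
    exact hx (ha0 n x h)
  · by_cases hx : x ∈ O
    · have := congrArg (fun T : W →L[ℂ] W => T (mol (j (n + n₀)) v x)) (hc.idem x hx)
      simpa using this
    · have := ha0 n x fun h => hx (hK'O h)
      simp only [this, map_zero]
  · have ht : Tendsto (fun n => (C₁ : ℝ≥0∞) * ∫⁻ x, ‖mol (j (n + n₀)) v x - v x‖ₑ ^ 2) atTop
        (𝓝 0) := by
      have := ENNReal.Tendsto.const_mul (a := (C₁ : ℝ≥0∞))
        ((hjv v hvV).comp (tendsto_add_atTop_nat n₀)) (Or.inr ENNReal.coe_ne_top)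
      simpa using this
    refine tendsto_of_tendsto_of_tendsto_of_le_of_le tendsto_const_nhds ht (fun n => zero_le)
      fun n => ?_
    calc ∫⁻ x, ‖P x (mol (j (n + n₀)) v x) - v x‖ₑ ^ 2 ∂wm O ρ
        ≤ ∫⁻ x, ‖mol (j (n + n₀)) v x - v x‖ₑ ^ 2 ∂wm O ρ := by
          refine lintegral_mono_ae ?_
          filter_upwards [hP, wm_ae hOm] with x hx hxO
          have he : P x (mol (j (n + n₀)) v x) - v x = P x (mol (j (n + n₀)) v x - v x) := by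
            rw [map_sub, hx]
          rw [he]
          gcongr
          have h1 := norm_proj_le (hc.idem x hxO) (hc.sa x hxO)
          have h3 : ‖P x (mol (j (n + n₀)) v x - v x)‖ ≤ ‖mol (j (n + n₀)) v x - v x‖ :=
            ((P x).le_opNorm _).trans (mul_le_of_le_one_left (norm_nonneg _) h1)
          simp only [← ofReal_norm]
          exact ENNReal.ofReal_le_ofReal h3
      _ ≤ C₁ * ∫⁻ x in cthickening e₀ K, ‖mol (j (n + n₀)) v x - v x‖ₑ ^ 2 := by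
          refine hC₁ _ fun x _ hx => ?_
          rw [hm0 n x hx, hvK x fun h => hx (hKK' h)]
          simp
      _ ≤ C₁ * ∫⁻ x, ‖mol (j (n + n₀)) v x - v x‖ₑ ^ 2 := by
          gcongr
          exact Measure.restrict_le_self
  · have hgV : MemLp g 2 volume := (memLp_wm_iff hOm hK hKO hρ hc.pos hgK).1 hg
    obtain ⟨C₂, hC₂⟩ := fried_bound hc b hK he₀ h2
    have hfin := AN4b_sq_fin hvV hgV
    have hT : (C₁ : ℝ≥0∞) * ((C₂ : ℝ≥0∞) ^ 2 * ((C : ℝ≥0∞) ^ 2 *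
        ∫⁻ y, (‖v y‖ₑ + ‖g y‖ₑ) ^ 2)) ≠ ⊤ :=
      ENNReal.mul_ne_top ENNReal.coe_ne_top (ENNReal.mul_ne_top
        (ENNReal.pow_ne_top ENNReal.coe_ne_top)
        (ENNReal.mul_ne_top (ENNReal.pow_ne_top ENNReal.coe_ne_top) hfin))
    refine ⟨ENNReal.toNNReal _, fun n => le_trans ?_ (ENNReal.coe_toNNReal hT).ge⟩
    have hη : Measurable fun x : E => ‖j (n + n₀) x‖ₑ + ‖x‖ₑ * ‖fderiv ℝ (j (n + n₀)) x‖ₑ :=
      (hj _).continuous.measurable.enorm.add (measurable_id.enorm.mul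
        ((hj _).continuous_fderiv (by simp)).measurable.enorm)
    have hf : AEMeasurable (fun y => ‖v y‖ₑ + ‖g y‖ₑ) (volume : Measure E) :=
      hvV.1.enorm.add hgV.1.enorm
    have hy := young hη hf
    calc ∫⁻ x, ‖op b A B (fun x => P x (mol (j (n + n₀)) v x)) x‖ₑ ^ 2 ∂wm O ρ
        ≤ C₁ * ∫⁻ x in cthickening e₀ K,
            ‖op b A B (fun x => P x (mol (j (n + n₀)) v x)) x‖ₑ ^ 2 := by
          refine hC₁ _ fun x hxO hx => ?_
          rw [op_eq_zero hO hK'.isClosed (fun y _ hy => ha0 n y hy) hxO hx]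
          simp
      _ ≤ C₁ * ∫⁻ x in cthickening e₀ K, (C₂ : ℝ≥0∞) ^ 2 *
            (∫⁻ y, (‖j (n + n₀) (x - y)‖ₑ + ‖x - y‖ₑ * ‖fderiv ℝ (j (n + n₀)) (x - y)‖ₑ) *
              (‖v y‖ₑ + ‖g y‖ₑ)) ^ 2 := by
          refine mul_le_mul_right ?_ _
          refine setLIntegral_mono' hK'.measurableSet fun x hx => ?_
          rw [← mul_pow]
          exact pow_le_pow_left' (hC₂ _ _ v g (hj _) (hepos n) (hele n) (hj0 _) hvV hgV hw x hx) 2
      _ ≤ C₁ * ∫⁻ x, (C₂ : ℝ≥0∞) ^ 2 *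
            (∫⁻ y, (‖j (n + n₀) (x - y)‖ₑ + ‖x - y‖ₑ * ‖fderiv ℝ (j (n + n₀)) (x - y)‖ₑ) *
              (‖v y‖ₑ + ‖g y‖ₑ)) ^ 2 :=
          mul_le_mul_right (setLIntegral_le_lintegral _ _) _
      _ ≤ _ := by
          rw [lintegral_const_mul' _ _ (ENNReal.pow_ne_top ENNReal.coe_ne_top)]
          refine mul_le_mul_right (mul_le_mul_right (hy.trans ?_) _) _
          exact mul_le_mul_left (pow_le_pow_left' (hjC _) 2) _

end Pool.Agent.P.MP_e0a138_an.AD
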