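import Pool.Agent.P.MP_e0a138_an.AN1

set_option autoImplicit false
set_option linter.unusedSectionVars false
set_option linter.unusedVariables false

open MeasureTheory Filter Topology Metric Complex
open scoped ENNReal NNReal ContDiff InnerProductSpace ComplexConjugate

noncomputable section
namespace Pool.Agent.P.MP_e0a138_an.AD

variable {N p q k : ℕ} {W : Type} [NormedAddCommGroup W] [InnerProductSpace ℂ W]
  [FiniteDimensional ℂ W] [CompleteSpace W]
variable {E : Type} [NormedAddCommGroup E] [NormedSpace ℝ E] [FiniteDimensional ℝ E]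
  [MeasureSpace E] [BorelSpace E] [(volume : Measure E).IsAddHaarMeasure] {κ : Type} [Fintype κ]

theorem an5a_ind_eq {F : Type} [Zero F] {O K : Set E} {f : E → F}
    (h0 : ∀ x ∈ O, x ∉ K → f x = 0) : ∀ x ∈ O, K.indicator f x = f x := by
  intro x hx
  by_cases hxK : x ∈ K
  · exact Set.indicator_of_mem hxK f
  · rw [Set.indicator_of_notMem hxK, h0 x hx hxK]

theorem an5a_ind_cpt {F : Type} [Zero F] {K : Set E} (hK : IsCompact K) (f : E → F) :
    HasCompactSupport (K.indicator f) :=
  HasCompactSupport.intro hK fun x hx => Set.indicator_of_notMem hx f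

theorem an5a_ind_cont {F : Type} [NormedAddCommGroup F] {O K : Set E} (hO : IsOpen O)
    (hK : IsCompact K) (hKO : K ⊆ O) {f : E → F} (hf : ContinuousOn f O)
    (h0 : ∀ x ∈ O, x ∉ K → f x = 0) : Continuous (K.indicator f) :=
  continuous_of_cpt hO hK.isClosed hKO (hf.congr fun x hx => an5a_ind_eq h0 x hx)
    fun x hx => Set.indicator_of_notMem hx f

theorem integrableOn_of_cpt {F : Type} [NormedAddCommGroup F] {O K : Set E} (hO : IsOpen O)
    (hK : IsCompact K) (hKO : K ⊆ O) {f : E → F} (hf : ContinuousOn f O)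
    (h0 : ∀ x ∈ O, x ∉ K → f x = 0) : IntegrableOn f O := by
  have h1 : Integrable (K.indicator f) (volume : Measure E) :=
    (an5a_ind_cont hO hK hKO hf h0).integrable_of_hasCompactSupport (an5a_ind_cpt hK f)
  exact (h1.integrableOn (s := O)).congr_fun (fun x hx => an5a_ind_eq h0 x hx) hO.measurableSet

theorem an5a_ibp {F : Type} [NormedAddCommGroup F] [NormedSpace ℝ F] [CompleteSpace F]
    {g : E → F} (hg : ContDiff ℝ ∞ g) (hc : HasCompactSupport g) (b : E) :
    ∫ x, fderiv ℝ g x b = 0 := by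
  have hd : Continuous fun x => fderiv ℝ g x b :=
    (hg.continuous_fderiv (by simp)).clm_apply continuous_const
  have hdc : HasCompactSupport fun x => fderiv ℝ g x b := hc.fderiv_apply ℝ b
  have h := integral_smul_fderiv_eq_neg_fderiv_smul_of_integrable (𝕜 := ℝ)
    (μ := (volume : Measure E)) (f := fun _ : E => (1 : ℝ)) (g := g) (v := b)
    (by simp) (by simpa using hd.integrable_of_hasCompactSupport hdc)
    (by simpa using hg.continuous.integrable_of_hasCompactSupport hc)
    (fun x _ => differentiableAt_const _)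
    (fun x _ => (hg.differentiable (by simp)).differentiableAt)
  simpa using h

theorem ibp0 {F : Type} [NormedAddCommGroup F] [NormedSpace ℝ F] [CompleteSpace F] {O K : Set E}
    (hO : IsOpen O) (hK : IsCompact K) (hKO : K ⊆ O) {f : E → F} (hf : ContDiffOn ℝ ∞ f O)
    (h0 : ∀ x ∈ O, x ∉ K → f x = 0) (b : E) : ∫ x in O, fderiv ℝ f x b = 0 := by
  have hg : ContDiff ℝ ∞ (K.indicator f) :=
    contDiff_of_cpt hO hK.isClosed hKO (hf.congr fun x hx => an5a_ind_eq h0 x hx)
      fun x hx => Set.indicator_of_notMem hx f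
  have h1 : ∫ x in O, fderiv ℝ f x b = ∫ x in O, fderiv ℝ (K.indicator f) x b := by
    refine setIntegral_congr_fun hO.measurableSet fun x hx => ?_
    have : K.indicator f =ᶠ[𝓝 x] f := by
      filter_upwards [hO.mem_nhds hx] with y hy using an5a_ind_eq h0 y hy
    simp only [this.fderiv_eq]
  rw [h1, setIntegral_eq_integral_of_forall_compl_eq_zero, an5a_ibp hg (an5a_ind_cpt hK f) b]
  intro x hx
  have hxK : x ∉ K := fun h => hx (hKO h)
  rw [fderiv_eq_zero_of_closed isOpen_univ hK.isClosed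
    (fun y _ hy => Set.indicator_of_notMem hy f) (Set.mem_univ x) hxK]
  rfl

theorem integrable_wm_of_cpt {F : Type} [NormedAddCommGroup F] [NormedSpace ℝ F] {O K : Set E}
    (hO : IsOpen O) (hK : IsCompact K) (hKO : K ⊆ O) {ρ : E → ℝ} (hρ : ContinuousOn ρ O)
    {f : E → F} (hf : ContinuousOn f O) (h0 : ∀ x ∈ O, x ∉ K → f x = 0) :
    Integrable f (wm O ρ) := by
  refine ⟨aesm_wm hO.measurableSet hf, ?_⟩
  obtain ⟨C, hC⟩ := lintegral_wm_le hO.measurableSet hK hKO hρ
  have h1 := hC (fun x => ‖f x‖ₑ) (fun x hx hxK => by simp [h0 x hx hxK])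
  have h2 : IntegrableOn f K (volume : Measure E) :=
    (integrableOn_of_cpt hO hK hKO hf h0).mono_set hKO
  exact lt_of_le_of_lt h1 (ENNReal.mul_lt_top ENNReal.coe_lt_top h2.2)

theorem eq_zero_of_test {O : Set E} (hO : IsOpen O) {ρ : E → ℝ} (hρ : ContinuousOn ρ O)
    (h0 : ∀ x ∈ O, 0 < ρ x) {w : E → W} (hw : ContinuousOn w O)
    (h : ∀ c : E → ℝ, ContDiff ℝ ∞ c → HasCompactSupport c → tsupport c ⊆ O →
      ∫ x, ⟪w x, (c x : ℂ) • w x⟫_ℂ ∂wm O ρ = 0) : ∀ x ∈ O, w x = 0 := by
  intro x0 hx0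
  by_contra hne
  obtain ⟨c, hcO, hcc, hcs, hcr, hc1⟩ :=
    exists_contDiff_tsupport_subset (n := ⊤) (hO.mem_nhds hx0)
  have hc0 : ∀ x, 0 ≤ c x := fun x => (hcr ⟨x, rfl⟩).1
  have h1 := h c hcs hcc hcO
  rw [integral_wm hO.measurableSet hρ (fun x hx => (h0 x hx).le)] at h1
  set g : E → ℝ := fun x => ρ x * (c x * ‖w x‖ ^ 2) with hg
  have h2 : ∀ x, ρ x • ⟪w x, (c x : ℂ) • w x⟫_ℂ = ((g x : ℝ) : ℂ) := by
    intro x
    rw [inner_smul_right, inner_self_eq_norm_sq_to_K, hg]
    simp
  simp only [h2] at h1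
  rw [integral_complex_ofReal, Complex.ofReal_eq_zero] at h1
  have hz : ∀ x, x ∉ tsupport c → g x = 0 := fun x hx => by
    simp [hg, image_eq_zero_of_notMem_tsupport hx]
  have hgO : ContinuousOn g O :=
    hρ.mul (hcs.continuous.continuousOn.mul (hw.norm.pow 2))
  have hgc : Continuous g := continuous_of_cpt hO (isClosed_tsupport c) hcO hgO hz
  have hgs : HasCompactSupport g := HasCompactSupport.intro hcc hz
  have hgn : 0 ≤ g := fun x => by
    by_cases hx : x ∈ tsupport c
    · exact mul_nonneg (h0 x (hcO hx)).le (mul_nonneg (hc0 x) (sq_nonneg _))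
    · exact (hz x hx).ge
  have hgx : g x0 ≠ 0 := by
    have : 0 < ‖w x0‖ := norm_pos_iff.2 hne
    have h3 := h0 x0 hx0
    simp only [hg, hc1]
    positivity
  have hpos := hgc.integral_pos_of_hasCompactSupport_nonneg_nonzero (μ := (volume : Measure E))
    hgs hgn hgx
  rw [setIntegral_eq_integral_of_forall_compl_eq_zero
    (fun x hx => hz x fun h' => hx (hcO h'))] at h1
  exact hpos.ne' h1

end Pool.Agent.P.MP_e0a138_an.AD
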