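import Pool.Agent.P.MP_e0a138_an.AN5a

set_option autoImplicit false
set_option linter.unusedSectionVars false
set_option linter.unusedVariables false

open MeasureTheory Filter Topology Metric Complex
open scoped ENNReal NNReal ContDiff InnerProductSpace ComplexConjugate

noncomputable section
namespace Pool.Agent.P.MP_e0a138_an.AD

variable {N p q k : ℕ} {W : Type} [NormedAddCommGroup W] [InnerProductSpace ℂ W]
  [FiniteDimensional ℂ W] [CompleteSpace W]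
variable {E : Type} [NormedAddCommGroup E] [NormedSpace ℝ E] [FiniteDimensional ℝ E]
  [MeasureSpace E] [BorelSpace E] [(volume : Measure E).IsAddHaarMeasure] {κ : Type} [Fintype κ]

theorem AN5b_pt {ρ : ℝ} (h0 : 0 < ρ) (A dM : κ → W →L[ℂ] W) (Z : W →L[ℂ] W) (u v : W)
    (du dv : κ → W) :
    ρ • ⟪v, ∑ a, A a (du a) + Z u⟫_ℂ =
      ρ • ⟪∑ a, (-star (A a)) (dv a) + (star Z - ∑ a, ((ρ : ℂ)⁻¹) • dM a) v, u⟫_ℂ +
        ∑ a, (⟪((ρ : ℂ) • star (A a)) v, du a⟫_ℂ +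
          ⟪dM a v + ((ρ : ℂ) • star (A a)) (dv a), u⟫_ℂ) := by
  have hρ : (ρ : ℂ) ≠ 0 := by exact_mod_cast h0.ne'
  simp only [ContinuousLinearMap.star_eq_adjoint, inner_add_left, inner_add_right, sum_inner,
    inner_sum, sub_apply, sum_apply,
    smul_apply, neg_apply, inner_sub_left, inner_neg_left,
    inner_smul_left, ContinuousLinearMap.adjoint_inner_left, Complex.real_smul, map_inv₀,
    Complex.conj_ofReal, mul_add, mul_sub, Finset.mul_sum, mul_inv_cancel_left₀ hρ, mul_neg,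
    Finset.sum_add_distrib, Finset.sum_neg_distrib]
  ring

theorem ibp {O : Set E} (hO : IsOpen O) (b : κ → E) {A : κ → E → W →L[ℂ] W} {Z : E → W →L[ℂ] W}
    {ρ : E → ℝ} (hA : ∀ a, ContDiffOn ℝ ∞ (A a) O) (hZ : ContDiffOn ℝ ∞ Z O)
    (hρ : ContDiffOn ℝ ∞ ρ O) (h0 : ∀ x ∈ O, 0 < ρ x) :
    ∃ Z' : E → W →L[ℂ] W, ContDiffOn ℝ ∞ Z' O ∧ ∀ (K : Set E) (u v : E → W), IsCompact K →
      K ⊆ O → ContDiffOn ℝ ∞ u O → ContDiffOn ℝ ∞ v O →
      ((∀ x ∈ O, x ∉ K → u x = 0) ∨ ∀ x ∈ O, x ∉ K → v x = 0) →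
      ∫ x, ⟪op b (fun a x => -star (A a x)) Z' v x, u x⟫_ℂ ∂wm O ρ =
        ∫ x, ⟪v x, op b A Z u x⟫_ℂ ∂wm O ρ := by
  have hM : ∀ a, ContDiffOn ℝ ∞ (fun x => (ρ x : ℂ) • star (A a x)) O := fun a =>
    (contDiffOn_ofReal hρ).smul (contDiffOn_star (hA a))
  have hi : ContDiffOn ℝ ∞ (fun x => ((ρ x : ℂ))⁻¹) O :=
    (contDiffOn_ofReal hρ).inv fun x hx => by exact_mod_cast (h0 x hx).ne'
  have hZ' : ContDiffOn ℝ ∞ (fun x => star (Z x) - ∑ a, ((ρ x : ℂ))⁻¹ •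
      fderiv ℝ (fun x => (ρ x : ℂ) • star (A a x)) x (b a)) O :=
    (contDiffOn_star hZ).sub (ContDiffOn.sum fun a _ =>
      hi.smul (contDiffOn_fderiv_apply' hO (hM a) _))
  refine ⟨_, hZ', fun K u v hK hKO hu hv hz => ?_⟩
  have hf : ∀ a, ContDiffOn ℝ ∞
      (fun x => ⟪((ρ x : ℂ) • star (A a x)) (v x), u x⟫_ℂ) O := fun a =>
    (contDiffOn_capp (hM a) hv).inner ℂ hu
  have hf0 : ∀ a, ∀ x ∈ O, x ∉ K → ⟪((ρ x : ℂ) • star (A a x)) (v x), u x⟫_ℂ = 0 := by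
    intro a x hx hxK
    rcases hz with hz | hz
    · rw [hz x hx hxK, inner_zero_right]
    · rw [hz x hx hxK, map_zero, inner_zero_left]
  have hfi : ∀ a, IntegrableOn (fun x => fderiv ℝ
      (fun x => ⟪((ρ x : ℂ) • star (A a x)) (v x), u x⟫_ℂ) x (b a)) O := fun a =>
    integrableOn_of_cpt hO hK hKO (contDiffOn_fderiv_apply' hO (hf a) _).continuousOn
      fun x hx hxK => by rw [fderiv_eq_zero_of_closed hO hK.isClosed (hf0 a) hx hxK]; rfl
  have hop := contDiffOn_op (b := b) hO (fun a => (contDiffOn_star (hA a)).neg) hZ' hv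
  have hL : IntegrableOn (fun x => ρ x • ⟪op b (fun a x => -star (A a x))
      (fun x => star (Z x) - ∑ a, ((ρ x : ℂ))⁻¹ •
        fderiv ℝ (fun x => (ρ x : ℂ) • star (A a x)) x (b a)) v x, u x⟫_ℂ) O := by
    refine integrableOn_of_cpt hO hK hKO
      (hρ.continuousOn.smul (hop.inner ℂ hu).continuousOn) fun x hx hxK => ?_
    rcases hz with hz | hz
    · rw [hz x hx hxK, inner_zero_right, smul_zero]
    · rw [op_eq_zero hO hK.isClosed hz hx hxK, inner_zero_left, smul_zero]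
  rw [integral_wm hO.measurableSet hρ.continuousOn (fun x hx => (h0 x hx).le),
    integral_wm hO.measurableSet hρ.continuousOn (fun x hx => (h0 x hx).le)]
  have hsum := integral_add hL (integrable_finsetSum Finset.univ fun a _ => hfi a)
  rw [integral_finsetSum _ fun a _ => hfi a,
    Finset.sum_eq_zero fun a _ => ibp0 hO hK hKO (hf a) (hf0 a) (b a), add_zero] at hsum
  rw [← hsum]
  refine setIntegral_congr_fun hO.measurableSet fun x hx => ?_
  have du := diffAt_of_contDiffOn hO hu hx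
  have dv := diffAt_of_contDiffOn hO hv hx
  have dM := fun a => diffAt_of_contDiffOn hO (hM a) hx
  have e : ∀ a, fderiv ℝ (fun x => ⟪((ρ x : ℂ) • star (A a x)) (v x), u x⟫_ℂ) x (b a) =
      ⟪((ρ x : ℂ) • star (A a x)) (v x), fderiv ℝ u x (b a)⟫_ℂ +
        ⟪fderiv ℝ (fun x => (ρ x : ℂ) • star (A a x)) x (b a) (v x) +
          ((ρ x : ℂ) • star (A a x)) (fderiv ℝ v x (b a)), u x⟫_ℂ := fun a => by
    rw [fderiv_inner_apply ℂ (differentiableAt_capp (dM a) dv) du, fderiv_capp (dM a) dv]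
  simp only [e, op]
  exact (AN5b_pt (h0 x hx) (fun a => A a x) _ (Z x) (u x) (v x) _ _).symm

end Pool.Agent.P.MP_e0a138_an.AD
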