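import Pool.Agent.P.MP_e0a138_an.AL1

set_option autoImplicit false
set_option linter.unusedSectionVars false
set_option linter.unusedVariables false

open MeasureTheory Filter Topology Metric Complex
open scoped ENNReal NNReal ContDiff InnerProductSpace ComplexConjugate

noncomputable section
namespace Pool.Agent.P.MP_e0a138_an.AD

variable {N p q k : ℕ} {W : Type} [NormedAddCommGroup W] [InnerProductSpace ℂ W]
  [FiniteDimensional ℂ W] [CompleteSpace W]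

variable {κ : Type} [Fintype κ] {ε : Eu N →L[ℝ] W →L[ℂ] W}

theorem AN6_norm_sq (w : κ → Eu N) (t : κ → ℝ) :
    ‖∑ a, t a • w a‖ ^ 2 = ∑ a, ∑ b, ⟪w a, w b⟫_ℝ * (t a * t b) := by
  rw [← real_inner_self_eq_norm_sq, sum_inner]
  refine Finset.sum_congr rfl fun a _ => ?_
  rw [inner_sum]
  refine Finset.sum_congr rfl fun b _ => ?_
  rw [real_inner_smul_left, real_inner_smul_right]
  ring

theorem AN6_re_inner (x y : W) : (⟪x, y⟫_ℂ).re = ∑ r,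
    ((⟪stdOrthonormalBasis ℂ W r, x⟫_ℂ).re * (⟪stdOrthonormalBasis ℂ W r, y⟫_ℂ).re +
      (⟪stdOrthonormalBasis ℂ W r, x⟫_ℂ).im * (⟪stdOrthonormalBasis ℂ W r, y⟫_ℂ).im) := by
  rw [← (stdOrthonormalBasis ℂ W).sum_inner_mul_inner x y, Complex.re_sum]
  refine Finset.sum_congr rfl fun r _ => ?_
  rw [← inner_conj_symm x, Complex.mul_re, Complex.conj_re, Complex.conj_im]
  ring

theorem gram_lower {w : κ → Eu N} {c : ℝ} (h : ∀ t : κ → ℝ, c * ∑ a, t a ^ 2 ≤ ‖∑ a, t a • w a‖ ^ 2)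
    (x : κ → W) : c * ∑ a, ‖x a‖ ^ 2 ≤ ∑ a, ∑ b, ⟪w a, w b⟫_ℝ * (⟪x a, x b⟫_ℂ).re := by
  have h1 : ∀ a, ‖x a‖ ^ 2 = (⟪x a, x a⟫_ℂ).re := fun a => (inner_self_eq_norm_sq (𝕜 := ℂ) _).symm
  have h2 : ∑ a, ‖x a‖ ^ 2 = ∑ r, (∑ a, (⟪stdOrthonormalBasis ℂ W r, x a⟫_ℂ).re ^ 2 +
      ∑ a, (⟪stdOrthonormalBasis ℂ W r, x a⟫_ℂ).im ^ 2) := by
    simp only [h1, ← Finset.sum_add_distrib]
    rw [Finset.sum_comm]
    refine Finset.sum_congr rfl fun a _ => ?_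
    rw [AN6_re_inner]
    simp only [sq]
  have h3 : ∑ a, ∑ b, ⟪w a, w b⟫_ℝ * (⟪x a, x b⟫_ℂ).re = ∑ r,
      (‖∑ a, (⟪stdOrthonormalBasis ℂ W r, x a⟫_ℂ).re • w a‖ ^ 2 +
        ‖∑ a, (⟪stdOrthonormalBasis ℂ W r, x a⟫_ℂ).im • w a‖ ^ 2) := by
    simp only [AN6_norm_sq, ← Finset.sum_add_distrib]
    rw [Finset.sum_comm (s := Finset.univ (α := Fin (Module.finrank ℂ W)))]
    refine Finset.sum_congr rfl fun a _ => ?_
    rw [Finset.sum_comm]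
    refine Finset.sum_congr rfl fun b _ => ?_
    rw [AN6_re_inner (x a) (x b), Finset.mul_sum]
    exact Finset.sum_congr rfl fun r _ => mul_add _ _ _
  rw [h2, h3, Finset.mul_sum]
  refine Finset.sum_le_sum fun r _ => ?_
  rw [mul_add]
  exact add_le_add (h _) (h _)

theorem AN6_star_mul (hε : IsCAR ε) (v w : Eu N) :
    star (cl ε v) * cl ε w = ((⟪v, w⟫_ℝ : ℝ) : ℂ) • 1 + Kc ε v w := by
  have h1 := cl_mul hε v w
  have h2 : ((⟪v, w⟫_ℝ : ℝ) : ℂ) • (1 : W →L[ℂ] W) =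
      (-(1 / 2 : ℂ)) • (cl ε v * cl ε w + cl ε w * cl ε v) := by
    rw [h1, smul_smul]
    congr 1
    push_cast
    ring
  rw [h2, cl_star, Kc, neg_mul]
  module

theorem norm_sq_cl_sum (hε : IsCAR ε) (w : κ → Eu N) (x : κ → W) :
    ‖∑ a, cl ε (w a) (x a)‖ ^ 2 = ∑ a, ∑ b, ⟪w a, w b⟫_ℝ * (⟪x a, x b⟫_ℂ).re +
      (∑ a, ∑ b, ⟪x a, Kc ε (w a) (w b) (x b)⟫_ℂ).re := by
  have h1 : ‖∑ a, cl ε (w a) (x a)‖ ^ 2 =
      (⟪∑ a, cl ε (w a) (x a), ∑ a, cl ε (w a) (x a)⟫_ℂ).re :=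
    (inner_self_eq_norm_sq (𝕜 := ℂ) _).symm
  rw [h1, sum_inner, Complex.re_sum, Complex.re_sum, ← Finset.sum_add_distrib]
  refine Finset.sum_congr rfl fun a _ => ?_
  rw [inner_sum, Complex.re_sum, Complex.re_sum, ← Finset.sum_add_distrib]
  refine Finset.sum_congr rfl fun b _ => ?_
  have h2 : ⟪cl ε (w a) (x a), cl ε (w b) (x b)⟫_ℂ =
      ⟪x a, (star (cl ε (w a)) * cl ε (w b)) (x b)⟫_ℂ := by
    rw [ContinuousLinearMap.star_eq_adjoint, mul_apply_eq_comp,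
      ContinuousLinearMap.adjoint_inner_right]
  rw [h2, AN6_star_mul hε, add_apply, inner_add_right, Complex.add_re,
    smul_apply, one_apply_eq_self, inner_smul_right,
    Complex.re_ofReal_mul]

theorem Kc_anti (v w : Eu N) : Kc ε w v = -Kc ε v w := by
  rw [Kc, Kc, ← smul_neg, neg_sub]

theorem AN6_bil {F G : Type} [NormedAddCommGroup F] [NormedSpace ℝ F] [NormedAddCommGroup G]
    [NormedSpace ℝ G] (K : F →L[ℝ] F →L[ℝ] G) (L : ℝ) : ∃ C : ℝ, 0 ≤ C ∧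
    ∀ (E : Type) [NormedAddCommGroup E] [NormedSpace ℝ E] (v w : E → F) (x : E),
      DifferentiableAt ℝ v x → DifferentiableAt ℝ w x → ‖v x‖ ≤ L → ‖w x‖ ≤ L →
      ‖fderiv ℝ v x‖ ≤ L → ‖fderiv ℝ w x‖ ≤ L →
      ‖fderiv ℝ (fun y => K (v y) (w y)) x‖ ≤ C := by
  refine ⟨2 * ‖K‖ * L ^ 2, by positivity, fun E _ _ v w x hv hw h1 h2 h3 h4 => ?_⟩
  have hL : 0 ≤ L := (norm_nonneg _).trans h1
  have hd := ((K.hasFDerivAt.comp x hv.hasFDerivAt).clm_apply hw.hasFDerivAt).fderiv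
  refine ContinuousLinearMap.opNorm_le_bound _ (by positivity) fun t => ?_
  have h5 : fderiv ℝ (fun y => K (v y) (w y)) x t =
      K (v x) (fderiv ℝ w x t) + K (fderiv ℝ v x t) (w x) := DFunLike.congr_fun hd t
  have h6 : ‖fderiv ℝ w x t‖ ≤ L * ‖t‖ := (fderiv ℝ w x).le_of_opNorm_le h4 t
  have h7 : ‖fderiv ℝ v x t‖ ≤ L * ‖t‖ := (fderiv ℝ v x).le_of_opNorm_le h3 t
  have h8 : ‖K (v x) (fderiv ℝ w x t)‖ ≤ ‖K‖ * L * (L * ‖t‖) :=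
    (K.le_opNorm₂ _ _).trans (by gcongr)
  have h9 : ‖K (fderiv ℝ v x t) (w x)‖ ≤ ‖K‖ * (L * ‖t‖) * L :=
    (K.le_opNorm₂ _ _).trans (by gcongr)
  rw [h5]
  refine (norm_add_le _ _).trans ((add_le_add h8 h9).trans (le_of_eq ?_))
  ring

theorem AN6_exists {F G : Type} [NormedAddCommGroup F] [NormedSpace ℝ F] [NormedRing G]
    [NormedAlgebra ℝ G] (c : F →L[ℝ] G) (r : ℝ) :
    ∃ K : F →L[ℝ] F →L[ℝ] G, ∀ v w, K v w = r • (c v * c w - c w * c v) :=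
  ⟨r • ((ContinuousLinearMap.mul ℝ G).bilinearComp c c -
    ((ContinuousLinearMap.mul ℝ G).bilinearComp c c).flip), fun v w => by simp⟩

theorem AN6_KL (ε : Eu N →L[ℝ] W →L[ℂ] W) :
    ∃ K : Eu N →L[ℝ] Eu N →L[ℝ] W →L[ℂ] W, ∀ v w, Kc ε v w = K v w := by
  obtain ⟨K, hK⟩ := AN6_exists (clL ε) (-(1 / 2))
  refine ⟨K, fun v w => ?_⟩
  have h : (-(1 / 2 : ℂ)) = ((-(1 / 2 : ℝ) : ℝ) : ℂ) := by push_cast; ring
  rw [hK, Kc, h, Complex.coe_smul, clL_apply, clL_apply]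

theorem Kc_bound (ε : Eu N →L[ℝ] W →L[ℂ] W) (L : ℝ) : ∃ C : ℝ, 0 ≤ C ∧
    ∀ (E : Type) [NormedAddCommGroup E] [NormedSpace ℝ E] (v w : E → Eu N) (x : E),
      DifferentiableAt ℝ v x → DifferentiableAt ℝ w x → ‖v x‖ ≤ L → ‖w x‖ ≤ L →
      ‖fderiv ℝ v x‖ ≤ L → ‖fderiv ℝ w x‖ ≤ L →
      ‖fderiv ℝ (fun y => Kc ε (v y) (w y)) x‖ ≤ C := by
  obtain ⟨K, hK⟩ := AN6_KL ε
  simp only [hK]
  exact AN6_bil K L

theorem contDiffOn_Kc {E : Type} [NormedAddCommGroup E] [NormedSpace ℝ E] {v w : E → Eu N}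
    {O : Set E} (hv : ContDiffOn ℝ ∞ v O) (hw : ContDiffOn ℝ ∞ w O) :
    ContDiffOn ℝ ∞ (fun y => Kc ε (v y) (w y)) O := by
  obtain ⟨K, hK⟩ := AN6_KL ε
  simp only [hK]
  exact (K.contDiff.comp_contDiffOn hv).clm_apply hw

end Pool.Agent.P.MP_e0a138_an.AD
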