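import Pool.Agent.P.MP_e0a138_an.AN5a

set_option autoImplicit false
set_option linter.unusedSectionVars false
set_option linter.unusedVariables false

open MeasureTheory Filter Topology Metric Complex
open scoped ENNReal NNReal ContDiff InnerProductSpace ComplexConjugate

noncomputable section
namespace Pool.Agent.P.MP_e0a138_an.AD

variable {N p q k : ℕ} {W : Type} [NormedAddCommGroup W] [InnerProductSpace ℂ W]
  [FiniteDimensional ℂ W] [CompleteSpace W]
variable {E : Type} [NormedAddCommGroup E] [NormedSpace ℝ E] [FiniteDimensional ℝ E]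
  [MeasureSpace E] [BorelSpace E] [(volume : Measure E).IsAddHaarMeasure] {κ : Type} [Fintype κ]

theorem an7a_dd {u : E → W} (hu : ContDiff ℝ ∞ u) (x v w : E) :
    fderiv ℝ (fun y => fderiv ℝ u y w) x v = fderiv ℝ (fderiv ℝ u) x v w := by
  have h : DifferentiableAt ℝ (fderiv ℝ u) x :=
    (hu.fderiv_right (m := ∞) (by simp)).differentiable (by simp) x
  rw [fderiv_clm_apply h (differentiableAt_const w)]
  simp

theorem an7a_symm {u : E → W} (hu : ContDiff ℝ ∞ u) (x v w : E) :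
    fderiv ℝ (fderiv ℝ u) x v w = fderiv ℝ (fderiv ℝ u) x w v :=
  (hu.contDiffAt.isSymmSndFDerivAt (by
    rw [minSmoothness_of_isRCLikeNormedField]
    exact WithTop.coe_le_coe.2 (le_top : (2 : ℕ∞) ≤ ⊤))).eq v w

theorem an7a_zero {M : κ → κ → W →L[ℂ] W} (anti : ∀ a a', M a' a = -M a a') (y : W)
    {d : κ → κ → W} (hd : ∀ a a', d a a' = d a' a) : ∑ a, ∑ a', ⟪y, M a a' (d a a')⟫_ℂ = 0 := by
  have h : ∑ a, ∑ a', ⟪y, M a a' (d a a')⟫_ℂ = -∑ a, ∑ a', ⟪y, M a a' (d a a')⟫_ℂ := by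
    conv_lhs => rw [Finset.sum_comm]
    simp only [← Finset.sum_neg_distrib]
    refine Finset.sum_congr rfl fun a _ => Finset.sum_congr rfl fun a' _ => ?_
    rw [anti a a', hd a' a, neg_apply, inner_neg_right]
  linear_combination (1 / 2 : ℂ) * h

theorem skew_ibp {O K : Set E} (hO : IsOpen O) (hK : IsCompact K) (hKO : K ⊆ O) (b : κ → E)
    {M : κ → κ → E → W →L[ℂ] W} (hM : ∀ a a', ContDiffOn ℝ ∞ (M a a') O)
    (anti : ∀ a a' x, M a' a x = -M a a' x) {u : E → W} (hu : ContDiff ℝ ∞ u)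
    (h0 : ∀ x ∉ K, u x = 0) :
    ∫ x in O, ∑ a, ∑ a', ⟪fderiv ℝ u x (b a), M a a' x (fderiv ℝ u x (b a'))⟫_ℂ =
      -∫ x in O, ∑ a, ∑ a', ⟪u x, fderiv ℝ (M a a') x (b a) (fderiv ℝ u x (b a'))⟫_ℂ := by
  have hd : ∀ v, ContDiff ℝ ∞ fun x => fderiv ℝ u x v := fun v =>
    (hu.fderiv_right (m := ∞) (by simp)).clm_apply contDiff_const
  have hd0 : ∀ x ∉ K, fderiv ℝ u x = 0 := fun x hx =>
    fderiv_eq_zero_of_closed isOpen_univ hK.isClosed (fun y _ hy => h0 y hy) (Set.mem_univ x) hx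
  have hf : ∀ a a', ContDiffOn ℝ ∞ (fun x => ⟪u x, M a a' x (fderiv ℝ u x (b a'))⟫_ℂ) O :=
    fun a a' => hu.contDiffOn.inner ℂ (contDiffOn_capp (hM a a') (hd _).contDiffOn)
  have hf0 : ∀ a a', ∀ x ∈ O, x ∉ K → ⟪u x, M a a' x (fderiv ℝ u x (b a'))⟫_ℂ = 0 :=
    fun a a' x _ hx => by rw [h0 x hx, inner_zero_left]
  have hi : ∀ a a', IntegrableOn (fun x => fderiv ℝ
      (fun x => ⟪u x, M a a' x (fderiv ℝ u x (b a'))⟫_ℂ) x (b a)) O := fun a a' =>
    integrableOn_of_cpt hO hK hKO (contDiffOn_fderiv_apply' hO (hf a a') _).continuousOn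
      fun x hx hxK => by
        rw [fderiv_eq_zero_of_closed hO hK.isClosed (hf0 a a') hx hxK]; rfl
  have h1 : ∫ x in O, ∑ a, ∑ a', fderiv ℝ
      (fun x => ⟪u x, M a a' x (fderiv ℝ u x (b a'))⟫_ℂ) x (b a) = 0 := by
    rw [integral_finsetSum _ fun a _ => integrable_finsetSum _ fun a' _ => hi a a']
    refine Finset.sum_eq_zero fun a _ => ?_
    rw [integral_finsetSum _ fun a' _ => hi a a']
    exact Finset.sum_eq_zero fun a' _ => ibp0 hO hK hKO (hf a a') (hf0 a a') _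
  have hP : IntegrableOn (fun x => ∑ a, ∑ a',
      ⟪fderiv ℝ u x (b a), M a a' x (fderiv ℝ u x (b a'))⟫_ℂ) O :=
    integrableOn_of_cpt hO hK hKO (continuousOn_finsetSum _ fun a _ =>
      continuousOn_finsetSum _ fun a' _ => (hd _).continuous.continuousOn.inner
        (continuousOn_capp (hM a a').continuousOn (hd _).continuous.continuousOn))
      fun x _ hx => by simp [hd0 x hx]
  have hQ : IntegrableOn (fun x => ∑ a, ∑ a',
      ⟪u x, fderiv ℝ (M a a') x (b a) (fderiv ℝ u x (b a'))⟫_ℂ) O :=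
    integrableOn_of_cpt hO hK hKO (continuousOn_finsetSum _ fun a _ =>
      continuousOn_finsetSum _ fun a' _ => hu.continuous.continuousOn.inner
        (continuousOn_capp (contDiffOn_fderiv_apply' hO (hM a a') _).continuousOn
          (hd _).continuous.continuousOn))
      fun x _ hx => by simp [h0 x hx]
  rw [eq_neg_iff_add_eq_zero, ← integral_add hP hQ, ← h1]
  refine setIntegral_congr_fun hO.measurableSet fun x hx => ?_
  have hux : DifferentiableAt ℝ u x := hu.differentiable (by simp) x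
  have hdx : ∀ v, DifferentiableAt ℝ (fun x => fderiv ℝ u x v) x := fun v =>
    (hd v).differentiable (by simp) x
  have hMx : ∀ a a', DifferentiableAt ℝ (M a a') x := fun a a' =>
    diffAt_of_contDiffOn hO (hM a a') hx
  have key : ∀ a a', fderiv ℝ (fun x => ⟪u x, M a a' x (fderiv ℝ u x (b a'))⟫_ℂ) x (b a) =
      ⟪fderiv ℝ u x (b a), M a a' x (fderiv ℝ u x (b a'))⟫_ℂ +
        ⟪u x, fderiv ℝ (M a a') x (b a) (fderiv ℝ u x (b a'))⟫_ℂ +
        ⟪u x, M a a' x (fderiv ℝ (fderiv ℝ u) x (b a) (b a'))⟫_ℂ := fun a a' => by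
    rw [fderiv_inner_apply ℂ hux (differentiableAt_capp (hMx a a') (hdx _)),
      fderiv_capp (hMx a a') (hdx _), an7a_dd hu, inner_add_right]
    ring
  have hz := an7a_zero (M := fun a a' => M a a' x) (fun a a' => anti a a' x) (u x)
    (d := fun a a' => fderiv ℝ (fderiv ℝ u) x (b a) (b a')) fun a a' => an7a_symm hu x _ _
  simp only [key, Finset.sum_add_distrib, hz, add_zero]

end Pool.Agent.P.MP_e0a138_an.AD
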