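import Pool.Agent.P.MP_e0a138_an.AN7a
import Pool.Agent.P.MP_e0a138_an.AN6

set_option autoImplicit false
set_option linter.unusedSectionVars false
set_option linter.unusedVariables false

open MeasureTheory Filter Topology Metric Complex
open scoped ENNReal NNReal ContDiff InnerProductSpace ComplexConjugate

noncomputable section
namespace Pool.Agent.P.MP_e0a138_an.AD

variable {N p q k : ℕ} {W : Type} [NormedAddCommGroup W] [InnerProductSpace ℂ W]
  [FiniteDimensional ℂ W] [CompleteSpace W]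
variable {E : Type} [NormedAddCommGroup E] [NormedSpace ℝ E] [FiniteDimensional ℝ E]
  [MeasureSpace E] [BorelSpace E] [(volume : Measure E).IsAddHaarMeasure] {κ : Type} [Fintype κ]

theorem AN7b_conv {O K : Set E} (hO : IsOpen O) (hK : IsCompact K) (hKO : K ⊆ O) {f : E → W}
    (hf : ContinuousOn f O) (h0 : ∀ x ∉ K, f x = 0) :
    IntegrableOn (fun x => ‖f x‖ ^ 2) O ∧
      ∫⁻ x, ‖f x‖ₑ ^ 2 = ENNReal.ofReal (∫ x in O, ‖f x‖ ^ 2) := by
  have hi : IntegrableOn (fun x => ‖f x‖ ^ 2) O :=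
    integrableOn_of_cpt hO hK hKO (hf.norm.pow 2) fun x _ hx => by simp [h0 x hx]
  refine ⟨hi, ?_⟩
  rw [ofReal_integral_eq_lintegral_ofReal hi (Eventually.of_forall fun x => by positivity),
    setLIntegral_eq_of_support_subset]
  · refine lintegral_congr fun x => ?_
    rw [ENNReal.ofReal_pow (norm_nonneg _), ofReal_norm_eq_enorm]
  · intro x hx
    by_contra hxO
    exact hx (by simp [h0 x fun h => hxO (hKO h)])

theorem AN7b_amgm {c n C0 s t : ℝ} (hc : 0 < c) (hn : 0 < n) :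
    s * (C0 * t) ≤ c / (2 * n) * t ^ 2 + n * C0 ^ 2 / (2 * c) * s ^ 2 := by
  have h : c / (2 * n) * t ^ 2 + n * C0 ^ 2 / (2 * c) * s ^ 2 - s * (C0 * t) =
      (c * t - n * C0 * s) ^ 2 / (2 * n * c) := by
    field_simp
    ring
  have h2 : 0 ≤ (c * t - n * C0 * s) ^ 2 / (2 * n * c) := by positivity
  linarith

theorem AN7b_pt {κ : Type} [Fintype κ] {c C0 : ℝ} (hc : 0 < c) (y : W) (d : κ → W)
    (T : κ → κ → W →L[ℂ] W) (hT : ∀ a a', ‖T a a'‖ ≤ C0) :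
    (∑ a, ∑ a', ⟪y, T a a' (d a')⟫_ℂ).re ≤ c / 2 * ∑ a, ‖d a‖ ^ 2 +
      (Fintype.card κ : ℝ) ^ 2 * ((Fintype.card κ + 1) * C0 ^ 2 / (2 * c)) * ‖y‖ ^ 2 := by
  set n : ℝ := (Fintype.card κ : ℝ) with hn
  have hn0 : 0 ≤ n := Nat.cast_nonneg _
  have h1 : ∀ a a', (⟪y, T a a' (d a')⟫_ℂ).re ≤
      c / (2 * (n + 1)) * ‖d a'‖ ^ 2 + (n + 1) * C0 ^ 2 / (2 * c) * ‖y‖ ^ 2 := by
    intro a a'
    refine le_trans ?_ (AN7b_amgm (C0 := C0) hc (by positivity))
    refine (Complex.re_le_norm _).trans ((norm_inner_le_norm _ _).trans ?_)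
    refine mul_le_mul_of_nonneg_left (((T a a').le_opNorm _).trans ?_) (norm_nonneg _)
    exact mul_le_mul_of_nonneg_right (hT a a') (norm_nonneg _)
  have hS : 0 ≤ ∑ a, ‖d a‖ ^ 2 := Finset.sum_nonneg fun a _ => by positivity
  calc (∑ a, ∑ a', ⟪y, T a a' (d a')⟫_ℂ).re = ∑ a, ∑ a', (⟪y, T a a' (d a')⟫_ℂ).re := by
        simp only [Complex.re_sum]
    _ ≤ ∑ _a : κ, ∑ a', (c / (2 * (n + 1)) * ‖d a'‖ ^ 2 +
          (n + 1) * C0 ^ 2 / (2 * c) * ‖y‖ ^ 2) :=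
        Finset.sum_le_sum fun a _ => Finset.sum_le_sum fun a' _ => h1 a a'
    _ = n * (c / (2 * (n + 1))) * ∑ a, ‖d a‖ ^ 2 +
          n ^ 2 * ((n + 1) * C0 ^ 2 / (2 * c)) * ‖y‖ ^ 2 := by
        simp only [Finset.sum_add_distrib, ← Finset.mul_sum, Finset.sum_const, Finset.card_univ,
          nsmul_eq_mul, ← hn]
        ring
    _ ≤ _ := by
        have : n * (c / (2 * (n + 1))) ≤ c / 2 := by
          rw [← mul_div_assoc, div_le_div_iff₀ (by positivity) (by positivity)]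
          nlinarith
        have := mul_le_mul_of_nonneg_right this hS
        linarith

theorem garding {ε : Eu N →L[ℝ] W →L[ℂ] W} (hε : IsCAR ε) (κ : Type) [Fintype κ] {c : ℝ} (L : ℝ)
    (hc : 0 < c) : ∃ C : ℝ≥0, ∀ (O K : Set E) (w : κ → E → Eu N) (b : κ → E) (u : E → W),
      IsOpen O → IsCompact K → K ⊆ O → (∀ a, ContDiffOn ℝ ∞ (w a) O) →
      (∀ x ∈ K, ∀ t : κ → ℝ, c * ∑ a, t a ^ 2 ≤ ‖∑ a, t a • w a x‖ ^ 2) →
      (∀ a, ∀ x ∈ K, ‖w a x‖ ≤ L ∧ ‖fderiv ℝ (w a) x‖ ≤ L) → (∀ a, ‖b a‖ ≤ 1) →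
      ContDiff ℝ ∞ u → (∀ x ∉ K, u x = 0) →
      ∑ a, ∫⁻ x, ‖fderiv ℝ u x (b a)‖ₑ ^ 2 ≤
        C * ((∫⁻ x, ‖∑ a, cl ε (w a x) (fderiv ℝ u x (b a))‖ₑ ^ 2) + ∫⁻ x, ‖u x‖ₑ ^ 2) := by
  obtain ⟨C0, hC0, hKb⟩ := Kc_bound ε L
  obtain ⟨C1, hC1⟩ : ∃ C1 : ℝ, C1 =
      (Fintype.card κ : ℝ) ^ 2 * ((Fintype.card κ + 1) * C0 ^ 2 / (2 * c)) := ⟨_, rfl⟩
  have hC10 : 0 ≤ C1 := by rw [hC1]; positivity
  have hCn : 0 ≤ 2 / c * (1 + C1) := by positivity
  refine ⟨Real.toNNReal (2 / c * (1 + C1)), fun O K w b u hO hK hKO hw hell hL hb hu h0 => ?_⟩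
  have hd0 : ∀ x ∉ K, fderiv ℝ u x = 0 := fun x hx =>
    fderiv_eq_zero_of_closed isOpen_univ hK.isClosed (fun y _ hy => h0 y hy) (Set.mem_univ x) hx
  have hdc : ∀ a, ContDiffOn ℝ ∞ (fun x => fderiv ℝ u x (b a)) O := fun a =>
    contDiffOn_fderiv_apply' hO hu.contDiffOn (b a)
  have hM : ∀ a a', ContDiffOn ℝ ∞ (fun y => Kc ε (w a y) (w a' y)) O := fun a a' =>
    contDiffOn_Kc (hw a) (hw a')
  have hcl : ∀ a, ContinuousOn (fun x => cl ε (w a x)) O := fun a => by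
    have := (clL ε).continuous.comp_continuousOn (hw a).continuousOn
    exact this.congr fun x _ => by simp
  have e1 := fun a => AN7b_conv hO hK hKO (hdc a).continuousOn fun x hx => by simp [hd0 x hx]
  have e2 := AN7b_conv (f := fun x => ∑ a, cl ε (w a x) (fderiv ℝ u x (b a))) hO hK hKO
    (continuousOn_finsetSum _ fun a _ => continuousOn_capp (hcl a) (hdc a).continuousOn)
    fun x hx => by simp [hd0 x hx]
  have e3 := AN7b_conv hO hK hKO hu.continuous.continuousOn h0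
  have i1 : IntegrableOn (fun x => ∑ a, ‖fderiv ℝ u x (b a)‖ ^ 2) O :=
    integrable_finsetSum _ fun a _ => (e1 a).1
  have g1 : IntegrableOn (fun x => ∑ a, ∑ a',
      ⟪fderiv ℝ u x (b a), Kc ε (w a x) (w a' x) (fderiv ℝ u x (b a'))⟫_ℂ) O :=
    integrableOn_of_cpt hO hK hKO
      (continuousOn_finsetSum _ fun a _ => continuousOn_finsetSum _ fun a' _ =>
        (hdc a).continuousOn.inner
          (continuousOn_capp (hM a a').continuousOn (hdc a').continuousOn))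
      fun x _ hx => by simp [hd0 x hx]
  have g2 : IntegrableOn (fun x => ∑ a, ∑ a',
      ⟪u x, fderiv ℝ (fun y => Kc ε (w a y) (w a' y)) x (b a) (fderiv ℝ u x (b a'))⟫_ℂ) O :=
    integrableOn_of_cpt hO hK hKO
      (continuousOn_finsetSum _ fun a _ => continuousOn_finsetSum _ fun a' _ =>
        hu.continuous.continuousOn.inner
          (continuousOn_capp (contDiffOn_fderiv_apply' hO (hM a a') (b a)).continuousOn
            (hdc a').continuousOn))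
      fun x _ hx => by simp [hd0 x hx]
  have hibp := skew_ibp hO hK hKO b (M := fun a a' y => Kc ε (w a y) (w a' y)) hM
    (fun a a' x => Kc_anti _ _) hu h0
  have hre := congrArg Complex.re hibp
  rw [Complex.neg_re] at hre
  have r1 := (integral_re (𝕜 := ℂ) g1).symm
  have r2 := (integral_re (𝕜 := ℂ) g2).symm
  simp only [RCLike.re_to_complex] at r1 r2
  rw [r1, r2] at hre
  have g1r := g1.re
  have g2r := g2.re
  simp only [RCLike.re_to_complex] at g1r g2r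
  have s1 : ∫ x in O, c * ∑ a, ‖fderiv ℝ u x (b a)‖ ^ 2 ≤
      ∫ x in O, (‖∑ a, cl ε (w a x) (fderiv ℝ u x (b a))‖ ^ 2 - (∑ a, ∑ a',
        ⟪fderiv ℝ u x (b a), Kc ε (w a x) (w a' x) (fderiv ℝ u x (b a'))⟫_ℂ).re) := by
    refine setIntegral_mono (i1.const_mul c) (e2.1.sub g1r) fun x => ?_
    by_cases hx : x ∈ K
    · have h1 := gram_lower (hell x hx) fun a => fderiv ℝ u x (b a)
      have h2 := norm_sq_cl_sum hε (fun a => w a x) fun a => fderiv ℝ u x (b a)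
      simp only at h1 h2 ⊢
      linarith
    · simp [hd0 x hx]
  have s2 : ∫ x in O, (∑ a, ∑ a', ⟪u x, fderiv ℝ (fun y => Kc ε (w a y) (w a' y)) x (b a)
        (fderiv ℝ u x (b a'))⟫_ℂ).re ≤
      ∫ x in O, (c / 2 * ∑ a, ‖fderiv ℝ u x (b a)‖ ^ 2 + C1 * ‖u x‖ ^ 2) := by
    refine setIntegral_mono g2r ((i1.const_mul _).add (e3.1.const_mul _)) fun x => ?_
    by_cases hx : x ∈ K
    · rw [hC1]
      refine AN7b_pt hc (u x) (fun a => fderiv ℝ u x (b a))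
        (fun a a' => fderiv ℝ (fun y => Kc ε (w a y) (w a' y)) x (b a)) fun a a' => ?_
      have hb0 := hKb E (w a) (w a') x (diffAt_of_contDiffOn hO (hw a) (hKO hx))
        (diffAt_of_contDiffOn hO (hw a') (hKO hx)) (hL a x hx).1 (hL a' x hx).1 (hL a x hx).2
        (hL a' x hx).2
      refine (ContinuousLinearMap.le_opNorm _ _).trans ?_
      calc _ ≤ C0 * 1 := mul_le_mul hb0 (hb a) (norm_nonneg _) hC0
        _ = C0 := mul_one _
    · simp [hd0 x hx, h0 x hx]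
  rw [integral_const_mul, integral_sub e2.1 g1r] at s1
  rw [integral_add (i1.const_mul _) (e3.1.const_mul _), integral_const_mul,
    integral_const_mul] at s2
  have p2 : 0 ≤ ∫ x in O, ‖∑ a, cl ε (w a x) (fderiv ℝ u x (b a))‖ ^ 2 :=
    integral_nonneg fun x => by positivity
  have p3 : 0 ≤ ∫ x in O, ‖u x‖ ^ 2 := integral_nonneg fun x => by positivity
  have p1 : ∀ a, 0 ≤ ∫ x in O, ‖fderiv ℝ u x (b a)‖ ^ 2 := fun a =>
    integral_nonneg fun x => by positivity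
  simp only [fun a => (e1 a).2]
  rw [e2.2, e3.2, ← ENNReal.ofReal_sum_of_nonneg fun a _ => p1 a,
    ← integral_finsetSum _ fun a _ => (e1 a).1, ← ENNReal.ofReal_add p2 p3,
    ← ENNReal.ofReal_coe_nnreal, ← ENNReal.ofReal_mul (NNReal.coe_nonneg _)]
  refine ENNReal.ofReal_le_ofReal ?_
  rw [Real.coe_toNNReal _ hCn]
  generalize (∫ x in O, ∑ a, ‖fderiv ℝ u x (b a)‖ ^ 2) = I1 at *
  generalize (∫ x in O, ‖∑ a, cl ε (w a x) (fderiv ℝ u x (b a))‖ ^ 2) = I2 at *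
  generalize (∫ x in O, ‖u x‖ ^ 2) = I3 at *
  have key : c / 2 * I1 ≤ (1 + C1) * (I2 + I3) := by nlinarith [mul_nonneg hC10 p2]
  rw [mul_assoc, div_mul_eq_mul_div, le_div_iff₀ hc]
  linarith

end Pool.Agent.P.MP_e0a138_an.AD
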