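import Pool.Agent.P.MP_e0a138_an.AB7

set_option autoImplicit false
set_option linter.unusedSectionVars false
set_option linter.unusedVariables false

open MeasureTheory Filter Topology Metric Complex
open scoped ENNReal NNReal ContDiff InnerProductSpace ComplexConjugate

noncomputable section
namespace Pool.Agent.P.MP_e0a138_an.AD

variable {N p q k : ℕ} {W : Type} [NormedAddCommGroup W] [InnerProductSpace ℂ W]
  [FiniteDimensional ℂ W] [CompleteSpace W]

section aux
open scoped FourierTransform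
variable {E : Type} [NormedAddCommGroup E] [InnerProductSpace ℝ E]
  [FiniteDimensional ℝ E] [MeasurableSpace E] [BorelSpace E]

theorem an8_eq (G : E → W) (ξ : E) :
    ∫ x, cexp (-(2 * Real.pi * I * ((⟪ξ, x⟫_ℝ : ℝ) : ℂ))) • G x = 𝓕 G ξ := by
  rw [Real.fourier_eq']
  refine integral_congr_ae (Eventually.of_forall fun x => ?_)
  simp only
  rw [real_inner_comm]
  congr 2
  push_cast
  ring

theorem an8_cont {G : E → W} (h1 : Integrable G) : Continuous (𝓕 G) :=
  VectorFourier.fourierIntegral_continuous Real.continuous_fourierChar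
    (L := innerₗ E) continuous_inner h1

theorem an8_ae {G : E → W} (h1 : Integrable G) (h2 : MemLp G 2 volume) :
    ∀ᵐ ξ, (𝓕 (h2.toLp G) : Lp W 2 (volume : Measure E)) ξ = 𝓕 G ξ := by
  refine ae_eq_of_integral_contDiff_smul_eq
    ((Lp.memLp (𝓕 (h2.toLp G) : Lp W 2 (volume : Measure E))).locallyIntegrable (by norm_num))
    (an8_cont h1).locallyIntegrable fun φ hφ hs => ?_
  have hφ' : ContDiff ℝ (⊤ : ℕ∞) fun x => (φ x : ℂ) := Complex.ofRealCLM.contDiff.comp hφ
  have hs' : HasCompactSupport fun x => (φ x : ℂ) := hs.comp_left (g := fun r : ℝ => (r : ℂ)) rfl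
  set f : SchwartzMap E ℂ := hs'.toSchwartzMap hφ' with hf
  have hfx : ∀ x, f x = (φ x : ℂ) := fun x => rfl
  have e1 := congrArg (fun T : TemperedDistribution E W => T f)
    (Lp.fourier_toTemperedDistribution_eq (h2.toLp G))
  simp only [TemperedDistribution.fourier_apply, Lp.toTemperedDistribution_apply] at e1
  have e2 := VectorFourier.integral_fourierIntegral_smul_eq_flip (μ := volume) (ν := volume)
    (L := innerₗ E) Real.continuous_fourierChar continuous_inner f.integrable h1
  rw [flip_innerₗ] at e2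
  have e3 : ∫ x, (𝓕 f) x • (h2.toLp G : Lp W 2 (volume : Measure E)) x = ∫ x, f x • 𝓕 G x := by
    refine Eq.trans ?_ e2
    refine integral_congr_ae ?_
    filter_upwards [h2.coeFn_toLp] with x hx
    rw [hx]
    rfl
  simp only [← Complex.coe_smul, ← hfx]
  rw [← e1, e3]

theorem an8_sq (u : E → W) : ∫⁻ x, ‖u x‖ₑ ^ 2 = eLpNorm u 2 volume ^ 2 := by
  have := eLpNorm_nnreal_pow_eq_lintegral (f := u) (μ := volume) (p := 2) two_ne_zero
  simpa using this.symm

end aux

theorem plancherel {E : Type} [NormedAddCommGroup E] [InnerProductSpace ℝ E]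
    [FiniteDimensional ℝ E] [MeasurableSpace E] [BorelSpace E] {G : E → W} (h1 : Integrable G)
    (h2 : MemLp G 2 volume) :
    ∫⁻ ξ, ‖∫ x, cexp (-(2 * Real.pi * I * ((⟪ξ, x⟫_ℝ : ℝ) : ℂ))) • G x‖ₑ ^ 2 =
      ∫⁻ x, ‖G x‖ₑ ^ 2 := by
  simp only [an8_eq]
  rw [an8_sq, an8_sq, ← eLpNorm_congr_ae (an8_ae h1 h2), ← Lp.enorm_def, ← Lp.enorm_toLp h2,
    ← ofReal_norm, ← ofReal_norm, Lp.norm_fourier_eq]

theorem fourier_continuous {E : Type} [NormedAddCommGroup E] [InnerProductSpace ℝ E]
    [FiniteDimensional ℝ E] [MeasurableSpace E] [BorelSpace E] {G : E → W} (h1 : Integrable G) :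
    Continuous fun ξ : E => ∫ x, cexp (-(2 * Real.pi * I * ((⟪ξ, x⟫_ℝ : ℝ) : ℂ))) • G x := by
  simp only [an8_eq]
  exact an8_cont h1

end Pool.Agent.P.MP_e0a138_an.AD
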