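import Pool.Agent.P.MP_e0a138_an.AN8

set_option autoImplicit false
set_option linter.unusedSectionVars false
set_option linter.unusedVariables false

open MeasureTheory Filter Topology Metric Complex
open scoped ENNReal NNReal ContDiff InnerProductSpace ComplexConjugate

noncomputable section
namespace Pool.Agent.P.MP_e0a138_an.AD

variable {N p q k : ℕ} {W : Type} [NormedAddCommGroup W] [InnerProductSpace ℂ W]
  [FiniteDimensional ℂ W] [CompleteSpace W]

theorem AN8b_FT (G : Eu p × Eu q → W) (ξ : WithLp 2 (Eu p × Eu q)) :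
    FT G (WithLp.ofLp ξ) = ∫ x : WithLp 2 (Eu p × Eu q),
      cexp (-(2 * Real.pi * I * ((⟪ξ, x⟫_ℝ : ℝ) : ℂ))) • G (WithLp.ofLp x) := by
  rw [FT, ← (WithLp.volume_preserving_ofLp (Eu p) (Eu q)).integral_comp
    (MeasurableEquiv.toLp 2 (Eu p × Eu q)).symm.measurableEmbedding]
  simp only [WithLp.prod_inner_apply]

theorem AN8b_int {G : Eu p × Eu q → W} (h1 : Integrable G) :
    Integrable fun x : WithLp 2 (Eu p × Eu q) => G (WithLp.ofLp x) :=
  (WithLp.volume_preserving_ofLp (Eu p) (Eu q)).integrable_comp_of_integrable h1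

theorem plancherel2 {G : Eu p × Eu q → W} (h1 : Integrable G) (h2 : MemLp G 2 volume) :
    ∫⁻ ζ, ‖FT G ζ‖ₑ ^ 2 = ∫⁻ z, ‖G z‖ₑ ^ 2 := by
  have hm := WithLp.volume_preserving_ofLp (Eu p) (Eu q)
  have he : MeasurableEmbedding (WithLp.ofLp : WithLp 2 (Eu p × Eu q) → Eu p × Eu q) :=
    (MeasurableEquiv.toLp 2 (Eu p × Eu q)).symm.measurableEmbedding
  rw [← hm.lintegral_comp_emb he, ← hm.lintegral_comp_emb he]
  simp only [AN8b_FT]
  exact plancherel (AN8b_int h1) (h2.comp_measurePreserving hm)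

theorem FT_continuous {G : Eu p × Eu q → W} (h1 : Integrable G) : Continuous (FT G) := by
  have h := (fourier_continuous (AN8b_int h1)).comp
    (WithLp.prod_continuous_toLp 2 (Eu p) (Eu q))
  refine h.congr fun ζ => ?_
  exact (AN8b_FT G (WithLp.toLp 2 ζ)).symm

theorem FT_fderiv {G : Eu p × Eu q → W} (hG : ContDiff ℝ ∞ G) (hc : HasCompactSupport G)
    (w ζ : Eu p × Eu q) : FT (fun z => fderiv ℝ G z w) ζ =
      (2 * Real.pi * I * ((⟪ζ.1, w.1⟫_ℝ + ⟪ζ.2, w.2⟫_ℝ : ℝ) : ℂ)) • FT G ζ := by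
  let L : Eu p × Eu q →L[ℝ] ℝ := innerSL ℝ ζ.1 ∘L ContinuousLinearMap.fst ℝ _ _ +
    innerSL ℝ ζ.2 ∘L ContinuousLinearMap.snd ℝ _ _
  have hL : ∀ z, L z = ⟪ζ.1, z.1⟫_ℝ + ⟪ζ.2, z.2⟫_ℝ := fun z => rfl
  let f : Eu p × Eu q → ℂ := fun z => cexp (-(2 * Real.pi * I * ((L z : ℝ) : ℂ)))
  have hf : ∀ z, HasFDerivAt f
      (f z • (-((2 * Real.pi * I : ℂ) • (ofRealCLM ∘L L)))) z := fun z =>
    ((((ofRealCLM ∘L L).hasFDerivAt (x := z)).const_mul (2 * Real.pi * I : ℂ)).neg).cexp
  have hfd : ∀ z, fderiv ℝ f z w = -((2 * Real.pi * I * ((L w : ℝ) : ℂ)) * f z) := fun z => by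
    rw [(hf z).fderiv]
    simp
    ring
  have hfc : Continuous f := continuous_iff_continuousAt.2 fun z => (hf z).continuousAt
  have hGd : Continuous fun z => fderiv ℝ G z w :=
    (hG.continuous_fderiv (by simp)).clm_apply continuous_const
  have h3 : Integrable fun z => f z • G z :=
    (hfc.smul hG.continuous).integrable_of_hasCompactSupport hc.smul_left
  have h2 : Integrable fun z => f z • fderiv ℝ G z w :=
    (hfc.smul hGd).integrable_of_hasCompactSupport (hc.fderiv_apply ℝ w).smul_left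
  have e : (fun z => fderiv ℝ f z w • G z) =
      fun z => (-(2 * Real.pi * I * ((L w : ℝ) : ℂ))) • (f z • G z) := by
    funext z
    rw [hfd, smul_smul, neg_mul]
  have h1 : Integrable fun z => fderiv ℝ f z w • G z := by
    rw [e]
    exact h3.smul _
  have key := integral_smul_fderiv_eq_neg_fderiv_smul_of_integrable h1 h2 h3
    (fun z _ => (hf z).differentiableAt) (fun z _ => hG.differentiable (by simp) z)
  rw [e, integral_smul, neg_smul, neg_neg] at key
  exact key

end Pool.Agent.P.MP_e0a138_an.AD
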