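import Pool.Agent.P.MP_e0a138_an.AN9a

set_option autoImplicit false
set_option linter.unusedSectionVars false
set_option linter.unusedVariables false

open MeasureTheory Filter Topology Metric Complex
open scoped ENNReal NNReal ContDiff InnerProductSpace ComplexConjugate

noncomputable section
namespace Pool.Agent.P.MP_e0a138_an.AD

variable {N p q k : ℕ} {W : Type} [NormedAddCommGroup W] [InnerProductSpace ℂ W]
  [FiniteDimensional ℂ W] [CompleteSpace W]

theorem AN9_smul {c : ℝ} (hc : 0 < c) (g : Eu q → ℝ≥0∞) :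
    ∫⁻ η, g η = ENNReal.ofReal (c ^ q) * ∫⁻ ζ, g (c • ζ) := by
  have he : MeasurableEmbedding fun ζ : Eu q => c • ζ :=
    (Homeomorph.smulOfNeZero c hc.ne').measurableEmbedding
  rw [← he.lintegral_map, Measure.map_addHaar_smul volume hc.ne', lintegral_smul_measure,
    finrank_Eu, smul_eq_mul, ← mul_assoc, ← ENNReal.ofReal_mul (by positivity),
    abs_of_pos (by positivity), mul_inv_cancel₀ (by positivity), ENNReal.ofReal_one, one_mul]

theorem lintegral_scale {h : ℝ} (hh : 0 < h) {f : Eu p × Eu q × Eu q → ℝ≥0∞} (hf : Measurable f) :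
    ∫⁻ o, f o = ENNReal.ofReal ((2 * Real.pi * h) ^ q) *
      ∫⁻ y, ∫⁻ ζ : Eu p × Eu q, f (ζ.1, y, (2 * Real.pi * h) • ζ.2) := by
  have hc : 0 < 2 * Real.pi * h := by positivity
  set c := 2 * Real.pi * h with hcd
  have hm : Measurable fun o : Eu p × Eu q × Eu q => f (o.1, o.2.1, c • o.2.2) := by
    refine hf.comp ?_
    fun_prop
  have e1 : ∫⁻ o, f o = ∫⁻ ξ, ∫⁻ y, ∫⁻ η, f (ξ, y, η) := by
    rw [Measure.volume_eq_prod, lintegral_prod _ hf.aemeasurable]
    refine lintegral_congr fun ξ => ?_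
    rw [Measure.volume_eq_prod, lintegral_prod _ (by fun_prop)]
  have e2 : ∀ y : Eu q, ∫⁻ ζ : Eu p × Eu q, f (ζ.1, y, c • ζ.2) =
      ∫⁻ ξ, ∫⁻ η, f (ξ, y, c • η) := by
    intro y
    rw [Measure.volume_eq_prod, lintegral_prod]
    refine (hf.comp ?_).aemeasurable
    fun_prop
  simp only [e2]
  rw [e1, lintegral_lintegral_swap, ← lintegral_const_mul' _ _ ENNReal.ofReal_ne_top]
  · refine lintegral_congr fun y => ?_
    rw [← lintegral_const_mul' _ _ ENNReal.ofReal_ne_top]
    refine lintegral_congr fun ξ => ?_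
    exact AN9_smul hc _
  · refine Measurable.aemeasurable ?_
    refine Measurable.lintegral_prod_right' (f := fun o : (Eu p × Eu q) × Eu q =>
      f (o.1.1, o.1.2, o.2)) ?_
    refine hf.comp ?_
    fun_prop

theorem Lam_frame {β : Eu q → ℝ} (hβ : Continuous β) (hc : HasCompactSupport β)
    (hn : ∫ y, β y ^ 2 = 1) {h : ℝ} (hh : 0 < h) {G : Eu p × Eu q → W} (h1 : Integrable G)
    (h2 : MemLp G 2 volume) :
    ∫⁻ o, ‖Lam β h G o‖ₑ ^ 2 = ENNReal.ofReal ((2 * Real.pi * h) ^ q) * ∫⁻ z, ‖G z‖ₑ ^ 2 := by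
  have hcp : 0 < 2 * Real.pi * h := by positivity
  obtain ⟨C, hC⟩ := hβ.bounded_above_of_compact_support hc
  have hbc : Continuous fun o : Eu q × Eu q => bw β h o.1 (ContinuousLinearMap.id ℝ _) o.2 := by
    unfold bw
    fun_prop
  have hbb : ∀ y Y, ‖bw β h y (ContinuousLinearMap.id ℝ _) Y‖ ≤ ‖(√(sc h ^ q))⁻¹‖ * C := by
    intro y Y
    rw [bw, norm_mul]
    exact mul_le_mul_of_nonneg_left (hC _) (norm_nonneg _)
  have hmeas : ∀ y, AEStronglyMeasurable
      (fun z : Eu p × Eu q => (bw β h y (ContinuousLinearMap.id ℝ _) z.2 : ℂ) • G z) volume := by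
    intro y
    refine AEStronglyMeasurable.smul (Continuous.aestronglyMeasurable ?_) h1.1
    exact continuous_ofReal.comp (hbc.comp (continuous_const.prodMk continuous_snd))
  have hle : ∀ y, ∀ᵐ z : Eu p × Eu q,
      ‖(bw β h y (ContinuousLinearMap.id ℝ _) z.2 : ℂ) • G z‖ ≤
        (‖(√(sc h ^ q))⁻¹‖ * C) * ‖G z‖ := by
    intro y
    refine Eventually.of_forall fun z => ?_
    rw [norm_smul, Complex.norm_real]
    exact mul_le_mul_of_nonneg_right (hbb _ _) (norm_nonneg _)
  rw [lintegral_scale hh ((Lam_continuous hβ hc h h1).enorm.measurable.pow_const 2)]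
  congr 1
  have e1 : ∀ y : Eu q, ∫⁻ ζ : Eu p × Eu q,
      ‖Lam β h G (ζ.1, y, (2 * Real.pi * h) • ζ.2)‖ₑ ^ 2 =
      ∫⁻ z : Eu p × Eu q, ‖bw β h y (ContinuousLinearMap.id ℝ _) z.2‖ₑ ^ 2 * ‖G z‖ₑ ^ 2 := by
    intro y
    have i1 : Integrable
        (fun z : Eu p × Eu q => (bw β h y (ContinuousLinearMap.id ℝ _) z.2 : ℂ) • G z) :=
      Integrable.mono' (h1.norm.const_mul _) (hmeas y) (hle y)
    have i2 := MemLp.of_le_mul h2 (hmeas y) (hle y)
    have := plancherel2 i1 i2
    simp only [norm_Lam β hh, smul_smul, inv_mul_cancel₀ hcp.ne', one_smul, Prod.mk.eta]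
    rw [this]
    refine lintegral_congr fun z => ?_
    rw [enorm_smul, mul_pow]
    congr 2
    simp only [← ofReal_norm, Complex.norm_real]
  simp only [e1]
  have hG : AEMeasurable (fun z => ‖G z‖ₑ ^ 2) volume := h1.1.enorm.pow_const 2
  rw [lintegral_lintegral_swap]
  · refine lintegral_congr fun z => ?_
    rw [lintegral_mul_const' _ _ (ENNReal.pow_ne_top enorm_ne_top), integral_bw_sq' hβ hh,
      lintegral_window hβ hc, hn, ENNReal.ofReal_one, one_mul]
  · refine AEMeasurable.mul ?_ (hG.comp_snd)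
    refine Measurable.aemeasurable (Measurable.pow_const (Measurable.enorm ?_) 2)
    exact (hbc.comp (continuous_fst.prodMk (continuous_snd.comp continuous_snd))).measurable

end Pool.Agent.P.MP_e0a138_an.AD
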