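import Pool.Agent.P.MP_e0a138_an.AN8b

set_option autoImplicit false
set_option linter.unusedSectionVars false
set_option linter.unusedVariables false

open MeasureTheory Filter Topology Metric Complex
open scoped ENNReal NNReal ContDiff InnerProductSpace ComplexConjugate

noncomputable section
namespace Pool.Agent.P.MP_e0a138_an.AD

variable {N p q k : ℕ} {W : Type} [NormedAddCommGroup W] [InnerProductSpace ℂ W]
  [FiniteDimensional ℂ W] [CompleteSpace W]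

theorem AN9a_lin (T : Eu q →ₗ[ℝ] Eu q) (hT : LinearMap.det T ≠ 0) {f : Eu q → ℝ≥0∞}
    (hf : Measurable f) :
    ∫⁻ Y, f (T Y) = ENNReal.ofReal |(LinearMap.det T)⁻¹| * ∫⁻ t, f t := by
  rw [← lintegral_map hf T.continuous_of_finiteDimensional.measurable,
    Measure.map_linearMap_addHaar_eq_smul_addHaar volume hT, lintegral_smul_measure, smul_eq_mul]

theorem AN9a_sq {a : ℝ} (ha : 0 < a) (b : ℝ) :
    ‖(√a)⁻¹ * b‖ₑ ^ 2 = ENNReal.ofReal a⁻¹ * ‖b‖ₑ ^ 2 := by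
  rw [enorm_mul, mul_pow, Real.enorm_eq_ofReal (by positivity),
    ← ENNReal.ofReal_pow (by positivity), inv_pow, Real.sq_sqrt ha.le]

theorem integral_bw_sq {β : Eu q → ℝ} (hβ : Continuous β) {h : ℝ} (hh : 0 < h) (y : Eu q)
    (e : Eu q ≃L[ℝ] Eu q) : ∫⁻ Y, ‖bw β h y (e.symm : Eu q →L[ℝ] Eu q) Y‖ₑ ^ 2 =
      jac e * ∫⁻ t, ‖β t‖ₑ ^ 2 := by
  have hs := sc_pos hh
  have hsq : 0 < sc h ^ q := pow_pos hs q
  have hf : Measurable fun t => ‖β t‖ₑ ^ 2 := hβ.measurable.enorm.pow_const 2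
  let T : Eu q →ₗ[ℝ] Eu q := (sc h)⁻¹ • (e.toLinearEquiv.symm : Eu q →ₗ[ℝ] Eu q)
  have hd : LinearMap.det (e.toLinearEquiv : Eu q →ₗ[ℝ] Eu q) ≠ 0 :=
    e.toLinearEquiv.isUnit_det'.ne_zero
  have hT : LinearMap.det T =
      (sc h ^ q)⁻¹ * (LinearMap.det (e.toLinearEquiv : Eu q →ₗ[ℝ] Eu q))⁻¹ := by
    rw [LinearMap.det_smul, finrank_Eu, LinearEquiv.det_coe_symm, inv_pow]
  have hT0 : LinearMap.det T ≠ 0 := by
    rw [hT]
    positivity
  have h1 : ∀ Y, ‖bw β h y (e.symm : Eu q →L[ℝ] Eu q) Y‖ₑ ^ 2 =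
      ENNReal.ofReal (sc h ^ q)⁻¹ * ‖β (T (Y - y))‖ₑ ^ 2 := fun Y => AN9a_sq hsq _
  simp only [h1]
  rw [lintegral_const_mul' _ _ ENNReal.ofReal_ne_top,
    lintegral_sub_right_eq_self (fun Y => ‖β (T Y)‖ₑ ^ 2) y, AN9a_lin T hT0 hf, ← mul_assoc,
    ← ENNReal.ofReal_mul (by positivity), hT, mul_inv, inv_inv, inv_inv, abs_mul, abs_of_pos hsq,
    inv_mul_cancel_left₀ hsq.ne', ← Real.norm_eq_abs, ofReal_norm]
  rfl

theorem integral_bw_sq' {β : Eu q → ℝ} (hβ : Continuous β) {h : ℝ} (hh : 0 < h) (Y : Eu q) :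
    ∫⁻ y, ‖bw β h y (ContinuousLinearMap.id ℝ _) Y‖ₑ ^ 2 = ∫⁻ t, ‖β t‖ₑ ^ 2 := by
  have h1 := integral_bw_sq hβ hh 0 (ContinuousLinearEquiv.refl ℝ (Eu q))
  rw [jac_refl, ENNReal.coe_one, one_mul] at h1
  rw [← h1, ← lintegral_sub_left_eq_self _ Y]
  refine lintegral_congr fun y => ?_
  simp [bw]

theorem lintegral_window {β : Eu q → ℝ} (hβ : Continuous β) (hc : HasCompactSupport β) :
    ∫⁻ t, ‖β t‖ₑ ^ 2 = ENNReal.ofReal (∫ t, β t ^ 2) := by
  have h1 : Integrable fun t => β t ^ 2 :=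
    (hβ.fun_pow 2).integrable_of_hasCompactSupport
      (HasCompactSupport.intro hc fun t ht => by rw [image_eq_zero_of_notMem_tsupport ht]; simp)
  rw [ofReal_integral_eq_lintegral_ofReal h1 (ae_of_all _ fun t => sq_nonneg _)]
  refine lintegral_congr fun t => ?_
  rw [← sq_abs, ENNReal.ofReal_pow (abs_nonneg _), Real.enorm_eq_ofReal_abs]

theorem norm_Lam (β : Eu q → ℝ) {h : ℝ} (hh : 0 < h) (G : Eu p × Eu q → W) (ξ : Eu p)
    (y η : Eu q) : ‖Lam β h G (ξ, y, η)‖ₑ =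
      ‖FT (fun z => (bw β h y (ContinuousLinearMap.id ℝ _) z.2 : ℂ) • G z)
        (ξ, (2 * Real.pi * h)⁻¹ • η)‖ₑ := by
  have h0 : (h : ℂ) ≠ 0 := ofReal_ne_zero.2 hh.ne'
  have hp : (Real.pi : ℂ) ≠ 0 := ofReal_ne_zero.2 Real.pi_ne_zero
  have h1 : Lam β h G (ξ, y, η) = cexp (((⟪η, y⟫_ℝ / h : ℝ) : ℂ) * I) •
      FT (fun z => (bw β h y (ContinuousLinearMap.id ℝ _) z.2 : ℂ) • G z)
        (ξ, (2 * Real.pi * h)⁻¹ • η) := by
    rw [Lam, FT, ← integral_smul]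
    refine integral_congr_ae (ae_of_all _ fun z => ?_)
    simp only [ph, smul_smul, map_mul, conj_ofReal, ← exp_conj, conj_I]
    refine congrArg (fun c : ℂ => c • G z) ?_
    rw [mul_assoc, ← Complex.exp_add, ← mul_assoc, ← Complex.exp_add, mul_comm]
    refine congrArg (fun c : ℂ => cexp c * _) ?_
    rw [inner_sub_right, real_inner_smul_left]
    push_cast
    field_simp
    ring
  rw [h1, enorm_smul, ← ofReal_norm, Complex.norm_exp_ofReal_mul_I, ENNReal.ofReal_one,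
    one_mul]

theorem Lam_continuous {β : Eu q → ℝ} (hβ : Continuous β) (hc : HasCompactSupport β) (h : ℝ)
    {G : Eu p × Eu q → W} (h1 : Integrable G) : Continuous (Lam β h G) := by
  obtain ⟨C, hC⟩ := hβ.bounded_above_of_compact_support hc
  have hcont : Continuous fun w : (Eu p × Eu q × Eu q) × (Eu p × Eu q) =>
      conj (ph β h w.1.2.1 w.1.2.2 (ContinuousLinearMap.id ℝ _) w.2.2) *
        cexp (-(2 * Real.pi * I * ((⟪w.1.1, w.2.1⟫_ℝ : ℝ) : ℂ))) := by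
    simp only [ph, bw]
    fun_prop
  refine continuous_of_dominated (bound := fun z => (√(sc h ^ q))⁻¹ * C * ‖G z‖) (fun o => ?_)
    (fun o => ae_of_all _ fun z => ?_) (h1.norm.const_mul _) (ae_of_all _ fun z => ?_)
  · exact (hcont.comp (continuous_const.prodMk continuous_id)).aestronglyMeasurable.smul
      h1.aestronglyMeasurable
  · have h2 : ∀ t : ℝ, ‖cexp (-(2 * Real.pi * I * (t : ℂ)))‖ = 1 := fun t => by
      rw [← Complex.norm_exp_ofReal_mul_I (-(2 * Real.pi * t))]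
      push_cast
      ring_nf
    rw [norm_smul, norm_mul, h2, mul_one, RCLike.norm_conj, norm_ph, bw, abs_mul,
      abs_of_nonneg (by positivity)]
    gcongr
    exact hC _
  · exact (hcont.comp (continuous_id.prodMk continuous_const)).smul continuous_const

end Pool.Agent.P.MP_e0a138_an.AD
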