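import Pool.Agent.P.MP_e0a138_an.Torus

set_option autoImplicit false

open Module MeasureTheory Filter Topology Set Real
open scoped ComplexConjugate InnerProductSpace ContDiff ENNReal

namespace Pool.Agent.P.MP_e0a138_an

theorem integrableOn_sq {F : ℝ × ℝ → ℂ} (hF : Continuous F) :
    IntegrableOn F (Ioc (0 : ℝ) 1 ×ˢ Ioc (0 : ℝ) 1) volume :=
  (hF.continuousOn.integrableOn_compact (isCompact_Icc.prod isCompact_Icc)).mono_set
    (prod_mono Ioc_subset_Icc_self Ioc_subset_Icc_self)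

theorem integral_dy {F F' : ℝ × ℝ → ℂ} (hF' : Continuous F')
    (h : ∀ x y, HasDerivAt (fun y => F (x, y)) (F' (x, y)) y) (hp : ∀ x, F (x, 1) = F (x, 0)) :
    ∫ m in Ioc (0 : ℝ) 1 ×ˢ Ioc (0 : ℝ) 1, F' m = 0 := by
  rw [Measure.volume_eq_prod, setIntegral_prod _ (integrableOn_sq hF')]
  have : ∀ x, ∫ y in Ioc (0 : ℝ) 1, F' (x, y) = 0 := fun x => by
    rw [← intervalIntegral.integral_of_le zero_le_one]
    exact integral_deriv_per (h x) (by fun_prop) (hp x)
  simp [this]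

theorem integral_dx {F F' : ℝ × ℝ → ℂ} (hF' : Continuous F')
    (h : ∀ x y, HasDerivAt (fun x => F (x, y)) (F' (x, y)) x) (hp : ∀ y, F (1, y) = F (0, y)) :
    ∫ m in Ioc (0 : ℝ) 1 ×ˢ Ioc (0 : ℝ) 1, F' m = 0 := by
  have hi := integrableOn_sq hF'
  rw [IntegrableOn, Measure.volume_eq_prod, ← Measure.prod_restrict] at hi
  rw [Measure.volume_eq_prod, ← Measure.prod_restrict, integral_prod_symm _ hi]
  have : ∀ y, ∫ x in Ioc (0 : ℝ) 1, F' (x, y) = 0 := fun y => by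
    rw [← intervalIntegral.integral_of_le zero_le_one]
    exact integral_deriv_per (fun x => h x y) (by fun_prop) (hp y)
  simp [this]

theorem fderiv_comp_i {u : ℝ × ℝ → V4} (hu : IsForm u) (i : Fin 4) (m v : ℝ × ℝ) :
    fderiv ℝ (fun n => u n i) m v = fderiv ℝ u m v i :=
  fderiv_l (EuclideanSpace.proj i) hu m v

theorem smooth_i {u : ℝ × ℝ → V4} (hu : IsForm u) (i : Fin 4) : ContDiff ℝ ∞ fun n => u n i :=
  ((EuclideanSpace.proj i : V4 →L[ℂ] ℂ).restrictScalars ℝ).contDiff.comp hu.1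

theorem dx_i {u : ℝ × ℝ → V4} (hu : IsForm u) (i : Fin 4) (x y : ℝ) :
    HasDerivAt (fun x => u (x, y) i) (fderiv ℝ u (x, y) (1, 0) i) x := by
  rw [← fderiv_comp_i hu]; exact hasDerivAt_x (smooth_i hu i) x y

theorem dy_i {u : ℝ × ℝ → V4} (hu : IsForm u) (i : Fin 4) (x y : ℝ) :
    HasDerivAt (fun y => u (x, y) i) (fderiv ℝ u (x, y) (0, 1) i) y := by
  rw [← fderiv_comp_i hu]; exact hasDerivAt_y (smooth_i hu i) x y

theorem dh_eq {a : ℝ → ℝ} (ha : ContDiff ℝ ∞ a) (h : ℝ) {u : ℝ × ℝ → V4} (hu : IsForm u)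
    (m : ℝ × ℝ) : dh a h u m = !₂[0, fderiv ℝ u m (1, 0) 0 + a m.2 * fderiv ℝ u m (0, 1) 0,
      h * fderiv ℝ u m (0, 1) 0, fderiv ℝ u m (1, 0) 2 + (deriv a m.2 * u m 2 +
        a m.2 * fderiv ℝ u m (0, 1) 2) - h * fderiv ℝ u m (0, 1) 1] := by
  obtain ⟨x, y⟩ := m
  have hs : ContDiff ℝ ∞ fun n : ℝ × ℝ => (a n.2 : ℂ) * u n 2 :=
    (Complex.ofRealCLM.contDiff.comp (ha.comp contDiff_snd)).mul (smooth_i hu 2)
  have h1 := (hasDerivAt_y hs x y).unique
    (((ha.differentiable (by simp) y).hasDerivAt.ofReal_comp).mul (dy_i hu 2 x y))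
  unfold dh
  rw [h1]
  simp only [fderiv_comp_i hu]
  rw [fderiv_pair _ 1 (a y)]
  simp

theorem Dh_eq (a : ℝ → ℝ) (h : ℝ) (u : ℝ × ℝ → V4) (m : ℝ × ℝ) :
    Dh a h u m = op (deriv a m.2) (u m) (fderiv ℝ u m (1, 0) + a m.2 • fderiv ℝ u m (0, 1))
      (h • fderiv ℝ u m (0, 1)) := by
  unfold Dh
  rw [fderiv_pair _ 1 (a m.2), fderiv_pair _ 0 h]
  simp

theorem ip_Dh {a : ℝ → ℝ} (ha : ContDiff ℝ ∞ a) (hp : ∀ y, a (y + 1) = a y) (h : ℝ)
    {u v : ℝ × ℝ → V4} (hu : IsForm u) (hv : IsForm v) :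
    ip (Dh a h u) v = ip (dh a h u) v + ip u (dh a h v) := by
  have c0 := ha.continuous
  have c1 : Continuous (deriv a) := ha.continuous_deriv (by simp)
  have c2 := hu.1.continuous
  have c3 := hv.1.continuous
  have c4 := (smooth_fderiv hu.1 (1, 0)).continuous
  have c5 := (smooth_fderiv hu.1 (0, 1)).continuous
  have c6 := (smooth_fderiv hv.1 (1, 0)).continuous
  have c7 := (smooth_fderiv hv.1 (0, 1)).continuous
  have ha' : ∀ y, HasDerivAt (fun y => (a y : ℂ)) (deriv a y : ℝ) y := fun y =>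
    (ha.differentiable (by simp) y).hasDerivAt.ofReal_comp
  have e1 := integral_dx (F := fun m => -(conj (u m 1) * v m 0) - conj (u m 3) * v m 2)
    (F' := fun m => -(conj (fderiv ℝ u m (1, 0) 1) * v m 0 + conj (u m 1) * fderiv ℝ v m (1, 0) 0)
      - (conj (fderiv ℝ u m (1, 0) 3) * v m 2 + conj (u m 3) * fderiv ℝ v m (1, 0) 2))
    (by fun_prop)
    (fun x y => (((dx_i hu 1 x y).star.mul (dx_i hv 0 x y)).neg).sub
      ((dx_i hu 3 x y).star.mul (dx_i hv 2 x y)))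
    (fun y => by
      have h1 := hu.2.1 0 y
      have h2 := hv.2.1 0 y
      rw [zero_add] at h1 h2
      simp only [h1, h2])
  have e2 := integral_dy (F := fun m => a m.2 * (-(conj (u m 1) * v m 0) - conj (u m 3) * v m 2)
      + h * (conj (u m 3) * v m 1 - conj (u m 2) * v m 0))
    (F' := fun m => (deriv a m.2 * (-(conj (u m 1) * v m 0) - conj (u m 3) * v m 2) +
      a m.2 * (-(conj (fderiv ℝ u m (0, 1) 1) * v m 0 + conj (u m 1) * fderiv ℝ v m (0, 1) 0)
      - (conj (fderiv ℝ u m (0, 1) 3) * v m 2 + conj (u m 3) * fderiv ℝ v m (0, 1) 2)))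
      + h * ((conj (fderiv ℝ u m (0, 1) 3) * v m 1 + conj (u m 3) * fderiv ℝ v m (0, 1) 1)
        - (conj (fderiv ℝ u m (0, 1) 2) * v m 0 + conj (u m 2) * fderiv ℝ v m (0, 1) 0)))
    (by fun_prop)
    (fun x y => ((ha' y).mul ((((dy_i hu 1 x y).star.mul (dy_i hv 0 x y)).neg).sub
      ((dy_i hu 3 x y).star.mul (dy_i hv 2 x y)))).add
      ((((dy_i hu 3 x y).star.mul (dy_i hv 1 x y)).sub
        ((dy_i hu 2 x y).star.mul (dy_i hv 0 x y))).const_mul _))
    (fun x => by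
      have h1 := hu.2.2 x 0
      have h2 := hv.2.2 x 0
      have h3 := hp 0
      rw [zero_add] at h1 h2 h3
      simp only [h1, h2, h3])
  unfold ip
  simp only [Dh_eq, dh_eq ha h hu, dh_eq ha h hv, PiLp.inner_apply, Fin.sum_univ_four, op]
  simp
  rw [← add_zero (_ + _), ← add_zero (_ + _ + 0)]
  nth_rewrite 1 [← e1]
  rw [← e2, ← integral_add (integrableOn_sq (by fun_prop)) (integrableOn_sq (by fun_prop)),
    ← integral_add (integrableOn_sq (by fun_prop)) (integrableOn_sq (by fun_prop)),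
    ← integral_add (integrableOn_sq (by fun_prop)) (integrableOn_sq (by fun_prop))]
  refine integral_congr_ae (Eventually.of_forall fun m => ?_)
  simp only
  ring

end Pool.Agent.P.MP_e0a138_an
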