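import Mathlib

set_option autoImplicit false

open MeasureTheory Filter Topology Set
open scoped ComplexConjugate

namespace Pool.Agent.P.MP_e0a138_an

theorem ii {E : Type*} [NormedAddCommGroup E] {f : ℝ → E} (hf : Continuous f) (a b : ℝ) :
    IntervalIntegrable f volume a b := hf.intervalIntegrable a b

theorem integral_conj_mul_self {v : ℝ → ℂ} :
    ∫ y in (0 : ℝ)..1, conj (v y) * v y = ((∫ y in (0 : ℝ)..1, ‖v y‖ ^ 2 : ℝ) : ℂ) := by
  rw [← intervalIntegral.integral_ofReal]
  refine intervalIntegral.integral_congr fun y _ => ?_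
  simp only [Complex.conj_mul']
  push_cast; rfl

theorem exists_orthonormal {E : Type*} [AddCommGroup E] [Module ℂ E] [FiniteDimensional ℂ E]
    (φ : E →ₗ[ℂ] (ℝ → ℂ)) (hc : ∀ v, Continuous (φ v))
    (hdef : ∀ v, ∫ y in (0 : ℝ)..1, ‖φ v y‖ ^ 2 = 0 → v = 0) :
    ∃ e : Fin (Module.finrank ℂ E) → E, ∀ i j,
      ∫ y in (0 : ℝ)..1, conj (φ (e i) y) * φ (e j) y = if i = j then 1 else 0 := by
  let core : InnerProductSpace.Core ℂ E :=
    { inner := fun v w => ∫ y in (0 : ℝ)..1, conj (φ v y) * φ w y
      conj_inner_symm := fun v w => by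
        simp only [intervalIntegral.integral_of_le (zero_le_one' ℝ)]
        rw [← integral_conj]
        refine integral_congr_ae (Eventually.of_forall fun y => ?_)
        simp [mul_comm]
      re_inner_nonneg := fun v => by
        rw [integral_conj_mul_self]
        simp only [RCLike.re_to_complex, Complex.ofReal_re]
        exact intervalIntegral.integral_nonneg zero_le_one fun y _ => by positivity
      add_left := fun v w x => by
        have h1 := hc v; have h2 := hc w; have h3 := hc x
        rw [← intervalIntegral.integral_add (ii (by fun_prop) _ _) (ii (by fun_prop) _ _)]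
        refine intervalIntegral.integral_congr fun y _ => ?_
        simp [add_mul]
      smul_left := fun v w r => by
        rw [← intervalIntegral.integral_const_mul]
        refine intervalIntegral.integral_congr fun y _ => ?_
        simp [mul_assoc]
      definite := fun v hv => by
        apply hdef
        have : ((∫ y in (0 : ℝ)..1, ‖φ v y‖ ^ 2 : ℝ) : ℂ) = 0 := by
          rw [← integral_conj_mul_self]; exact hv
        exact_mod_cast this }
  let : NormedAddCommGroup E := core.toNormedAddCommGroup
  let : InnerProductSpace ℂ E := InnerProductSpace.ofCore core.toCore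
  refine ⟨stdOrthonormalBasis ℂ E, fun i j => ?_⟩
  have := orthonormal_iff_ite.1 (stdOrthonormalBasis ℂ E).orthonormal i j
  exact this

/-- A continuous `1`-periodic function with zero `L²` norm on a period vanishes. -/
theorem eq_zero_of_integral_sq {v : ℝ → ℂ} (hv : Continuous v) (hp : ∀ y, v (y + 1) = v y)
    (h : ∫ y in (0 : ℝ)..1, ‖v y‖ ^ 2 = 0) : v = 0 := by
  have hper : Function.Periodic v 1 := hp
  have h0 : ∀ y ∈ Ioo (0 : ℝ) 1, v y = 0 := by
    intro y hy
    by_contra hne
    have : 0 < ∫ y in (0 : ℝ)..1, ‖v y‖ ^ 2 := by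
      apply intervalIntegral.integral_pos zero_lt_one (by fun_prop) (fun y _ => by positivity)
      exact ⟨y, Ioo_subset_Icc_self hy, by positivity⟩
    linarith
  have h1 : ∀ y ∈ Icc (0 : ℝ) 1, v y = 0 := by
    have hcl : IsClosed {y | v y = 0} := isClosed_eq hv continuous_const
    have := closure_minimal (s := Ioo (0 : ℝ) 1) h0 hcl
    rw [closure_Ioo zero_ne_one] at this
    exact this
  funext y
  have := hper.sub_int_mul_eq (x := y) ⌊y⌋
  rw [mul_one] at this
  rw [← this]
  exact h1 _ ⟨Int.fract_nonneg y, (Int.fract_lt_one y).le⟩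

/-- Sobolev bound on `[0,1]`. -/
theorem le_integral_add {g g' : ℝ → ℝ} (hg : ∀ y, HasDerivAt g (g' y) y) (hg' : Continuous g')
    {y : ℝ} (hy : y ∈ Icc (0 : ℝ) 1) :
    g y ≤ (∫ t in (0 : ℝ)..1, g t) + ∫ t in (0 : ℝ)..1, |g' t| := by
  have hc : Continuous g := continuous_iff_continuousAt.2 fun y => (hg y).continuousAt
  obtain ⟨y0, hy0, hmin⟩ := isCompact_Icc.exists_isMinOn (nonempty_Icc.2 (zero_le_one' ℝ))
    hc.continuousOn
  have h1 : g y0 ≤ ∫ t in (0 : ℝ)..1, g t := by
    have : ∫ _t in (0 : ℝ)..1, g y0 ≤ ∫ t in (0 : ℝ)..1, g t :=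
      intervalIntegral.integral_mono_on zero_le_one (ii continuous_const _ _) (ii hc _ _)
        fun t ht => hmin ht
    simpa using this
  have h2 : ∫ t in y0..y, g' t = g y - g y0 :=
    intervalIntegral.integral_eq_sub_of_hasDerivAt (fun t _ => hg t) (ii hg' _ _)
  have h3 : |∫ t in y0..y, g' t| ≤ ∫ t in (0 : ℝ)..1, |g' t| := by
    have := intervalIntegral.norm_integral_le_abs_integral_norm (f := g') (a := y0) (b := y)
      (μ := volume)
    refine this.trans ?_
    simp only [Real.norm_eq_abs]
    rcases le_total y0 y with hle | hle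
    · rw [abs_of_nonneg (intervalIntegral.integral_nonneg hle fun _ _ => abs_nonneg _)]
      exact intervalIntegral.integral_mono_interval hy0.1 hle hy.2
        (Eventually.of_forall fun _ => abs_nonneg _) (ii hg'.abs _ _)
    · rw [intervalIntegral.integral_symm, abs_neg,
        abs_of_nonneg (intervalIntegral.integral_nonneg hle fun _ _ => abs_nonneg _)]
      exact intervalIntegral.integral_mono_interval hy.1 hle hy0.2
        (Eventually.of_forall fun _ => abs_nonneg _) (ii hg'.abs _ _)
  have := le_abs_self (∫ t in y0..y, g' t)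
  linarith

end Pool.Agent.P.MP_e0a138_an
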