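import Pool.Agent.P.MP_e0a138_an.Per

set_option autoImplicit false

open MeasureTheory Filter Topology Set
open scoped ContDiff ENNReal

namespace Pool.Agent.P.MP_e0a138_an

theorem exists_slope : ∃ a : ℝ → ℝ, Good a ∧ (∀ n : ℤ, a n = 0) ∧ Dense {y | a y ≠ 0} ∧
    volume ({y | a y ≠ 0} ∩ Ioc (0 : ℝ) 1) ≤ ENNReal.ofReal 0.000001 := by
  obtain ⟨U0, hQ, hU0, hm⟩ := (range ((↑) : ℚ → ℝ)).exists_isOpen_lt_of_lt (μ := volume)
    (ENNReal.ofReal 0.000001) (by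
      rw [(countable_range _).measure_zero]; exact ENNReal.ofReal_pos.2 (by norm_num))
  obtain ⟨g, hs, hg, hr⟩ := (hU0.inter isOpen_Ioo (t := Ioo (0 : ℝ) 1)).exists_contDiff_support_eq
    (n := ⊤)
  have hz : ∀ y, y ∉ Ioo (0 : ℝ) 1 → g y = 0 := fun y hy => by
    by_contra h
    exact hy (hs ▸ Function.mem_support.2 h).2
  let A : ℝ → ℝ := fun y => g (Int.fract y)
  have A1 : ContDiff ℝ ∞ A := by
    rw [contDiff_iff_contDiffAt]
    intro y
    have h1 : ContDiff ℝ ∞ fun z => g (z - ⌊y⌋) + g (z - ⌊y⌋ + 1) := by fun_prop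
    refine h1.contDiffAt.congr_of_eventuallyEq ?_
    have : Ioo ((⌊y⌋ : ℝ) - 1) (⌊y⌋ + 1) ∈ 𝓝 y :=
      Ioo_mem_nhds (by linarith [Int.floor_le y]) (Int.lt_floor_add_one y)
    filter_upwards [this] with z hz'
    by_cases h : (⌊y⌋ : ℝ) ≤ z
    · have e : ⌊z⌋ = ⌊y⌋ := Int.floor_eq_iff.2 ⟨h, hz'.2⟩
      simp only [A, Int.fract, e]
      rw [hz (z - ⌊y⌋ + 1) fun h' => by linarith [h'.2], add_zero]
    · have e : ⌊z⌋ = ⌊y⌋ - 1 := Int.floor_eq_iff.2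
        ⟨by push_cast; exact hz'.1.le, by push_cast; linarith [not_le.1 h]⟩
      simp only [A, Int.fract, e]
      rw [hz (z - ⌊y⌋) fun h' => by linarith [h'.1, not_le.1 h], zero_add]
      push_cast; ring_nf
  have A2 : ∀ y, A (y + 1) = A y := fun y => by simp only [A, Int.fract_add_one]
  have A3 : Function.Periodic (deriv A) 1 := deriv_per A2
  obtain ⟨C, hC⟩ := (A3.isBounded_of_continuous one_ne_zero
    (A1.continuous_deriv (by simp))).exists_pos_norm_le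
  have hC1 : 0 < C + 1 := by linarith [hC.1]
  have hne : ∀ y, A y / (C + 1) ≠ 0 ↔ Int.fract y ∈ U0 ∩ Ioo (0 : ℝ) 1 := fun y => by
    rw [← hs, Function.mem_support]; simp [A, hC1.ne']
  refine ⟨fun y => A y / (C + 1), ⟨A1.div_const _, fun y => by rw [A2], fun y => ?_, fun y => ?_,
    fun y => ?_⟩, fun n => ?_, ?_, ?_⟩
  · exact div_nonneg (hr (mem_range_self _)).1 hC1.le
  · rw [div_le_one hC1]; linarith [(hr (mem_range_self (Int.fract y))).2, hC.1]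
  · rw [deriv_div_const, abs_div, abs_of_pos hC1, div_le_one hC1]
    linarith [hC.2 _ (mem_range_self y), Real.norm_eq_abs (deriv A y)]
  · simp only [A, Int.fract_intCast]
    rw [hz 0 (by simp), zero_div]
  · rw [dense_iff_inter_open]
    rintro V hV ⟨y, hy⟩
    obtain ⟨ε, hε, hb⟩ := Metric.isOpen_iff.1 hV y hy
    obtain ⟨q, hq1, hq2⟩ := exists_rat_btwn (lt_min (lt_add_of_pos_right y hε)
      (Int.lt_floor_add_one y))
    rw [lt_min_iff] at hq2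
    have e : ⌊(q : ℝ)⌋ = ⌊y⌋ := Int.floor_eq_iff.2 ⟨by linarith [Int.floor_le y], hq2.2⟩
    refine ⟨q, hb ?_, (hne q).2 ⟨hQ ⟨q - ⌊y⌋, ?_⟩, ?_, Int.fract_lt_one _⟩⟩
    · rw [Metric.mem_ball, Real.dist_eq, abs_lt]; constructor <;> linarith [hq2.1]
    · rw [Int.fract, e]; push_cast; rfl
    · rw [Int.fract, e]; linarith [Int.floor_le y]
  · refine (measure_mono fun y hy => ?_).trans hm.le
    have h := (hne y).1 hy.1
    rcases hy.2.2.eq_or_lt with h1 | h1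
    · rw [h1] at h; simp at h
    · rw [Int.fract_eq_self.2 ⟨hy.2.1.le, h1⟩] at h; exact h.1

theorem Good.lip {a : ℝ → ℝ} (ha : Good a) : LipschitzWith 1 a :=
  lipschitzWith_of_nnnorm_deriv_le (ha.smooth.differentiable (by simp)) fun y => by
    rw [← NNReal.coe_le_coe]; simpa using ha.deriv_le y

theorem exists_flow {a : ℝ → ℝ} (ha : Good a) (y : ℝ) :
    ∃ φ : ℝ → ℝ, φ 0 = y ∧ ∀ t, HasDerivAt φ (a (φ t)) t := by
  have h : ∀ n : ℕ, ∃ φ : ℝ → ℝ, φ 0 = y ∧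
      ∀ t ∈ Ioo (-(n : ℝ)) n, HasDerivAt φ (a (φ t)) t := by
    intro n
    have hp : IsPicardLindelof (fun _ => a) (tmin := -(n : ℝ)) (tmax := n)
        ⟨0, by simp⟩ y n 0 1 1 :=
      IsPicardLindelof.of_time_independent
        (fun x _ => by simpa [abs_of_nonneg (ha.nonneg x)] using ha.le_one x)
        ha.lip.lipschitzOnWith (by simp)
    obtain ⟨φ, h0, h1⟩ := hp.exists_eq_forall_mem_Icc_hasDerivWithinAt₀
    exact ⟨φ, h0, fun t ht =>
      (h1 t (Ioo_subset_Icc_self ht)).hasDerivAt (Icc_mem_nhds ht.1 ht.2)⟩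
  choose φ h0 h1 using h
  have hc : ∀ n m : ℕ, n ≤ m → ∀ t ∈ Ioo (-(n : ℝ)) n, φ n t = φ m t := by
    intro n m hnm t ht
    have hnm' : (n : ℝ) ≤ m := by exact_mod_cast hnm
    refine ODE_solution_unique_of_mem_Ioo (v := fun _ => a) (s := fun _ => univ) (K := 1) (t₀ := 0)
      (fun _ _ => ha.lip.lipschitzOnWith) ⟨by linarith [ht.1, ht.2], by linarith [ht.1, ht.2]⟩
      (fun s hs => ⟨h1 n s hs, trivial⟩)
      (fun s hs => ⟨h1 m s ⟨by linarith [hs.1], by linarith [hs.2]⟩, trivial⟩)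
      (by rw [h0, h0]) ht
  have hN : ∀ t : ℝ, t ∈ Ioo (-((⌊|t|⌋₊ + 1 : ℕ) : ℝ)) (⌊|t|⌋₊ + 1 : ℕ) := fun t => by
    have := Nat.lt_floor_add_one |t|
    push_cast
    exact abs_lt.1 this
  have he : ∀ (n : ℕ) t, t ∈ Ioo (-(n : ℝ)) n → φ (⌊|t|⌋₊ + 1) t = φ n t := by
    intro n t ht
    rw [hc _ _ (le_max_left _ n) t (hN t), hc _ _ (le_max_right (⌊|t|⌋₊ + 1) n) t ht]
  refine ⟨fun t => φ (⌊|t|⌋₊ + 1) t, h0 _, fun t => ?_⟩
  refine (h1 _ t (hN t)).congr_of_eventuallyEq ?_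
  filter_upwards [Ioo_mem_nhds (hN t).1 (hN t).2] with s hs
  exact he _ s hs

theorem flow_const {a : ℝ → ℝ} (ha : Good a) {φ : ℝ → ℝ} (h : ∀ t, HasDerivAt φ (a (φ t)) t)
    {t0 : ℝ} (h0 : a (φ t0) = 0) (t : ℝ) : φ t = φ t0 :=
  congrFun (ODE_solution_unique_univ (v := fun _ => a) (s := fun _ => univ) (K := 1) (t₀ := t0)
    (g := fun _ => φ t0) (fun _ => ha.lip.lipschitzOnWith) (fun t => ⟨h t, trivial⟩)
    (fun t => ⟨h0 ▸ hasDerivAt_const t _, trivial⟩) rfl) t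

theorem holonomy {a : ℝ → ℝ} (ha : Good a) (hz : ∀ n : ℤ, a n = 0) (hd : Dense {y | a y ≠ 0})
    {Φ : ℝ → ℝ → ℝ} (hΦ : ∀ y, Φ y 0 = y ∧ ∀ t, HasDerivAt (Φ y) (a (Φ y t)) t) (y : ℝ) (n : ℤ)
    (hn : n ≠ 0) : ¬∀ᶠ z in 𝓝 y, ∃ m : ℤ, Φ z n = z + m := by
  intro h
  obtain ⟨z, hz1, m, hm⟩ := hd.inter_nhds_nonempty h
  have hne : ∀ t, a (Φ z t) ≠ 0 := fun t ht => by
    have := flow_const ha (hΦ z).2 ht 0
    rw [(hΦ z).1] at this
    exact hz1 (this ▸ ht)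
  have hmono : StrictMono (Φ z) := strictMono_of_deriv_pos fun t => by
    rw [((hΦ z).2 t).deriv]; exact lt_of_le_of_ne (ha.nonneg _) (hne t).symm
  have hc : Continuous (Φ z) := continuous_iff_continuousAt.2 fun t => ((hΦ z).2 t).continuousAt
  have hiv : ∀ k : ℤ, (k : ℝ) ∉ uIcc z (z + m) := fun k hk => by
    rw [← hm, ← (hΦ z).1] at hk
    rw [(hΦ z).1] at hk
    nth_rewrite 1 [← (hΦ z).1] at hk
    obtain ⟨t, -, ht⟩ := intermediate_value_uIcc hc.continuousOn hk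
    exact hne t (ht ▸ hz k)
  rcases lt_trichotomy m 0 with h1 | h1 | h1
  · have : (m : ℝ) ≤ -1 := by exact_mod_cast Int.le_sub_one_of_lt h1
    exact hiv ⌊z⌋ (mem_uIcc.2 (Or.inr
      ⟨by linarith [Int.lt_floor_add_one z], Int.floor_le z⟩))
  · rw [h1, Int.cast_zero, add_zero] at hm
    exact hn (by exact_mod_cast hmono.injective (hm.trans (hΦ z).1.symm))
  · have : (1 : ℝ) ≤ m := by exact_mod_cast h1
    exact hiv ⌈z⌉ (mem_uIcc.2 (Or.inl
      ⟨Int.le_ceil z, by linarith [Int.ceil_lt_add_one z]⟩))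

theorem Good.deriv_eq_zero {a : ℝ → ℝ} (ha : Good a) {y : ℝ} (h : a y = 0) : deriv a y = 0 :=
  IsLocalMin.deriv_eq_zero (Eventually.of_forall fun z => h ▸ ha.nonneg z)

end Pool.Agent.P.MP_e0a138_an
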