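import Mathlib

set_option autoImplicit false

open Module
open scoped ComplexConjugate InnerProductSpace

namespace Pool.Agent.P.MP_e0a138_an

variable {E : Type} [NormedAddCommGroup E] [InnerProductSpace ℂ E]

/-- Every finite-dimensional subspace on which `A` is bounded by `lam` has dimension `≤ n`. -/
def Bd (A : E →ₗ[ℂ] E) (lam n : ℝ) : Prop :=
  ∀ W : Submodule ℂ E, FiniteDimensional ℂ W → (∀ w ∈ W, ‖A w‖ ≤ lam * ‖w‖) →
    (finrank ℂ W : ℝ) ≤ n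

theorem finite_of_bound {V : Type} [AddCommGroup V] [Module ℂ V] {n : ℝ}
    (h : ∀ W : Submodule ℂ V, FiniteDimensional ℂ W → (finrank ℂ W : ℝ) ≤ n) :
    FiniteDimensional ℂ V ∧ (finrank ℂ V : ℝ) ≤ n := by
  have h1 : Module.rank ℂ V ≤ (⌊n⌋₊ : ℕ) := by
    apply rank_le
    intro s hs
    have := h (Submodule.span ℂ (s : Set V)) (FiniteDimensional.span_finset ℂ s)
    rw [finrank_span_finset_eq_card hs] at this
    exact Nat.le_floor this
  have h2 : FiniteDimensional ℂ V :=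
    Module.rank_lt_aleph0_iff.1 (h1.trans_lt (Cardinal.natCast_lt_aleph0))
  refine ⟨h2, ?_⟩
  have := h ⊤ inferInstance
  rwa [finrank_top] at this

theorem Bd.of_injective {A : E →ₗ[ℂ] E} {lam n : ℝ} (h : Bd A lam n) {V : Type} [AddCommGroup V]
    [Module ℂ V] (φ : V →ₗ[ℂ] E) (hφ : Function.Injective φ)
    (hb : ∀ v, ‖A (φ v)‖ ≤ lam * ‖φ v‖) : FiniteDimensional ℂ V ∧ (finrank ℂ V : ℝ) ≤ n := by
  apply finite_of_bound
  intro W hW
  have := h (W.map φ) inferInstance (by rintro _ ⟨v, -, rfl⟩; exact hb v)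
  rwa [← LinearEquiv.finrank_eq (Submodule.equivMapOfInjective φ hφ W)] at this

theorem sum_eigen_le {A A' : E →ₗ[ℂ] E} (hadj : ∀ w z, ⟪A w, z⟫_ℂ = ⟪w, A' z⟫_ℂ) {lam n : ℝ}
    (hlam : 0 ≤ lam) (h : Bd A lam n) (T : Finset ℝ) (hT : ∀ μ ∈ T, μ ^ 2 ≤ lam ^ 2)
    (hinj : ∀ μ ∈ T, ∀ ν ∈ T, μ ^ 2 = ν ^ 2 → μ = ν) :
    (∀ μ ∈ T, FiniteDimensional ℂ (End.eigenspace (A' ∘ₗ A) ((μ ^ 2 : ℝ) : ℂ))) ∧
      ∑ μ ∈ T, (finrank ℂ (End.eigenspace (A' ∘ₗ A) ((μ ^ 2 : ℝ) : ℂ)) : ℝ) ≤ n := by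
  classical
  have hsym : (A' ∘ₗ A).IsSymmetric := by
    intro v w
    simp only [LinearMap.comp_apply]
    rw [← hadj, ← inner_conj_symm, ← hadj, inner_conj_symm]
  let F : T → Submodule ℂ E := fun μ => End.eigenspace (A' ∘ₗ A) (((μ : ℝ) ^ 2 : ℝ) : ℂ)
  have horth : OrthogonalFamily ℂ (fun μ : T => F μ) fun μ => (F μ).subtypeₗᵢ := by
    refine hsym.orthogonalFamily_eigenspaces.comp
      (f := fun μ : T => (((μ : ℝ) ^ 2 : ℝ) : ℂ)) ?_
    intro μ ν hμν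
    exact Subtype.ext (hinj _ μ.2 _ ν.2 (Complex.ofReal_injective hμν))
  let φ : ((μ : T) → F μ) →ₗ[ℂ] E := ∑ μ : T, (F μ).subtype ∘ₗ LinearMap.proj μ
  have hφ : ∀ v, φ v = ∑ μ : T, (F μ).subtypeₗᵢ (v μ) := by
    intro v; simp [φ]
  have hn : ∀ v, ‖φ v‖ ^ 2 = ∑ μ : T, ‖v μ‖ ^ 2 := by
    intro v; rw [hφ]; exact horth.norm_sum v Finset.univ
  have hinjφ : Function.Injective φ := by
    rw [← LinearMap.ker_eq_bot, LinearMap.ker_eq_bot']
    intro v hv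
    have h0 := hn v
    rw [hv, norm_zero, zero_pow two_ne_zero] at h0
    have := (Finset.sum_eq_zero_iff_of_nonneg fun _ _ => by positivity).1 h0.symm
    funext μ
    simpa using this μ (Finset.mem_univ _)
  have hb : ∀ v, ‖A (φ v)‖ ≤ lam * ‖φ v‖ := by
    intro v
    have h1 : A' (A (φ v)) = ∑ μ : T, (F μ).subtypeₗᵢ ((((μ : ℝ) ^ 2 : ℝ) : ℂ) • v μ) := by
      rw [hφ, map_sum, map_sum]
      refine Finset.sum_congr rfl fun μ _ => ?_
      have := End.mem_eigenspace_iff.1 (v μ).2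
      simpa using this
    have h2 : ⟪A (φ v), A (φ v)⟫_ℂ = ∑ μ : T, ⟪v μ, (((μ : ℝ) ^ 2 : ℝ) : ℂ) • v μ⟫_ℂ := by
      rw [hadj, h1, hφ]
      exact horth.inner_sum _ _ Finset.univ
    have h3 : ‖A (φ v)‖ ^ 2 = ∑ μ : T, (μ : ℝ) ^ 2 * ‖v μ‖ ^ 2 := by
      have : ((‖A (φ v)‖ ^ 2 : ℝ) : ℂ) = ((∑ μ : T, (μ : ℝ) ^ 2 * ‖v μ‖ ^ 2 : ℝ) : ℂ) := by
        rw [inner_self_eq_norm_sq_to_K] at h2
        push_cast
        refine h2.trans (Finset.sum_congr rfl fun μ _ => ?_)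
        rw [inner_smul_right, inner_self_eq_norm_sq_to_K]
        push_cast; rfl
      exact_mod_cast this
    have h4 : ‖A (φ v)‖ ^ 2 ≤ (lam * ‖φ v‖) ^ 2 := by
      rw [h3, mul_pow, hn, Finset.mul_sum]
      exact Finset.sum_le_sum fun μ _ =>
        mul_le_mul_of_nonneg_right (hT _ μ.2) (by positivity)
    exact le_of_sq_le_sq h4 (by positivity) |>.trans le_rfl
  obtain ⟨hfin, hle⟩ := h.of_injective φ hinjφ hb
  have hfin' : ∀ μ : T, FiniteDimensional ℂ (F μ) := fun μ =>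
    Module.Finite.of_surjective (LinearMap.proj (R := ℂ) (φ := fun μ : T => F μ) μ)
      (LinearMap.proj_surjective μ)
  refine ⟨fun μ hμ => hfin' ⟨μ, hμ⟩, ?_⟩
  rw [Module.finrank_pi_fintype] at hle
  rw [← Finset.sum_coe_sort]
  exact_mod_cast hle

/-- Eigenpairs of the block operator `[[0, A'], [A, 0]]`. -/
def G (A A' : E →ₗ[ℂ] E) (μ : ℝ) : Submodule ℂ (E × E) where
  carrier := {p | A p.1 = (μ : ℂ) • p.2 ∧ A' p.2 = (μ : ℂ) • p.1}
  add_mem' := fun {p q} hp hq => by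
    simp only [Set.mem_ofPred_eq, Prod.fst_add, Prod.snd_add, map_add, hp.1, hp.2, hq.1, hq.2,
      smul_add, and_self]
  zero_mem' := by simp
  smul_mem' := fun c p hp => by
    simp only [Set.mem_ofPred_eq, Prod.smul_fst, Prod.smul_snd, map_smul, hp.1, hp.2,
      smul_comm c, and_self]

theorem sum_G_le {A A' : E →ₗ[ℂ] E} (hadj : ∀ w z, ⟪A w, z⟫_ℂ = ⟪w, A' z⟫_ℂ) {lam n n0 : ℝ}
    (hlam : 0 ≤ lam) (h : Bd A lam n)
    (h0 : FiniteDimensional ℂ (LinearMap.ker A') ∧ (finrank ℂ (LinearMap.ker A') : ℝ) ≤ n0)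
    (T : Finset ℝ) (hT : ∀ μ ∈ T, |μ| ≤ lam) :
    (∀ μ ∈ T, FiniteDimensional ℂ (G A A' μ)) ∧
      ∑ μ ∈ T, (finrank ℂ (G A A' μ) : ℝ) ≤ 2 * n + n0 := by
  classical
  set F : ℝ → Submodule ℂ E := fun μ => End.eigenspace (A' ∘ₗ A) ((μ ^ 2 : ℝ) : ℂ) with hF
  have hsq : ∀ μ ∈ T, μ ^ 2 ≤ lam ^ 2 := fun μ hμ => sq_le_sq' (abs_le.1 (hT μ hμ)).1
    (abs_le.1 (hT μ hμ)).2
  obtain ⟨f1, s1⟩ := sum_eigen_le hadj hlam h (T.filter (0 ≤ ·))
    (fun μ hμ => hsq μ (Finset.mem_filter.1 hμ).1)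
    (fun μ hμ ν hν e => (sq_eq_sq₀ (Finset.mem_filter.1 hμ).2 (Finset.mem_filter.1 hν).2).1 e)
  obtain ⟨f2, s2⟩ := sum_eigen_le hadj hlam h (T.filter (¬ 0 ≤ ·))
    (fun μ hμ => hsq μ (Finset.mem_filter.1 hμ).1)
    (fun μ hμ ν hν e => by
      have a1 := not_le.1 (Finset.mem_filter.1 hμ).2
      have a2 := not_le.1 (Finset.mem_filter.1 hν).2
      nlinarith [(sq_eq_sq₀ (neg_nonneg.2 a1.le) (neg_nonneg.2 a2.le)).1 (by simpa using e)])
  have fF : ∀ μ ∈ T, FiniteDimensional ℂ (F μ) := by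
    intro μ hμ
    by_cases hp : 0 ≤ μ
    · exact f1 μ (Finset.mem_filter.2 ⟨hμ, hp⟩)
    · exact f2 μ (Finset.mem_filter.2 ⟨hμ, hp⟩)
  have sF : ∑ μ ∈ T, (finrank ℂ (F μ) : ℝ) ≤ 2 * n := by
    rw [← Finset.sum_filter_add_sum_filter_not T (0 ≤ ·)]
    linarith
  have hmem : ∀ μ (p : G A A' μ), p.1.1 ∈ F μ := by
    intro μ p
    rw [hF, End.mem_eigenspace_iff]
    simp only [LinearMap.comp_apply]
    rw [p.2.1, map_smul, p.2.2, smul_smul]
    push_cast; rw [sq]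
  have key : ∀ μ ∈ T, FiniteDimensional ℂ (G A A' μ) ∧ (finrank ℂ (G A A' μ) : ℝ) ≤
      finrank ℂ (F μ) + if μ = 0 then n0 else 0 := by
    intro μ hμ
    have := fF μ hμ
    let ψ : G A A' μ →ₗ[ℂ] F μ :=
      LinearMap.codRestrict _ (LinearMap.fst ℂ E E ∘ₗ (G A A' μ).subtype) (hmem μ)
    by_cases hz : μ = 0
    · subst hz
      have := h0.1
      let χ : G A A' 0 →ₗ[ℂ] LinearMap.ker A' :=
        LinearMap.codRestrict _ (LinearMap.snd ℂ E E ∘ₗ (G A A' 0).subtype)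
          (fun p => by simpa using p.2.2)
      have hi : Function.Injective (ψ.prod χ) := by
        intro p q hpq
        have e1 := congrArg (fun x => (x.1 : E)) hpq
        have e2 := congrArg (fun x => (x.2 : E)) hpq
        exact Subtype.ext (Prod.ext e1 e2)
      refine ⟨Module.Finite.of_injective _ hi, ?_⟩
      have := LinearMap.finrank_le_finrank_of_injective hi
      rw [Module.finrank_prod] at this
      have h3 : (finrank ℂ (G A A' 0) : ℝ) ≤ finrank ℂ (F 0) + finrank ℂ (LinearMap.ker A') := by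
        exact_mod_cast this
      simp only [if_true]
      linarith [h0.2]
    · have hi : Function.Injective ψ := by
        rw [← LinearMap.ker_eq_bot, LinearMap.ker_eq_bot']
        intro p hp
        have e1 : p.1.1 = 0 := congrArg Subtype.val hp
        have e2 := p.2.1
        rw [e1, map_zero] at e2
        have e3 : p.1.2 = 0 := by
          rcases smul_eq_zero.1 e2.symm with h | h
          · exact absurd (by exact_mod_cast h) hz
          · exact h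
        exact Subtype.ext (Prod.ext e1 e3)
      refine ⟨Module.Finite.of_injective _ hi, ?_⟩
      simp only [hz, if_false, add_zero]
      exact_mod_cast LinearMap.finrank_le_finrank_of_injective hi
  refine ⟨fun μ hμ => (key μ hμ).1, ?_⟩
  have hn0 : 0 ≤ n0 := le_trans (Nat.cast_nonneg _) h0.2
  calc ∑ μ ∈ T, (finrank ℂ (G A A' μ) : ℝ)
      ≤ ∑ μ ∈ T, ((finrank ℂ (F μ) : ℝ) + if μ = 0 then n0 else 0) :=
        Finset.sum_le_sum fun μ hμ => (key μ hμ).2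
    _ ≤ 2 * n + n0 := by
        rw [Finset.sum_add_distrib, Finset.sum_ite_eq']
        split_ifs <;> linarith

end Pool.Agent.P.MP_e0a138_an
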