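import Mathlib

set_option autoImplicit false

open MeasureTheory Filter Topology
open scoped ENNReal ContDiff

namespace Pool.Agent.P.MP_e0a138_an

/-- Smooth complex differential forms on the torus, given by their four components along
`1, α = dx, β = dy - a(y) dx, α ∧ β`. -/
def IsForm (u : ℝ × ℝ → EuclideanSpace ℂ (Fin 4)) : Prop :=
  ContDiff ℝ ∞ u ∧ (∀ x y, u (x + 1, y) = u (x, y)) ∧ ∀ x y, u (x, y + 1) = u (x, y)

/-- The `L²` inner product of forms. -/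
noncomputable def ip (u v : ℝ × ℝ → EuclideanSpace ℂ (Fin 4)) : ℂ :=
  ∫ m in Set.Ioc (0 : ℝ) 1 ×ˢ Set.Ioc (0 : ℝ) 1, inner ℂ (u m) (v m)

/-- `d_F + h d_H`. -/
noncomputable def dh (a : ℝ → ℝ) (h : ℝ) (u : ℝ × ℝ → EuclideanSpace ℂ (Fin 4))
    (m : ℝ × ℝ) : EuclideanSpace ℂ (Fin 4) :=
  !₂[0, fderiv ℝ (fun n => u n 0) m (1, a m.2), h * fderiv ℝ (fun n => u n 0) m (0, 1),
    fderiv ℝ (fun n => u n 2) m (1, 0) + fderiv ℝ (fun n => a n.2 * u n 2) m (0, 1)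
      - h * fderiv ℝ (fun n => u n 1) m (0, 1)]

/-- The expression of `D_F + D_H` in terms of the value `u`, the leafwise derivative `p`,
the transverse derivative `q` and `b = a'`. -/
noncomputable def op (b : ℝ) (u p q : EuclideanSpace ℂ (Fin 4)) : EuclideanSpace ℂ (Fin 4) :=
  !₂[-p 1 - b * u 1 - q 2, p 0 + q 3, q 0 - p 3, p 2 + b * u 2 - q 1]

/-- `D_F + h D_H`. -/
noncomputable def Dh (a : ℝ → ℝ) (h : ℝ) (u : ℝ × ℝ → EuclideanSpace ℂ (Fin 4))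
    (m : ℝ × ℝ) : EuclideanSpace ℂ (Fin 4) :=
  op (deriv a m.2) (u m) (fderiv ℝ u m (1, a m.2)) (fderiv ℝ u m (0, h))

/-- `tr f(D_F + h D_H)`: sum of `f` over the eigenvalues, with multiplicity. -/
noncomputable def trM (a : ℝ → ℝ) (h : ℝ) (f : ℝ → ℝ) : ℝ≥0∞ :=
  ∑' μ : ℝ, ENNReal.ofReal (f μ) * (Cardinal.toENat (Module.rank ℂ (Submodule.span ℂ
    {u | IsForm u ∧ ∀ m, Dh a h u m = (μ : ℂ) • u m})) : ℕ∞)

/-- The transverse Jacobian along the leaf. -/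
noncomputable def jac (b : ℝ → ℝ) (t : ℝ) : ℝ := Real.exp (∫ s in (0 : ℝ)..t, b s)

/-- The measure `jac * dt`. -/
noncomputable def leafMeas (b : ℝ → ℝ) : Measure ℝ :=
  volume.withDensity fun t => ENNReal.ofReal (jac b t)

open Classical in
/-- The class of a function in `L²`. -/
noncomputable def toL (b : ℝ → ℝ) (g : ℝ → EuclideanSpace ℂ (Fin 4)) :
    Lp (EuclideanSpace ℂ (Fin 4)) 2 (leafMeas b) :=
  if h : MemLp g 2 (leafMeas b) then h.toLp g else 0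

/-- `R` is the resolvent `(D + i)⁻¹` of `D = D_{F_N} + σ(D_H)` on the holonomy cover of a leaf. -/
def IsRes (b : ℝ → ℝ) (τ : ℝ)
    (R : Lp (EuclideanSpace ℂ (Fin 4)) 2 (leafMeas b) →L[ℂ]
      Lp (EuclideanSpace ℂ (Fin 4)) 2 (leafMeas b)) : Prop :=
  ∀ ψ : ℝ → EuclideanSpace ℂ (Fin 4), ContDiff ℝ ∞ ψ → HasCompactSupport ψ →
    R (toL b fun t => op (b t) (ψ t) (deriv ψ t) ((Complex.I * (τ / jac b t : ℝ)) • ψ t)
      + Complex.I • ψ t) = toL b ψ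

/-- `f(D)` for even `f`, from the resolvent `R = (D + i)⁻¹` through `R* R = (1 + D²)⁻¹`. -/
noncomputable def fc {H : Type} [NormedAddCommGroup H] [InnerProductSpace ℂ H] [CompleteSpace H]
    (f : ℝ → ℝ) (R : H →L[ℂ] H) : H →L[ℂ] H :=
  cfc (fun r : ℝ => if 0 < r then f √(r⁻¹ - 1) else 0) (star R * R)

/-- Pointwise trace at the base point `t = 0` of the kernel of a positive operator `T`. -/
noncomputable def diag (b : ℝ → ℝ)
    (T : Lp (EuclideanSpace ℂ (Fin 4)) 2 (leafMeas b) →L[ℂ]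
      Lp (EuclideanSpace ℂ (Fin 4)) 2 (leafMeas b)) : ℝ≥0∞ :=
  liminf (fun ε : ℝ => ∑ i : Fin 4, ENNReal.ofReal (inner ℂ
    (toL b ((Set.Icc 0 ε).indicator fun _ => EuclideanSpace.single i (ε⁻¹ : ℝ)))
    (T (toL b ((Set.Icc 0 ε).indicator fun _ => EuclideanSpace.single i (ε⁻¹ : ℝ))))).re)
    (𝓝[>] 0)

end Pool.Agent.P.MP_e0a138_an
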