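import Mathlib

set_option autoImplicit false

open MeasureTheory Filter Topology Set
open scoped ContDiff

namespace Pool.Agent.P.MP_e0a138_an

variable {F : Type} [NormedAddCommGroup F] [NormedSpace ℝ F] [CompleteSpace F]

omit [CompleteSpace F] in
theorem integral_deriv_cs {φ : ℝ → F} (h1 : ContDiff ℝ ∞ φ) (h2 : HasCompactSupport φ) :
    ∫ t, deriv φ t = 0 :=
  integral_eq_zero_of_hasDerivAt_of_integrable
    (fun t => (h1.differentiable (by simp) t).hasDerivAt)
    ((h1.continuous_deriv (by simp)).integrable_of_hasCompactSupport h2.deriv)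
    (h1.continuous.integrable_of_hasCompactSupport h2)

theorem ae_const_of_weak {Z : ℝ → F} (hZ : LocallyIntegrable Z volume)
    (h : ∀ φ : ℝ → ℝ, ContDiff ℝ ∞ φ → HasCompactSupport φ → ∫ t, deriv φ t • Z t = 0) :
    ∃ c, ∀ᵐ t, Z t = c := by
  let β : ContDiffBump (0 : ℝ) := ⟨1, 2, one_pos, one_lt_two⟩
  let χ := β.normed volume
  have χ1 : ContDiff ℝ ∞ χ := β.contDiff_normed
  have χ2 : HasCompactSupport χ := β.hasCompactSupport_normed
  have χ3 : ∫ t, χ t = 1 := β.integral_normed
  refine ⟨∫ t, χ t • Z t, ae_eq_of_integral_contDiff_smul_eq hZ (locallyIntegrable_const _) ?_⟩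
  intro φ φ1 φ2
  let g : ℝ → ℝ := fun t => φ t - (∫ s, φ s) * χ t
  have g1 : ContDiff ℝ ∞ g := φ1.sub (contDiff_const.mul χ1)
  have g2 : HasCompactSupport g := φ2.sub χ2.mul_left
  have g3 : ∫ t, g t = 0 := by
    rw [integral_sub (φ1.continuous.integrable_of_hasCompactSupport φ2)
      ((χ1.continuous.integrable_of_hasCompactSupport χ2).const_mul _), integral_const_mul, χ3]
    ring
  obtain ⟨T, hT0, hT⟩ := g2.exists_pos_le_norm
  let Ψ : ℝ → ℝ := fun t => ∫ s in (-T)..t, g s
  have Ψ0 : ∀ t, HasDerivAt Ψ (g t) t := fun t => (g1.continuous.integral_hasStrictDerivAt _ _).hasDerivAt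
  have Ψ1 : deriv Ψ = g := funext fun t => (Ψ0 t).deriv
  have Ψ2 : ContDiff ℝ ∞ Ψ :=
    contDiff_infty_iff_deriv.2 ⟨fun t => (Ψ0 t).differentiableAt, Ψ1 ▸ g1⟩
  have Ψ3 : HasCompactSupport Ψ := by
    refine HasCompactSupport.intro (isCompact_Icc (a := -T) (b := T)) fun t ht => ?_
    rw [mem_Icc, not_and_or, not_le, not_le] at ht
    rcases ht with ht | ht
    · have : ∀ s ∈ uIcc (-T) t, g s = 0 := fun s hs => hT s (by
        rw [uIcc_of_ge ht.le] at hs
        rw [Real.norm_eq_abs, le_abs]; right; linarith [hs.2])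
      simp only [Ψ]
      rw [intervalIntegral.integral_congr (g := fun _ => 0) this]; simp
    · simp only [Ψ]
      rw [intervalIntegral.integral_eq_integral_of_support_subset, g3]
      intro s hs
      have : ‖s‖ < T := by
        by_contra hc
        exact hs (hT s (not_lt.1 hc))
      rw [Real.norm_eq_abs, abs_lt] at this
      exact ⟨this.1, by linarith [this.2]⟩
  have := h Ψ Ψ2 Ψ3
  rw [Ψ1] at this
  simp only [g, sub_smul, mul_smul] at this
  have i2 : Integrable fun t => (∫ s, φ s) • χ t • Z t :=
    (hZ.integrable_smul_left_of_hasCompactSupport χ1.continuous χ2).smul (∫ s, φ s)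
  rw [integral_sub (hZ.integrable_smul_left_of_hasCompactSupport φ1.continuous φ2) i2,
    integral_smul, sub_eq_zero] at this
  rw [this, integral_smul_const]

theorem integral_deriv_smul_primitive {G : ℝ → F} (hG : LocallyIntegrable G volume) {φ : ℝ → ℝ}
    (φ1 : ContDiff ℝ ∞ φ) (φ2 : HasCompactSupport φ) :
    ∫ t, deriv φ t • ∫ s in (0 : ℝ)..t, G s = -∫ t, φ t • G t := by
  have hii : ∀ a b, IntervalIntegrable G volume a b := fun a b =>
    (hG.integrableOn_isCompact isCompact_uIcc).intervalIntegrable
  have c1 : Continuous (deriv φ) := φ1.continuous_deriv (by simp)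
  have i1 : Integrable (deriv φ) := c1.integrable_of_hasCompactSupport φ2.deriv
  obtain ⟨T1, hT10, hT1⟩ := φ2.exists_pos_le_norm
  obtain ⟨T2, hT20, hT2⟩ := φ2.deriv.exists_pos_le_norm
  set T := T1 + T2
  let G' := (Ioc (-T) T).indicator G
  have iG : Integrable G' :=
    (integrable_indicator_iff measurableSet_Ioc).2 (hii (-T) T).1
  have hint : Integrable (Function.uncurry fun t s : ℝ =>
      ({p : ℝ × ℝ | p.2 ≤ p.1}).indicator (fun p => deriv φ p.1 • G' p.2) (t, s))
      (volume.prod volume) :=
    (i1.smul_prod iG).indicator (measurableSet_le measurable_snd measurable_fst)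
  have hsw := integral_integral_swap hint
  have e1 : ∀ t, ∫ s, ({p : ℝ × ℝ | p.2 ≤ p.1}).indicator (fun p => deriv φ p.1 • G' p.2) (t, s) =
      deriv φ t • (∫ s in (0 : ℝ)..t, G s) - deriv φ t • ∫ s in (0 : ℝ)..(-T), G s := by
    intro t
    by_cases ht : T ≤ ‖t‖
    · have : deriv φ t = 0 := hT2 t (by linarith)
      simp [indicator, this]
    · rw [Real.norm_eq_abs, not_le, abs_lt] at ht
      rw [← smul_sub, intervalIntegral.integral_interval_sub_left (hii _ _) (hii _ _),
        intervalIntegral.integral_of_le ht.1.le, ← integral_indicator measurableSet_Ioc,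
        ← integral_smul]
      congr 1; funext s
      simp only [indicator, mem_ofPred_eq, G', mem_Ioc]
      by_cases h1 : s ≤ t
      · have : s ≤ T := by linarith [ht.2]
        simp [h1, this]
      · simp [h1]
  have e2 : ∀ s, ∫ t, ({p : ℝ × ℝ | p.2 ≤ p.1}).indicator (fun p => deriv φ p.1 • G' p.2) (t, s) =
      -(φ s • G s) := by
    intro s
    have : (fun t => ({p : ℝ × ℝ | p.2 ≤ p.1}).indicator (fun p => deriv φ p.1 • G' p.2) (t, s)) =
        (Ici s).indicator fun t => deriv φ t • G' s := by
      funext t; simp only [indicator, mem_ofPred_eq, mem_Ici]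
    rw [this, integral_indicator measurableSet_Ici, integral_smul_const,
      integral_Ici_eq_integral_Ioi, φ2.integral_Ioi_deriv_eq (φ1.of_le (by simp)), neg_smul]
    by_cases hs : s ∈ Ioc (-T) T
    · simp only [G', indicator_of_mem hs]
    · have : φ s = 0 := by
        apply hT1
        rw [mem_Ioc, not_and_or, not_lt, not_le] at hs
        rw [Real.norm_eq_abs, le_abs]
        rcases hs with hs | hs
        · right; linarith
        · left; linarith
      simp [this]
  simp only [e1, e2] at hsw
  have c2 : Continuous fun t => ∫ s in (0 : ℝ)..t, G s :=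
    intervalIntegral.continuous_primitive hii 0
  rw [integral_sub (c2.locallyIntegrable.integrable_smul_left_of_hasCompactSupport c1 φ2.deriv)
    (i1.smul_const _), integral_smul_const, integral_deriv_cs φ1 φ2, zero_smul, sub_zero,
    integral_neg] at hsw
  exact hsw

theorem ae_eq_primitive {Z G : ℝ → F} (hZ : LocallyIntegrable Z volume)
    (hG : LocallyIntegrable G volume)
    (h : ∀ φ : ℝ → ℝ, ContDiff ℝ ∞ φ → HasCompactSupport φ →
      ∫ t, deriv φ t • Z t = -∫ t, φ t • G t) :
    ∃ c, ∀ᵐ t, Z t = c + ∫ s in (0 : ℝ)..t, G s := by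
  have hii : ∀ a b, IntervalIntegrable G volume a b := fun a b =>
    (hG.integrableOn_isCompact isCompact_uIcc).intervalIntegrable
  have c2 : Continuous fun t => ∫ s in (0 : ℝ)..t, G s :=
    intervalIntegral.continuous_primitive hii 0
  obtain ⟨c, hc⟩ := ae_const_of_weak (Z := fun t => Z t - ∫ s in (0 : ℝ)..t, G s)
    (hZ.sub c2.locallyIntegrable) fun φ φ1 φ2 => by
      have c1 : Continuous (deriv φ) := φ1.continuous_deriv (by simp)
      simp only [smul_sub]
      rw [integral_sub (hZ.integrable_smul_left_of_hasCompactSupport c1 φ2.deriv)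
        (c2.locallyIntegrable.integrable_smul_left_of_hasCompactSupport c1 φ2.deriv),
        h φ φ1 φ2, integral_deriv_smul_primitive hG φ1 φ2, sub_self]
  refine ⟨c, hc.mono fun t ht => ?_⟩
  rw [← ht]; simp

theorem eq_zero_of_monotone {m : ℝ → ℝ} (hm : Monotone m) (hi : Integrable m) (t : ℝ) :
    m t = 0 := by
  by_contra hne
  rcases lt_or_gt_of_ne hne with h | h
  · have : IntegrableOn (fun _ : ℝ => m t) (Iic t) := by
      refine Integrable.mono hi.integrableOn aestronglyMeasurable_const ?_
      rw [ae_restrict_iff' measurableSet_Iic]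
      refine Eventually.of_forall fun s hs => ?_
      have := hm (show s ≤ t from hs)
      rw [Real.norm_eq_abs, Real.norm_eq_abs, abs_of_neg h, abs_of_neg (by linarith)]
      linarith
    simp [integrableOn_const_iff, hne] at this
  · have : IntegrableOn (fun _ : ℝ => m t) (Ici t) := by
      refine Integrable.mono hi.integrableOn aestronglyMeasurable_const ?_
      rw [ae_restrict_iff' measurableSet_Ici]
      refine Eventually.of_forall fun s hs => ?_
      have := hm (show t ≤ s from hs)
      rw [Real.norm_eq_abs, Real.norm_eq_abs, abs_of_pos h, abs_of_pos (by linarith)]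
      linarith
    simp [integrableOn_const_iff, hne] at this

end Pool.Agent.P.MP_e0a138_an
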