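import Pool.Agent.P.MP_e0a138_an.GE7a

set_option autoImplicit false
set_option linter.unusedSectionVars false
set_option linter.unusedVariables false

open MeasureTheory Filter Topology Metric Complex
open scoped ENNReal NNReal ContDiff InnerProductSpace ComplexConjugate

noncomputable section
namespace Pool.Agent.P.MP_e0a138_an.AD

variable {N p q k : ℕ} {W : Type} [NormedAddCommGroup W] [InnerProductSpace ℂ W]
  [FiniteDimensional ℂ W] [CompleteSpace W]

variable {A : Atl N p q k} {ε : Eu N →L[ℝ] W →L[ℂ] W}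

/-- degree zero -/
def Vac (ε : Eu N →L[ℝ] W →L[ℂ] W) (w : W) : Prop := ∀ v, star (ε v) w = 0

theorem Vac.num {w : W} (h : Vac ε w) (S : Submodule ℝ (Eu N)) : num ε S w = 0 := by
  simp only [AD.num, ContinuousLinearMap.sum_apply, ContinuousLinearMap.mul_apply, h _, map_zero,
    Finset.sum_const_zero]

theorem Vac.deg {w : W} (h : Vac ε w) (S : Submodule ℝ (Eu N)) : deg ε S 0 w = w := by
  have := deg_eigen (ε := ε) S (i := 0) 0 (x := w) (by rw [h.num]; simp)
  simpa using this

theorem Vac.fderiv {f : Eu N → W} (hf : ContDiff ℝ ∞ f) (h : ∀ n, Vac ε (f n)) (m b : Eu N) :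
    Vac ε (fderiv ℝ f m b) := fun v => by
  have h1 := fderiv_capp (M := fun _ : Eu N => star (ε v)) (x := m) (differentiableAt_const _)
    (hf.differentiable (by simp) m) b
  simp only [h _ v] at h1
  simpa using h1.symm

theorem star_proj_zero {S : Submodule ℝ (Eu N)} {w : W} (h : num ε S w = 0) (v : Eu N) :
    star (ε (S.starProjection v)) w = 0 := by
  have h1 := AL1_inner_num (ε := ε) S w
  rw [h, inner_zero_right, zero_re] at h1
  have h2 : ∀ a, star (ε (S.starProjection (bs a))) w = 0 := fun a => by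
    have := (Finset.sum_eq_zero_iff_of_nonneg fun a _ => sq_nonneg _).1 h1.symm a
      (Finset.mem_univ a)
    exact norm_eq_zero.1 (pow_eq_zero_iff two_ne_zero |>.1 this)
  rw [← sum_bs v]
  simp only [map_sum, map_smul, star_sum, ContinuousLinearMap.sum_apply]
  refine Finset.sum_eq_zero fun a _ => ?_
  rw [star_smul, ContinuousLinearMap.smul_apply, h2, smul_zero]

namespace Atl

theorem dx_nil (m : Eu N) : A.dx ε [] m = 1 := rfl

theorem dx_cons (a : Fin N) (l : List (Fin N)) (m : Eu N) :
    A.dx ε (a :: l) m = ε (A.shp m (bs a)) * A.dx ε l m := by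
  simp [dx]

theorem dx_concat (a : Fin N) (l : List (Fin N)) (m : Eu N) :
    A.dx ε (l ++ [a]) m = A.dx ε l m * ε (A.shp m (bs a)) := by
  simp [dx]

theorem dx_smooth (l : List (Fin N)) : ContDiffOn ℝ ∞ (A.dx ε l) A.M := by
  induction l with
  | nil => exact contDiffOn_const
  | cons a l ih =>
    exact ((ε.contDiff.comp_contDiffOn (smooth_shp (contDiffOn_const (c := bs a)))).mul ih).congr
      fun m _ => dx_cons a l m

theorem dx_comm (hε : IsCAR ε) (l : List (Fin N)) (m : Eu N) :
    A.Pi ε m * A.dx ε l m = A.dx ε l m * A.Pi ε m := by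
  induction l with
  | nil => simp [dx_nil]
  | cons a l ih =>
    rw [dx_cons, ← mul_assoc, (Pi_comm hε (shp_mem m _)).1, mul_assoc, ih, mul_assoc]

theorem Form.dx (hε : IsCAR ε) (l : List (Fin N)) {v : Eu N → W} (hv : A.Form ε v) :
    A.Form ε fun m => A.dx ε l m (v m) :=
  hv.clm (dx_smooth l) fun m _ => dx_comm hε l m

theorem Form.congr {u u' : Eu N → W} (hu : A.Form ε u) (h : ∀ m ∈ A.M, u' m = u m) :
    A.Form ε u' :=
  ⟨hu.1.congr h, fun m hm => by rw [h m hm]; exact hu.2 m hm⟩

theorem vac_of {m : Eu N} {w : W} (h1 : A.Pi ε m w = w) (h2 : num ε (A.T m) w = 0) : Vac ε w := by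
  intro v
  have h3 : num ε (A.T m)ᗮ w = 0 := by
    have := num_deg (ε := ε) (A.T m)ᗮ 0 w
    rw [show deg ε (A.T m)ᗮ 0 w = w from h1] at this
    simpa using this
  rw [← (A.T m).starProjection_add_starProjection_orthogonal v, map_add, star_add,
    ContinuousLinearMap.add_apply, star_proj_zero h2, star_proj_zero h3, add_zero]

theorem exists_ext {v : Eu N → W} (hv : ContDiffOn ℝ ∞ v A.M) (h : ∀ m ∈ A.M, Vac ε (v m)) :
    ∃ f : Eu N → W, ContDiff ℝ ∞ f ∧ (∀ n, Vac ε (f n)) ∧ ∀ m ∈ A.M, v m = f m := by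
  obtain ⟨r, -, hr, hχ⟩ := A.exists_r
  let a : Fin k → Eu p × Eu q → W := fun i =>
    (ball 0 1).indicator fun z => A.χ i (A.ψ i z) • v (A.ψ i z)
  have ha : ∀ i, ContDiff ℝ ∞ (a i) := fun i => by
    refine contDiff_of_cpt isOpen_ball isClosed_closedBall (closedBall_subset_ball hr)
      ((((A.χ_smooth i).comp (A.ψ_smooth i)).contDiffOn.smul (contDiffOn_iff.1 hv i)).congr
        fun z hz => Set.indicator_of_mem hz _) fun z hz => ?_
    by_cases h1 : z ∈ ball (0 : Eu p × Eu q) 1
    · simp only [a, Set.indicator_of_mem h1, (chart_zero hr (hχ i)).1 z h1 hz, zero_smul]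
    · exact Set.indicator_of_notMem h1 _
  refine ⟨fun n => ∑ i, A.χ i n • a i (A.φ i n),
    ContDiff.sum fun i _ => (A.χ_smooth i).smul ((ha i).comp (A.φ_smooth i)),
    fun n x => ?_, fun m hm => ?_⟩
  · rw [map_sum]
    refine Finset.sum_eq_zero fun i _ => ?_
    by_cases h1 : A.φ i n ∈ ball (0 : Eu p × Eu q) 1
    · simp only [a, Set.indicator_of_mem h1, ← Complex.coe_smul, map_smul,
        h _ (ψ_mem i h1).1 x, smul_zero]
    · simp only [a, Set.indicator_of_notMem h1, smul_zero, map_zero]
  · have e : ∀ i, A.χ i m • a i (A.φ i m) = A.χ i m ^ 2 • v m := fun i => by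
      by_cases h1 : A.χ i m = 0
      · simp [h1]
      · obtain ⟨h2, h3⟩ := φ_mem hm (mem_U_of_χ hm h1)
        simp only [a, Set.indicator_of_mem h2, h3, smul_smul, sq]
    simp only [e, ← Finset.sum_smul, A.χ_sum m hm, one_smul]

theorem num_eq (m : Eu N) : num ε (A.T m) = ∑ a, ε (A.shp m (bs a)) *
    star (ε ((A.T m).starProjection (A.JL m (bs a)))) := by
  choose t ht using fun c => J_surj (A := A) m ((A.T m).starProjection (bs c))
  have hm : ∀ c, A.JL m (t c) ∈ A.T m := fun c => ht c ▸ Submodule.starProjection_apply_mem _ _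
  have h1 : ∀ a, A.shp m (bs a) = ∑ c, ⟪bs a, t c⟫_ℝ • (A.T m).starProjection (bs c) := fun a => by
    have e : ∀ c, ⟪bs a, t c⟫_ℝ = ⟪bs c, A.shp m (bs a)⟫_ℝ := fun c => by
      rw [← inner_shp _ (hm c), ht, ← Submodule.inner_starProjection_left_eq_right,
        Submodule.starProjection_eq_self_iff.2 (shp_mem _ _), real_inner_comm]
    simp only [e, ← map_smul, ← map_sum, sum_bs]
    exact (Submodule.starProjection_eq_self_iff.2 (shp_mem _ _)).symm
  have h2 : ∀ c, (A.T m).starProjection (bs c) =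
      ∑ a, ⟪bs a, t c⟫_ℝ • (A.T m).starProjection (A.JL m (bs a)) := fun c => by
    simp only [← map_smul, ← map_sum, sum_bs]
    rw [Submodule.starProjection_eq_self_iff.2 (hm c), ht]
  simp only [h1, map_sum, map_smul, Finset.sum_mul]
  rw [Finset.sum_comm, num]
  refine Finset.sum_congr rfl fun c _ => ?_
  rw [congrArg (fun x => star (ε x)) (h2 c), map_sum, star_sum, Finset.mul_sum]
  refine Finset.sum_congr rfl fun a _ => ?_
  rw [map_smul, star_smul, star_trivial, mul_smul_comm, smul_mul_assoc]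

/-- every form is a finite sum of terms `f dx_I` -/
theorem form_ind (hε : IsCAR ε) {P : (Eu N → W) → Prop}
    (h0 : ∀ (l : List (Fin N)) (f u : Eu N → W), ContDiff ℝ ∞ f → (∀ n, Vac ε (f n)) →
      (∀ n ∈ A.M, u n = A.dx ε l n (f n)) → P u)
    (ha : ∀ u v, A.Form ε u → A.Form ε v → P u → P v → P (u + v)) {u : Eu N → W}
    (hu : A.Form ε u) : P u := by
  have z : ∀ u : Eu N → W, (∀ n ∈ A.M, u n = 0) → P u := fun u h =>
    h0 [] 0 u contDiff_const (fun n v => map_zero _) fun n hn => by simp [h n hn]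
  have cg : ∀ u u' : Eu N → W, A.Form ε u → (∀ n ∈ A.M, u' n = u n) → P u → P u' :=
    fun u u' hu h hP => by
    have h1 : ∀ n ∈ A.M, (u' - u) n = 0 := fun n hn => by simp [h n hn]
    have := ha u (u' - u) hu (Form.zero.congr h1) hP (z _ h1)
    rwa [add_sub_cancel] at this
  have sm : ∀ {J : Type} (s : Finset J) (t : J → Eu N → W), (∀ j, A.Form ε (t j)) →
      (∀ j, P (t j)) → P fun m => ∑ j ∈ s, t j m := fun {J} s t h1 h2 => by
    classical
    induction s using Finset.induction_on with
    | empty => exact z _ fun n _ => by simp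
    | insert j s hj ih =>
      have := ha _ _ (h1 j) (Form.sum s fun j _ => h1 j) (h2 j) ih
      refine cg _ _ ((h1 j).add (Form.sum s fun j _ => h1 j)) (fun n _ => ?_) this
      simp [Finset.sum_insert hj]
  have key : ∀ (r : ℕ) (l : List (Fin N)) (v : Eu N → W), A.Form ε v →
      (∀ m ∈ A.M, num ε (A.T m) (v m) = (r : ℂ) • v m) → P fun m => A.dx ε l m (v m) := by
    intro r
    induction r with
    | zero =>
      intro l v hv h
      obtain ⟨f, h1, h2, h3⟩ := exists_ext (ε := ε) hv.1 fun m hm =>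
        vac_of (hv.2 m hm) (by simpa using h m hm)
      exact h0 l f _ h1 h2 fun n hn => by rw [h3 n hn]
    | succ r ih =>
      intro l v hv h
      have hr : ((r + 1 : ℕ) : ℂ) ≠ 0 := Nat.cast_ne_zero.2 r.succ_ne_zero
      let w : Fin N → Eu N → W := fun a => ((r + 1 : ℕ) : ℂ)⁻¹ •
        fun m => star (ε ((A.T m).starProjection (A.JL m (bs a)))) (v m)
      have hw : ∀ a, A.Form ε (w a) := fun a => by
        refine Form.const_smul _ (hv.clm (contDiffOn_star (ε.contDiff.comp_contDiffOn
          (A.subB_T.1.clm_apply (A.JL_smooth.contDiffOn.clm_apply contDiffOn_const))))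
          fun m _ => ?_)
        exact (deg_comm_eps hε 0 ((A.T m).le_orthogonal_orthogonal
          (Submodule.starProjection_apply_mem _ _))).2.1
      have hd : ∀ a, ∀ m ∈ A.M, num ε (A.T m) (w a m) = (r : ℂ) • w a m := fun a m hm => by
        have h1 := DFunLike.congr_fun
          (num_comm_star hε (A.T m) ((A.T m).starProjection (A.JL m (bs a)))) (v m)
        rw [Submodule.starProjection_eq_self_iff.2 (Submodule.starProjection_apply_mem _ _),
          ContinuousLinearMap.sub_apply, ContinuousLinearMap.mul_apply,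
          ContinuousLinearMap.mul_apply, h m hm, map_smul, sub_eq_iff_eq_add'] at h1
        have h2 : num ε (A.T m) (star (ε ((A.T m).starProjection (A.JL m (bs a)))) (v m)) =
            (r : ℂ) • star (ε ((A.T m).starProjection (A.JL m (bs a)))) (v m) := by
          rw [← sub_eq_iff_eq_add] at h1
          rw [← h1, Nat.cast_succ, add_smul, one_smul, add_sub_cancel_right]
        simp only [w, Pi.smul_apply, map_smul, h2]
        exact smul_comm _ _ _
      refine cg _ _ (Form.sum Finset.univ fun a _ => (hw a).dx hε (l ++ [a])) (fun m hm => ?_)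
        (sm Finset.univ _ (fun a => (hw a).dx hε (l ++ [a])) fun a => ih _ _ (hw a) (hd a))
      have h1 := h m hm
      rw [num_eq, ContinuousLinearMap.sum_apply] at h1
      simp only [dx_concat, ContinuousLinearMap.mul_apply, w, Pi.smul_apply, map_smul,
        ← Finset.smul_sum, ← map_sum] at h1 ⊢
      rw [h1, map_smul, smul_smul, inv_mul_cancel₀ hr, one_smul]
  have hj : ∀ j, A.Form ε fun m => deg ε (A.T m) j (u m) := fun j =>
    hu.clm (contDiffOn_deg hε A.subB_T.1 j) fun m _ =>
      deg_comm_deg hε (A.T m).le_orthogonal_orthogonal 0 j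
  refine cg _ _ (Form.sum (Finset.range (N + 1)) fun j _ => hj j) (fun m _ => ?_)
    (sm _ _ hj fun j => key j [] _ (hj j) fun m _ => num_deg _ _ _)
  rw [← ContinuousLinearMap.sum_apply, sum_deg hε]
  rfl

end Atl

end Pool.Agent.P.MP_e0a138_an.AD
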