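import Pool.Agent.P.MP_e0a138_an.GD1

set_option autoImplicit false
set_option linter.unusedSectionVars false
set_option linter.unusedVariables false

open MeasureTheory Filter Topology Metric Complex
open scoped ENNReal NNReal ContDiff InnerProductSpace ComplexConjugate

noncomputable section
namespace Pool.Agent.P.MP_e0a138_an.AD

variable {N p q k : ℕ} {W : Type} [NormedAddCommGroup W] [InnerProductSpace ℂ W]
  [FiniteDimensional ℂ W] [CompleteSpace W]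

variable {A : Atl N p q k} {ε : Eu N →L[ℝ] W →L[ℂ] W}

theorem eps_anti (hε : IsCAR ε) (v w : Eu N) : ε v * ε w = -(ε w * ε v) :=
  eq_neg_of_add_eq_zero_left (hε.2 v w).1

theorem sum_symm_zero (hε : IsCAR ε) {κ : Type} [Fintype κ] (g : κ → Eu N) {s : κ → κ → ℝ}
    (hs : ∀ a b, s a b = s b a) : ∑ a, ε (g a) * ε (∑ b, s a b • g b) = 0 := by
  have h1 : ∑ a, ε (g a) * ε (∑ b, s a b • g b) = ∑ a, ∑ b, s a b • (ε (g a) * ε (g b)) := by
    simp only [map_sum, map_smul, Finset.mul_sum, mul_smul_comm]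
  have h2 : ∑ a, ∑ b, s a b • (ε (g a) * ε (g b)) = -∑ a, ∑ b, s a b • (ε (g a) * ε (g b)) := by
    conv_lhs => rw [Finset.sum_comm]
    simp only [← Finset.sum_neg_distrib]
    refine Finset.sum_congr rfl fun a _ => Finset.sum_congr rfl fun b _ => ?_
    rw [hs b a, eps_anti hε (g b), smul_neg]
  rw [h1]
  have h3 : (2 : ℝ) • ∑ a, ∑ b, s a b • (ε (g a) * ε (g b)) = 0 := by
    rw [two_smul]
    exact add_eq_zero_iff_eq_neg.2 h2
  exact (smul_eq_zero.1 h3).resolve_left two_ne_zero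

namespace Atl

/-- the coordinate covectors in a chart -/
def gz (A : Atl N p q k) (i : Fin k) (a : Fin p ⊕ Fin q) (z : Eu p × Eu q) : Eu N :=
  A.gr i a (A.ψ i z)

/-- the flat connection of a chart -/
def Kz (A : Atl N p q k) (ε : Eu N →L[ℝ] W →L[ℂ] W) (i : Fin k) (a : Fin p ⊕ Fin q)
    (z : Eu p × Eu q) : W →L[ℂ] W :=
  ∑ b, ε (fderiv ℝ (A.gz i b) z (cb a)) * star (ε (A.jd i z (cb b)))

/-- the zero order part of `d` in a chart -/
def Zd (A : Atl N p q k) (ε : Eu N →L[ℝ] W →L[ℂ] W) (i : Fin k) (z : Eu p × Eu q) : W →L[ℂ] W :=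
  -∑ a, ε (A.gz i a z) * A.Kz ε i a z

/-- `d` in a chart -/
def dl (A : Atl N p q k) (ε : Eu N →L[ℝ] W →L[ℂ] W) (i : Fin k) (v : Eu p × Eu q → W) :
    Eu p × Eu q → W :=
  op cb (fun a z => ε (A.gz i a z)) (A.Zd ε i) v

theorem gz_smooth (i : Fin k) (a : Fin p ⊕ Fin q) : ContDiffOn ℝ ∞ (A.gz i a) (ball 0 1) :=
  contDiffOn_iff.1 (smooth_gr i a) i

theorem Zd_smooth (i : Fin k) : ContDiffOn ℝ ∞ (A.Zd ε i) (ball 0 1) := by
  refine (ContDiffOn.sum fun a _ => (ε.contDiff.comp_contDiffOn (gz_smooth i a)).mul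
    (ContDiffOn.sum fun b _ => (ε.contDiff.comp_contDiffOn
      (contDiffOn_fderiv_apply' isOpen_ball (gz_smooth i b) _)).mul
      (contDiffOn_star (ε.contDiff.comp_contDiffOn
        ((jd_smooth i).clm_apply contDiff_const).contDiffOn)))).neg

theorem dl_eq (i : Fin k) (v : Eu p × Eu q → W) (z : Eu p × Eu q) : A.dl ε i v z =
    ∑ a, ε (A.gz i a z) (fderiv ℝ v z (cb a) - A.Kz ε i a z (v z)) := by
  simp only [dl, op, Zd, map_sub, Finset.sum_sub_distrib, ContinuousLinearMap.neg_apply,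
    ContinuousLinearMap.sum_apply, ContinuousLinearMap.mul_apply]
  rw [sub_eq_add_neg]

theorem shp_chart (i : Fin k) {z : Eu p × Eu q} (hz : z ∈ ball (0 : Eu p × Eu q) 1) (ξ : Eu N) :
    A.shp (A.ψ i z) ξ = ∑ b, ⟪ξ, fderiv ℝ (A.ψ i) z (cb b)⟫_ℝ • A.gz i b z := by
  refine eq_of_inner_dψ i hz (shp_mem _ _)
    (Submodule.sum_mem _ fun b _ => Submodule.smul_mem _ _ (gr_mem i b _)) fun w => ?_
  simp only [sum_inner, real_inner_smul_left, gz, inner_gr i _ hz]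
  rw [jd_apply, inner_shp _ (dψ_mem' i hz w)]
  conv_lhs => rw [← sum_cb w]
  simp only [map_sum, map_smul, inner_sum, real_inner_smul_right, mul_comm]

theorem dl_eps (hε : IsCAR ε) (i : Fin k) {z : Eu p × Eu q} (hz : z ∈ ball (0 : Eu p × Eu q) 1)
    (ξ : Eu N) {v : Eu p × Eu q → W} (hv : DifferentiableAt ℝ v z) :
    A.dl ε i (fun y => ε (A.shp (A.ψ i y) ξ) (v y)) z = -ε (A.shp (A.ψ i z) ξ) (A.dl ε i v z) := by
  have hψ : ContDiff ℝ ∞ (fderiv ℝ (A.ψ i)) := (A.ψ_smooth i).fderiv_right (m := ∞) (by simp)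
  have hd : HasFDerivAt (fderiv ℝ (A.ψ i)) (fderiv ℝ (fderiv ℝ (A.ψ i)) z) z :=
    (hψ.differentiable (by simp) z).hasFDerivAt
  have hs : ∀ b, HasFDerivAt (fun y => ⟪ξ, fderiv ℝ (A.ψ i) y (cb b)⟫_ℝ)
      ((innerSL ℝ ξ ∘L ContinuousLinearMap.apply ℝ (Eu N) (cb b)) ∘L
        fderiv ℝ (fderiv ℝ (A.ψ i)) z) z := fun b =>
    (innerSL ℝ ξ ∘L ContinuousLinearMap.apply ℝ (Eu N) (cb b)).hasFDerivAt.comp z hd
  have hg : ∀ b, DifferentiableAt ℝ (A.gz i b) z := fun b =>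
    diffAt_of_contDiffOn isOpen_ball (gz_smooth i b) hz
  have he : (fun y => A.shp (A.ψ i y) ξ) =ᶠ[𝓝 z]
      fun y => ∑ b, ⟪ξ, fderiv ℝ (A.ψ i) y (cb b)⟫_ℝ • A.gz i b y := by
    filter_upwards [isOpen_ball.mem_nhds hz] with y hy using shp_chart i hy ξ
  have hσ := (HasFDerivAt.fun_sum (u := Finset.univ)
    fun b _ => (hs b).smul (hg b).hasFDerivAt).congr_of_eventuallyEq he
  have hM := ε.hasFDerivAt.comp z hσ
  have h1 : ∀ a, fderiv ℝ (fun y => ε (A.shp (A.ψ i y) ξ)) z (cb a) =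
      ε (∑ b, ⟪ξ, fderiv ℝ (A.ψ i) z (cb b)⟫_ℝ • fderiv ℝ (A.gz i b) z (cb a)) +
      ε (∑ b, ⟪ξ, fderiv ℝ (fderiv ℝ (A.ψ i)) z (cb a) (cb b)⟫_ℝ • A.gz i b z) := fun a => by
    have h2 : fderiv ℝ (fun y => ε (A.shp (A.ψ i y) ξ)) z = _ := hM.fderiv
    rw [h2, ← map_add, ← Finset.sum_add_distrib]
    simp
  have h2 : ∀ a, A.Kz ε i a z * ε (A.shp (A.ψ i z) ξ) =
      ε (∑ b, ⟪ξ, fderiv ℝ (A.ψ i) z (cb b)⟫_ℝ • fderiv ℝ (A.gz i b) z (cb a)) +
      ε (A.shp (A.ψ i z) ξ) * A.Kz ε i a z := fun a => by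
    simp only [Kz, Finset.sum_mul, Finset.mul_sum, map_sum, ← Finset.sum_add_distrib]
    refine Finset.sum_congr rfl fun b _ => ?_
    have h3 := eq_sub_of_add_eq (hε.2 (A.jd i z (cb b)) (A.shp (A.ψ i z) ξ)).2
    rw [real_inner_comm, jd_apply, inner_shp _ (dψ_mem' i hz _), ← jd_apply] at h3
    rw [mul_assoc, h3, mul_sub, ← mul_assoc, ← mul_assoc, eps_anti hε _ (A.shp (A.ψ i z) ξ),
      eps_smul, mul_smul_comm, mul_one, neg_mul, sub_neg_eq_add]
  have h3 := DFunLike.congr_fun (sum_symm_zero hε (fun a => A.gz i a z)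
    (s := fun a b => ⟪ξ, fderiv ℝ (fderiv ℝ (A.ψ i)) z (cb a) (cb b)⟫_ℝ) fun a b => by
      rw [((A.ψ_smooth i).contDiffAt.isSymmSndFDerivAt (by simp; decide)).eq]) (v z)
  rw [dl_eq, dl_eq, map_sum, ← Finset.sum_neg_distrib]
  rw [ContinuousLinearMap.sum_apply, ContinuousLinearMap.zero_apply] at h3
  rw [← zero_add (Finset.sum Finset.univ fun a => -_), ← h3, ← Finset.sum_add_distrib]
  refine Finset.sum_congr rfl fun a _ => ?_
  have h4 := DFunLike.congr_fun (h2 a) (v z)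
  have h5 := fun x => DFunLike.congr_fun (eps_anti hε (A.gz i a z) (A.shp (A.ψ i z) ξ)) x
  simp only [ContinuousLinearMap.mul_apply, ContinuousLinearMap.add_apply,
    ContinuousLinearMap.neg_apply] at h4 h5 ⊢
  rw [fderiv_capp (M := fun y => ε (A.shp (A.ψ i y) ξ)) hM.differentiableAt hv, h1, h4, ← h5, ContinuousLinearMap.add_apply]
  simp only [map_add (ε (A.gz i a z)), map_sub (ε (A.gz i a z)), map_sub (ε (A.shp (A.ψ i z) ξ))]
  abel

theorem dl_vac (i : Fin k) {z : Eu p × Eu q} (hz : z ∈ ball (0 : Eu p × Eu q) 1) {f : Eu N → W}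
    (hf : ContDiff ℝ ∞ f) (h : ∀ n, Vac ε (f n)) : A.dl ε i (fun y => f (A.ψ i y)) z =
      ∑ a, ε (A.shp (A.ψ i z) (bs a)) (fderiv ℝ f (A.ψ i z) (bs a)) := by
  have h1 : fderiv ℝ (fun y => f (A.ψ i y)) z = _ :=
    fderiv_comp z (hf.differentiable (by simp) _) (GE1_dψ i z)
  have h2 : ∀ a, A.Kz ε i a z (f (A.ψ i z)) = 0 := fun a => by
    simp only [Kz, ContinuousLinearMap.sum_apply, ContinuousLinearMap.mul_apply, h _ _, map_zero,
      Finset.sum_const_zero]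
  simp only [dl_eq, h2, sub_zero, h1, shp_chart i hz, map_sum, ContinuousLinearMap.sum_apply]
  rw [Finset.sum_comm]
  refine Finset.sum_congr rfl fun b _ => ?_
  rw [ContinuousLinearMap.comp_apply, ← sum_bs (fderiv ℝ (A.ψ i) z (cb b)), map_sum, map_sum, sum_bs]
  refine Finset.sum_congr rfl fun a _ => ?_
  rw [eps_smul, map_smul, ← Complex.coe_smul, map_smul]
  rfl

theorem dl_dx (hε : IsCAR ε) (i : Fin k) {z : Eu p × Eu q} (hz : z ∈ ball (0 : Eu p × Eu q) 1)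
    {f : Eu N → W} (hf : ContDiff ℝ ∞ f) (h : ∀ n, Vac ε (f n)) (l : List (Fin N)) :
    A.dl ε i (fun y => A.dx ε l (A.ψ i y) (f (A.ψ i y))) z =
      ∑ a, A.dx ε (a :: l) (A.ψ i z) (fderiv ℝ f (A.ψ i z) (bs a)) := by
  induction l with
  | nil => simpa [dx_cons, dx_nil] using dl_vac i hz hf h
  | cons b l ih =>
    have hv : DifferentiableAt ℝ (fun y => A.dx ε l (A.ψ i y) (f (A.ψ i y))) z :=
      diffAt_of_contDiffOn isOpen_ball
        (contDiffOn_iff.1 (contDiffOn_capp (dx_smooth l) hf.contDiffOn) i) hz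
    have h1 := dl_eps (A := A) hε i hz (bs b) hv
    rw [ih] at h1
    simp only [dx_cons, ContinuousLinearMap.mul_apply] at h1 ⊢
    rw [h1, map_sum, ← Finset.sum_neg_distrib]
    refine Finset.sum_congr rfl fun a _ => ?_
    exact (DFunLike.congr_fun (eps_anti hε _ _) _).symm

theorem dl_of (hε : IsCAR ε) (i : Fin k) {z : Eu p × Eu q} (hz : z ∈ ball (0 : Eu p × Eu q) 1)
    {f u : Eu N → W} (hf : ContDiff ℝ ∞ f) (h : ∀ n, Vac ε (f n)) {l : List (Fin N)}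
    (hu : ∀ n ∈ A.M, u n = A.dx ε l n (f n)) : A.dl ε i (fun y => u (A.ψ i y)) z =
      ∑ a, A.dx ε (a :: l) (A.ψ i z) (fderiv ℝ f (A.ψ i z) (bs a)) := by
  rw [← dl_dx hε i hz hf h l]
  refine op_congr ?_
  filter_upwards [isOpen_ball.mem_nhds hz] with y hy using hu _ (ψ_mem i hy).1

theorem dl_add (i : Fin k) {z : Eu p × Eu q} (hz : z ∈ ball (0 : Eu p × Eu q) 1) {u v : Eu N → W}
    (hu : A.Form ε u) (hv : A.Form ε v) : A.dl ε i (fun y => (u + v) (A.ψ i y)) z =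
      A.dl ε i (fun y => u (A.ψ i y)) z + A.dl ε i (fun y => v (A.ψ i y)) z :=
  op_add (diffAt_of_contDiffOn isOpen_ball (hu.chart i).1 hz)
    (diffAt_of_contDiffOn isOpen_ball (hv.chart i).1 hz)

theorem exists_d (A : Atl N p q k) (hε : IsCAR ε) : ∃ d, A.IsD ε d := by
  refine ⟨fun u m => ∑ i, A.χ i m ^ 2 • A.dl ε i (fun y => u (A.ψ i y)) (A.φ i m),
    fun u v hu hv m hm => ?_, fun l f u hf h hu m hm => ?_⟩
  · simp only [← Finset.sum_add_distrib]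
    refine Finset.sum_congr rfl fun i _ => ?_
    by_cases h1 : A.χ i m = 0
    · simp [h1]
    · rw [dl_add i (φ_mem hm (mem_U_of_χ hm h1)).1 hu hv, smul_add]
  · have e : ∀ i, A.χ i m ^ 2 • A.dl ε i (fun y => u (A.ψ i y)) (A.φ i m) =
        A.χ i m ^ 2 • ∑ a, A.dx ε (a :: l) m (fderiv ℝ f m (bs a)) := fun i => by
      by_cases h1 : A.χ i m = 0
      · simp [h1]
      · obtain ⟨h2, h3⟩ := φ_mem hm (mem_U_of_χ hm h1)
        rw [dl_of hε i h2 hf h hu, h3]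
    simp only [e, ← Finset.sum_smul, A.χ_sum m hm, one_smul]

variable {d : (Eu N → W) → Eu N → W}

theorem IsD.chart (hd : A.IsD ε d) (hε : IsCAR ε) {u : Eu N → W} (hu : A.Form ε u) (i : Fin k) :
    ∀ z ∈ ball (0 : Eu p × Eu q) 1, d u (A.ψ i z) = A.dl ε i (fun y => u (A.ψ i y)) z := by
  refine form_ind hε (P := fun u => ∀ z ∈ ball (0 : Eu p × Eu q) 1,
    d u (A.ψ i z) = A.dl ε i (fun y => u (A.ψ i y)) z) (fun l f u hf h hu z hz => ?_)
    (fun u v hu hv h1 h2 z hz => ?_) hu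
  · rw [dl_of hε i hz hf h hu, hd.2 l f u hf h hu _ (ψ_mem i hz).1]
  · rw [dl_add i hz hu hv, hd.1 u v hu hv _ (ψ_mem i hz).1, h1 z hz, h2 z hz]

theorem IsD.tan (hd : A.IsD ε d) (hε : IsCAR ε) {u : Eu N → W} (hu : A.Form ε u) :
    ∀ m ∈ A.M, A.Pi ε m (d u m) = d u m := by
  refine form_ind hε (P := fun u => ∀ m ∈ A.M, A.Pi ε m (d u m) = d u m)
    (fun l f u hf h hu m hm => ?_) (fun u v hu hv h1 h2 m hm => ?_) hu
  · rw [hd.2 l f u hf h hu m hm, map_sum]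
    refine Finset.sum_congr rfl fun a _ => ?_
    have h1 := DFunLike.congr_fun (dx_comm (A := A) hε (a :: l) m) (fderiv ℝ f m (bs a))
    rw [ContinuousLinearMap.mul_apply, ContinuousLinearMap.mul_apply] at h1
    rw [h1]
    exact congrArg _ ((Vac.fderiv hf h m _).deg _)
  · rw [hd.1 u v hu hv m hm, map_add, h1 m hm, h2 m hm]

end Atl

end Pool.Agent.P.MP_e0a138_an.AD
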