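import Pool.Agent.P.MP_e0a138_an.GE1a

set_option autoImplicit false
set_option linter.unusedSectionVars false
set_option linter.unusedVariables false

open MeasureTheory Filter Topology Metric Complex
open scoped ENNReal NNReal ContDiff InnerProductSpace ComplexConjugate

noncomputable section
namespace Pool.Agent.P.MP_e0a138_an.AD

variable {N p q k : ℕ} {W : Type} [NormedAddCommGroup W] [InnerProductSpace ℂ W]
  [FiniteDimensional ℂ W] [CompleteSpace W]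
variable {A : Atl N p q k}

namespace Atl

theorem GE1_dψ (i : Fin k) (z : Eu p × Eu q) : DifferentiableAt ℝ (A.ψ i) z :=
  (A.ψ_smooth i).differentiable (by simp) z

theorem GE1_dφ (i : Fin k) (m : Eu N) : DifferentiableAt ℝ (A.φ i) m :=
  (A.φ_smooth i).differentiable (by simp) m

theorem GE1_within {G : Type} [NormedAddCommGroup G] [NormedSpace ℝ G] {i : Fin k}
    {a : Eu p × Eu q → G} (ha : ContDiffOn ℝ ∞ a (ball 0 1)) {f : Eu N → G} {m : Eu N}
    (hm : m ∈ A.M) (hU : m ∈ A.U i) (e : ∀ n ∈ A.M, n ∈ A.U i → f n = a (A.φ i n)) :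
    ContDiffWithinAt ℝ ∞ f A.M m := by
  have h1 : ContDiffAt ℝ ∞ (fun n => a (A.φ i n)) m :=
    (ha.contDiffAt (isOpen_ball.mem_nhds (φ_mem hm hU).1)).comp m (A.φ_smooth i).contDiffAt
  refine h1.contDiffWithinAt.congr_of_eventuallyEq ?_ (e m hm hU)
  filter_upwards [self_mem_nhdsWithin, mem_nhdsWithin_of_mem_nhds ((A.U_open i).mem_nhds hU)]
    with n h2 h3 using e n h2 h3

theorem contDiffOn_iff {G : Type} [NormedAddCommGroup G] [NormedSpace ℝ G] {f : Eu N → G} :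
    ContDiffOn ℝ ∞ f A.M ↔ ∀ i, ContDiffOn ℝ ∞ (fun z => f (A.ψ i z)) (ball 0 1) := by
  refine ⟨fun h i => h.comp (A.ψ_smooth i).contDiffOn fun z hz => (ψ_mem i hz).1,
    fun h m hm => ?_⟩
  obtain ⟨i, hi⟩ := exists_χ hm
  exact GE1_within (h i) hm (mem_U_of_χ hm hi) fun n h1 h2 => by rw [(φ_mem h1 h2).2]

theorem continuousOn_chart {G : Type} [TopologicalSpace G] {f : Eu N → G}
    (hf : ContinuousOn f A.M) (i : Fin k) : ContinuousOn (fun z => f (A.ψ i z)) (ball 0 1) := by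
  exact hf.comp (A.ψ_smooth i).continuous.continuousOn fun z hz => (ψ_mem i hz).1

theorem dφ_dψ (i : Fin k) {z : Eu p × Eu q} (hz : z ∈ ball (0 : Eu p × Eu q) 1) (w : Eu p × Eu q) :
    fderiv ℝ (A.φ i) (A.ψ i z) (fderiv ℝ (A.ψ i) z w) = w := by
  have h1 : (fun z => A.φ i (A.ψ i z)) =ᶠ[𝓝 z] id := by
    filter_upwards [isOpen_ball.mem_nhds hz] with y hy using A.left_inv i y hy
  have h2 := ((GE1_dφ (A := A) i (A.ψ i z)).hasFDerivAt.comp z (GE1_dψ i z).hasFDerivAt).unique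
    ((hasFDerivAt_id z).congr_of_eventuallyEq h1)
  exact DFunLike.congr_fun h2 w

theorem dψ_inj (i : Fin k) {z : Eu p × Eu q} (hz : z ∈ ball (0 : Eu p × Eu q) 1) :
    Function.Injective (fderiv ℝ (A.ψ i) z) := by
  exact Function.LeftInverse.injective (dφ_dψ i hz)

theorem fderivWithin_chart {G : Type} [NormedAddCommGroup G] [NormedSpace ℝ G] {u : Eu N → G}
    (hu : ContDiffOn ℝ ∞ u A.M) (i : Fin k) {z : Eu p × Eu q} (hz : z ∈ ball (0 : Eu p × Eu q) 1)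
    (w : Eu p × Eu q) : fderivWithin ℝ u A.M (A.ψ i z) (fderiv ℝ (A.ψ i) z w) =
      fderiv ℝ (fun z => u (A.ψ i z)) z w := by
  have h1 := ((hu _ (ψ_mem i hz).1).differentiableWithinAt (by simp)).hasFDerivWithinAt
  have h2 := (h1.comp z (GE1_dψ i z).hasFDerivAt.hasFDerivWithinAt
    (fun y hy => (ψ_mem i hy).1 : Set.MapsTo (A.ψ i) (ball 0 1) A.M)).hasFDerivAt
    (isOpen_ball.mem_nhds hz)
  exact (DFunLike.congr_fun h2.fderiv w).symm

theorem trans_ev {i j : Fin k} {z : Eu p × Eu q} (hz : z ∈ ball (0 : Eu p × Eu q) 1)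
    (hj : A.ψ i z ∈ A.U j) : ∀ᶠ z' in 𝓝 z, z' ∈ ball (0 : Eu p × Eu q) 1 ∧ A.ψ i z' ∈ A.U j ∧
      A.φ j (A.ψ i z') ∈ ball (0 : Eu p × Eu q) 1 ∧ A.ψ j (A.φ j (A.ψ i z')) = A.ψ i z' := by
  filter_upwards [isOpen_ball.mem_nhds hz,
    (A.ψ_smooth i).continuous.continuousAt ((A.U_open j).mem_nhds hj)] with y h1 h2
  exact ⟨h1, h2, φ_mem (ψ_mem i h1).1 h2⟩

theorem dψ_trans {i j : Fin k} {z : Eu p × Eu q} (hz : z ∈ ball (0 : Eu p × Eu q) 1)
    (hj : A.ψ i z ∈ A.U j) (w : Eu p × Eu q) : fderiv ℝ (A.ψ i) z w =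
      fderiv ℝ (A.ψ j) (A.φ j (A.ψ i z)) (fderiv ℝ (fun z => A.φ j (A.ψ i z)) z w) := by
  have h1 : A.ψ i =ᶠ[𝓝 z] fun y => A.ψ j (A.φ j (A.ψ i y)) :=
    (trans_ev hz hj).mono fun y hy => hy.2.2.2.symm
  have h2 : DifferentiableAt ℝ (fun y => A.φ j (A.ψ i y)) z := (GE1_dφ j _).comp z (GE1_dψ i z)
  have h3 := ((GE1_dψ (A := A) j (A.φ j (A.ψ i z))).hasFDerivAt.comp z
    h2.hasFDerivAt).congr_of_eventuallyEq h1
  exact DFunLike.congr_fun h3.fderiv w

theorem ext_chart {G : Type} [Zero G] (i : Fin k) (a : Eu p × Eu q → G) {z : Eu p × Eu q}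
    (hz : z ∈ ball (0 : Eu p × Eu q) 1) : A.ext i a (A.ψ i z) = a z := by
  rw [ext, Set.indicator_of_mem (ψ_mem i hz).2, A.left_inv i z hz]

theorem ext_zero {G : Type} [Zero G] (i : Fin k) {a : Eu p × Eu q → G} {r : ℝ}
    (h0 : ∀ z ∈ ball (0 : Eu p × Eu q) 1, z ∉ closedBall (0 : Eu p × Eu q) r → a z = 0) :
    ∀ m ∈ A.M, m ∉ A.ψ i '' closedBall 0 r → A.ext i a m = 0 := by
  intro m hm h
  by_cases hU : m ∈ A.U i
  · rw [ext, Set.indicator_of_mem hU]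
    exact h0 _ (φ_mem hm hU).1 fun h1 => h ⟨_, h1, (φ_mem hm hU).2⟩
  · rw [ext, Set.indicator_of_notMem hU]

theorem ext_smooth {G : Type} [NormedAddCommGroup G] [NormedSpace ℝ G] (i : Fin k)
    {a : Eu p × Eu q → G} (ha : ContDiffOn ℝ ∞ a (ball 0 1)) {r : ℝ} (hr : r < 1)
    (h0 : ∀ z ∈ ball (0 : Eu p × Eu q) 1, z ∉ closedBall (0 : Eu p × Eu q) r → a z = 0) :
    ContDiffOn ℝ ∞ (A.ext i a) A.M := by
  intro m hm
  by_cases hU : m ∈ A.U i
  · exact GE1_within ha hm hU fun n _ h2 => by rw [ext, Set.indicator_of_mem h2]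
  · have hc : IsClosed (A.ψ i '' closedBall 0 r) :=
      ((isCompact_closedBall _ _).image (A.ψ_smooth i).continuous).isClosed
    have hn : m ∉ A.ψ i '' closedBall 0 r := by
      rintro ⟨z, hz, rfl⟩
      exact hU (ψ_mem i (closedBall_subset_ball hr hz)).2
    refine (contDiffWithinAt_const (c := (0 : G))).congr_of_eventuallyEq ?_ (ext_zero i h0 m hm hn)
    filter_upwards [self_mem_nhdsWithin, mem_nhdsWithin_of_mem_nhds (hc.isOpen_compl.mem_nhds hn)]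
      with n h2 h3 using ext_zero i h0 n h2 h3

end Atl

end Pool.Agent.P.MP_e0a138_an.AD
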