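import Pool.Agent.P.MP_e0a138_an.GE11a

set_option autoImplicit false
set_option linter.unusedSectionVars false
set_option linter.unusedVariables false

open MeasureTheory Filter Topology Metric Complex
open scoped ENNReal NNReal ContDiff InnerProductSpace ComplexConjugate

noncomputable section
namespace Pool.Agent.P.MP_e0a138_an.AD

variable {N p q k : ℕ} {W : Type} [NormedAddCommGroup W] [InnerProductSpace ℂ W]
  [FiniteDimensional ℂ W] [CompleteSpace W]
variable {A : Atl N p q k}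

namespace Atl

theorem gam_mem_ev {t t' : Tr q k} (ht : t.2.1 ∈ ball (0 : Eu q) 1) {x : Eu p}
    (hx : x ∈ ball (0 : Eu p) 1) (h : A.gam t x ∈ A.plq t') :
    ∀ᶠ x' in 𝓝 x, A.gam t x' ∈ A.plq t' := by
  obtain ⟨h1, h2, h3⟩ := (gam_mem_iff ht hx).1 h
  filter_upwards [tau_loc (z := (x, t.2.1)) (mem_ball_prod.2 ⟨hx, ht⟩) h1] with x' ⟨a, b, _, c, d⟩
  exact (gam_mem_iff ht (mem_ball_prod.1 a).1).2 ⟨b, c.trans h2, d ▸ h3⟩

theorem tri_ev {t : Tr q k} (ht : t.2.1 ∈ ball (0 : Eu q) 1) {x : Eu p}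
    (hx : x ∈ ball (0 : Eu p) 1) {j : Fin k} (hj : A.ψ t.1 (x, t.2.1) ∈ A.U j) :
    ∀ᶠ x' in 𝓝 x, A.tri j (A.gam t x') = A.tri j (A.gam t x) := by
  have h1 : A.gam t x ∈ A.plq t := by
    rw [plq_eq ht]
    exact ⟨x, hx, rfl⟩
  filter_upwards [gam_mem_ev ht hx (mem_plq_tri h1 (j := j) hj)] with x' h
  exact tri_eq h

theorem isOpen_overlap {t : Tr q k} (ht : t.2.1 ∈ ball (0 : Eu q) 1) (t' : Tr q k) :
    IsOpen (ball (0 : Eu p) 1 ∩ A.gam t ⁻¹' A.plq t') :=
  isOpen_iff_mem_nhds.2 fun _ hx =>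
    inter_mem (isOpen_ball.mem_nhds hx.1) (gam_mem_ev ht hx.1 hx.2)

theorem gam_continuousOn {t : Tr q k} (ht : t.2.1 ∈ ball (0 : Eu q) 1) :
    ContinuousOn (A.gam t) (ball 0 1) := by
  have h1 : Continuous fun x : Eu p => A.ψ t.1 (x, t.2.1) :=
    (A.ψ_smooth t.1).continuous.comp (continuous_id.prodMk continuous_const)
  exact h1.continuousOn.prodMk ((smooth_cov t.1 t.2.2).continuousOn.comp h1.continuousOn
    fun x hx => (ψ_mem t.1 (mem_ball_prod.2 ⟨hx, ht⟩)).1)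

theorem gam_inv {t : Tr q k} (ht : t.2.1 ∈ ball (0 : Eu q) 1) {x : Eu p}
    (hx : x ∈ ball (0 : Eu p) 1) : (A.φ t.1 (A.gam t x).1).1 = x :=
  congrArg Prod.fst (A.left_inv t.1 (x, t.2.1) (mem_ball_prod.2 ⟨hx, ht⟩))

theorem measurableSet_plq (t : Tr q k) : MeasurableSet (A.plq t) := by
  by_cases ht : t.2.1 ∈ ball (0 : Eu q) 1
  · rw [plq_eq ht]
    refine measurableSet_ball.image_of_continuousOn_injOn (gam_continuousOn ht)
      fun x hx y hy h => ?_
    rw [← gam_inv (A := A) ht hx, h, gam_inv ht hy]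
  · rw [Set.eq_empty_of_forall_notMem fun z hz => ht (mem_ball_of_plq (A := A) hz)]
    exact MeasurableSet.empty

theorem GE11_nb (t : Tr q k) : {t' | (A.plq t ∩ A.plq t').Nonempty}.Countable := by
  refine (Set.countable_range fun a : Fin k × ℕ =>
    A.tri a.1 (A.gam t (TopologicalSpace.denseSeq (Eu p) a.2))).mono ?_
  rintro t' ⟨z, h1, h2⟩
  have ht := mem_ball_of_plq h1
  rw [plq_eq ht] at h1
  obtain ⟨x, hx, rfl⟩ := h1
  obtain ⟨n, hn⟩ := (TopologicalSpace.denseRange_denseSeq (Eu p)).exists_mem_open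
    (isOpen_overlap (A := A) ht t') ⟨x, hx, h2⟩
  exact ⟨(t'.1, n), tri_eq hn.2⟩

theorem countable_reach (t₀ : Tr q k) : {t | A.Reach t₀ t}.Countable := by
  let S : ℕ → Set (Tr q k) := fun n => Nat.rec {t₀}
    (fun _ T => ⋃ t ∈ T, {t' | (A.plq t ∩ A.plq t').Nonempty}) n
  have h1 : ∀ n, (S n).Countable := fun n => by
    induction n with
    | zero => exact Set.countable_singleton _
    | succ n ih => exact ih.biUnion fun t _ => GE11_nb t
  refine (Set.countable_iUnion h1).mono fun t ht => ?_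
  induction ht with
  | refl => exact Set.mem_iUnion.2 ⟨0, rfl⟩
  | tail _ h ih =>
    obtain ⟨n, hn⟩ := Set.mem_iUnion.1 ih
    exact Set.mem_iUnion.2 ⟨n + 1, Set.mem_biUnion hn h⟩

end Atl

end Pool.Agent.P.MP_e0a138_an.AD
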