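import Pool.Agent.P.MP_e0a138_an.GE4

set_option autoImplicit false
set_option linter.unusedSectionVars false
set_option linter.unusedVariables false

open MeasureTheory Filter Topology Metric Complex
open scoped ENNReal NNReal ContDiff InnerProductSpace ComplexConjugate

noncomputable section
namespace Pool.Agent.P.MP_e0a138_an.AD

variable {N p q k : ℕ} {W : Type} [NormedAddCommGroup W] [InnerProductSpace ℂ W]
  [FiniteDimensional ℂ W] [CompleteSpace W]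
variable {A : Atl N p q k}

namespace Atl

theorem plq_eq {t : Tr q k} (ht : t.2.1 ∈ ball (0 : Eu q) 1) : A.plq t = A.gam t '' ball 0 1 := by
  rw [Atl.plq, dom_eq ht]

theorem mem_ball_of_plq {t : Tr q k} {z : Eu N × Eu N} (hz : z ∈ A.plq t) :
    t.2.1 ∈ ball (0 : Eu q) 1 := by
  obtain ⟨x, hx, -⟩ := hz
  exact (mem_ball_prod.1 hx).2

theorem Reach.mem {t₀ t : Tr q k} (h : A.Reach t₀ t) (h0 : t₀.2.1 ∈ ball (0 : Eu q) 1) :
    t.2.1 ∈ ball (0 : Eu q) 1 := by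
  induction h with
  | refl => exact h0
  | tail _ hbc _ =>
    obtain ⟨z, -, hz⟩ := hbc
    exact mem_ball_of_plq hz

theorem plq_fst {t : Tr q k} {z : Eu N × Eu N} (hz : z ∈ A.plq t) :
    z.1 ∈ A.M ∧ z.1 ∈ A.U t.1 ∧ z.2 = A.cov t.1 t.2.2 z.1 ∧ (A.φ t.1 z.1).2 = t.2.1 ∧
      A.gam t (A.φ t.1 z.1).1 = z := by
  obtain ⟨x, hx, rfl⟩ := hz
  have hx' : (x, t.2.1) ∈ ball (0 : Eu p × Eu q) 1 := hx
  have h1 : A.φ t.1 (A.gam t x).1 = (x, t.2.1) := A.left_inv t.1 _ hx'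
  refine ⟨(ψ_mem t.1 hx').1, (ψ_mem t.1 hx').2, rfl, ?_, ?_⟩
  · rw [h1]
  · rw [h1]

theorem gam_mem_iff {t t' : Tr q k} (ht : t.2.1 ∈ ball (0 : Eu q) 1) {x : Eu p}
    (hx : x ∈ ball (0 : Eu p) 1) : A.gam t x ∈ A.plq t' ↔ A.ψ t.1 (x, t.2.1) ∈ A.U t'.1 ∧
      A.tau t.1 t'.1 (x, t.2.1) = t'.2.1 ∧
      t.2.2 = ContinuousLinearMap.adjoint (A.dta t.1 t'.1 (x, t.2.1)) t'.2.2 := by
  have hz : (x, t.2.1) ∈ ball (0 : Eu p × Eu q) 1 := mem_ball_prod.2 ⟨hx, ht⟩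
  constructor
  · intro h
    obtain ⟨-, hU, hc, hy, -⟩ := plq_fst h
    have hU' : A.ψ t.1 (x, t.2.1) ∈ A.U t'.1 := hU
    refine ⟨hU', hy, cov_inj (A := A) (i := t.1) hz ?_⟩
    rw [← cov_trans hz hU']
    exact hc
  · rintro ⟨hU, hy, hc⟩
    obtain ⟨hb, hψ⟩ := φ_mem (ψ_mem (A := A) t.1 hz).1 hU
    have hpair : ((A.φ t'.1 (A.ψ t.1 (x, t.2.1))).1, t'.2.1) = A.φ t'.1 (A.ψ t.1 (x, t.2.1)) := by
      rw [← hy]; rfl
    refine ⟨(A.φ t'.1 (A.ψ t.1 (x, t.2.1))).1, ?_, ?_⟩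
    · show ((A.φ t'.1 (A.ψ t.1 (x, t.2.1))).1, t'.2.1) ∈ ball (0 : Eu p × Eu q) 1
      rw [hpair]; exact hb
    · simp only [Atl.gam]
      rw [hpair, hψ, cov_trans hz hU, ← hc]

theorem tri_eq {t : Tr q k} {z : Eu N × Eu N} (hz : z ∈ A.plq t) : A.tri t.1 z = t := by
  obtain ⟨x, hx, rfl⟩ := hz
  have hx' : (x, t.2.1) ∈ ball (0 : Eu p × Eu q) 1 := hx
  have h1 : A.φ t.1 (A.gam t x).1 = (x, t.2.1) := A.left_inv t.1 _ hx'
  refine Prod.ext rfl (Prod.ext ?_ ?_)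
  · show (A.φ t.1 (A.gam t x).1).2 = t.2.1
    rw [h1]
  · show ContinuousLinearMap.adjoint (A.jd t.1 (A.φ t.1 (A.gam t x).1) ∘L
      ContinuousLinearMap.inr ℝ (Eu p) (Eu q)) (A.gam t x).2 = t.2.2
    rw [h1]
    refine ext_inner_right ℝ fun v => ?_
    rw [ContinuousLinearMap.adjoint_inner_left]
    exact inner_cov t.1 t.2.2 hx' (0, v)

theorem mem_plq_tri {t : Tr q k} {z : Eu N × Eu N} (hz : z ∈ A.plq t) {j : Fin k}
    (hj : z.1 ∈ A.U j) : z ∈ A.plq (A.tri j z) := by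
  have ht := mem_ball_of_plq hz
  obtain ⟨x, hx, rfl⟩ := hz
  have hx' : (x, t.2.1) ∈ ball (0 : Eu p × Eu q) 1 := hx
  have hj' : A.ψ t.1 (x, t.2.1) ∈ A.U j := hj
  obtain ⟨e, he⟩ := dta_equiv hx' hj'
  have hη : t.2.2 = ContinuousLinearMap.adjoint (A.dta t.1 j (x, t.2.1))
      (ContinuousLinearMap.adjoint (e.symm : Eu q →L[ℝ] Eu q) t.2.2) := by
    refine ext_inner_right ℝ fun v => ?_
    rw [ContinuousLinearMap.adjoint_inner_left, ContinuousLinearMap.adjoint_inner_left, ← he]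
    simp
  have hmem : A.gam t x ∈ A.plq (j, A.tau t.1 j (x, t.2.1),
      ContinuousLinearMap.adjoint (e.symm : Eu q →L[ℝ] Eu q) t.2.2) :=
    (gam_mem_iff ht (mem_ball_prod.1 hx').1).2 ⟨hj', rfl, hη⟩
  have h2 := tri_eq hmem
  simp only at h2
  rw [h2]
  exact hmem

end Atl

end Pool.Agent.P.MP_e0a138_an.AD
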