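import Pool.Agent.P.MP_e0a138_an.GE5

set_option autoImplicit false
set_option linter.unusedSectionVars false
set_option linter.unusedVariables false

open MeasureTheory Filter Topology Metric Complex
open scoped ENNReal NNReal ContDiff InnerProductSpace ComplexConjugate

noncomputable section
namespace Pool.Agent.P.MP_e0a138_an.AD

variable {N p q k : ℕ} {W : Type} [NormedAddCommGroup W] [InnerProductSpace ℂ W]
  [FiniteDimensional ℂ W] [CompleteSpace W]
variable {A : Atl N p q k}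

namespace Atl
variable {μ : Measure (Eu N)}

theorem IsVol.emb (hμ : A.IsVol μ) (i : Fin k) :
    Emb μ (wm (ball 0 1) (A.rho i)) (ball 0 1) (A.ψ i) := by
  refine Emb.of_continuousOn measurableSet_ball (wm_compl measurableSet_ball)
    (A.ψ_smooth i).continuous.continuousOn (injOn_ψ i) ?_
  rw [A.image i, wm, ← hμ.2 i]
  refine Measure.restrict_congr_set ?_
  filter_upwards [(mem_ae_iff.2 hμ.1 : A.M ∈ ae μ)] with m hm
  exact propext ⟨fun h => h.2, fun h => ⟨hm, h⟩⟩

theorem IsVol.ae_mem (hμ : A.IsVol μ) : ∀ᵐ m ∂μ, m ∈ A.M := mem_ae_iff.2 hμ.1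

theorem wm_finite (A : Atl N p q k) (i : Fin k) : IsFiniteMeasure (wm (ball 0 1) (A.rho i)) :=
  by
  obtain ⟨C, hC⟩ := rho_bdd (A := A) i
  refine ⟨?_⟩
  rw [← lintegral_one, lintegral_wm measurableSet_ball (rho_continuous i).continuousOn]
  calc _ ≤ ∫⁻ _ in ball (0 : Eu p × Eu q) 1, (C : ℝ≥0∞) := by
        refine setLIntegral_mono' measurableSet_ball fun z hz => ?_
        rw [mul_one, ← ENNReal.ofReal_coe_nnreal]
        exact ENNReal.ofReal_le_ofReal (hC z hz)
    _ < ⊤ := by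
        rw [setLIntegral_const]
        exact ENNReal.mul_lt_top ENNReal.coe_lt_top measure_ball_lt_top

theorem IsVol.finite (hμ : A.IsVol μ) : IsFiniteMeasure μ := by
  refine ⟨?_⟩
  have h1 : μ Set.univ ≤ μ (⋃ i, A.ψ i '' ball 0 1) := by
    refine measure_mono_ae ?_
    filter_upwards [hμ.ae_mem] with m hm _
    obtain ⟨i, z, hz, rfl⟩ := exists_chart hm
    exact Set.mem_iUnion.2 ⟨i, z, hz, rfl⟩
  refine h1.trans_lt ((measure_iUnion_fintype_le _ _).trans_lt (ENNReal.sum_lt_top.2 fun i _ => ?_))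
  have := A.wm_finite i
  rw [← setLIntegral_one, (hμ.emb i).lintegral, lintegral_one]
  exact measure_lt_top _ _

theorem IsVol.cover (hμ : A.IsVol μ) : ∀ᵐ m ∂μ, ∃ i, m ∈ A.ψ i '' ball 0 1 := by
  filter_upwards [hμ.ae_mem] with m hm
  obtain ⟨i, z, hz, rfl⟩ := exists_chart hm
  exact ⟨i, z, hz, rfl⟩

theorem IsVol.aesm (hμ : A.IsVol μ) {F : Type} [NormedAddCommGroup F] {f : Eu N → F}
    (hf : ContinuousOn f A.M) : AEStronglyMeasurable f μ := by
  rw [← Measure.restrict_eq_self_of_ae_mem hμ.ae_mem]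
  exact hf.aestronglyMeasurable A.isCompact_M.measurableSet

theorem IsVol.memLp (hμ : A.IsVol μ) {F : Type} [NormedAddCommGroup F] {f : Eu N → F}
    (hf : ContinuousOn f A.M) : MemLp f 2 μ := by
  have := hμ.finite
  obtain ⟨C, hC⟩ := A.isCompact_M.exists_bound_of_continuousOn hf
  exact MemLp.of_bound (hμ.aesm hf) C (hμ.ae_mem.mono hC)

theorem IsVol.integrable (hμ : A.IsVol μ) {F : Type} [NormedAddCommGroup F] {f : Eu N → F}
    (hf : ContinuousOn f A.M) : Integrable f μ := by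
  have := hμ.finite
  exact (hμ.memLp hf).integrable one_le_two

theorem IsVol.integral_loc (hμ : A.IsVol μ) {F : Type} [NormedAddCommGroup F] [NormedSpace ℝ F]
    (i : Fin k) {f : Eu N → F} (h : ∀ m ∈ A.M, m ∉ A.U i → f m = 0) :
    ∫ m, f m ∂μ = ∫ z, f (A.ψ i z) ∂wm (ball 0 1) (A.rho i) := by
  rw [← (hμ.emb i).integral, setIntegral_eq_integral_of_ae_compl_eq_zero]
  filter_upwards [hμ.ae_mem] with m hm hm'
  exact h m hm fun hU => hm' (by rw [A.image i]; exact ⟨hm, hU⟩)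

theorem IsVol.lintegral_loc (hμ : A.IsVol μ) (i : Fin k) {f : Eu N → ℝ≥0∞}
    (h : ∀ m ∈ A.M, m ∉ A.U i → f m = 0) :
    ∫⁻ m, f m ∂μ = ∫⁻ z, f (A.ψ i z) ∂wm (ball 0 1) (A.rho i) := by
  rw [← (hμ.emb i).lintegral, ← lintegral_indicator (hμ.emb i).measurableSet]
  refine lintegral_congr_ae ?_
  filter_upwards [hμ.ae_mem] with m hm
  by_cases hU : m ∈ A.U i
  · rw [Set.indicator_of_mem (by rw [A.image i]; exact ⟨hm, hU⟩)]
  · rw [Set.indicator_of_notMem (by rw [A.image i]; exact fun h => hU h.2), h m hm hU]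

theorem IsVol.lintegral_le (hμ : A.IsVol μ) (i : Fin k) (f : Eu N → ℝ≥0∞) :
    ∫⁻ z, f (A.ψ i z) ∂wm (ball 0 1) (A.rho i) ≤ ∫⁻ m, f m ∂μ := by
  rw [← (hμ.emb i).lintegral]
  exact setLIntegral_le_lintegral _ _

theorem IsVol.separable (hμ : A.IsVol μ) : TopologicalSpace.SeparableSpace (Lp W 2 μ) := by
  have := hμ.finite
  have : Fact ((2 : ℝ≥0∞) ≠ ⊤) := ⟨by simp⟩
  have := FiniteDimensional.proper ℂ W
  infer_instance

end Atl

end Pool.Agent.P.MP_e0a138_an.AD
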