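import Pool.Agent.P.MP_e0a138_an.GE11
import Pool.Agent.P.MP_e0a138_an.GE6

set_option autoImplicit false
set_option linter.unusedSectionVars false
set_option linter.unusedVariables false

open MeasureTheory Filter Topology Metric Complex
open scoped ENNReal NNReal ContDiff InnerProductSpace ComplexConjugate

noncomputable section
namespace Pool.Agent.P.MP_e0a138_an.AD

variable {N p q k : ℕ} {W : Type} [NormedAddCommGroup W] [InnerProductSpace ℂ W]
  [FiniteDimensional ℂ W] [CompleteSpace W]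
variable {A : Atl N p q k}

namespace Atl
variable {l : Measure (Eu N × Eu N)}

theorem pm_eq {t : Tr q k} (ht : t.2.1 ∈ ball (0 : Eu q) 1) :
    A.pm t = (wm (ball 0 1) fun x => A.rho t.1 (x, t.2.1)).map (A.gam t) := by
  unfold pm wm
  rw [dom_eq ht]

theorem emb_plq {t : Tr q k} (ht : t.2.1 ∈ ball (0 : Eu q) 1) {c : ℝ≥0}
    (h : l.restrict (A.plq t) = c • A.pm t) :
    Emb l (wm (ball 0 1) fun x => (c : ℝ) * A.rho t.1 (x, t.2.1)) (ball 0 1) (A.gam t) := by
  refine Emb.of_continuousOn measurableSet_ball (wm_compl measurableSet_ball)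
    (gam_continuousOn ht) (fun x hx y hy hxy => ?_) ?_
  · rw [← gam_inv (A := A) ht hx, hxy, gam_inv ht hy]
  · rw [← plq_eq ht, h, pm_eq ht, ← smul_wm, Measure.map_smul]

theorem GE13a_aem {t : Tr q k} (ht : t.2.1 ∈ ball (0 : Eu q) 1) (ρ : Eu p → ℝ) :
    AEMeasurable (A.gam t) (wm (ball 0 1) ρ) :=
  (aesm_wm measurableSet_ball (gam_continuousOn ht)).aemeasurable

theorem GE13a_wm_finite {t : Tr q k} (ht : t.2.1 ∈ ball (0 : Eu q) 1) (c : ℝ≥0) :
    IsFiniteMeasure (wm (ball (0 : Eu p) 1) fun x => (c : ℝ) * A.rho t.1 (x, t.2.1)) := by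
  obtain ⟨C, hC⟩ := rho_bdd (A := A) t.1
  refine ⟨?_⟩
  unfold wm
  rw [withDensity_apply _ MeasurableSet.univ, Measure.restrict_univ]
  calc ∫⁻ x in ball (0 : Eu p) 1, ENNReal.ofReal ((c : ℝ) * A.rho t.1 (x, t.2.1))
      ≤ ∫⁻ _x in ball (0 : Eu p) 1, ENNReal.ofReal ((c : ℝ) * C) := by
        refine setLIntegral_mono' measurableSet_ball fun x hx => ENNReal.ofReal_le_ofReal ?_
        exact mul_le_mul_of_nonneg_left (hC _ (mem_ball_prod.2 ⟨hx, ht⟩)) c.2
    _ < ⊤ := by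
        rw [setLIntegral_const]
        exact ENNReal.mul_lt_top ENNReal.ofReal_lt_top measure_ball_lt_top

theorem pm_finite {t : Tr q k} (ht : t.2.1 ∈ ball (0 : Eu q) 1) : IsFiniteMeasure (A.pm t) := by
  have h := GE13a_wm_finite (A := A) ht 1
  simp only [NNReal.coe_one, one_mul] at h
  rw [pm_eq ht]
  infer_instance

theorem pm_compl {t : Tr q k} (ht : t.2.1 ∈ ball (0 : Eu q) 1) : A.pm t (A.plq t)ᶜ = 0 := by
  rw [pm_eq ht, Measure.map_apply_of_aemeasurable (GE13a_aem ht _) (measurableSet_plq t).compl]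
  refine measure_mono_null (t := (ball (0 : Eu p) 1)ᶜ) (fun x hx hb => hx ?_)
    (wm_compl measurableSet_ball)
  rw [plq_eq ht]
  exact ⟨x, hb, rfl⟩

theorem pm_pos {t t' : Tr q k} (h : (A.plq t ∩ A.plq t').Nonempty) : A.pm t (A.plq t') ≠ 0 := by
  obtain ⟨z, hz, hz'⟩ := h
  have ht := mem_ball_of_plq hz
  rw [plq_eq ht] at hz
  obtain ⟨x, hx, rfl⟩ := hz
  intro h0
  rw [pm_eq ht, Measure.map_apply_of_aemeasurable (GE13a_aem ht _) (measurableSet_plq t')] at h0
  have h1 : ∀ᵐ y ∂(wm (ball (0 : Eu p) 1) fun x => A.rho t.1 (x, t.2.1)),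
      y ∉ A.gam t ⁻¹' A.plq t' := measure_eq_zero_iff_ae_notMem.1 h0
  have hc : ContinuousOn (fun x : Eu p => A.rho t.1 (x, t.2.1)) (ball 0 1) :=
    ((rho_continuous t.1).comp (continuous_id.prodMk continuous_const)).continuousOn
  rw [ae_wm_iff measurableSet_ball hc fun y hy => rho_pos t.1 (mem_ball_prod.2 ⟨hy, ht⟩)] at h1
  have h2 : (volume : Measure (Eu p)) (ball (0 : Eu p) 1 ∩ A.gam t ⁻¹' A.plq t') = 0 := by
    refine measure_eq_zero_iff_ae_notMem.2 (h1.mono fun y hy hy' => hy hy'.1 hy'.2)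
  exact ((isOpen_overlap ht t').measure_pos volume ⟨x, hx, hz'⟩).ne' h2

theorem IsLeaf.ae_mem {t₀ : Tr q k} (hl : A.IsLeaf t₀ l) :
    ∀ᵐ z ∂l, ∃ t, A.Reach t₀ t ∧ z ∈ A.plq t := by
  have h := measure_eq_zero_iff_ae_notMem.1 hl.1
  refine h.mono fun z hz => ?_
  simpa using hz

theorem IsLeaf.separable {t₀ : Tr q k} (h0 : t₀.2.1 ∈ ball (0 : Eu q) 1) (hl : A.IsLeaf t₀ l) :
    TopologicalSpace.SeparableSpace (Lp W 2 l) := by
  have hσ : SigmaFinite l := by
    refine Measure.sigmaFinite_of_countable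
      (S := insert (⋃ t ∈ {t | A.Reach t₀ t}, A.plq t)ᶜ (A.plq '' {t | A.Reach t₀ t}))
      (((countable_reach t₀).image _).insert _) ?_ ?_
    · rintro s (rfl | ⟨t, ht, rfl⟩)
      · rw [hl.1]; exact ENNReal.zero_lt_top
      · obtain ⟨c, -, hc⟩ := hl.2 t ht
        have := pm_finite (A := A) (Reach.mem ht h0)
        rw [← Measure.restrict_apply_univ, hc, Measure.smul_apply]
        exact ENNReal.mul_lt_top ENNReal.coe_lt_top (measure_lt_top _ _)
    · rw [Set.sUnion_insert, Set.sUnion_image, Set.compl_union_self]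
  have : Fact ((2 : ℝ≥0∞) ≠ ⊤) := ⟨by simp⟩
  have : ProperSpace W := FiniteDimensional.proper ℂ W
  infer_instance

theorem IsLeaf.aesm {t₀ : Tr q k} (h0 : t₀.2.1 ∈ ball (0 : Eu q) 1) (hl : A.IsLeaf t₀ l)
    {F : Type} [NormedAddCommGroup F] {f : Eu N → F} (hf : ContinuousOn f A.M) :
    AEStronglyMeasurable (fun z : Eu N × Eu N => f z.1) l := by
  have hM : MeasurableSet {z : Eu N × Eu N | z.1 ∈ A.M} :=
    measurable_fst (isCompact_M A).measurableSet
  have h1 : ∀ᵐ z ∂l, z ∈ {z : Eu N × Eu N | z.1 ∈ A.M} :=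
    hl.ae_mem.mono fun z ⟨t, _, hz⟩ => (plq_fst hz).1
  rw [← Measure.restrict_eq_self_of_ae_mem h1]
  refine ContinuousOn.aestronglyMeasurable ?_ hM
  exact hf.comp continuous_fst.continuousOn fun z hz => hz

theorem memLp_plq {t : Tr q k} (ht : t.2.1 ∈ ball (0 : Eu q) 1) {c : ℝ≥0}
    (h : l.restrict (A.plq t) = c • A.pm t) {u : Eu N → W} (hu : ContinuousOn u A.M) :
    MemLp ((A.plq t).indicator fun z => u z.1) 2 l := by
  have he := emb_plq ht h
  rw [plq_eq ht]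
  refine he.memLp_ind (f := fun z => u z.1) ?_
  obtain ⟨C, hC⟩ := (isCompact_M A).exists_bound_of_continuousOn hu
  have hm : ∀ x ∈ ball (0 : Eu p) 1, (A.gam t x).1 ∈ A.M := fun x hx =>
    (ψ_mem t.1 (mem_ball_prod.2 ⟨hx, ht⟩)).1
  have := GE13a_wm_finite (A := A) ht c
  refine MemLp.of_bound (aesm_wm measurableSet_ball ?_) C ?_
  · exact hu.comp (continuous_fst.comp_continuousOn (gam_continuousOn ht)) hm
  · exact (wm_ae measurableSet_ball).mono fun x hx => hC _ (hm x hx)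

end Atl

end Pool.Agent.P.MP_e0a138_an.AD
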