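import Pool.Agent.P.MP_e0a138_an.GE13a

set_option autoImplicit false
set_option linter.unusedSectionVars false
set_option linter.unusedVariables false

open MeasureTheory Filter Topology Metric Complex
open scoped ENNReal NNReal ContDiff InnerProductSpace ComplexConjugate

noncomputable section
namespace Pool.Agent.P.MP_e0a138_an.AD

variable {N p q k : ℕ} {W : Type} [NormedAddCommGroup W] [InnerProductSpace ℂ W]
  [FiniteDimensional ℂ W] [CompleteSpace W]
variable {A : Atl N p q k}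

namespace Atl
variable {l : Measure (Eu N × Eu N)} {t₀ : Tr q k} {B : Tr q k → Eu q ≃L[ℝ] Eu q}

theorem ge13b_gam {t t' : Tr q k} {x : Eu p} (h : A.gam t x ∈ A.plq t') :
    A.gam t x = A.gam t' (A.φ t'.1 (A.ψ t.1 (x, t.2.1))).1 := (plq_fst h).2.2.2.2.symm

theorem ge13b_aem {t : Tr q k} (ht : t.2.1 ∈ ball (0 : Eu q) 1) {S : Set (Eu p)}
    (hS : MeasurableSet S) (h : S ⊆ ball 0 1) : AEMeasurable (A.gam t) (volume.restrict S) :=
  ((gam_continuousOn ht).mono h).aemeasurable hS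

theorem ge13b_res {t : Tr q k} (ht : t.2.1 ∈ ball (0 : Eu q) 1) (t' : Tr q k) (c : ℝ≥0) :
    (c • A.pm t).restrict (A.plq t') = (wm (ball (0 : Eu p) 1 ∩ A.gam t ⁻¹' A.plq t')
      fun x => (c : ℝ) * A.rho t.1 (x, t.2.1)).map (A.gam t) := by
  rw [Measure.restrict_smul, pm_eq ht, restrict_map_wm measurableSet_ball
    (ge13b_aem ht measurableSet_ball subset_rfl) (measurableSet_plq t')
    (isOpen_overlap ht t').measurableSet, ← smul_wm, Measure.map_smul]

theorem ge13b_img {t t' : Tr q k} (ht : t.2.1 ∈ ball (0 : Eu q) 1)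
    (ht' : t'.2.1 ∈ ball (0 : Eu q) 1) :
    (fun x => (A.φ t'.1 (A.ψ t.1 (x, t.2.1))).1) '' (ball (0 : Eu p) 1 ∩ A.gam t ⁻¹' A.plq t') =
      ball (0 : Eu p) 1 ∩ A.gam t' ⁻¹' A.plq t := by
  ext x'
  constructor
  · rintro ⟨x, ⟨hx, h⟩, rfl⟩
    have h1 := plq_fst (show A.gam t x ∈ A.plq t' from h)
    have h2 : A.φ t'.1 (A.ψ t.1 (x, t.2.1)) ∈ ball (0 : Eu p × Eu q) 1 := (φ_mem h1.1 h1.2.1).1
    refine ⟨(mem_ball_prod.1 h2).1, ?_⟩
    show A.gam t' (A.φ t'.1 (A.ψ t.1 (x, t.2.1))).1 ∈ A.plq t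
    rw [← ge13b_gam h, plq_eq ht]
    exact ⟨x, hx, rfl⟩
  · rintro ⟨hx', h⟩
    have h' : A.gam t' x' ∈ A.plq t := h
    rw [plq_eq ht] at h'
    obtain ⟨x, hx, e⟩ := h'
    refine ⟨x, ⟨hx, ?_⟩, ?_⟩
    · show A.gam t x ∈ A.plq t'
      rw [e, plq_eq ht']
      exact ⟨x', hx', rfl⟩
    · show (A.φ t'.1 (A.gam t x).1).1 = x'
      rw [e]
      exact gam_inv ht' hx'

theorem ge13b_jac {e e' : Eu q ≃L[ℝ] Eu q} {D : Eu q →L[ℝ] Eu q}
    (h : (e' : Eu q →L[ℝ] Eu q) = D ∘L (e : Eu q →L[ℝ] Eu q)) :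
    (jac e' : ℝ) = |D.det| * jac e := by
  have h1 : (D ∘L (e : Eu q →L[ℝ] Eu q)).det = D.det * (e : Eu q →L[ℝ] Eu q).det :=
    LinearMap.det_comp (D : Eu q →ₗ[ℝ] Eu q) ((e : Eu q →L[ℝ] Eu q) : Eu q →ₗ[ℝ] Eu q)
  simp only [jac, coe_nnnorm, h, h1, Real.norm_eq_abs, abs_mul]

theorem ge13b_cont (t : Tr q k) (c : ℝ) (S : Set (Eu p)) :
    ContinuousOn (fun x => c * A.rho t.1 (x, t.2.1)) S :=
  (continuous_const.mul ((rho_continuous t.1).comp (by fun_prop))).continuousOn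

theorem Hd.compat (hB : A.Hd t₀ B) {t t' : Tr q k} (ht : A.Reach t₀ t) (ht' : A.Reach t₀ t') :
    (jac (B t) • A.pm t).restrict (A.plq t') = (jac (B t') • A.pm t').restrict (A.plq t) := by
  have hy := ht.mem hB.mem
  have hy' := ht'.mem hB.mem
  have hT : Differentiable ℝ fun x => (A.φ t'.1 (A.ψ t.1 (x, t.2.1))).1 :=
    (((A.φ_smooth t'.1).comp ((A.ψ_smooth t.1).comp
      (contDiff_id.prodMk contDiff_const))).fst).differentiable (by simp)
  rw [ge13b_res hy, ge13b_res hy']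
  refine change_var (T := fun x => (A.φ t'.1 (A.ψ t.1 (x, t.2.1))).1)
    (T' := fun x => fderiv ℝ (fun x => (A.φ t'.1 (A.ψ t.1 (x, t.2.1))).1) x)
    (isOpen_overlap hy t').measurableSet (isOpen_overlap hy' t).measurableSet
    (fun x _ => (hT x).hasFDerivAt.hasFDerivWithinAt) ?_ (ge13b_img hy hy')
    (ge13b_cont _ _ _) (ge13b_cont _ _ _) ?_
    (ge13b_aem hy (isOpen_overlap hy t').measurableSet Set.inter_subset_left)
    (ge13b_aem hy' (isOpen_overlap hy' t).measurableSet Set.inter_subset_left)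
    fun x hx => ge13b_gam hx.2
  · intro x₁ h₁ x₂ h₂ e
    have e' : A.gam t x₁ = A.gam t x₂ := by
      rw [ge13b_gam (show A.gam t x₁ ∈ A.plq t' from h₁.2),
        ge13b_gam (show A.gam t x₂ ∈ A.plq t' from h₂.2)]
      exact congrArg (A.gam t') e
    rw [← gam_inv hy h₁.1, e', gam_inv hy h₂.1]
  · intro x hx
    obtain ⟨hU, hτ, -⟩ := (gam_mem_iff hy hx.1).1 hx.2
    have hj := ge13b_jac (hB.cons t t' ht ht' x hx.1 hU hτ).2
    have e : A.φ t'.1 (A.ψ t.1 (x, t.2.1)) = ((A.φ t'.1 (A.ψ t.1 (x, t.2.1))).1, t'.2.1) :=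
      Prod.ext rfl hτ
    have hr := rho_trans' (mem_ball_prod.2 ⟨hx.1, hy⟩) hU
    rw [hr, hj, ← e]
    ring

theorem Hd.exists_leaf (hB : A.Hd t₀ B) : ∃ l, A.IsLeaf t₀ l := by
  have : Countable {t // A.Reach t₀ t} := (countable_reach t₀).to_subtype
  obtain ⟨l, h0, h1⟩ := glue (J := {t // A.Reach t₀ t}) (Q := fun t => A.plq t.1)
    (fun t => measurableSet_plq t.1) (m := fun t => jac (B t.1) • A.pm t.1)
    (fun t => by rw [Measure.smul_apply, pm_compl (t.2.mem hB.mem), smul_zero])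
    fun t t' => hB.compat t.2 t'.2
  refine ⟨l, ?_, fun t ht => ⟨jac (B t), jac_ne_zero _, h1 ⟨t, ht⟩⟩⟩
  rw [Set.biUnion_eq_iUnion]
  exact h0

theorem Hd.scale (hB : A.Hd t₀ B) (hl : A.IsLeaf t₀ l) : ∃ c : ℝ≥0, c ≠ 0 ∧
    ∀ t, A.Reach t₀ t → l.restrict (A.plq t) = (c * jac (B t)) • A.pm t := by
  obtain ⟨c, hc, h0⟩ := hl.2 t₀ Relation.ReflTransGen.refl
  refine ⟨c, hc, fun t ht => ?_⟩
  induction ht with
  | refl => rw [hB.base, jac_refl, mul_one]; exact h0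
  | @tail t t' hr hs ih =>
    have hr' : A.Reach t₀ t' := Relation.ReflTransGen.tail hr hs
    obtain ⟨c', -, h1⟩ := hl.2 t' hr'
    have hy' := hr'.mem hB.mem
    have := pm_finite (A := A) hy'
    have e1 : (l.restrict (A.plq t)).restrict (A.plq t') =
        (l.restrict (A.plq t')).restrict (A.plq t) := by
      rw [Measure.restrict_restrict (measurableSet_plq _),
        Measure.restrict_restrict (measurableSet_plq _), Set.inter_comm]
    rw [ih, h1, mul_smul, Measure.restrict_smul, hB.compat hr hr', ← Measure.restrict_smul,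
      ← mul_smul] at e1
    have e2 := congrArg (fun m : Measure (Eu N × Eu N) => m Set.univ) e1
    simp only [Measure.restrict_apply_univ, Measure.smul_apply] at e2
    have hp : A.pm t' (A.plq t) ≠ 0 := pm_pos (by rwa [Set.inter_comm])
    have e3 : c * jac (B t') = c' := by
      have := (ENNReal.mul_left_inj hp (measure_ne_top _ _)).1 e2
      exact_mod_cast this
    rw [e3]
    exact h1

end Atl

end Pool.Agent.P.MP_e0a138_an.AD
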