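import Pool.Agent.P.MP_e0a138_an.GE11

set_option autoImplicit false
set_option linter.unusedSectionVars false
set_option linter.unusedVariables false

open MeasureTheory Filter Topology Metric Complex
open scoped ENNReal NNReal ContDiff InnerProductSpace ComplexConjugate

noncomputable section
namespace Pool.Agent.P.MP_e0a138_an.AD

variable {N p q k : ℕ} {W : Type} [NormedAddCommGroup W] [InnerProductSpace ℂ W]
  [FiniteDimensional ℂ W] [CompleteSpace W]
variable {A : Atl N p q k}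

namespace Atl

theorem kplq_subset {r : ℝ} (hr : r < 1) (t : Tr q k) : A.kplq r t ⊆ A.plq t :=
  Set.image_mono fun _ hx => closedBall_subset_ball hr hx

theorem mem_kplq_tri {r : ℝ} (hr : r < 1)
    (hχ : ∀ i, ∀ m ∈ A.M, m ∉ A.ψ i '' closedBall 0 r → A.χ i m = 0) {t : Tr q k}
    {z : Eu N × Eu N} (hz : z ∈ A.plq t) {j : Fin k} (hj : A.χ j z.1 ≠ 0) :
    z ∈ A.kplq r (A.tri j z) := by
  have hM := (plq_fst hz).1
  have h := plq_fst (mem_plq_tri hz (mem_U_of_χ hM hj))
  obtain ⟨w, hw, hwz⟩ : z.1 ∈ A.ψ j '' closedBall 0 r := by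
    by_contra hn
    exact hj (hχ j _ hM hn)
  refine ⟨(A.φ j z.1).1, ?_, h.2.2.2.2⟩
  show A.φ j z.1 ∈ closedBall (0 : Eu p × Eu q) r
  rw [← hwz, A.left_inv j w (closedBall_subset_ball hr hw)]
  exact hw

theorem kplq_finite {r : ℝ} (hr : r < 1) (t : Tr q k) :
    {t' | (A.kplq r t ∩ A.kplq r t').Nonempty}.Finite := by
  have key : ∀ j : Fin k, ((fun x => A.tri j (A.gam t x)) ''
      {x : Eu p | (x, t.2.1) ∈ closedBall (0 : Eu p × Eu q) r ∧
        A.ψ t.1 (x, t.2.1) ∈ A.ψ j '' closedBall 0 r}).Finite := by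
    intro j
    have hc : Continuous fun x : Eu p => (x, t.2.1) := continuous_id.prodMk continuous_const
    have hC : IsCompact {x : Eu p | (x, t.2.1) ∈ closedBall (0 : Eu p × Eu q) r ∧
        A.ψ t.1 (x, t.2.1) ∈ A.ψ j '' closedBall 0 r} :=
      (isCompact_closedBall (0 : Eu p) r).of_isClosed_subset
        ((isClosed_closedBall.preimage hc).inter
          (((isCompact_closedBall 0 r).image (A.ψ_smooth j).continuous).isClosed.preimage
            ((A.ψ_smooth t.1).continuous.comp hc)))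
        fun x hx => (mem_closedBall_prod.1 hx.1).1
    obtain ⟨s, -, hs⟩ := hC.elim_nhds_subcover
      (fun x => {x' | A.tri j (A.gam t x') = A.tri j (A.gam t x)}) (by
        rintro x ⟨hx, w, hw, hwx⟩
        have hb := mem_ball_prod.1 (closedBall_subset_ball hr hx)
        exact tri_ev hb.2 hb.1 (hwx ▸ (ψ_mem j (closedBall_subset_ball hr hw)).2))
    refine (s.finite_toSet.image fun x => A.tri j (A.gam t x)).subset ?_
    rintro _ ⟨x, hx, rfl⟩
    obtain ⟨x₀, hx₀, h⟩ := Set.mem_iUnion₂.1 (hs hx)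
    exact ⟨x₀, hx₀, Eq.symm h⟩
  refine (Set.finite_iUnion key).subset ?_
  rintro t' ⟨z, ⟨x, hx, rfl⟩, hz'⟩
  refine Set.mem_iUnion.2 ⟨t'.1, x, ⟨hx, ?_⟩, tri_eq (kplq_subset hr t' hz')⟩
  obtain ⟨x', hx', h⟩ := hz'
  exact ⟨_, hx', congrArg Prod.fst h⟩

end Atl

end Pool.Agent.P.MP_e0a138_an.AD
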