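import Pool.Agent.P.MP_e0a138_an.GE11

set_option autoImplicit false
set_option linter.unusedSectionVars false
set_option linter.unusedVariables false

open MeasureTheory Filter Topology Metric Complex
open scoped ENNReal NNReal ContDiff InnerProductSpace ComplexConjugate

noncomputable section
namespace Pool.Agent.P.MP_e0a138_an.AD

variable {N p q k : ℕ} {W : Type} [NormedAddCommGroup W] [InnerProductSpace ℂ W]
  [FiniteDimensional ℂ W] [CompleteSpace W]
variable {A : Atl N p q k}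

theorem exists_alpha {T : Type} (S : ℕ → Finset T) (hS : Monotone S) : ∃ α : ℕ → T → ℝ,
    (∀ n t, 0 ≤ α n t ∧ α n t ≤ 1) ∧ (∀ n t, α n t ≠ 0 → t ∈ S n) ∧
    (∀ m t, t ∈ S m → Tendsto (fun n => α n t) atTop (𝓝 1)) ∧
    ∀ n t t', (∀ m, t ∈ S m → t' ∈ S (m + 1)) → (∀ m, t' ∈ S m → t ∈ S (m + 1)) →
      |α n t - α n t'| ≤ 1 / (n + 1 : ℝ) := by
  classical
  let cnt : ℕ → T → ℕ := fun n t => ((Finset.range (n + 1)).filter fun m => t ∈ S m).card
  have hle : ∀ n t, cnt n t ≤ n + 1 := fun n t =>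
    (Finset.card_filter_le _ _).trans (Finset.card_range _).le
  have hstep : ∀ n t t', (∀ m, t ∈ S m → t' ∈ S (m + 1)) → cnt n t ≤ cnt n t' + 1 := by
    intro n t t' h
    have h1 : ((Finset.range n).filter fun m => t ∈ S m).card ≤ cnt n t' := by
      refine Finset.card_le_card_of_injOn (fun m => m + 1) ?_ ?_
      · intro m hm
        simp only [Finset.coe_filter, Finset.mem_range, Set.mem_ofPred_eq] at hm ⊢
        exact ⟨by omega, h m hm.2⟩
      · intro a _ b _ hab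
        simpa using hab
    have h2 : cnt n t ≤ ((Finset.range n).filter fun m => t ∈ S m).card + 1 := by
      simp only [cnt, Finset.range_add_one, Finset.filter_insert]
      split_ifs
      · exact Finset.card_insert_le _ _
      · omega
    omega
  have hlow : ∀ m t, t ∈ S m → ∀ n, n + 1 ≤ cnt n t + m := by
    intro m t ht n
    have h1 : (Finset.Ico m (n + 1)).card ≤ cnt n t := by
      refine Finset.card_le_card fun j hj => ?_
      rw [Finset.mem_Ico] at hj
      exact Finset.mem_filter.2 ⟨Finset.mem_range.2 hj.2, hS hj.1 ht⟩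
    rw [Nat.card_Ico] at h1
    omega
  have hpos : ∀ n : ℕ, (0 : ℝ) < n + 1 := fun n => by positivity
  refine ⟨fun n t => (cnt n t : ℝ) / (n + 1), fun n t => ⟨by positivity, ?_⟩, ?_, ?_, ?_⟩
  · rw [div_le_one (hpos n)]
    exact_mod_cast hle n t
  · intro n t h
    have h1 : cnt n t ≠ 0 := fun h0 => h (by simp [h0])
    obtain ⟨m, hm⟩ := Finset.card_ne_zero.1 h1
    rw [Finset.mem_filter, Finset.mem_range] at hm
    exact hS (by omega : m ≤ n) hm.2
  · intro m t ht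
    have h0 : Tendsto (fun n : ℕ => 1 - (m : ℝ) * (1 / (n + 1 : ℝ))) atTop (𝓝 1) := by
      simpa using (tendsto_one_div_add_atTop_nhds_zero_nat.const_mul (m : ℝ)).const_sub 1
    refine tendsto_of_tendsto_of_tendsto_of_le_of_le h0 tendsto_const_nhds (fun n => ?_)
      (fun n => ?_)
    · have h1 : ((n : ℝ) + 1) ≤ cnt n t + m := by exact_mod_cast hlow m t ht n
      show 1 - (m : ℝ) * (1 / (n + 1 : ℝ)) ≤ (cnt n t : ℝ) / (n + 1)
      rw [le_div_iff₀ (hpos n), sub_mul, mul_assoc, one_div, inv_mul_cancel₀ (hpos n).ne']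
      linarith
    · show (cnt n t : ℝ) / (n + 1) ≤ 1
      rw [div_le_one (hpos n)]
      exact_mod_cast hle n t
  · intro n t t' h h'
    have h1 : (cnt n t : ℝ) ≤ cnt n t' + 1 := by exact_mod_cast hstep n t t' h
    have h2 : (cnt n t' : ℝ) ≤ cnt n t + 1 := by exact_mod_cast hstep n t' t h'
    show |(cnt n t : ℝ) / (n + 1) - (cnt n t' : ℝ) / (n + 1)| ≤ 1 / (n + 1 : ℝ)
    rw [← sub_div, abs_div, abs_of_pos (hpos n)]
    exact div_le_div_of_nonneg_right (abs_le.2 ⟨by linarith, by linarith⟩) (hpos n).le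

namespace Atl

theorem cut_smooth (α : Tr q k → ℝ) {t : Tr q k} (ht : t.2.1 ∈ ball (0 : Eu q) 1) {x : Eu p}
    (hx : x ∈ ball (0 : Eu p) 1) :
    (fun x' => ∑ j, A.χ j (A.gam t x').1 ^ 2 * α (A.tri j (A.gam t x'))) =ᶠ[𝓝 x]
      fun x' => ∑ j, A.χ j (A.ψ t.1 (x', t.2.1)) ^ 2 * α (A.tri j (A.gam t x)) := by
  obtain ⟨r, -, hr, hχ⟩ := A.exists_r
  have hc : Continuous fun x : Eu p => A.ψ t.1 (x, t.2.1) :=
    (A.ψ_smooth t.1).continuous.comp (continuous_id.prodMk continuous_const)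
  have key : ∀ j, ∀ᶠ x' in 𝓝 x, A.χ j (A.gam t x').1 ^ 2 * α (A.tri j (A.gam t x')) =
      A.χ j (A.ψ t.1 (x', t.2.1)) ^ 2 * α (A.tri j (A.gam t x)) := by
    intro j
    by_cases hj : A.ψ t.1 (x, t.2.1) ∈ A.U j
    · filter_upwards [tri_ev ht hx hj] with x' h
      rw [h]; rfl
    · have h1 : A.ψ t.1 (x, t.2.1) ∈ (A.ψ j '' closedBall 0 r)ᶜ := by
        rintro ⟨w, hw, h⟩
        exact hj (h ▸ (ψ_mem j (closedBall_subset_ball hr hw)).2)
      have h2 := hc.continuousAt.preimage_mem_nhds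
        (((isCompact_closedBall 0 r).image
          (A.ψ_smooth j).continuous).isClosed.isOpen_compl.mem_nhds h1)
      filter_upwards [h2, isOpen_ball.mem_nhds hx] with x' h hb
      have h3 : A.χ j (A.ψ t.1 (x', t.2.1)) = 0 :=
        hχ j _ (ψ_mem t.1 (mem_ball_prod.2 ⟨hb, ht⟩)).1 h
      have h4 : A.χ j (A.gam t x').1 = 0 := h3
      simp [h3, h4]
  filter_upwards [eventually_all.2 key] with x' h
  exact Finset.sum_congr rfl fun j _ => h j

theorem cut_grad (A : Atl N p q k) {r : ℝ} (hr : r < 1) : ∃ C : ℝ, 0 ≤ C ∧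
    ∀ (i : Fin k) (x : Eu p) (y : Eu q) (c : Fin k → ℝ) (c₀ d : ℝ),
      (x, y) ∈ closedBall (0 : Eu p × Eu q) r → 0 ≤ d →
      (∀ j, A.χ j (A.ψ i (x, y)) ≠ 0 → |c j - c₀| ≤ d) →
      ‖fderiv ℝ (fun x' => ∑ j, A.χ j (A.ψ i (x', y)) ^ 2 * c j) x‖ ≤ C * d := by
  have hs : ∀ i j, ContDiff ℝ ∞ fun z => A.χ j (A.ψ i z) ^ 2 := fun i j =>
    ((A.χ_smooth j).comp (A.ψ_smooth i)).pow 2
  have hb : ∀ i j, ∃ C : ℝ, ∀ z ∈ closedBall (0 : Eu p × Eu q) r,
      ‖fderiv ℝ (fun z => A.χ j (A.ψ i z) ^ 2) z‖ ≤ C := fun i j =>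
    (isCompact_closedBall 0 r).exists_bound_of_continuousOn
      ((hs i j).continuous_fderiv (by simp)).continuousOn
  choose C hC using hb
  refine ⟨∑ i, ∑ j, |C i j|, by positivity, fun i x y c c₀ d hxy hd hc => ?_⟩
  have hball := mem_ball_prod.1 (closedBall_subset_ball hr hxy)
  have hin : HasFDerivAt (fun x' : Eu p => (x', y)) (ContinuousLinearMap.inl ℝ (Eu p) (Eu q)) x :=
    hasFDerivAt_prodMk_left x y
  have hd1 : ∀ j, HasFDerivAt (fun x' => A.χ j (A.ψ i (x', y)) ^ 2)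
      (fderiv ℝ (fun z => A.χ j (A.ψ i z) ^ 2) (x, y) ∘L ContinuousLinearMap.inl ℝ _ _) x :=
    fun j => HasFDerivAt.comp (g := fun z => A.χ j (A.ψ i z) ^ 2) (f := fun x' : Eu p => (x', y)) x
      (((hs i j).differentiable (by simp)) (x, y)).hasFDerivAt hin
  have hev : (fun x' => ∑ j, A.χ j (A.ψ i (x', y)) ^ 2 * c j) =ᶠ[𝓝 x]
      fun x' => ∑ j, A.χ j (A.ψ i (x', y)) ^ 2 * (c j - c₀) + c₀ := by
    filter_upwards [isOpen_ball.mem_nhds hball.1] with x' hx'
    have h1 := A.χ_sum _ (ψ_mem i (mem_ball_prod.2 ⟨hx', hball.2⟩)).1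
    simp only [mul_sub, Finset.sum_sub_distrib, ← Finset.sum_mul, h1]
    ring
  have hd2 := (HasFDerivAt.fun_sum (u := Finset.univ)
    fun j _ => (hd1 j).mul_const (c j - c₀)).add_const c₀
  rw [hev.fderiv_eq, hd2.fderiv]
  have hterm : ∀ j, ‖(c j - c₀) • (fderiv ℝ (fun z => A.χ j (A.ψ i z) ^ 2) (x, y) ∘L
      ContinuousLinearMap.inl ℝ (Eu p) (Eu q))‖ ≤ |C i j| * d := by
    intro j
    by_cases hj : A.χ j (A.ψ i (x, y)) = 0
    · have h1 : HasFDerivAt (fun z => A.χ j (A.ψ i z))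
          (fderiv ℝ (fun z => A.χ j (A.ψ i z)) (x, y)) (x, y) :=
        ((((A.χ_smooth j).comp (A.ψ_smooth i)).differentiable (by simp)) (x, y)).hasFDerivAt
      have h2 : fderiv ℝ (fun z => A.χ j (A.ψ i z) ^ 2) (x, y) = 0 := by
        have h3 := (h1.pow 2).fderiv
        simp only [hj] at h3
        simpa using h3
      rw [h2]
      simp only [ContinuousLinearMap.zero_comp, smul_zero, norm_zero]
      positivity
    · rw [norm_smul, mul_comm]
      refine mul_le_mul ?_ (hc j hj) (norm_nonneg _) (abs_nonneg _)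
      refine (ContinuousLinearMap.opNorm_comp_le _ _).trans ?_
      refine (mul_le_of_le_one_right (norm_nonneg _)
        (ContinuousLinearMap.norm_inl_le_one ℝ _ _)).trans ?_
      exact (hC i j _ hxy).trans (le_abs_self _)
  refine (norm_sum_le _ _).trans ((Finset.sum_le_sum fun j _ => hterm j).trans ?_)
  rw [← Finset.sum_mul]
  refine mul_le_mul_of_nonneg_right ?_ hd
  exact Finset.single_le_sum (f := fun i => ∑ j, |C i j|) (fun i _ => by positivity)
    (Finset.mem_univ i)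

end Atl

end Pool.Agent.P.MP_e0a138_an.AD
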