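import Pool.Agent.P.MP_e0a138_an.GE7
import Pool.Agent.P.MP_e0a138_an.GE13a

set_option autoImplicit false
set_option linter.unusedSectionVars false
set_option linter.unusedVariables false

open MeasureTheory Filter Topology Metric Complex
open scoped ENNReal NNReal ContDiff InnerProductSpace ComplexConjugate

noncomputable section
namespace Pool.Agent.P.MP_e0a138_an.AD

variable {N p q k : ℕ} {W : Type} [NormedAddCommGroup W] [InnerProductSpace ℂ W]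
  [FiniteDimensional ℂ W] [CompleteSpace W]
variable {A : Atl N p q k} {ε : Eu N →L[ℝ] W →L[ℂ] W}

namespace Atl
variable {DF DH : (Eu N → W) → Eu N → W} {μ : Measure (Eu N)} {l : Measure (Eu N × Eu N)}
  {t₀ : Tr q k}

theorem sec_ae (h0 : t₀.2.1 ∈ ball (0 : Eu q) 1) (hl : A.IsLeaf t₀ l) {t : Tr q k}
    (ht : A.Reach t₀ t) {u : Eu N → W} (hu : ContinuousOn u A.M) :
    A.sec l t u =ᵐ[l] (A.plq t).indicator fun z => u z.1 := by
  obtain ⟨c, -, hc⟩ := hl.2 t ht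
  exact toL_ae (memLp_plq (ht.mem h0) hc hu)

theorem ind_lft (DF : (Eu N → W) → Eu N → W) (t : Tr q k) (u : Eu N → W) :
    ((A.plq t).indicator fun z => DF u z.1 + I • cl ε z.2 (u z.1)) =
      (A.plq t).indicator fun z => A.lft ε DF t u z.1 := by
  funext z
  by_cases hz : z ∈ A.plq t
  · rw [Set.indicator_of_mem hz, Set.indicator_of_mem hz, lft, ← (plq_fst hz).2.2.1]
  · rw [Set.indicator_of_notMem hz, Set.indicator_of_notMem hz]

theorem Dir.mem_grL (hD : A.Dir ε μ DF DH) (hε : IsCAR ε) (h0 : t₀.2.1 ∈ ball (0 : Eu q) 1)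
    (hl : A.IsLeaf t₀ l) {t : Tr q k} (ht : A.Reach t₀ t) {u : Eu N → W} (hu : A.Form ε u)
    (hc : A.Loc t.1 u) : (A.sec l t u, A.sec l t (A.lft ε DF t u)) ∈ A.grL ε DF t₀ l := by
  refine ⟨t, u, ht, hu, hc, sec_ae h0 hl ht hu.1.continuousOn, ?_⟩
  rw [ind_lft]
  exact sec_ae h0 hl ht (hD.lft hε t hu hc).1.1.continuousOn

theorem Dir.of_mem_grL (hD : A.Dir ε μ DF DH) (hε : IsCAR ε) (h0 : t₀.2.1 ∈ ball (0 : Eu q) 1)
    (hl : A.IsLeaf t₀ l) {g : Lp W 2 l × Lp W 2 l} (hg : g ∈ A.grL ε DF t₀ l) :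
    ∃ t u, A.Reach t₀ t ∧ A.Form ε u ∧ A.Loc t.1 u ∧ g.1 = A.sec l t u ∧
      g.2 = A.sec l t (A.lft ε DF t u) := by
  obtain ⟨t, u, ht, hu, hc, h1, h2⟩ := hg
  rw [ind_lft] at h2
  exact ⟨t, u, ht, hu, hc, Lp.ext (h1.trans (sec_ae h0 hl ht hu.1.continuousOn).symm),
    Lp.ext (h2.trans (sec_ae h0 hl ht (hD.lft hε t hu hc).1.1.continuousOn).symm)⟩

theorem GE17a_val {t : Tr q k} {u : Eu N → W} (hu : A.Form ε u) {v : Lp W 2 l}
    (hv : v =ᵐ[l] (A.plq t).indicator fun z => u z.1) : ∀ᵐ z ∂l, A.Pi ε z.1 (v z) = v z := by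
  filter_upwards [hv] with z hz
  rw [hz]
  by_cases h : z ∈ A.plq t
  · rw [Set.indicator_of_mem h]
    exact hu.2 _ (plq_fst h).1
  · rw [Set.indicator_of_notMem h, map_zero]

theorem Dir.grL_val (hD : A.Dir ε μ DF DH) (hε : IsCAR ε) (h0 : t₀.2.1 ∈ ball (0 : Eu q) 1)
    (hl : A.IsLeaf t₀ l) : ∀ g ∈ A.grL ε DF t₀ l, (∀ᵐ z ∂l, A.Pi ε z.1 (g.1 z) = g.1 z) ∧
      ∀ᵐ z ∂l, A.Pi ε z.1 (g.2 z) = g.2 z := by
  rintro g ⟨t, u, ht, hu, hc, h1, h2⟩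
  rw [ind_lft] at h2
  exact ⟨GE17a_val hu h1, GE17a_val (hD.lft hε t hu hc).1 h2⟩

theorem Dir.inK_valL (hD : A.Dir ε μ DF DH) (hε : IsCAR ε) (h0 : t₀.2.1 ∈ ball (0 : Eu q) 1)
    (hl : A.IsLeaf t₀ l) {v : Lp W 2 l} (hv : InK (A.grL ε DF t₀ l) v) :
    ∀ᵐ z ∂l, A.Pi ε z.1 (v z) = v z := by
  exact proj_val (P := fun z : Eu N × Eu N => A.Pi ε z.1)
    (hl.aesm h0 (smooth_Pi A hε).continuousOn)
    (Eventually.of_forall fun z => ⟨Pi_idem _, Pi_star _⟩)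
    (fun g hg => (hD.grL_val hε h0 hl g hg).1) hv

end Atl

end Pool.Agent.P.MP_e0a138_an.AD
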