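import Pool.Agent.P.MP_e0a138_an.GE7
import Pool.Agent.P.MP_e0a138_an.AN9a

set_option autoImplicit false
set_option linter.unusedSectionVars false
set_option linter.unusedVariables false

open MeasureTheory Filter Topology Metric Complex
open scoped ENNReal NNReal ContDiff InnerProductSpace ComplexConjugate

noncomputable section
namespace Pool.Agent.P.MP_e0a138_an.AD

variable {N p q k : ℕ} {W : Type} [NormedAddCommGroup W] [InnerProductSpace ℂ W]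
  [FiniteDimensional ℂ W] [CompleteSpace W]
variable {A : Atl N p q k} {ε : Eu N →L[ℝ] W →L[ℂ] W}

namespace Atl
variable {μ : Measure (Eu N)}

theorem pk_form {β : Eu q → ℝ} (hβ : ContDiff ℝ ∞ β) (h : ℝ) (t : Tr q k) (L : Eu q →L[ℝ] Eu q)
    {u : Eu N → W} (hu : A.Form ε u) : A.Form ε (A.pk β h t L u) :=
  Form.smul (g := fun m => ph β h t.2.1 t.2.2 L (A.φ t.1 m).2)
    ((contDiff_ph hβ h t.2.1 t.2.2 L).comp (A.φ_smooth t.1).snd).contDiffOn hu

theorem pk_continuousOn {β : Eu q → ℝ} (hβ : Continuous β) (h : ℝ) (t : Tr q k)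
    (L : Eu q →L[ℝ] Eu q) {u : Eu N → W} (hu : ContinuousOn u A.M) :
    ContinuousOn (A.pk β h t L u) A.M :=
  (((contDiff_ph (contDiff_zero.2 hβ) h t.2.1 t.2.2 L).continuous.comp
    (A.φ_smooth t.1).continuous.snd).continuousOn).smul hu

theorem pk_bound (hμ : A.IsVol μ) {β : Eu q → ℝ} (hβ : Continuous β) (hc : HasCompactSupport β)
    (i : Fin k) (e : Eu q ≃L[ℝ] Eu q) : ∃ C : ℝ≥0, ∀ (u : Eu N → W) (C₀ : ℝ≥0) (h : ℝ)
      (y η : Eu q), 0 < h → (∀ m ∈ A.M, ‖u m‖ ≤ C₀) → (∀ m ∈ A.M, m ∉ A.U i → u m = 0) →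
      ∫⁻ m, ‖A.pk β h (i, y, η) (e.symm : Eu q →L[ℝ] Eu q) u m‖ₑ ^ 2 ∂μ ≤ C * C₀ ^ 2 := by
  obtain ⟨R, hR⟩ := A.rho_bdd i
  have hV : (volume (ball (0 : Eu p) 1)) ≠ ⊤ := measure_ball_lt_top.ne
  refine ⟨R * ((volume (ball (0 : Eu p) 1)).toNNReal * (jac e * (∫ t, β t ^ 2).toNNReal)), ?_⟩
  intro u C₀ h y η hh hu h0
  have hm : Measurable fun Y => ‖bw β h y (e.symm : Eu q →L[ℝ] Eu q) Y‖ₑ ^ 2 :=
    (contDiff_bw (contDiff_zero.2 hβ) h y _).continuous.measurable.enorm.pow_const 2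
  have hm2 : Measurable fun z : Eu p × Eu q =>
      ‖bw β h y (e.symm : Eu q →L[ℝ] Eu q) z.2‖ₑ ^ 2 := hm.comp measurable_snd
  rw [hμ.lintegral_loc i (fun m hm hU => by simp [pk, h0 m hm hU]),
    lintegral_wm measurableSet_ball (A.rho_continuous i).continuousOn]
  calc ∫⁻ z in ball (0 : Eu p × Eu q) 1, ENNReal.ofReal (A.rho i z) *
        ‖A.pk β h (i, y, η) (e.symm : Eu q →L[ℝ] Eu q) u (A.ψ i z)‖ₑ ^ 2
      ≤ ∫⁻ z in ball (0 : Eu p × Eu q) 1,
          (R * C₀ ^ 2) * ‖bw β h y (e.symm : Eu q →L[ℝ] Eu q) z.2‖ₑ ^ 2 := by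
        refine setLIntegral_mono' measurableSet_ball fun z hz => ?_
        rw [mul_assoc]
        refine mul_le_mul' (ENNReal.ofReal_le_coe.2 (hR z hz)) ?_
        rw [← mul_pow]
        refine pow_le_pow_left' ?_ 2
        have h1 : ‖ph β h y η (e.symm : Eu q →L[ℝ] Eu q) z.2‖ₑ =
            ‖bw β h y (e.symm : Eu q →L[ℝ] Eu q) z.2‖ₑ := by
          rw [← ofReal_norm, ← ofReal_norm, norm_ph, Real.norm_eq_abs]
        have h2 : ‖u (A.ψ i z)‖ₑ ≤ C₀ := by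
          rw [← ofReal_norm]
          exact ENNReal.ofReal_le_coe.2 (hu _ (A.ψ_mem i hz).1)
        simp only [pk, A.left_inv i z hz, enorm_smul, h1]
        rw [mul_comm]
        exact mul_le_mul' h2 le_rfl
    _ ≤ ∫⁻ z in ball (0 : Eu p) 1 ×ˢ (Set.univ : Set (Eu q)),
          (R * C₀ ^ 2) * ‖bw β h y (e.symm : Eu q →L[ℝ] Eu q) z.2‖ₑ ^ 2 :=
        lintegral_mono_set fun z hz => ⟨(mem_ball_prod.1 hz).1, trivial⟩
    _ = (R * C₀ ^ 2) * (volume (ball (0 : Eu p) 1) * (jac e * ∫⁻ t, ‖β t‖ₑ ^ 2)) := by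
        rw [lintegral_const_mul _ hm2, Measure.volume_eq_prod,
          ← Measure.prod_restrict, Measure.restrict_univ,
          lintegral_prod _ hm2.aemeasurable]
        simp only [integral_bw_sq hβ hh y e, lintegral_const, Measure.restrict_apply_univ]
        rw [mul_comm (volume _)]
    _ = _ := by
        rw [lintegral_window hβ hc]
        push_cast
        rw [ENNReal.coe_toNNReal hV, ENNReal.ofReal]
        ring

theorem pk_norm_bound (hμ : A.IsVol μ) {β : Eu q → ℝ} (hβ : Continuous β)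
    (hc : HasCompactSupport β) (t : Tr q k) (e : Eu q ≃L[ℝ] Eu q) {u : Eu N → W}
    (hu : ContinuousOn u A.M) (hl : A.Loc t.1 u) : ∃ C : ℝ, ∀ h : ℝ, 0 < h →
      ‖toL μ (A.pk β h t (e.symm : Eu q →L[ℝ] Eu q) u)‖ ≤ C := by
  obtain ⟨C, hC⟩ := pk_bound (W := W) hμ hβ hc t.1 e
  obtain ⟨B, hB⟩ := A.isCompact_M.exists_bound_of_continuousOn hu
  obtain ⟨r, hr, hl⟩ := hl
  refine ⟨√(C * B.toNNReal ^ 2 : ℝ≥0), fun h hh => ?_⟩
  have h1 := hC u B.toNNReal h t.2.1 t.2.2 hh (fun m hm => (hB m hm).trans (Real.le_coe_toNNReal B))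
    (chart_zero hr hl).2
  have h2 := enorm_sq_eq_of_ae
    (toL_ae (hμ.memLp (pk_continuousOn hβ h t (e.symm : Eu q →L[ℝ] Eu q) hu)))
  refine Real.le_sqrt_of_sq_le ?_
  have h3 := h2.trans_le h1
  rw [enorm_eq_nnnorm] at h3
  have h4 : ‖toL μ (A.pk β h t (e.symm : Eu q →L[ℝ] Eu q) u)‖₊ ^ 2 ≤ C * B.toNNReal ^ 2 := by
    exact_mod_cast h3
  exact_mod_cast h4

theorem pk_vanish {β : Eu q → ℝ} (hc : HasCompactSupport β) {r : ℝ} (hr : r < 1) :
    ∀ᶠ h in 𝓝[>] (0 : ℝ), ∀ (i : Fin k) (y η : Eu q) (u : Eu N → W), y ∉ ball (0 : Eu q) 1 →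
      (∀ m ∈ A.M, m ∉ A.ψ i '' closedBall 0 r → u m = 0) →
      ∀ m ∈ A.M, A.pk β h (i, y, η) (ContinuousLinearMap.id ℝ _) u m = 0 := by
  obtain ⟨R, hR0, hR⟩ := hc.isCompact.isBounded.subset_ball_lt 0 0
  have hev : ∀ᶠ h in 𝓝[>] (0 : ℝ), sc h < (1 - r) / R :=
    sc_tendsto.eventually (gt_mem_nhds (div_pos (by linarith) hR0))
  filter_upwards [hev, self_mem_nhdsWithin] with h h1 hh i y η u hy h0 m hm
  by_cases hm' : m ∈ A.ψ i '' closedBall 0 r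
  · obtain ⟨z, hz, rfl⟩ := hm'
    have hz1 : z ∈ ball (0 : Eu p × Eu q) 1 := closedBall_subset_ball hr hz
    have hs := sc_pos hh
    have h2 : ‖z.2‖ ≤ r := mem_closedBall_zero_iff.1 (mem_closedBall_prod.1 hz).2
    have h3 : 1 ≤ ‖y‖ := not_lt.1 fun h => hy (mem_ball_zero_iff.2 h)
    have h4 : 1 - r ≤ ‖z.2 - y‖ := by
      have := norm_sub_norm_le y z.2
      rw [norm_sub_rev] at this
      linarith
    have h5 : β ((sc h)⁻¹ • (z.2 - y)) = 0 := by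
      refine image_eq_zero_of_notMem_tsupport fun hmem => ?_
      have h6 := mem_ball_zero_iff.1 (hR hmem)
      rw [norm_smul, norm_inv, Real.norm_of_nonneg hs.le, inv_mul_lt_iff₀ hs] at h6
      rw [lt_div_iff₀ hR0] at h1
      linarith
    simp [pk, A.left_inv i z hz1, ph, bw, h5]
  · simp [pk, h0 m hm hm']

end Atl

end Pool.Agent.P.MP_e0a138_an.AD
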