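import Pool.Agent.P.MP_e0a138_an.GE18

set_option autoImplicit false
set_option linter.unusedSectionVars false
set_option linter.unusedVariables false

open MeasureTheory Filter Topology Metric Complex
open scoped ENNReal NNReal ContDiff InnerProductSpace ComplexConjugate

noncomputable section
namespace Pool.Agent.P.MP_e0a138_an.AD

variable {N p q k : ℕ} {W : Type} [NormedAddCommGroup W] [InnerProductSpace ℂ W]
  [FiniteDimensional ℂ W] [CompleteSpace W]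
variable {A : Atl N p q k} {ε : Eu N →L[ℝ] W →L[ℂ] W}

theorem fderiv_ph {β : Eu q → ℝ} (hβ : ContDiff ℝ ∞ β) {h : ℝ} (hh : 0 < h) (y η : Eu q)
    (L : Eu q →L[ℝ] Eu q) (Y w : Eu q) : (h : ℂ) * fderiv ℝ (ph β h y η L) Y w =
      I * (⟪η, w⟫_ℝ : ℝ) * ph β h y η L Y +
        ((h / sc h : ℝ) : ℂ) * ph (fun t => fderiv ℝ β t (L w)) h y η L Y := by
  have h0 : HasFDerivAt (fun Y : Eu q => Y - y) (ContinuousLinearMap.id ℝ _) Y :=
    (hasFDerivAt_id Y).sub_const y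
  have h1 := ((L.hasFDerivAt.comp Y h0).const_smul (sc h)⁻¹)
  have h2 := ((hβ.differentiable (by simp) _).hasFDerivAt.comp Y h1).const_mul (√(sc h ^ q))⁻¹
  have h3 := ofRealCLM.hasFDerivAt.comp Y h2
  have h4 := ofRealCLM.hasFDerivAt.comp Y
    (((innerSL ℝ η).hasFDerivAt.comp Y h0).mul_const h⁻¹)
  have h5 := h3.mul (h4.const_mul I).cexp
  have h6 : fderiv ℝ (ph β h y η L) Y = _ := HasFDerivAt.fderiv (h5.congr_of_eventuallyEq
    (Eventually.of_forall fun Y => by simp [ph, bw, div_eq_mul_inv]))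
  rw [h6]
  have hc : (h : ℂ) ≠ 0 := ofReal_ne_zero.2 hh.ne'
  simp [ph, bw, div_eq_mul_inv]
  field_simp

namespace Atl
variable {DF DH : (Eu N → W) → Eu N → W} {μ : Measure (Eu N)}

theorem Dir.pk_eq (hD : A.Dir ε μ DF DH) {β : Eu q → ℝ} (hβ : ContDiff ℝ ∞ β) {h : ℝ}
    (hh : 0 < h) (t : Tr q k) (L : Eu q →L[ℝ] Eu q) {u : Eu N → W} (hu : A.Form ε u)
    (hl : A.Loc t.1 u) : ∀ m ∈ A.M, Dh DF DH h (A.pk β h t L u) m =
      A.pk β h t L (A.lft ε DF t u) m + (h : ℂ) • A.pk β h t L (DH u) m +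
        ((h / sc h : ℝ) : ℂ) • ∑ l, A.pk (fun s => fderiv ℝ β s (L (bs l))) h t L
          (fun m => cl ε (A.gr t.1 (.inr l) m) (u m)) m := by
  intro m hm
  have hp := pk_form hβ h t L hu
  by_cases hU : m ∈ A.U t.1
  swap
  · have z0 : ∀ {v : Eu N → W}, A.Loc t.1 v → v m = 0 := fun ⟨r, hr, hv⟩ =>
      (chart_zero hr hv).2 m hm hU
    have hl' : A.Loc t.1 (A.pk β h t L u) := by
      obtain ⟨r, hr, hv⟩ := hl
      exact ⟨r, hr, fun n h1 h2 => by simp [pk, hv n h1 h2]⟩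
    simp [Dh, pk, Atl.lft, z0 hl, z0 (hD.opF.loc hu hl), z0 (hD.opH.loc hu hl),
      z0 (hD.opF.loc hp hl'), z0 (hD.opH.loc hp hl')]
  obtain ⟨hz, hm'⟩ := φ_mem hm hU
  obtain ⟨z, hzz⟩ : ∃ z, z = A.φ t.1 m := ⟨_, rfl⟩
  rw [← hzz] at hz hm'
  subst hm'
  obtain ⟨ZF, -, hF⟩ := hD.opF t.1
  obtain ⟨ZH, -, hH⟩ := hD.opH t.1
  have hn : ball (0 : Eu p × Eu q) 1 ∈ 𝓝 z := isOpen_ball.mem_nhds hz
  have e1 : (fun z => A.pk β h t L u (A.ψ t.1 z)) =ᶠ[𝓝 z]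
      fun z => ph β h t.2.1 t.2.2 L z.2 • u (A.ψ t.1 z) := by
    filter_upwards [hn] with x hx
    simp only [pk, A.left_inv _ _ hx]
  have d0 := (contDiff_ph hβ h t.2.1 t.2.2 L).differentiable (by simp) z.2
  have d1 : HasFDerivAt (fun z : Eu p × Eu q => ph β h t.2.1 t.2.2 L z.2) _ z :=
    d0.hasFDerivAt.comp z hasFDerivAt_snd
  have d2 : DifferentiableAt ℝ (fun z => u (A.ψ t.1 z)) z :=
    ((hu.chart t.1).1.contDiffAt hn).differentiableAt (by simp)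
  have e2 : DF (A.pk β h t L u) (A.ψ t.1 z) = ph β h t.2.1 t.2.2 L z.2 • DF u (A.ψ t.1 z) := by
    rw [hF _ hp z hz, hF _ hu z hz, op_congr e1, op_smul d1.differentiableAt d2, d1.fderiv]
    simp [Fintype.sum_sum_type, cb, sy_F_inr _ _ _ hz]
  have e3 : DH (A.pk β h t L u) (A.ψ t.1 z) = ph β h t.2.1 t.2.2 L z.2 • DH u (A.ψ t.1 z) +
      ∑ l, fderiv ℝ (ph β h t.2.1 t.2.2 L) z.2 (bs l) •
        cl ε (A.gr t.1 (.inr l) (A.ψ t.1 z)) (u (A.ψ t.1 z)) := by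
    rw [hH _ hp z hz, hH _ hu z hz, op_congr e1, op_smul d1.differentiableAt d2, d1.fderiv]
    simp [Fintype.sum_sum_type, cb, sy_H_inr _ _ _ hz]
  have e4 : cl ε (A.cov t.1 t.2.2 (A.ψ t.1 z)) (u (A.ψ t.1 z)) = ∑ l, ((⟪t.2.2, bs l⟫_ℝ : ℝ) : ℂ) •
      cl ε (A.gr t.1 (.inr l) (A.ψ t.1 z)) (u (A.ψ t.1 z)) := by
    rw [cov_eq_sum, ← clL_apply, map_sum, sum_apply]
    refine Finset.sum_congr rfl fun l _ => ?_
    rw [clL_apply, cl_smul, real_inner_comm]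
    rfl
  simp only [Dh, Pi.add_apply, Pi.smul_apply, e2, e3, pk, Atl.lft, e4, ← hzz, smul_add,
    Finset.smul_sum, smul_smul, fderiv_ph hβ hh, add_smul, Finset.sum_add_distrib]
  have e5 : ∀ l : Fin q, ph β h t.2.1 t.2.2 L z.2 * (I * ((⟪t.2.2, bs l⟫_ℝ : ℝ) : ℂ)) =
      I * ((⟪t.2.2, bs l⟫_ℝ : ℝ) : ℂ) * ph β h t.2.1 t.2.2 L z.2 := fun l => mul_comm _ _
  simp only [e5]
  abel

end Atl

end Pool.Agent.P.MP_e0a138_an.AD
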