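import Pool.Agent.P.MP_e0a138_an.ABase

set_option autoImplicit false
set_option linter.unusedSectionVars false
set_option linter.unusedVariables false

open MeasureTheory Filter Topology Metric Complex
open scoped ENNReal NNReal ContDiff InnerProductSpace ComplexConjugate

noncomputable section
namespace Pool.Agent.P.MP_e0a138_an.AD

variable {N p q k : ℕ} {W : Type} [NormedAddCommGroup W] [InnerProductSpace ℂ W]
  [FiniteDimensional ℂ W] [CompleteSpace W]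
variable {A : Atl N p q k}

namespace Atl

theorem ψ_mem (i : Fin k) {z : Eu p × Eu q} (hz : z ∈ ball (0 : Eu p × Eu q) 1) :
    A.ψ i z ∈ A.M ∧ A.ψ i z ∈ A.U i := by
  have : A.ψ i z ∈ A.M ∩ A.U i := A.image i ▸ Set.mem_image_of_mem _ hz
  exact this

theorem φ_mem {i : Fin k} {m : Eu N} (hm : m ∈ A.M) (hU : m ∈ A.U i) :
    A.φ i m ∈ ball (0 : Eu p × Eu q) 1 ∧ A.ψ i (A.φ i m) = m := by
  have : m ∈ A.ψ i '' ball 0 1 := (A.image i).symm ▸ ⟨hm, hU⟩
  obtain ⟨z, hz, rfl⟩ := this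
  rw [A.left_inv i z hz]
  exact ⟨hz, rfl⟩

theorem mem_U_of_χ {i : Fin k} {m : Eu N} (hm : m ∈ A.M) (h : A.χ i m ≠ 0) : m ∈ A.U i := by
  obtain ⟨r, hr, h1⟩ := A.χ_supp i
  obtain ⟨z, hz, rfl⟩ : m ∈ A.ψ i '' closedBall 0 r := by_contra fun e => h (h1 m hm e)
  exact (ψ_mem i (closedBall_subset_ball hr hz)).2

theorem exists_χ {m : Eu N} (hm : m ∈ A.M) : ∃ i, A.χ i m ≠ 0 := by
  by_contra h
  push Not at h
  have := A.χ_sum m hm
  simp [h] at this

theorem exists_chart {m : Eu N} (hm : m ∈ A.M) :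
    ∃ i, ∃ z ∈ ball (0 : Eu p × Eu q) 1, A.ψ i z = m := by
  obtain ⟨i, hi⟩ := exists_χ hm
  have := φ_mem hm (mem_U_of_χ hm hi)
  exact ⟨i, _, this.1, this.2⟩

theorem exists_r (A : Atl N p q k) : ∃ r : ℝ, 0 < r ∧ r < 1 ∧
    ∀ i, ∀ m ∈ A.M, m ∉ A.ψ i '' closedBall 0 r → A.χ i m = 0 := by
  choose r hr h using A.χ_supp
  have h1 : ∀ᶠ s in 𝓝[<] (1 : ℝ), 0 < s ∧ s < 1 ∧ ∀ i, r i ≤ s :=
    Filter.Eventually.and (nhdsWithin_le_nhds (lt_mem_nhds one_pos))
      (Filter.Eventually.and self_mem_nhdsWithin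
      (eventually_all.2 fun i => nhdsWithin_le_nhds (le_mem_nhds (hr i))))
  obtain ⟨s, h0, h2, h3⟩ := h1.exists
  exact ⟨s, h0, h2, fun i m hm e => h i m hm fun e' =>
    e (Set.image_mono (closedBall_subset_closedBall (h3 i)) e')⟩

theorem isCompact_M (A : Atl N p q k) : IsCompact A.M := by
  obtain ⟨r, -, hr, h⟩ := A.exists_r
  have : ProperSpace (Eu p × Eu q) := FiniteDimensional.proper_real _
  have e : A.M = ⋃ i, A.ψ i '' closedBall 0 r := by
    refine Set.Subset.antisymm (fun m hm => ?_) (Set.iUnion_subset fun i => ?_)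
    · obtain ⟨i, hi⟩ := exists_χ hm
      exact Set.mem_iUnion.2 ⟨i, by_contra fun e => hi (h i m hm e)⟩
    · rintro _ ⟨z, hz, rfl⟩
      exact (ψ_mem i (closedBall_subset_ball hr hz)).1
  rw [e]
  exact isCompact_iUnion fun i => (isCompact_closedBall _ _).image (A.ψ_smooth i).continuous

theorem χ_sq_le {m : Eu N} (hm : m ∈ A.M) (i : Fin k) : A.χ i m ^ 2 ≤ 1 :=
  A.χ_sum m hm ▸ Finset.single_le_sum (f := fun i => A.χ i m ^ 2) (fun _ _ => sq_nonneg _)
    (Finset.mem_univ i)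

theorem injOn_ψ (i : Fin k) : Set.InjOn (A.ψ i) (ball 0 1) := fun z hz w hw e => by
  rw [← A.left_inv i z hz, e, A.left_inv i w hw]

theorem chart_zero {G : Type} [Zero G] {i : Fin k} {r : ℝ} (hr : r < 1) {u : Eu N → G}
    (h : ∀ m ∈ A.M, m ∉ A.ψ i '' closedBall 0 r → u m = 0) :
    (∀ z ∈ ball (0 : Eu p × Eu q) 1, z ∉ closedBall (0 : Eu p × Eu q) r → u (A.ψ i z) = 0) ∧
      ∀ m ∈ A.M, m ∉ A.U i → u m = 0 := by
  refine ⟨fun z hz e => h _ (ψ_mem i hz).1 ?_, fun m hm e => h m hm ?_⟩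
  · rintro ⟨w, hw, e'⟩
    exact e (injOn_ψ i (closedBall_subset_ball hr hw) hz e' ▸ hw)
  · rintro ⟨w, hw, rfl⟩
    exact e (ψ_mem i (closedBall_subset_ball hr hw)).2

end Atl

theorem exists_closedBall_of_cpt {E : Type} [NormedAddCommGroup E] {K : Set E} (hK : IsCompact K)
    (h : K ⊆ ball 0 1) : ∃ r : ℝ, 0 < r ∧ r < 1 ∧ K ⊆ closedBall 0 r := by
  rcases K.eq_empty_or_nonempty with rfl | hne
  · exact ⟨1 / 2, by norm_num, by norm_num, Set.empty_subset _⟩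
  · obtain ⟨x, hx, hm⟩ := hK.exists_isMaxOn hne continuous_norm.continuousOn
    refine ⟨max (1 / 2) ‖x‖, lt_max_of_lt_left (by norm_num),
      max_lt (by norm_num) (mem_ball_zero_iff.1 (h hx)), fun y hy => ?_⟩
    exact mem_closedBall_zero_iff.2 (le_max_of_le_right (hm hy))

end Pool.Agent.P.MP_e0a138_an.AD
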