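import Pool.Agent.P.MP_e0a138_an.GE1
import Pool.Agent.P.MP_e0a138_an.AN12
import Pool.Agent.P.MP_e0a138_an.AL3

set_option autoImplicit false
set_option linter.unusedSectionVars false
set_option linter.unusedVariables false

open MeasureTheory Filter Topology Metric Complex
open scoped ENNReal NNReal ContDiff InnerProductSpace ComplexConjugate

noncomputable section
namespace Pool.Agent.P.MP_e0a138_an.AD

variable {N p q k : ℕ} {W : Type} [NormedAddCommGroup W] [InnerProductSpace ℂ W]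
  [FiniteDimensional ℂ W] [CompleteSpace W]
variable {A : Atl N p q k} {ε : Eu N →L[ℝ] W →L[ℂ] W}

namespace Atl

theorem JL_smooth (A : Atl N p q k) : ContDiff ℝ ∞ A.JL := contDiff_clm_apply_iff.2 A.J_smooth

theorem jd_apply (i : Fin k) (z w : Eu p × Eu q) :
    A.jd i z w = A.JL (A.ψ i z) (fderiv ℝ (A.ψ i) z w) := rfl

theorem jd_smooth (i : Fin k) : ContDiff ℝ ∞ (A.jd i) :=
  (A.JL_smooth.comp (A.ψ_smooth i)).clm_comp ((A.ψ_smooth i).fderiv_right (m := ∞) (by simp))

theorem jd_inj (i : Fin k) {z : Eu p × Eu q} (hz : z ∈ ball (0 : Eu p × Eu q) 1) :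
    Function.Injective (A.jd i z) := fun _ _ h => dψ_inj i hz (A.J_inj _ h)

theorem jd_trans {i j : Fin k} {z : Eu p × Eu q} (hz : z ∈ ball (0 : Eu p × Eu q) 1)
    (hj : A.ψ i z ∈ A.U j) (w : Eu p × Eu q) : A.jd i z w =
      A.jd j (A.φ j (A.ψ i z)) (fderiv ℝ (fun z => A.φ j (A.ψ i z)) z w) := by
  rw [jd_apply, jd_apply, (φ_mem (ψ_mem i hz).1 hj).2, dψ_trans hz hj]

theorem T_eq' (i : Fin k) {z : Eu p × Eu q} (hz : z ∈ ball (0 : Eu p × Eu q) 1) :
    A.T (A.ψ i z) = (A.jd i z).range := Submodule.ext (A.T_eq i z hz)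

theorem F_eq' (i : Fin k) {z : Eu p × Eu q} (hz : z ∈ ball (0 : Eu p × Eu q) 1) :
    A.F (A.ψ i z) = (A.jd i z ∘L ContinuousLinearMap.inl ℝ (Eu p) (Eu q)).range :=
  Submodule.ext (A.F_eq i z hz)

theorem J_surj (m : Eu N) : Function.Surjective (A.JL m) :=
  LinearMap.injective_iff_surjective.1 (show Function.Injective (A.JL m : Eu N →ₗ[ℝ] Eu N) from
    A.J_inj m)

theorem adjJ_inv (m : Eu N) : (ContinuousLinearMap.adjoint (A.JL m)).IsInvertible := by
  have h : Function.Injective (ContinuousLinearMap.adjoint (A.JL m)) := by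
    refine (injective_iff_map_eq_zero _).2 fun v hv => ?_
    obtain ⟨w, rfl⟩ := J_surj (A := A) m v
    have h1 := ContinuousLinearMap.adjoint_inner_left (A.JL m) w (A.JL m w)
    rw [hv, inner_zero_left] at h1
    exact inner_self_eq_zero.1 h1.symm
  exact ⟨(LinearEquiv.ofInjectiveEndo (ContinuousLinearMap.adjoint (A.JL m)).toLinearMap
    h).toContinuousLinearEquiv, ContinuousLinearMap.ext fun _ => rfl⟩

theorem inner_inv (m ξ v : Eu N) :
    ⟪(ContinuousLinearMap.adjoint (A.JL m)).inverse ξ, A.JL m v⟫_ℝ = ⟪ξ, v⟫_ℝ := by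
  rw [← ContinuousLinearMap.adjoint_inner_left, (adjJ_inv m).self_apply_inverse]

theorem inv_smooth (A : Atl N p q k) :
    ContDiff ℝ ∞ fun m => (ContinuousLinearMap.adjoint (A.JL m)).inverse := by
  have hA : ContDiff ℝ ∞ fun m => ContinuousLinearMap.adjoint (A.JL m) := AN12_adj.comp A.JL_smooth
  refine contDiff_iff_contDiffAt.2 fun m => ?_
  obtain ⟨e, he⟩ := adjJ_inv (A := A) m
  have h1 := contDiffAt_map_inverse (n := ∞) e
  rw [he] at h1
  exact h1.comp m hA.contDiffAt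

theorem F_le_T {m : Eu N} (hm : m ∈ A.M) : A.F m ≤ A.T m := by
  obtain ⟨i, z, hz, rfl⟩ := exists_chart hm
  rw [F_eq' i hz, T_eq' i hz]
  rintro _ ⟨x, rfl⟩
  exact ⟨_, rfl⟩

theorem projT_eq {m : Eu N} (hm : m ∈ A.M) (v : Eu N) :
    (A.T m).starProjection v = (A.F m).starProjection v + (A.H m).starProjection v := by
  have hF := F_le_T hm
  have h1 : (A.H m).starProjection v =
      (A.T m).starProjection v - (A.F m).starProjection v := by
    refine Submodule.eq_starProjection_of_mem_of_inner_eq_zero ⟨?_, ?_⟩ fun w hw => ?_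
    · refine (Submodule.mem_orthogonal' _ _).2 fun w hw => ?_
      have a1 := Submodule.starProjection_inner_eq_zero (K := A.T m) v w (hF hw)
      have a2 := Submodule.starProjection_inner_eq_zero (K := A.F m) v w hw
      rw [inner_sub_left] at a1 a2 ⊢
      linarith
    · exact (A.T m).sub_mem (Submodule.starProjection_apply_mem _ _)
        (hF (Submodule.starProjection_apply_mem _ _))
    · have a1 := Submodule.starProjection_inner_eq_zero (K := A.T m) v w hw.2
      have a2 : ⟪(A.F m).starProjection v, w⟫_ℝ = 0 :=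
        (Submodule.mem_orthogonal _ _).1 hw.1 _ (Submodule.starProjection_apply_mem _ _)
      rw [inner_sub_left] at a1
      rw [inner_sub_left, inner_sub_left]
      linarith
  rw [h1]
  abel

theorem sub_projH {m : Eu N} (hm : m ∈ A.M) {v : Eu N} (hv : v ∈ A.T m) :
    v - (A.H m).starProjection v = (A.F m).starProjection v := by
  have h := projT_eq hm v
  rw [(Submodule.starProjection_eq_self_iff).2 hv] at h
  exact sub_eq_iff_eq_add.2 h

theorem subB_F (A : Atl N p q k) : A.SubB A.F := by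
  refine ⟨contDiffOn_iff.2 fun i => ?_, fun m hm => F_le_T hm⟩
  have h1 : ContDiffOn ℝ ∞ (fun z => A.jd i z ∘L
      ContinuousLinearMap.inl ℝ (Eu p) (Eu q)) (ball 0 1) :=
    ((jd_smooth i).clm_comp contDiff_const).contDiffOn
  refine (contDiffOn_starProjection h1 fun z hz a b hab => ?_).congr fun z hz => ?_
  · exact (Prod.ext_iff.1 (jd_inj i hz hab)).1
  · simp only [F_eq' i hz]

theorem subB_T (A : Atl N p q k) : A.SubB A.T := by
  refine ⟨contDiffOn_iff.2 fun i => ?_, fun m hm => le_rfl⟩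
  let e : Eu (p + q) ≃L[ℝ] Eu p × Eu q := ContinuousLinearEquiv.ofFinrankEq
    (by rw [Module.finrank_prod, finrank_Eu, finrank_Eu, finrank_Eu])
  have h1 : ContDiffOn ℝ ∞ (fun z => A.jd i z ∘L
      (e : Eu (p + q) →L[ℝ] Eu p × Eu q)) (ball 0 1) :=
    ((jd_smooth i).clm_comp contDiff_const).contDiffOn
  refine (contDiffOn_starProjection h1 fun z hz a b hab => ?_).congr fun z hz => ?_
  · exact e.injective (jd_inj i hz hab)
  · have h2 : A.T (A.ψ i z) =
        (A.jd i z ∘L (e : Eu (p + q) →L[ℝ] Eu p × Eu q)).range := by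
      rw [T_eq' i hz]
      apply le_antisymm
      · rintro _ ⟨x, rfl⟩
        exact ⟨e.symm x, by simp⟩
      · rintro _ ⟨x, rfl⟩
        exact ⟨_, rfl⟩
    simp only [h2]

theorem subB_H (A : Atl N p q k) : A.SubB A.H := by
  refine ⟨(A.subB_T.1.sub A.subB_F.1).congr fun m hm => ?_, fun m hm => inf_le_right⟩
  ext1 v
  change _ = (A.T m).starProjection v - (A.F m).starProjection v
  rw [projT_eq hm v]
  abel

theorem smooth_Pi (A : Atl N p q k) (hε : IsCAR ε) : ContDiffOn ℝ ∞ (A.Pi ε) A.M := by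
  refine contDiffOn_deg hε (S := fun m => (A.T m)ᗮ) ?_ 0
  refine ((contDiffOn_const (c := (1 : Eu N →L[ℝ] Eu N))).sub A.subB_T.1).congr fun m _ => ?_
  exact Submodule.starProjection_orthogonal' _

theorem smooth_degH (A : Atl N p q k) (hε : IsCAR ε) (j : ℕ) :
    ContDiffOn ℝ ∞ (fun m => deg ε (A.H m) j) A.M := contDiffOn_deg hε A.subB_H.1 j

theorem Pi_idem (m : Eu N) : A.Pi ε m * A.Pi ε m = A.Pi ε m := deg_idem _ _

theorem Pi_star (m : Eu N) : star (A.Pi ε m) = A.Pi ε m := deg_star _ _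

theorem Pi_comm (hε : IsCAR ε) {m v : Eu N} (hv : v ∈ A.T m) :
    A.Pi ε m * ε v = ε v * A.Pi ε m ∧ A.Pi ε m * ioL ε v = ioL ε v * A.Pi ε m ∧
      A.Pi ε m * cl ε v = cl ε v * A.Pi ε m := by
  obtain ⟨h1, h2, h3⟩ := deg_comm_eps hε (S := (A.T m)ᗮ) 0 ((A.T m).le_orthogonal_orthogonal hv)
  refine ⟨h1, ?_, h3⟩
  rw [ioL_apply, mul_neg, neg_mul]
  exact congrArg Neg.neg h2

theorem Pi_comm_degH (hε : IsCAR ε) (m : Eu N) (j : ℕ) :
    A.Pi ε m * deg ε (A.H m) j = deg ε (A.H m) j * A.Pi ε m := deg_comm_deg hε (S := (A.T m)ᗮ) (S' := A.H m)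
      (inf_le_right.trans (A.T m).le_orthogonal_orthogonal) 0 j

end Atl

end Pool.Agent.P.MP_e0a138_an.AD
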