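import Pool.Agent.P.MP_e0a138_an.GE18
import Pool.Agent.P.MP_e0a138_an.GE17a
import Pool.Agent.P.MP_e0a138_an.GE13b
import Pool.Agent.P.MP_e0a138_an.AN11b

set_option autoImplicit false
set_option linter.unusedSectionVars false
set_option linter.unusedVariables false

open MeasureTheory Filter Topology Metric Complex
open scoped ENNReal NNReal ContDiff InnerProductSpace ComplexConjugate

noncomputable section
namespace Pool.Agent.P.MP_e0a138_an.AD

variable {N p q k : ℕ} {W : Type} [NormedAddCommGroup W] [InnerProductSpace ℂ W]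
  [FiniteDimensional ℂ W] [CompleteSpace W]
variable {A : Atl N p q k} {ε : Eu N →L[ℝ] W →L[ℂ] W}

namespace Atl
variable {μ : Measure (Eu N)} {l : Measure (Eu N × Eu N)} {t₀ : Tr q k}
  {B : Tr q k → Eu q ≃L[ℝ] Eu q}

/-- density times pointwise inner product, read in a chart -/
def GE20_Phi (A : Atl N p q k) (i : Fin k) (u u' : Eu N → W) : Eu p × Eu q → ℂ :=
  (ball 0 1).indicator fun z => (A.rho i z : ℂ) * ⟪u (A.ψ i z), u' (A.ψ i z)⟫_ℂ

theorem GE20_Phi_props (i : Fin k) {u u' : Eu N → W} (hu : ContinuousOn u A.M)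
    (hu' : ContinuousOn u' A.M) (hl : A.Loc i u) :
    Continuous (A.GE20_Phi i u u') ∧ HasCompactSupport (A.GE20_Phi i u u') := by
  obtain ⟨r, hr, h0⟩ := hl
  have hz := (chart_zero hr h0).1
  have hK : ∀ z ∉ closedBall (0 : Eu p × Eu q) r, A.GE20_Phi i u u' z = 0 := by
    intro z hzK
    by_cases hb : z ∈ ball (0 : Eu p × Eu q) 1
    · rw [GE20_Phi, Set.indicator_of_mem hb, hz z hb hzK, inner_zero_left, mul_zero]
    · rw [GE20_Phi, Set.indicator_of_notMem hb]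
  refine ⟨continuous_of_cpt isOpen_ball isClosed_closedBall (closedBall_subset_ball hr) ?_ hK,
    HasCompactSupport.intro (isCompact_closedBall 0 r) hK⟩
  refine ContinuousOn.congr (f := fun z => (A.rho i z : ℂ) * ⟪u (A.ψ i z), u' (A.ψ i z)⟫_ℂ) ?_
    fun z hz => Set.indicator_of_mem hz _
  exact (continuous_ofReal.comp (rho_continuous i)).continuousOn.mul
    ((continuousOn_chart hu i).inner (𝕜 := ℂ) (continuousOn_chart hu' i))

theorem GE20_ne {i j : Fin k} {u u' : Eu N → W} (hl : A.Loc j u') {z : Eu p × Eu q}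
    (h : A.GE20_Phi i u u' z ≠ 0) : z ∈ ball (0 : Eu p × Eu q) 1 ∧ A.ψ i z ∈ A.U j := by
  obtain ⟨r, hr, h0⟩ := hl
  have hb : z ∈ ball (0 : Eu p × Eu q) 1 := by
    by_contra hb
    exact h (Set.indicator_of_notMem hb _)
  refine ⟨hb, ?_⟩
  by_contra hU
  apply h
  rw [GE20_Phi, Set.indicator_of_mem hb, (chart_zero hr h0).2 _ (ψ_mem i hb).1 hU,
    inner_zero_right, mul_zero]

theorem GE20_lhs (hμ : A.IsVol μ) {β : Eu q → ℝ} (hβ : Continuous β) (h : ℝ) (t t' : Tr q k)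
    (L L' : Eu q →L[ℝ] Eu q) {u u' : Eu N → W} (hu : ContinuousOn u A.M)
    (hu' : ContinuousOn u' A.M) (hl : A.Loc t.1 u) :
    ⟪toL μ (A.pk β h t L u), toL μ (A.pk β h t' L' u')⟫_ℂ =
      ∫ z, conj (ph β h t.2.1 t.2.2 L z.2) * ph β h t'.2.1 t'.2.2 L' (A.tau t.1 t'.1 z) *
        A.GE20_Phi t.1 u u' z := by
  obtain ⟨r, hr, h0⟩ := hl
  rw [inner_eq_of_ae (toL_ae (hμ.memLp (pk_continuousOn hβ h t L hu)))
    (toL_ae (hμ.memLp (pk_continuousOn hβ h t' L' hu'))), hμ.integral_loc t.1,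
    integral_wm measurableSet_ball (rho_continuous t.1).continuousOn
      fun z _ => rho_nonneg t.1 z, ← integral_indicator measurableSet_ball]
  · refine integral_congr_ae (Eventually.of_forall fun z => ?_)
    by_cases hb : z ∈ ball (0 : Eu p × Eu q) 1
    · simp only [GE20_Phi, Set.indicator_of_mem hb, pk, A.left_inv t.1 z hb, inner_smul_left,
        inner_smul_right, tau, Complex.real_smul]
      ring
    · simp only [GE20_Phi, Set.indicator_of_notMem hb, mul_zero]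
  · intro m hm hU
    rw [pk, (chart_zero hr h0).2 m hm hU, smul_zero, inner_zero_left]

theorem GE20_rhs (hB : A.Hd t₀ B) (hl : A.IsLeaf t₀ l) {c : ℝ≥0} {t t' : Tr q k}
    (ht : A.Reach t₀ t) (ht' : A.Reach t₀ t') (hc : l.restrict (A.plq t) = c • A.pm t)
    {u u' : Eu N → W} (hu : ContinuousOn u A.M) (hu' : ContinuousOn u' A.M)
    (hl2 : A.Loc t'.1 u') :
    ⟪A.sec l t u, A.sec l t' u'⟫_ℂ = ((c : ℝ) : ℂ) *
      ∫ x, {x | A.tau t.1 t'.1 (x, t.2.1) = t'.2.1}.indicator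
        (fun x => A.GE20_Phi t.1 u u' (x, t.2.1)) x := by
  have hy : t.2.1 ∈ ball (0 : Eu q) 1 := ht.mem hB.mem
  have hρ : Continuous fun x : Eu p => (c : ℝ) * A.rho t.1 (x, t.2.1) :=
    continuous_const.mul ((rho_continuous t.1).comp (by fun_prop))
  rw [inner_eq_of_ae (sec_ae hB.mem hl ht hu) (sec_ae hB.mem hl ht' hu')]
  conv_lhs => rw [plq_eq hy]
  rw [(emb_plq hy hc).inner_ind, integral_wm measurableSet_ball hρ.continuousOn
    fun x _ => mul_nonneg c.2 (rho_nonneg _ _), ← integral_indicator measurableSet_ball,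
    ← integral_const_mul]
  refine integral_congr_ae (Eventually.of_forall fun x => ?_)
  by_cases hb : x ∈ ball (0 : Eu p) 1
  · have hz : (x, t.2.1) ∈ ball (0 : Eu p × Eu q) 1 := mem_ball_prod.2 ⟨hb, hy⟩
    simp only [Set.indicator_of_mem hb]
    by_cases hm : A.gam t x ∈ A.plq t'
    · have hτ : x ∈ {x | A.tau t.1 t'.1 (x, t.2.1) = t'.2.1} := ((gam_mem_iff hy hb).1 hm).2.1
      rw [Set.indicator_of_mem hm, Set.indicator_of_mem hτ, GE20_Phi, Set.indicator_of_mem hz,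
        Complex.real_smul]
      simp only [gam]
      push_cast
      ring
    · rw [Set.indicator_of_notMem hm, inner_zero_right, smul_zero]
      by_cases hτ : x ∈ {x | A.tau t.1 t'.1 (x, t.2.1) = t'.2.1}
      · rw [Set.indicator_of_mem hτ]
        by_cases hΦ : A.GE20_Phi t.1 u u' (x, t.2.1) = 0
        · rw [hΦ, mul_zero]
        · have hU := (GE20_ne hl2 hΦ).2
          exact absurd ((gam_mem_iff hy hb).2 ⟨hU, hτ, (hB.cons t t' ht ht' x hb hU hτ).1⟩) hm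
      · rw [Set.indicator_of_notMem hτ, mul_zero]
  · have hz : (x, t.2.1) ∉ ball (0 : Eu p × Eu q) 1 := fun h => hb (mem_ball_prod.1 h).1
    have h0 : A.GE20_Phi t.1 u u' (x, t.2.1) = 0 := Set.indicator_of_notMem hz _
    simp only [Set.indicator_of_notMem hb]
    by_cases hτ : x ∈ {x | A.tau t.1 t'.1 (x, t.2.1) = t'.2.1}
    · rw [Set.indicator_of_mem hτ, h0, mul_zero]
    · rw [Set.indicator_of_notMem hτ, mul_zero]

theorem gram_tendsto (hμ : A.IsVol μ) (hB : A.Hd t₀ B) (hl : A.IsLeaf t₀ l) {c : ℝ≥0}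
    (hc0 : c ≠ 0) (hc : ∀ t, A.Reach t₀ t → l.restrict (A.plq t) = (c * jac (B t)) • A.pm t)
    {β : Eu q → ℝ} (hβ : Continuous β) (hβc : HasCompactSupport β) (hn : ∫ y, β y ^ 2 = 1)
    {t t' : Tr q k} (ht : A.Reach t₀ t) (ht' : A.Reach t₀ t') {u u' : Eu N → W}
    (hu : ContinuousOn u A.M) (hu' : ContinuousOn u' A.M) (hl1 : A.Loc t.1 u)
    (hl2 : A.Loc t'.1 u') :
    Tendsto (fun h => ⟪toL μ (A.pk β h t ((B t).symm : Eu q →L[ℝ] Eu q) u),
      toL μ (A.pk β h t' ((B t').symm : Eu q →L[ℝ] Eu q) u')⟫_ℂ) (𝓝[>] 0)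
      (𝓝 ((((c : ℝ)⁻¹ : ℝ) : ℂ) * ⟪A.sec l t u, A.sec l t' u'⟫_ℂ)) := by
  obtain ⟨hΦ, hΦc⟩ := GE20_Phi_props t.1 hu hu' hl1
  have key := gram_core hβ hβc hΦ hΦc (tau_smooth (A := A) t.1 t'.1) t.2.1 t.2.2 t'.2.1 t'.2.2
    (B t) (B t') fun x hx hτ => by
      obtain ⟨hb, hU⟩ := GE20_ne hl2 hx
      exact hB.cons t t' ht ht' x (mem_ball_prod.1 hb).1 hU hτ
  rw [GE20_rhs hB hl ht ht' (hc t ht) hu hu' hl2]
  simp only [GE20_lhs hμ hβ _ t t' _ _ hu hu' hl1]
  have hc' : ((c : ℝ) : ℂ) ≠ 0 := by exact_mod_cast hc0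
  have he : ∀ X : ℂ, (((c : ℝ)⁻¹ : ℝ) : ℂ) * ((((c * jac (B t) : ℝ≥0) : ℝ) : ℂ) * X) =
      (((jac (B t) : ℝ) * ∫ y, β y ^ 2 : ℝ) : ℂ) * X := by
    intro X
    rw [hn]
    push_cast
    field_simp
  rw [he]
  exact key

end Atl

end Pool.Agent.P.MP_e0a138_an.AD
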