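import Pool.Agent.P.MP_e0a138_an.GE7

set_option autoImplicit false
set_option linter.unusedSectionVars false
set_option linter.unusedVariables false

open MeasureTheory Filter Topology Metric Complex
open scoped ENNReal NNReal ContDiff InnerProductSpace ComplexConjugate

noncomputable section
namespace Pool.Agent.P.MP_e0a138_an.AD

variable {N p q k : ℕ} {W : Type} [NormedAddCommGroup W] [InnerProductSpace ℂ W]
  [FiniteDimensional ℂ W] [CompleteSpace W]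
variable {A : Atl N p q k} {ε : Eu N →L[ℝ] W →L[ℂ] W}

namespace Atl
variable {μ : Measure (Eu N)}

theorem ge22a_kap_ball (i : Fin k) {z : Eu p × Eu q} (hz : z ∈ ball (0 : Eu p × Eu q) 1) :
    A.kap i z = A.χ i (A.ψ i z) * √(A.rho i z) := by
  simp only [kap, Set.indicator_of_mem hz]

theorem ge22a_kap_out (i : Fin k) {z : Eu p × Eu q} (hz : z ∉ ball (0 : Eu p × Eu q) 1) :
    A.kap i z = 0 := by
  simp only [kap, Set.indicator_of_notMem hz]

theorem ge22a_sqrt_smooth (i : Fin k) :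
    ContDiffOn ℝ ∞ (fun z => √(A.rho i z)) (ball (0 : Eu p × Eu q) 1) :=
  (rho_smooth i).sqrt fun z hz => (rho_pos i hz).ne'

theorem ge22a_χ_smooth (i : Fin k) : ContDiff ℝ ∞ fun z => A.χ i (A.ψ i z) :=
  (A.χ_smooth i).comp (A.ψ_smooth i)

theorem kap_props (A : Atl N p q k) : ∃ r : ℝ, 0 < r ∧ r < 1 ∧ ∀ i, ContDiff ℝ ∞ (A.kap i) ∧
    ∀ z ∉ closedBall (0 : Eu p × Eu q) r, A.kap i z = 0 := by
  obtain ⟨r, r0, r1, hr⟩ := A.exists_r
  refine ⟨r, r0, r1, fun i => ?_⟩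
  have h0 : ∀ z ∉ closedBall (0 : Eu p × Eu q) r, A.kap i z = 0 := by
    intro z hz
    by_cases hb : z ∈ ball (0 : Eu p × Eu q) 1
    · rw [ge22a_kap_ball i hb, (chart_zero r1 (hr i)).1 z hb hz, zero_mul]
    · exact ge22a_kap_out i hb
  refine ⟨contDiff_of_cpt isOpen_ball isClosed_closedBall (closedBall_subset_ball r1) ?_ h0, h0⟩
  exact ((ge22a_χ_smooth i).contDiffOn.mul (ge22a_sqrt_smooth i)).congr
    fun z hz => ge22a_kap_ball i hz

theorem kap_sq (i : Fin k) {z : Eu p × Eu q} (hz : z ∈ ball (0 : Eu p × Eu q) 1) :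
    A.kap i z ^ 2 = A.rho i z * A.χ i (A.ψ i z) ^ 2 := by
  rw [ge22a_kap_ball i hz, mul_pow, Real.sq_sqrt (rho_nonneg i z), mul_comm]

theorem loc_smooth {u : Eu N → W} (hu : ContDiffOn ℝ ∞ u A.M) (i : Fin k) :
    ContDiff ℝ ∞ (A.loc i u) ∧ HasCompactSupport (A.loc i u) := by
  obtain ⟨r, r0, r1, hr⟩ := A.kap_props
  have h0 : ∀ z ∉ closedBall (0 : Eu p × Eu q) r, A.loc i u z = 0 := by
    intro z hz
    simp only [loc, (hr i).2 z hz, ofReal_zero, zero_smul]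
  refine ⟨contDiff_of_cpt isOpen_ball isClosed_closedBall (closedBall_subset_ball r1) ?_ h0,
    HasCompactSupport.intro (isCompact_closedBall _ _) h0⟩
  exact (contDiffOn_ofReal (hr i).1.contDiffOn).smul (contDiffOn_iff.1 hu i)

theorem ge22a_loc_ind (i : Fin k) (v : Eu N → W) :
    A.loc i v = (ball (0 : Eu p × Eu q) 1).indicator (A.loc i v) := by
  funext z
  by_cases hb : z ∈ ball (0 : Eu p × Eu q) 1
  · rw [Set.indicator_of_mem hb]
  · rw [Set.indicator_of_notMem hb]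
    simp only [loc, ge22a_kap_out i hb, ofReal_zero, zero_smul]

theorem ge22a_enorm_sq (c : ℝ) (x : W) :
    ‖(c : ℂ) • x‖ₑ ^ 2 = ENNReal.ofReal (c ^ 2) * ‖x‖ₑ ^ 2 := by
  rw [enorm_smul, mul_pow]
  congr 1
  rw [← ofReal_norm, ← ENNReal.ofReal_pow (norm_nonneg _), Complex.norm_real,
    Real.norm_eq_abs, sq_abs]

theorem loc_lintegral (hμ : A.IsVol μ) (i : Fin k) (v : Eu N → W) :
    ∫⁻ z, ‖A.loc i v z‖ₑ ^ 2 = ∫⁻ m, ‖(A.χ i m : ℂ) • v m‖ₑ ^ 2 ∂μ := by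
  have h1 : ∀ m ∈ A.M, m ∉ A.U i → ‖(A.χ i m : ℂ) • v m‖ₑ ^ 2 = 0 := by
    intro m hm hU
    have : A.χ i m = 0 := by
      by_contra h
      exact hU (mem_U_of_χ hm h)
    simp [this]
  rw [hμ.lintegral_loc i h1, lintegral_wm measurableSet_ball (rho_continuous i).continuousOn,
    ← lintegral_indicator measurableSet_ball]
  refine lintegral_congr fun z => ?_
  by_cases hb : z ∈ ball (0 : Eu p × Eu q) 1
  · rw [Set.indicator_of_mem hb, loc, ge22a_enorm_sq, ge22a_enorm_sq, kap_sq i hb,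
      ENNReal.ofReal_mul (rho_nonneg i z), mul_assoc]
  · rw [Set.indicator_of_notMem hb]
    simp [loc, ge22a_kap_out i hb]

theorem ge22a_ac (i : Fin k) : (volume : Measure (Eu p × Eu q)).restrict (ball 0 1) ≪
    wm (ball 0 1) (A.rho i) := by
  refine Measure.AbsolutelyContinuous.mk fun s hs h0 => ?_
  have h1 : ∀ᵐ z ∂wm (ball (0 : Eu p × Eu q) 1) (A.rho i), z ∉ s := compl_mem_ae_iff.2 h0
  rw [ae_wm_iff measurableSet_ball (rho_continuous i).continuousOn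
    (fun z hz => rho_pos i hz)] at h1
  exact compl_mem_ae_iff.1 ((ae_restrict_iff' measurableSet_ball).2 h1)

theorem loc_memLp (hμ : A.IsVol μ) (i : Fin k) {v : Eu N → W} (hv : MemLp v 2 μ) :
    MemLp (A.loc i v) 2 volume ∧ Integrable (A.loc i v) := by
  obtain ⟨r, r0, r1, hr⟩ := A.kap_props
  have h1 : AEStronglyMeasurable (fun z => v (A.ψ i z))
      ((volume : Measure (Eu p × Eu q)).restrict (ball 0 1)) :=
    ((hμ.emb i).memLp_comp hv).1.mono_ac (ge22a_ac i)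
  have h2 : AEStronglyMeasurable (A.loc i v) (volume : Measure (Eu p × Eu q)) := by
    rw [ge22a_loc_ind, aestronglyMeasurable_indicator_iff measurableSet_ball]
    exact (continuous_ofReal.comp (hr i).1.continuous).aestronglyMeasurable.smul h1
  have h3 : MemLp (A.loc i v) 2 volume := by
    refine memLp_two_iff.2 ⟨h2, ?_⟩
    rw [loc_lintegral hμ]
    refine ne_top_of_le_ne_top (memLp_two_iff.1 hv).2 (lintegral_mono_ae ?_)
    filter_upwards [hμ.ae_mem] with m hm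
    rw [ge22a_enorm_sq]
    exact mul_le_of_le_one_left zero_le (ENNReal.ofReal_le_one.2 (χ_sq_le hm i))
  refine ⟨h3, ?_⟩
  have : IsFiniteMeasure ((volume : Measure (Eu p × Eu q)).restrict (ball 0 1)) :=
    isFiniteMeasure_restrict.2 measure_ball_lt_top.ne
  rw [ge22a_loc_ind, integrable_indicator_iff measurableSet_ball]
  exact (h3.restrict (ball 0 1)).integrable one_le_two

theorem loc_congr (hμ : A.IsVol μ) (i : Fin k) {v w : Eu N → W} (h : v =ᵐ[μ] w) :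
    A.loc i v =ᵐ[volume] A.loc i w := by
  have h1 : ∀ᵐ z ∂wm (ball (0 : Eu p × Eu q) 1) (A.rho i), v (A.ψ i z) = w (A.ψ i z) :=
    (hμ.emb i).ae_iff.1 (h.mono fun s hs _ => hs)
  rw [ae_wm_iff measurableSet_ball (rho_continuous i).continuousOn
    (fun z hz => rho_pos i hz)] at h1
  filter_upwards [h1] with z hz
  by_cases hb : z ∈ ball (0 : Eu p × Eu q) 1
  · simp only [loc, hz hb]
  · simp only [loc, ge22a_kap_out i hb, ofReal_zero, zero_smul]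

theorem ge22a_norm_exp (t : ℝ) : ‖cexp (2 * Real.pi * I * (t : ℂ))‖ = 1 := by
  have : (2 * Real.pi * I * (t : ℂ) : ℂ) = ((2 * Real.pi * t : ℝ) : ℂ) * I := by
    push_cast; ring
  rw [this, norm_exp_ofReal_mul_I]

theorem uf_props (A : Atl N p q k) (hε : IsCAR ε) : ∃ (r : ℝ) (C : ℝ≥0), r < 1 ∧
    ∀ (i : Fin k) (ξ : Eu p) (e : W), A.Form ε (A.uf ε i ξ e) ∧ A.Loc i (A.uf ε i ξ e) ∧
      (∀ m ∈ A.M, m ∉ A.ψ i '' closedBall 0 r → A.uf ε i ξ e m = 0) ∧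
      (‖e‖ ≤ 1 → ∀ m ∈ A.M, ‖A.uf ε i ξ e m‖ ≤ C) := by
  obtain ⟨r, r0, r1, hr⟩ := A.exists_r
  have hg : ∀ i, ContDiffOn ℝ ∞ (fun z => A.χ i (A.ψ i z) * (√(A.rho i z))⁻¹)
      (ball (0 : Eu p × Eu q) 1) := fun i =>
    (ge22a_χ_smooth i).contDiffOn.mul ((ge22a_sqrt_smooth i).inv
      fun z hz => (Real.sqrt_pos.2 (rho_pos i hz)).ne')
  have hb : ∀ i, ∃ C : ℝ, ∀ z ∈ closedBall (0 : Eu p × Eu q) r,
      ‖A.χ i (A.ψ i z) * (√(A.rho i z))⁻¹‖ ≤ C := fun i =>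
    (isCompact_closedBall _ _).exists_bound_of_continuousOn
      ((hg i).continuousOn.mono (closedBall_subset_ball r1))
  choose C hC using hb
  refine ⟨r, ∑ i, ‖C i‖₊, r1, fun i ξ e => ?_⟩
  have hz0 := (chart_zero r1 (hr i)).1
  have h0 : ∀ z ∈ ball (0 : Eu p × Eu q) 1, z ∉ closedBall (0 : Eu p × Eu q) r →
      (((A.χ i (A.ψ i z) * (√(A.rho i z))⁻¹ : ℝ) : ℂ) *
        cexp (2 * Real.pi * I * ((⟪ξ, z.1⟫_ℝ : ℝ) : ℂ))) • A.Pi ε (A.ψ i z) e = 0 := by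
    intro z hz hz'
    rw [hz0 z hz hz', zero_mul, ofReal_zero, zero_mul, zero_smul]
  have hin : ContDiff ℝ ∞ fun z : Eu p × Eu q => (⟪ξ, z.1⟫_ℝ : ℝ) :=
    contDiff_const.inner ℝ contDiff_fst
  have hex : ContDiff ℝ ∞ fun z : Eu p × Eu q =>
      cexp (2 * Real.pi * I * ((⟪ξ, z.1⟫_ℝ : ℝ) : ℂ)) :=
    (contDiff_const.mul (ofRealCLM.contDiff.comp hin)).cexp
  have hs : ContDiffOn ℝ ∞ (fun z : Eu p × Eu q =>
      (((A.χ i (A.ψ i z) * (√(A.rho i z))⁻¹ : ℝ) : ℂ) *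
        cexp (2 * Real.pi * I * ((⟪ξ, z.1⟫_ℝ : ℝ) : ℂ))) • A.Pi ε (A.ψ i z) e) (ball 0 1) :=
    ((contDiffOn_ofReal (hg i)).mul hex.contDiffOn).smul
      (contDiffOn_capp (contDiffOn_iff.1 (A.smooth_Pi hε) i) contDiffOn_const)
  have hP : ∀ m, A.Pi ε m (A.Pi ε m e) = A.Pi ε m e := fun m => by
    rw [← mul_apply_eq_comp, Pi_idem]
  have hf := ext_form (ε := ε) i hs r1 h0 fun z hz => by rw [map_smul, hP]
  have hz := ext_zero (A := A) i h0
  refine ⟨hf.1, hf.2, hz, fun he m hm => ?_⟩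
  by_cases hK : m ∈ A.ψ i '' closedBall 0 r
  · obtain ⟨z, hzr, rfl⟩ := hK
    have hle : ‖C i‖₊ ≤ ∑ i, ‖C i‖₊ :=
      Finset.single_le_sum (f := fun i => ‖C i‖₊) (fun _ _ => zero_le) (Finset.mem_univ i)
    have hle' : ‖C i‖ ≤ ((∑ i, ‖C i‖₊ : ℝ≥0) : ℝ) := by exact_mod_cast hle
    have hPe : ‖A.Pi ε (A.ψ i z) e‖ ≤ 1 :=
      ((A.Pi ε (A.ψ i z)).le_opNorm e).trans
        (mul_le_one₀ (norm_proj_le (Pi_idem _) (Pi_star _)) (norm_nonneg _) he)
    rw [uf, ext_chart i _ (closedBall_subset_ball r1 hzr), norm_smul, norm_mul, ge22a_norm_exp,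
      mul_one, Complex.norm_real]
    calc _ ≤ ‖A.χ i (A.ψ i z) * (√(A.rho i z))⁻¹‖ := mul_le_of_le_one_right (norm_nonneg _) hPe
      _ ≤ C i := hC i z hzr
      _ ≤ _ := (le_abs_self _).trans hle'
  · rw [show A.uf ε i ξ e m = 0 from hz m hm hK, norm_zero]
    exact NNReal.coe_nonneg _

theorem uf_inner (i : Fin k) (ξ : Eu p) (e v : W) {z : Eu p × Eu q}
    (hz : z ∈ ball (0 : Eu p × Eu q) 1) : A.rho i z • ⟪A.uf ε i ξ e (A.ψ i z), v⟫_ℂ =
      ⟪e, cexp (-(2 * Real.pi * I * ((⟪ξ, z.1⟫_ℝ : ℝ) : ℂ))) •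
        (A.kap i z : ℂ) • A.Pi ε (A.ψ i z) v⟫_ℂ := by
  have hs : ⟪A.Pi ε (A.ψ i z) e, v⟫_ℂ = ⟪e, A.Pi ε (A.ψ i z) v⟫_ℂ := by
    conv_lhs => rw [← Pi_star, ContinuousLinearMap.star_eq_adjoint]
    exact ContinuousLinearMap.adjoint_inner_left _ _ _
  have hc : conj (cexp (2 * Real.pi * I * ((⟪ξ, z.1⟫_ℝ : ℝ) : ℂ))) =
      cexp (-(2 * Real.pi * I * ((⟪ξ, z.1⟫_ℝ : ℝ) : ℂ))) := by
    rw [← exp_conj]
    congr 1
    simp only [map_mul, conj_ofReal, conj_I, map_ofNat]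
    ring
  have hk : A.rho i z * (A.χ i (A.ψ i z) * (√(A.rho i z))⁻¹) = A.kap i z := by
    have h1 : √(A.rho i z) ≠ 0 := (Real.sqrt_pos.2 (rho_pos i hz)).ne'
    have h2 := Real.mul_self_sqrt (rho_nonneg (A := A) i z)
    rw [ge22a_kap_ball i hz]
    field_simp
    rw [sq, h2, mul_comm]
  rw [uf, ext_chart i _ hz, inner_smul_left, inner_smul_right, inner_smul_right, hs, map_mul, hc,
    conj_ofReal, ← hk, Complex.real_smul]
  push_cast
  ring

end Atl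

end Pool.Agent.P.MP_e0a138_an.AD
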