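import Pool.Agent.P.MP_e0a138_an.GE22a
import Pool.Agent.P.MP_e0a138_an.GE18

set_option autoImplicit false
set_option linter.unusedSectionVars false
set_option linter.unusedVariables false

open MeasureTheory Filter Topology Metric Complex
open scoped ENNReal NNReal ContDiff InnerProductSpace ComplexConjugate

noncomputable section
namespace Pool.Agent.P.MP_e0a138_an.AD

variable {N p q k : ℕ} {W : Type} [NormedAddCommGroup W] [InnerProductSpace ℂ W]
  [FiniteDimensional ℂ W] [CompleteSpace W]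
variable {A : Atl N p q k} {ε : Eu N →L[ℝ] W →L[ℂ] W}

theorem sum_basis_enorm (x : W) :
    ∑ e, ‖⟪stdOrthonormalBasis ℂ W e, x⟫_ℂ‖ₑ ^ 2 = ‖x‖ₑ ^ 2 := by
  have h := (stdOrthonormalBasis ℂ W).sum_sq_norm_inner_right x
  have h2 : ∀ {F : Type} [NormedAddCommGroup F] (y : F),
      ‖y‖ₑ ^ 2 = ENNReal.ofReal (‖y‖ ^ 2) := fun y => by
    rw [← ofReal_norm, ← ENNReal.ofReal_pow (norm_nonneg _)]
  simp only [h2]
  rw [← ENNReal.ofReal_sum_of_nonneg (fun _ _ => sq_nonneg _), h]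

theorem GE22b_integrable {β : Eu q → ℝ} (hβ : Continuous β) (hc : HasCompactSupport β) (h : ℝ)
    {G : Eu p × Eu q → W} (hG : Integrable G) (o : Eu p × Eu q × Eu q) :
    Integrable fun z : Eu p × Eu q =>
      (conj (ph β h o.2.1 o.2.2 (ContinuousLinearMap.id ℝ _) z.2) *
        cexp (-(2 * Real.pi * I * ((⟪o.1, z.1⟫_ℝ : ℝ) : ℂ)))) • G z := by
  obtain ⟨C, hC⟩ := hβ.bounded_above_of_compact_support hc
  have hph : Continuous (ph β h o.2.1 o.2.2 (ContinuousLinearMap.id ℝ _)) :=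
    (contDiff_ph (n := 0) (contDiff_zero.2 hβ) h _ _ _).continuous
  have hcont : Continuous fun z : Eu p × Eu q =>
      (conj (ph β h o.2.1 o.2.2 (ContinuousLinearMap.id ℝ _) z.2) *
        cexp (-(2 * Real.pi * I * ((⟪o.1, z.1⟫_ℝ : ℝ) : ℂ)))) :=
    (Complex.continuous_conj.comp (hph.comp continuous_snd)).mul
      (Complex.continuous_exp.comp ((continuous_const.mul (Complex.continuous_ofReal.comp
        (continuous_const.inner continuous_fst))).neg))
  refine hG.bdd_smul ((√(sc h ^ q))⁻¹ * C) hcont.aestronglyMeasurable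
    (Eventually.of_forall fun z => ?_)
  have he : ‖cexp (-(2 * Real.pi * I * ((⟪o.1, z.1⟫_ℝ : ℝ) : ℂ)))‖ = 1 := by
    have : -(2 * Real.pi * I * ((⟪o.1, z.1⟫_ℝ : ℝ) : ℂ)) =
        ((-(2 * Real.pi * ⟪o.1, z.1⟫_ℝ) : ℝ) : ℂ) * I := by push_cast; ring
    rw [this, Complex.norm_exp_ofReal_mul_I]
  rw [norm_mul, he, mul_one, Complex.norm_conj, norm_ph, bw, abs_mul,
    abs_of_nonneg (inv_nonneg.2 (Real.sqrt_nonneg _))]
  exact mul_le_mul_of_nonneg_left (hC _) (inv_nonneg.2 (Real.sqrt_nonneg _))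

namespace Atl
variable {μ : Measure (Eu N)}

theorem memLp_Pi (hε : IsCAR ε) (hμ : A.IsVol μ) (v : Lp W 2 μ) :
    MemLp (fun m => A.Pi ε m (v m)) 2 μ := by
  obtain ⟨M, hM⟩ := exists_mul (ν := μ) (A := A.Pi ε) (C := 1)
    (hμ.aesm (A.smooth_Pi hε).continuousOn)
    (Eventually.of_forall fun m => norm_proj_le (Pi_idem m) (Pi_star m))
  exact memLp_of_ae (hM v)

theorem wv_inner (hε : IsCAR ε) (hμ : A.IsVol μ) {β : Eu q → ℝ} (hβ : Continuous β)
    (hc : HasCompactSupport β) (h : ℝ) (j : Fin k × Fin (Module.finrank ℂ W))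
    (o : Eu p × Eu q × Eu q) (v : Lp W 2 μ) : ⟪A.wv ε μ β h j o, v⟫_ℂ =
      ⟪stdOrthonormalBasis ℂ W j.2, Lam β h (A.loc j.1 fun m => A.Pi ε m (v m)) o⟫_ℂ := by
  obtain ⟨r, C, hr, H⟩ := uf_props A hε
  obtain ⟨hF, -, h0, -⟩ := H j.1 o.1 (stdOrthonormalBasis ℂ W j.2)
  have hmem := hμ.memLp (pk_continuousOn hβ h (j.1, o.2) (ContinuousLinearMap.id ℝ _)
    hF.1.continuousOn)
  have hint := GE22b_integrable hβ hc h (loc_memLp hμ j.1 (memLp_Pi hε hμ v)).2 o
  rw [wv, inner_eq_of_ae (toL_ae hmem) (ae_eq_refl _), hμ.integral_loc j.1,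
    integral_wm measurableSet_ball (rho_continuous j.1).continuousOn
      (fun z _ => rho_nonneg j.1 z), Lam, ← integral_inner hint,
    ← setIntegral_eq_integral_of_forall_compl_eq_zero (s := ball (0 : Eu p × Eu q) 1)
      (f := fun z => ⟪stdOrthonormalBasis ℂ W j.2, _⟫_ℂ)]
  · refine setIntegral_congr_fun measurableSet_ball fun z hz => ?_
    have hu := uf_inner (A := A) (ε := ε) j.1 o.1 (stdOrthonormalBasis ℂ W j.2) (v (A.ψ j.1 z)) hz
    simp only [pk, loc, A.left_inv j.1 z hz]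
    rw [inner_smul_left, mul_smul, inner_smul_right, ← hu, mul_smul_comm]
  · intro z hz
    simp [loc, kap, Set.indicator_of_notMem hz]
  · intro m hm hU
    simp [pk, (chart_zero hr h0).2 m hm hU]

theorem wv_measurable (hε : IsCAR ε) (hμ : A.IsVol μ) {β : Eu q → ℝ} (hβ : Continuous β)
    (hc : HasCompactSupport β) (h : ℝ) (j : Fin k × Fin (Module.finrank ℂ W)) (v : Lp W 2 μ) :
    Measurable fun o => ⟪A.wv ε μ β h j o, v⟫_ℂ := by
  simp only [wv_inner hε hμ hβ hc]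
  exact (continuous_const.inner
    (Lam_continuous hβ hc h (loc_memLp hμ j.1 (memLp_Pi hε hμ v)).2)).measurable

end Atl

end Pool.Agent.P.MP_e0a138_an.AD
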