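import Pool.Agent.P.MP_e0a138_an.GE22b
import Pool.Agent.P.MP_e0a138_an.AN9

set_option autoImplicit false
set_option linter.unusedSectionVars false
set_option linter.unusedVariables false

open MeasureTheory Filter Topology Metric Complex
open scoped ENNReal NNReal ContDiff InnerProductSpace ComplexConjugate

noncomputable section
namespace Pool.Agent.P.MP_e0a138_an.AD

variable {N p q k : ℕ} {W : Type} [NormedAddCommGroup W] [InnerProductSpace ℂ W]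
  [FiniteDimensional ℂ W] [CompleteSpace W]
variable {A : Atl N p q k} {ε : Eu N →L[ℝ] W →L[ℂ] W}

namespace Atl
variable {μ : Measure (Eu N)}

theorem wv_sum (hε : IsCAR ε) (hμ : A.IsVol μ) {β : Eu q → ℝ} (hβ : Continuous β)
    (hc : HasCompactSupport β) (h : ℝ) {a : Eu p × Eu q × Eu q → ℝ≥0∞} (ha : Measurable a)
    {v : Lp W 2 μ} {u : Eu N → W} (hv : v =ᵐ[μ] u) (hP : ∀ᵐ m ∂μ, A.Pi ε m (u m) = u m) :
    ∑ j, ∫⁻ o, a o * ‖⟪A.wv ε μ β h j o, v⟫_ℂ‖ₑ ^ 2 =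
      ∑ i, ∫⁻ o, a o * ‖Lam β h (A.loc i u) o‖ₑ ^ 2 := by
  rw [Fintype.sum_prod_type]
  refine Finset.sum_congr rfl fun i _ => ?_
  have hae : (fun m => A.Pi ε m (v m)) =ᵐ[μ] u := by
    filter_upwards [hv, hP] with m h1 h2
    rw [h1, h2]
  have hL : ∀ o, Lam β h (A.loc i fun m => A.Pi ε m (v m)) o = Lam β h (A.loc i u) o := by
    intro o
    refine integral_congr_ae ?_
    filter_upwards [loc_congr hμ i hae] with z hz
    rw [hz]
  rw [← lintegral_finsetSum]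
  · refine lintegral_congr fun o => ?_
    rw [← Finset.mul_sum, ← sum_basis_enorm, ← hL]
    simp only [wv_inner hε hμ hβ hc]
  · intro e _
    exact ha.mul ((wv_measurable hε hμ hβ hc h (i, e) v).enorm.pow_const 2)

theorem wv_frame (hε : IsCAR ε) (hμ : A.IsVol μ) {β : Eu q → ℝ} (hβ : Continuous β)
    (hc : HasCompactSupport β) (hn : ∫ y, β y ^ 2 = 1) {h : ℝ} (hh : 0 < h) {v : Lp W 2 μ}
    (hP : ∀ᵐ m ∂μ, A.Pi ε m (v m) = v m) : ∑ j, ∫⁻ o, ‖⟪A.wv ε μ β h j o, v⟫_ℂ‖ₑ ^ 2 =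
      ENNReal.ofReal ((2 * Real.pi * h) ^ q) * ‖v‖ₑ ^ 2 := by
  have h1 := wv_sum hε hμ hβ hc h (a := fun _ => 1) measurable_const (v := v)
    EventuallyEq.rfl hP
  simp only [one_mul] at h1
  have h2 : ∀ i, ∫⁻ o, ‖Lam β h (A.loc i v) o‖ₑ ^ 2 = ENNReal.ofReal ((2 * Real.pi * h) ^ q) *
      ∫⁻ m, ‖(A.χ i m : ℂ) • v m‖ₑ ^ 2 ∂μ := by
    intro i
    obtain ⟨a2, a1⟩ := loc_memLp hμ i (Lp.memLp v)
    rw [Lam_frame hβ hc hn hh a1 a2, loc_lintegral hμ]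
  rw [h1]
  simp only [h2]
  rw [← Finset.mul_sum, enorm_sq_eq_of_ae (EventuallyEq.rfl (f := v)), ← lintegral_finsetSum']
  · congr 1
    refine lintegral_congr_ae ?_
    filter_upwards [hμ.ae_mem] with m hm
    have h3 : ∀ i, ‖(A.χ i m : ℂ) • v m‖ₑ ^ 2 = ENNReal.ofReal (A.χ i m ^ 2) * ‖v m‖ₑ ^ 2 := by
      intro i
      rw [enorm_smul, mul_pow, ← ofReal_norm (A.χ i m : ℂ),
        ← ENNReal.ofReal_pow (norm_nonneg _), Complex.norm_real, Real.norm_eq_abs, sq_abs]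
    simp only [h3]
    rw [← Finset.sum_mul, ← ENNReal.ofReal_sum_of_nonneg fun i _ => sq_nonneg _, A.χ_sum m hm,
      ENNReal.ofReal_one, one_mul]
  · intro i _
    exact ((continuous_ofReal.comp (A.χ_smooth i).continuous).aestronglyMeasurable.smul
      (Lp.aestronglyMeasurable v)).enorm.pow_const 2

theorem wv_bound (hε : IsCAR ε) (hμ : A.IsVol μ) {β : Eu q → ℝ} (hβ : Continuous β)
    (hc : HasCompactSupport β) : ∃ C : ℝ≥0, ∀ᶠ h in 𝓝[>] (0 : ℝ), ∀ j o,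
      ‖A.wv ε μ β h j o‖ₑ ^ 2 ≤ C ∧ (o.2.1 ∉ ball (0 : Eu q) 1 → A.wv ε μ β h j o = 0) := by
  obtain ⟨r, C₀, hr, hu⟩ := uf_props A hε
  choose C hC using fun i => pk_bound (W := W) hμ hβ hc i (ContinuousLinearEquiv.refl ℝ (Eu q))
  refine ⟨(∑ i, C i) * C₀ ^ 2, ?_⟩
  filter_upwards [pk_vanish (A := A) (W := W) hc hr, self_mem_nhdsWithin] with h hvan hh j o
  obtain ⟨u1, u2, u3, u4⟩ := hu j.1 o.1 (stdOrthonormalBasis ℂ W j.2)
  have hae := toL_ae (hμ.memLp (pk_continuousOn hβ h (j.1, o.2) (ContinuousLinearMap.id ℝ _)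
    u1.1.continuousOn))
  refine ⟨?_, fun ho => ?_⟩
  · rw [wv, enorm_sq_eq_of_ae hae]
    refine (hC j.1 _ C₀ h o.2.1 o.2.2 hh
      (u4 ((stdOrthonormalBasis ℂ W).orthonormal.1 j.2).le) (chart_zero hr u3).2).trans ?_
    push_cast
    gcongr
    exact Finset.single_le_sum (f := fun i => (C i : ℝ≥0∞)) (fun _ _ => zero_le)
      (Finset.mem_univ j.1)
  · refine Lp.ext ?_
    filter_upwards [hae, hμ.ae_mem, Lp.coeFn_zero W 2 μ] with m h1 hm h2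
    rw [h2, wv, h1]
    exact hvan j.1 o.2.1 o.2.2 _ ho u3 m hm

end Atl

end Pool.Agent.P.MP_e0a138_an.AD
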