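import Pool.Agent.P.MP_e0a138_an.GE3

set_option autoImplicit false
set_option linter.unusedSectionVars false
set_option linter.unusedVariables false

open MeasureTheory Filter Topology Metric Complex
open scoped ENNReal NNReal ContDiff InnerProductSpace ComplexConjugate

noncomputable section
namespace Pool.Agent.P.MP_e0a138_an.AD

variable {N p q k : ℕ} {W : Type} [NormedAddCommGroup W] [InnerProductSpace ℂ W]
  [FiniteDimensional ℂ W] [CompleteSpace W]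
variable {A : Atl N p q k}

namespace Atl

theorem GE24_gr (i : Fin k) (a : Fin p ⊕ Fin q) :
    ContDiffOn ℝ ∞ (fun z => A.gr i a (A.ψ i z)) (ball 0 1) :=
  contDiffOn_iff.1 (smooth_gr i a) i

theorem GE24_proj {Q : Eu N → Submodule ℝ (Eu N)} (hQ : A.SubB Q) (i : Fin k) (a : Fin p ⊕ Fin q) :
    ContDiffOn ℝ ∞ (fun z => (Q (A.ψ i z)).starProjection (A.gr i a (A.ψ i z))) (ball 0 1) :=
  (contDiffOn_iff.1 hQ.1 i).clm_apply (GE24_gr i a)

theorem GE24_split (i : Fin k) (a : Fin p ⊕ Fin q) : ∃ f0 f1 : Eu p × Eu q → Eu N,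
    ContDiffOn ℝ ∞ f0 (ball 0 1) ∧ ContDiffOn ℝ ∞ f1 (ball 0 1) ∧
      ∀ h : ℝ, A.wh h i a = f0 + h • f1 := by
  rcases a with b | b
  · exact ⟨_, _, GE24_proj A.subB_F i (.inl b), GE24_proj A.subB_H i (.inl b), fun h => rfl⟩
  · refine ⟨_, 0, GE24_gr (A := A) i (.inr b), contDiffOn_const, fun h => ?_⟩
    funext z
    simp [wh]

theorem GE24_bd {G : Type} [NormedAddCommGroup G] {f : Eu p × Eu q → G} {r : ℝ} (hr : r < 1)
    (hf : ContinuousOn f (ball 0 1)) :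
    ∃ L : ℝ, 0 ≤ L ∧ ∀ z ∈ closedBall (0 : Eu p × Eu q) r, ‖f z‖ ≤ L := by
  obtain ⟨L, hL⟩ := (isCompact_closedBall (0 : Eu p × Eu q) r).exists_bound_of_continuousOn
    (hf.mono (closedBall_subset_ball hr))
  exact ⟨max L 0, le_max_right _ _, fun z hz => (hL z hz).trans (le_max_left _ _)⟩

theorem GE24_div {x y : ℝ} (hx : 0 ≤ x) (hy : 0 ≤ y) (h : x ^ 2 ≤ y * x) : x ≤ y := by
  rcases hx.eq_or_lt with h0 | h0
  · rw [← h0]; exact hy
  · nlinarith

theorem GE24_op {E F : Type} [NormedAddCommGroup E] [NormedSpace ℝ E] [NormedAddCommGroup F]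
    [NormedSpace ℝ F] (S T : E →L[ℝ] F) {h : ℝ} (hh : h ∈ Set.Icc (0 : ℝ) 1) :
    ‖S + h • T‖ ≤ ‖S‖ + ‖T‖ := by
  refine (norm_add_le _ _).trans ?_
  rw [norm_smul, Real.norm_eq_abs, abs_of_nonneg hh.1]
  nlinarith [hh.1, hh.2, norm_nonneg T]

theorem wh_smooth (h : ℝ) (i : Fin k) (a : Fin p ⊕ Fin q) :
    ContDiffOn ℝ ∞ (A.wh h i a) (ball 0 1) := by
  obtain ⟨f0, f1, h0, h1, e⟩ := GE24_split (A := A) i a
  rw [e]
  exact h0.add (h1.const_smul h)

theorem wh_ell (A : Atl N p q k) {r : ℝ} (hr : r < 1) (i : Fin k) : ∃ c : ℝ, 0 < c ∧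
    ∀ h ∈ Set.Icc (0 : ℝ) 1, ∀ z ∈ closedBall (0 : Eu p × Eu q) r, ∀ t : Fin p ⊕ Fin q → ℝ,
      c * ∑ a, t a ^ 2 ≤ ‖∑ a, t a • A.wh h i a z‖ ^ 2 := by
  obtain ⟨Λ, hΛ0, hΛ⟩ := GE24_bd (f := fun z => A.jd i z) hr
    (jd_smooth i).continuous.continuousOn
  choose L hL0 hL using fun b : Fin p => GE24_bd hr (GE24_gr (A := A) i (.inl b)).continuousOn
  set S : ℝ := ∑ b, L b with hS
  have hS0 : 0 ≤ S := Finset.sum_nonneg fun b _ => hL0 b
  set B : ℝ := Λ * (1 + 2 * (S * Λ)) with hB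
  refine ⟨(Λ ^ 2 + B ^ 2 + 1)⁻¹, by positivity, fun h hh z hz t => ?_⟩
  have hz1 : z ∈ ball (0 : Eu p × Eu q) 1 := closedBall_subset_ball hr hz
  set tx : Eu p := ∑ b, t (.inl b) • bs b with htx
  set ty : Eu q := ∑ b, t (.inr b) • bs b with hty
  have cx : ∀ b, ⟪bs b, tx⟫_ℝ = t (.inl b) := by
    intro b; simp [htx, inner_sum, inner_smul_right, inner_bs_bs]
  have cy : ∀ b, ⟪bs b, ty⟫_ℝ = t (.inr b) := by
    intro b; simp [hty, inner_sum, inner_smul_right, inner_bs_bs]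
  have nx : ‖tx‖ ^ 2 = ∑ b, t (.inl b) ^ 2 := by rw [norm_sq_bs]; simp only [cx]
  have ny : ‖ty‖ ^ 2 = ∑ b, t (.inr b) ^ 2 := by rw [norm_sq_bs]; simp only [cy]
  set m := A.ψ i z with hm
  set G : Eu N := ∑ b, t (.inl b) • A.gr i (.inl b) m with hG
  set G' : Eu N := ∑ b, t (.inr b) • A.gr i (.inr b) m with hG'
  set v : Eu N := ∑ a, t a • A.wh h i a z with hv
  have ev : v = (A.F m).starProjection G + h • (A.H m).starProjection G + G' := by
    simp only [hv, Fintype.sum_sum_type, wh, Sum.elim_inl, Sum.elim_inr, hG, hG', map_sum,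
      map_smul, smul_add, Finset.sum_add_distrib, Finset.smul_sum, smul_comm h, hm]
  have hG'H : G' ∈ A.H m := Submodule.sum_mem _ fun b _ =>
    Submodule.smul_mem _ _ (gr_inr_mem_H i b hz1)
  set w1 := A.jd i z (tx, 0) with hw1
  have hw1F : w1 ∈ A.F m := by
    rw [hm, F_eq' i hz1]; exact ⟨tx, rfl⟩
  have i1 : ⟪v, w1⟫_ℝ = ‖tx‖ ^ 2 := by
    have a1 : ⟪(A.H m).starProjection G, w1⟫_ℝ = 0 :=
      Submodule.inner_left_of_mem_orthogonal hw1F ((A.H m).starProjection_apply_mem G).1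
    have a2 : ⟪G', w1⟫_ℝ = 0 := Submodule.inner_left_of_mem_orthogonal hw1F hG'H.1
    rw [ev, inner_add_left, inner_add_left, real_inner_smul_left, a1, a2,
      Submodule.inner_starProjection_left_eq_right, Submodule.starProjection_eq_self_iff.2 hw1F,
      nx, hG, sum_inner]
    simp only [real_inner_smul_left, hw1, hm, inner_gr i _ hz1, crd, Sum.elim_inl, cx, sq]
    simp
  have i2 : ⟪G', A.jd i z (0, ty)⟫_ℝ = ‖ty‖ ^ 2 := by
    rw [ny, hG', sum_inner]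
    simp only [real_inner_smul_left, hm, inner_gr i _ hz1, crd, Sum.elim_inr, cy, sq]
  have n1 : ‖w1‖ ≤ Λ * ‖tx‖ := by
    refine (ContinuousLinearMap.le_opNorm _ _).trans ?_
    rw [Prod.norm_def, norm_zero, max_eq_left (norm_nonneg _)]
    exact mul_le_mul_of_nonneg_right (hΛ z hz) (norm_nonneg _)
  have n2 : ‖A.jd i z (0, ty)‖ ≤ Λ * ‖ty‖ := by
    refine (ContinuousLinearMap.le_opNorm _ _).trans ?_
    rw [Prod.norm_def, norm_zero, max_eq_right (norm_nonneg _)]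
    exact mul_le_mul_of_nonneg_right (hΛ z hz) (norm_nonneg _)
  have b1 : ‖tx‖ ≤ Λ * ‖v‖ := by
    apply GE24_div (norm_nonneg _) (by positivity)
    rw [← i1]
    refine (real_inner_le_norm _ _).trans ?_
    nlinarith [norm_nonneg v]
  have b2 : ‖ty‖ ≤ Λ * ‖G'‖ := by
    apply GE24_div (norm_nonneg _) (by positivity)
    rw [← i2]
    refine (real_inner_le_norm _ _).trans ?_
    nlinarith [norm_nonneg G']
  have b3 : ‖G‖ ≤ S * ‖tx‖ := by
    rw [hG, hS, Finset.sum_mul]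
    refine (norm_sum_le _ _).trans (Finset.sum_le_sum fun b _ => ?_)
    rw [norm_smul, mul_comm]
    refine mul_le_mul (hL b z hz) ?_ (norm_nonneg _) (hL0 b)
    rw [← cx b]
    simpa [norm_bs] using norm_inner_le_norm (𝕜 := ℝ) (bs b) tx
  have b4 : ‖G'‖ ≤ ‖v‖ + 2 * ‖G‖ := by
    have e : G' = v - (A.F m).starProjection G - h • (A.H m).starProjection G := by
      rw [ev]; abel
    have p1 := (A.F m).norm_starProjection_apply_le G
    have p2 : ‖h • (A.H m).starProjection G‖ ≤ ‖G‖ := by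
      rw [norm_smul, Real.norm_eq_abs, abs_of_nonneg hh.1]
      have := (A.H m).norm_starProjection_apply_le G
      nlinarith [hh.1, hh.2, norm_nonneg ((A.H m).starProjection G)]
    rw [e]
    have := norm_sub_le (v - (A.F m).starProjection G) (h • (A.H m).starProjection G)
    have := norm_sub_le v ((A.F m).starProjection G)
    linarith
  have b5 : ‖ty‖ ≤ B * ‖v‖ := by
    have : ‖G‖ ≤ S * (Λ * ‖v‖) := b3.trans (mul_le_mul_of_nonneg_left b1 hS0)
    refine b2.trans ?_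
    rw [hB, mul_assoc]
    exact mul_le_mul_of_nonneg_left (by nlinarith) hΛ0
  rw [Fintype.sum_sum_type, ← nx, ← ny, inv_mul_le_iff₀ (by positivity)]
  have s1 := pow_le_pow_left₀ (norm_nonneg _) b1 2
  have s2 := pow_le_pow_left₀ (norm_nonneg _) b5 2
  nlinarith [sq_nonneg ‖v‖]

theorem wh_bdd (A : Atl N p q k) {r : ℝ} (hr : r < 1) (i : Fin k) : ∃ L : ℝ,
    ∀ h ∈ Set.Icc (0 : ℝ) 1, ∀ a, ∀ z ∈ closedBall (0 : Eu p × Eu q) r,
      ‖A.wh h i a z‖ ≤ L ∧ ‖fderiv ℝ (A.wh h i a) z‖ ≤ L := by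
  have key : ∀ a, ∃ L : ℝ, 0 ≤ L ∧ ∀ h ∈ Set.Icc (0 : ℝ) 1, ∀ z ∈ closedBall (0 : Eu p × Eu q) r,
      ‖A.wh h i a z‖ ≤ L ∧ ‖fderiv ℝ (A.wh h i a) z‖ ≤ L := by
    intro a
    obtain ⟨f0, f1, h0, h1, e⟩ := GE24_split (A := A) i a
    obtain ⟨L1, p1, q1⟩ := GE24_bd hr h0.continuousOn
    obtain ⟨L2, p2, q2⟩ := GE24_bd hr h1.continuousOn
    obtain ⟨L3, p3, q3⟩ := GE24_bd hr (h0.continuousOn_fderiv_of_isOpen isOpen_ball (by simp))
    obtain ⟨L4, p4, q4⟩ := GE24_bd hr (h1.continuousOn_fderiv_of_isOpen isOpen_ball (by simp))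
    refine ⟨L1 + L2 + L3 + L4, by positivity, fun h hh z hz => ?_⟩
    have hz1 : z ∈ ball (0 : Eu p × Eu q) 1 := closedBall_subset_ball hr hz
    have d0 := diffAt_of_contDiffOn isOpen_ball h0 hz1
    have d1 := diffAt_of_contDiffOn isOpen_ball h1 hz1
    rw [e, fderiv_add d0 (d1.const_smul h), fderiv_const_smul d1]
    have := q1 z hz
    have := q3 z hz
    have a2 : ‖h • f1 z‖ ≤ L2 := by
      rw [norm_smul, Real.norm_eq_abs, abs_of_nonneg hh.1]
      nlinarith [q2 z hz, hh.1, hh.2, norm_nonneg (f1 z)]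
    have a5 := norm_add_le (f0 z) (h • f1 z)
    exact ⟨a5.trans (by linarith),
      (GE24_op _ _ hh).trans (by linarith [q4 z hz])⟩
  choose L hL0 hL using key
  refine ⟨∑ a, L a, fun h hh a z hz => ?_⟩
  have := Finset.single_le_sum (f := L) (fun a _ => hL0 a) (Finset.mem_univ a)
  exact ⟨(hL a h hh z hz).1.trans this, (hL a h hh z hz).2.trans this⟩

theorem wh_symbol (ε : Eu N →L[ℝ] W →L[ℂ] W) (h : ℝ) (i : Fin k) {z : Eu p × Eu q}
    (hz : z ∈ ball (0 : Eu p × Eu q) 1) (L : Eu p × Eu q →L[ℝ] W) :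
    ∑ a, (A.sy (clL ε) A.F i a z + (h : ℂ) • A.sy (clL ε) A.H i a z) (L (cb a)) =
      ∑ a, cl ε (A.wh h i a z) (L (cbh h a)) := by
  refine Finset.sum_congr rfl fun a _ => ?_
  rcases a with b | b
  · simp only [sy, wh, cb, cbh, Sum.elim_inl, ← clL_apply, map_add, map_smul, Complex.coe_smul]
  · rw [sy_F_inr _ _ _ hz, sy_H_inr _ _ _ hz]
    have : cbh h (.inr b : Fin p ⊕ Fin q) = h • cb (.inr b) := by simp [cbh, cb]
    rw [this, map_smul, zero_add, ← Complex.coe_smul, map_smul]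
    simp [wh]

end Atl

end Pool.Agent.P.MP_e0a138_an.AD
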