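import Pool.Agent.P.MP_e0a138_an.GE24
import Pool.Agent.P.MP_e0a138_an.GE22a
import Pool.Agent.P.MP_e0a138_an.GE16

set_option autoImplicit false
set_option linter.unusedSectionVars false
set_option linter.unusedVariables false

open MeasureTheory Filter Topology Metric Complex
open scoped ENNReal NNReal ContDiff InnerProductSpace ComplexConjugate

noncomputable section
namespace Pool.Agent.P.MP_e0a138_an.AD

variable {N p q k : ℕ} {W : Type} [NormedAddCommGroup W] [InnerProductSpace ℂ W]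
  [FiniteDimensional ℂ W] [CompleteSpace W]
variable {A : Atl N p q k} {ε : Eu N →L[ℝ] W →L[ℂ] W}

theorem ge25a_en {a b c d : W} {C : ℝ≥0} {ρ : ℝ} (hρ : 0 ≤ ρ)
    (h : ‖a‖ ^ 2 + ‖b‖ ^ 2 ≤ C * (ρ * (‖c‖ ^ 2 + ‖d‖ ^ 2))) :
    ‖a‖ₑ ^ 2 + ‖b‖ₑ ^ 2 ≤ C * (ENNReal.ofReal ρ * (‖c‖ₑ ^ 2 + ‖d‖ₑ ^ 2)) := by
  have e : ∀ x : W, ‖x‖ₑ ^ 2 = ENNReal.ofReal (‖x‖ ^ 2) := fun x => by
    rw [ENNReal.ofReal_pow (norm_nonneg _), ofReal_norm]
  rw [e, e, e, e, ← ENNReal.ofReal_add (by positivity) (by positivity),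
    ← ENNReal.ofReal_add (by positivity) (by positivity), ← ENNReal.ofReal_mul hρ,
    ← ENNReal.ofReal_coe_nnreal, ← ENNReal.ofReal_mul C.coe_nonneg]
  exact ENNReal.ofReal_le_ofReal h

theorem ge25a_bd {X G : Type} [TopologicalSpace X] [NormedAddCommGroup G] {K : Set X}
    (hK : IsCompact K) {f : X → G} (hf : ContinuousOn f K) :
    ∀ᶠ B : ℝ in atTop, ∀ z ∈ K, ‖f z‖ ≤ B := by
  obtain ⟨C, hC⟩ := hK.exists_bound_of_continuousOn hf
  filter_upwards [eventually_ge_atTop C] with B hB z hz using (hC z hz).trans hB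

theorem ge25a_op {P Q : W →L[ℂ] W} {B h : ℝ} (hh : h ∈ Set.Icc (0 : ℝ) 1) (hP : ‖P‖ ≤ B)
    (hQ : ‖Q‖ ≤ B) (x : W) : ‖(P + (h : ℂ) • Q) x‖ ≤ 2 * B * ‖x‖ := by
  refine ((P + (h : ℂ) • Q).le_opNorm x).trans (mul_le_mul_of_nonneg_right ?_ (norm_nonneg _))
  refine (norm_add_le _ _).trans ?_
  rw [norm_smul, Complex.norm_real, Real.norm_eq_abs, abs_of_nonneg hh.1]
  have := mul_le_mul hh.2 hQ (norm_nonneg _) zero_le_one
  linarith

namespace Atl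
variable {DF DH : (Eu N → W) → Eu N → W} {μ : Measure (Eu N)}

theorem Dir.loc_op (hD : A.Dir ε μ DF DH) (hμ : A.IsVol μ) (i : Fin k) : ∃ C : ℝ≥0,
    ∀ h ∈ Set.Icc (0 : ℝ) 1, ∀ u, A.Form ε u →
      (∫⁻ z, ‖∑ a, cl ε (A.wh h i a z) (fderiv ℝ (A.loc i u) z (cbh h a))‖ₑ ^ 2) +
        ∫⁻ z, ‖A.loc i u z‖ₑ ^ 2 ≤
        C * (∫⁻ m, ‖u m‖ₑ ^ 2 ∂μ + ∫⁻ m, ‖Dh DF DH h u m‖ₑ ^ 2 ∂μ) := by
  obtain ⟨r, hr0, hr1, hk⟩ := A.kap_props
  obtain ⟨ks, k0⟩ := hk i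
  obtain ⟨ZF, ZH, sF, sH, hZ⟩ := hD.chart i
  have hK : IsCompact (closedBall (0 : Eu p × Eu q) r) := isCompact_closedBall _ _
  have hKO : closedBall (0 : Eu p × Eu q) r ⊆ ball 0 1 := closedBall_subset_ball hr1
  obtain ⟨z0, hz0, hmin⟩ := hK.exists_isMinOn ⟨0, mem_closedBall_self hr0.le⟩
    (rho_continuous (A := A) i).continuousOn
  have hc0 : 0 < A.rho i z0 := rho_pos i (hKO hz0)
  have b1 := ge25a_bd hK ks.continuous.continuousOn
  have b2 := ge25a_bd hK (ks.continuous_fderiv (by simp)).continuousOn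
  have b3 := ge25a_bd hK (sF.continuousOn.mono hKO)
  have b4 := ge25a_bd hK (sH.continuousOn.mono hKO)
  have b5 := eventually_all.2 fun a =>
    ge25a_bd hK ((smooth_sy (clL ε) A.subB_F i a).continuousOn.mono hKO)
  have b6 := eventually_all.2 fun a =>
    ge25a_bd hK ((smooth_sy (clL ε) A.subB_H i a).continuousOn.mono hKO)
  obtain ⟨B, ⟨⟨b1, b2⟩, b3, b4⟩, ⟨b5, b6⟩, hB⟩ :=
    (((b1.and b2).and (b3.and b4)).and ((b5.and b6).and (eventually_ge_atTop 0))).exists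
  obtain ⟨M, hM⟩ : ∃ M : ℝ, M = B + Fintype.card (Fin p ⊕ Fin q) * (B * (2 * B)) + 2 * B * B :=
    ⟨_, rfl⟩
  have hM0 : 0 ≤ M := by rw [hM]; positivity
  obtain ⟨C, hC⟩ : ∃ C : ℝ≥0, (C : ℝ) = (2 * M ^ 2 + B ^ 2) / A.rho i z0 :=
    ⟨⟨_, by positivity⟩, rfl⟩
  refine ⟨C, fun h hh u hu => ?_⟩
  have key : ∀ z, ‖∑ a, cl ε (A.wh h i a z) (fderiv ℝ (A.loc i u) z (cbh h a))‖ₑ ^ 2 +
      ‖A.loc i u z‖ₑ ^ 2 ≤ (ball (0 : Eu p × Eu q) 1).indicator (fun z => (C : ℝ≥0∞) *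
        (ENNReal.ofReal (A.rho i z) * (‖u (A.ψ i z)‖ₑ ^ 2 + ‖Dh DF DH h u (A.ψ i z)‖ₑ ^ 2))) z := by
    intro z
    have l0 : ∀ x ∈ (Set.univ : Set (Eu p × Eu q)), x ∉ closedBall (0 : Eu p × Eu q) r →
        A.loc i u x = 0 := fun x _ hx => by simp [loc, k0 x hx]
    by_cases hz : z ∈ closedBall (0 : Eu p × Eu q) r
    swap
    · rw [fderiv_eq_zero_of_closed isOpen_univ isClosed_closedBall l0 trivial hz, l0 z trivial hz]
      simp
    have hzO := hKO hz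
    rw [Set.indicator_of_mem hzO]
    refine ge25a_en (rho_nonneg i z) ?_
    have dk : DifferentiableAt ℝ (A.kap i) z := ks.differentiable (by simp) z
    have dc : DifferentiableAt ℝ (fun y => (A.kap i y : ℂ)) z :=
      ofRealCLM.differentiableAt.comp z dk
    have du := diffAt_of_contDiffOn isOpen_ball (hu.chart i).1 hzO
    have e1 := op_smul (b := cb)
      (A := fun a z => A.sy (clL ε) A.F i a z + (h : ℂ) • A.sy (clL ε) A.H i a z)
      (B := fun z => ZF z + (h : ℂ) • ZH z) dc du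
    rw [← hZ h u hu z hzO, op, wh_symbol ε h i hzO] at e1
    have e2 : ∑ a, cl ε (A.wh h i a z) (fderiv ℝ (A.loc i u) z (cbh h a)) =
        (A.kap i z : ℂ) • Dh DF DH h u (A.ψ i z) +
          ∑ a, fderiv ℝ (fun y => (A.kap i y : ℂ)) z (cb a) •
            (A.sy (clL ε) A.F i a z + (h : ℂ) • A.sy (clL ε) A.H i a z) (u (A.ψ i z)) -
          (ZF z + (h : ℂ) • ZH z) (A.loc i u z) := eq_sub_of_add_eq e1
    have n1 : ∀ x : W, ‖(A.kap i z : ℂ) • x‖ ≤ B * ‖x‖ := fun x => by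
      rw [norm_smul, Complex.norm_real]
      exact mul_le_mul_of_nonneg_right (b1 z hz) (norm_nonneg _)
    have n2 : ‖A.loc i u z‖ ≤ B * ‖u (A.ψ i z)‖ := n1 _
    have n3 : ‖∑ a, fderiv ℝ (fun y => (A.kap i y : ℂ)) z (cb a) •
        (A.sy (clL ε) A.F i a z + (h : ℂ) • A.sy (clL ε) A.H i a z) (u (A.ψ i z))‖ ≤
        Fintype.card (Fin p ⊕ Fin q) * (B * (2 * B * ‖u (A.ψ i z)‖)) := by
      refine (norm_sum_le _ _).trans ?_
      rw [← nsmul_eq_mul, ← Finset.card_univ]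
      refine Finset.sum_le_card_nsmul _ _ _ fun a _ => ?_
      rw [norm_smul, fderiv_ofReal dk, Complex.norm_real]
      refine mul_le_mul ?_ (ge25a_op hh (b5 a z hz) (b6 a z hz) _) (norm_nonneg _) hB
      refine ((fderiv ℝ (A.kap i) z).le_opNorm _).trans ?_
      have := mul_le_mul (b2 z hz) (norm_cb_le a) (norm_nonneg _) hB
      linarith
    have n4 := (ge25a_op hh (b3 z hz) (b4 z hz) (A.loc i u z)).trans
      (mul_le_mul_of_nonneg_left n2 (by positivity))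
    have n5 := n1 (Dh DF DH h u (A.ψ i z))
    have n6 := (norm_sub_le _ _).trans (add_le_add ((norm_add_le _ _).trans (add_le_add n5 n3)) n4)
    rw [← e2] at n6
    have x0 := norm_nonneg (u (A.ψ i z))
    have y0 := norm_nonneg (Dh DF DH h u (A.ψ i z))
    have m1 : B ≤ M := by
      have : 0 ≤ Fintype.card (Fin p ⊕ Fin q) * (B * (2 * B)) + 2 * B * B := by positivity
      linarith
    have n7 : ‖∑ a, cl ε (A.wh h i a z) (fderiv ℝ (A.loc i u) z (cbh h a))‖ ≤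
        M * (‖u (A.ψ i z)‖ + ‖Dh DF DH h u (A.ψ i z)‖) := by
      have a1 := mul_le_mul_of_nonneg_right m1 y0
      have a2 : M * ‖u (A.ψ i z)‖ = B * ‖u (A.ψ i z)‖ +
          Fintype.card (Fin p ⊕ Fin q) * (B * (2 * B * ‖u (A.ψ i z)‖)) +
          2 * B * (B * ‖u (A.ψ i z)‖) := by rw [hM]; ring
      have a3 := mul_nonneg hB x0
      linarith
    have n8 := pow_le_pow_left₀ (norm_nonneg _) n7 2
    have n9 := pow_le_pow_left₀ (norm_nonneg _) n2 2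
    have r1 : 2 * M ^ 2 + B ^ 2 ≤ C * A.rho i z := by
      rw [hC, div_mul_eq_mul_div, le_div_iff₀ hc0]
      exact mul_le_mul_of_nonneg_left (hmin hz) (by positivity)
    have r2 := mul_le_mul_of_nonneg_right r1
      (by positivity : 0 ≤ ‖u (A.ψ i z)‖ ^ 2 + ‖Dh DF DH h u (A.ψ i z)‖ ^ 2)
    have r3 := mul_nonneg (sq_nonneg M) (sq_nonneg (‖u (A.ψ i z)‖ - ‖Dh DF DH h u (A.ψ i z)‖))
    have r4 := mul_nonneg (sq_nonneg B) (sq_nonneg ‖Dh DF DH h u (A.ψ i z)‖)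
    linarith
  refine (le_lintegral_add _ _).trans ((lintegral_mono key).trans ?_)
  rw [lintegral_indicator measurableSet_ball, lintegral_const_mul' _ _ ENNReal.coe_ne_top,
    ← lintegral_wm measurableSet_ball (rho_continuous i).continuousOn,
    ← lintegral_add_left' ((hμ.aesm hu.1.continuousOn).enorm.pow_const 2)]
  exact mul_le_mul_right (hμ.lintegral_le i fun m => ‖u m‖ₑ ^ 2 + ‖Dh DF DH h u m‖ₑ ^ 2) _

end Atl

end Pool.Agent.P.MP_e0a138_an.AD
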