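import Pool.Agent.P.MP_e0a138_an.GE25a
import Pool.Agent.P.MP_e0a138_an.GE22c
import Pool.Agent.P.MP_e0a138_an.AN7b
import Pool.Agent.P.MP_e0a138_an.AN10
import Pool.Agent.P.MP_e0a138_an.AB6

set_option autoImplicit false
set_option linter.unusedSectionVars false
set_option linter.unusedVariables false

open MeasureTheory Filter Topology Metric Complex
open scoped ENNReal NNReal ContDiff InnerProductSpace ComplexConjugate

noncomputable section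
namespace Pool.Agent.P.MP_e0a138_an.AD

variable {N p q k : ℕ} {W : Type} [NormedAddCommGroup W] [InnerProductSpace ℂ W]
  [FiniteDimensional ℂ W] [CompleteSpace W]
variable {A : Atl N p q k} {ε : Eu N →L[ℝ] W →L[ℂ] W}

namespace Atl
variable {DF DH : (Eu N → W) → Eu N → W} {μ : Measure (Eu N)}

theorem Dir.tail_form (hD : A.Dir ε μ DF DH) (hε : IsCAR ε) (hμ : A.IsVol μ) {β : Eu q → ℝ}
    (hβ : ContDiff ℝ ∞ β) (hc : HasCompactSupport β) : ∃ C : ℝ≥0, ∀ h ∈ Set.Ioc (0 : ℝ) 1,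
      ∀ u, A.Form ε u →
      ∑ i, ∫⁻ o, ENNReal.ofReal (‖o.1‖ ^ 2 + ‖o.2.2‖ ^ 2) * ‖Lam β h (A.loc i u) o‖ₑ ^ 2 ≤
        ENNReal.ofReal ((2 * Real.pi * h) ^ q) * C *
          (∫⁻ m, ‖u m‖ₑ ^ 2 ∂μ + ∫⁻ m, ‖Dh DF DH h u m‖ₑ ^ 2 ∂μ) := by
  obtain ⟨r, -, hr, hk⟩ := A.kap_props
  obtain ⟨C1, h1⟩ := Lam_tail (W := W) hβ hc p
  choose c hc0 hell using fun i => A.wh_ell hr i
  choose L hL using fun i => A.wh_bdd hr i
  choose Cg hg using fun i =>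
    garding (E := Eu p × Eu q) hε (Fin p ⊕ Fin q) (L i) (hc0 i)
  choose Cl hl using fun i => hD.loc_op hμ i
  refine ⟨∑ i, C1 * ((Cg i + 1) * Cl i), fun h hh u hu => ?_⟩
  have hh' : h ∈ Set.Icc (0 : ℝ) 1 := ⟨hh.1.le, hh.2⟩
  rw [ENNReal.ofNNReal_finsetSum, Finset.mul_sum, Finset.sum_mul]
  refine Finset.sum_le_sum fun i _ => ?_
  obtain ⟨s1, s2⟩ := loc_smooth hu.1 i
  have g1 := hg i (ball 0 1) (closedBall 0 r) (A.wh h i) (cbh h) (A.loc i u) isOpen_ball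
    (isCompact_closedBall _ _) (closedBall_subset_ball hr) (wh_smooth h i) (hell i h hh')
    (hL i h hh') (norm_cbh_le hh'.1 hh'.2) s1 fun x hx => by simp [loc, (hk i).2 x hx]
  have l1 := hl i h hh' u hu
  refine (h1 h hh _ s1 s2).trans ?_
  push_cast
  rw [← mul_assoc _ (C1 : ℝ≥0∞), mul_assoc _ (_ * (Cl i : ℝ≥0∞)), mul_assoc _ (Cl i : ℝ≥0∞)]
  refine mul_le_mul_right (le_trans ?_ (mul_le_mul_right l1 _)) _
  rw [add_mul, one_mul]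
  exact add_le_add g1 le_add_self

theorem Dir.tail_res (hD : A.Dir ε μ DF DH) (hε : IsCAR ε) (hμ : A.IsVol μ) {β : Eu q → ℝ}
    (hβ : ContDiff ℝ ∞ β) (hc : HasCompactSupport β) : ∃ C : ℝ≥0, ∀ h ∈ Set.Ioc (0 : ℝ) 1,
      ∀ R, IsRes (A.grM ε μ (Dh DF DH h)) R → ∀ (v : Lp W 2 μ) (K : ℕ),
      ∑ j, ∫⁻ o in (Om p q K)ᶜ, ‖⟪A.wv ε μ β h j o, R v⟫_ℂ‖ₑ ^ 2 ≤
        C / K ^ 2 * (ENNReal.ofReal ((2 * Real.pi * h) ^ q) * ‖v‖ₑ ^ 2) := by
  obtain ⟨C, hC⟩ := hD.tail_form hε hμ hβ hc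
  refine ⟨C, fun h hh R hR v K => ?_⟩
  have ha : Measurable fun o : Eu p × Eu q × Eu q => ENNReal.ofReal (‖o.1‖ ^ 2 + ‖o.2.2‖ ^ 2) := by
    fun_prop
  have hw := fun j => wv_measurable (A := A) hε hμ hβ.continuous hc h j
  have key := tail_ext (hD.essSA_M hε hμ h) hR (hD.grM_span hμ h) volume hw ha
    (fun _ => ENNReal.ofReal_ne_top) (C := ENNReal.ofReal ((2 * Real.pi * h) ^ q) * C)
    (ENNReal.mul_ne_top ENNReal.ofReal_ne_top ENNReal.coe_ne_top) (by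
      rintro g ⟨u, hu, e1, e2⟩
      rw [wv_sum hε hμ hβ.continuous hc h ha e1 (hμ.ae_mem.mono fun m hm => hu.2 m hm),
        enorm_sq_eq_of_ae e1, enorm_sq_eq_of_ae e2]
      exact hC h hh u hu) v
  have hO : MeasurableSet (Om p q K) :=
    measurableSet_closedBall.prod (MeasurableSet.univ.prod measurableSet_closedBall)
  have h1 : ∀ o ∈ (Om p q K)ᶜ,
      1 ≤ ((K : ℝ≥0∞) ^ 2)⁻¹ * ENNReal.ofReal (‖o.1‖ ^ 2 + ‖o.2.2‖ ^ 2) := fun o ho => by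
    have hK : (0 : ℝ) ≤ K := K.cast_nonneg
    have hlt : (K : ℝ) ^ 2 < ‖o.1‖ ^ 2 + ‖o.2.2‖ ^ 2 := by
      by_contra hn
      push Not at hn
      refine ho ⟨mem_closedBall_zero_iff.2 ?_, trivial, mem_closedBall_zero_iff.2 ?_⟩ <;>
        refine (pow_le_pow_iff_left₀ (norm_nonneg _) hK two_ne_zero).1 ?_ <;>
        nlinarith [sq_nonneg ‖o.1‖, sq_nonneg ‖o.2.2‖]
    rw [← ENNReal.div_eq_inv_mul, ENNReal.le_div_iff_mul_le
      (.inr (ENNReal.ofReal_pos.2 (lt_of_le_of_lt (sq_nonneg _) hlt)).ne')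
      (.inr ENNReal.ofReal_ne_top), one_mul, ← ENNReal.ofReal_natCast, ← ENNReal.ofReal_pow hK]
    exact ENNReal.ofReal_le_ofReal hlt.le
  calc _ ≤ ∑ j, ((K : ℝ≥0∞) ^ 2)⁻¹ * ∫⁻ o, ENNReal.ofReal (‖o.1‖ ^ 2 + ‖o.2.2‖ ^ 2) *
        ‖⟪A.wv ε μ β h j o, R v⟫_ℂ‖ₑ ^ 2 := by
        refine Finset.sum_le_sum fun j _ => ?_
        rw [← lintegral_const_mul _ (ha.fun_mul ((hw j (R v)).enorm.pow_const 2))]
        refine (setLIntegral_mono' hO.compl fun o ho => ?_).trans (setLIntegral_le_lintegral _ _)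
        rw [← mul_assoc]
        exact le_mul_of_one_le_left' (h1 o ho)
    _ ≤ ((K : ℝ≥0∞) ^ 2)⁻¹ * (ENNReal.ofReal ((2 * Real.pi * h) ^ q) * C * ‖v‖ₑ ^ 2) := by
        rw [← Finset.mul_sum]
        exact mul_le_mul_right key _
    _ = _ := by
        rw [ENNReal.div_eq_inv_mul]
        ring

end Atl

end Pool.Agent.P.MP_e0a138_an.AD
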