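import Pool.Agent.P.MP_e0a138_an.GE22b
import Pool.Agent.P.MP_e0a138_an.GE17a

set_option autoImplicit false
set_option linter.unusedSectionVars false
set_option linter.unusedVariables false

open MeasureTheory Filter Topology Metric Complex
open scoped ENNReal NNReal ContDiff InnerProductSpace ComplexConjugate

noncomputable section
namespace Pool.Agent.P.MP_e0a138_an.AD

variable {N p q k : ℕ} {W : Type} [NormedAddCommGroup W] [InnerProductSpace ℂ W]
  [FiniteDimensional ℂ W] [CompleteSpace W]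
variable {A : Atl N p q k} {ε : Eu N →L[ℝ] W →L[ℂ] W}

namespace Atl
variable {l : Measure (Eu N × Eu N)} {t : Tr q k}

theorem leaf_loc (hε : IsCAR ε) (ht : t.2.1 ∈ ball (0 : Eu q) 1) (hl : A.IsLeaf t l) {c : ℝ≥0}
    (hc0 : c ≠ 0) (hc : l.restrict (A.plq t) = c • A.pm t) (v : Lp W 2 l) :
    ∃ g : Eu p → W, Integrable g ∧ MemLp g 2 volume ∧
      (∀ ξ e, ⟪A.sec l t (A.uf ε t.1 ξ e), v⟫_ℂ =
        (c : ℂ) * ⟪e, ∫ x, cexp (-(2 * Real.pi * I * ((⟪ξ, x⟫_ℝ : ℝ) : ℂ))) • g x⟫_ℂ) ∧
      ((∀ᵐ z ∂l, A.Pi ε z.1 (v z) = v z) → c * ∫⁻ x, ‖g x‖ₑ ^ 2 =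
        ∫⁻ z, ‖(((A.plq t).indicator (fun z => A.χ t.1 z.1) z : ℝ) : ℂ) • v z‖ₑ ^ 2 ∂l) := by
  have hE := emb_plq ht hc
  have hcp : (0 : ℝ) < c := NNReal.coe_pos.2 (pos_iff_ne_zero.2 hc0)
  have hO : MeasurableSet (ball (0 : Eu p) 1) := measurableSet_ball
  have hin : Continuous fun x : Eu p => (x, t.2.1) := by fun_prop
  have hmem : ∀ x ∈ ball (0 : Eu p) 1, (x, t.2.1) ∈ ball (0 : Eu p × Eu q) 1 :=
    fun x hx => mem_ball_prod.2 ⟨hx, ht⟩
  have hρc : ContinuousOn (fun x : Eu p => (c : ℝ) * A.rho t.1 (x, t.2.1)) (ball 0 1) :=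
    (continuous_const.mul ((rho_continuous t.1).comp hin)).continuousOn
  have hρ0 : ∀ x ∈ ball (0 : Eu p) 1, 0 < (c : ℝ) * A.rho t.1 (x, t.2.1) :=
    fun x hx => mul_pos hcp (rho_pos t.1 (hmem x hx))
  obtain ⟨r, hr0, hr1, hk⟩ := A.kap_props
  obtain ⟨hks, hk0⟩ := hk t.1
  have hKO : closedBall (0 : Eu p) r ⊆ ball 0 1 := closedBall_subset_ball hr1
  have hk0' : ∀ x ∉ closedBall (0 : Eu p) r, A.kap t.1 (x, t.2.1) = 0 := fun x hx =>
    hk0 _ fun h => hx (mem_closedBall_prod.1 h).1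
  have hkc : Continuous fun x : Eu p => A.kap t.1 (x, t.2.1) := hks.continuous.comp hin
  obtain ⟨C, hC⟩ := (isCompact_closedBall (0 : Eu p) r).exists_bound_of_continuousOn
    hkc.continuousOn
  set g : Eu p → W := fun x =>
    (A.kap t.1 (x, t.2.1) : ℂ) • A.Pi ε (A.ψ t.1 (x, t.2.1)) (v (A.gam t x)) with hg
  have hg0 : ∀ x ∉ closedBall (0 : Eu p) r, g x = 0 := fun x hx => by simp [hg, hk0' x hx]
  have hv := hE.memLp_comp (Lp.memLp v)
  have hPc : ContinuousOn (fun x : Eu p => A.Pi ε (A.ψ t.1 (x, t.2.1))) (ball 0 1) :=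
    (continuousOn_chart (A.smooth_Pi hε).continuousOn t.1).comp hin.continuousOn hmem
  have hgm : MemLp g 2 (wm (ball 0 1) fun x => (c : ℝ) * A.rho t.1 (x, t.2.1)) := by
    refine MemLp.of_le_mul (c := |C|) hv ?_ (Eventually.of_forall fun x => ?_)
    · refine AEStronglyMeasurable.smul
        (aesm_wm hO (Complex.continuous_ofReal.comp hkc).continuousOn) ?_
      exact isBoundedBilinearMap_apply.continuous.comp_aestronglyMeasurable
        ((aesm_wm hO hPc).prodMk hv.1)
    · by_cases hx : x ∈ closedBall (0 : Eu p) r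
      · rw [hg]
        simp only [norm_smul, Complex.norm_real]
        refine mul_le_mul ((hC x hx).trans (le_abs_self C)) ?_ (norm_nonneg _) (abs_nonneg C)
        refine (ContinuousLinearMap.le_opNorm _ _).trans ?_
        exact mul_le_of_le_one_left (norm_nonneg _) (norm_proj_le (Pi_idem _) (Pi_star _))
      · rw [hg0 x hx, norm_zero]
        positivity
  have hg2 : MemLp g 2 volume :=
    (memLp_wm_iff hO (isCompact_closedBall 0 r) hKO hρc hρ0 hg0).1 hgm
  have hg1 : Integrable g := by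
    have : IsFiniteMeasure ((volume : Measure (Eu p)).restrict (closedBall 0 r)) :=
      isFiniteMeasure_restrict.2 measure_closedBall_lt_top.ne
    have : IntegrableOn g (closedBall 0 r) := (hg2.restrict _).integrable one_le_two
    exact this.integrable_of_forall_notMem_eq_zero hg0
  refine ⟨g, hg1, hg2, fun ξ e => ?_, fun hP => ?_⟩
  · obtain ⟨r', C', -, hu⟩ := A.uf_props hε
    have huc : ContinuousOn (A.uf ε t.1 ξ e) A.M := (hu t.1 ξ e).1.1.continuousOn
    have hI : Integrable fun x : Eu p =>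
        cexp (-(2 * Real.pi * I * ((⟪ξ, x⟫_ℝ : ℝ) : ℂ))) • g x := by
      refine hg1.norm.mono' (AEStronglyMeasurable.smul ?_ hg1.1) (Eventually.of_forall fun x => ?_)
      · exact Continuous.aestronglyMeasurable (by fun_prop)
      · have : ‖cexp (-(2 * Real.pi * I * ((⟪ξ, x⟫_ℝ : ℝ) : ℂ)))‖ = 1 := by
          rw [Complex.norm_exp]
          simp
        rw [norm_smul, this, one_mul]
    rw [inner_eq_of_ae (sec_ae ht hl Relation.ReflTransGen.refl huc) (ae_eq_refl _), plq_eq ht,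
      hE.inner_ind, integral_wm hO hρc fun x hx => (hρ0 x hx).le, ← integral_inner hI,
      ← integral_const_mul]
    refine Eq.trans (setIntegral_congr_fun hO fun x hx => ?_)
      (setIntegral_eq_integral_of_forall_compl_eq_zero (s := ball (0 : Eu p) 1)
        (fun x hx => by simp [hg0 x fun h => hx (hKO h)]))
    have h1 := uf_inner (A := A) (ε := ε) t.1 ξ e (v (A.gam t x)) (hmem x hx)
    simp only [mul_smul]
    rw [show (A.gam t x).1 = A.ψ t.1 (x, t.2.1) from rfl, h1, Complex.real_smul]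
  · have h1 : ∀ z, (((A.plq t).indicator (fun z => A.χ t.1 z.1) z : ℝ) : ℂ) • v z =
        (A.gam t '' ball 0 1).indicator (fun z => (A.χ t.1 z.1 : ℂ) • v z) z := by
      intro z
      rw [plq_eq ht]
      by_cases hz : z ∈ A.gam t '' ball 0 1
      · rw [Set.indicator_of_mem hz, Set.indicator_of_mem hz]
      · rw [Set.indicator_of_notMem hz, Set.indicator_of_notMem hz]
        simp
    simp only [h1]
    have h2 := (ae_wm_iff hO hρc hρ0).1 (hE.ae_iff.1 (hP.mono fun z hz _ => hz))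
    rw [hE.lintegral_ind, lintegral_wm hO hρc, ← lintegral_const_mul' _ _ ENNReal.coe_ne_top,
      ← setLIntegral_eq_of_support_subset (s := ball (0 : Eu p) 1) ?_]
    · refine setLIntegral_congr_fun_ae hO (h2.mono fun x hx hxO => ?_)
      have h3 := hx hxO
      have h4 := kap_sq (A := A) t.1 (hmem x hxO)
      rw [show (A.gam t x).1 = A.ψ t.1 (x, t.2.1) from rfl] at h3 ⊢
      simp only [hg, h3]
      rw [← ofReal_norm, ← ofReal_norm, ← ENNReal.ofReal_pow (norm_nonneg _),
        ← ENNReal.ofReal_pow (norm_nonneg _), ← ENNReal.ofReal_mul (hρ0 x hxO).le,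
        ← ENNReal.ofReal_coe_nnreal, ← ENNReal.ofReal_mul hcp.le]
      congr 1
      simp only [norm_smul, Complex.norm_real, mul_pow, Real.norm_eq_abs, sq_abs, h4]
      ring
    · intro x hx
      by_contra hxO
      exact hx (by simp [hg0 x fun h => hxO (hKO h)])

end Atl

end Pool.Agent.P.MP_e0a138_an.AD
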