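import Pool.Agent.P.MP_e0a138_an.GE26a
import Pool.Agent.P.MP_e0a138_an.AB3
import Pool.Agent.P.MP_e0a138_an.AB5b
import Pool.Agent.P.MP_e0a138_an.AB2

set_option autoImplicit false
set_option linter.unusedSectionVars false
set_option linter.unusedVariables false

open MeasureTheory Filter Topology Metric Complex
open scoped ENNReal NNReal ContDiff InnerProductSpace ComplexConjugate

noncomputable section
namespace Pool.Agent.P.MP_e0a138_an.AD

variable {N p q k : ℕ} {W : Type} [NormedAddCommGroup W] [InnerProductSpace ℂ W]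
  [FiniteDimensional ℂ W] [CompleteSpace W]
variable {A : Atl N p q k} {ε : Eu N →L[ℝ] W →L[ℂ] W}

theorem GE26b_sq {H : Type} [NormedAddCommGroup H] [InnerProductSpace ℂ H] [CompleteSpace H]
    {S : H →L[ℂ] H} (hS : star S = S) (w : H) :
    ENNReal.ofReal (⟪w, (S * S) w⟫_ℂ).re = ‖S w‖ₑ ^ 2 := by
  have h1 : ⟪w, (S * S) w⟫_ℂ = ⟪S w, S w⟫_ℂ := by
    have h2 := ContinuousLinearMap.adjoint_inner_right S w (S w)
    rw [← ContinuousLinearMap.star_eq_adjoint, hS] at h2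
    exact h2
  have h3 : (⟪S w, S w⟫_ℂ).re = ‖S w‖ ^ 2 := inner_self_eq_norm_sq (𝕜 := ℂ) (S w)
  rw [h1, h3, ENNReal.ofReal_pow (norm_nonneg _), ofReal_norm]

namespace Atl
variable {DF DH : (Eu N → W) → Eu N → W} {μ : Measure (Eu N)} {l : Measure (Eu N × Eu N)}
  {t : Tr q k}

theorem Dir.leaf_frame (hD : A.Dir ε μ DF DH) (hε : IsCAR ε) (ht : t.2.1 ∈ ball (0 : Eu q) 1)
    (hl : A.IsLeaf t l) {c : ℝ≥0} (hc0 : c ≠ 0) (hc : l.restrict (A.plq t) = c • A.pm t)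
    (hG : EssSA (A.grL ε DF t l)) {S : Lp W 2 l →L[ℂ] Lp W 2 l} (hS : IsRes (A.grL ε DF t l) S)
    {f : ℝ → ℝ} (hf : Continuous f) (hfc : HasCompactSupport f) (h0 : ∀ x, 0 ≤ f x) :
    ∑ e, ∫⁻ ξ, (c : ℝ≥0∞)⁻¹ * ENNReal.ofReal
      (⟪A.sec l t (A.uf ε t.1 ξ (stdOrthonormalBasis ℂ W e)),
        fc f S (A.sec l t (A.uf ε t.1 ξ (stdOrthonormalBasis ℂ W e)))⟫_ℂ).re =
      tr ((A.plq t).indicator fun z => A.χ t.1 z.1) (fc f S) := by
  have := IsLeaf.separable (W := W) ht hl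
  obtain ⟨-, -, -, hn, hK⟩ := IsRes.props hG hS
  obtain ⟨C, hC⟩ := fc_sqrt hf hfc h0
  obtain ⟨S', h1, h2, -, h3⟩ := hC _ S hn
  have hw : AEStronglyMeasurable ((A.plq t).indicator fun z : Eu N × Eu N => A.χ t.1 z.1) l :=
    (IsLeaf.aesm ht hl (A.χ_smooth t.1).continuous.continuousOn).indicator (measurableSet_plq t)
  have hb : ∀ᵐ z ∂l, |(A.plq t).indicator (fun z : Eu N × Eu N => A.χ t.1 z.1) z| ≤ 1 :=
    Eventually.of_forall fun z => by
      by_cases hz : z ∈ A.plq t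
      · rw [Set.indicator_of_mem hz]
        exact (sq_le_one_iff_abs_le_one _).1 (χ_sq_le (plq_fst hz).1 t.1)
      · rw [Set.indicator_of_notMem hz, abs_zero]; exact zero_le_one
  obtain ⟨M, hM, hMv, hT⟩ := exists_mul_real (W := W) hw hb
  have hm : ∀ (j : Fin (Module.finrank ℂ W)) (u : Lp W 2 l), Measurable fun ξ : Eu p =>
      ⟪A.sec l t (A.uf ε t.1 ξ (stdOrthonormalBasis ℂ W j)), u⟫_ℂ := fun j u => by
    obtain ⟨g, g1, -, g3, -⟩ := leaf_loc hε ht hl hc0 hc u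
    simp only [g3]
    exact (continuous_const.mul (continuous_const.inner (fourier_continuous g1))).measurable
  have hcT : (c : ℝ≥0∞) ≠ ⊤ := ENNReal.coe_ne_top
  have hcZ : (c : ℝ≥0∞) ≠ 0 := ENNReal.coe_ne_zero.2 hc0
  have key := frame_eq (volume : Measure (Eu p))
    (w := fun j ξ => A.sec l t (A.uf ε t.1 ξ (stdOrthonormalBasis ℂ W j))) hm hM h1 (c : ℝ≥0∞)
    fun e => by
      obtain ⟨g, g1, g2, g3, g4⟩ := leaf_loc hε ht hl hc0 hc (S' e)
      obtain ⟨v, hv, -⟩ := h3 e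
      have g5 := g4 (hD.inK_valL hε ht hl (hv ▸ hK v))
      have g6 : ‖(c : ℂ)‖ₑ = c := by
        rw [← ofReal_norm, Complex.norm_real, Real.norm_eq_abs, NNReal.abs_eq,
          ENNReal.ofReal_coe_nnreal]
      have g7 : ∀ j : Fin (Module.finrank ℂ W), Measurable fun ξ : Eu p =>
          ‖⟪stdOrthonormalBasis ℂ W j,
            ∫ x, cexp (-(2 * Real.pi * I * ((⟪ξ, x⟫_ℝ : ℝ) : ℂ))) • g x⟫_ℂ‖ₑ ^ 2 := fun j =>
        (continuous_const.inner (fourier_continuous g1)).measurable.enorm.pow_const 2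
      simp only [g3, enorm_mul, mul_pow, g6]
      rw [enorm_sq_eq_of_ae (hMv (S' e)), ← g5, ← plancherel g1 g2]
      simp only [lintegral_const_mul' _ _ (ENNReal.pow_ne_top hcT)]
      rw [← Finset.mul_sum, ← lintegral_finsetSum _ fun j _ => g7 j]
      simp only [sum_basis_enorm]
      rw [sq, mul_assoc]
  rw [hT, ← h2]
  simp only [GE26b_sq h1, lintegral_const_mul' _ _ (ENNReal.inv_ne_top.2 hcZ)]
  rw [← Finset.mul_sum, key, ← mul_assoc, ENNReal.inv_mul_cancel hcZ hcT, one_mul]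

end Atl

end Pool.Agent.P.MP_e0a138_an.AD
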