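import Pool.Agent.P.MP_e0a138_an.GE2

set_option autoImplicit false
set_option linter.unusedSectionVars false
set_option linter.unusedVariables false

open MeasureTheory Filter Topology Metric Complex
open scoped ENNReal NNReal ContDiff InnerProductSpace ComplexConjugate

noncomputable section
namespace Pool.Agent.P.MP_e0a138_an.AD

variable {N p q k : ℕ} {W : Type} [NormedAddCommGroup W] [InnerProductSpace ℂ W]
  [FiniteDimensional ℂ W] [CompleteSpace W]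
variable {A : Atl N p q k} {ε : Eu N →L[ℝ] W →L[ℂ] W}

namespace Atl

theorem GE3_eq_of_inner {S : Submodule ℝ (Eu N)} {t t' : Eu N} (ht : t ∈ S) (ht' : t' ∈ S)
    (h : ∀ w ∈ S, ⟪t, w⟫_ℝ = ⟪t', w⟫_ℝ) : t = t' := by
  have h1 := h (t - t') (S.sub_mem ht ht')
  rw [← sub_eq_zero, ← inner_sub_left, inner_self_eq_zero] at h1
  exact sub_eq_zero.1 h1

theorem inner_shp0 {m t : Eu N} (ξ : Eu N) (ht : A.JL m t ∈ A.T m) :
    ⟪(A.T m).starProjection ((ContinuousLinearMap.adjoint (A.JL m)).inverse ξ), A.JL m t⟫_ℝ =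
      ⟪ξ, t⟫_ℝ := by
  rw [Submodule.inner_starProjection_left_eq_right, Submodule.starProjection_eq_self_iff.2 ht,
    inner_inv]

theorem shp_spec (m ξ : Eu N) :
    A.shp m ξ ∈ A.T m ∧ ∀ v, A.J m v ∈ A.T m → ⟪A.shp m ξ, A.J m v⟫_ℝ = ⟪ξ, v⟫_ℝ :=
  Classical.epsilon_spec (p := fun t => t ∈ A.T m ∧
    ∀ v, A.J m v ∈ A.T m → ⟪t, A.J m v⟫_ℝ = ⟪ξ, v⟫_ℝ)
    ⟨_, Submodule.starProjection_apply_mem _ _, fun _ hv => inner_shp0 ξ hv⟩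

theorem shp_mem (m ξ : Eu N) : A.shp m ξ ∈ A.T m := (shp_spec m ξ).1

theorem inner_shp {m t : Eu N} (ξ : Eu N) (ht : A.JL m t ∈ A.T m) :
    ⟪A.shp m ξ, A.JL m t⟫_ℝ = ⟪ξ, t⟫_ℝ := (shp_spec m ξ).2 t ht

theorem shp_eq (m ξ : Eu N) :
    A.shp m ξ = (A.T m).starProjection ((ContinuousLinearMap.adjoint (A.JL m)).inverse ξ) := by
  refine GE3_eq_of_inner (shp_mem m ξ) (Submodule.starProjection_apply_mem _ _) fun w hw => ?_
  obtain ⟨w, rfl⟩ := J_surj (A := A) m w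
  rw [inner_shp _ hw, inner_shp0 _ hw]

theorem smooth_shp {f : Eu N → Eu N} (hf : ContDiffOn ℝ ∞ f A.M) :
    ContDiffOn ℝ ∞ (fun m => A.shp m (f m)) A.M :=
  (A.subB_T.1.clm_apply (A.inv_smooth.contDiffOn.clm_apply hf)).congr fun m _ => shp_eq m _

theorem gr_mem (i : Fin k) (a : Fin p ⊕ Fin q) (m : Eu N) : A.gr i a m ∈ A.T m :=
  shp_mem _ _

theorem cov_mem (i : Fin k) (η : Eu q) (m : Eu N) : A.cov i η m ∈ A.T m :=
  shp_mem _ _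

theorem dψ_mem (i : Fin k) {z : Eu p × Eu q} (hz : z ∈ ball (0 : Eu p × Eu q) 1)
    (w : Eu p × Eu q) : A.jd i z w ∈ A.T (A.ψ i z) := by
  rw [T_eq' i hz]
  exact ⟨w, rfl⟩

theorem dψ_mem' (i : Fin k) {z : Eu p × Eu q} (hz : z ∈ ball (0 : Eu p × Eu q) 1)
    (w : Eu p × Eu q) : A.JL (A.ψ i z) (fderiv ℝ (A.ψ i) z w) ∈ A.T (A.ψ i z) := dψ_mem i hz w

theorem GE3_fderiv (j : Fin k) (L : Eu p × Eu q →L[ℝ] ℝ) (m : Eu N) :
    fderiv ℝ (fun n => L (A.φ j n)) m = L ∘L fderiv ℝ (A.φ j) m :=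
  (L.hasFDerivAt.comp m
    (((A.φ_smooth j).differentiable (by simp)).differentiableAt.hasFDerivAt)).fderiv

theorem GE3_inner (j : Fin k) (L : Eu p × Eu q →L[ℝ] ℝ) {m t : Eu N} (ht : A.JL m t ∈ A.T m) :
    ⟪A.shp m (gradient (fun n => L (A.φ j n)) m), A.JL m t⟫_ℝ =
      L (fderiv ℝ (A.φ j) m t) := by
  rw [inner_shp _ ht, inner_gradient_left, GE3_fderiv]
  rfl

theorem GE3_gr (i : Fin k) (a : Fin p ⊕ Fin q) (m : Eu N) :
    A.gr i a m = A.shp m (gradient (fun n => crdL a (A.φ i n)) m) := by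
  simp only [gr, crdL_apply]

theorem GE3_cov (i : Fin k) (η : Eu q) (m : Eu N) :
    A.cov i η m = A.shp m (gradient (fun n =>
      (innerSL ℝ η ∘L ContinuousLinearMap.snd ℝ (Eu p) (Eu q)) (A.φ i n)) m) := rfl

theorem GE3_inner_gr (i : Fin k) (a : Fin p ⊕ Fin q) {m t : Eu N} (ht : A.JL m t ∈ A.T m) :
    ⟪A.gr i a m, A.JL m t⟫_ℝ = crd a (fderiv ℝ (A.φ i) m t) := by
  rw [GE3_gr, GE3_inner i _ ht, crdL_apply]

theorem inner_gr (i : Fin k) (a : Fin p ⊕ Fin q) {z : Eu p × Eu q}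
    (hz : z ∈ ball (0 : Eu p × Eu q) 1) (w : Eu p × Eu q) :
    ⟪A.gr i a (A.ψ i z), A.jd i z w⟫_ℝ = crd a w := by
  rw [jd_apply, GE3_inner_gr i a (dψ_mem' i hz w), dφ_dψ i hz]

theorem inner_cov_gen (j : Fin k) (η : Eu q) {m t : Eu N} (ht : A.JL m t ∈ A.T m) :
    ⟪A.cov j η m, A.JL m t⟫_ℝ = ⟪η, (fderiv ℝ (A.φ j) m t).2⟫_ℝ := by
  rw [GE3_cov, GE3_inner j _ ht]
  rfl

theorem inner_cov (i : Fin k) (η : Eu q) {z : Eu p × Eu q} (hz : z ∈ ball (0 : Eu p × Eu q) 1)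
    (w : Eu p × Eu q) : ⟪A.cov i η (A.ψ i z), A.jd i z w⟫_ℝ = ⟪η, w.2⟫_ℝ := by
  rw [jd_apply, inner_cov_gen i η (dψ_mem' i hz w), dφ_dψ i hz]

theorem eq_of_inner_dψ (i : Fin k) {z : Eu p × Eu q} (hz : z ∈ ball (0 : Eu p × Eu q) 1)
    {t t' : Eu N} (ht : t ∈ A.T (A.ψ i z)) (ht' : t' ∈ A.T (A.ψ i z))
    (h : ∀ w, ⟪t, A.jd i z w⟫_ℝ = ⟪t', A.jd i z w⟫_ℝ) : t = t' := by
  refine GE3_eq_of_inner ht ht' fun w hw => ?_
  rw [T_eq' i hz] at hw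
  obtain ⟨w', rfl⟩ := hw
  exact h w'

theorem cov_eq_sum (i : Fin k) (η : Eu q) (m : Eu N) :
    A.cov i η m = ∑ l, ⟪bs l, η⟫_ℝ • A.gr i (.inr l) m := by
  refine GE3_eq_of_inner (S := A.T m) (cov_mem i η m)
    (Submodule.sum_mem _ fun l _ => Submodule.smul_mem _ _ (gr_mem i _ m)) fun w hw => ?_
  obtain ⟨w, rfl⟩ := J_surj (A := A) m w
  rw [inner_cov_gen i η hw, sum_inner, ← sum_inner_bs]
  refine Finset.sum_congr rfl fun l _ => ?_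
  rw [real_inner_smul_left, GE3_inner_gr i _ hw]
  rfl

theorem tangent_eq (i : Fin k) {z : Eu p × Eu q} (hz : z ∈ ball (0 : Eu p × Eu q) 1) {t : Eu N}
    (ht : t ∈ A.T (A.ψ i z)) :
    t = A.jd i z (∑ a, ⟪A.gr i a (A.ψ i z), t⟫_ℝ • cb a) := by
  rw [T_eq' i hz] at ht
  obtain ⟨w, rfl⟩ := ht
  have h : ∀ a, ⟪A.gr i a (A.ψ i z), (A.jd i z : _ →ₗ[ℝ] _) w⟫_ℝ = crd a w :=
    fun a => inner_gr i a hz w
  simp only [h, sum_cb]
  rfl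

theorem gr_inr_mem_H (i : Fin k) (l : Fin q) {z : Eu p × Eu q}
    (hz : z ∈ ball (0 : Eu p × Eu q) 1) : A.gr i (.inr l) (A.ψ i z) ∈ A.H (A.ψ i z) := by
  refine ⟨?_, gr_mem i _ _⟩
  rw [F_eq' i hz]
  refine (Submodule.mem_orthogonal' _ _).2 ?_
  rintro u ⟨x, rfl⟩
  have h := inner_gr (A := A) i (.inr l) hz (x, 0)
  have h0 : crd (p := p) (.inr l) (x, 0) = 0 := by simp [crd]
  rw [h0] at h
  exact h

theorem sy_F_inr (c : Eu N →L[ℝ] W →L[ℂ] W) (i : Fin k) (l : Fin q) {z : Eu p × Eu q}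
    (hz : z ∈ ball (0 : Eu p × Eu q) 1) : A.sy c A.F i (.inr l) z = 0 := by
  have h : (A.F (A.ψ i z)).starProjection (A.gr i (.inr l) (A.ψ i z)) = 0 :=
    (Submodule.starProjection_apply_eq_zero_iff _).2 (gr_inr_mem_H i l hz).1
  rw [sy, h, map_zero]

theorem sy_H_inr (c : Eu N →L[ℝ] W →L[ℂ] W) (i : Fin k) (l : Fin q) {z : Eu p × Eu q}
    (hz : z ∈ ball (0 : Eu p × Eu q) 1) :
    A.sy c A.H i (.inr l) z = c (A.gr i (.inr l) (A.ψ i z)) := by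
  rw [sy, Submodule.starProjection_eq_self_iff.2 (gr_inr_mem_H i l hz)]

theorem GE3_smooth (i : Fin k) (L : Eu p × Eu q →L[ℝ] ℝ) : ContDiffOn ℝ ∞
    (fun m => A.shp m (gradient (fun n => L (A.φ i n)) m)) A.M := by
  have h1 : ContDiff ℝ ∞ (fun n => L (A.φ i n)) := L.contDiff.comp (A.φ_smooth i)
  have h2 : ContDiff ℝ ∞ (fderiv ℝ (fun n => L (A.φ i n))) := h1.fderiv_right (by simp)
  have h3 : ContDiff ℝ ∞ (fun m => gradient (fun n => L (A.φ i n)) m) :=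
    (InnerProductSpace.toDual ℝ (Eu N)).symm.toContinuousLinearEquiv.contDiff.comp h2
  exact smooth_shp h3.contDiffOn

theorem smooth_gr (i : Fin k) (a : Fin p ⊕ Fin q) : ContDiffOn ℝ ∞ (A.gr i a) A.M :=
  (GE3_smooth i (crdL a)).congr fun m _ => GE3_gr i a m

theorem smooth_cov (i : Fin k) (η : Eu q) : ContDiffOn ℝ ∞ (A.cov i η) A.M :=
  (GE3_smooth i _).congr fun m _ => GE3_cov i η m

theorem smooth_sy (c : Eu N →L[ℝ] W →L[ℂ] W) {Q : Eu N → Submodule ℝ (Eu N)} (hQ : A.SubB Q)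
    (i : Fin k) (a : Fin p ⊕ Fin q) : ContDiffOn ℝ ∞ (A.sy c Q i a) (ball 0 1) := by
  have h : ContDiffOn ℝ ∞ (fun m => c ((Q m).starProjection (A.gr i a m))) A.M :=
    c.contDiff.comp_contDiffOn (hQ.1.clm_apply (smooth_gr i a))
  exact contDiffOn_iff.1 h i

theorem sy_comm (hε : IsCAR ε) {Q : Eu N → Submodule ℝ (Eu N)} (hQ : A.SubB Q) (i : Fin k)
    (a : Fin p ⊕ Fin q) {z : Eu p × Eu q} (hz : z ∈ ball (0 : Eu p × Eu q) 1) :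
    A.Pi ε (A.ψ i z) * A.sy ε Q i a z = A.sy ε Q i a z * A.Pi ε (A.ψ i z) ∧
    A.Pi ε (A.ψ i z) * A.sy (ioL ε) Q i a z = A.sy (ioL ε) Q i a z * A.Pi ε (A.ψ i z) ∧
    A.Pi ε (A.ψ i z) * A.sy (clL ε) Q i a z = A.sy (clL ε) Q i a z * A.Pi ε (A.ψ i z) := by
  have hv : (Q (A.ψ i z)).starProjection (A.gr i a (A.ψ i z)) ∈ A.T (A.ψ i z) :=
    hQ.2 _ (ψ_mem i hz).1 (Submodule.starProjection_apply_mem _ _)
  have h := Pi_comm (A := A) hε hv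
  refine ⟨h.1, h.2.1, ?_⟩
  rw [sy, clL_apply]
  exact h.2.2

end Atl

end Pool.Agent.P.MP_e0a138_an.AD
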