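import Pool.Agent.P.MP_e0a138_an.GE3

set_option autoImplicit false
set_option linter.unusedSectionVars false
set_option linter.unusedVariables false

open MeasureTheory Filter Topology Metric Complex
open scoped ENNReal NNReal ContDiff InnerProductSpace ComplexConjugate

noncomputable section
namespace Pool.Agent.P.MP_e0a138_an.AD

variable {N p q k : ℕ} {W : Type} [NormedAddCommGroup W] [InnerProductSpace ℂ W]
  [FiniteDimensional ℂ W] [CompleteSpace W]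
variable {A : Atl N p q k}

namespace Atl

theorem GE4_chain (i j : Fin k) (z w : Eu p × Eu q) :
    fderiv ℝ (fun z => A.φ j (A.ψ i z)) z w =
      fderiv ℝ (A.φ j) (A.ψ i z) (fderiv ℝ (A.ψ i) z w) := by
  have h : fderiv ℝ (fun z => A.φ j (A.ψ i z)) z = _ :=
    fderiv_comp z ((A.φ_smooth j).differentiable (by simp) _)
      ((A.ψ_smooth i).differentiable (by simp) z)
  rw [h]
  rfl

theorem GE4_has (i j : Fin k) (z : Eu p × Eu q) : HasFDerivAt (A.tau i j)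
    (ContinuousLinearMap.snd ℝ (Eu p) (Eu q) ∘L fderiv ℝ (fun z => A.φ j (A.ψ i z)) z) z :=
  (((A.φ_smooth j).comp (A.ψ_smooth i)).differentiable (by simp) z).hasFDerivAt.snd

theorem GE4_dta (i j : Fin k) (z : Eu p × Eu q) (v : Eu q) :
    A.dta i j z v = (fderiv ℝ (fun z => A.φ j (A.ψ i z)) z (0, v)).2 := by
  have h : fderiv ℝ (fun Y => A.tau i j (z.1, Y)) z.2 = _ :=
    ((GE4_has (A := A) i j (z.1, z.2)).comp z.2 (hasFDerivAt_prodMk_right z.1 z.2)).fderiv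
  rw [dta, h]
  rfl

theorem GE4_mem {i : Fin k} {z : Eu p × Eu q} (hz : z ∈ ball (0 : Eu p × Eu q) 1) {v : Eu N} :
    v ∈ A.F (A.ψ i z) ↔ ∃ x, A.jd i z (x, 0) = v := by
  rw [F_eq' i hz]
  exact Iff.rfl

theorem tau_smooth (i j : Fin k) : ContDiff ℝ ∞ (A.tau i j) :=
  contDiff_snd.comp ((A.φ_smooth j).comp (A.ψ_smooth i))

theorem dtrans_fst {i j : Fin k} {z : Eu p × Eu q} (hz : z ∈ ball (0 : Eu p × Eu q) 1)
    (hj : A.ψ i z ∈ A.U j) (x : Eu p) :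
    (fderiv ℝ (fun z => A.φ j (A.ψ i z)) z (x, 0)).2 = 0 := by
  obtain ⟨h1, h2⟩ := φ_mem (ψ_mem i hz).1 hj
  have h3 : A.jd i z (x, 0) ∈ A.F (A.ψ j (A.φ j (A.ψ i z))) := by
    rw [h2]
    exact (GE4_mem hz).2 ⟨x, rfl⟩
  obtain ⟨x', hx'⟩ := (GE4_mem h1).1 h3
  rw [jd_trans hz hj] at hx'
  rw [← jd_inj j h1 hx']

theorem dtrans_snd {i j : Fin k} {z : Eu p × Eu q} (hz : z ∈ ball (0 : Eu p × Eu q) 1)
    (hj : A.ψ i z ∈ A.U j) (w : Eu p × Eu q) :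
    (fderiv ℝ (fun z => A.φ j (A.ψ i z)) z w).2 = A.dta i j z w.2 := by
  have e : w = (w.1, 0) + (0, w.2) := by simp
  rw [GE4_dta]
  conv_lhs => rw [e, map_add, Prod.snd_add, dtrans_fst hz hj, zero_add]

theorem tau_loc {i j : Fin k} {z : Eu p × Eu q} (hz : z ∈ ball (0 : Eu p × Eu q) 1)
    (hj : A.ψ i z ∈ A.U j) : ∀ᶠ x in 𝓝 z.1, (x, z.2) ∈ ball (0 : Eu p × Eu q) 1 ∧
      A.ψ i (x, z.2) ∈ A.U j ∧ (∀ᶠ Y in 𝓝 z.2, A.tau i j (x, Y) = A.tau i j (z.1, Y)) ∧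
      A.tau i j (x, z.2) = A.tau i j z ∧ A.dta i j (x, z.2) = A.dta i j z := by
  obtain ⟨δ, hδ, hb⟩ := Metric.eventually_nhds_iff_ball.1 (trans_ev hz hj)
  have hm : ∀ x ∈ ball z.1 δ, ∀ Y ∈ ball z.2 δ, (x, Y) ∈ ball z δ := fun x hx Y hY => by
    have e : ball z.1 δ ×ˢ ball z.2 δ = ball z δ := ball_prod_same z.1 z.2 δ
    rw [← e]
    exact ⟨hx, hY⟩
  have hc : ∀ Y ∈ ball z.2 δ, ∀ x ∈ ball z.1 δ, A.tau i j (x, Y) = A.tau i j (z.1, Y) := by
    intro Y hY x hx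
    have hd := fun x : Eu p =>
      (GE4_has (A := A) i j (x, Y)).comp x (hasFDerivAt_prodMk_left (𝕜 := ℝ) x Y)
    refine isOpen_ball.is_const_of_fderiv_eq_zero (𝕜 := ℝ) (convex_ball z.1 δ).isPreconnected
      (f := fun x => A.tau i j (x, Y)) (fun x _ => (hd x).differentiableAt.differentiableWithinAt)
      (fun x hx => ?_) hx (mem_ball_self hδ)
    refine (hd x).fderiv.trans ?_
    ext v
    exact dtrans_fst (hb _ (hm x hx Y hY)).1 (hb _ (hm x hx Y hY)).2.1 v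
  filter_upwards [ball_mem_nhds z.1 hδ] with x hx
  have h1 := hb _ (hm x hx z.2 (mem_ball_self hδ))
  have h2 : ∀ᶠ Y in 𝓝 z.2, A.tau i j (x, Y) = A.tau i j (z.1, Y) := by
    filter_upwards [ball_mem_nhds z.2 hδ] with Y hY using hc Y hY x hx
  exact ⟨h1.1, h1.2.1, h2, h2.self_of_nhds, Filter.EventuallyEq.fderiv_eq h2⟩

theorem dta_equiv {i j : Fin k} {z : Eu p × Eu q} (hz : z ∈ ball (0 : Eu p × Eu q) 1)
    (hj : A.ψ i z ∈ A.U j) :
    ∃ e : Eu q ≃L[ℝ] Eu q, (e : Eu q →L[ℝ] Eu q) = A.dta i j z := by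
  have hinj : Function.Injective (A.dta i j z) := by
    refine (injective_iff_map_eq_zero _).2 fun w hw => ?_
    obtain ⟨h1, h2⟩ := φ_mem (ψ_mem i hz).1 hj
    rw [GE4_dta] at hw
    have h3 : A.jd i z (0, w) ∈ A.F (A.ψ j (A.φ j (A.ψ i z))) := by
      refine (GE4_mem h1).2 ⟨(fderiv ℝ (fun z => A.φ j (A.ψ i z)) z (0, w)).1, ?_⟩
      rw [jd_trans hz hj, ← hw]
    rw [h2] at h3
    obtain ⟨x, hx⟩ := (GE4_mem hz).1 h3
    exact (congrArg Prod.snd (jd_inj i hz hx)).symm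
  exact ⟨(LinearEquiv.ofInjectiveEndo (A.dta i j z).toLinearMap hinj).toContinuousLinearEquiv,
    ContinuousLinearMap.ext fun _ => rfl⟩

theorem tau_self (i : Fin k) {z : Eu p × Eu q} (hz : z ∈ ball (0 : Eu p × Eu q) 1) :
    A.tau i i z = z.2 ∧ A.dta i i z = ContinuousLinearMap.id ℝ _ := by
  refine ⟨congrArg Prod.snd (A.left_inv i z hz), ContinuousLinearMap.ext fun v => ?_⟩
  rw [GE4_dta, GE4_chain, dφ_dψ i hz]
  rfl

theorem cov_trans {i j : Fin k} {z : Eu p × Eu q} (hz : z ∈ ball (0 : Eu p × Eu q) 1)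
    (hj : A.ψ i z ∈ A.U j) (η : Eu q) : A.cov j η (A.ψ i z) =
      A.cov i (ContinuousLinearMap.adjoint (A.dta i j z) η) (A.ψ i z) := by
  refine eq_of_inner_dψ i hz (cov_mem _ _ _) (cov_mem _ _ _) fun w => ?_
  rw [inner_cov i _ hz, jd_apply, inner_cov_gen j η (dψ_mem' i hz w), ← GE4_chain,
    dtrans_snd hz hj, ContinuousLinearMap.adjoint_inner_left]

theorem cov_inj {i : Fin k} {z : Eu p × Eu q} (hz : z ∈ ball (0 : Eu p × Eu q) 1) {η η' : Eu q}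
    (h : A.cov i η (A.ψ i z) = A.cov i η' (A.ψ i z)) : η = η' := by
  refine ext_inner_right ℝ fun v => ?_
  rw [← inner_cov (A := A) i η hz (0, v), h, inner_cov i η' hz]

end Atl

end Pool.Agent.P.MP_e0a138_an.AD
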