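import Pool.Agent.P.MP_e0a138_an.GE4
import Pool.Agent.P.MP_e0a138_an.AN14
import Pool.Agent.P.MP_e0a138_an.AN13

set_option autoImplicit false
set_option linter.unusedSectionVars false
set_option linter.unusedVariables false

open MeasureTheory Filter Topology Metric Complex
open scoped ENNReal NNReal ContDiff InnerProductSpace ComplexConjugate

noncomputable section
namespace Pool.Agent.P.MP_e0a138_an.AD

variable {N p q k : ℕ} {W : Type} [NormedAddCommGroup W] [InnerProductSpace ℂ W]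
  [FiniteDimensional ℂ W] [CompleteSpace W]
variable {A : Atl N p q k}

namespace Atl

theorem GE5_rho_eq (i : Fin k) (z : Eu p × Eu q) : A.rho i z =
    √(Matrix.gram ℝ fun a : Fin p ⊕ Fin q => A.jd i z (cb a)).det := rfl

theorem GE5_det_smooth (i : Fin k) : ContDiff ℝ ∞ fun z : Eu p × Eu q =>
    (Matrix.gram ℝ fun a : Fin p ⊕ Fin q => A.jd i z (cb a)).det := by
  have h : ∀ a : Fin p ⊕ Fin q,
      ContDiff ℝ ∞ fun z : Eu p × Eu q => A.jd i z (cb a) := fun a =>
    (jd_smooth i).clm_apply contDiff_const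
  simp only [Matrix.det_apply', Matrix.gram_apply]
  refine ContDiff.sum fun σ _ => contDiff_const.mul (contDiff_prod fun a _ => ?_)
  exact (h _).inner ℝ (h _)

theorem rho_pos (i : Fin k) {z : Eu p × Eu q} (hz : z ∈ ball (0 : Eu p × Eu q) 1) :
    0 < A.rho i z := by
  rw [GE5_rho_eq]
  exact Real.sqrt_pos.2 (det_gram_pos (jd_inj i hz))

theorem rho_nonneg (i : Fin k) (z : Eu p × Eu q) : 0 ≤ A.rho i z := Real.sqrt_nonneg _

theorem rho_continuous (i : Fin k) : Continuous (A.rho i) :=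
  (GE5_det_smooth (A := A) i).continuous.sqrt

theorem rho_smooth (i : Fin k) : ContDiffOn ℝ ∞ (A.rho i) (ball 0 1) :=
  (GE5_det_smooth (A := A) i).contDiffOn.sqrt fun _ hz => (det_gram_pos (jd_inj i hz)).ne'

theorem rho_bdd (i : Fin k) : ∃ C : ℝ≥0, ∀ z ∈ ball (0 : Eu p × Eu q) 1, A.rho i z ≤ C := by
  have : ProperSpace (Eu p × Eu q) := FiniteDimensional.proper ℝ _
  obtain ⟨C, hC⟩ := (isCompact_closedBall (0 : Eu p × Eu q) 1).exists_bound_of_continuousOn
    (rho_continuous (A := A) i).continuousOn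
  refine ⟨C.toNNReal, fun z hz => ?_⟩
  have h := hC z (ball_subset_closedBall hz)
  exact ((le_abs_self _).trans h).trans (Real.le_coe_toNNReal C)

theorem rho_trans {i j : Fin k} {z : Eu p × Eu q} (hz : z ∈ ball (0 : Eu p × Eu q) 1)
    (hj : A.ψ i z ∈ A.U j) : A.rho i z = A.rho j (A.φ j (A.ψ i z)) *
      |(fderiv ℝ (fun z => A.φ j (A.ψ i z)) z).det| := by
  have hm := (φ_mem (ψ_mem i hz).1 hj).1
  rw [GE5_rho_eq, GE5_rho_eq]
  simp only [jd_trans hz hj]
  rw [det_gram_comp, Real.sqrt_mul (det_gram_pos (jd_inj j hm)).le, Real.sqrt_sq_eq_abs]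

theorem rho_trans' {i j : Fin k} {x : Eu p} {y : Eu q} (hz : (x, y) ∈ ball (0 : Eu p × Eu q) 1)
    (hj : A.ψ i (x, y) ∈ A.U j) : A.rho i (x, y) = A.rho j (A.φ j (A.ψ i (x, y))) *
      |(fderiv ℝ (fun x => (A.φ j (A.ψ i (x, y))).1) x).det| * |(A.dta i j (x, y)).det| := by
  have hT : Differentiable ℝ fun z => A.φ j (A.ψ i z) :=
    ((A.φ_smooth j).comp (A.ψ_smooth i)).differentiable (by simp)
  have h1 : fderiv ℝ (fun x => (A.φ j (A.ψ i (x, y))).1) x =
      ContinuousLinearMap.fst ℝ _ _ ∘L fderiv ℝ (fun z => A.φ j (A.ψ i z)) (x, y) ∘L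
        ContinuousLinearMap.inl ℝ _ _ := by
    have h0 := (hT (x, y)).hasFDerivAt.comp x (hasFDerivAt_prodMk_left (𝕜 := ℝ) x y)
    have h3 := (ContinuousLinearMap.fst ℝ (Eu p) (Eu q)).hasFDerivAt.comp x h0
    exact h3.fderiv
  have h2 : A.dta i j (x, y) =
      ContinuousLinearMap.snd ℝ _ _ ∘L fderiv ℝ (fun z => A.φ j (A.ψ i z)) (x, y) ∘L
        ContinuousLinearMap.inr ℝ _ _ := by
    refine ContinuousLinearMap.ext fun w => ?_
    exact (dtrans_snd hz hj (0, w)).symm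
  rw [rho_trans hz hj, det_block (dtrans_fst hz hj), h1, h2, abs_mul, mul_assoc]

end Atl

end Pool.Agent.P.MP_e0a138_an.AD
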