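import Pool.Agent.P.MP_e0a138_an.GE7a

set_option autoImplicit false
set_option linter.unusedSectionVars false
set_option linter.unusedVariables false

open MeasureTheory Filter Topology Metric Complex
open scoped ENNReal NNReal ContDiff InnerProductSpace ComplexConjugate

noncomputable section
namespace Pool.Agent.P.MP_e0a138_an.AD

variable {N p q k : ℕ} {W : Type} [NormedAddCommGroup W] [InnerProductSpace ℂ W]
  [FiniteDimensional ℂ W] [CompleteSpace W]
variable {A : Atl N p q k} {ε : Eu N →L[ℝ] W →L[ℂ] W}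

namespace Atl
variable {DF DH : (Eu N → W) → Eu N → W} {μ : Measure (Eu N)}

theorem Dir.form (hD : A.Dir ε μ DF DH) (h : ℝ) {u : Eu N → W} (hu : A.Form ε u) :
    A.Form ε (Dh DF DH h u) :=
  (hD.formF u hu).add ((hD.formH u hu).const_smul _)

theorem Dir.grM_span (hD : A.Dir ε μ DF DH) (hμ : A.IsVol μ) (h : ℝ) :
    ∀ a ∈ Submodule.span ℂ (A.grM ε μ (Dh DF DH h)), a ∈ A.grM ε μ (Dh DF DH h) :=
  by
  intro a ha
  induction ha using Submodule.span_induction with
  | mem x hx => exact hx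
  | zero =>
    refine ⟨0, Form.zero, Lp.coeFn_zero _ _ _, ?_⟩
    filter_upwards [Lp.coeFn_zero W 2 μ, hμ.ae_mem] with m h1 hm
    have e1 := hD.opF.zero Form.zero isClosed_empty (fun _ _ _ => rfl) m hm (Set.notMem_empty _)
    have e2 := hD.opH.zero Form.zero isClosed_empty (fun _ _ _ => rfl) m hm (Set.notMem_empty _)
    rw [Prod.snd_zero, h1]
    simp [Dh, e1, e2]
  | add x y _ _ hx hy =>
    obtain ⟨u, hu, x1, x2⟩ := hx
    obtain ⟨v, hv, y1, y2⟩ := hy
    refine ⟨u + v, hu.add hv, ?_, ?_⟩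
    · filter_upwards [Lp.coeFn_add x.1 y.1, x1, y1] with m h1 h2 h3
      rw [Prod.fst_add, h1, Pi.add_apply, h2, h3, Pi.add_apply]
    · filter_upwards [Lp.coeFn_add x.2 y.2, x2, y2, hμ.ae_mem] with m h1 h2 h3 hm
      rw [Prod.snd_add, h1, Pi.add_apply, h2, h3]
      simp only [Dh, Pi.add_apply, Pi.smul_apply, hD.opF.add hu hv m hm, hD.opH.add hu hv m hm,
        smul_add]
      abel
  | smul c x _ hx =>
    obtain ⟨u, hu, x1, x2⟩ := hx
    refine ⟨c • u, hu.const_smul c, ?_, ?_⟩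
    · filter_upwards [Lp.coeFn_smul c x.1, x1] with m h1 h2
      rw [Prod.smul_fst, h1, Pi.smul_apply, h2, Pi.smul_apply]
    · filter_upwards [Lp.coeFn_smul c x.2, x2, hμ.ae_mem] with m h1 h2 hm
      rw [Prod.smul_snd, h1, Pi.smul_apply, h2]
      simp only [Dh, Pi.add_apply, Pi.smul_apply, hD.opF.smul hu c m hm, hD.opH.smul hu c m hm,
        smul_add, smul_comm c]

theorem Dir.mem_grM (hD : A.Dir ε μ DF DH) (hμ : A.IsVol μ) (h : ℝ) {u : Eu N → W}
    (hu : A.Form ε u) : (toL μ u, toL μ (Dh DF DH h u)) ∈ A.grM ε μ (Dh DF DH h) :=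
  ⟨u, hu, toL_ae (hμ.memLp hu.1.continuousOn), toL_ae (hμ.memLp (hD.form h hu).1.continuousOn)⟩

theorem Dir.sym (hD : A.Dir ε μ DF DH) (hμ : A.IsVol μ) (h : ℝ) :
    Sym (A.grM ε μ (Dh DF DH h)) :=
  by
  rintro a ⟨u, hu, a1, a2⟩ b ⟨v, hv, b1, b2⟩
  rw [inner_eq_of_ae a2 b1, inner_eq_of_ae a1 b2]
  have i1 : ∀ {f g : Eu N → W}, A.Form ε f → A.Form ε g → Integrable (fun m => ⟪f m, g m⟫_ℂ) μ :=
    fun hf hg => hμ.integrable (hf.1.continuousOn.inner hg.1.continuousOn)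
  simp only [Dh, Pi.add_apply, Pi.smul_apply, inner_add_left, inner_add_right, inner_smul_left,
    inner_smul_right, conj_ofReal]
  rw [integral_add (i1 (hD.formF u hu) hv) ((i1 (hD.formH u hu) hv).const_mul _),
    integral_add (i1 hu (hD.formF v hv)) ((i1 hu (hD.formH v hv)).const_mul _),
    integral_const_mul, integral_const_mul, hD.symF u v hu hv, hD.symH u v hu hv]

theorem Dir.lft (hD : A.Dir ε μ DF DH) (hε : IsCAR ε) (t : Tr q k) {u : Eu N → W}
    (hu : A.Form ε u) (hl : A.Loc t.1 u) :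
    A.Form ε (A.lft ε DF t u) ∧ A.Loc t.1 (A.lft ε DF t u) :=
  by
  have h1 : A.Form ε fun m => cl ε (A.cov t.1 t.2.2 m) (u m) :=
    hu.clm (B := fun m => cl ε (A.cov t.1 t.2.2 m))
      (((clL ε).contDiff.comp_contDiffOn (smooth_cov t.1 t.2.2)).congr fun m _ => by simp)
      fun m _ => (Pi_comm hε (cov_mem _ _ _)).2.2
  refine ⟨(hD.formF u hu).add (h1.const_smul I), ?_⟩
  obtain ⟨r, hr, h0⟩ := hl
  refine ⟨r, hr, fun m hm hm' => ?_⟩
  have := hD.opF.zero hu
    ((isCompact_closedBall _ _).image (A.ψ_smooth t.1).continuous).isClosed h0 m hm hm'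
  simp [Atl.lft, this, h0 m hm hm']

end Atl

end Pool.Agent.P.MP_e0a138_an.AD
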