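import Pool.Agent.P.MP_e0a138_an.GE6

set_option autoImplicit false
set_option linter.unusedSectionVars false
set_option linter.unusedVariables false

open MeasureTheory Filter Topology Metric Complex
open scoped ENNReal NNReal ContDiff InnerProductSpace ComplexConjugate

noncomputable section
namespace Pool.Agent.P.MP_e0a138_an.AD

variable {N p q k : ℕ} {W : Type} [NormedAddCommGroup W] [InnerProductSpace ℂ W]
  [FiniteDimensional ℂ W] [CompleteSpace W]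
variable {A : Atl N p q k} {ε : Eu N →L[ℝ] W →L[ℂ] W}

namespace Atl
variable {c : Eu N →L[ℝ] W →L[ℂ] W} {Q : Eu N → Submodule ℝ (Eu N)}
  {D DF DH : (Eu N → W) → Eu N → W} {μ : Measure (Eu N)}

theorem Form.chart {u : Eu N → W} (hu : A.Form ε u) (i : Fin k) :
    ContDiffOn ℝ ∞ (fun z => u (A.ψ i z)) (ball 0 1) ∧
      ∀ z ∈ ball (0 : Eu p × Eu q) 1, A.Pi ε (A.ψ i z) (u (A.ψ i z)) = u (A.ψ i z) :=
  ⟨contDiffOn_iff.1 hu.1 i, fun _ hz => hu.2 _ (ψ_mem i hz).1⟩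

theorem Form.add {u v : Eu N → W} (hu : A.Form ε u) (hv : A.Form ε v) :
    A.Form ε (u + v) :=
  ⟨hu.1.add hv.1, fun m hm => by rw [Pi.add_apply, map_add, hu.2 m hm, hv.2 m hm]⟩

theorem Form.zero : A.Form ε (0 : Eu N → W) :=
  ⟨contDiffOn_const, fun m _ => map_zero _⟩

theorem Form.smul {u : Eu N → W} {g : Eu N → ℂ} (hg : ContDiffOn ℝ ∞ g A.M) (hu : A.Form ε u) :
    A.Form ε fun m => g m • u m :=
  ⟨hg.smul hu.1, fun m hm => by rw [map_smul, hu.2 m hm]⟩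

theorem Form.const_smul {u : Eu N → W} (c : ℂ) (hu : A.Form ε u) : A.Form ε (c • u) :=
  hu.smul (g := fun _ => c) contDiffOn_const

theorem Form.sum {J : Type} (s : Finset J) {u : J → Eu N → W} (hu : ∀ j ∈ s, A.Form ε (u j)) :
    A.Form ε fun m => ∑ j ∈ s, u j m :=
  ⟨ContDiffOn.sum fun j hj => (hu j hj).1, fun m hm => by
    rw [map_sum]; exact Finset.sum_congr rfl fun j hj => (hu j hj).2 m hm⟩

theorem Form.clm {u : Eu N → W} {B : Eu N → W →L[ℂ] W} (hB : ContDiffOn ℝ ∞ B A.M)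
    (hc : ∀ m ∈ A.M, A.Pi ε m * B m = B m * A.Pi ε m) (hu : A.Form ε u) :
    A.Form ε fun m => B m (u m) :=
  ⟨contDiffOn_capp hB hu.1, fun m hm => by
    have h1 := congrArg (fun T : W →L[ℂ] W => T (u m)) (hc m hm)
    have h2 : A.Pi ε m (u m) = u m := hu.2 m hm
    simp only [mul_apply_eq_comp, h2] at h1
    exact h1⟩

theorem ext_form (i : Fin k) {a : Eu p × Eu q → W} (ha : ContDiffOn ℝ ∞ a (ball 0 1)) {r : ℝ}
    (hr : r < 1) (h0 : ∀ z ∈ ball (0 : Eu p × Eu q) 1, z ∉ closedBall (0 : Eu p × Eu q) r → a z = 0)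
    (hP : ∀ z ∈ ball (0 : Eu p × Eu q) 1, A.Pi ε (A.ψ i z) (a z) = a z) :
    A.Form ε (A.ext i a) ∧ A.Loc i (A.ext i a) :=
  by
  refine ⟨⟨ext_smooth i ha hr h0, fun m hm => ?_⟩, r, hr, ext_zero i h0⟩
  by_cases hU : m ∈ A.U i
  · obtain ⟨h1, h2⟩ := φ_mem hm hU
    have := hP _ h1
    rw [← ext_chart (A := A) i a h1, h2] at this
    exact this
  · simp [ext, Set.indicator_of_notMem hU]

theorem IsOp.zero (hD : A.IsOp ε c Q D) {u : Eu N → W} (hu : A.Form ε u) {K : Set (Eu N)}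
    (hK : IsClosed K) (h : ∀ m ∈ A.M, m ∉ K → u m = 0) : ∀ m ∈ A.M, m ∉ K → D u m = 0 :=
  by
  intro m hm hK'
  obtain ⟨i, z, hz, rfl⟩ := exists_chart hm
  obtain ⟨Z, -, hZ⟩ := hD i
  rw [hZ u hu z hz]
  exact op_eq_zero isOpen_ball (hK.preimage (A.ψ_smooth i).continuous)
    (fun x hx hx' => h _ (ψ_mem i hx).1 hx') hz hK'

theorem IsOp.loc (hD : A.IsOp ε c Q D) {u : Eu N → W} (hu : A.Form ε u) {i : Fin k}
    (h : A.Loc i u) : A.Loc i (D u) :=
  by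
  obtain ⟨r, hr, h⟩ := h
  exact ⟨r, hr, hD.zero hu ((isCompact_closedBall _ _).image (A.ψ_smooth i).continuous).isClosed h⟩

theorem IsOp.add (hD : A.IsOp ε c Q D) {u v : Eu N → W} (hu : A.Form ε u) (hv : A.Form ε v) :
    ∀ m ∈ A.M, D (u + v) m = D u m + D v m :=
  by
  intro m hm
  obtain ⟨i, z, hz, rfl⟩ := exists_chart hm
  obtain ⟨Z, -, hZ⟩ := hD i
  rw [hZ u hu z hz, hZ v hv z hz, hZ _ (hu.add hv) z hz]
  exact op_add (diffAt_of_contDiffOn isOpen_ball (hu.chart i).1 hz)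
    (diffAt_of_contDiffOn isOpen_ball (hv.chart i).1 hz)

theorem IsOp.smul (hD : A.IsOp ε c Q D) {u : Eu N → W} (hu : A.Form ε u) (a : ℂ) :
    ∀ m ∈ A.M, D (a • u) m = a • D u m :=
  by
  intro m hm
  obtain ⟨i, z, hz, rfl⟩ := exists_chart hm
  obtain ⟨Z, -, hZ⟩ := hD i
  rw [hZ u hu z hz, hZ _ (hu.const_smul a) z hz]
  have := op_smul (b := cb) (A := A.sy c Q i) (B := Z) (c := fun _ => a)
    (differentiableAt_const a) (diffAt_of_contDiffOn isOpen_ball (hu.chart i).1 hz)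
  simpa using this

end Atl

end Pool.Agent.P.MP_e0a138_an.AD
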