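import Pool.Agent.P.MP_e0a138_an.GD2

set_option autoImplicit false
set_option linter.unusedSectionVars false
set_option linter.unusedVariables false

open MeasureTheory Filter Topology Metric Complex
open scoped ENNReal NNReal ContDiff InnerProductSpace ComplexConjugate

noncomputable section
namespace Pool.Agent.P.MP_e0a138_an.AD

variable {N p q k : ℕ} {W : Type} [NormedAddCommGroup W] [InnerProductSpace ℂ W]
  [FiniteDimensional ℂ W] [CompleteSpace W]
variable {A : Atl N p q k} {ε : Eu N →L[ℝ] W →L[ℂ] W}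

namespace Atl

theorem Pi_fderiv (hε : IsCAR ε) (i : Fin k) {u : Eu p × Eu q → W}
    (hu : ContDiffOn ℝ ∞ u (ball 0 1))
    (hP : ∀ z ∈ ball (0 : Eu p × Eu q) 1, A.Pi ε (A.ψ i z) (u z) = u z) {z : Eu p × Eu q}
    (hz : z ∈ ball (0 : Eu p × Eu q) 1) (b : Eu p × Eu q) : A.Pi ε (A.ψ i z) (fderiv ℝ u z b) =
      fderiv ℝ u z b - fderiv ℝ (fun z => A.Pi ε (A.ψ i z)) z b (u z) := by
  have h1 : DifferentiableAt ℝ (fun z => A.Pi ε (A.ψ i z)) z :=
    diffAt_of_contDiffOn isOpen_ball (contDiffOn_iff.1 (A.smooth_Pi hε) i) hz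
  have h2 : DifferentiableAt ℝ u z := diffAt_of_contDiffOn isOpen_ball hu hz
  have h3 := fderiv_capp h1 h2 b
  have h4 : (fun z => A.Pi ε (A.ψ i z) (u z)) =ᶠ[𝓝 z] u := by
    filter_upwards [isOpen_ball.mem_nhds hz] with y hy using hP y hy
  rw [h4.fderiv_eq] at h3
  rw [eq_sub_iff_add_eq, add_comm]
  exact h3.symm

variable {d : (Eu N → W) → Eu N → W}

theorem Form.degH (hε : IsCAR ε) {u : Eu N → W} (hu : A.Form ε u) (j : ℕ) :
    A.Form ε fun n => deg ε (A.H n) j (u n) :=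
  hu.clm (A.smooth_degH hε j) fun m _ => Pi_comm_degH hε m j

theorem dc_op_gen (hd : A.IsD ε d) (hε : IsCAR ε) {r : ℕ} {Q : Eu N → Submodule ℝ (Eu N)}
    (hQ : A.SubB Q)
    (h : ∀ m ∈ A.M, ∀ v ∈ A.T m, ∑ j ∈ Finset.range (N + 1),
      deg ε (A.H m) (j + r) * ε v * deg ε (A.H m) j = ε ((Q m).starProjection v)) :
    A.IsOp ε ε Q (A.dc ε d r) := by
  intro i
  have hD : ∀ j, ContDiffOn ℝ ∞ (fun z => deg ε (A.H (A.ψ i z)) j) (ball (0 : Eu p × Eu q) 1) :=
    fun j => contDiffOn_iff.1 (A.smooth_degH hε j) i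
  have hg : ∀ a, ContDiffOn ℝ ∞ (fun z => ε (A.gz i a z)) (ball (0 : Eu p × Eu q) 1) :=
    fun a => ε.contDiff.comp_contDiffOn (gz_smooth i a)
  refine ⟨fun z => ∑ j ∈ Finset.range (N + 1), deg ε (A.H (A.ψ i z)) (j + r) *
      (∑ a, ε (A.gz i a z) * fderiv ℝ (fun z => deg ε (A.H (A.ψ i z)) j) z (cb a) +
        A.Zd ε i z * deg ε (A.H (A.ψ i z)) j), ?_, ?_⟩
  · exact ContDiffOn.sum fun j _ => (hD _).mul ((ContDiffOn.sum fun a _ =>
      (hg a).mul (contDiffOn_fderiv_apply' isOpen_ball (hD j) _)).add ((Zd_smooth i).mul (hD j)))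
  · intro u hu z hz
    have hm := (ψ_mem (A := A) i hz).1
    have hud : DifferentiableAt ℝ (fun z => u (A.ψ i z)) z :=
      diffAt_of_contDiffOn isOpen_ball (hu.chart i).1 hz
    have h1 : ∀ j, d (fun n => deg ε (A.H n) j (u n)) (A.ψ i z) =
        ∑ a, ε (A.gz i a z)
          (fderiv ℝ (fun z => deg ε (A.H (A.ψ i z)) j) z (cb a) (u (A.ψ i z)) +
            deg ε (A.H (A.ψ i z)) j (fderiv ℝ (fun z => u (A.ψ i z)) z (cb a))) +
          A.Zd ε i z (deg ε (A.H (A.ψ i z)) j (u (A.ψ i z))) := fun j => by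
      rw [hd.chart hε (hu.degH hε j) i z hz, dl, op]
      congr 1
      refine Finset.sum_congr rfl fun a _ => ?_
      rw [fderiv_capp (diffAt_of_contDiffOn isOpen_ball (hD j) hz) hud]
    have h2 : ∀ a, ∑ j ∈ Finset.range (N + 1), deg ε (A.H (A.ψ i z)) (j + r) (ε (A.gz i a z)
          (deg ε (A.H (A.ψ i z)) j (fderiv ℝ (fun z => u (A.ψ i z)) z (cb a)))) =
        A.sy ε Q i a z (fderiv ℝ (fun z => u (A.ψ i z)) z (cb a)) := fun a => by
      have h4 := congrArg (fun B : W →L[ℂ] W => B (fderiv ℝ (fun z => u (A.ψ i z)) z (cb a)))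
        (h _ hm _ (gr_mem i a (A.ψ i z)))
      simp only [ContinuousLinearMap.sum_apply, ContinuousLinearMap.mul_apply] at h4
      exact h4
    unfold dc op
    simp only [h1, map_sum, map_add, Finset.sum_add_distrib, ContinuousLinearMap.add_apply,
      ContinuousLinearMap.sum_apply, ContinuousLinearMap.mul_apply]
    rw [Finset.sum_comm (s := Finset.range (N + 1)) (t := Finset.univ)
      (f := fun j a => deg ε (A.H (A.ψ i z)) (j + r) (ε (A.gz i a z)
          (deg ε (A.H (A.ψ i z)) j (fderiv ℝ (fun z => u (A.ψ i z)) z (cb a)))))]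
    simp only [h2]
    abel

theorem dc_op (hd : A.IsD ε d) (hε : IsCAR ε) :
    A.IsOp ε ε A.F (A.dc ε d 0) ∧ A.IsOp ε ε A.H (A.dc ε d 1) :=
  ⟨dc_op_gen hd hε A.subB_F fun m hm v hv => by rw [sum_deg_eps0 hε, sub_projH hm hv],
    dc_op_gen hd hε A.subB_H fun m hm v hv => sum_deg_eps1 hε _ _⟩

theorem dc_form (hd : A.IsD ε d) (hε : IsCAR ε) {r : ℕ} {Q : Eu N → Submodule ℝ (Eu N)}
    (hQ : A.SubB Q) (h : A.IsOp ε ε Q (A.dc ε d r)) {u : Eu N → W} (hu : A.Form ε u) :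
    A.Form ε (A.dc ε d r u) := by
  refine ⟨contDiffOn_iff.2 fun i => ?_, fun m hm => ?_⟩
  · obtain ⟨Z, hZ, hop⟩ := h i
    exact (contDiffOn_op isOpen_ball (fun a => smooth_sy ε hQ i a) hZ (hu.chart i).1).congr
      fun z hz => hop u hu z hz
  · change A.Pi ε m (A.dc ε d r u m) = A.dc ε d r u m
    unfold dc
    rw [map_sum]
    refine Finset.sum_congr rfl fun j _ => ?_
    have h3 : ∀ x, A.Pi ε m (deg ε (A.H m) (j + r) x) = deg ε (A.H m) (j + r) (A.Pi ε m x) :=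
      fun x => congrArg (fun B : W →L[ℂ] W => B x) (Pi_comm_degH (A := A) hε m (j + r))
    rw [h3, hd.tan hε (hu.degH hε j) m hm]

end Atl

end Pool.Agent.P.MP_e0a138_an.AD
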