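import Pool.Agent.P.MP_e0a138_an.GE8
import Pool.Agent.P.MP_e0a138_an.AN5b

set_option autoImplicit false
set_option linter.unusedSectionVars false
set_option linter.unusedVariables false

open MeasureTheory Filter Topology Metric Complex
open scoped ENNReal NNReal ContDiff InnerProductSpace ComplexConjugate

noncomputable section
namespace Pool.Agent.P.MP_e0a138_an.AD

variable {N p q k : ℕ} {W : Type} [NormedAddCommGroup W] [InnerProductSpace ℂ W]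
  [FiniteDimensional ℂ W] [CompleteSpace W]
variable {A : Atl N p q k} {ε : Eu N →L[ℝ] W →L[ℂ] W}

namespace Atl
variable {Q : Eu N → Submodule ℝ (Eu N)} {d δ : (Eu N → W) → Eu N → W} {μ : Measure (Eu N)}

/-- the formal adjoint in a chart -/
theorem adj_chart (hε : IsCAR ε) (hQ : A.SubB Q) (hd : A.IsOp ε ε Q d)
    (hf : ∀ u, A.Form ε u → A.Form ε (d u)) (i : Fin k) :
    ∃ Z : Eu p × Eu q → W →L[ℂ] W, ContDiffOn ℝ ∞ Z (ball 0 1) ∧
      ∀ b : Eu p × Eu q → W, ContDiffOn ℝ ∞ b (ball 0 1) →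
      (∀ z ∈ ball (0 : Eu p × Eu q) 1, A.Pi ε (A.ψ i z) (b z) = b z) →
      (∀ z ∈ ball (0 : Eu p × Eu q) 1, A.Pi ε (A.ψ i z) (op cb (A.sy (ioL ε) Q i) Z b z) =
        op cb (A.sy (ioL ε) Q i) Z b z) ∧
      ∀ u, A.Form ε u → (A.Loc i u ∨ ∃ r < 1, ∀ z ∈ ball (0 : Eu p × Eu q) 1,
        z ∉ closedBall (0 : Eu p × Eu q) r → b z = 0) →
        ∫ z, ⟪op cb (A.sy (ioL ε) Q i) Z b z, u (A.ψ i z)⟫_ℂ ∂wm (ball 0 1) (A.rho i) =
          ∫ z, ⟪b z, d u (A.ψ i z)⟫_ℂ ∂wm (ball 0 1) (A.rho i) := by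
  obtain ⟨Z₀, hZ₀, hd₀⟩ := hd i
  obtain ⟨Z', hZ', hI⟩ := ibp isOpen_ball cb (smooth_sy ε hQ i) hZ₀ (rho_smooth i)
    fun z hz => rho_pos i hz
  have hP : ContDiffOn ℝ ∞ (fun z => A.Pi ε (A.ψ i z)) (ball 0 1) :=
    contDiffOn_iff.1 (smooth_Pi A hε) i
  refine ⟨fun z => A.Pi ε (A.ψ i z) * Z' z - ∑ a, A.sy (ioL ε) Q i a z *
    fderiv ℝ (fun z => A.Pi ε (A.ψ i z)) z (cb a), (hP.mul hZ').sub (ContDiffOn.sum fun a _ =>
      (smooth_sy (ioL ε) hQ i a).mul (contDiffOn_fderiv_apply' isOpen_ball hP _)),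
    fun b hb hbP => ?_⟩
  have key : ∀ z ∈ ball (0 : Eu p × Eu q) 1, op cb (A.sy (ioL ε) Q i)
      (fun z => A.Pi ε (A.ψ i z) * Z' z - ∑ a, A.sy (ioL ε) Q i a z *
        fderiv ℝ (fun z => A.Pi ε (A.ψ i z)) z (cb a)) b z =
      A.Pi ε (A.ψ i z) (op cb (A.sy (ioL ε) Q i) Z' b z) := by
    intro z hz
    have h1 : ∀ a, A.Pi ε (A.ψ i z) (A.sy (ioL ε) Q i a z (fderiv ℝ b z (cb a))) =
        A.sy (ioL ε) Q i a z (fderiv ℝ b z (cb a)) - A.sy (ioL ε) Q i a z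
          (fderiv ℝ (fun z => A.Pi ε (A.ψ i z)) z (cb a) (b z)) := fun a => by
      rw [← map_sub, ← Pi_fderiv hε i hb hbP hz]
      exact DFunLike.congr_fun (sy_comm hε hQ i a hz).2.1 _
    simp only [op, map_add, map_sum, h1, Finset.sum_sub_distrib, ContinuousLinearMap.sub_apply,
      ContinuousLinearMap.sum_apply, ContinuousLinearMap.mul_apply]
    abel
  refine ⟨fun z hz => ?_, fun u hu h0 => ?_⟩
  · rw [key z hz]
    exact DFunLike.congr_fun (Pi_idem (A.ψ i z)) _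
  · obtain ⟨hu1, hu2⟩ := hu.chart i
    obtain ⟨r, hr, h1⟩ : ∃ r < 1, (∀ z ∈ ball (0 : Eu p × Eu q) 1,
        z ∉ closedBall (0 : Eu p × Eu q) r → u (A.ψ i z) = 0) ∨ ∀ z ∈ ball (0 : Eu p × Eu q) 1,
        z ∉ closedBall (0 : Eu p × Eu q) r → b z = 0 := by
      rcases h0 with ⟨r, hr, h⟩ | ⟨r, hr, h⟩
      · exact ⟨r, hr, Or.inl (chart_zero hr h).1⟩
      · exact ⟨r, hr, Or.inr h⟩
    have h2 := hI (closedBall 0 r) (fun z => u (A.ψ i z)) b (isCompact_closedBall 0 r)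
      (closedBall_subset_ball hr) hu1 hb h1
    refine Eq.trans (integral_congr_ae ?_) (h2.trans (integral_congr_ae ?_))
    · filter_upwards [wm_ae measurableSet_ball] with z hz
      rw [key z hz, ← ContinuousLinearMap.adjoint_inner_right, ← ContinuousLinearMap.star_eq_adjoint,
        Pi_star, hu2 z hz]
      rfl
    · filter_upwards [wm_ae measurableSet_ball] with z hz
      rw [hd₀ u hu z hz]

end Atl

end Pool.Agent.P.MP_e0a138_an.AD
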