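import Pool.Agent.P.MP_e0a138_an.GE9

set_option autoImplicit false
set_option linter.unusedSectionVars false
set_option linter.unusedVariables false

open MeasureTheory Filter Topology Metric Complex
open scoped ENNReal NNReal ContDiff InnerProductSpace ComplexConjugate

noncomputable section
namespace Pool.Agent.P.MP_e0a138_an.AD

variable {N p q k : ℕ} {W : Type} [NormedAddCommGroup W] [InnerProductSpace ℂ W]
  [FiniteDimensional ℂ W] [CompleteSpace W]
variable {A : Atl N p q k} {ε : Eu N →L[ℝ] W →L[ℂ] W}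

namespace Atl
variable {Q : Eu N → Submodule ℝ (Eu N)} {d δ : (Eu N → W) → Eu N → W} {μ : Measure (Eu N)}

theorem IsAdj.isOp (hε : IsCAR ε) (hμ : A.IsVol μ) (hQ : A.SubB Q) (hd : A.IsOp ε ε Q d)
    (hf : ∀ u, A.Form ε u → A.Form ε (d u)) (h : A.IsAdj ε μ d δ) : A.IsOp ε (ioL ε) Q δ := by
  intro i
  obtain ⟨Z, hZ, hz⟩ := adj_chart hε hQ hd hf i
  refine ⟨Z, hZ, fun v hv => ?_⟩
  obtain ⟨hvs, hvP⟩ := hv.chart i
  obtain ⟨hδ, hadj⟩ := h v hv
  obtain ⟨hδs, hδP⟩ := hδ.chart i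
  obtain ⟨hoP, ho⟩ := hz _ hvs hvP
  have hos : ContDiffOn ℝ ∞ (op cb (A.sy (ioL ε) Q i) Z fun z => v (A.ψ i z)) (ball 0 1) :=
    contDiffOn_op isOpen_ball (smooth_sy _ hQ i) hZ hvs
  generalize (op cb (A.sy (ioL ε) Q i) Z fun z => v (A.ψ i z)) = o at hoP ho hos ⊢
  have hw : ContDiffOn ℝ ∞ (fun z => δ v (A.ψ i z) - o z) (ball 0 1) := hδs.sub hos
  have hρ : ContinuousOn (A.rho i) (ball 0 1) := (rho_continuous i).continuousOn
  refine fun z hz => sub_eq_zero.1 (eq_zero_of_test isOpen_ball hρ (fun z hz => rho_pos i hz)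
    hw.continuousOn (fun c hc hcs hsub => ?_) z hz)
  obtain ⟨r, -, hr, hKr⟩ := exists_closedBall_of_cpt hcs.isCompact hsub
  obtain ⟨a, ha⟩ : ∃ a : Eu p × Eu q → W, a = fun z => (c z : ℂ) • (δ v (A.ψ i z) - o z) :=
    ⟨_, rfl⟩
  have has : ContDiffOn ℝ ∞ a (ball 0 1) := ha ▸ (contDiffOn_ofReal hc.contDiffOn).smul hw
  have ha0 : ∀ z ∈ ball (0 : Eu p × Eu q) 1, z ∉ closedBall (0 : Eu p × Eu q) r → a z = 0 := by
    intro z _ hz
    simp [ha, image_eq_zero_of_notMem_tsupport fun h => hz (hKr h)]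
  have haP : ∀ z ∈ ball (0 : Eu p × Eu q) 1, A.Pi ε (A.ψ i z) (a z) = a z := by
    intro z hz
    simp only [ha, map_smul, map_sub, hδP z hz, hoP z hz]
  obtain ⟨hu, hl⟩ := ext_form i has hr ha0 haP
  have h1 := hadj _ hu
  have h2 := ho _ hu (Or.inl hl)
  obtain ⟨r', hr', hl'⟩ := hd.loc hu hl
  obtain ⟨r1, hr1, hl1⟩ := hl
  rw [hμ.integral_loc i (fun m hm hU => by
      rw [(chart_zero hr1 hl1).2 m hm hU, inner_zero_right]),
    hμ.integral_loc i (fun m hm hU => by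
      rw [(chart_zero hr' hl').2 m hm hU, inner_zero_right])] at h1
  have e : ∀ f : Eu p × Eu q → W,
      ∫ z, ⟪f z, A.ext i a (A.ψ i z)⟫_ℂ ∂wm (ball 0 1) (A.rho i) =
        ∫ z, ⟪f z, a z⟫_ℂ ∂wm (ball 0 1) (A.rho i) := fun f =>
    integral_congr_ae ((wm_ae measurableSet_ball).mono fun z hz => by
      simp only [ext_chart i a hz])
  have hi : ∀ f : Eu p × Eu q → W, ContinuousOn f (ball 0 1) →
      Integrable (fun z => ⟪f z, a z⟫_ℂ) (wm (ball 0 1) (A.rho i)) := fun f hf =>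
    integrable_wm_of_cpt isOpen_ball (isCompact_closedBall 0 r) (closedBall_subset_ball hr) hρ
      (hf.inner has.continuousOn) fun z hz hz' => by rw [ha0 z hz hz', inner_zero_right]
  rw [e fun z => δ v (A.ψ i z)] at h1
  rw [e o] at h2
  have h3 := integral_sub (hi _ hδs.continuousOn) (hi _ hos.continuousOn)
  rw [h1, h2, sub_self] at h3
  rw [← h3]
  refine integral_congr_ae (Eventually.of_forall fun z => ?_)
  simp only [ha, inner_sub_left]

end Atl

end Pool.Agent.P.MP_e0a138_an.AD
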