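import Pool.Agent.P.MP_e0a138_an.Mode
import Pool.Agent.P.MP_e0a138_an.Defs

set_option autoImplicit false

open Module MeasureTheory Filter Topology Set Real
open scoped ComplexConjugate InnerProductSpace ContDiff ENNReal

namespace Pool.Agent.P.MP_e0a138_an

/-- The fibre. -/
abbrev V4 := EuclideanSpace ℂ (Fin 4)

theorem op_add (b : ℝ) (u p q u' p' q' : V4) :
    op b (u + u') (p + p') (q + q') = op b u p q + op b u' p' q' := by
  ext i; fin_cases i <;> simp [op] <;> ring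

theorem op_smul (b : ℝ) (c : ℂ) (u p q : V4) :
    op b (c • u) (c • p) (c • q) = c • op b u p q := by
  ext i; fin_cases i <;> simp [op] <;> ring

theorem IsForm.diff {u : ℝ × ℝ → V4} (hu : IsForm u) (m : ℝ × ℝ) : DifferentiableAt ℝ u m :=
  hu.1.differentiable (by simp) m

/-- The space of eigenforms. -/
def Eig (a : ℝ → ℝ) (h μ : ℝ) : Submodule ℂ (ℝ × ℝ → V4) where
  carrier := {u | IsForm u ∧ ∀ m, Dh a h u m = (μ : ℂ) • u m}
  add_mem' := fun {u v} hu hv => ⟨⟨hu.1.1.add hv.1.1, fun x y => by simp [hu.1.2.1, hv.1.2.1],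
    fun x y => by simp [hu.1.2.2, hv.1.2.2]⟩, fun m => by
      have h1 := hu.2 m
      have h2 := hv.2 m
      unfold Dh at h1 h2 ⊢
      rw [fderiv_add (hu.1.diff m) (hv.1.diff m)]
      simp only [Pi.add_apply, add_apply, op_add, h1, h2, smul_add]⟩
  zero_mem' := ⟨⟨contDiff_const, fun _ _ => rfl, fun _ _ => rfl⟩, fun m => by
    ext i; fin_cases i <;> simp [Dh, op]⟩
  smul_mem' := fun c u hu => ⟨⟨hu.1.1.const_smul c, fun x y => by simp [hu.1.2.1],
    fun x y => by simp [hu.1.2.2]⟩, fun m => by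
      have h1 := hu.2 m
      unfold Dh at h1 ⊢
      rw [fderiv_const_smul (hu.1.diff m)]
      simp only [Pi.smul_apply, smul_apply, op_smul, h1, smul_comm c]⟩

/-- The mode of a scalar component of an eigenform. -/
noncomputable def modeL (a : ℝ → ℝ) (h μ : ℝ) (k : ℤ) (l : V4 →L[ℂ] ℂ) : Eig a h μ →ₗ[ℂ] PP where
  toFun u := PP.mk (mode k fun m => l (u.1 m))
    (mode_smooth k ((l.restrictScalars ℝ).contDiff.comp u.2.1.1))
    (fun y => by simp only [mode, u.2.1.2.2])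
  map_add' u v := PP.ext fun y => by
    have hu := u.2.1.1.continuous
    have hv := v.2.1.1.continuous
    have := mode_lin k (P := fun m => l (u.1 m)) (Q := fun m => l (v.1 m))
      (R := fun m => l ((u + v).1 m)) (by fun_prop) (by fun_prop) 1 1 y (fun x => by simp)
    simpa using this
  map_smul' c u := PP.ext fun y => by
    have hu := u.2.1.1.continuous
    have := mode_lin k (P := fun m => l (u.1 m)) (Q := fun m => l (u.1 m))
      (R := fun m => l ((c • u).1 m)) (by fun_prop) (by fun_prop) c 0 y (fun x => by simp)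
    simpa using this

/-- `u₀ - σ i u₃`. -/
noncomputable def lW (σ : ℝ) : V4 →L[ℂ] ℂ :=
  EuclideanSpace.proj 0 - (σ * Complex.I) • EuclideanSpace.proj 3

/-- `u₁ + σ i u₂`. -/
noncomputable def lZ (σ : ℝ) : V4 →L[ℂ] ℂ :=
  EuclideanSpace.proj 1 + (σ * Complex.I) • EuclideanSpace.proj 2

theorem fderiv_l (l : V4 →L[ℂ] ℂ) {u : ℝ × ℝ → V4} (hu : IsForm u) (m v : ℝ × ℝ) :
    fderiv ℝ (fun m => l (u m)) m v = l (fderiv ℝ u m v) := by
  have := ((l.restrictScalars ℝ).hasFDerivAt.comp m (hu.diff m).hasFDerivAt).fderiv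
  exact congrArg (fun L => L v) this

theorem modeL_mem {a : ℝ → ℝ} (ha : Good a) (h μ : ℝ) (k : ℤ) {σ : ℝ} (hσ : σ ^ 2 = 1)
    (u : Eig a h μ) : (modeL a h μ k (lW σ) u, modeL a h μ k (lZ σ) u) ∈
      G (opA ha (σ * h) (2 * π * k)) (opA' ha (σ * h) (2 * π * k)) μ := by
  have hσ' : (σ : ℂ) ^ 2 = 1 := by exact_mod_cast hσ
  have hI : Complex.I ^ 2 = -1 := Complex.I_sq
  have hs : ∀ l : V4 →L[ℂ] ℂ, ContDiff ℝ ∞ fun m => l (u.1 m) := fun l =>
    (l.restrictScalars ℝ).contDiff.comp u.2.1.1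
  have hp : ∀ (l : V4 →L[ℂ] ℂ) x y, l (u.1 (x + 1, y)) = l (u.1 (x, y)) := fun l x y => by
    rw [u.2.1.2.1]
  have hcomp : ∀ x y, let U := u.1 (x, y); let P := fderiv ℝ u.1 (x, y) (1, 0)
      let Q := fderiv ℝ u.1 (x, y) (0, 1)
      (-(P 1 + a y * Q 1) - deriv a y * U 1 - h * Q 2 = μ * U 0) ∧
      (P 0 + a y * Q 0 + h * Q 3 = μ * U 1) ∧ (h * Q 0 - (P 3 + a y * Q 3) = μ * U 2) ∧
      (P 2 + a y * Q 2 + deriv a y * U 2 - h * Q 1 = μ * U 3) := by
    intro x y U P Q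
    have e := u.2.2 (x, y)
    unfold Dh at e
    rw [fderiv_pair _ 1 (a y), fderiv_pair _ 0 h] at e
    have e0 := congrArg (fun v : V4 => v 0) e
    have e1 := congrArg (fun v : V4 => v 1) e
    have e2 := congrArg (fun v : V4 => v 2) e
    have e3 := congrArg (fun v : V4 => v 3) e
    simp [op] at e0 e1 e2 e3
    refine ⟨?_, ?_, ?_, ?_⟩
    · linear_combination e0
    · linear_combination e1
    · linear_combination e2
    · linear_combination e3
  constructor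
  · refine PP.ext fun y => ?_
    rw [opA_val]
    simp only [modeL, LinearMap.coe_mk, AddHom.coe_mk, PP.val_mk, PP.val_smul]
    rw [(mode_hasDerivAt k (hs _) y).deriv, ← mode_dx k (hs _) (hp _)]
    have e1 := mode_lin k (smooth_fderiv (hs (lW σ)) (0, 1)).continuous
      (smooth_fderiv (hs (lW σ)) (1, 0)).continuous (a y + Complex.I * (σ * h : ℝ)) 1 y
      (R := fun m => μ * lZ σ (u.1 m)) (fun x => by
        obtain ⟨-, e1, e2, -⟩ := hcomp x y
        simp only [fderiv_l _ u.2.1]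
        simp [lW, lZ]
        linear_combination (-1) * e1 - σ * Complex.I * e2 +
          (h * (fderiv ℝ u.1 (x, y) (0, 1)) 3 * Complex.I ^ 2) * hσ' +
          (h * (fderiv ℝ u.1 (x, y) (0, 1)) 3) * hI)
    have e2 := mode_lin k (hs (lZ σ)).continuous (hs (lZ σ)).continuous μ 0 y
      (R := fun m => μ * lZ σ (u.1 m)) (fun x => by simp)
    linear_combination e2 - e1
  · refine PP.ext fun y => ?_
    rw [opA'_val]
    simp only [modeL, LinearMap.coe_mk, AddHom.coe_mk, PP.val_mk, PP.val_smul]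
    rw [(mode_hasDerivAt k (hs _) y).deriv, ← mode_dx k (hs _) (hp _)]
    have e1 := mode_lin k (smooth_fderiv (hs (lZ σ)) (0, 1)).continuous
      (smooth_fderiv (hs (lZ σ)) (1, 0)).continuous (-(a y - Complex.I * (σ * h : ℝ))) (-1) y
      (R := fun m => μ * lW σ (u.1 m) + deriv a y * lZ σ (u.1 m)) (fun x => by
        obtain ⟨e0, -, -, e3⟩ := hcomp x y
        simp only [fderiv_l _ u.2.1]
        simp [lW, lZ]
        linear_combination (-1) * e0 + σ * Complex.I * e3 -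
          (h * (fderiv ℝ u.1 (x, y) (0, 1)) 2 * Complex.I ^ 2) * hσ' -
          (h * (fderiv ℝ u.1 (x, y) (0, 1)) 2) * hI)
    have e2 := mode_lin k (hs (lW σ)).continuous (hs (lZ σ)).continuous μ (deriv a y : ℝ) y
      (R := fun m => μ * lW σ (u.1 m) + deriv a y * lZ σ (u.1 m)) (fun x => by simp)
    linear_combination e2 - e1

/-- The eigenpairs of one block. -/
noncomputable abbrev Gk {a : ℝ → ℝ} (ha : Good a) (s : ℝ) (k : ℤ) (μ : ℝ) :=
  G (opA ha s (2 * π * k)) (opA' ha s (2 * π * k)) μ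

/-- The bound for one block. -/
noncomputable def Nk (a : ℝ → ℝ) (h : ℝ) (k : ℤ) : ℝ :=
  if k = 0 then 12 / (π * h) + 3 else 3 * nk a h (2 * π * k)

theorem nk_congr (a : ℝ → ℝ) {s t : ℝ} (h : |s| = |t|) (κ : ℝ) : nk a s κ = nk a t κ := by
  have : s ^ 2 = t ^ 2 := by rw [← sq_abs, h, sq_abs]
  simp only [nk, pot, h, this]

theorem sum_Gk_le {a : ℝ → ℝ} (ha : Good a) {h s : ℝ} (h0 : 0 < h) (h1 : h ≤ 1) (hs : |s| = h)
    (k : ℤ) (T : Finset ℝ) (hT : ∀ μ ∈ T, |μ| ≤ 6) :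
    (∀ μ ∈ T, FiniteDimensional ℂ (Gk ha s k μ)) ∧
      ∑ μ ∈ T, (finrank ℂ (Gk ha s k μ) : ℝ) ≤ Nk a h k := by
  have hs0 : s ≠ 0 := by rintro rfl; simp at hs; linarith
  have hh : |h| = h := abs_of_pos h0
  by_cases hk : k = 0
  · subst hk
    have e : 2 * π * ((0 : ℤ) : ℝ) = 0 := by simp
    have := sum_G_le (opA_adj ha s 0) (by norm_num) (bd_zero ha hs0 (lam := 6) (by norm_num))
      (ker_opA' ha hs0 0 le_rfl (bd_zero ha (neg_ne_zero.2 hs0) le_rfl)) T hT
    unfold Gk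
    rw [e]
    refine ⟨this.1, this.2.trans (le_of_eq ?_)⟩
    rw [Nk, if_pos rfl, hs]; ring
  · have := sum_G_le (opA_adj ha s (2 * π * k)) (by norm_num) (bd_mode ha hs0 (hs ▸ h1) _)
      (ker_opA' ha hs0 _ (by norm_num)
        (bd_mode ha (neg_ne_zero.2 hs0) (by rw [abs_neg, hs]; exact h1) _)) T hT
    refine ⟨this.1, this.2.trans (le_of_eq ?_)⟩
    rw [Nk, if_neg hk, nk_congr a (s := s) (t := h) (by rw [hs, hh]),
      nk_congr a (s := -s) (t := h) (by rw [abs_neg, hs, hh])]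
    ring

theorem eig_le {a : ℝ → ℝ} (ha : Good a) {h : ℝ} (h0 : 0 < h) (h1 : h ≤ 1) {μ : ℝ} (hμ : |μ| ≤ 6) :
    FiniteDimensional ℂ (Eig a h μ) ∧ finrank ℂ (Eig a h μ) ≤
      ∑ k ∈ Finset.Icc (-(⌈2 / h⌉₊ : ℤ)) ⌈2 / h⌉₊,
        (finrank ℂ (Gk ha (1 * h) k μ) + finrank ℂ (Gk ha (-1 * h) k μ)) := by
  have a1 : |1 * h| = h := by rw [one_mul, abs_of_pos h0]
  have a2 : |-1 * h| = h := by rw [neg_mul, one_mul, abs_neg, abs_of_pos h0]
  have hT : ∀ ν ∈ ({μ} : Finset ℝ), |ν| ≤ 6 := by simpa using hμ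
  have f1 : ∀ k, FiniteDimensional ℂ (Gk ha (1 * h) k μ) := fun k =>
    (sum_Gk_le ha h0 h1 a1 k {μ} hT).1 μ (by simp)
  have f2 : ∀ k, FiniteDimensional ℂ (Gk ha (-1 * h) k μ) := fun k =>
    (sum_Gk_le ha h0 h1 a2 k {μ} hT).1 μ (by simp)
  let ψ : ∀ (σ : ℝ) (hσ : σ ^ 2 = 1) (k : ℤ), Eig a h μ →ₗ[ℂ] Gk ha (σ * h) k μ := fun σ hσ k =>
    LinearMap.codRestrict _ ((modeL a h μ k (lW σ)).prod (modeL a h μ k (lZ σ)))
      (modeL_mem ha h μ k hσ)
  let Ψ : Eig a h μ →ₗ[ℂ] ((k : Finset.Icc (-(⌈2 / h⌉₊ : ℤ)) ⌈2 / h⌉₊) →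
      Gk ha (1 * h) k μ × Gk ha (-1 * h) k μ) :=
    LinearMap.pi fun k => (ψ 1 (by norm_num) k).prod (ψ (-1) (by norm_num) k)
  have hΨ : Function.Injective Ψ := by
    rw [← LinearMap.ker_eq_bot, LinearMap.ker_eq_bot']
    intro u hu
    have hall : ∀ k, ψ 1 (by norm_num) k u = 0 ∧ ψ (-1) (by norm_num) k u = 0 := by
      intro k
      by_cases hk : k ∈ Finset.Icc (-(⌈2 / h⌉₊ : ℤ)) ⌈2 / h⌉₊
      · have := congrFun hu ⟨k, hk⟩
        exact ⟨congrArg Prod.fst this, congrArg Prod.snd this⟩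
      · rw [Finset.mem_Icc] at hk
        have hk0 : k ≠ 0 := by rintro rfl; simp at hk
        have hk1 : ((⌈2 / h⌉₊ : ℕ) : ℤ) ≤ |k| := by
          rcases le_total 0 k with h | h
          · rw [abs_of_nonneg h]; omega
          · rw [abs_of_nonpos h]; omega
        have hk2 : 2 / |h| ≤ |(k : ℝ)| := by
          rw [abs_of_pos h0]
          exact (Nat.le_ceil _).trans (by exact_mod_cast hk1)
        have hN : Nk a h k = 0 := by
          rw [Nk, if_neg hk0, nk_eq_zero ha h0.ne' (by rwa [abs_of_pos h0]) hk2, mul_zero]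
        have g1 := (sum_Gk_le ha h0 h1 a1 k {μ} hT).2
        have g2 := (sum_Gk_le ha h0 h1 a2 k {μ} hT).2
        rw [hN, Finset.sum_singleton] at g1 g2
        have := f1 k
        have := f2 k
        have s1 : Subsingleton (Gk ha (1 * h) k μ) :=
          Module.finrank_zero_iff.1 (by exact_mod_cast le_antisymm g1 (Nat.cast_nonneg _))
        have s2 : Subsingleton (Gk ha (-1 * h) k μ) :=
          Module.finrank_zero_iff.1 (by exact_mod_cast le_antisymm g2 (Nat.cast_nonneg _))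
        exact ⟨Subsingleton.elim _ _, Subsingleton.elim _ _⟩
    have hc := u.2.1.1.continuous
    have hz : ∀ l : V4 →L[ℂ] ℂ, (∀ k, modeL a h μ k l u = 0) → ∀ m, l (u.1 m) = 0 := by
      intro l hl
      exact eq_zero_of_mode (W := fun m => l (u.1 m)) (by fun_prop)
        (fun x y => by simp only [u.2.1.2.1]) fun k y => congrArg (fun w : PP => w.val y) (hl k)
    have z1 := hz (lW 1) fun k => congrArg (fun p => p.1.1) (hall k).1
    have z2 := hz (lZ 1) fun k => congrArg (fun p => p.1.2) (hall k).1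
    have z3 := hz (lW (-1)) fun k => congrArg (fun p => p.1.1) (hall k).2
    have z4 := hz (lZ (-1)) fun k => congrArg (fun p => p.1.2) (hall k).2
    refine Subtype.ext (funext fun m => ?_)
    have y1 := z1 m
    have y2 := z2 m
    have y3 := z3 m
    have y4 := z4 m
    simp [lW, lZ] at y1 y2 y3 y4
    have hI : Complex.I ^ 2 = -1 := Complex.I_sq
    ext i; fin_cases i
    · simp; linear_combination (1 / 2) * y1 + (1 / 2) * y3
    · simp; linear_combination (1 / 2) * y2 + (1 / 2) * y4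
    · simp; linear_combination (-Complex.I / 2) * y2 + (Complex.I / 2) * y4 + u.1 m 2 * hI
    · simp; linear_combination (Complex.I / 2) * y1 - (Complex.I / 2) * y3 + u.1 m 3 * hI
  refine ⟨Module.Finite.of_injective _ hΨ, ?_⟩
  have := LinearMap.finrank_le_finrank_of_injective hΨ
  rw [Module.finrank_pi_fintype] at this
  simp only [Module.finrank_prod] at this
  rwa [Finset.sum_coe_sort (Finset.Icc (-(⌈2 / h⌉₊ : ℤ)) ⌈2 / h⌉₊)
    (fun k => finrank ℂ (Gk ha (1 * h) k μ) + finrank ℂ (Gk ha (-1 * h) k μ))] at this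

theorem trM_le {a : ℝ → ℝ} (ha : Good a) {h : ℝ} (h0 : 0 < h) (h1 : h ≤ 1) {f : ℝ → ℝ}
    (hf1 : ∀ x, f x ≤ 1) (hf6 : ∀ x, 6 < |x| → f x = 0) :
    trM a h f ≤ ENNReal.ofReal (24 / (π * h) + 6 + 6 * (2888 / h *
      ∫ y in (0 : ℝ)..1, ({y | a y ≠ 0} : Set ℝ).indicator (fun _ => (1 : ℝ)) y)) := by
  classical
  have a1 : |1 * h| = h := by rw [one_mul, abs_of_pos h0]
  have a2 : |-1 * h| = h := by rw [neg_mul, one_mul, abs_neg, abs_of_pos h0]
  unfold trM
  rw [ENNReal.tsum_eq_iSup_sum]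
  refine iSup_le fun T => ?_
  have hspan : ∀ μ : ℝ, Submodule.span ℂ {u | IsForm u ∧ ∀ m, Dh a h u m = (μ : ℂ) • u m} =
      Eig a h μ := fun μ => Submodule.span_eq (Eig a h μ)
  have hr : ∀ μ : ℝ, Module.rank ℂ (Submodule.span ℂ
      {u | IsForm u ∧ ∀ m, Dh a h u m = (μ : ℂ) • u m}) = Module.rank ℂ (Eig a h μ) :=
    fun μ => by rw [hspan]
  simp only [hr]
  set T' := T.filter (fun μ => |μ| ≤ 6) with hT'
  have hT : ∀ μ ∈ T', |μ| ≤ 6 := fun μ hμ => (Finset.mem_filter.1 hμ).2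
  calc ∑ μ ∈ T, ENNReal.ofReal (f μ) * (Cardinal.toENat (Module.rank ℂ (Eig a h μ)) : ℕ∞)
      ≤ ∑ μ ∈ T', ENNReal.ofReal (finrank ℂ (Eig a h μ)) := by
        rw [hT', Finset.sum_filter]
        refine Finset.sum_le_sum fun μ _ => ?_
        split_ifs with hμ
        · have := (eig_le ha h0 h1 hμ).1
          rw [← Module.finrank_eq_rank]
          simp only [map_natCast, ENat.toENNReal_coe, ENNReal.ofReal_natCast]
          exact mul_le_of_le_one_left' (ENNReal.ofReal_le_one.2 (hf1 μ))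
        · rw [hf6 μ (not_le.1 hμ)]; simp
    _ = ENNReal.ofReal (∑ μ ∈ T', (finrank ℂ (Eig a h μ) : ℝ)) :=
        (ENNReal.ofReal_sum_of_nonneg fun _ _ => Nat.cast_nonneg _).symm
    _ ≤ _ := by
        apply ENNReal.ofReal_le_ofReal
        set S := Finset.Icc (-(⌈2 / h⌉₊ : ℤ)) ⌈2 / h⌉₊ with hS
        have e1 : ∑ μ ∈ T', (finrank ℂ (Eig a h μ) : ℝ) ≤ ∑ μ ∈ T', ∑ k ∈ S,
            ((finrank ℂ (Gk ha (1 * h) k μ) : ℝ) + finrank ℂ (Gk ha (-1 * h) k μ)) :=
          Finset.sum_le_sum fun μ hμ => by exact_mod_cast (eig_le ha h0 h1 (hT μ hμ)).2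
        rw [Finset.sum_comm] at e1
        have e2 : ∑ k ∈ S, ∑ μ ∈ T',
            ((finrank ℂ (Gk ha (1 * h) k μ) : ℝ) + finrank ℂ (Gk ha (-1 * h) k μ)) ≤
            ∑ k ∈ S, 2 * Nk a h k := Finset.sum_le_sum fun k _ => by
          rw [Finset.sum_add_distrib]
          linarith [(sum_Gk_le ha h0 h1 a1 k T' hT).2, (sum_Gk_le ha h0 h1 a2 k T' hT).2]
        have h0S : (0 : ℤ) ∈ S := by simp [hS]
        rw [← Finset.mul_sum, ← Finset.add_sum_erase S (Nk a h) h0S] at e2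
        have e3 : ∑ k ∈ S.erase 0, Nk a h k = 3 * ∑ k ∈ S.erase 0, nk a h (2 * π * k) := by
          rw [Finset.mul_sum]
          exact Finset.sum_congr rfl fun k hk => by rw [Nk, if_neg (Finset.mem_erase.1 hk).1]
        have e4 := sum_nk_le ha h0.ne' (S.erase 0) (by simp)
        rw [abs_of_pos h0] at e4
        have e5 : Nk a h 0 = 12 / (π * h) + 3 := by simp [Nk]
        have e6 : 24 / (π * h) = 2 * (12 / (π * h)) := by ring
        linarith

end Pool.Agent.P.MP_e0a138_an
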