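import Pool.Agent.P.MP_e0a138_an.DuBois
import Pool.Agent.P.MP_e0a138_an.Torus

set_option autoImplicit false

open MeasureTheory Filter Topology Set Complex
open scoped ComplexConjugate InnerProductSpace ContDiff ENNReal

namespace Pool.Agent.P.MP_e0a138_an

/-- Clifford multiplication by the leaf direction. -/
noncomputable def Bm : V4 →L[ℂ] V4 := LinearMap.toContinuousLinearMap
  { toFun := fun p => !₂[-p 1, p 0, -p 3, p 2]
    map_add' := fun p q => by ext i; fin_cases i <;> simp <;> ring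
    map_smul' := fun c p => by ext i; fin_cases i <;> simp }

/-- Clifford multiplication by the transverse direction. -/
noncomputable def Cm : V4 →L[ℂ] V4 := LinearMap.toContinuousLinearMap
  { toFun := fun q => !₂[-q 2, q 3, q 0, -q 1]
    map_add' := fun p q => by ext i; fin_cases i <;> simp <;> ring
    map_smul' := fun c p => by ext i; fin_cases i <;> simp }

/-- The zero order part. -/
noncomputable def Em : V4 →L[ℂ] V4 := LinearMap.toContinuousLinearMap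
  { toFun := fun u => !₂[-u 1, 0, 0, u 2]
    map_add' := fun p q => by ext i; fin_cases i <;> simp; ring
    map_smul' := fun c p => by ext i; fin_cases i <;> simp }

theorem Bm_apply (p : V4) : Bm p = !₂[-p 1, p 0, -p 3, p 2] := rfl
theorem Cm_apply (q : V4) : Cm q = !₂[-q 2, q 3, q 0, -q 1] := rfl
theorem Em_apply (u : V4) : Em u = !₂[-u 1, 0, 0, u 2] := rfl

theorem op_eq (b : ℝ) (u p q : V4) : op b u p q = Bm p + Cm q + (b : ℂ) • Em u := by
  ext i; fin_cases i <;> simp [op, Bm_apply, Cm_apply, Em_apply] <;> ring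

theorem inner_Bm (u v : V4) : ⟪Bm u, v⟫_ℂ = -⟪u, Bm v⟫_ℂ := by
  simp [PiLp.inner_apply, Fin.sum_univ_four, Bm_apply]; ring

theorem inner_Cm (u v : V4) : ⟪Cm u, v⟫_ℂ = -⟪u, Cm v⟫_ℂ := by
  simp [PiLp.inner_apply, Fin.sum_univ_four, Cm_apply]; ring

theorem inner_Em (u v : V4) : ⟪Em u, v⟫_ℂ = ⟪u, Em v⟫_ℂ - ⟪u, Bm v⟫_ℂ := by
  simp [PiLp.inner_apply, Fin.sum_univ_four, Em_apply, Bm_apply]; ring

theorem Bm_Bm (u : V4) : Bm (Bm u) = -u := by
  ext i; fin_cases i <;> simp [Bm_apply]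

theorem Cm_Cm (u : V4) : Cm (Cm u) = -u := by
  ext i; fin_cases i <;> simp [Cm_apply]

theorem Bm_Cm (u : V4) : Bm (Cm u) = -Cm (Bm u) := by
  ext i; fin_cases i <;> simp [Bm_apply, Cm_apply]

theorem norm_Bm (u : V4) : ‖Bm u‖ = ‖u‖ := by
  have h : ⟪Bm u, Bm u⟫_ℂ = ⟪u, u⟫_ℂ := by rw [inner_Bm, Bm_Bm, inner_neg_right, neg_neg]
  rw [norm_eq_sqrt_re_inner (𝕜 := ℂ), h, ← norm_eq_sqrt_re_inner]

/-- The operator `D` on the holonomy cover. -/
noncomputable def Dop (b : ℝ → ℝ) (τ : ℝ) (ψ : ℝ → V4) (t : ℝ) : V4 :=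
  op (b t) (ψ t) (deriv ψ t) ((I * (τ / jac b t : ℝ)) • ψ t)

theorem Dop_eq (b : ℝ → ℝ) (τ : ℝ) (ψ : ℝ → V4) (t : ℝ) : Dop b τ ψ t =
    Bm (deriv ψ t) + (I * (τ / jac b t : ℝ)) • Cm (ψ t) + (b t : ℂ) • Em (ψ t) := by
  rw [Dop, op_eq, map_smul]

variable {b : ℝ → ℝ}

theorem jac_pos (b : ℝ → ℝ) (t : ℝ) : 0 < jac b t := Real.exp_pos _

theorem jac_hasDerivAt (hb : Continuous b) (t : ℝ) : HasDerivAt (jac b) (jac b t * b t) t :=
  (hb.integral_hasStrictDerivAt 0 t).hasDerivAt.exp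

theorem jac_cont (hb : Continuous b) : Continuous (jac b) :=
  continuous_iff_continuousAt.2 fun t => (jac_hasDerivAt hb t).continuousAt

theorem locFin (hb : Continuous b) : IsLocallyFiniteMeasure (leafMeas b) :=
  IsLocallyFiniteMeasure.withDensity_ofReal (jac_cont hb)

theorem integral_leaf {F : Type} [NormedAddCommGroup F] [NormedSpace ℝ F] (hb : Continuous b)
    (g : ℝ → F) : ∫ t, g t ∂leafMeas b = ∫ t, jac b t • g t := by
  rw [leafMeas, integral_withDensity_eq_integral_toReal_smul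
    (jac_cont hb).measurable.ennreal_ofReal (Eventually.of_forall fun _ => ENNReal.ofReal_lt_top)]
  simp only [ENNReal.toReal_ofReal (jac_pos b _).le]

theorem integrable_leaf {F : Type} [NormedAddCommGroup F] [NormedSpace ℝ F] (hb : Continuous b)
    (g : ℝ → F) {s : Set ℝ} (hs : MeasurableSet s) :
    IntegrableOn g s (leafMeas b) ↔ IntegrableOn (fun t => jac b t • g t) s := by
  rw [IntegrableOn, leafMeas, restrict_withDensity hs, integrable_withDensity_iff_integrable_smul'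
    (jac_cont hb).measurable.ennreal_ofReal (Eventually.of_forall fun _ => ENNReal.ofReal_lt_top)]
  simp only [ENNReal.toReal_ofReal (jac_pos b _).le]
  rfl

theorem leaf_ac (b : ℝ → ℝ) : leafMeas b ≪ volume := withDensity_absolutelyContinuous _ _

theorem toL_eq {g : ℝ → V4} (hg : MemLp g 2 (leafMeas b)) : toL b g = hg.toLp g := by
  simp [toL, hg]

theorem toL_ae {g : ℝ → V4} (hg : MemLp g 2 (leafMeas b)) : toL b g =ᵐ[leafMeas b] g := by
  rw [toL_eq hg]; exact hg.coeFn_toLp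

theorem toL_add {g g' : ℝ → V4} (hg : MemLp g 2 (leafMeas b)) (hg' : MemLp g' 2 (leafMeas b)) :
    toL b (fun t => g t + g' t) = toL b g + toL b g' := by
  rw [toL_eq hg, toL_eq hg', ← MemLp.toLp_add]; exact toL_eq (hg.add hg')

theorem toL_smul (c : ℂ) {g : ℝ → V4} (hg : MemLp g 2 (leafMeas b)) :
    toL b (fun t => c • g t) = c • toL b g := by
  rw [toL_eq hg, ← MemLp.toLp_const_smul]; exact toL_eq (hg.const_smul c)

theorem toL_add_smul (c : ℂ) {g g' : ℝ → V4} (hg : MemLp g 2 (leafMeas b))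
    (hg' : MemLp g' 2 (leafMeas b)) :
    toL b (fun t => g t + c • g' t) = toL b g + c • toL b g' := by
  rw [← toL_smul c hg']; exact toL_add hg (hg'.const_smul c)

theorem inner_toL (hb : Continuous b) {g : ℝ → V4} (hg : MemLp g 2 (leafMeas b))
    (U : Lp V4 2 (leafMeas b)) : ⟪toL b g, U⟫_ℂ = ∫ t, jac b t • ⟪g t, U t⟫_ℂ := by
  rw [L2.inner_def, ← integral_leaf hb]
  refine integral_congr_ae ((toL_ae hg).mono fun t ht => ?_)
  simp only [ht]

theorem inner_toL' (hb : Continuous b) {g g' : ℝ → V4} (hg : MemLp g 2 (leafMeas b))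
    (hg' : MemLp g' 2 (leafMeas b)) :
    ⟪toL b g, toL b g'⟫_ℂ = ∫ t, jac b t • ⟪g t, g' t⟫_ℂ := by
  rw [L2.inner_def, ← integral_leaf hb]
  refine integral_congr_ae (((toL_ae hg).and (toL_ae hg')).mono fun t ht => ?_)
  simp only [ht.1, ht.2]

theorem Dop_cont (hb : Continuous b) (τ : ℝ) {ψ : ℝ → V4} (h1 : ContDiff ℝ ∞ ψ) :
    Continuous (Dop b τ ψ) := by
  have c1 := h1.continuous
  have c2 : Continuous (deriv ψ) := h1.continuous_deriv (by simp)
  have c3 := jac_cont hb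
  rw [funext (Dop_eq b τ ψ)]
  fun_prop (disch := exact fun t => (jac_pos b t).ne')

theorem Dop_cs (τ : ℝ) {ψ : ℝ → V4} (h2 : HasCompactSupport ψ) :
    HasCompactSupport (Dop b τ ψ) := by
  refine HasCompactSupport.intro h2 fun t ht => ?_
  have e1 : ψ t = 0 := image_eq_zero_of_notMem_tsupport ht
  have e2 : deriv ψ t = 0 := by
    by_contra h
    exact ht (support_deriv_subset h)
  simp [Dop_eq, e1, e2]

theorem integrable_cs {ψ : ℝ → V4} (h2 : HasCompactSupport ψ) {F : ℝ → ℂ} (hF : Continuous F)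
    (h : ∀ t, ψ t = 0 → F t = 0) : Integrable F :=
  hF.integrable_of_hasCompactSupport (HasCompactSupport.intro h2 fun t ht =>
    h t (image_eq_zero_of_notMem_tsupport ht))

theorem Dop_symm (hb : Continuous b) (τ : ℝ) {η φ : ℝ → V4} (η1 : ContDiff ℝ ∞ η)
    (η2 : HasCompactSupport η) (φ1 : ContDiff ℝ ∞ φ) :
    ∫ t, jac b t • ⟪Dop b τ η t, φ t⟫_ℂ = ∫ t, jac b t • ⟪η t, Dop b τ φ t⟫_ℂ := by
  have c1 := η1.continuous
  have c2 := φ1.continuous
  have c3 := jac_cont hb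
  have c4 := Dop_cont hb τ η1
  have c5 := Dop_cont hb τ φ1
  have i1 : Integrable fun t => jac b t • ⟪Dop b τ η t, φ t⟫_ℂ :=
    integrable_cs (Dop_cs (b := b) τ η2) (by fun_prop) fun t ht => by simp [ht]
  have i2 : Integrable fun t => jac b t • ⟪η t, Dop b τ φ t⟫_ℂ :=
    integrable_cs η2 (by fun_prop) fun t ht => by simp [ht]
  rw [← sub_eq_zero, ← integral_sub i1 i2]
  refine integral_eq_zero_of_hasDerivAt_of_integrable (f := fun t => jac b t • ⟪Bm (η t), φ t⟫_ℂ)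
    (fun t => ?_) (i1.sub i2) (integrable_cs η2 (by fun_prop) fun t ht => by simp [ht])
  have d1 : HasDerivAt (fun t => Bm (η t)) (Bm (deriv η t)) t :=
    (Bm.restrictScalars ℝ).hasFDerivAt.comp_hasDerivAt t
      (η1.differentiable (by simp) t).hasDerivAt
  refine ((jac_hasDerivAt hb t).smul
    (d1.inner ℂ (φ1.differentiable (by simp) t).hasDerivAt)).congr_deriv ?_
  simp only [Dop_eq, inner_add_left, inner_add_right, inner_smul_left, inner_smul_right, inner_Bm,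
    inner_Cm, inner_Em, real_smul, map_mul, conj_I, conj_ofReal]
  push_cast; ring

/-- Test functions. -/
def Tsub : Submodule ℂ (ℝ → V4) where
  carrier := {ψ | ContDiff ℝ ∞ ψ ∧ HasCompactSupport ψ}
  add_mem' := fun hu hv => ⟨hu.1.add hv.1, hu.2.add hv.2⟩
  zero_mem' := ⟨contDiff_const, HasCompactSupport.zero⟩
  smul_mem' := fun c _ hu => ⟨hu.1.const_smul c, hu.2.smul_left (f := fun _ => c)⟩

theorem memT (hb : Continuous b) (ψ : Tsub) : MemLp ψ.1 2 (leafMeas b) :=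
  have := locFin hb
  ψ.2.1.continuous.memLp_of_hasCompactSupport ψ.2.2

theorem memD (hb : Continuous b) (τ : ℝ) (ψ : Tsub) : MemLp (Dop b τ ψ.1) 2 (leafMeas b) :=
  have := locFin hb
  (Dop_cont hb τ ψ.2.1).memLp_of_hasCompactSupport (Dop_cs τ ψ.2.2)

/-- The inclusion of test functions. -/
noncomputable def jL (hb : Continuous b) : Tsub →ₗ[ℂ] Lp V4 2 (leafMeas b) where
  toFun ψ := toL b ψ.1
  map_add' ψ φ := toL_add (memT hb ψ) (memT hb φ)
  map_smul' c ψ := toL_smul c (memT hb ψ)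

/-- The operator on test functions. -/
noncomputable def dL (hb : Continuous b) (τ : ℝ) : Tsub →ₗ[ℂ] Lp V4 2 (leafMeas b) where
  toFun ψ := toL b (Dop b τ ψ.1)
  map_add' ψ φ := by
    rw [← toL_add (memD hb τ ψ) (memD hb τ φ)]
    congr 1; funext t
    have := deriv_add (ψ.2.1.differentiable (by simp) t) (φ.2.1.differentiable (by simp) t)
    simp only [Dop, Submodule.coe_add, this, Pi.add_apply, smul_add, op_add]
  map_smul' c ψ := by
    rw [RingHom.id_apply, ← toL_smul c (memD hb τ ψ)]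
    congr 1; funext t
    have := deriv_const_smul c (ψ.2.1.differentiable (by simp) t)
    simp only [Dop, Submodule.coe_smul, this, Pi.smul_apply, ← op_smul, smul_comm c]

/-- `D + σ i` on test functions. -/
noncomputable def eL (hb : Continuous b) (τ σ : ℝ) : Tsub →ₗ[ℂ] Lp V4 2 (leafMeas b) :=
  dL hb τ + (σ * I) • jL hb

theorem eL_eq (hb : Continuous b) (τ σ : ℝ) (ψ : Tsub) :
    eL hb τ σ ψ = toL b fun t => Dop b τ ψ.1 t + (σ * I) • ψ.1 t := by
  rw [toL_add_smul _ (memD hb τ ψ) (memT hb ψ)]; rfl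

theorem inner_eL (hb : Continuous b) (τ σ : ℝ) (η : Tsub) {φ : ℝ → V4} (φ1 : ContDiff ℝ ∞ φ)
    (φ2 : MemLp φ 2 (leafMeas b)) (φ3 : MemLp (Dop b τ φ) 2 (leafMeas b)) :
    ⟪eL hb τ σ η, toL b φ⟫_ℂ =
      ⟪jL hb η, toL b fun t => Dop b τ φ t + ((-σ : ℝ) * I) • φ t⟫_ℂ := by
  have h : ⟪dL hb τ η, toL b φ⟫_ℂ = ⟪jL hb η, toL b (Dop b τ φ)⟫_ℂ :=
    (inner_toL' hb (memD hb τ η) φ2).trans
      ((Dop_symm hb τ η.2.1 η.2.2 φ1).trans (inner_toL' hb (memT hb η) φ3).symm)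
  rw [toL_add_smul _ φ3 φ2]
  simp only [eL, LinearMap.add_apply, LinearMap.smul_apply, inner_add_left, inner_add_right,
    inner_smul_left, inner_smul_right, h]
  simp

theorem norm_jL_le (hb : Continuous b) (τ : ℝ) (ψ : Tsub) : ‖jL hb ψ‖ ≤ 1 * ‖eL hb τ 1 ψ‖ := by
  have h : ⟪dL hb τ ψ, jL hb ψ⟫_ℂ = ⟪jL hb ψ, dL hb τ ψ⟫_ℂ :=
    (inner_toL' hb (memD hb τ ψ) (memT hb ψ)).trans
      ((Dop_symm hb τ ψ.2.1 ψ.2.2 ψ.2.1).trans (inner_toL' hb (memT hb ψ) (memD hb τ ψ)).symm)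
  rw [← inner_conj_symm, conj_eq_iff_im] at h
  have h2 : (⟪jL hb ψ, eL hb τ 1 ψ⟫_ℂ).im = ‖jL hb ψ‖ ^ 2 := by
    simp only [eL, LinearMap.add_apply, LinearMap.smul_apply, inner_add_right,
      inner_smul_right, add_im, h, inner_self_eq_norm_sq_to_K]
    simp [← ofReal_pow]
  have h3 := (le_abs_self _).trans ((abs_im_le_norm _).trans
    (norm_inner_le_norm (𝕜 := ℂ) (jL hb ψ) (eL hb τ 1 ψ)))
  rw [h2] at h3
  rcases (norm_nonneg (jL hb ψ)).eq_or_lt with h0 | h0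
  · rw [← h0]; positivity
  · nlinarith

theorem locInt_clm {Y : ℝ → V4} (hY : LocallyIntegrable Y volume) (L : V4 →L[ℂ] V4) :
    LocallyIntegrable (fun t => L (Y t)) volume :=
  locallyIntegrable_iff.2 fun _ hK => L.integrable_comp (hY.integrableOn_isCompact hK)

/-- The zero order part of the adjoint equation. -/
noncomputable def Gam (β θ σ : ℝ) (v : V4) : V4 :=
  (I * θ) • Cm v + (β : ℂ) • (Em v - Bm v) - (σ * I) • v

theorem weak_pt (β θ σ w φ φ' : ℝ) (e U : V4) :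
    ⟪e, φ' • -Bm (w • U) + φ • Gam β θ σ (w • U)⟫_ℂ =
      w • ⟪Bm (φ' • e) + (I * θ) • Cm (φ • e) + (β : ℂ) • Em (φ • e) + (σ * I) • φ • e, U⟫_ℂ := by
  simp only [Gam, ← coe_smul, map_smul,
    inner_add_left, inner_add_right, inner_smul_left, inner_smul_right, inner_Bm,
    inner_Cm, inner_Em, map_mul, conj_I, conj_ofReal, inner_sub_right, inner_neg_right,
    smul_eq_mul]
  ring

theorem wr_pt (β θ σ : ℝ) (z : V4) :
    ⟪z, Bm (Gam β θ σ (Bm z))⟫_ℂ + ⟪Gam β θ σ (Bm z), Bm z⟫_ℂ =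
      β * ⟪z, Bm z⟫_ℂ + 2 * σ * I * (‖z‖ ^ 2 : ℝ) := by
  have e : ((‖z‖ ^ 2 : ℝ) : ℂ) = ⟪z, z⟫_ℂ := by
    rw [inner_self_eq_norm_sq_to_K]; push_cast; rfl
  rw [e]
  simp only [Gam, PiLp.inner_apply, Fin.sum_univ_four]
  simp [Bm_apply, Cm_apply, Em_apply, -inner_self_eq_norm_sq_to_K]
  ring

theorem ode_zero (hb : Continuous b) (θ : ℝ → ℝ) {σ : ℝ} (hσ : σ ^ 2 = 1) {Z : ℝ → V4}
    (dZ : ∀ t, HasDerivAt Z (Gam (b t) (θ t) σ (Bm (Z t))) t)
    (hi : Integrable fun t => ‖Z t‖ ^ 2 / jac b t) (t : ℝ) : Z t = 0 := by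
  have dm : ∀ t, HasDerivAt (fun t => σ * (⟪Z t, Bm (Z t)⟫_ℂ).im / jac b t)
      (2 * ‖Z t‖ ^ 2 / jac b t) t := by
    intro t
    have d1 : HasDerivAt (fun t => Bm (Z t)) (Bm (Gam (b t) (θ t) σ (Bm (Z t)))) t :=
      (Bm.restrictScalars ℝ).hasFDerivAt.comp_hasDerivAt t (dZ t)
    have d2 := ((dZ t).inner ℂ d1).congr_deriv (wr_pt _ _ _ _)
    have d3 : HasDerivAt (fun t => (⟪Z t, Bm (Z t)⟫_ℂ).im)
        (b t * (⟪Z t, Bm (Z t)⟫_ℂ).im + 2 * σ * ‖Z t‖ ^ 2) t := by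
      refine (imCLM.hasFDerivAt.comp_hasDerivAt t d2).congr_deriv ?_
      simp only [imCLM_apply, add_im, mul_im, mul_re, ofReal_re, ofReal_im, I_re, I_im,
        re_ofNat, im_ofNat]
      ring
    refine ((d3.const_mul σ).div (jac_hasDerivAt hb t) (jac_pos b t).ne').congr_deriv ?_
    have := (jac_pos b t).ne'
    field_simp
    linear_combination (2 * ‖Z t‖ ^ 2) * hσ
  have mm : Monotone fun t => σ * (⟪Z t, Bm (Z t)⟫_ℂ).im / jac b t :=
    monotone_of_deriv_nonneg (fun t => (dm t).differentiableAt) fun t => by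
      rw [(dm t).deriv]; have := jac_pos b t; positivity
  have im : Integrable fun t => σ * (⟪Z t, Bm (Z t)⟫_ℂ).im / jac b t := by
    refine hi.mono' (continuous_iff_continuousAt.2 fun t =>
      (dm t).continuousAt).aestronglyMeasurable (Eventually.of_forall fun t => ?_)
    have hw := jac_pos b t
    have e2 : |(⟪Z t, Bm (Z t)⟫_ℂ).im| ≤ ‖Z t‖ ^ 2 := by
      refine (abs_im_le_norm _).trans ((norm_inner_le_norm _ _).trans (le_of_eq ?_))
      rw [norm_Bm, sq]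
    have e3 : |σ| = 1 := by rw [← sq_eq_sq₀ (abs_nonneg _) zero_le_one, sq_abs, hσ, one_pow]
    rw [Real.norm_eq_abs, abs_div, abs_mul, e3, abs_of_pos hw, one_mul]
    gcongr
  have m0 := funext (eq_zero_of_monotone mm im)
  have h0 := dm t
  rw [m0] at h0
  have h1 := h0.unique (hasDerivAt_const t 0)
  have := (jac_pos b t).ne'
  simpa [this] using h1

end Pool.Agent.P.MP_e0a138_an
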