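import Pool.Agent.P.MP_e0a138_an.Defs

set_option autoImplicit false

open MeasureTheory Filter Topology Set
open scoped InnerProductSpace

namespace Pool.Agent.P.MP_e0a138_an

variable {H : Type} [NormedAddCommGroup H] [InnerProductSpace ℂ H] [CompleteSpace H]

theorem cont_F {f : ℝ → ℝ} (hf : Continuous f) (hf6 : ∀ x, 6 < |x| → f x = 0) :
    Continuous fun r : ℝ => if 0 < r then f √(r⁻¹ - 1) else 0 := by
  rw [continuous_iff_continuousAt]
  intro r
  by_cases hr : 0 < r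
  · have : ContinuousAt (fun r : ℝ => f √(r⁻¹ - 1)) r := by
      fun_prop (disch := exact hr.ne')
    refine this.congr ?_
    filter_upwards [lt_mem_nhds hr] with s hs
    rw [if_pos hs]
  · refine (continuousAt_const (y := (0 : ℝ))).congr ?_
    have : r < 1 / 50 := by linarith [not_lt.1 hr]
    filter_upwards [gt_mem_nhds this] with s hs
    split_ifs with h
    · rw [hf6]
      rw [abs_of_nonneg (Real.sqrt_nonneg _)]
      apply Real.lt_sqrt_of_sq_lt
      have : 50 < s⁻¹ := by rwa [lt_inv_comm₀ (by norm_num) h, inv_eq_one_div]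
      linarith
    · rfl

theorem fc_pos {f : ℝ → ℝ} (hf0 : ∀ x, 0 ≤ f x) (R : H →L[ℂ] H) : (fc f R).IsPositive := by
  rw [← ContinuousLinearMap.nonneg_iff_isPositive]
  refine cfc_nonneg fun x _ => ?_
  split_ifs
  · exact hf0 _
  · rfl

theorem fc_fix {f : ℝ → ℝ} (hf : Continuous f) (hf6 : ∀ x, 6 < |x| → f x = 0)
    (hf0 : ∀ x, 0 ≤ f x) (hf1 : ∀ x, f x ≤ 1) {c : ℝ} (hc : 0 ≤ c)
    (hfc : ∀ x, |x| ≤ c → f x = 1) (R : H →L[ℂ] H) (ψ : ℕ → H)
    (hψ : ∀ n, (star R * R) (ψ (n + 1)) = ψ n) {C M : ℝ} (hM0 : 0 ≤ M) (hM : M < 1 + c ^ 2)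
    (hn : ∀ n, ‖ψ n‖ ≤ C * M ^ n) : fc f R (ψ 0) = ψ 0 := by
  set S := star R * R with hS
  have hsa : IsSelfAdjoint S := IsSelfAdjoint.star_mul_self R
  have cF := cont_F hf hf6
  set F := fun r : ℝ => if 0 < r then f √(r⁻¹ - 1) else 0 with hF
  have h1 : ∀ n, (S ^ n) (ψ n) = ψ 0 := by
    intro n
    induction n with
    | zero => simp
    | succ n ih => rw [pow_succ, mul_apply_eq_comp, hψ, ih]
  have hp : 0 < 1 + c ^ 2 := by positivity
  have h2 : ∀ n, ‖ψ 0 - fc f R (ψ 0)‖ ≤ C * (M / (1 + c ^ 2)) ^ n := by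
    intro n
    have e1 : cfc (fun r => (1 - F r) * r ^ n) S = (1 - cfc F S) * S ^ n := by
      rw [cfc_mul _ _ S, cfc_sub _ _ S, cfc_const_one ℝ S, cfc_pow_id S n]
    have e2 : ‖cfc (fun r => (1 - F r) * r ^ n) S‖ ≤ (1 + c ^ 2)⁻¹ ^ n := by
      refine norm_cfc_le (by positivity) fun r hr => ?_
      have hr0 : 0 ≤ r := spectrum_star_mul_self_nonneg r hr
      by_cases h : (1 + c ^ 2)⁻¹ ≤ r
      · have hr1 : 0 < r := lt_of_lt_of_le (by positivity) h
        have : F r = 1 := by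
          simp only [hF, if_pos hr1]
          apply hfc
          rw [abs_of_nonneg (Real.sqrt_nonneg _), Real.sqrt_le_left hc]
          have := (inv_le_comm₀ hp hr1).1 h
          linarith
        rw [this]; simp; positivity
      · have a0 : 0 ≤ F r := by
          simp only [hF]; split_ifs
          · exact hf0 _
          · rfl
        have a1 : F r ≤ 1 := by
          simp only [hF]; split_ifs
          · exact hf1 _
          · norm_num
        rw [Real.norm_eq_abs, abs_of_nonneg (mul_nonneg (by linarith) (by positivity))]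
        calc (1 - F r) * r ^ n ≤ 1 * (1 + c ^ 2)⁻¹ ^ n := by
              gcongr
              · linarith
              · exact (not_le.1 h).le
          _ = _ := one_mul _
    have e3 : ψ 0 - fc f R (ψ 0) = cfc (fun r => (1 - F r) * r ^ n) S (ψ n) := by
      rw [e1, mul_apply_eq_comp, h1]; rfl
    rw [e3]
    refine (ContinuousLinearMap.le_opNorm _ _).trans ?_
    calc _ ≤ (1 + c ^ 2)⁻¹ ^ n * (C * M ^ n) := by gcongr; exact hn n
      _ = _ := by rw [div_eq_mul_inv, mul_pow]; ring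
  have h3 : Tendsto (fun n : ℕ => C * (M / (1 + c ^ 2)) ^ n) atTop (𝓝 (C * 0)) :=
    (tendsto_pow_atTop_nhds_zero_of_lt_one (by positivity) ((div_lt_one hp).2 hM)).const_mul C
  have h4 := ge_of_tendsto' h3 h2
  rw [mul_zero, norm_le_zero_iff, sub_eq_zero] at h4
  exact h4.symm

omit [CompleteSpace H] in
theorem re_inner_ge {T : H →L[ℂ] H} (hT : T.IsPositive) {ψ : H} (hψ : T ψ = ψ) (δ : H) :
    2 * (⟪ψ, δ⟫_ℂ).re - ‖ψ‖ ^ 2 ≤ (⟪δ, T δ⟫_ℂ).re := by
  have h := hT.re_inner_nonneg_right (δ - ψ)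
  have h1 : ⟪ψ, T δ⟫_ℂ = ⟪ψ, δ⟫_ℂ := by
    have := hT.isSymmetric ψ δ
    simp only [ContinuousLinearMap.coe_coe, hψ] at this
    exact this.symm
  have h2 : (⟪δ, ψ⟫_ℂ).re = (⟪ψ, δ⟫_ℂ).re := inner_re_symm (𝕜 := ℂ) δ ψ
  have h3 : (⟪ψ, ψ⟫_ℂ).re = ‖ψ‖ ^ 2 := inner_self_eq_norm_sq (𝕜 := ℂ) ψ
  rw [map_sub, hψ, inner_sub_left, inner_sub_right, inner_sub_right, h1] at h
  simp only [RCLike.re_to_complex, Complex.sub_re] at h
  linarith

end Pool.Agent.P.MP_e0a138_an
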