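import Pool.Agent.P.MP_e0a138_an.Res
import Pool.Agent.P.MP_e0a138_an.Spec

set_option autoImplicit false

open MeasureTheory Filter Topology Set Complex
open scoped ComplexConjugate InnerProductSpace ContDiff ENNReal FourierTransform Real SchwartzMap

namespace Pool.Agent.P.MP_e0a138_an

variable {b : ℝ → ℝ}

theorem cont0 (h0 : ∀ t, b t = 0) : Continuous b := by
  rw [show b = fun _ => 0 from funext h0]; exact continuous_const

theorem jac0 (h0 : ∀ t, b t = 0) (t : ℝ) : jac b t = 1 := by simp [jac, h0]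

theorem leaf0 (h0 : ∀ t, b t = 0) : leafMeas b = volume := by
  simp only [leafMeas, jac0 h0, ENNReal.ofReal_one]
  exact withDensity_one

/-- A test function as a Schwartz function. -/
noncomputable def sch (m : Tsub) : 𝓢(ℝ, V4) := m.2.2.toSchwartzMap m.2.1

theorem four_eq (m : Tsub) : 𝓕 m.1 = (𝓕 (sch m) : 𝓢(ℝ, V4)) := rfl

theorem four_smooth (m : Tsub) : ContDiff ℝ ∞ (𝓕 m.1) := (𝓕 (sch m) : 𝓢(ℝ, V4)).smooth ⊤

theorem four_mem (h0 : ∀ t, b t = 0) (m : Tsub) : MemLp (𝓕 m.1) 2 (leafMeas b) := by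
  rw [leaf0 h0]; exact (𝓕 (sch m) : 𝓢(ℝ, V4)).memLp 2

theorem four_norm (h0 : ∀ t, b t = 0) (m : Tsub) :
    ‖toL b (𝓕 m.1)‖ ^ 2 = ∫ ξ, ‖m.1 ξ‖ ^ 2 := by
  have h := inner_toL' (cont0 h0) (four_mem h0 m) (four_mem h0 m)
  simp only [jac0 h0, one_smul] at h
  rw [four_eq, SchwartzMap.integral_inner_fourier_fourier, ← four_eq] at h
  simp only [inner_self_eq_norm_sq_to_K] at h
  have h2 : ((‖toL b (𝓕 m.1)‖ ^ 2 : ℝ) : ℂ) = ((∫ ξ, ‖m.1 ξ‖ ^ 2 : ℝ) : ℂ) := by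
    rw [← integral_complex_ofReal]
    push_cast
    exact h
  exact_mod_cast h2

/-- The symbol of `D + c`. -/
noncomputable def sym (τ : ℝ) (c : ℂ) (m : Tsub) : Tsub :=
  ⟨fun ξ => Bm ((-2 * π * I * ξ) • m.1 ξ) + (I * τ) • Cm (m.1 ξ) + c • m.1 ξ, by
    have h1 := m.2.1
    have h2 : ContDiff ℝ ∞ fun ξ : ℝ => (-2 * π * I * ξ : ℂ) :=
      contDiff_const.mul ofRealCLM.contDiff
    exact (((Bm.restrictScalars ℝ).contDiff.comp (h2.smul h1)).add
      (((Cm.restrictScalars ℝ).contDiff.comp h1).const_smul _)).add (h1.const_smul _),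
    HasCompactSupport.intro m.2.2 fun t ht => by
      simp [image_eq_zero_of_notMem_tsupport ht]⟩

theorem four_clm (L : V4 →L[ℂ] V4) {g : ℝ → V4} (hg : Integrable g) (t : ℝ) :
    L (𝓕 g t) = 𝓕 (fun ξ => L (g ξ)) t := by
  rw [Real.fourier_eq, Real.fourier_eq, ← L.integral_comp_comm
    ((Real.fourierIntegral_convergent_iff t).2 hg)]
  simp only [Circle.smul_def, map_smul]

theorem four_add {g g' : ℝ → V4} (hg : Integrable g) (hg' : Integrable g') (t : ℝ) :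
    𝓕 (fun ξ => g ξ + g' ξ) t = 𝓕 g t + 𝓕 g' t := by
  simp only [Real.fourier_eq, smul_add]
  exact integral_add ((Real.fourierIntegral_convergent_iff t).2 hg)
    ((Real.fourierIntegral_convergent_iff t).2 hg')

theorem four_smul (c : ℂ) (g : ℝ → V4) (t : ℝ) : 𝓕 (fun ξ => c • g ξ) t = c • 𝓕 g t := by
  simp only [Real.fourier_eq, smul_comm _ c, integral_smul]

theorem Dop_four (h0 : ∀ t, b t = 0) (τ : ℝ) (c : ℂ) (m : Tsub) :
    (fun t => Dop b τ (𝓕 m.1) t + c • 𝓕 m.1 t) = 𝓕 (sym τ c m).1 := by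
  have c1 := m.2.1.continuous
  have i1 : Integrable m.1 := c1.integrable_of_hasCompactSupport m.2.2
  have i2 : Integrable fun ξ : ℝ => ξ • m.1 ξ :=
    (continuous_id.smul c1).integrable_of_hasCompactSupport m.2.2.smul_left
  have i3 : Integrable fun ξ : ℝ => (-2 * π * I * ξ : ℂ) • m.1 ξ :=
    Continuous.integrable_of_hasCompactSupport (by fun_prop)
      (m.2.2.smul_left (f := fun ξ : ℝ => (-2 * π * I * ξ : ℂ)))
  have i4 : Integrable fun ξ : ℝ => Bm ((-2 * π * I * ξ : ℂ) • m.1 ξ) := Bm.integrable_comp i3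
  have i5 : Integrable fun ξ : ℝ => (I * τ) • Cm (m.1 ξ) := (Cm.integrable_comp i1).smul (I * τ)
  have i6 : Integrable fun ξ : ℝ => c • m.1 ξ := i1.smul c
  have i7 : Integrable fun ξ : ℝ => Bm ((-2 * π * I * ξ : ℂ) • m.1 ξ) + (I * τ) • Cm (m.1 ξ) :=
    i4.add i5
  funext t
  rw [Dop_eq, Real.deriv_fourier i1 i2, four_clm Bm i3, four_clm Cm i1, jac0 h0, h0]
  simp only [sym]
  rw [four_add i7 i6, four_add i4 i5, four_smul, four_smul]
  simp

theorem Dop_four_mem (h0 : ∀ t, b t = 0) (τ : ℝ) (m : Tsub) :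
    MemLp (Dop b τ (𝓕 m.1)) 2 (leafMeas b) := by
  have := four_mem h0 (sym τ 0 m)
  rw [← Dop_four h0] at this
  simpa using this

theorem sym_sym (τ : ℝ) (m : Tsub) (ξ : ℝ) :
    (sym τ ((1 : ℝ) * I) (sym τ ((-1 : ℝ) * I) m)).1 ξ =
      ((1 + τ ^ 2 + 4 * π ^ 2 * ξ ^ 2 : ℝ) : ℂ) • m.1 ξ := by
  have hI : I ^ 2 = -1 := I_sq
  ext i
  fin_cases i <;> simp [sym, Bm_apply, Cm_apply] <;> ring_nf <;> simp only [hI] <;> ring

theorem S_four (h0 : ∀ t, b t = 0) {τ : ℝ} {R : Lp V4 2 (leafMeas b) →L[ℂ] Lp V4 2 (leafMeas b)}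
    (hR : IsRes b τ R) (m m' : Tsub)
    (h : ∀ ξ, m'.1 ξ = ((1 + τ ^ 2 + 4 * π ^ 2 * ξ ^ 2 : ℝ) : ℂ) • m.1 ξ) :
    (star R * R) (toL b (𝓕 m'.1)) = toL b (𝓕 m.1) := by
  have e : m'.1 = (sym τ ((1 : ℝ) * I) (sym τ ((-1 : ℝ) * I) m)).1 :=
    funext fun ξ => by rw [h, sym_sym]
  rw [e, mul_apply_eq_comp, ← Dop_four h0,
    res_apply (cont0 h0) hR (four_smooth _) (four_mem h0 _) (Dop_four_mem h0 τ _), ← Dop_four h0,
    star_res (cont0 h0) hR (four_smooth _) (four_mem h0 _) (Dop_four_mem h0 τ _)]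

/-- The band-limited test functions. -/
noncomputable def mn (χ : ContDiffBump (0 : ℝ)) (τ : ℝ) (e : V4) (n : ℕ) : Tsub :=
  ⟨fun ξ => ((1 + τ ^ 2 + 4 * π ^ 2 * ξ ^ 2) ^ n * χ ξ) • e,
    (ContDiff.mul (by fun_prop) χ.contDiff).smul contDiff_const,
    (χ.hasCompactSupport.mul_left).smul_right⟩

theorem fix_four (h0 : ∀ t, b t = 0) {τ : ℝ}
    {R : Lp V4 2 (leafMeas b) →L[ℂ] Lp V4 2 (leafMeas b)} (hR : IsRes b τ R)
    {f : ℝ → ℝ} (hf : Continuous f) (hf6 : ∀ x, 6 < |x| → f x = 0)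
    (hf0 : ∀ x, 0 ≤ f x) (hf1 : ∀ x, f x ≤ 1) {c : ℝ} (hc : 0 ≤ c)
    (hfc : ∀ x, |x| ≤ c → f x = 1) (χ : ContDiffBump (0 : ℝ))
    (hχ : τ ^ 2 + 4 * π ^ 2 * χ.rOut ^ 2 < c ^ 2) (e : V4) :
    fc f R (toL b (𝓕 (mn χ τ e 0).1)) = toL b (𝓕 (mn χ τ e 0).1) := by
  refine fc_fix hf hf6 hf0 hf1 hc hfc R (fun n => toL b (𝓕 (mn χ τ e n).1)) (fun n => ?_)
    (C := ‖toL b (𝓕 (mn χ τ e 0).1)‖) (M := 1 + τ ^ 2 + 4 * π ^ 2 * χ.rOut ^ 2) (by positivity)
    (by linarith) fun n => ?_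
  · refine S_four h0 hR _ _ fun ξ => ?_
    simp only [mn, coe_smul, smul_smul]
    congr 1; ring
  · apply le_of_sq_le_sq _ (by positivity)
    rw [mul_pow, four_norm h0, four_norm h0, ← integral_mul_const]
    have i : ∀ n, Integrable fun ξ => ‖(mn χ τ e n).1 ξ‖ ^ 2 := fun n =>
      ((mn χ τ e n).2.1.continuous.norm.pow 2).integrable_of_hasCompactSupport
        (HasCompactSupport.intro (mn χ τ e n).2.2 fun t ht => by
          simp [image_eq_zero_of_notMem_tsupport ht])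
    refine integral_mono (i n) ((i 0).mul_const _) fun ξ => ?_
    simp only [mn, pow_zero, one_mul, norm_smul, norm_mul, Real.norm_eq_abs]
    by_cases hξ : χ.rOut ≤ |ξ|
    · rw [χ.zero_of_le_dist (by simpa using hξ)]; simp
    · have h1 : ξ ^ 2 ≤ χ.rOut ^ 2 := by
        rw [← sq_abs ξ]; gcongr; exact (not_le.1 hξ).le
      rw [← mul_pow, abs_of_nonneg (a := _ ^ n) (by positivity), mul_comm (_ * ‖e‖), mul_assoc]
      gcongr

theorem tendsto_avg {g : ℝ → ℂ} (hg : Continuous g) :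
    Tendsto (fun ε : ℝ => ∫ t in Icc 0 ε, (ε⁻¹ : ℝ) * g t) (𝓝[>] 0) (𝓝 (g 0)) := by
  have h := (hg.integral_hasStrictDerivAt 0 0).hasDerivAt.tendsto_slope_zero_right
  refine h.congr' ?_
  filter_upwards [self_mem_nhdsWithin] with ε hε
  rw [integral_const_mul, zero_add, intervalIntegral.integral_same, sub_zero,
    intervalIntegral.integral_of_le (le_of_lt hε), integral_Icc_eq_integral_Ioc, real_smul]

theorem diag_ge (h0 : ∀ t, b t = 0) {τ : ℝ}
    {R : Lp V4 2 (leafMeas b) →L[ℂ] Lp V4 2 (leafMeas b)} (hR : IsRes b τ R)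
    {f : ℝ → ℝ} (hf : Continuous f) (hf6 : ∀ x, 6 < |x| → f x = 0)
    (hf0 : ∀ x, 0 ≤ f x) (hf1 : ∀ x, f x ≤ 1) {c : ℝ} (hc : 0 ≤ c)
    (hfc : ∀ x, |x| ≤ c → f x = 1) {r1 r2 : ℝ} (h1 : 0 < r1) (h2 : r1 < r2)
    (hχ : τ ^ 2 + 4 * π ^ 2 * r2 ^ 2 < c ^ 2) :
    ENNReal.ofReal (8 * r1) ≤ diag b (fc f R) := by
  have := locFin (cont0 h0)
  let χ : ContDiffBump (0 : ℝ) := ⟨r1, r2, h1, h2⟩
  let e : Fin 4 → V4 := fun i => EuclideanSpace.single i 1
  let ψ : Fin 4 → Lp V4 2 (leafMeas b) := fun i => toL b (𝓕 (mn χ τ (e i) 0).1)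
  let δ : Fin 4 → ℝ → Lp V4 2 (leafMeas b) := fun i ε =>
    toL b ((Icc 0 ε).indicator fun _ => EuclideanSpace.single i (ε⁻¹ : ℝ))
  have hI : 2 * r1 ≤ ∫ ξ, χ ξ := by
    have := χ.measure_closedBall_le_integral volume
    rwa [Real.volume_real_closedBall h1.le] at this
  have hn : ∀ i, ‖ψ i‖ ^ 2 ≤ ∫ ξ, χ ξ := by
    intro i
    rw [four_norm h0]
    refine integral_mono_of_nonneg (Eventually.of_forall fun _ => by positivity) χ.integrable
      (Eventually.of_forall fun ξ => ?_)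
    simp only [mn, pow_zero, one_mul, norm_smul, e, PiLp.norm_single, norm_one, mul_one,
      Real.norm_eq_abs, sq_abs]
    nlinarith [χ.nonneg' ξ, χ.le_one (x := ξ)]
  have ht : ∀ i, Tendsto (fun ε => ⟪ψ i, δ i ε⟫_ℂ) (𝓝[>] 0) (𝓝 ((∫ ξ, χ ξ : ℝ) : ℂ)) := by
    intro i
    have cg := (four_smooth (mn χ τ (e i) 0)).continuous
    have h := tendsto_avg (g := fun t => ⟪𝓕 (mn χ τ (e i) 0).1 t, e i⟫_ℂ) (by fun_prop)
    have e0 : 𝓕 (mn χ τ (e i) 0).1 0 = (∫ ξ, χ ξ) • e i := by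
      rw [Real.fourier_eq, ← integral_smul_const]
      simp [mn]
    have e1 : ⟪𝓕 (mn χ τ (e i) 0).1 0, e i⟫_ℂ = ((∫ ξ, χ ξ : ℝ) : ℂ) := by
      rw [e0, ← coe_smul, inner_smul_left]
      simp [e]
    rw [e1] at h
    refine h.congr fun ε => ?_
    rw [inner_toL' (cont0 h0) (four_mem h0 _)
      (memLp_indicator_const 2 measurableSet_Icc _ (Or.inr measure_Icc_lt_top.ne)),
      ← integral_indicator measurableSet_Icc]
    congr 1; funext t
    by_cases h : t ∈ Icc 0 ε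
    · simp only [indicator_of_mem h, jac0 h0, one_smul, e, EuclideanSpace.inner_single_right]
      ring
    · simp [indicator_of_notMem h]
  have ht2 : Tendsto (fun ε => ∑ i, ENNReal.ofReal (2 * (⟪ψ i, δ i ε⟫_ℂ).re - ‖ψ i‖ ^ 2)) (𝓝[>] 0)
      (𝓝 (∑ i, ENNReal.ofReal (2 * ((∫ ξ, χ ξ : ℝ) : ℂ).re - ‖ψ i‖ ^ 2))) :=
    tendsto_finsetSum _ fun i _ => ENNReal.tendsto_ofReal
      ((((continuous_re.tendsto _).comp (ht i)).const_mul 2).sub_const _)
  calc ENNReal.ofReal (8 * r1) = ∑ _i : Fin 4, ENNReal.ofReal (2 * r1) := by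
        rw [← ENNReal.ofReal_sum_of_nonneg fun _ _ => by positivity]
        simp; ring_nf
    _ ≤ ∑ i, ENNReal.ofReal (2 * ((∫ ξ, χ ξ : ℝ) : ℂ).re - ‖ψ i‖ ^ 2) :=
        Finset.sum_le_sum fun i _ => ENNReal.ofReal_le_ofReal (by
          rw [ofReal_re]; linarith [hn i])
    _ = _ := ht2.liminf_eq.symm
    _ ≤ diag b (fc f R) := by
        refine liminf_le_liminf (Eventually.of_forall fun ε => Finset.sum_le_sum fun i _ =>
          ENNReal.ofReal_le_ofReal ?_)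
        exact re_inner_ge (fc_pos hf0 R) (fix_four h0 hR hf hf6 hf0 hf1 hc hfc χ hχ (e i)) _

theorem lint_ge (h0 : ∀ t, b t = 0)
    {R : ℝ → Lp V4 2 (leafMeas b) →L[ℂ] Lp V4 2 (leafMeas b)} (hR : ∀ τ, IsRes b τ (R τ))
    {f : ℝ → ℝ} (hf : Continuous f) (hf6 : ∀ x, 6 < |x| → f x = 0)
    (hf0 : ∀ x, 0 ≤ f x) (hf1 : ∀ x, f x ≤ 1) (hfc : ∀ x, |x| ≤ 5.95 → f x = 1) :
    ENNReal.ofReal 53.28 ≤ ∫⁻ τ, diag b (fc f (R τ)) := by
  have hπ : π ^ 2 < 9.87 := by nlinarith [Real.pi_lt_d4, Real.pi_pos]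
  calc ENNReal.ofReal 53.28
      = ∫⁻ τ, (Icc (-3 : ℝ) 3).indicator (fun _ => ENNReal.ofReal 2.48) τ +
          (Icc (-5 : ℝ) 5).indicator (fun _ => ENNReal.ofReal 3.84) τ := by
        rw [lintegral_add_left (measurable_const.indicator measurableSet_Icc),
          lintegral_indicator_const measurableSet_Icc, lintegral_indicator_const measurableSet_Icc,
          Real.volume_Icc, Real.volume_Icc, ← ENNReal.ofReal_mul (by norm_num),
          ← ENNReal.ofReal_mul (by norm_num), ← ENNReal.ofReal_add (by norm_num) (by norm_num)]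
        norm_num
    _ ≤ _ := by
        refine lintegral_mono fun τ => ?_
        by_cases a3 : τ ∈ Icc (-3 : ℝ) 3
        · have a5 : τ ∈ Icc (-5 : ℝ) 5 := ⟨by linarith [a3.1], by linarith [a3.2]⟩
          rw [indicator_of_mem a3, indicator_of_mem a5,
            ← ENNReal.ofReal_add (by norm_num) (by norm_num)]
          have := diag_ge h0 (hR τ) hf hf6 hf0 hf1 (by norm_num) hfc (r1 := 0.79) (r2 := 0.8)
            (by norm_num) (by norm_num) (by nlinarith [a3.1, a3.2])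
          refine le_trans (le_of_eq ?_) this
          norm_num
        · rw [indicator_of_notMem a3, zero_add]
          by_cases a5 : τ ∈ Icc (-5 : ℝ) 5
          · rw [indicator_of_mem a5]
            have := diag_ge h0 (hR τ) hf hf6 hf0 hf1 (by norm_num) hfc (r1 := 0.48) (r2 := 0.49)
              (by norm_num) (by norm_num) (by nlinarith [a5.1, a5.2])
            refine le_trans (le_of_eq ?_) this
            norm_num
          · rw [indicator_of_notMem a5]; exact zero_le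

end Pool.Agent.P.MP_e0a138_an
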