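import Pool.Agent.P.MP_e0a138_an.Adj
import Pool.Agent.P.MP_e0a138_an.Lower
import Pool.Agent.P.MP_e0a138_an.Cantor

set_option autoImplicit false

open MeasureTheory Filter Topology
open scoped ENNReal ContDiff

namespace Pool.Agent.P.MP_e0a138_an

/-- The adiabatic Weyl formula fails for a foliation of the torus by the orbits of
`X = ∂x + a(y) ∂y`, with the metric making `X, ∂y` orthonormal. -/
theorem main : ∃ (a : ℝ → ℝ) (Φ : ℝ → ℝ → ℝ) (f : ℝ → ℝ),
    ContDiff ℝ ∞ a ∧ Function.Periodic a 1 ∧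
    (∀ y, Φ y 0 = y ∧ ∀ t, HasDerivAt (Φ y) (a (Φ y t)) t) ∧
    (∀ (y : ℝ) (n : ℤ), n ≠ 0 → ¬∀ᶠ z in 𝓝 y, ∃ m : ℤ, Φ z n = z + m) ∧
    (∀ h u v, IsForm u → IsForm v →
      ip (Dh a h u) v = ip (dh a h u) v + ip u (dh a h v)) ∧
    (∀ y τ, (∃! R, IsRes (fun t => deriv a (Φ y t)) τ R) ∧
      ∀ R, IsRes (fun t => deriv a (Φ y t)) τ R →
        IsStarNormal R ∧ R - star R = (-2 * Complex.I) • (star R * R)) ∧
    ContDiff ℝ ∞ f ∧ HasCompactSupport f ∧ (∀ x, f (-x) = f x) ∧ (∀ x, 0 ≤ f x) ∧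
    (∀ᶠ h in 𝓝[>] (0 : ℝ), ENNReal.ofReal h * trM a h f ≤ ENNReal.ofReal 7.8) ∧
    ∀ R : ∀ y : ℝ, ℝ →
        Lp (EuclideanSpace ℂ (Fin 4)) 2 (leafMeas fun t => deriv a (Φ y t)) →L[ℂ]
          Lp (EuclideanSpace ℂ (Fin 4)) 2 (leafMeas fun t => deriv a (Φ y t)),
      (∀ y τ, IsRes (fun t => deriv a (Φ y t)) τ (R y τ)) →
        8 ≤ ENNReal.ofReal (2 * Real.pi)⁻¹ * ∫⁻ y in Set.Ioc (0 : ℝ) 1, ∫⁻ τ,
          diag (fun t => deriv a (Φ y t)) (fc f (R y τ)) := by
  obtain ⟨a, ha, hz, hd, hm⟩ := exists_slope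
  choose Φ hΦ using exists_flow ha
  let f : ContDiffBump (0 : ℝ) := ⟨5.95, 6, by norm_num, by norm_num⟩
  have hf6 : ∀ x, 6 < |x| → f x = 0 := fun x hx => f.zero_of_le_dist (by simpa using hx.le)
  have hfc : ∀ x, |x| ≤ 5.95 → f x = 1 := fun x hx => f.one_of_mem_closedBall (by simpa using hx)
  have hb : ∀ y, Continuous fun t => deriv a (Φ y t) := fun y =>
    (ha.smooth.continuous_deriv (by simp)).comp
      (continuous_iff_continuousAt.2 fun t => ((hΦ y).2 t).continuousAt)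
  have hU : MeasurableSet {y | a y ≠ 0} :=
    (isOpen_ne_fun ha.smooth.continuous continuous_const).measurableSet
  have hπ := Real.pi_gt_d2
  have hπ' := Real.pi_lt_d2
  refine ⟨a, Φ, f, ha.smooth, ha.per, hΦ, holonomy ha hz hd hΦ,
    fun h u v hu hv => ip_Dh ha.smooth ha.per h hu hv,
    fun y τ => ⟨existsUnique_res (hb y) τ, fun R hR => res_normal (hb y) hR⟩,
    f.contDiff, f.hasCompactSupport, f.neg, f.nonneg', ?_, fun R hR => ?_⟩
  · filter_upwards [Ioo_mem_nhdsGT (show (0 : ℝ) < 0.02 by norm_num)] with h hh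
    have h0 := hh.1
    have hI : ∫ y in (0 : ℝ)..1, ({y | a y ≠ 0} : Set ℝ).indicator (fun _ => (1 : ℝ)) y ≤
        0.000001 := by
      rw [intervalIntegral.integral_of_le zero_le_one, integral_indicator hU, setIntegral_const,
        smul_eq_mul, mul_one, measureReal_def, Measure.restrict_apply hU]
      exact ENNReal.toReal_le_of_le_ofReal (by norm_num) hm
    refine (mul_le_mul_right (trM_le ha h0 (by linarith [hh.2]) (fun x => f.le_one) hf6) _).trans ?_
    rw [← ENNReal.ofReal_mul h0.le]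
    apply ENNReal.ofReal_le_ofReal
    have e1 : h * (24 / (Real.pi * h)) = 24 / Real.pi := by field_simp
    have e2 : 24 / Real.pi ≤ 7.65 := by rw [div_le_iff₀ Real.pi_pos]; linarith
    have e3 : ∀ x, h * (6 * (2888 / h * x)) = 17328 * x := fun x => by field_simp; ring
    rw [mul_add, mul_add, e1, e3]
    linarith [hh.2]
  · have h1 : ENNReal.ofReal 53.28 * volume ({y | a y ≠ 0}ᶜ ∩ Set.Ioc (0 : ℝ) 1) ≤
        ∫⁻ y in Set.Ioc (0 : ℝ) 1, ∫⁻ τ, diag (fun t => deriv a (Φ y t)) (fc f (R y τ)) := by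
      rw [← Measure.restrict_apply hU.compl, ← lintegral_indicator_const hU.compl]
      refine lintegral_mono fun y => ?_
      by_cases hy : y ∈ {y | a y ≠ 0}ᶜ
      · rw [Set.indicator_of_mem hy]
        have hy' : a (Φ y 0) = 0 := by rw [(hΦ y).1]; simpa using hy
        exact lint_ge (fun t => ha.deriv_eq_zero (by rw [flow_const ha (hΦ y).2 hy' t, hy']))
          (hR y) f.continuous hf6 f.nonneg' (fun x => f.le_one) hfc
      · rw [Set.indicator_of_notMem hy]; exact zero_le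
    have h2 : ENNReal.ofReal 0.999999 ≤ volume ({y | a y ≠ 0}ᶜ ∩ Set.Ioc (0 : ℝ) 1) := by
      have e := measure_inter_add_sdiff (μ := volume) (Set.Ioc (0 : ℝ) 1) hU
      rw [Set.inter_comm, Set.sdiff_eq, Set.inter_comm (Set.Ioc _ _), Real.volume_Ioc] at e
      have e2 : ENNReal.ofReal 0.000001 + ENNReal.ofReal 0.999999 ≤ ENNReal.ofReal 0.000001 +
          volume ({y | a y ≠ 0}ᶜ ∩ Set.Ioc (0 : ℝ) 1) := by
        rw [← ENNReal.ofReal_add (by norm_num) (by norm_num)]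
        calc _ = ENNReal.ofReal (1 - 0) := by norm_num
          _ ≤ _ := by rw [← e]; gcongr
      exact (ENNReal.add_le_add_iff_left ENNReal.ofReal_ne_top).1 e2
    calc (8 : ℝ≥0∞) = ENNReal.ofReal 8 := by simp
      _ ≤ ENNReal.ofReal (2 * Real.pi)⁻¹ * (ENNReal.ofReal 53.28 * ENNReal.ofReal 0.999999) := by
          rw [← ENNReal.ofReal_mul (by norm_num), ← ENNReal.ofReal_mul (by positivity)]
          apply ENNReal.ofReal_le_ofReal
          rw [le_inv_mul_iff₀ (by positivity)]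
          linarith
      _ ≤ _ := by
          gcongr
          exact le_trans (by gcongr) h1

end Pool.Agent.P.MP_e0a138_an
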