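import Pool.Agent.P.MP_e0a138_an.OneD

set_option autoImplicit false

open Module MeasureTheory Filter Topology Set Real
open scoped ComplexConjugate InnerProductSpace ContDiff

namespace Pool.Agent.P.MP_e0a138_an

section partials
variable {F : Type} [NormedAddCommGroup F] [NormedSpace ℝ F]

theorem hasDerivAt_y {u : ℝ × ℝ → F} (hu : ContDiff ℝ ∞ u) (x y : ℝ) :
    HasDerivAt (fun y => u (x, y)) (fderiv ℝ u (x, y) (0, 1)) y :=
  (hu.differentiable (by simp) (x, y)).hasFDerivAt.comp_hasDerivAt y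
    ((hasDerivAt_const y x).prodMk (hasDerivAt_id y))

theorem hasDerivAt_x {u : ℝ × ℝ → F} (hu : ContDiff ℝ ∞ u) (x y : ℝ) :
    HasDerivAt (fun x => u (x, y)) (fderiv ℝ u (x, y) (1, 0)) x :=
  (hu.differentiable (by simp) (x, y)).hasFDerivAt.comp_hasDerivAt x
    ((hasDerivAt_id x).prodMk (hasDerivAt_const x y))

theorem smooth_fderiv {u : ℝ × ℝ → F} (hu : ContDiff ℝ ∞ u) (v : ℝ × ℝ) :
    ContDiff ℝ ∞ fun m => fderiv ℝ u m v :=
  (hu.fderiv_right (m := ∞) le_rfl).clm_apply contDiff_const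

theorem fderiv_pair (L : ℝ × ℝ →L[ℝ] F) (s t : ℝ) : L (s, t) = s • L (1, 0) + t • L (0, 1) := by
  rw [← map_smul, ← map_smul, ← map_add]; simp

end partials

/-- The character `exp(-2 π i k x)`. -/
noncomputable def ek (k : ℤ) (x : ℝ) : ℂ := fourier (-k) (x : AddCircle ((1 : ℝ) - 0))

@[fun_prop] theorem ek_cont (k : ℤ) : Continuous (ek k) :=
  (map_continuous (fourier (-k))).comp (AddCircle.continuous_mk' _)

theorem ek_hasDerivAt (k : ℤ) (x : ℝ) :
    HasDerivAt (ek k) (-(Complex.I * (2 * π * k : ℝ)) * ek k x) x := by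
  have := hasDerivAt_fourier_neg ((1 : ℝ) - 0) k x
  refine this.congr_deriv ?_
  unfold ek; push_cast; ring

theorem ek_one (k : ℤ) : ek k 1 = ek k 0 := by
  unfold ek
  have : ((1 : ℝ) : AddCircle ((1 : ℝ) - 0)) = ((0 : ℝ) : AddCircle ((1 : ℝ) - 0)) := by
    simp
  rw [this]

/-- The Fourier mode in the first variable. -/
noncomputable def mode (k : ℤ) (W : ℝ × ℝ → ℂ) (y : ℝ) : ℂ :=
  ∫ x in (0 : ℝ)..1, ek k x * W (x, y)

theorem mode_eq (k : ℤ) (W : ℝ × ℝ → ℂ) (y : ℝ) :
    mode k W y = fourierCoeffOn zero_lt_one (fun x => W (x, y)) k := by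
  simp [fourierCoeffOn_eq_integral, mode, ek]

theorem mode_hasDerivAt (k : ℤ) {W : ℝ × ℝ → ℂ} (hW : ContDiff ℝ ∞ W) (y : ℝ) :
    HasDerivAt (mode k W) (mode k (fun m => fderiv ℝ W m (0, 1)) y) y := by
  have hc := hW.continuous
  have hc' := (smooth_fderiv hW (0, 1)).continuous
  obtain ⟨C, hC⟩ := (isCompact_Icc.prod isCompact_Icc).exists_bound_of_continuousOn
    (s := Icc (0 : ℝ) 1 ×ˢ Icc (y - 1) (y + 1))
    (f := fun m => ek k m.1 * fderiv ℝ W m (0, 1)) (by fun_prop)
  refine (intervalIntegral.hasDerivAt_integral_of_dominated_loc_of_deriv_le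
    (F := fun y x => ek k x * W (x, y)) (F' := fun y x => ek k x * fderiv ℝ W (x, y) (0, 1))
    (bound := fun _ => C) (s := Icc (y - 1) (y + 1)) (Icc_mem_nhds (by linarith) (by linarith))
    (Eventually.of_forall fun y => Continuous.aestronglyMeasurable (by fun_prop))
    (ii (by fun_prop) _ _) (Continuous.aestronglyMeasurable (by fun_prop))
    (Eventually.of_forall fun x hx y hy => ?_) (ii continuous_const _ _)
    (Eventually.of_forall fun x _ y _ => (hasDerivAt_y hW x y).const_mul _)).2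
  rw [uIoc_of_le zero_le_one] at hx
  exact hC (x, y) ⟨Ioc_subset_Icc_self hx, hy⟩

theorem mode_smooth (k : ℤ) {W : ℝ × ℝ → ℂ} (hW : ContDiff ℝ ∞ W) : ContDiff ℝ ∞ (mode k W) := by
  rw [contDiff_infty]
  intro n
  induction n generalizing W with
  | zero =>
    exact contDiff_zero.2 (continuous_iff_continuousAt.2 fun y =>
      (mode_hasDerivAt k hW y).continuousAt)
  | succ n ih =>
    rw [Nat.cast_succ, contDiff_succ_iff_deriv]
    refine ⟨fun y => (mode_hasDerivAt k hW y).differentiableAt, by simp, ?_⟩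
    have : deriv (mode k W) = mode k fun m => fderiv ℝ W m (0, 1) :=
      funext fun y => (mode_hasDerivAt k hW y).deriv
    rw [this]
    exact ih (smooth_fderiv hW _)

theorem mode_dx (k : ℤ) {W : ℝ × ℝ → ℂ} (hW : ContDiff ℝ ∞ W) (hp : ∀ x y, W (x + 1, y) = W (x, y))
    (y : ℝ) : mode k (fun m => fderiv ℝ W m (1, 0)) y =
      Complex.I * (2 * π * k : ℝ) * mode k W y := by
  have hc := hW.continuous
  have hc' := (smooth_fderiv hW (1, 0)).continuous
  have h := integral_deriv_per (g := fun x => ek k x * W (x, y))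
    (fun x => (ek_hasDerivAt k x).mul (hasDerivAt_x hW x y)) (by fun_prop)
    (by have := hp 0 y; rw [zero_add] at this; simp only [this, ek_one])
  rw [intervalIntegral.integral_add (ii (by fun_prop) _ _) (ii (by fun_prop) _ _)] at h
  simp only [mul_assoc _ (ek k _), intervalIntegral.integral_const_mul] at h
  unfold mode
  linear_combination h

theorem mode_lin (k : ℤ) {P Q R : ℝ × ℝ → ℂ} (hP : Continuous P) (hQ : Continuous Q)
    (α β : ℂ) (y : ℝ) (h : ∀ x, R (x, y) = α * P (x, y) + β * Q (x, y)) :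
    mode k R y = α * mode k P y + β * mode k Q y := by
  unfold mode
  rw [← intervalIntegral.integral_const_mul, ← intervalIntegral.integral_const_mul,
    ← intervalIntegral.integral_add (ii (by fun_prop) _ _) (ii (by fun_prop) _ _)]
  refine intervalIntegral.integral_congr fun x _ => ?_
  simp only [h]; ring

theorem eq_zero_of_mode {W : ℝ × ℝ → ℂ} (hW : Continuous W) (hp : ∀ x y, W (x + 1, y) = W (x, y))
    (h : ∀ k y, mode k W y = 0) (m : ℝ × ℝ) : W m = 0 := by
  obtain ⟨x, y⟩ := m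
  have hc : Continuous fun x => W (x, y) := by fun_prop
  have h1 := hasSum_sq_fourierCoeffOn zero_lt_one (memLp_Ioc hc)
  simp only [← mode_eq, h, norm_zero] at h1
  have h2 := h1.unique (a₂ := 0) (by simp)
  exact congrFun (eq_zero_of_integral_sq hc (fun x => hp x y) (by simpa using h2)) x

end Pool.Agent.P.MP_e0a138_an
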