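import Pool.Agent.P.MP_e0a138_an.Per

set_option autoImplicit false

open Module MeasureTheory Filter Topology Set Real
open scoped ComplexConjugate InnerProductSpace ContDiff

namespace Pool.Agent.P.MP_e0a138_an

theorem memLp_Ioc {v : ℝ → ℂ} (hv : Continuous v) :
    MemLp v 2 (volume.restrict (Ioc (0 : ℝ) 1)) := by
  obtain ⟨C, hC⟩ := isCompact_Icc.exists_bound_of_continuousOn (s := Icc (0 : ℝ) 1) hv.continuousOn
  refine MemLp.of_bound hv.aestronglyMeasurable C ?_
  rw [ae_restrict_iff' measurableSet_Ioc]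
  exact Eventually.of_forall fun y hy => hC y (Ioc_subset_Icc_self hy)

theorem PP.hasSum (w : PP) :
    HasSum (fun n : ℤ => ‖fourierCoeffOn zero_lt_one w.val n‖ ^ 2) (‖w‖ ^ 2) := by
  have := hasSum_sq_fourierCoeffOn zero_lt_one (memLp_Ioc w.cont)
  rw [w.norm_sq]
  simpa using this

/-- The Fourier coefficient as a linear map. -/
noncomputable def coefP (n : ℤ) : PP →ₗ[ℂ] ℂ where
  toFun w := fourierCoeffOn zero_lt_one w.val n
  map_add' v w := by
    have hc : Continuous fun x : ℝ => fourier (-n) (x : AddCircle ((1 : ℝ) - 0)) :=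
      (map_continuous (fourier (-n))).comp (AddCircle.continuous_mk' _)
    simp only [fourierCoeffOn_eq_integral, PP.val_add, smul_add]
    rw [intervalIntegral.integral_add (ii (by fun_prop) _ _) (ii (by fun_prop) _ _), smul_add]
  map_smul' c w := by
    simp only [fourierCoeffOn_eq_integral, PP.val_smul, smul_eq_mul, RingHom.id_apply]
    simp only [mul_left_comm _ c, intervalIntegral.integral_const_mul]
    simp

theorem coef_dP (w : PP) {n : ℤ} (hn : n ≠ 0) :
    ‖fourierCoeffOn zero_lt_one (dP w).val n‖ =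
      2 * π * |(n : ℝ)| * ‖fourierCoeffOn zero_lt_one w.val n‖ := by
  have h := fourierCoeffOn_of_hasDerivAt zero_lt_one hn (fun x _ => w.hasDerivAt x)
    (ii (dP w).cont _ _)
  have h1 := w.per 0
  rw [zero_add] at h1
  rw [h, h1]
  have hn' : (0 : ℝ) < |(n : ℝ)| := abs_pos.2 (by exact_mod_cast hn)
  simp [abs_of_pos pi_pos]
  field_simp

theorem bd_zero {a : ℝ → ℝ} (ha : Good a) {s : ℝ} (hs : s ≠ 0) {lam : ℝ} (hlam : 0 ≤ lam) :
    Bd (opA ha s 0) lam (lam / (π * |s|) + 1) := by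
  intro W hW hb
  have hs' : 0 < |s| := abs_pos.2 hs
  set M : ℕ := ⌊lam / (2 * π * |s|)⌋₊ with hM
  let ψ : W →ₗ[ℂ] (Finset.Icc (-(M : ℤ)) M → ℂ) :=
    LinearMap.pi fun n => coefP n ∘ₗ W.subtype
  have hψ : Function.Injective ψ := by
    rw [← LinearMap.ker_eq_bot, LinearMap.ker_eq_bot']
    intro w hw
    have h1 : (2 * π * (M + 1)) ^ 2 * ‖w.1‖ ^ 2 ≤ ‖dP w.1‖ ^ 2 := by
      refine hasSum_le (fun n => ?_) (w.1.hasSum.mul_left _) (dP w.1).hasSum
      by_cases hn : n ∈ Finset.Icc (-(M : ℤ)) M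
      · have : fourierCoeffOn zero_lt_one w.1.val n = 0 := congrFun hw ⟨n, hn⟩
        rw [this]; simp
      · rw [Finset.mem_Icc] at hn
        have hn1 : (M : ℤ) + 1 ≤ |n| := by
          rcases le_total 0 n with h | h
          · rw [abs_of_nonneg h]; omega
          · rw [abs_of_nonpos h]; omega
        have hn0 : n ≠ 0 := by rintro rfl; simp at hn
        have hn2 : (M : ℝ) + 1 ≤ |(n : ℝ)| := by exact_mod_cast hn1
        rw [coef_dP _ hn0, mul_pow (2 * π * |(n : ℝ)|)]
        gcongr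
    have h2 : s ^ 2 * ‖dP w.1‖ ^ 2 ≤ ‖opA ha s 0 w.1‖ ^ 2 := by
      have := (dP w.1).cont
      have := (opA ha s 0 w.1).cont
      rw [PP.norm_sq, PP.norm_sq, ← intervalIntegral.integral_const_mul]
      refine intervalIntegral.integral_mono_on zero_le_one (ii (by fun_prop) _ _)
        (ii (by fun_prop) _ _) fun y _ => ?_
      rw [opA_val]
      simp only [Complex.ofReal_zero, mul_zero, zero_mul, add_zero, norm_mul, mul_pow, dP_val]
      refine mul_le_mul_of_nonneg_right ?_ (by positivity)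
      rw [Complex.sq_norm, Complex.normSq_apply]
      simp
      nlinarith [sq_nonneg (a y)]
    have h3 : ‖opA ha s 0 w.1‖ ^ 2 ≤ lam ^ 2 * ‖w.1‖ ^ 2 := by
      rw [← mul_pow]; gcongr; exact hb _ w.2
    have h4 : lam < 2 * π * |s| * (M + 1) := by
      have := Nat.lt_floor_add_one (lam / (2 * π * |s|))
      rw [div_lt_iff₀ (by positivity)] at this
      linarith
    have h5 : lam ^ 2 < s ^ 2 * (2 * π * (M + 1)) ^ 2 := by
      rw [← sq_abs s, ← mul_pow]
      gcongr; linarith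
    have h6 : ‖w.1‖ ^ 2 ≤ 0 := by
      by_contra hc
      push Not at hc
      nlinarith [mul_le_mul_of_nonneg_left h1 (sq_nonneg s), mul_lt_mul_of_pos_right h5 hc]
    have : ‖w.1‖ = 0 := by nlinarith [norm_nonneg w.1]
    exact Subtype.ext (norm_eq_zero.1 this)
  have h1 := LinearMap.finrank_le_finrank_of_injective hψ
  rw [Module.finrank_fintype_fun_eq_card, Fintype.card_coe, Int.card_Icc] at h1
  have h2 : finrank ℂ W ≤ 2 * M + 1 := by omega
  have h3 : (finrank ℂ W : ℝ) ≤ 2 * M + 1 := by exact_mod_cast h2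
  have h4 : (M : ℝ) ≤ lam / (2 * π * |s|) := Nat.floor_le (by positivity)
  have h5 : 2 * (lam / (2 * π * |s|)) = lam / (π * |s|) := by field_simp
  linarith

/-- The potential. -/
noncomputable def pot (a : ℝ → ℝ) (s κ y : ℝ) : ℝ := κ ^ 2 * s ^ 2 / (a y ^ 2 + s ^ 2)

/-- The gauged derivative. -/
noncomputable def gau (a : ℝ → ℝ) (s κ : ℝ) (w : PP) (y : ℝ) : ℂ :=
  deriv w.val y + Complex.I * (κ * a y / (a y ^ 2 + s ^ 2) : ℝ) * w.val y

theorem hasDerivAt_normSq (w : PP) (y : ℝ) :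
    HasDerivAt (fun y => ‖w.val y‖ ^ 2) (2 * (conj (w.val y) * deriv w.val y).re) y := by
  have := (w.hasDerivAt y).norm_sq
  simpa [mul_comm] using this

theorem energy {a : ℝ → ℝ} (ha : Good a) {s : ℝ} (hs : s ≠ 0) (κ : ℝ) (w : PP) :
    ‖opA ha s κ w‖ ^ 2 = (∫ y in (0 : ℝ)..1, (a y ^ 2 + s ^ 2) * ‖gau a s κ w y‖ ^ 2) +
      ∫ y in (0 : ℝ)..1, pot a s κ y * ‖w.val y‖ ^ 2 := by
  have hac := ha.smooth.continuous
  have hρ : ∀ y, a y ^ 2 + s ^ 2 ≠ 0 := fun y => by positivity
  have hw' : Continuous (deriv w.val) := (dP w).cont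
  have hg : Continuous (gau a s κ w) := by
    unfold gau; fun_prop (disch := exact hρ _)
  have hp : Continuous (pot a s κ) := by
    unfold pot; fun_prop (disch := exact hρ _)
  have h0 : ∫ y in (0 : ℝ)..1, κ * s * (2 * (conj (w.val y) * deriv w.val y).re) = 0 := by
    rw [intervalIntegral.integral_const_mul,
      integral_deriv_per (hasDerivAt_normSq w) (by fun_prop), mul_zero]
    have h1 := w.per 0
    rw [zero_add] at h1
    simp only [h1]
  rw [PP.norm_sq]
  refine Eq.trans ?_ ((congrArg (_ + ·) h0).trans (add_zero _))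
  rw [← intervalIntegral.integral_add (ii (by fun_prop) _ _) (ii (by fun_prop) _ _),
    ← intervalIntegral.integral_add (ii (by fun_prop) _ _) (ii (by fun_prop) _ _)]
  refine intervalIntegral.integral_congr fun y _ => ?_
  have := hρ y
  simp only [opA_val, gau, pot, Complex.sq_norm, Complex.normSq_apply, Complex.add_re,
    Complex.add_im, Complex.mul_re, Complex.mul_im, Complex.ofReal_re, Complex.ofReal_im,
    Complex.I_re, Complex.I_im, Complex.conj_re, Complex.conj_im]
  field_simp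
  ring

theorem pointwise {a : ℝ → ℝ} (ha : Good a) {s : ℝ} (hs : s ≠ 0) (hs1 : |s| ≤ 1) (κ : ℝ) (w : PP)
    (hw : ‖opA ha s κ w‖ ≤ 6 * ‖w‖) {y : ℝ} (hy : y ∈ Icc (0 : ℝ) 1) :
    (a y + |s|) * ‖w.val y‖ ^ 2 ≤ 76 * ‖w‖ ^ 2 := by
  have hac := ha.smooth.continuous
  have hac' : Continuous (deriv a) := ha.smooth.continuous_deriv (by simp)
  have hρ : ∀ y, a y ^ 2 + s ^ 2 ≠ 0 := fun y => by positivity
  have hw' : Continuous (deriv w.val) := (dP w).cont
  have hg : Continuous (gau a s κ w) := by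
    unfold gau; fun_prop (disch := exact hρ _)
  have h1 := le_integral_add (g := fun y => (a y + |s|) * ‖w.val y‖ ^ 2)
    (g' := fun y => deriv a y * ‖w.val y‖ ^ 2 +
      (a y + |s|) * (2 * (conj (w.val y) * deriv w.val y).re))
    (fun y => (((ha.smooth.differentiable (by simp) y).hasDerivAt).add_const _).mul
      (hasDerivAt_normSq w y)) (by fun_prop) hy
  have h2 : ∫ t in (0 : ℝ)..1, (a t + |s|) * ‖w.val t‖ ^ 2 ≤ 2 * ‖w‖ ^ 2 := by
    rw [PP.norm_sq, ← intervalIntegral.integral_const_mul]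
    refine intervalIntegral.integral_mono_on zero_le_one (ii (by fun_prop) _ _)
      (ii (by fun_prop) _ _) fun y _ => ?_
    gcongr; linarith [ha.le_one y]
  have h3 : ∫ t in (0 : ℝ)..1, |deriv a t * ‖w.val t‖ ^ 2 +
      (a t + |s|) * (2 * (conj (w.val t) * deriv w.val t).re)| ≤
      2 * ‖w‖ ^ 2 + 2 * ∫ y in (0 : ℝ)..1, (a y ^ 2 + s ^ 2) * ‖gau a s κ w y‖ ^ 2 := by
    rw [PP.norm_sq, ← intervalIntegral.integral_const_mul, ← intervalIntegral.integral_const_mul,
      ← intervalIntegral.integral_add (ii (by fun_prop) _ _) (ii (by fun_prop) _ _)]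
    refine intervalIntegral.integral_mono_on zero_le_one (ii (by fun_prop) _ _)
      (ii (by fun_prop) _ _) fun t _ => ?_
    have e1 : (conj (w.val t) * deriv w.val t).re = (conj (w.val t) * gau a s κ w t).re := by
      simp only [gau, Complex.add_re, Complex.add_im, Complex.mul_re, Complex.mul_im,
        Complex.ofReal_re, Complex.ofReal_im, Complex.I_re, Complex.I_im, Complex.conj_re,
        Complex.conj_im]
      ring
    have e2 : |(conj (w.val t) * gau a s κ w t).re| ≤ ‖w.val t‖ * ‖gau a s κ w t‖ := by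
      refine (Complex.abs_re_le_norm _).trans ?_
      simp
    have hr : 0 ≤ a t + |s| := by linarith [ha.nonneg t, abs_nonneg s]
    have e3 : (a t + |s|) ^ 2 ≤ 2 * (a t ^ 2 + s ^ 2) := by
      rw [← sq_abs s]; nlinarith [sq_nonneg (a t - |s|)]
    rw [e1]
    refine (abs_add_le _ _).trans ?_
    rw [abs_mul, abs_mul, abs_mul, abs_of_nonneg hr, abs_of_nonneg (sq_nonneg ‖w.val t‖), abs_two]
    have e4 : |deriv a t| * ‖w.val t‖ ^ 2 ≤ 1 * ‖w.val t‖ ^ 2 := by
      gcongr; exact ha.deriv_le t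
    have e5 : (a t + |s|) * (2 * |(conj (w.val t) * gau a s κ w t).re|) ≤
        (a t + |s|) * (2 * (‖w.val t‖ * ‖gau a s κ w t‖)) := by gcongr
    nlinarith [sq_nonneg (‖w.val t‖ - (a t + |s|) * ‖gau a s κ w t‖),
      mul_le_mul_of_nonneg_right e3 (sq_nonneg ‖gau a s κ w t‖)]
  have h4 := energy ha hs κ w
  have h5 : 0 ≤ ∫ y in (0 : ℝ)..1, pot a s κ y * ‖w.val y‖ ^ 2 :=
    intervalIntegral.integral_nonneg zero_le_one fun y _ => by unfold pot; positivity
  have h6 : ‖opA ha s κ w‖ ^ 2 ≤ (6 * ‖w‖) ^ 2 := by gcongr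
  nlinarith

/-- The bound for one mode. -/
noncomputable def nk (a : ℝ → ℝ) (s κ : ℝ) : ℝ :=
  38 * ∫ y in (0 : ℝ)..1, max (38 - pot a s κ y) 0 / (a y + |s|)

theorem bd_mode {a : ℝ → ℝ} (ha : Good a) {s : ℝ} (hs : s ≠ 0) (hs1 : |s| ≤ 1) (κ : ℝ) :
    Bd (opA ha s κ) 6 (nk a s κ) := by
  intro W hW hb
  have hac := ha.smooth.continuous
  have hρ : ∀ y, a y ^ 2 + s ^ 2 ≠ 0 := fun y => by positivity
  have hr : ∀ y, 0 < a y + |s| := fun y => by linarith [ha.nonneg y, abs_pos.2 hs]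
  have hp : Continuous (pot a s κ) := by
    unfold pot; fun_prop (disch := exact hρ _)
  let b := stdOrthonormalBasis ℂ W
  let e : Fin (finrank ℂ W) → PP := fun j => (b j).1
  have he : Orthonormal ℂ e := b.orthonormal.comp_linearIsometry W.subtypeₗᵢ
  have hS : ∀ y ∈ Icc (0 : ℝ) 1, (a y + |s|) * ∑ j, ‖(e j).val y‖ ^ 2 ≤ 76 := by
    intro y hy
    set S := ∑ j, ‖(e j).val y‖ ^ 2 with hSdef
    have hS0 : 0 ≤ S := Finset.sum_nonneg fun _ _ => by positivity
    let w : PP := ∑ j, conj ((e j).val y) • e j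
    have hwW : w ∈ W := W.sum_mem fun j _ => W.smul_mem _ (b j).2
    have h1 : w.val y = S := by
      simp only [w, PP.val_sum, PP.val_smul, hSdef, Complex.conj_mul']
      push_cast; rfl
    have h2 : ‖w‖ ^ 2 = S := by
      have := he.inner_sum (fun j => conj ((e j).val y)) (fun j => conj ((e j).val y)) Finset.univ
      rw [inner_self_eq_norm_sq_to_K] at this
      have h3 : ((‖w‖ ^ 2 : ℝ) : ℂ) = S := by
        push_cast
        refine this.trans ?_
        simp only [hSdef, Complex.conj_conj, Complex.mul_conj']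
        push_cast; rfl
      exact_mod_cast h3
    have h3 := pointwise ha hs hs1 κ w (hb w hwW) hy
    rw [h1, h2, Complex.norm_real, Real.norm_eq_abs, sq_abs] at h3
    rcases hS0.eq_or_lt with h | h
    · rw [← h]; norm_num
    · nlinarith
  have h1 : ∀ j, 2 ≤ ∫ y in (0 : ℝ)..1, (38 - pot a s κ y) * ‖(e j).val y‖ ^ 2 := by
    intro j
    have e1 := energy ha hs κ (e j)
    have e2 : 0 ≤ ∫ y in (0 : ℝ)..1, (a y ^ 2 + s ^ 2) * ‖gau a s κ (e j) y‖ ^ 2 :=
      intervalIntegral.integral_nonneg zero_le_one fun y _ => by positivity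
    have e3 : ‖opA ha s κ (e j)‖ ^ 2 ≤ (6 * ‖e j‖) ^ 2 := by gcongr; exact hb _ (b j).2
    have e4 := (e j).norm_sq
    rw [he.1 j] at e3 e4
    simp only [sub_mul]
    rw [intervalIntegral.integral_sub (ii (by fun_prop) _ _) (ii (by fun_prop) _ _),
      intervalIntegral.integral_const_mul]
    nlinarith
  have h2 : ∑ j, ∫ y in (0 : ℝ)..1, (38 - pot a s κ y) * ‖(e j).val y‖ ^ 2 ≤ 2 * nk a s κ := by
    rw [← intervalIntegral.integral_finsetSum fun j _ => ii (by fun_prop) _ _, nk, ← mul_assoc,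
      ← intervalIntegral.integral_const_mul]
    refine intervalIntegral.integral_mono_on zero_le_one (ii (by fun_prop) _ _)
      (ii (by fun_prop (disch := exact fun y => (hr y).ne')) _ _) fun y hy => ?_
    rw [← Finset.mul_sum]
    have hS0 : 0 ≤ ∑ j, ‖(e j).val y‖ ^ 2 := Finset.sum_nonneg fun _ _ => by positivity
    have e1 : ∑ j, ‖(e j).val y‖ ^ 2 ≤ 76 / (a y + |s|) := by
      rw [le_div_iff₀ (hr y), mul_comm]; exact hS y hy
    calc (38 - pot a s κ y) * ∑ j, ‖(e j).val y‖ ^ 2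
        ≤ max (38 - pot a s κ y) 0 * ∑ j, ‖(e j).val y‖ ^ 2 := by gcongr; exact le_max_left _ _
      _ ≤ max (38 - pot a s κ y) 0 * (76 / (a y + |s|)) := by gcongr
      _ = _ := by ring
  have h3 := Finset.sum_le_sum fun j (_ : j ∈ Finset.univ) => h1 j
  simp only [Finset.sum_const, Finset.card_univ, Fintype.card_fin, nsmul_eq_mul] at h3
  linarith

theorem nk_eq_zero {a : ℝ → ℝ} (ha : Good a) {s : ℝ} (hs : s ≠ 0) (hs1 : |s| ≤ 1) {k : ℤ}
    (hk : 2 / |s| ≤ |(k : ℝ)|) : nk a s (2 * π * k) = 0 := by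
  have : ∀ y, max (38 - pot a s (2 * π * k) y) 0 = 0 := by
    intro y
    apply max_eq_right
    rw [sub_nonpos, pot, le_div_iff₀ (by positivity)]
    rw [div_le_iff₀ (abs_pos.2 hs)] at hk
    have h1 : (2 : ℝ) ^ 2 ≤ (|(k : ℝ)| * |s|) ^ 2 := by gcongr
    rw [mul_pow, sq_abs, sq_abs] at h1
    have h2 : a y ^ 2 ≤ 1 := by nlinarith [ha.nonneg y, ha.le_one y]
    have h3 : s ^ 2 ≤ 1 := by rw [← sq_abs]; nlinarith [abs_nonneg s]
    have h4 : 9 ≤ π ^ 2 := by nlinarith [pi_gt_three]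
    nlinarith [mul_le_mul h4 h1 (by norm_num) (by positivity)]
  simp [nk, this]

theorem sum_nk_le {a : ℝ → ℝ} (ha : Good a) {s : ℝ} (hs : s ≠ 0) (T : Finset ℤ) (hT : 0 ∉ T) :
    ∑ k ∈ T, nk a s (2 * π * k) ≤
      2888 / |s| * ∫ y in (0 : ℝ)..1, ({y | a y ≠ 0} : Set ℝ).indicator (fun _ => (1 : ℝ)) y := by
  have hac := ha.smooth.continuous
  have hs' := abs_pos.2 hs
  have hρ : ∀ y, a y ^ 2 + s ^ 2 ≠ 0 := fun y => by positivity
  have hr : ∀ y, 0 < a y + |s| := fun y => by linarith [ha.nonneg y]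
  have hp : ∀ κ, Continuous (pot a s κ) := fun κ => by
    unfold pot; fun_prop (disch := exact hρ _)
  have hm : MeasurableSet {y | a y ≠ 0} := (isOpen_ne_fun hac continuous_const).measurableSet
  simp only [nk]
  rw [← Finset.mul_sum, ← intervalIntegral.integral_finsetSum
    fun j _ => ii (by fun_prop (disch := exact fun y => (hr y).ne')) _ _,
    show 2888 / |s| = 38 * (76 / |s|) by ring, mul_assoc, ← intervalIntegral.integral_const_mul (76 / |s|)]
  refine mul_le_mul_of_nonneg_left ?_ (by norm_num)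
  refine intervalIntegral.integral_mono_on zero_le_one
    (ii (by fun_prop (disch := exact fun y => (hr y).ne')) _ _) ?_ fun y _ => ?_
  · refine IntervalIntegrable.const_mul ?_ _
    rw [intervalIntegrable_iff]
    exact (integrableOn_const (by simp)).indicator hm
  have hpi : 38 < 4 * π ^ 2 := by nlinarith [pi_gt_d2]
  have hz : ∀ k : ℤ, a y ^ 2 + s ^ 2 ≤ (k : ℝ) ^ 2 * s ^ 2 →
      max (38 - pot a s (2 * π * k) y) 0 = 0 := by
    intro k hk
    apply max_eq_right
    rw [sub_nonpos, pot, le_div_iff₀ (by positivity)]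
    nlinarith [mul_le_mul hpi.le hk (by positivity) (by positivity)]
  by_cases h0 : a y = 0
  · rw [indicator_of_notMem (by simpa using h0), mul_zero]
    refine (Finset.sum_eq_zero fun k hk => ?_).le
    rw [hz, zero_div]
    have hk0 : k ≠ 0 := fun h => hT (h ▸ hk)
    have : (1 : ℝ) ≤ (k : ℝ) ^ 2 := by
      have : 1 ≤ k ^ 2 := by have := sq_pos_of_ne_zero (a := k) hk0; omega
      exact_mod_cast this
    rw [h0]; nlinarith [sq_nonneg s]
  · rw [indicator_of_mem (by simpa using h0), mul_one]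
    set L : ℕ := ⌊(a y + |s|) / |s|⌋₊ with hL
    have hsub : ∑ k ∈ T, max (38 - pot a s (2 * π * k) y) 0 / (a y + |s|) ≤
        ∑ k ∈ (Finset.Icc (-(L : ℤ)) L).erase 0,
          max (38 - pot a s (2 * π * k) y) 0 / (a y + |s|) := by
      rw [← Finset.sum_filter_ne_zero]
      refine Finset.sum_le_sum_of_subset_of_nonneg ?_ fun k _ _ => by have := hr y; positivity
      intro k hk'
      obtain ⟨hk, hne⟩ := Finset.mem_filter.1 hk'
      refine Finset.mem_erase.2 ⟨fun h => hT (h ▸ hk), ?_⟩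
      have h1 : (k : ℝ) ^ 2 * s ^ 2 < a y ^ 2 + s ^ 2 := by
        by_contra hc
        rw [hz k (not_lt.1 hc), zero_div] at hne
        exact hne rfl
      have h2 : |(k : ℝ)| * |s| ≤ a y + |s| := by
        apply le_of_sq_le_sq _ (hr y).le
        rw [mul_pow, sq_abs, sq_abs, add_sq, sq_abs]
        nlinarith [mul_nonneg (ha.nonneg y) hs'.le]
      have h3 : k.natAbs ≤ L := by
        apply Nat.le_floor
        rw [le_div_iff₀ hs']
        simpa using h2
      rw [Finset.mem_Icc]; omega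
    refine hsub.trans ?_
    have hle : ∀ k ∈ (Finset.Icc (-(L : ℤ)) L).erase 0,
        max (38 - pot a s (2 * π * k) y) 0 / (a y + |s|) ≤ 38 / (a y + |s|) := by
      intro k _
      have := hr y
      gcongr
      refine max_le ?_ (by norm_num)
      have : 0 ≤ pot a s (2 * π * k) y := by unfold pot; positivity
      linarith
    refine (Finset.sum_le_card_nsmul _ _ _ hle).trans ?_
    rw [Finset.card_erase_of_mem (by simp), Int.card_Icc, nsmul_eq_mul]
    have h1 : ((L : ℤ) + 1 - -(L : ℤ)).toNat - 1 = 2 * L := by omega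
    have h2 : (L : ℝ) ≤ (a y + |s|) / |s| := Nat.floor_le (by have := hr y; positivity)
    rw [h1]
    have := hr y
    calc ((2 * L : ℕ) : ℝ) * (38 / (a y + |s|))
        ≤ (2 * ((a y + |s|) / |s|)) * (38 / (a y + |s|)) := by push_cast; gcongr
      _ = 76 / |s| := by field_simp; norm_num

end Pool.Agent.P.MP_e0a138_an
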