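import Pool.Agent.P.MP_e0a138_an.PA1a
import Pool.Agent.P.MP_e0a138_an.AN4b

set_option autoImplicit false
set_option linter.unusedSectionVars false
set_option linter.unusedVariables false

open MeasureTheory Filter Topology Metric Complex
open scoped ENNReal NNReal ContDiff InnerProductSpace ComplexConjugate

noncomputable section
namespace Pool.Agent.P.MP_e0a138_an.AD

variable {N p q k : ℕ} {W : Type} [NormedAddCommGroup W] [InnerProductSpace ℂ W]
  [FiniteDimensional ℂ W] [CompleteSpace W]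
variable {E : Type} [NormedAddCommGroup E] [NormedSpace ℝ E] [FiniteDimensional ℝ E]
  [MeasureSpace E] [BorelSpace E] [(volume : Measure E).IsAddHaarMeasure] {κ : Type} [Fintype κ]

variable {S J : Type} [MeasurableSpace S] {ν : Measure S} {b : κ → E}
  {G : Set (Lp W 2 ν × Lp W 2 ν)} {Pg : S → W →L[ℂ] W}

theorem PA1_memLp {O K : Set E} {ρ : E → ℝ} (hO : MeasurableSet O) (hK : IsCompact K)
    (hKO : K ⊆ O) {M : E → W →L[ℂ] W} (hM : ContinuousOn M O) {f : E → W}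
    (hf : MemLp f 2 (wm O ρ)) : MemLp (K.indicator fun x => M x (f x)) 2 (wm O ρ) := by
  obtain ⟨C, hC⟩ := hK.exists_bound_of_continuousOn (hM.mono hKO)
  have h1 : AEStronglyMeasurable (fun x => M x (f x)) (wm O ρ) :=
    (isBoundedBilinearMap_apply (𝕜 := ℂ) (E := W) (F := W)).continuous.comp_aestronglyMeasurable
      ((aesm_wm hO hM).prodMk hf.1)
  refine hf.of_le_mul (c := max C 0) (h1.indicator hK.isClosed.measurableSet)
    (Eventually.of_forall fun x => ?_)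
  by_cases hx : x ∈ K
  · rw [Set.indicator_of_mem hx]
    exact ((M x).le_opNorm _).trans
      (mul_le_mul_of_nonneg_right ((hC x hx).trans (le_max_left _ _)) (norm_nonneg _))
  · rw [Set.indicator_of_notMem hx, norm_zero]
    positivity

theorem PA1_tendsto {H : Type} [NormedAddCommGroup H] {x : ℕ → H} {v : H}
    (h : Tendsto (fun j => ‖x j - v‖ₑ ^ 2) atTop (𝓝 0)) : Tendsto x atTop (𝓝 v) := by
  have h1 := (ENNReal.tendsto_toReal ENNReal.zero_ne_top).comp h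
  have h2 := (Real.continuous_sqrt.tendsto _).comp h1
  rw [tendsto_iff_norm_sub_tendsto_zero]
  simpa [Function.comp_def] using h2

theorem PA1_bound {H : Type} [NormedAddCommGroup H] {x : H} {C : ℝ≥0} (h : ‖x‖ₑ ^ 2 ≤ C) :
    ‖x‖ ≤ √(C : ℝ) := by
  have h1 := ENNReal.toReal_mono ENNReal.coe_ne_top h
  refine Real.le_sqrt_of_sq_le ?_
  simpa using h1

/-- approximation of a localised vector by test sections -/
theorem Pat.approx (Z : Pat ν J b G Pg) {w : Lp W 2 ν} (hP : ∀ᵐ s ∂ν, Pg s (w s) = w s) (n : ℕ)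
    (P : J) {vP : Lp W 2 ν} (hvP : vP =ᵐ[ν] fun s => ((Z.χ n s * Z.θ P s : ℝ) : ℂ) • w s) :
    ∃ (a : ℕ → E → W) (K' : Set E) (g : ℕ → Lp W 2 ν × Lp W 2 ν), IsCompact K' ∧ Z.K P ⊆ K' ∧
      K' ⊆ Z.O P ∧ (∀ j, Tst (Z.O P) (fun x => Pg (Z.γ P x)) (a j) ∧ ∀ x ∉ K', a j x = 0) ∧
      (∀ j, g j ∈ G ∧ (g j).1 =ᵐ[ν] (Z.γ P '' Z.O P).indicator (fun s => a j (Z.π P s)) ∧
        (g j).2 =ᵐ[ν] (Z.γ P '' Z.O P).indicator fun s => op b (Z.A P) (Z.B P) (a j) (Z.π P s)) ∧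
      Tendsto (fun j => (g j).1) atTop (𝓝 vP) ∧
      ∀ sg : ℂ, (∀ g ∈ G, ⟪g.2 + sg • g.1, w⟫_ℂ = 0) → ∃ C : ℝ, ∀ j, ‖(g j).2‖ ≤ C := by
  have hc := Z.coef P
  have he := Z.emb P
  have hO : MeasurableSet (Z.O P) := hc.isOpen.measurableSet
  have hK := Z.K_cpt P
  have hKO := Z.K_sub P
  set c : E → ℝ := fun x => Z.χ n (Z.γ P x) * Z.θ P (Z.γ P x) with hcdef
  have hcs : ContDiffOn ℝ ∞ c (Z.O P) := (Z.χ_smooth n P).mul (Z.θ_smooth P)
  have hc0 : ∀ x ∈ Z.O P, x ∉ Z.K P → c x = 0 := by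
    intro x hx hxK
    have : Z.θ P (Z.γ P x) = 0 := by
      refine Z.θ_supp P _ ?_
      rintro ⟨y, hy, hyx⟩
      apply hxK
      rw [← Z.inv P x hx, ← hyx, Z.inv P y (hKO hy)]
      exact hy
    simp [hcdef, this]
  have hw : MemLp (fun x => w (Z.γ P x)) 2 (wm (Z.O P) (Z.ρ P)) := he.memLp_comp (Lp.memLp w)
  have hcc : ContinuousOn (fun x => (c x : ℂ) • (1 : W →L[ℂ] W)) (Z.O P) :=
    (contDiffOn_ofReal hcs).continuousOn.smul continuousOn_const
  set v : E → W := (Z.K P).indicator fun x => ((c x : ℂ) • (1 : W →L[ℂ] W)) (w (Z.γ P x))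
    with hvdef
  have hv : MemLp v 2 (wm (Z.O P) (Z.ρ P)) := PA1_memLp hO hK hKO hcc hw
  have hvK : ∀ x ∉ Z.K P, v x = 0 := fun x hx => Set.indicator_of_notMem hx _
  have hvO : ∀ x ∈ Z.O P, v x = (c x : ℂ) • w (Z.γ P x) := by
    intro x hx
    by_cases hxK : x ∈ Z.K P
    · simp [hvdef, Set.indicator_of_mem hxK]
    · simp [hvK x hxK, hc0 x hx hxK]
  have hPw : ∀ᵐ x ∂wm (Z.O P) (Z.ρ P), Pg (Z.γ P x) (w (Z.γ P x)) = w (Z.γ P x) :=
    (he.ae_iff (P := fun s => Pg s (w s) = w s)).1 (hP.mono fun s hs _ => hs)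
  have hPv : ∀ᵐ x ∂wm (Z.O P) (Z.ρ P), Pg (Z.γ P x) (v x) = v x := by
    filter_upwards [hPw, wm_ae hO] with x hx hxO
    rw [hvO x hxO, map_smul, hx]
  obtain ⟨a, K', hK', hKK', hK'O, ha, hlim, hbd⟩ := friedrichs hc b hK hKO hv hvK hPv
  choose g hgG hg1 hg2 using fun j => Z.test P (a j) (ha j).1
  refine ⟨a, K', g, hK', hKK', hK'O, ha, fun j => ⟨hgG j, hg1 j, hg2 j⟩, ?_, ?_⟩
  · refine PA1_tendsto (hlim.congr fun j => ?_)
    have h1 : ((g j).1 - vP : Lp W 2 ν) =ᵐ[ν] (Z.γ P '' Z.O P).indicator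
        fun s => a j (Z.π P s) - ((Z.χ n s * Z.θ P s : ℝ) : ℂ) • w s := by
      filter_upwards [Lp.coeFn_sub (g j).1 vP, hg1 j, hvP] with s h1 h2 h3
      rw [h1, Pi.sub_apply, h2, h3]
      by_cases hs : s ∈ Z.γ P '' Z.O P
      · simp [Set.indicator_of_mem hs]
      · have : Z.θ P s = 0 := Z.θ_supp P s fun h => hs (Set.image_mono hKO h)
        simp [Set.indicator_of_notMem hs, this]
    rw [enorm_sq_eq_of_ae h1, he.lintegral_ind]
    refine lintegral_congr_ae ?_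
    filter_upwards [wm_ae hO] with x hx
    rw [Z.inv P x hx, hvO x hx]
  · intro sg hsg
    have hM : ContinuousOn (fun x => (∑ i, ((fderiv ℝ c x (b i) : ℝ) : ℂ) • Z.A P i x) -
        conj sg • (c x : ℂ) • (1 : W →L[ℂ] W)) (Z.O P) :=
      (continuousOn_finsetSum _ fun i _ =>
        (contDiffOn_ofReal (contDiffOn_fderiv_apply' hc.isOpen hcs (b i))).continuousOn.smul
          (hc.hA i).continuousOn).sub (hcc.const_smul (conj sg))
    obtain ⟨C, hC⟩ := hbd _ (PA1_memLp hO hK hKO hM hw)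
      (fun x hx => Set.indicator_of_notMem hx _) (fun a' ha' => by
        have h := Z.weak hsg P hcs ha'
        refine Eq.trans (integral_congr_ae ?_) (h.trans (integral_congr_ae ?_))
        · filter_upwards [wm_ae hO] with x hx
          rw [hvO x hx]
        · filter_upwards [wm_ae hO] with x hx
          by_cases hxK : x ∈ Z.K P
          · simp [Set.indicator_of_mem hxK]
          · simp [Set.indicator_of_notMem hxK, hc0 x hx hxK,
              fderiv_eq_zero_of_closed hc.isOpen hK.isClosed hc0 hx hxK])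
    refine ⟨√(C : ℝ), fun j => PA1_bound ?_⟩
    rw [enorm_sq_eq_of_ae (hg2 j), he.lintegral_ind]
    refine le_trans (le_of_eq (lintegral_congr_ae ?_)) (hC j)
    filter_upwards [wm_ae hO] with x hx
    rw [Z.inv P x hx]

end Pool.Agent.P.MP_e0a138_an.AD
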