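import Pool.Agent.P.MP_e0a138_an.AN13
import Pool.Agent.P.MP_e0a138_an.AN5a

set_option autoImplicit false
set_option linter.unusedSectionVars false
set_option linter.unusedVariables false

open MeasureTheory Filter Topology Metric Complex
open scoped ENNReal NNReal ContDiff InnerProductSpace ComplexConjugate

noncomputable section
namespace Pool.Agent.P.MP_e0a138_an.AD

variable {N p q k : ℕ} {W : Type} [NormedAddCommGroup W] [InnerProductSpace ℂ W]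
  [FiniteDimensional ℂ W] [CompleteSpace W]
variable {E : Type} [NormedAddCommGroup E] [NormedSpace ℝ E] [FiniteDimensional ℝ E]
  [MeasureSpace E] [BorelSpace E] [(volume : Measure E).IsAddHaarMeasure] {κ : Type} [Fintype κ]

variable {S J : Type} [MeasurableSpace S] {ν : Measure S} {b : κ → E}
  {G : Set (Lp W 2 ν × Lp W 2 ν)} {Pg : S → W →L[ℂ] W}

theorem PA1a_int {X : Type} [MeasurableSpace X] {m : Measure X} {f g : X → W}
    (hf : MemLp f 2 m) (hg : MemLp g 2 m) : Integrable (fun x => ⟪f x, g x⟫_ℂ) m := by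
  refine (L2.integrable_inner (𝕜 := ℂ) (hf.toLp f) (hg.toLp g)).congr ?_
  filter_upwards [hf.coeFn_toLp, hg.coeFn_toLp] with x h1 h2
  rw [h1, h2]

theorem Pat.aesm_Pg (Z : Pat ν J b G Pg) : AEStronglyMeasurable Pg ν := by
  have := Z.cnt
  exact aesm_of_cover Z.emb Z.cover fun P =>
    aesm_wm (Z.coef P).isOpen.measurableSet (Z.coef P).hP.continuousOn

theorem Pat.proj (Z : Pat ν J b G Pg) : ∀ᵐ s ∂ν, Pg s * Pg s = Pg s ∧ star (Pg s) = Pg s := by
  have := Z.cnt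
  refine ae_of_cover Z.emb Z.cover fun P => ?_
  filter_upwards [wm_ae (ρ := Z.ρ P) (Z.coef P).isOpen.measurableSet] with x hx
  exact ⟨(Z.coef P).idem x hx, (Z.coef P).sa x hx⟩

theorem Pat.aesm_χ (Z : Pat ν J b G Pg) (n : ℕ) : AEStronglyMeasurable (Z.χ n) ν := by
  have := Z.cnt
  exact aesm_of_cover Z.emb Z.cover fun P =>
    aesm_wm (Z.coef P).isOpen.measurableSet (Z.χ_smooth n P).continuousOn

theorem Pat.aesm_θ (Z : Pat ν J b G Pg) (P : J) : AEStronglyMeasurable (Z.θ P) ν := by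
  have h : Z.θ P = (Z.γ P '' Z.O P).indicator (Z.θ P) := by
    funext s
    by_cases hs : s ∈ Z.γ P '' Z.O P
    · rw [Set.indicator_of_mem hs]
    · rw [Set.indicator_of_notMem hs]
      exact Z.θ_supp P s fun h => hs (Set.image_mono (Z.K_sub P) h)
  rw [h, aestronglyMeasurable_indicator_iff (Z.emb P).measurableSet, (Z.emb P).aesm_iff]
  exact aesm_wm (Z.coef P).isOpen.measurableSet (Z.θ_smooth P).continuousOn

theorem Pat.θ_bdd (Z : Pat ν J b G Pg) (P : J) : ∃ C : ℝ, ∀ s, |Z.θ P s| ≤ C := by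
  obtain ⟨C, hC⟩ := (Z.K_cpt P).exists_bound_of_continuousOn
    ((Z.θ_smooth P).continuousOn.mono (Z.K_sub P))
  refine ⟨max C 0, fun s => ?_⟩
  by_cases hs : s ∈ Z.γ P '' Z.K P
  · obtain ⟨x, hx, rfl⟩ := hs
    exact (hC x hx).trans (le_max_left _ _)
  · rw [Z.θ_supp P s hs, abs_zero]
    exact le_max_right _ _

theorem Pat.tst_smul (Z : Pat ν J b G Pg) (P : J) {c : E → ℝ} (hc : ContDiffOn ℝ ∞ c (Z.O P))
    {a : E → W} (ha : Tst (Z.O P) (fun x => Pg (Z.γ P x)) a) :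
    Tst (Z.O P) (fun x => Pg (Z.γ P x)) fun x => (c x : ℂ) • a x := by
  obtain ⟨h1, h2, h3, h4⟩ := ha
  have hs : tsupport (fun x => (c x : ℂ) • a x) ⊆ tsupport a := by
    refine closure_mono fun x hx => ?_
    intro h0
    exact hx (by simp [h0])
  refine ⟨?_, h2.of_isClosed_subset (isClosed_tsupport _) hs, hs.trans h3, fun x => ?_⟩
  · refine contDiff_of_cpt (Z.coef P).isOpen (isClosed_tsupport a) h3
      ((contDiffOn_ofReal hc).smul h1.contDiffOn) fun x hx => ?_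
    rw [image_eq_zero_of_notMem_tsupport hx, smul_zero]
  · show Pg (Z.γ P x) ((c x : ℂ) • a x) = (c x : ℂ) • a x
    rw [map_smul]
    exact congrArg _ (h4 x)

/-- the weak equation for a localised deficiency vector -/
theorem Pat.weak (Z : Pat ν J b G Pg) {sg : ℂ} {w : Lp W 2 ν}
    (hw : ∀ g ∈ G, ⟪g.2 + sg • g.1, w⟫_ℂ = 0) (P : J) {c : E → ℝ}
    (hc : ContDiffOn ℝ ∞ c (Z.O P)) {a : E → W} (ha : Tst (Z.O P) (fun x => Pg (Z.γ P x)) a) :
    ∫ x, ⟪op b (Z.A P) (Z.B P) a x, (c x : ℂ) • w (Z.γ P x)⟫_ℂ ∂wm (Z.O P) (Z.ρ P) =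
      ∫ x, ⟪a x, (∑ i, ((fderiv ℝ c x (b i) : ℝ) : ℂ) • Z.A P i x) (w (Z.γ P x)) -
        conj sg • (c x : ℂ) • w (Z.γ P x)⟫_ℂ ∂wm (Z.O P) (Z.ρ P) := by
  have hC := Z.coef P
  have hO := hC.isOpen
  have hu := Z.tst_smul P hc ha
  obtain ⟨g, hg, g1, g2⟩ := Z.test P _ hu
  set u : E → W := fun x => (c x : ℂ) • a x with hudef
  have hae : ∀ᵐ x ∂wm (Z.O P) (Z.ρ P), x ∈ Z.O P := wm_ae hO.measurableSet
  have ha0 : ∀ x ∈ Z.O P, x ∉ tsupport a → a x = 0 := fun x _ hx =>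
    image_eq_zero_of_notMem_tsupport hx
  have hu0 : ∀ x ∈ Z.O P, x ∉ tsupport a → u x = 0 := fun x hx hx' => by
    simp only [hudef, ha0 x hx hx', smul_zero]
  have hwm : MemLp (fun x => w (Z.γ P x)) 2 (wm (Z.O P) (Z.ρ P)) :=
    (Z.emb P).memLp_comp (Lp.memLp w)
  have m1 : MemLp (op b (Z.A P) (Z.B P) u) 2 (wm (Z.O P) (Z.ρ P)) :=
    memLp_wm_of_cpt hO.measurableSet ha.2.1 ha.2.2.1 hC.hρ.continuousOn
      (contDiffOn_op hO hC.hA hC.hB hu.1.contDiffOn).continuousOn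
      fun x hx hx' => op_eq_zero hO (isClosed_tsupport a) hu0 hx hx'
  have m2 : MemLp u 2 (wm (Z.O P) (Z.ρ P)) :=
    memLp_wm_of_cpt hO.measurableSet ha.2.1 ha.2.2.1 hC.hρ.continuousOn
      hu.1.continuous.continuousOn hu0
  have m3 : MemLp (fun x => (c x : ℂ) • op b (Z.A P) (Z.B P) a x) 2 (wm (Z.O P) (Z.ρ P)) :=
    memLp_wm_of_cpt hO.measurableSet ha.2.1 ha.2.2.1 hC.hρ.continuousOn
      ((contDiffOn_ofReal hc).smul (contDiffOn_op hO hC.hA hC.hB ha.1.contDiffOn)).continuousOn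
      fun x hx hx' => by rw [op_eq_zero hO (isClosed_tsupport a) ha0 hx hx', smul_zero]
  have i1 := PA1a_int m1 hwm
  have i2 := PA1a_int m2 hwm
  have i3 := PA1a_int m3 hwm
  have e1 : ⟪g.2, w⟫_ℂ =
      ∫ x, ⟪op b (Z.A P) (Z.B P) u x, w (Z.γ P x)⟫_ℂ ∂wm (Z.O P) (Z.ρ P) := by
    rw [inner_eq_of_ae g2 (ae_eq_refl _), (Z.emb P).inner_ind]
    refine integral_congr_ae ?_
    filter_upwards [hae] with x hx
    rw [Z.inv P x hx]
  have e2 : ⟪g.1, w⟫_ℂ = ∫ x, ⟪u x, w (Z.γ P x)⟫_ℂ ∂wm (Z.O P) (Z.ρ P) := by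
    rw [inner_eq_of_ae g1 (ae_eq_refl _), (Z.emb P).inner_ind]
    refine integral_congr_ae ?_
    filter_upwards [hae] with x hx
    rw [Z.inv P x hx]
  have e0 := hw g hg
  rw [inner_add_left, inner_smul_left, e1, e2] at e0
  have L : ∫ x, ⟪op b (Z.A P) (Z.B P) a x, (c x : ℂ) • w (Z.γ P x)⟫_ℂ ∂wm (Z.O P) (Z.ρ P) =
      ∫ x, ⟪(c x : ℂ) • op b (Z.A P) (Z.B P) a x, w (Z.γ P x)⟫_ℂ ∂wm (Z.O P) (Z.ρ P) := by
    refine integral_congr_ae (Eventually.of_forall fun x => ?_)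
    simp only [inner_smul_left, inner_smul_right, Complex.conj_ofReal]
  have R : ∫ x, ⟪a x, (∑ i, ((fderiv ℝ c x (b i) : ℝ) : ℂ) • Z.A P i x) (w (Z.γ P x)) -
        conj sg • (c x : ℂ) • w (Z.γ P x)⟫_ℂ ∂wm (Z.O P) (Z.ρ P) =
      ∫ x, (⟪(c x : ℂ) • op b (Z.A P) (Z.B P) a x, w (Z.γ P x)⟫_ℂ -
        (⟪op b (Z.A P) (Z.B P) u x, w (Z.γ P x)⟫_ℂ +
          conj sg * ⟪u x, w (Z.γ P x)⟫_ℂ)) ∂wm (Z.O P) (Z.ρ P) := by
    refine integral_congr_ae ?_
    filter_upwards [hae] with x hx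
    have hcd : DifferentiableAt ℝ c x := diffAt_of_contDiffOn hO hc hx
    have hcd' : DifferentiableAt ℝ (fun y => (c y : ℂ)) x :=
      diffAt_of_contDiffOn hO (contDiffOn_ofReal hc) hx
    have had : DifferentiableAt ℝ a x := diffAt_of_contDiffOn hO ha.1.contDiffOn hx
    have hop : op b (Z.A P) (Z.B P) u x = (c x : ℂ) • op b (Z.A P) (Z.B P) a x +
        ∑ i, ((fderiv ℝ c x (b i) : ℝ) : ℂ) • Z.A P i x (a x) := by
      rw [hudef, op_smul hcd' had]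
      simp only [fderiv_ofReal hcd]
    have hsk : ∀ i, ⟪Z.A P i x (a x), w (Z.γ P x)⟫_ℂ = -⟪a x, Z.A P i x (w (Z.γ P x))⟫_ℂ := by
      intro i
      rw [← ContinuousLinearMap.adjoint_inner_right, ← ContinuousLinearMap.star_eq_adjoint,
        hC.skew i x hx]
      simp
    rw [hop]
    simp only [hudef, inner_add_left, inner_sub_right, inner_smul_left, inner_smul_right,
      sum_inner, inner_sum, ContinuousLinearMap.sum_apply, ContinuousLinearMap.smul_apply,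
      Complex.conj_ofReal, hsk, mul_neg, Finset.sum_neg_distrib]
    ring
  have i4 : Integrable (fun x => ⟪op b (Z.A P) (Z.B P) u x, w (Z.γ P x)⟫_ℂ +
      conj sg * ⟪u x, w (Z.γ P x)⟫_ℂ) (wm (Z.O P) (Z.ρ P)) := i1.add (i2.const_mul _)
  rw [L, R, integral_sub i3 i4, integral_add i1 (i2.const_mul _),
    integral_const_mul, e0, sub_zero]

end Pool.Agent.P.MP_e0a138_an.AD
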