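import Pool.Agent.P.MP_e0a138_an.PA1

set_option autoImplicit false
set_option linter.unusedSectionVars false
set_option linter.unusedVariables false

open MeasureTheory Filter Topology Metric Complex
open scoped ENNReal NNReal ContDiff InnerProductSpace ComplexConjugate

noncomputable section
namespace Pool.Agent.P.MP_e0a138_an.AD

variable {N p q k : ℕ} {W : Type} [NormedAddCommGroup W] [InnerProductSpace ℂ W]
  [FiniteDimensional ℂ W] [CompleteSpace W]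
variable {E : Type} [NormedAddCommGroup E] [NormedSpace ℝ E] [FiniteDimensional ℝ E]
  [MeasureSpace E] [BorelSpace E] [(volume : Measure E).IsAddHaarMeasure] {κ : Type} [Fintype κ]

variable {S J : Type} [MeasurableSpace S] {ν : Measure S} {b : κ → E}
  {G : Set (Lp W 2 ν × Lp W 2 ν)} {Pg : S → W →L[ℂ] W}

theorem PA2_mem {O K : Set E} (hO : IsOpen O) (hK : IsCompact K) (hKO : K ⊆ O) {ρ : E → ℝ}
    {D : E → W →L[ℂ] W} (hD : ContinuousOn D O) {u : E → W} (hu : MemLp u 2 (wm O ρ)) :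
    MemLp (fun x => K.indicator D x (u x)) 2 (wm O ρ) := by
  obtain ⟨L, hL⟩ := hK.exists_bound_of_continuousOn (hD.mono hKO)
  have h1 : AEStronglyMeasurable (K.indicator D) (wm O ρ) :=
    (aesm_wm hO.measurableSet hD).indicator hK.measurableSet
  have h2 : AEStronglyMeasurable (fun x => K.indicator D x (u x)) (wm O ρ) :=
    (continuous_fst.clm_apply continuous_snd :
      Continuous fun z : (W →L[ℂ] W) × W => z.1 z.2).comp_aestronglyMeasurable
        (h1.prodMk hu.aestronglyMeasurable)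
  refine hu.of_le_mul (c := max L 0) h2 (Eventually.of_forall fun x => ?_)
  refine (ContinuousLinearMap.le_opNorm _ _).trans (mul_le_mul_of_nonneg_right ?_ (norm_nonneg _))
  by_cases hx : x ∈ K
  · rw [Set.indicator_of_mem hx]; exact (hL x hx).trans (le_max_left _ _)
  · rw [Set.indicator_of_notMem hx, norm_zero]; exact le_max_right _ _

theorem PA2_pt {t d : ℝ} (ht : 0 ≤ t) {M : W →L[ℂ] W} (hM : ‖M‖ ≤ d) (y : W) :
    ‖⟪(t : ℂ) • y, M y⟫_ℂ‖ ≤ d * (⟪(t : ℂ) • y, y⟫_ℂ).re := by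
  have h1 : (⟪(t : ℂ) • y, y⟫_ℂ).re = t * ‖y‖ ^ 2 := by
    rw [inner_smul_left, conj_ofReal, re_ofReal_mul]
    congr 1
    exact inner_self_eq_norm_sq (𝕜 := ℂ) y
  rw [h1]
  have h2 : ‖M y‖ ≤ d * ‖y‖ :=
    (M.le_opNorm y).trans (mul_le_mul_of_nonneg_right hM (norm_nonneg _))
  calc ‖⟪(t : ℂ) • y, M y⟫_ℂ‖ ≤ ‖(t : ℂ) • y‖ * ‖M y‖ := norm_inner_le_norm _ _
    _ = t * ‖y‖ * ‖M y‖ := by rw [norm_smul, Complex.norm_real, Real.norm_of_nonneg ht]
    _ ≤ t * ‖y‖ * (d * ‖y‖) := mul_le_mul_of_nonneg_left h2 (by positivity)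
    _ = d * (t * ‖y‖ ^ 2) := by ring

theorem Pat.piece (Z : Pat ν J b G Pg) {sg : ℂ} {w : Lp W 2 ν}
    (hw : ∀ g ∈ G, ⟪g.2 + sg • g.1, w⟫_ℂ = 0) (hP : ∀ᵐ s ∂ν, Pg s (w s) = w s) (n : ℕ) (P : J)
    {v vP : Lp W 2 ν} (hv : v =ᵐ[ν] fun s => (Z.χ n s : ℂ) • w s)
    (hvP : vP =ᵐ[ν] fun s => ((Z.χ n s * Z.θ P s : ℝ) : ℂ) • w s) :
    ∃ (g : ℕ → Lp W 2 ν × Lp W 2 ν) (C : ℝ) (r : ℂ), (∀ j, g j ∈ G) ∧
      Tendsto (fun j => (g j).1) atTop (𝓝 vP) ∧ (∀ j, ‖(g j).2‖ ≤ C) ∧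
      Tendsto (fun j => ⟪(g j).2 + sg • (g j).1, v⟫_ℂ) atTop (𝓝 r) ∧
      ‖r‖ ≤ Z.δ n * (⟪vP, w⟫_ℂ).re := by
  obtain ⟨a, K', g, hK', hKK', hK'O, ha, hg, hlim, hC⟩ := Z.approx hP n P hvP
  obtain ⟨C, hC⟩ := hC sg hw
  have hO := (Z.coef P).isOpen
  have hE := Z.emb P
  have hc := Z.χ_smooth n P
  obtain ⟨D, hD⟩ : ∃ D : E → W →L[ℂ] W, D = fun x =>
      ∑ i, ((fderiv ℝ (fun y => Z.χ n (Z.γ P y)) x (b i) : ℝ) : ℂ) • Z.A P i x := ⟨_, rfl⟩
  have hDc : ContinuousOn D (Z.O P) := by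
    rw [hD]
    exact continuousOn_finsetSum _ fun i _ =>
      (contDiffOn_ofReal (contDiffOn_fderiv_apply' hO hc (b i))).continuousOn.smul
        ((Z.coef P).hA i).continuousOn
  have hm : ∀ᵐ x ∂wm (Z.O P) (Z.ρ P), x ∈ Z.O P := wm_ae hO.measurableSet
  have hem : MemLp ((Z.γ P '' Z.O P).indicator fun s => K'.indicator D (Z.π P s) (w s)) 2 ν := by
    refine hE.memLp_ind ?_
    refine (memLp_congr_ae ?_).1
      (PA2_mem hO hK' hK'O hDc (hE.memLp_comp (Lp.memLp w)))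
    filter_upwards [hm] with x hx
    rw [Z.inv P x hx]
  obtain ⟨e, he⟩ : ∃ e : Lp W 2 ν, e =ᵐ[ν]
      (Z.γ P '' Z.O P).indicator fun s => K'.indicator D (Z.π P s) (w s) := ⟨_, toL_ae hem⟩
  have key : ∀ j, ⟪(g j).2 + sg • (g j).1, v⟫_ℂ = ⟪(g j).1, e⟫_ℂ := by
    intro j
    have h1 : (e - conj sg • v : Lp W 2 ν) =ᵐ[ν] fun s =>
        (Z.γ P '' Z.O P).indicator (fun s => K'.indicator D (Z.π P s) (w s)) s -
          conj sg • (Z.χ n s : ℂ) • w s := by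
      filter_upwards [Lp.coeFn_sub e (conj sg • v), Lp.coeFn_smul (conj sg) v, he, hv] with s
        h1 h2 h3 h4
      rw [h1, Pi.sub_apply, h2, Pi.smul_apply, h3, h4]
    have h2 : ⟪(g j).2, v⟫_ℂ = ⟪(g j).1, e - conj sg • v⟫_ℂ := by
      rw [inner_eq_of_ae (hg j).2.2 hv, inner_eq_of_ae (hg j).2.1 h1, hE.inner_ind, hE.inner_ind]
      refine Eq.trans ?_ ((Z.weak hw P hc (ha j).1).trans ?_)
      · refine integral_congr_ae ?_
        filter_upwards [hm] with x hx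
        rw [Z.inv P x hx]
      · refine integral_congr_ae ?_
        filter_upwards [hm] with x hx
        rw [Set.indicator_of_mem (Set.mem_image_of_mem _ hx), Z.inv P x hx]
        by_cases hx' : x ∈ K'
        · rw [Set.indicator_of_mem hx', hD]
        · rw [(ha j).2 x hx', inner_zero_left, inner_zero_left]
    rw [inner_add_left, inner_smul_left, h2, inner_sub_right, inner_smul_right]
    ring
  refine ⟨g, C, ⟪vP, e⟫_ℂ, fun j => (hg j).1, hlim, hC, ?_, ?_⟩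
  · simp only [key]
    exact hlim.inner tendsto_const_nhds
  · have hi := L2.integrable_inner (𝕜 := ℂ) vP w
    have h3 : Z.δ n * (⟪vP, w⟫_ℂ).re = ∫ s, Z.δ n * (⟪vP s, w s⟫_ℂ).re ∂ν := by
      rw [integral_const_mul, L2.inner_def]
      congr 1
      exact (integral_re hi).symm
    rw [h3, L2.inner_def]
    refine norm_integral_le_of_norm_le (hi.re.const_mul _) ?_
    filter_upwards [hvP, he, Z.χ_mem n] with s h1 h2 h4
    rw [h1, h2]
    by_cases hs : s ∈ Z.γ P '' Z.K P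
    · obtain ⟨x, hx, rfl⟩ := hs
      have hxO := Z.K_sub P hx
      rw [Set.indicator_of_mem (Set.mem_image_of_mem _ hxO), Z.inv P x hxO,
        Set.indicator_of_mem (hKK' hx)]
      refine PA2_pt (mul_nonneg h4.1 (Z.θ_nonneg P _)) ?_ _
      rw [hD]
      exact Z.grad n P x hx
    · simp [Z.θ_supp P s hs]

end Pool.Agent.P.MP_e0a138_an.AD
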