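import Pool.Agent.P.MP_e0a138_an.Basic
import Pool.Agent.P.MP_e0a138_an.Count

set_option autoImplicit false

open Module MeasureTheory Filter Topology Set
open scoped ComplexConjugate InnerProductSpace ContDiff

namespace Pool.Agent.P.MP_e0a138_an

/-- Smooth `1`-periodic functions. -/
def Psub : Submodule ℂ (ℝ → ℂ) where
  carrier := {w | ContDiff ℝ ∞ w ∧ ∀ y, w (y + 1) = w y}
  add_mem' := fun {v w} hv hw => ⟨hv.1.add hw.1, fun y => by simp [hv.2 y, hw.2 y]⟩
  zero_mem' := ⟨contDiff_const, fun _ => rfl⟩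
  smul_mem' := fun c w hw => ⟨hw.1.const_smul c, fun y => by simp [hw.2 y]⟩

/-- Smooth `1`-periodic functions as a type. -/
def PP : Type := Psub

noncomputable instance : AddCommGroup PP := inferInstanceAs (AddCommGroup Psub)
noncomputable instance : Module ℂ PP := inferInstanceAs (Module ℂ Psub)

/-- The underlying function. -/
def PP.val (w : PP) : ℝ → ℂ := (w : Psub).1

/-- Constructor. -/
def PP.mk (w : ℝ → ℂ) (h1 : ContDiff ℝ ∞ w) (h2 : ∀ y, w (y + 1) = w y) : PP :=
  (⟨w, h1, h2⟩ : Psub)

@[simp] theorem PP.val_mk (w : ℝ → ℂ) (h1 : ContDiff ℝ ∞ w) (h2 : ∀ y, w (y + 1) = w y) :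
    (PP.mk w h1 h2).val = w := rfl
@[simp] theorem PP.val_add (v w : PP) (y : ℝ) : (v + w).val y = v.val y + w.val y := rfl
@[simp] theorem PP.val_sub (v w : PP) (y : ℝ) : (v - w).val y = v.val y - w.val y := rfl
@[simp] theorem PP.val_neg (v : PP) (y : ℝ) : (-v).val y = -v.val y := rfl
@[simp] theorem PP.val_smul (c : ℂ) (w : PP) (y : ℝ) : (c • w).val y = c * w.val y := rfl
@[simp] theorem PP.val_zero (y : ℝ) : (0 : PP).val y = 0 := rfl
theorem PP.smooth (w : PP) : ContDiff ℝ ∞ w.val := (w : Psub).2.1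
theorem PP.per (w : PP) (y : ℝ) : w.val (y + 1) = w.val y := (w : Psub).2.2 y
theorem PP.ext {v w : PP} (h : ∀ y, v.val y = w.val y) : v = w := Subtype.ext (funext h)
@[fun_prop] theorem PP.cont (w : PP) : Continuous w.val := w.smooth.continuous
theorem PP.diff (w : PP) : Differentiable ℝ w.val := w.smooth.differentiable (by simp)
theorem PP.hasDerivAt (w : PP) (y : ℝ) : HasDerivAt w.val (deriv w.val y) y :=
  (w.diff y).hasDerivAt

theorem PP.val_sum {ι : Type} (s : Finset ι) (v : ι → PP) (y : ℝ) :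
    (∑ i ∈ s, v i).val y = ∑ i ∈ s, (v i).val y := by
  classical
  induction s using Finset.induction_on with
  | empty => simp
  | insert i s hi ih => simp [Finset.sum_insert hi, ih]

/-- The `L²` inner product over a period. -/
@[reducible] noncomputable def PP.core : InnerProductSpace.Core ℂ PP :=
  { inner := fun v w => ∫ y in (0 : ℝ)..1, conj (v.val y) * w.val y
    conj_inner_symm := fun v w => by
      simp only [intervalIntegral.integral_of_le (zero_le_one' ℝ)]
      rw [← integral_conj]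
      refine integral_congr_ae (Eventually.of_forall fun y => ?_)
      simp [mul_comm]
    re_inner_nonneg := fun v => by
      rw [integral_conj_mul_self]
      simp only [RCLike.re_to_complex, Complex.ofReal_re]
      exact intervalIntegral.integral_nonneg zero_le_one fun y _ => by positivity
    add_left := fun v w x => by
      rw [← intervalIntegral.integral_add (ii (by fun_prop) _ _) (ii (by fun_prop) _ _)]
      refine intervalIntegral.integral_congr fun y _ => ?_
      simp [add_mul]
    smul_left := fun v w r => by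
      rw [← intervalIntegral.integral_const_mul]
      refine intervalIntegral.integral_congr fun y _ => ?_
      simp [mul_assoc]
    definite := fun v hv => by
      have : ((∫ y in (0 : ℝ)..1, ‖v.val y‖ ^ 2 : ℝ) : ℂ) = 0 := by
        rw [← integral_conj_mul_self]; exact hv
      have h := eq_zero_of_integral_sq v.cont v.per (by exact_mod_cast this)
      exact PP.ext fun y => by rw [h]; rfl }

noncomputable instance : NormedAddCommGroup PP := PP.core.toNormedAddCommGroup
noncomputable instance : InnerProductSpace ℂ PP := InnerProductSpace.ofCore PP.core.toCore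

theorem PP.inner_def (v w : PP) :
    ⟪v, w⟫_ℂ = ∫ y in (0 : ℝ)..1, conj (v.val y) * w.val y := rfl

theorem PP.norm_sq (v : PP) : ‖v‖ ^ 2 = ∫ y in (0 : ℝ)..1, ‖v.val y‖ ^ 2 := by
  have h := inner_self_eq_norm_sq_to_K (𝕜 := ℂ) v
  rw [PP.inner_def, integral_conj_mul_self] at h
  have : ((‖v‖ ^ 2 : ℝ) : ℂ) = ((∫ y in (0 : ℝ)..1, ‖v.val y‖ ^ 2 : ℝ) : ℂ) := by
    rw [h]; push_cast; rfl
  exact_mod_cast this

theorem deriv_per {F : Type} [NormedAddCommGroup F] [NormedSpace ℝ F] {w : ℝ → F}
    (h : ∀ y, w (y + 1) = w y) (y : ℝ) : deriv w (y + 1) = deriv w y := by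
  rw [← deriv_comp_add_const]
  congr 1
  exact funext h

/-- The derivative. -/
noncomputable def dP : PP →ₗ[ℂ] PP where
  toFun w := PP.mk (deriv w.val) (w.smooth.iterate_deriv 1) (deriv_per w.per)
  map_add' v w := PP.ext fun y => ((v.hasDerivAt y).add (w.hasDerivAt y)).deriv
  map_smul' c w := PP.ext fun y => ((w.hasDerivAt y).const_mul c).deriv

@[simp] theorem dP_val (w : PP) : (dP w).val = deriv w.val := rfl

/-- Multiplication operator. -/
noncomputable def mP (c : PP) : PP →ₗ[ℂ] PP where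
  toFun w := PP.mk (fun y => c.val y * w.val y) (c.smooth.mul w.smooth)
    (fun y => by rw [c.per, w.per])
  map_add' v w := PP.ext fun y => by simp [mul_add]
  map_smul' r w := PP.ext fun y => by simp; ring

@[simp] theorem mP_val (c w : PP) (y : ℝ) : (mP c w).val y = c.val y * w.val y := rfl

theorem integral_deriv_per {F : Type} [NormedAddCommGroup F] [NormedSpace ℝ F] [CompleteSpace F]
    {g g' : ℝ → F} (hg : ∀ y, HasDerivAt g (g' y) y) (hc : Continuous g') (hp : g 1 = g 0) :
    ∫ y in (0 : ℝ)..1, g' y = 0 := by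
  rw [intervalIntegral.integral_eq_sub_of_hasDerivAt (fun t _ => hg t) (ii hc _ _), hp, sub_self]

theorem inner_dP (v w : PP) : ⟪dP v, w⟫_ℂ = -⟪v, dP w⟫_ℂ := by
  have hv := (dP v).cont
  have hw := (dP w).cont
  rw [eq_neg_iff_add_eq_zero, PP.inner_def, PP.inner_def,
    ← intervalIntegral.integral_add (ii (by fun_prop) _ _) (ii (by fun_prop) _ _)]
  refine integral_deriv_per (g := fun y => conj (v.val y) * w.val y) (fun y => ?_) (by fun_prop) ?_
  · exact ((v.hasDerivAt y).star).mul (w.hasDerivAt y)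
  · have h1 := v.per 0
    have h2 := w.per 0
    rw [zero_add] at h1 h2
    simp only [h1, h2]

/-- Hypotheses on the slope `a`. -/
structure Good (a : ℝ → ℝ) : Prop where
  smooth : ContDiff ℝ ∞ a
  per : ∀ y, a (y + 1) = a y
  nonneg : ∀ y, 0 ≤ a y
  le_one : ∀ y, a y ≤ 1
  deriv_le : ∀ y, |deriv a y| ≤ 1

/-- The coefficient `a + i s`. -/
noncomputable def cP {a : ℝ → ℝ} (ha : Good a) (s : ℝ) : PP :=
  PP.mk (fun y => a y + Complex.I * s)
    ((Complex.ofRealCLM.contDiff.comp ha.smooth).add contDiff_const) (fun y => by rw [ha.per])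

@[simp] theorem cP_val {a : ℝ → ℝ} (ha : Good a) (s y : ℝ) :
    (cP ha s).val y = a y + Complex.I * s := rfl

/-- `A w = (a + i s) w' + i κ w`. -/
noncomputable def opA {a : ℝ → ℝ} (ha : Good a) (s κ : ℝ) : PP →ₗ[ℂ] PP :=
  mP (cP ha s) ∘ₗ dP + (Complex.I * κ) • LinearMap.id

/-- The adjoint `A' z = -((a - i s) z)' - i κ z`. -/
noncomputable def opA' {a : ℝ → ℝ} (ha : Good a) (s κ : ℝ) : PP →ₗ[ℂ] PP :=
  -(dP ∘ₗ mP (cP ha (-s))) - (Complex.I * κ) • LinearMap.id

theorem opA_val {a : ℝ → ℝ} (ha : Good a) (s κ : ℝ) (w : PP) (y : ℝ) :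
    (opA ha s κ w).val y = (a y + Complex.I * s) * deriv w.val y + Complex.I * κ * w.val y := rfl

theorem opA'_val {a : ℝ → ℝ} (ha : Good a) (s κ : ℝ) (z : PP) (y : ℝ) :
    (opA' ha s κ z).val y = -((a y - Complex.I * s) * deriv z.val y) - deriv a y * z.val y
      - Complex.I * κ * z.val y := by
  have h1 : HasDerivAt (fun y => (a y : ℂ) + Complex.I * (-s : ℝ)) (deriv a y : ℝ) y :=
    ((ha.smooth.differentiable (by simp) y).hasDerivAt.ofReal_comp).add_const _
  have h2 := (h1.mul (z.hasDerivAt y)).deriv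
  have h3 : (opA' ha s κ z).val y = -deriv (fun y => ((a y : ℂ) + Complex.I * (-s : ℝ)) * z.val y) y
      - Complex.I * κ * z.val y := rfl
  rw [h3]
  erw [h2]
  push_cast; ring

theorem opA_adj {a : ℝ → ℝ} (ha : Good a) (s κ : ℝ) (w z : PP) :
    ⟪opA ha s κ w, z⟫_ℂ = ⟪w, opA' ha s κ z⟫_ℂ := by
  have h1 : ⟪mP (cP ha s) (dP w), z⟫_ℂ = ⟪dP w, mP (cP ha (-s)) z⟫_ℂ := by
    rw [PP.inner_def, PP.inner_def]
    refine intervalIntegral.integral_congr fun y _ => ?_
    simp; ring
  simp only [opA, opA', LinearMap.add_apply, LinearMap.comp_apply, LinearMap.smul_apply,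
    LinearMap.id_apply, LinearMap.sub_apply, LinearMap.neg_apply, inner_add_left, inner_sub_right,
    inner_neg_right, inner_smul_left, inner_smul_right, h1, inner_dP]
  simp; ring

theorem ker_opA' {a : ℝ → ℝ} (ha : Good a) {s : ℝ} (hs : s ≠ 0) (κ : ℝ) {lam n : ℝ}
    (hlam : 0 ≤ lam) (h : Bd (opA ha (-s) κ) lam n) :
    FiniteDimensional ℂ (LinearMap.ker (opA' ha s κ)) ∧
      (finrank ℂ (LinearMap.ker (opA' ha s κ)) : ℝ) ≤ n := by
  refine h.of_injective (mP (cP ha (-s)) ∘ₗ (LinearMap.ker (opA' ha s κ)).subtype) ?_ ?_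
  · rw [← LinearMap.ker_eq_bot, LinearMap.ker_eq_bot']
    intro z hz
    refine Subtype.ext (PP.ext fun y => ?_)
    have := congrArg (fun v : PP => v.val y) hz
    simp only [LinearMap.comp_apply, mP_val, cP_val, PP.val_zero, mul_eq_zero] at this
    rcases this with h | h
    · have := congrArg Complex.im h
      simp at this
      exact absurd this hs
    · exact h
  · intro z
    have : opA ha (-s) κ (mP (cP ha (-s)) z.1) = 0 := by
      refine PP.ext fun y => ?_
      have h1 := congrArg (fun v : PP => v.val y) z.2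
      have h2 : (opA' ha s κ z.1).val y = -deriv (mP (cP ha (-s)) z.1).val y
        - Complex.I * κ * z.1.val y := rfl
      simp only [h2, PP.val_zero] at h1
      rw [opA_val, mP_val, cP_val, PP.val_zero]
      linear_combination (-((a y : ℂ) + Complex.I * (-s : ℝ))) * h1
    simp only [LinearMap.comp_apply, Submodule.subtype_apply, this, norm_zero]
    positivity

end Pool.Agent.P.MP_e0a138_an
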