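import Pool.Agent.P.MP_e0a138_an.Leaf

set_option autoImplicit false

open MeasureTheory Filter Topology Set Complex
open scoped ComplexConjugate InnerProductSpace ContDiff ENNReal

namespace Pool.Agent.P.MP_e0a138_an

variable {b : ℝ → ℝ}

theorem weak_eq (hb : Continuous b) (τ σ : ℝ)
    (U : Lp V4 2 (leafMeas b)) (hU : ∀ ψ, ⟪eL hb τ σ ψ, U⟫_ℂ = 0)
    (hZ : LocallyIntegrable (fun t => -Bm (jac b t • U t)) volume)
    (hG : LocallyIntegrable (fun t => Gam (b t) (τ / jac b t) σ (jac b t • U t)) volume)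
    (φ : ℝ → ℝ) (φ1 : ContDiff ℝ ∞ φ) (φ2 : HasCompactSupport φ) :
    ∫ t, deriv φ t • -Bm (jac b t • U t) =
      -∫ t, φ t • Gam (b t) (τ / jac b t) σ (jac b t • U t) := by
  have i1 := hZ.integrable_smul_left_of_hasCompactSupport
    (φ1.continuous_deriv (by simp)) φ2.deriv
  have i2 := hG.integrable_smul_left_of_hasCompactSupport φ1.continuous φ2
  rw [eq_neg_iff_add_eq_zero, ← integral_add i1 i2]
  refine ext_inner_left ℂ fun e => ?_
  have i3 : Integrable fun t => deriv φ t • -Bm (jac b t • U t) +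
    φ t • Gam (b t) (τ / jac b t) σ (jac b t • U t) := i1.add i2
  rw [inner_zero_right]
  refine (integral_inner (𝕜 := ℂ) i3 e).symm.trans ?_
  let ψ : Tsub := ⟨fun t => φ t • e, φ1.smul contDiff_const, φ2.smul_right⟩
  have i4 : MemLp (fun t => Dop b τ ψ.1 t + (σ * I) • ψ.1 t) 2 (leafMeas b) :=
    (memD hb τ ψ).add ((memT hb ψ).const_smul (σ * I : ℂ))
  have h0 := hU ψ
  rw [eL_eq, inner_toL hb i4] at h0
  refine Eq.trans ?_ h0
  refine integral_congr_ae (Eventually.of_forall fun t => ?_)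
  have hd : deriv ψ.1 t = deriv φ t • e :=
    ((φ1.differentiable (by simp) t).hasDerivAt.smul_const e).deriv
  have hv : ψ.1 t = φ t • e := rfl
  simp only [Dop_eq, hd, hv]
  exact weak_pt _ _ _ _ _ _ _ _

theorem strong_eq (hb : Continuous b) (τ σ : ℝ) {Y : ℝ → V4}
    (hG : LocallyIntegrable (fun t => Gam (b t) (τ / jac b t) σ (Y t)) volume) {c : V4}
    (hc : ∀ᵐ t, -Bm (Y t) = c + ∫ s in (0 : ℝ)..t, Gam (b s) (τ / jac b s) σ (Y s)) :
    ∃ Z : ℝ → V4, (∀ᵐ t, Y t = Bm (Z t)) ∧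
      ∀ t, HasDerivAt Z (Gam (b t) (τ / jac b t) σ (Bm (Z t))) t := by
  have c3 := jac_cont hb
  have c4 : Continuous fun t => I * (τ / jac b t : ℝ) := by
    fun_prop (disch := exact fun t => (jac_pos b t).ne')
  obtain ⟨Z, hZd⟩ : ∃ Z : ℝ → V4, Z = fun t =>
    c + ∫ s in (0 : ℝ)..t, Gam (b s) (τ / jac b s) σ (Y s) := ⟨_, rfl⟩
  have cZ : Continuous Z := by
    rw [hZd]
    exact continuous_const.add (intervalIntegral.continuous_primitive
      (fun _ _ => (hG.integrableOn_isCompact isCompact_uIcc).intervalIntegrable) 0)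
  have hYZ : ∀ᵐ t, Y t = Bm (Z t) := hc.mono fun t ht => by
    rw [congrFun hZd t, ← ht, map_neg, Bm_Bm, neg_neg]
  have cG : Continuous fun t => Gam (b t) (τ / jac b t) σ (Bm (Z t)) := by
    unfold Gam; fun_prop
  refine ⟨Z, hYZ, fun t => ?_⟩
  have : Z = fun t => c + ∫ s in (0 : ℝ)..t, Gam (b s) (τ / jac b s) σ (Bm (Z s)) := by
    funext t
    rw [congrFun hZd t,
      intervalIntegral.integral_congr_ae (hYZ.mono fun s hs _ => by rw [hs])]
  have h := ((cG.integral_hasStrictDerivAt 0 t).hasDerivAt).const_add c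
  rwa [← this] at h

theorem eq_zero_of_orth (hb : Continuous b) (τ : ℝ) {σ : ℝ} (hσ : σ ^ 2 = 1)
    (U : Lp V4 2 (leafMeas b)) (hU : ∀ ψ, ⟪eL hb τ σ ψ, U⟫_ℂ = 0) : U = 0 := by
  have := locFin hb
  have c3 := jac_cont hb
  have c4 : Continuous fun t => I * (τ / jac b t : ℝ) := by
    fun_prop (disch := exact fun t => (jac_pos b t).ne')
  have hY : LocallyIntegrable (fun t => jac b t • U t) volume :=
    locallyIntegrable_iff.2 fun K hK => (integrable_leaf hb _ hK.measurableSet).1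
      (((Lp.memLp U).locallyIntegrable one_le_two).integrableOn_isCompact hK)
  have hZ : LocallyIntegrable (fun t => -Bm (jac b t • U t)) volume := (locInt_clm hY Bm).neg
  have hG : LocallyIntegrable (fun t => Gam (b t) (τ / jac b t) σ (jac b t • U t)) volume :=
    (((locInt_clm hY Cm).continuous_smul c4).add
      (((locInt_clm hY Em).sub (locInt_clm hY Bm)).continuous_smul
        (continuous_ofReal.comp hb))).sub (hY.smul (σ * I))
  obtain ⟨c, hc⟩ := ae_eq_primitive hZ hG (weak_eq hb τ σ U hU hZ hG)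
  obtain ⟨Z, hYZ, dZ⟩ := strong_eq hb τ σ hG hc
  have hi : Integrable fun t => ‖Z t‖ ^ 2 / jac b t := by
    have h1 : Integrable (fun t => ‖U t‖ ^ 2) (leafMeas b) :=
      (memLp_two_iff_integrable_sq_norm (Lp.aestronglyMeasurable U)).1 (Lp.memLp U)
    rw [← integrableOn_univ, integrable_leaf hb _ MeasurableSet.univ, integrableOn_univ] at h1
    refine h1.congr (hYZ.mono fun t ht => ?_)
    have hw := jac_pos b t
    have e1 : ‖Z t‖ = jac b t * ‖U t‖ := by
      rw [← norm_Bm, ← ht]; simp only [norm_smul, Real.norm_eq_abs, abs_of_pos hw]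
    simp only [e1, smul_eq_mul]
    field_simp
  have hz := ode_zero hb _ hσ dZ hi
  have h0 : ∀ᵐ t, U t = 0 := hYZ.mono fun t ht => by
    rw [hz, map_zero] at ht
    exact (smul_eq_zero.1 ht).resolve_left (jac_pos b t).ne'
  have h1 : ∀ᵐ t ∂leafMeas b, U t = 0 := (leaf_ac b).ae_le h0
  exact Lp.eq_zero_iff_ae_eq_zero.2 h1

theorem dense_eL (hb : Continuous b) (τ : ℝ) {σ : ℝ} (hσ : σ ^ 2 = 1) :
    DenseRange (eL hb τ σ) := by
  have : Dense ((LinearMap.range (eL hb τ σ) : Submodule ℂ _) : Set (Lp V4 2 (leafMeas b))) := by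
    rw [Submodule.dense_iff_topologicalClosure_eq_top, Submodule.topologicalClosure_eq_top_iff,
      Submodule.eq_bot_iff]
    intro U hU
    exact eq_zero_of_orth hb τ hσ U fun ψ => hU _ ⟨ψ, rfl⟩
  exact this

theorem isRes_iff (hb : Continuous b) (τ : ℝ) (R : Lp V4 2 (leafMeas b) →L[ℂ] Lp V4 2 (leafMeas b)) :
    IsRes b τ R ↔ ∀ ψ, R (eL hb τ 1 ψ) = jL hb ψ := by
  constructor
  · intro h ψ
    rw [eL_eq, ofReal_one, one_mul]
    exact h ψ.1 ψ.2.1 ψ.2.2
  · intro h ψ h1 h2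
    have := h ⟨ψ, h1, h2⟩
    rw [eL_eq, ofReal_one, one_mul] at this
    exact this

theorem existsUnique_res (hb : Continuous b) (τ : ℝ) : ∃! R, IsRes b τ R := by
  have hd := dense_eL hb τ (σ := 1) (by norm_num)
  refine ⟨(jL hb).extendOfNorm (eL hb τ 1), (isRes_iff hb τ _).2
    (LinearMap.extendOfNorm_eq hd ⟨1, norm_jL_le hb τ⟩), fun R hR => ?_⟩
  exact (LinearMap.extendOfNorm_unique hd 1 (norm_jL_le hb τ) R
    (LinearMap.ext ((isRes_iff hb τ R).1 hR))).symm

theorem eq_of_inner_eL (hb : Continuous b) (τ : ℝ) {σ : ℝ} (hσ : σ ^ 2 = 1)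
    {U V : Lp V4 2 (leafMeas b)} (h : ∀ ψ, ⟪eL hb τ σ ψ, U⟫_ℂ = ⟪eL hb τ σ ψ, V⟫_ℂ) : U = V :=
  sub_eq_zero.1 (eq_zero_of_orth hb τ hσ _ fun ψ => by rw [inner_sub_right, h, sub_self])

theorem star_res (hb : Continuous b) {τ : ℝ} {R : Lp V4 2 (leafMeas b) →L[ℂ] Lp V4 2 (leafMeas b)}
    (hR : IsRes b τ R) {φ : ℝ → V4} (φ1 : ContDiff ℝ ∞ φ)
    (φ2 : MemLp φ 2 (leafMeas b)) (φ3 : MemLp (Dop b τ φ) 2 (leafMeas b)) :
    star R (toL b fun t => Dop b τ φ t + ((-1 : ℝ) * I) • φ t) = toL b φ := by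
  refine eq_of_inner_eL hb τ (σ := 1) (by norm_num) fun η => ?_
  rw [ContinuousLinearMap.star_eq_adjoint, ContinuousLinearMap.adjoint_inner_right,
    (isRes_iff hb τ R).1 hR, inner_eL hb τ 1 η φ1 φ2 φ3]

theorem res_apply (hb : Continuous b) {τ : ℝ} {R : Lp V4 2 (leafMeas b) →L[ℂ] Lp V4 2 (leafMeas b)}
    (hR : IsRes b τ R) {φ : ℝ → V4} (φ1 : ContDiff ℝ ∞ φ)
    (φ2 : MemLp φ 2 (leafMeas b)) (φ3 : MemLp (Dop b τ φ) 2 (leafMeas b)) :
    R (toL b fun t => Dop b τ φ t + ((1 : ℝ) * I) • φ t) = toL b φ := by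
  refine eq_of_inner_eL hb τ (σ := -1) (by norm_num) fun η => ?_
  rw [← ContinuousLinearMap.adjoint_inner_left, ← ContinuousLinearMap.star_eq_adjoint,
    inner_eL hb τ (-1) η φ1 φ2 φ3, neg_neg, eL_eq,
    star_res hb hR η.2.1 (memT hb η) (memD hb τ η)]
  rfl

theorem res_normal (hb : Continuous b) {τ : ℝ}
    {R : Lp V4 2 (leafMeas b) →L[ℂ] Lp V4 2 (leafMeas b)} (hR : IsRes b τ R) :
    IsStarNormal R ∧ R - star R = (-2 * I) • (star R * R) := by
  have h1 : ∀ ψ, R (eL hb τ 1 ψ) = jL hb ψ := (isRes_iff hb τ R).1 hR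
  have h2 : ∀ ψ, star R (eL hb τ (-1) ψ) = jL hb ψ := fun ψ => by
    rw [eL_eq, star_res hb hR ψ.2.1 (memT hb ψ) (memD hb τ ψ)]; rfl
  have h3 : ∀ ψ, eL hb τ 1 ψ = eL hb τ (-1) ψ + (2 * I) • jL hb ψ := fun ψ => by
    simp only [eL, LinearMap.add_apply, LinearMap.smul_apply, add_assoc, ← add_smul]
    congr 2; push_cast; ring
  have e1 : R - star R = (-2 * I) • (star R * R) := by
    refine ContinuousLinearMap.ext fun U => ?_
    refine (dense_eL hb τ (σ := 1) (by norm_num)).induction_on U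
      (isClosed_eq (by fun_prop) (by fun_prop)) fun ψ => ?_
    rw [sub_apply, smul_apply, mul_apply_eq_comp, h1, h3, map_add, h2, map_smul]
    module
  have e2 : R - star R = (-2 * I) • (R * star R) := by
    refine ContinuousLinearMap.ext fun U => ?_
    refine (dense_eL hb τ (σ := -1) (by norm_num)).induction_on U
      (isClosed_eq (by fun_prop) (by fun_prop)) fun ψ => ?_
    have := h1 ψ
    rw [h3, map_add, map_smul] at this
    rw [sub_apply, smul_apply, mul_apply_eq_comp, h2]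
    linear_combination (norm := module) this
  refine ⟨⟨?_⟩, e1⟩
  have : (-2 * I : ℂ) ≠ 0 := by simp
  exact smul_right_injective _ this (e1.symm.trans e2)

end Pool.Agent.P.MP_e0a138_an
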