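import Mathlib

set_option autoImplicit false

open MeasureTheory Filter Topology
open scoped ENNReal ContDiff

namespace Pool.Agent.P.MP_e0a138_an.S

/-- The fibre `ℂ⁴` of the complexified exterior algebra, with the orthonormal basis
`1, α = dx, β = dy - a(y) dx, α ∧ β`. -/
def V : Type := EuclideanSpace ℂ (Fin 4)

noncomputable instance instNorm : NormedAddCommGroup V :=
  (inferInstance : NormedAddCommGroup (EuclideanSpace ℂ (Fin 4)))
noncomputable instance instInner : InnerProductSpace ℂ V :=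
  (inferInstance : InnerProductSpace ℂ (EuclideanSpace ℂ (Fin 4)))
noncomputable instance instReal : NormedSpace ℝ V :=
  (inferInstance : NormedSpace ℝ (EuclideanSpace ℂ (Fin 4)))
instance instComplete : CompleteSpace V :=
  (inferInstance : CompleteSpace (EuclideanSpace ℂ (Fin 4)))

/-- The `i`-th component. -/
def co (u : V) (i : Fin 4) : ℂ := WithLp.ofLp u i

/-- The vector with the given components. -/
def vec (u : Fin 4 → ℂ) : V := WithLp.toLp 2 u

/-- Smooth complex differential forms on the torus. -/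
def IsForm (u : ℝ × ℝ → V) : Prop :=
  ContDiff ℝ ∞ u ∧ (∀ x y, u (x + 1, y) = u (x, y)) ∧ ∀ x y, u (x, y + 1) = u (x, y)

/-- The `L²` inner product of forms. -/
noncomputable def ip (u v : ℝ × ℝ → V) : ℂ :=
  ∫ m in Set.Ioc (0 : ℝ) 1 ×ˢ Set.Ioc (0 : ℝ) 1, inner ℂ (u m) (v m)

/-- `d_F + h d_H`; for `h = 1` this is the de Rham differential. -/
noncomputable def dh (a : ℝ → ℝ) (h : ℝ) (u : ℝ × ℝ → V) (m : ℝ × ℝ) : V :=
  vec ![0, fderiv ℝ (fun n => co (u n) 0) m (1, a m.2), h * fderiv ℝ (fun n => co (u n) 0) m (0, 1),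
    fderiv ℝ (fun n => co (u n) 2) m (1, 0) + fderiv ℝ (fun n => a n.2 * co (u n) 2) m (0, 1)
      - h * fderiv ℝ (fun n => co (u n) 1) m (0, 1)]

/-- The expression of `D_F + D_H` in terms of the value `u`, the leafwise derivative `p`,
the transverse derivative `q` and `b = a'`. -/
noncomputable def op (b : ℝ) (u p q : V) : V :=
  vec ![-co p 1 - b * co u 1 - co q 2, co p 0 + co q 3, co q 0 - co p 3,
    co p 2 + b * co u 2 - co q 1]

/-- `D_F + h D_H`. -/
noncomputable def Dh (a : ℝ → ℝ) (h : ℝ) (u : ℝ × ℝ → V) (m : ℝ × ℝ) : V :=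
  op (deriv a m.2) (u m) (fderiv ℝ u m (1, a m.2)) (fderiv ℝ u m (0, h))

/-- `tr f(D_F + h D_H)`: sum of `f` over the eigenvalues, with multiplicity. -/
noncomputable def trM (a : ℝ → ℝ) (h : ℝ) (f : ℝ → ℝ) : ℝ≥0∞ :=
  ∑' μ : ℝ, ENNReal.ofReal (f μ) * (Cardinal.toENat (Module.rank ℂ (Submodule.span ℂ
    {u | IsForm u ∧ ∀ m, Dh a h u m = (μ : ℂ) • u m})) : ℕ∞)

/-- The transverse Jacobian along the leaf. -/
noncomputable def jac (b : ℝ → ℝ) (t : ℝ) : ℝ := Real.exp (∫ s in (0 : ℝ)..t, b s)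

/-- The measure `jac * dt`. -/
noncomputable def leafMeas (b : ℝ → ℝ) : Measure ℝ :=
  volume.withDensity fun t => ENNReal.ofReal (jac b t)

/-- The Hilbert space of square integrable sections on the holonomy cover of a leaf. -/
def L2 (b : ℝ → ℝ) : Type := Lp V 2 (leafMeas b)

noncomputable instance instNormL (b : ℝ → ℝ) : NormedAddCommGroup (L2 b) :=
  (inferInstance : NormedAddCommGroup (Lp V 2 (leafMeas b)))
noncomputable instance instInnerL (b : ℝ → ℝ) : InnerProductSpace ℂ (L2 b) :=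
  (inferInstance : InnerProductSpace ℂ (Lp V 2 (leafMeas b)))
instance instCompleteL (b : ℝ → ℝ) : CompleteSpace (L2 b) :=
  (inferInstance : CompleteSpace (Lp V 2 (leafMeas b)))

open Classical in
/-- The class of a function in `L²`. -/
noncomputable def toL (b : ℝ → ℝ) (g : ℝ → V) : L2 b :=
  if h : MemLp g 2 (leafMeas b) then h.toLp g else 0

/-- `R` is the resolvent `(D + i)⁻¹` of `D = D_{F_N} + σ(D_H)` on the holonomy cover of a leaf. -/
def IsRes (b : ℝ → ℝ) (τ : ℝ) (R : L2 b →L[ℂ] L2 b) : Prop :=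
  ∀ ψ : ℝ → V, ContDiff ℝ ∞ ψ → HasCompactSupport ψ →
    R (toL b fun t => op (b t) (ψ t) (deriv ψ t) ((Complex.I * (τ / jac b t : ℝ)) • ψ t)
      + Complex.I • ψ t) = toL b ψ

/-- `f(D)` for even `f`, from the resolvent `R = (D + i)⁻¹` through `R* R = (1 + D²)⁻¹`. -/
noncomputable def fc {H : Type} [NormedAddCommGroup H] [InnerProductSpace ℂ H] [CompleteSpace H]
    (f : ℝ → ℝ) (R : H →L[ℂ] H) : H →L[ℂ] H :=
  cfc (fun r : ℝ => if 0 < r then f √(r⁻¹ - 1) else 0) (star R * R)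

/-- `R` is normal and satisfies the resolvent identity of `(D + i)⁻¹`, `D` self-adjoint. -/
def IsSA {H : Type} [NormedAddCommGroup H] [InnerProductSpace ℂ H] [CompleteSpace H]
    (R : H →L[ℂ] H) : Prop :=
  IsStarNormal R ∧ R - star R = (-2 * Complex.I) • (star R * R)

/-- Pointwise trace at the base point `t = 0` of the kernel of a positive operator `T`. -/
noncomputable def diag (b : ℝ → ℝ) (T : L2 b →L[ℂ] L2 b) : ℝ≥0∞ :=
  liminf (fun ε : ℝ => ∑ i : Fin 4, ENNReal.ofReal (inner ℂ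
    (toL b ((Set.Icc 0 ε).indicator fun _ => vec (Pi.single i (ε⁻¹ : ℝ))))
    (T (toL b ((Set.Icc 0 ε).indicator fun _ => vec (Pi.single i (ε⁻¹ : ℝ)))))).re)
    (𝓝[>] 0)

end Pool.Agent.P.MP_e0a138_an.S
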