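import Mathlib

set_option autoImplicit false

open scoped ContDiff InnerProductSpace

noncomputable section
namespace Pool.Agent.P.MP_e0a138_an.Wh

variable {E Z : Type} [NormedAddCommGroup E] [NormedSpace ℝ E] [NormedAddCommGroup Z]
  [NormedSpace ℝ Z]

/-- Smooth Cholesky decomposition. -/
theorem chol (n : ℕ) : ∀ (b : Fin n → E) (G : Z → E →ₗ[ℝ] E →ₗ[ℝ] ℝ),
    (∀ u w, ContDiff ℝ ∞ fun z => G z u w) → (∀ z u w, G z u w = G z w u) →
    (∀ z u, ∃ c : Fin n → ℝ, ∀ w, G z u w = G z (∑ j, c j • b j) w) →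
    (∀ z (c : Fin n → ℝ), c ≠ 0 → 0 < G z (∑ j, c j • b j) (∑ j, c j • b j)) →
    ∃ θ : Fin n → Z → E →ₗ[ℝ] ℝ, (∀ j u, ContDiff ℝ ∞ fun z => θ j z u) ∧
      ∀ z u w, G z u w = ∑ j, θ j z u * θ j z w := by
  induction n with
  | zero =>
    intro b G _ _ hsp _
    refine ⟨fun j => j.elim0, fun j => j.elim0, fun z u w => ?_⟩
    obtain ⟨c, hc⟩ := hsp z u
    simp [hc w]
  | succ n ih =>
    intro b G hsm hsy hsp hpos
    have h0 : ∀ z, 0 < G z (b 0) (b 0) := by
      intro z
      have := hpos z (Fin.cons 1 0) (by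
        intro h
        have := congrFun h 0
        simp at this)
      simpa [Fin.sum_univ_succ] using this
    let θ0 : Z → E →ₗ[ℝ] ℝ := fun z => (√(G z (b 0) (b 0)))⁻¹ • G z (b 0)
    have hθ0 : ∀ z u w, θ0 z u * θ0 z w = G z (b 0) u * G z (b 0) w / G z (b 0) (b 0) := by
      intro z u w
      have h1 : √(G z (b 0) (b 0)) * √(G z (b 0) (b 0)) = G z (b 0) (b 0) :=
        Real.mul_self_sqrt (h0 z).le
      have h2 : √(G z (b 0) (b 0)) ≠ 0 := (Real.sqrt_pos.2 (h0 z)).ne'
      simp only [θ0, LinearMap.smul_apply, smul_eq_mul]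
      rw [eq_div_iff (h0 z).ne']
      generalize √(G z (b 0) (b 0)) = r at h1 h2
      rw [← h1]
      field_simp
    have hθ0s : ∀ u, ContDiff ℝ ∞ fun z => θ0 z u := by
      intro u
      simp only [θ0, LinearMap.smul_apply, smul_eq_mul]
      exact (((hsm _ _).sqrt fun z => (h0 z).ne').inv
        fun z => (Real.sqrt_pos.2 (h0 z)).ne').mul (hsm _ _)
    let G' : Z → E →ₗ[ℝ] E →ₗ[ℝ] ℝ := fun z => G z - (θ0 z).smulRight (θ0 z)
    have hG' : ∀ z u w, G' z u w = G z u w - θ0 z u * θ0 z w := by
      intro z u w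
      simp [G']
    obtain ⟨θ, hθs, hθ⟩ := ih (fun j => b j.succ) G'
      (fun u w => by
        simp only [hG']
        exact (hsm u w).sub ((hθ0s u).mul (hθ0s w)))
      (fun z u w => by rw [hG', hG', hsy z u w, mul_comm])
      (fun z u => by
        obtain ⟨c, hc⟩ := hsp z u
        refine ⟨fun j => c j.succ, fun w => ?_⟩
        rw [hG', hG', hθ0, hθ0, hsy z (b 0) u, hc w, hc (b 0), Fin.sum_univ_succ]
        generalize (∑ j : Fin n, c j.succ • b j.succ) = u'
        have := (h0 z).ne'
        simp only [map_add, map_smul, LinearMap.add_apply, LinearMap.smul_apply, smul_eq_mul]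
        rw [hsy z u' (b 0)]
        field_simp
        ring)
      (fun z c hc => by
        have := hpos z (Fin.cons (-(G z (b 0) (∑ j, c j • b j.succ) / G z (b 0) (b 0))) c) (by
          intro h
          apply hc
          funext j
          have := congrFun h j.succ
          simpa using this)
        rw [Fin.sum_univ_succ] at this
        simp only [Fin.cons_zero, Fin.cons_succ] at this
        rw [hG', hθ0]
        generalize (∑ j : Fin n, c j • b j.succ) = u' at this ⊢
        have h1 := (h0 z).ne'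
        simp only [map_add, map_smul, LinearMap.add_apply, LinearMap.smul_apply, smul_eq_mul]
          at this
        rw [hsy z u' (b 0)] at this
        convert this using 1
        field_simp
        ring)
    refine ⟨Fin.cons θ0 θ, fun j u => ?_, fun z u w => ?_⟩
    · refine Fin.cases ?_ (fun j => ?_) j
      · simpa using hθ0s u
      · simpa using hθs j u
    · rw [Fin.sum_univ_succ]
      simp only [Fin.cons_zero, Fin.cons_succ]
      rw [← hθ, hG']
      ring

/-- A smooth family of inner products has a smooth family of isometries onto Euclidean space, with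
smooth inverses. -/
theorem exists_frame [FiniteDimensional ℝ E] (g : Z → E → E → ℝ)
    (hl : ∀ z u, IsLinearMap ℝ (g z u)) (hsy : ∀ z u w, g z u w = g z w u)
    (hpos : ∀ z u, u ≠ 0 → 0 < g z u u) (hsm : ∀ u w, ContDiff ℝ ∞ fun z => g z u w) :
    ∃ (Θ : Z → E →L[ℝ] EuclideanSpace ℝ (Fin (Module.finrank ℝ E)))
      (R : Z → EuclideanSpace ℝ (Fin (Module.finrank ℝ E)) →L[ℝ] E),
      ContDiff ℝ ∞ Θ ∧ ContDiff ℝ ∞ R ∧ (∀ z u w, ⟪Θ z u, Θ z w⟫_ℝ = g z u w) ∧
        ∀ z u, R z (Θ z u) = u := by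
  let G : Z → E →ₗ[ℝ] E →ₗ[ℝ] ℝ := fun z => LinearMap.mk₂ ℝ (g z)
    (fun a b w => by rw [hsy, (hl z w).map_add, hsy z w a, hsy z w b])
    (fun c a w => by rw [hsy, (hl z w).map_smul, hsy z w a])
    (fun u a b => (hl z u).map_add a b) (fun c u a => (hl z u).map_smul c a)
  let b := Module.finBasis ℝ E
  obtain ⟨θ, hθs, hθ⟩ := chol (Module.finrank ℝ E) b G hsm hsy
    (fun z u => ⟨b.repr u, fun w => by rw [b.sum_repr]⟩)
    (fun z c hc => hpos z _ (by
      intro h
      apply hc
      funext j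
      exact Fintype.linearIndependent_iff.1 b.linearIndependent c h j))
  let Θ : Z → E →L[ℝ] EuclideanSpace ℝ (Fin (Module.finrank ℝ E)) := fun z =>
    LinearMap.toContinuousLinearMap
      ((WithLp.linearEquiv 2 ℝ _).symm.toLinearMap ∘ₗ LinearMap.pi fun j => θ j z)
  have hΘ : ∀ z u j, Θ z u j = θ j z u := fun z u j => rfl
  have hin : ∀ z u w, ⟪Θ z u, Θ z w⟫_ℝ = g z u w := by
    intro z u w
    have := hθ z u w
    rw [show g z u w = G z u w from rfl, this, PiLp.inner_apply]
    refine Finset.sum_congr rfl fun j _ => ?_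
    simp [hΘ, mul_comm]
  have hΘs : ContDiff ℝ ∞ Θ := by
    rw [contDiff_clm_apply_iff]
    intro u
    rw [contDiff_euclidean]
    intro j
    exact hθs j u
  have hinv : ∀ z, (Θ z).IsInvertible := by
    intro z
    have hi : Function.Injective (Θ z).toLinearMap := by
      rw [← LinearMap.ker_eq_bot, LinearMap.ker_eq_bot']
      intro u hu
      by_contra h
      have h1 := hpos z u h
      rw [← hin] at h1
      have h2 : Θ z u = 0 := hu
      simp [h2] at h1
    let e := LinearMap.linearEquivOfInjective (Θ z).toLinearMap hi (by simp)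
    exact ⟨e.toContinuousLinearEquiv, by ext u; rfl⟩
  refine ⟨Θ, fun z => (Θ z).inverse, hΘs, ?_, hin, fun z u => ?_⟩
  · rw [contDiff_iff_contDiffAt]
    intro z
    haveI : CompleteSpace E := FiniteDimensional.complete ℝ E
    exact (hinv z).contDiffAt_map_inverse.comp z hΘs.contDiffAt
  · obtain ⟨e, he⟩ := hinv z
    simp [← he]

end Pool.Agent.P.MP_e0a138_an.Wh
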