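import Pool.Agent.P.MP_e0a138_an.Wh1

set_option autoImplicit false

open Set Metric Filter Topology
open scoped ContDiff InnerProductSpace

noncomputable section
namespace Pool.Agent.P.MP_e0a138_an.Wh

/-- A smooth atlas given by parametrisations `c i` on open sets `V i` with inverses `s i`. -/
structure Ch (E X ι : Type) [NormedAddCommGroup E] [NormedSpace ℝ E] [TopologicalSpace X] where
  V : ι → Set E
  c : ι → E → X
  s : ι → X → E
  V_open : ∀ i, IsOpen (V i)
  c_open : ∀ i B, IsOpen B → B ⊆ V i → IsOpen (c i '' B)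
  c_cont : ∀ i, ContinuousOn (c i) (V i)
  cover : ∀ x, ∃ i, ∃ z ∈ V i, c i z = x
  inv : ∀ i, ∀ z ∈ V i, s i (c i z) = z
  sm : ∀ i j, ContDiffOn ℝ ∞ (fun z => s j (c i z)) {z | z ∈ V i ∧ c i z ∈ c j '' V j}

variable {E X ι : Type} [NormedAddCommGroup E] [NormedSpace ℝ E] [TopologicalSpace X]
  {F : Type} [NormedAddCommGroup F] [NormedSpace ℝ F]

namespace Ch
variable (C : Ch E X ι)

theorem O_open (i : ι) : IsOpen (C.c i '' C.V i) := C.c_open i _ (C.V_open i) subset_rfl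

theorem pre_open (i : ι) {O : Set X} (hO : IsOpen O) : IsOpen {z | z ∈ C.V i ∧ C.c i z ∈ O} :=
  (C.c_cont i).isOpen_inter_preimage (C.V_open i) hO

theorem pre_nhds (i : ι) {O : Set X} (hO : IsOpen O) {z : E} (hz : z ∈ C.V i)
    (h : C.c i z ∈ O) : ∀ᶠ y in 𝓝 z, y ∈ C.V i ∧ C.c i y ∈ O :=
  (C.pre_open i hO).mem_nhds ⟨hz, h⟩

theorem s_mem {i : ι} {x : X} (hx : x ∈ C.c i '' C.V i) : C.s i x ∈ C.V i := by
  obtain ⟨z, hz, rfl⟩ := hx
  rwa [C.inv i z hz]

theorem c_s {i : ι} {x : X} (hx : x ∈ C.c i '' C.V i) : C.c i (C.s i x) = x := by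
  obtain ⟨z, hz, rfl⟩ := hx
  rw [C.inv i z hz]

theorem s_cont (i : ι) : ContinuousOn (C.s i) (C.c i '' C.V i) := by
  rw [continuousOn_open_iff (C.O_open i)]
  intro B hB
  have : C.c i '' C.V i ∩ C.s i ⁻¹' B = C.c i '' (C.V i ∩ B) := by
    ext x
    constructor
    · rintro ⟨hx, hx'⟩
      exact ⟨C.s i x, ⟨C.s_mem hx, hx'⟩, C.c_s hx⟩
    · rintro ⟨z, ⟨hz, hz'⟩, rfl⟩
      exact ⟨⟨z, hz, rfl⟩, by simpa [C.inv i z hz] using hz'⟩
  rw [this]
  exact C.c_open i _ ((C.V_open i).inter hB) inter_subset_left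

theorem tr_at (i j : ι) {z : E} (hz : z ∈ C.V i) (h : C.c i z ∈ C.c j '' C.V j) :
    ContDiffAt ℝ ∞ (fun z => C.s j (C.c i z)) z :=
  (C.sm i j).contDiffAt (C.pre_nhds i (C.O_open j) hz h)

/-- Smooth maps out of the manifold. -/
def Sm (f : X → F) : Prop := ∀ i, ContDiffOn ℝ ∞ (fun z => f (C.c i z)) (C.V i)

theorem Sm.at {C : Ch E X ι} {f : X → F} (hf : C.Sm f) (i : ι) {z : E} (hz : z ∈ C.V i) :
    ContDiffAt ℝ ∞ (fun z => f (C.c i z)) z :=
  (hf i).contDiffAt ((C.V_open i).mem_nhds hz)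

theorem Sm.continuous {C : Ch E X ι} {f : X → F} (hf : C.Sm f) : Continuous f := by
  rw [continuous_iff_continuousAt]
  intro x
  obtain ⟨i, z, hz, rfl⟩ := C.cover x
  have hx : C.c i z ∈ C.c i '' C.V i := ⟨z, hz, rfl⟩
  have h1 : ContinuousAt (C.s i) (C.c i z) :=
    (C.s_cont i).continuousAt ((C.O_open i).mem_nhds hx)
  have h2 : ContinuousAt (fun z => f (C.c i z)) (C.s i (C.c i z)) := by
    rw [C.inv i z hz]
    exact (hf.at i hz).continuousAt
  refine (h2.comp h1).congr ?_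
  filter_upwards [(C.O_open i).mem_nhds hx] with y hy
  simp [C.c_s hy]

/-- Chain rule through a change of charts. -/
theorem Sm.chain {C : Ch E X ι} {f : X → F} (hf : C.Sm f) (i j : ι) {z : E} (hz : z ∈ C.V i)
    (h : C.c i z ∈ C.c j '' C.V j) (u : E) :
    fderiv ℝ (fun z => f (C.c i z)) z u =
      fderiv ℝ (fun z => f (C.c j z)) (C.s j (C.c i z))
        (fderiv ℝ (fun z => C.s j (C.c i z)) z u) := by
  have h1 : (fun z => f (C.c i z)) =ᶠ[𝓝 z]
      (fun z => f (C.c j z)) ∘ fun z => C.s j (C.c i z) := by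
    filter_upwards [C.pre_nhds i (C.O_open j) hz h] with y hy
    simp [C.c_s hy.2]
  rw [h1.fderiv_eq, fderiv_comp z ((hf.at j (C.s_mem h)).differentiableAt (by simp))
    ((C.tr_at i j hz h).differentiableAt (by simp))]
  rfl

open Classical in
/-- Extension by zero of a function on a chart. -/
def ext (j : ι) (f : E → F) (x : X) : F := if x ∈ C.c j '' C.V j then f (C.s j x) else 0

theorem ext_of_mem (j : ι) (f : E → F) {x : X} (hx : x ∈ C.c j '' C.V j) :
    C.ext j f x = f (C.s j x) := if_pos hx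

theorem ext_of_not (j : ι) (f : E → F) {x : X} (hx : x ∉ C.c j '' C.V j) :
    C.ext j f x = 0 := if_neg hx

theorem ext_sm [T2Space X] (j : ι) {f : E → F} (hf : ContDiff ℝ ∞ f) {K : Set E}
    (hK : IsCompact K) (hKV : K ⊆ C.V j) (h0 : ∀ z, z ∉ K → f z = 0) : C.Sm (C.ext j f) := by
  intro i z hz
  refine ContDiffAt.contDiffWithinAt ?_
  by_cases h : C.c i z ∈ C.c j '' C.V j
  · refine (hf.contDiffAt.comp z (C.tr_at i j hz h)).congr_of_eventuallyEq ?_
    filter_upwards [C.pre_nhds i (C.O_open j) hz h] with y hy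
    simp [C.ext_of_mem j f hy.2]
  · have hc : IsClosed (C.c j '' K) :=
      (hK.image_of_continuousOn ((C.c_cont j).mono hKV)).isClosed
    have hn : C.c i z ∈ (C.c j '' K)ᶜ := fun h' => h (image_mono hKV h')
    refine (contDiffAt_const (c := (0 : F))).congr_of_eventuallyEq ?_
    filter_upwards [C.pre_nhds i hc.isOpen_compl hz hn] with y hy
    by_cases h' : C.c i y ∈ C.c j '' C.V j
    · rw [C.ext_of_mem j f h']
      exact h0 _ fun hk => hy.2 ⟨_, hk, C.c_s h'⟩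
    · exact C.ext_of_not j f h'

/-- The image of the distribution `S` under an injective smooth map. -/
def dis (S : Submodule ℝ E) (e : X → F) (m : F) : Submodule ℝ F :=
  Submodule.span ℝ {v | ∃ j, ∃ z ∈ C.V j, e (C.c j z) = m ∧
    ∃ w ∈ S, fderiv ℝ (fun z => e (C.c j z)) z w = v}

theorem mem_dis (S : Submodule ℝ E) {e : X → F} (he : C.Sm e) (hi : Function.Injective e)
    (hS : ∀ i j, ∀ z ∈ C.V i, C.c i z ∈ C.c j '' C.V j → ∀ w ∈ S,
      fderiv ℝ (fun z => C.s j (C.c i z)) z w ∈ S)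
    (j : ι) {z : E} (hz : z ∈ C.V j) (v : F) :
    v ∈ C.dis S e (e (C.c j z)) ↔ ∃ w ∈ S, fderiv ℝ (fun z => e (C.c j z)) z w = v := by
  constructor
  · intro hv
    have : C.dis S e (e (C.c j z)) ≤
        S.map (fderiv ℝ (fun z => e (C.c j z)) z).toLinearMap := by
      refine Submodule.span_le.2 ?_
      rintro v ⟨i, y, hy, h, w, hw, rfl⟩
      have h' : C.c i y = C.c j z := hi h
      have hm : C.c i y ∈ C.c j '' C.V j := ⟨z, hz, h'.symm⟩
      refine ⟨_, hS i j y hy hm w hw, ?_⟩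
      rw [he.chain i j hy hm w, h', C.inv j z hz]
      rfl
    exact this hv
  · rintro ⟨w, hw, rfl⟩
    exact Submodule.subset_span ⟨j, z, hz, rfl, w, hw, rfl⟩

theorem exists_cover [CompactSpace X] [FiniteDimensional ℝ E] :
    ∃ (k : ℕ) (idx : Fin k → ι) (z0 : Fin k → E) (δ : Fin k → ℝ), (∀ a, 0 < δ a) ∧
      (∀ a, closedBall (z0 a) (2 * δ a) ⊆ C.V (idx a)) ∧
      ∀ x, ∃ a, x ∈ C.c (idx a) '' ball (z0 a) (δ a / 2) := by
  have h : ∀ x : X, ∃ (i : ι) (z : E) (d : ℝ), 0 < d ∧ closedBall z (2 * d) ⊆ C.V i ∧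
      C.c i z = x := by
    intro x
    obtain ⟨i, z, hz, rfl⟩ := C.cover x
    obtain ⟨r, hr, hb⟩ := Metric.isOpen_iff.1 (C.V_open i) z hz
    exact ⟨i, z, r / 4, by positivity, (closedBall_subset_ball (by linarith)).trans hb, rfl⟩
  choose i z d hd hV hx using h
  obtain ⟨t, ht⟩ := isCompact_univ.elim_finite_subcover
    (fun x : X => C.c (i x) '' ball (z x) (d x / 2))
    (fun x => C.c_open _ _ isOpen_ball
      ((ball_subset_closedBall.trans (closedBall_subset_closedBall (by linarith [hd x]))).trans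
        (hV x)))
    (fun x _ => mem_iUnion.2 ⟨x, z x, mem_ball_self (by linarith [hd x]), hx x⟩)
  let e := t.equivFin.symm
  refine ⟨t.card, fun a => i (e a), fun a => z (e a), fun a => d (e a), fun a => hd _,
    fun a => hV _, fun x => ?_⟩
  obtain ⟨y, hy, hxy⟩ := mem_iUnion₂.1 (ht (mem_univ x))
  exact ⟨e.symm ⟨y, hy⟩, by simpa using hxy⟩

end Ch

end Pool.Agent.P.MP_e0a138_an.Wh
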