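import Pool.Agent.P.MP_e0a138_an.Wh2

set_option autoImplicit false
set_option linter.unusedSectionVars false

open Set Metric Filter Topology
open scoped ContDiff InnerProductSpace

noncomputable section
namespace Pool.Agent.P.MP_e0a138_an.Wh

variable {E X ι : Type} [NormedAddCommGroup E] [NormedSpace ℝ E] [FiniteDimensional ℝ E]
  [TopologicalSpace X]

/-- A finite cover by small balls in charts. -/
structure Fine (C : Ch E X ι) (k : ℕ) where
  idx : Fin k → ι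
  z0 : Fin k → E
  δ : Fin k → ℝ
  pos : ∀ a, 0 < δ a
  sub : ∀ a, closedBall (z0 a) (2 * δ a) ⊆ C.V (idx a)
  cov : ∀ x, ∃ a, x ∈ C.c (idx a) '' ball (z0 a) (δ a / 2)

/-- A positive smooth function equal to `s` for `s ≥ 1`. -/
def eta (s : ℝ) : ℝ := Real.smoothTransition s * s + (1 - Real.smoothTransition s)

theorem eta_pos (s : ℝ) : 0 < eta s := by
  unfold eta
  rcases le_or_gt s 0 with h | h
  · simp [Real.smoothTransition.zero_of_nonpos h]
  · have h0 := Real.smoothTransition.pos_of_pos h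
    have h1 := Real.smoothTransition.le_one s
    have := mul_pos h0 h
    linarith

theorem eta_eq {s : ℝ} (h : 1 ≤ s) : eta s = s := by
  simp [eta, Real.smoothTransition.one_of_one_le h]

theorem eta_sm : ContDiff ℝ ∞ eta :=
  (Real.smoothTransition.contDiff.mul contDiff_id).add
    (contDiff_const.sub Real.smoothTransition.contDiff)

/-- The bump equal to one on the unit ball. -/
def bu (E : Type) [NormedAddCommGroup E] : ContDiffBump (0 : E) := ⟨1, 2, one_pos, one_lt_two⟩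

/-- A smooth map into the ball of radius two which is the identity on the unit ball. -/
def kap (z : E) : E := bu E z • z

theorem kap_sm : ContDiff ℝ ∞ (kap : E → E) := (bu E).contDiff.smul contDiff_id

theorem kap_eq {z : E} (hz : z ∈ ball (0 : E) 1) : kap z = z := by
  rw [kap, (bu E).one_of_mem_closedBall (ball_subset_closedBall hz), one_smul]

theorem kap_norm (z : E) : ‖kap z‖ ≤ 2 := by
  rcases le_or_gt 2 ‖z‖ with h | h
  · rw [kap, (bu E).zero_of_le_dist (by simpa [bu] using h)]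
    simp
  · rw [kap, norm_smul, Real.norm_eq_abs, abs_of_nonneg (bu E).nonneg]
    have h0 : 0 ≤ bu E z := (bu E).nonneg
    have h1 : bu E z ≤ 1 := (bu E).le_one
    nlinarith [norm_nonneg z]

namespace Fine
variable {C : Ch E X ι} {k : ℕ} (D : Fine C k)

/-- Inner bump. -/
def b0 (a : Fin k) : ContDiffBump (D.z0 a) :=
  ⟨D.δ a / 2, 3 * D.δ a / 4, by linarith [D.pos a], by linarith [D.pos a]⟩

/-- Outer bump. -/
def b1 (a : Fin k) : ContDiffBump (D.z0 a) :=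
  ⟨D.δ a, 2 * D.δ a, D.pos a, by linarith [D.pos a]⟩

/-- The embedding. -/
def e (x : X) : Fin k → ℝ × E :=
  fun a => C.ext (D.idx a) (fun z => (D.b0 a z, D.b1 a z • z)) x

theorem e_sm [T2Space X] : C.Sm D.e := by
  intro i
  rw [contDiffOn_pi]
  intro a
  refine C.ext_sm (D.idx a) ((D.b0 a).contDiff.prodMk ((D.b1 a).contDiff.smul contDiff_id))
    (isCompact_closedBall _ _) (D.sub a) (fun z hz => ?_) i
  have h : 2 * D.δ a < dist z (D.z0 a) := by simpa using hz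
  have h0 : D.b0 a z = 0 := (D.b0 a).zero_of_le_dist (by
    have := D.pos a
    show 3 * D.δ a / 4 ≤ _
    linarith)
  have h1 : D.b1 a z = 0 := (D.b1 a).zero_of_le_dist h.le
  simp [h0, h1]

theorem e_snd (a : Fin k) {x : X} (hx : x ∈ C.c (D.idx a) '' C.V (D.idx a))
    (h : C.s (D.idx a) x ∈ closedBall (D.z0 a) (D.δ a)) : (D.e x a).2 = C.s (D.idx a) x := by
  simp only [e, C.ext_of_mem _ _ hx]
  rw [(D.b1 a).one_of_mem_closedBall h, one_smul]

theorem e_fst_ne (a : Fin k) {x : X} (h : (D.e x a).1 ≠ 0) :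
    x ∈ C.c (D.idx a) '' C.V (D.idx a) ∧ C.s (D.idx a) x ∈ ball (D.z0 a) (3 * D.δ a / 4) := by
  by_cases hx : x ∈ C.c (D.idx a) '' C.V (D.idx a)
  · refine ⟨hx, ?_⟩
    simp only [e, C.ext_of_mem _ _ hx] at h
    have : C.s (D.idx a) x ∈ Function.support (D.b0 a) := h
    rwa [(D.b0 a).support_eq] at this
  · simp [e, C.ext_of_not _ _ hx] at h

theorem ball_sub (a : Fin k) {r : ℝ} (hr : r ≤ 2 * D.δ a) : ball (D.z0 a) r ⊆ C.V (D.idx a) :=
  (ball_subset_closedBall.trans (closedBall_subset_closedBall hr)).trans (D.sub a)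

theorem e_fst_one (x : X) : ∃ a, (D.e x a).1 = 1 := by
  obtain ⟨a, z, hz, rfl⟩ := D.cov x
  have hV : z ∈ C.V (D.idx a) := D.ball_sub a (by linarith [D.pos a]) hz
  refine ⟨a, ?_⟩
  simp only [e, C.ext_of_mem _ _ ⟨z, hV, rfl⟩, C.inv _ z hV]
  exact (D.b0 a).one_of_mem_closedBall (ball_subset_closedBall hz)

theorem mid (a : Fin k) : ball (D.z0 a) (3 * D.δ a / 4) ⊆ closedBall (D.z0 a) (D.δ a) :=
  ball_subset_closedBall.trans (closedBall_subset_closedBall (by linarith [D.pos a]))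

theorem e_inj : Function.Injective D.e := by
  intro x y h
  obtain ⟨a, ha⟩ := D.e_fst_one x
  obtain ⟨hx, hx'⟩ := D.e_fst_ne a (x := x) (by rw [ha]; exact one_ne_zero)
  obtain ⟨hy, hy'⟩ := D.e_fst_ne a (x := y) (by rw [← h, ha]; exact one_ne_zero)
  rw [← C.c_s hx, ← C.c_s hy, ← D.e_snd a hx (D.mid a hx'), ← D.e_snd a hy (D.mid a hy'), h]

/-- The rescaled point. -/
def pt (a : Fin k) (z : E) : E := D.z0 a + D.δ a • kap z

theorem pt_sm (a : Fin k) : ContDiff ℝ ∞ (D.pt a) :=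
  contDiff_const.add (kap_sm.const_smul _)

theorem pt_mem (a : Fin k) (z : E) : D.pt a z ∈ C.V (D.idx a) := by
  apply D.sub a
  rw [mem_closedBall_iff_norm, pt, add_sub_cancel_left, norm_smul, Real.norm_eq_abs,
    abs_of_pos (D.pos a)]
  nlinarith [kap_norm z, D.pos a]

theorem pt_eq (a : Fin k) {z : E} (hz : z ∈ ball (0 : E) 1) :
    D.pt a z = D.z0 a + D.δ a • z := by rw [pt, kap_eq hz]

theorem pt_ball (a : Fin k) {z : E} (hz : z ∈ ball (0 : E) 1) :
    D.pt a z ∈ ball (D.z0 a) (D.δ a) := by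
  rw [D.pt_eq a hz, mem_ball_iff_norm, add_sub_cancel_left, norm_smul, Real.norm_eq_abs,
    abs_of_pos (D.pos a)]
  have : ‖z‖ < 1 := by simpa using hz
  nlinarith [D.pos a]

theorem pt_der (a : Fin k) {z : E} (hz : z ∈ ball (0 : E) 1) (w : E) :
    fderiv ℝ (D.pt a) z w = D.δ a • w := by
  have h : D.pt a =ᶠ[𝓝 z] fun y => D.z0 a + D.δ a • y := by
    filter_upwards [isOpen_ball.mem_nhds hz] with y hy using D.pt_eq a hy
  have h2 : HasFDerivAt (fun y : E => D.z0 a + D.δ a • y)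
      (D.δ a • ContinuousLinearMap.id ℝ E) z :=
    ((hasFDerivAt_id z).const_smul (D.δ a)).const_add _
  rw [h.fderiv_eq, h2.fderiv]
  rfl

/-- The parametrisations. -/
def ψ (a : Fin k) (z : E) : Fin k → ℝ × E := D.e (C.c (D.idx a) (D.pt a z))

theorem ψ_sm [T2Space X] (a : Fin k) : ContDiff ℝ ∞ (D.ψ a) :=
  (D.e_sm (D.idx a)).comp_contDiff (D.pt_sm a) (D.pt_mem a)

theorem ψ_der [T2Space X] (a : Fin k) {z : E} (hz : z ∈ ball (0 : E) 1) (w : E) :
    fderiv ℝ (D.ψ a) z w =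
      fderiv ℝ (fun y => D.e (C.c (D.idx a) y)) (D.pt a z) (D.δ a • w) := by
  have : D.ψ a = (fun y => D.e (C.c (D.idx a) y)) ∘ D.pt a := rfl
  rw [this, fderiv_comp z ((D.e_sm.at _ (D.pt_mem a z)).differentiableAt (by simp))
    ((D.pt_sm a).differentiable (by simp) z), ContinuousLinearMap.comp_apply, D.pt_der a hz]

/-- The projection onto the chart coordinate. -/
def P (E : Type) [NormedAddCommGroup E] [NormedSpace ℝ E] {k : ℕ} (a : Fin k) :
    (Fin k → ℝ × E) →L[ℝ] E :=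
  (ContinuousLinearMap.snd ℝ ℝ E).comp (ContinuousLinearMap.proj a)

theorem P_apply (a : Fin k) (m : Fin k → ℝ × E) : P E a m = (m a).2 := rfl

/-- The inverse charts. -/
def φ (a : Fin k) (m : Fin k → ℝ × E) : E := (D.δ a)⁻¹ • (P E a m - D.z0 a)

theorem φ_sm (a : Fin k) : ContDiff ℝ ∞ (D.φ a) :=
  ((P E a).contDiff.sub contDiff_const).const_smul _

theorem φ_ψ (a : Fin k) {z : E} (hz : z ∈ ball (0 : E) 1) : D.φ a (D.ψ a z) = z := by
  have h := C.inv _ _ (D.pt_mem a z)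
  rw [φ, P_apply, ψ, D.e_snd a ⟨_, D.pt_mem a z, rfl⟩ (by
    rw [h]; exact ball_subset_closedBall (D.pt_ball a hz)), h, D.pt_eq a hz,
    add_sub_cancel_left, inv_smul_smul₀ (D.pos a).ne']

theorem pt_sur (a : Fin k) {y : E} {r : ℝ} (hr : r ≤ 1) (hy : y ∈ ball (D.z0 a) (r * D.δ a)) :
    (D.δ a)⁻¹ • (y - D.z0 a) ∈ ball (0 : E) r ∧ D.pt a ((D.δ a)⁻¹ • (y - D.z0 a)) = y := by
  have h : (D.δ a)⁻¹ • (y - D.z0 a) ∈ ball (0 : E) r := by
    rw [mem_ball_zero_iff, norm_smul, norm_inv, Real.norm_eq_abs, abs_of_pos (D.pos a),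
      inv_mul_lt_iff₀ (D.pos a), mul_comm]
    exact mem_ball_iff_norm.1 hy
  refine ⟨h, ?_⟩
  rw [D.pt_eq a (ball_subset_ball hr h), smul_inv_smul₀ (D.pos a).ne', add_sub_cancel]

theorem exists_U [T2Space X] [CompactSpace X] (a : Fin k) :
    ∃ U, IsOpen U ∧ D.ψ a '' ball 0 1 = range D.e ∩ U := by
  have hE := D.e_sm.continuous.isClosedEmbedding D.e_inj
  obtain ⟨U, hU, h⟩ := hE.isInducing.isOpen_iff.1
    (C.c_open (D.idx a) _ isOpen_ball (D.ball_sub a (r := D.δ a) (by linarith [D.pos a])))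
  refine ⟨U, hU, ?_⟩
  ext m
  constructor
  · rintro ⟨z, hz, rfl⟩
    refine ⟨⟨_, rfl⟩, ?_⟩
    have : C.c (D.idx a) (D.pt a z) ∈ D.e ⁻¹' U := by
      rw [h]
      exact ⟨_, D.pt_ball a hz, rfl⟩
    exact this
  · rintro ⟨⟨x, rfl⟩, hx⟩
    have : x ∈ D.e ⁻¹' U := hx
    rw [h] at this
    obtain ⟨y, hy, rfl⟩ := this
    obtain ⟨h1, h2⟩ := D.pt_sur a le_rfl (y := y) (by rwa [one_mul])
    exact ⟨_, h1, by rw [ψ, h2]⟩

/-- The partition of unity by squares. -/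
def χ (a : Fin k) (m : Fin k → ℝ × E) : ℝ := (m a).1 * (√(eta (∑ b, (m b).1 ^ 2)))⁻¹

theorem χ_sm (a : Fin k) : ContDiff ℝ ∞ (χ (E := E) a) := by
  have h : ∀ b : Fin k, ContDiff ℝ ∞ fun m : Fin k → ℝ × E => (m b).1 :=
    fun b => (contDiff_apply ℝ _ b).fst
  exact (h a).mul (((eta_sm.comp (ContDiff.sum fun b _ => (h b).pow 2)).sqrt
    fun m => (eta_pos _).ne').inv fun m => (Real.sqrt_pos.2 (eta_pos _)).ne')

theorem χ_sum (x : X) : ∑ a, χ a (D.e x) ^ 2 = 1 := by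
  obtain ⟨a, ha⟩ := D.e_fst_one x
  have h : 1 ≤ ∑ b, (D.e x b).1 ^ 2 := by
    have := Finset.single_le_sum (f := fun b => (D.e x b).1 ^ 2) (fun b _ => sq_nonneg _)
      (Finset.mem_univ a)
    simpa [ha] using this
  simp only [χ, mul_pow, ← Finset.sum_mul, eta_eq h, inv_pow]
  rw [Real.sq_sqrt (by linarith), mul_inv_cancel₀ (by linarith)]

theorem χ_ne (a : Fin k) {x : X} (h : χ a (D.e x) ≠ 0) :
    x ∈ C.c (D.idx a) '' C.V (D.idx a) ∧ C.s (D.idx a) x ∈ ball (D.z0 a) (3 * D.δ a / 4) ∧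
      D.φ a (D.e x) ∈ ball (0 : E) (3 / 4) ∧ D.pt a (D.φ a (D.e x)) = C.s (D.idx a) x := by
  obtain ⟨h1, h2⟩ := D.e_fst_ne a (left_ne_zero_of_mul h)
  refine ⟨h1, h2, ?_⟩
  rw [φ, P_apply, D.e_snd a h1 (D.mid a h2)]
  exact D.pt_sur a (by norm_num) (by convert h2 using 2; ring)

theorem χ_supp (a : Fin k) (x : X) (h : D.e x ∉ D.ψ a '' closedBall 0 (3 / 4)) :
    χ a (D.e x) = 0 := by
  by_contra h'
  obtain ⟨h1, _, h3, h4⟩ := D.χ_ne a h'
  exact h ⟨_, ball_subset_closedBall h3, by rw [ψ, h4, C.c_s h1]⟩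

theorem P_der [T2Space X] (a : Fin k) (j : ι) {z : E} (hz : z ∈ C.V j)
    (h : χ a (D.e (C.c j z)) ≠ 0) (u : E) :
    P E a (fderiv ℝ (fun y => D.e (C.c j y)) z u) =
      fderiv ℝ (fun y => C.s (D.idx a) (C.c j y)) z u := by
  obtain ⟨h1, h2, -, -⟩ := D.χ_ne a h
  have hB : ball (D.z0 a) (3 * D.δ a / 4) ⊆ C.V (D.idx a) :=
    D.ball_sub a (by linarith [D.pos a])
  have h3 : (fun y => C.s (D.idx a) (C.c j y)) =ᶠ[𝓝 z]
      (P E a) ∘ fun y => D.e (C.c j y) := by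
    filter_upwards [C.pre_nhds j (C.c_open (D.idx a) _ isOpen_ball hB) hz ⟨_, h2, C.c_s h1⟩]
      with y hy
    obtain ⟨t, ht, hty⟩ := hy.2
    rw [Function.comp_apply, P_apply, D.e_snd a ⟨t, hB ht, hty⟩
      (by rw [← hty, C.inv _ t (hB ht)]; exact D.mid a ht)]
  rw [h3.fderiv_eq, fderiv_comp z (P E a).differentiableAt
    ((D.e_sm.at j hz).differentiableAt (by simp)), (P E a).fderiv]
  rfl

theorem ψ_back [T2Space X] (a : Fin k) (j : ι) {z : E} (hz : z ∈ C.V j)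
    (h : χ a (D.e (C.c j z)) ≠ 0) (u : E) :
    fderiv ℝ (D.ψ a) (D.φ a (D.e (C.c j z)))
      ((D.δ a)⁻¹ • P E a (fderiv ℝ (fun y => D.e (C.c j y)) z u)) =
      fderiv ℝ (fun y => D.e (C.c j y)) z u := by
  obtain ⟨h1, -, h3, h4⟩ := D.χ_ne a h
  rw [D.ψ_der a (ball_subset_ball (by norm_num) h3), smul_inv_smul₀ (D.pos a).ne', h4,
    D.P_der a j hz h, ← D.e_sm.chain j _ hz h1]

end Fine

end Pool.Agent.P.MP_e0a138_an.Wh
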