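import Pool.Agent.P.MP_e0a138_an.Wh3
import Pool.Agent.P.MP_e0a138_an.ADefs

set_option autoImplicit false
set_option linter.unusedSectionVars false

open Set Metric Filter Topology
open scoped ContDiff InnerProductSpace

noncomputable section
namespace Pool.Agent.P.MP_e0a138_an.Wh
open AD

section
variable {E X ι : Type} [NormedAddCommGroup E] [NormedSpace ℝ E] [FiniteDimensional ℝ E]
  [TopologicalSpace X] [T2Space X]

/-- An isometric bundle map of the tangent bundle into a trivial bundle, with a left inverse. -/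
theorem Fine.exists_LR {C : Ch E X ι} {k : ℕ} (D : Fine C k) (g : ι → E → E → E → ℝ)
    (hl : ∀ i, ∀ z ∈ C.V i, ∀ u, IsLinearMap ℝ (g i z u))
    (hsy : ∀ i, ∀ z ∈ C.V i, ∀ u w, g i z u w = g i z w u)
    (hpos : ∀ i, ∀ z ∈ C.V i, ∀ u, u ≠ 0 → 0 < g i z u u)
    (hsm : ∀ i u w, ContDiffOn ℝ ∞ (fun z => g i z u w) (C.V i))
    (htr : ∀ i j, ∀ z ∈ C.V i, C.c i z ∈ C.c j '' C.V j → ∀ u w, g i z u w =
      g j (C.s j (C.c i z)) (fderiv ℝ (fun z => C.s j (C.c i z)) z u)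
        (fderiv ℝ (fun z => C.s j (C.c i z)) z w)) :
    ∃ (L : (Fin k → ℝ × E) → (Fin k → ℝ × E) →L[ℝ]
        PiLp 2 fun _ : Fin k => EuclideanSpace ℝ (Fin (Module.finrank ℝ E)))
      (R : (Fin k → ℝ × E) → (PiLp 2 fun _ : Fin k =>
        EuclideanSpace ℝ (Fin (Module.finrank ℝ E))) →L[ℝ] (Fin k → ℝ × E)),
      ContDiff ℝ ∞ L ∧ ContDiff ℝ ∞ R ∧ ∀ j, ∀ z ∈ C.V j,
        (∀ u, R (D.e (C.c j z)) (L (D.e (C.c j z)) (fderiv ℝ (fun y => D.e (C.c j y)) z u)) =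
          fderiv ℝ (fun y => D.e (C.c j y)) z u) ∧
        ∀ u w, ⟪L (D.e (C.c j z)) (fderiv ℝ (fun y => D.e (C.c j y)) z u),
          L (D.e (C.c j z)) (fderiv ℝ (fun y => D.e (C.c j y)) z w)⟫_ℝ = g j z u w := by
  have h : ∀ a : Fin k, _ := fun a => exists_frame (fun z => g (D.idx a) (D.pt a z))
    (fun z => hl _ _ (D.pt_mem a z)) (fun z => hsy _ _ (D.pt_mem a z))
    (fun z => hpos _ _ (D.pt_mem a z))
    (fun u w => (hsm _ u w).comp_contDiff (D.pt_sm a) (D.pt_mem a))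
  choose Θ Q hΘ hQ hin hQΘ using h
  let L : (Fin k → ℝ × E) → (Fin k → ℝ × E) →L[ℝ]
      PiLp 2 fun _ : Fin k => EuclideanSpace ℝ (Fin (Module.finrank ℝ E)) := fun m =>
    (PiLp.continuousLinearEquiv 2 ℝ _).symm.toContinuousLinearMap.comp
      (ContinuousLinearMap.pi fun a => Fine.χ a m • (Θ a (D.φ a m)).comp (Fine.P E a))
  have hL : ∀ m v a, L m v a = Fine.χ a m • Θ a (D.φ a m) (Fine.P E a v) := fun _ _ _ => rfl
  let R : (Fin k → ℝ × E) → (PiLp 2 fun _ : Fin k =>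
      EuclideanSpace ℝ (Fin (Module.finrank ℝ E))) →L[ℝ] (Fin k → ℝ × E) := fun m =>
    ∑ a, Fine.χ a m • (fderiv ℝ (D.ψ a) (D.φ a m)).comp
      (((D.δ a)⁻¹ • Q a (D.φ a m)).comp (PiLp.proj 2 _ a))
  have hR : ∀ m y, R m y = ∑ a, Fine.χ a m • fderiv ℝ (D.ψ a) (D.φ a m)
      ((D.δ a)⁻¹ • Q a (D.φ a m) (y a)) := by
    intro m y
    simp [R]
  refine ⟨L, R, ?_, ?_, fun j z hz => ⟨fun u => ?_, fun u w => ?_⟩⟩
  · rw [contDiff_clm_apply_iff]
    intro v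
    rw [contDiff_piLp]
    intro a
    simp only [hL]
    exact (Fine.χ_sm a).smul (((hΘ a).comp (D.φ_sm a)).clm_apply contDiff_const)
  · rw [contDiff_clm_apply_iff]
    intro y
    simp only [hR]
    refine ContDiff.sum fun a _ => (Fine.χ_sm a).smul ?_
    exact ((((D.ψ_sm a).fderiv_right (m := ∞) (by simp)).comp (D.φ_sm a)).clm_apply
      ((((hQ a).comp (D.φ_sm a)).clm_apply contDiff_const).const_smul _))
  · rw [hR]
    have : ∀ a, Fine.χ a (D.e (C.c j z)) • fderiv ℝ (D.ψ a) (D.φ a (D.e (C.c j z)))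
        ((D.δ a)⁻¹ • Q a (D.φ a (D.e (C.c j z)))
          (L (D.e (C.c j z)) (fderiv ℝ (fun y => D.e (C.c j y)) z u) a)) =
        Fine.χ a (D.e (C.c j z)) ^ 2 • fderiv ℝ (fun y => D.e (C.c j y)) z u := by
      intro a
      by_cases h : Fine.χ a (D.e (C.c j z)) = 0
      · simp [h]
      · rw [hL, map_smul (Q a _), hQΘ, smul_comm (D.δ a)⁻¹, map_smul (fderiv ℝ (D.ψ a) _),
          D.ψ_back a j hz h, smul_smul, sq]
    simp only [this, ← Finset.sum_smul, D.χ_sum, one_smul]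
  · rw [PiLp.inner_apply]
    have : ∀ a, ⟪L (D.e (C.c j z)) (fderiv ℝ (fun y => D.e (C.c j y)) z u) a,
        L (D.e (C.c j z)) (fderiv ℝ (fun y => D.e (C.c j y)) z w) a⟫_ℝ =
        Fine.χ a (D.e (C.c j z)) ^ 2 * g j z u w := by
      intro a
      by_cases h : Fine.χ a (D.e (C.c j z)) = 0
      · simp [hL, h]
      · obtain ⟨h1, -, -, h4⟩ := D.χ_ne a h
        rw [hL, hL, real_inner_smul_left, real_inner_smul_right, hin, h4, D.P_der a j hz h,
          D.P_der a j hz h, ← htr j _ z hz h1]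
        ring
    simp only [this, ← Finset.sum_mul, D.χ_sum, one_mul]

end

theorem exists_Phi (Y W : Type) [NormedAddCommGroup Y] [NormedSpace ℝ Y] [FiniteDimensional ℝ Y]
    [NormedAddCommGroup W] [InnerProductSpace ℝ W] [FiniteDimensional ℝ W] :
    ∃ (N : ℕ) (Φ : (Y × W) ≃L[ℝ] Eu N), ∀ w w', ⟪Φ (0, w), Φ (0, w')⟫_ℝ = ⟪w, w'⟫_ℝ := by
  let H := WithLp 2 (EuclideanSpace ℝ (Fin (Module.finrank ℝ Y)) × W)
  let b : H ≃ₗᵢ[ℝ] Eu (Module.finrank ℝ H) := (stdOrthonormalBasis ℝ H).repr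
  let a : (Y × W) ≃L[ℝ] H := ((toEuclidean (E := Y)).prodCongr (ContinuousLinearEquiv.refl ℝ W)).trans
    (WithLp.prodContinuousLinearEquiv 2 ℝ _ _).symm
  refine ⟨_, a.trans b.toContinuousLinearEquiv, fun w w' => ?_⟩
  show ⟪b (a (0, w)), b (a (0, w'))⟫_ℝ = _
  rw [b.inner_map_map]
  simp [a, H, WithLp.prod_inner_apply]

/-- The shear built from `L` and `R`. -/
def shear {Y W : Type} [NormedAddCommGroup Y] [NormedSpace ℝ Y] [NormedAddCommGroup W]
    [NormedSpace ℝ W] (L : Y →L[ℝ] W) (R : W →L[ℝ] Y) (v : Y × W) : Y × W :=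
  (v.1 - R (v.2 + L v.1), v.2 + L v.1)

theorem assemble {p q k : ℕ} {Y W : Type} [NormedAddCommGroup Y] [NormedSpace ℝ Y]
    [FiniteDimensional ℝ Y] [NormedAddCommGroup W] [InnerProductSpace ℝ W] [FiniteDimensional ℝ W]
    (M : Set Y) (T F : Y → Submodule ℝ Y) (U : Fin k → Set Y) (ψ : Fin k → Eu p × Eu q → Y)
    (φ : Fin k → Y → Eu p × Eu q) (χ : Fin k → Y → ℝ) (L : Y → Y →L[ℝ] W) (R : Y → W →L[ℝ] Y)
    (hL : ContDiff ℝ ∞ L) (hR : ContDiff ℝ ∞ R) (hU : ∀ i, IsOpen (U i))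
    (hψ : ∀ i, ContDiff ℝ ∞ (ψ i)) (hφ : ∀ i, ContDiff ℝ ∞ (φ i)) (hχ : ∀ i, ContDiff ℝ ∞ (χ i))
    (him : ∀ i, ψ i '' ball 0 1 = M ∩ U i)
    (hinv : ∀ i, ∀ z ∈ ball (0 : Eu p × Eu q) 1, φ i (ψ i z) = z)
    (hT : ∀ i, ∀ z ∈ ball (0 : Eu p × Eu q) 1, ∀ v,
      v ∈ T (ψ i z) ↔ ∃ w, fderiv ℝ (ψ i) z w = v)
    (hF : ∀ i, ∀ z ∈ ball (0 : Eu p × Eu q) 1, ∀ v,
      v ∈ F (ψ i z) ↔ ∃ x, fderiv ℝ (ψ i) z (x, 0) = v)
    (hs : ∀ i, ∃ r < 1, ∀ m ∈ M, m ∉ ψ i '' closedBall 0 r → χ i m = 0)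
    (hsum : ∀ m ∈ M, ∑ i, χ i m ^ 2 = 1) :
    ∃ (N : ℕ) (A : Atl N p q k) (j : Y →L[ℝ] Eu N), Function.Injective j ∧ A.M = j '' M ∧
      (∀ m v w, R m (L m v) = v → R m (L m w) = w →
        ⟪A.J (j m) (j v), A.J (j m) (j w)⟫_ℝ = ⟪L m v, L m w⟫_ℝ) ∧
      (∀ m v, v ∈ A.T (j m) ↔ ∃ t ∈ T m, A.J (j m) (j t) = v) ∧
      ∀ m v, v ∈ A.F (j m) ↔ ∃ t ∈ F m, A.J (j m) (j t) = v := by
  obtain ⟨N, Φ, hΦ⟩ := exists_Phi Y W
  let j : Y →L[ℝ] Eu N := Φ.toContinuousLinearMap.comp (ContinuousLinearMap.inl ℝ Y W)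
  let r : Eu N →L[ℝ] Y := (ContinuousLinearMap.fst ℝ Y W).comp Φ.symm.toContinuousLinearMap
  have hj : ∀ y, j y = Φ (y, 0) := fun _ => rfl
  have hrj : ∀ y, r (j y) = y := by
    intro y
    simp [r, hj]
  have hji : Function.Injective j := Function.LeftInverse.injective hrj
  let J : Eu N → Eu N → Eu N := fun m v => Φ (shear (L (r m)) (R (r m)) (Φ.symm v))
  have hJ : ∀ m, IsLinearMap ℝ (J m) := by
    intro m
    constructor
    · intro x y
      simp only [J, ← map_add Φ]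
      congr 1
      ext
      · simp [shear]
        abel
      · simp [shear]
        abel
    · intro c x
      simp only [J, ← map_smul Φ]
      congr 1
      ext
      · simp [shear, smul_sub, smul_add]
      · simp [shear, smul_add]
  have hder : ∀ i z w, fderiv ℝ (fun z => j (ψ i z)) z w = j (fderiv ℝ (ψ i) z w) := by
    intro i z w
    have : (fun z => j (ψ i z)) = j ∘ ψ i := rfl
    rw [this, fderiv_comp z j.differentiableAt ((hψ i).differentiable (by simp) z), j.fderiv]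
    rfl
  have hmap : ∀ (S : Y → Submodule ℝ Y) m v,
      v ∈ (S (r (j m))).map ((hJ (j m)).mk' _ ∘ₗ j.toLinearMap) ↔
        ∃ t ∈ S m, J (j m) (j t) = v := by
    intro S m v
    rw [hrj]
    rfl
  let A : Atl N p q k :=
    { M := j '' M
      J := J
      T := fun m => (T (r m)).map ((hJ m).mk' _ ∘ₗ j.toLinearMap)
      F := fun m => (F (r m)).map ((hJ m).mk' _ ∘ₗ j.toLinearMap)
      U := fun i => r ⁻¹' U i
      ψ := fun i z => j (ψ i z)
      φ := fun i m => φ i (r m)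
      χ := fun i m => χ i (r m)
      J_lin := hJ
      J_smooth := fun v => by
        have h1 : ContDiff ℝ ∞ fun m => (Φ.symm v).2 + L (r m) (Φ.symm v).1 :=
          contDiff_const.add ((hL.comp r.contDiff).clm_apply contDiff_const)
        exact Φ.contDiff.comp
          ((contDiff_const.sub ((hR.comp r.contDiff).clm_apply h1)).prodMk h1)
      J_inj := fun m x y h => by
        have h1 := Φ.injective h
        have h2 := congrArg Prod.snd h1
        have h3 := congrArg Prod.fst h1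
        simp only [shear] at h2 h3
        rw [h2] at h3
        have h4 := sub_left_injective h3
        rw [h4] at h2
        exact Φ.symm.injective (Prod.ext h4 (add_right_cancel h2))
      U_open := fun i => (hU i).preimage r.continuous
      ψ_smooth := fun i => j.contDiff.comp (hψ i)
      φ_smooth := fun i => (hφ i).comp r.contDiff
      χ_smooth := fun i => (hχ i).comp r.contDiff
      image := fun i => by
        rw [← image_image j (ψ i), him i]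
        ext m
        constructor
        · rintro ⟨y, hy, rfl⟩
          exact ⟨⟨y, hy.1, rfl⟩, by simpa [hrj] using hy.2⟩
        · rintro ⟨⟨y, hy, rfl⟩, h⟩
          exact ⟨y, ⟨hy, by simpa [hrj] using h⟩, rfl⟩
      left_inv := fun i z hz => by rw [hrj, hinv i z hz]
      T_eq := fun i z hz v => by
        rw [hmap T]
        simp only [hT i z hz, hder]
        constructor
        · rintro ⟨_, ⟨w, rfl⟩, h⟩
          exact ⟨w, h⟩
        · rintro ⟨w, h⟩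
          exact ⟨_, ⟨w, rfl⟩, h⟩
      F_eq := fun i z hz v => by
        rw [hmap F]
        simp only [hF i z hz, hder]
        constructor
        · rintro ⟨_, ⟨w, rfl⟩, h⟩
          exact ⟨w, h⟩
        · rintro ⟨w, h⟩
          exact ⟨_, ⟨w, rfl⟩, h⟩
      χ_supp := fun i => by
        obtain ⟨ρ, hρ, h⟩ := hs i
        refine ⟨ρ, hρ, ?_⟩
        rintro _ ⟨y, hy, rfl⟩ hn
        rw [hrj]
        refine h y hy ?_
        rintro ⟨z, hz, rfl⟩
        exact hn ⟨z, hz, rfl⟩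
      χ_sum := by
        rintro _ ⟨y, hy, rfl⟩
        simp only [hrj]
        exact hsum y hy }
  refine ⟨N, A, j, hji, rfl, fun m v w hv hw => ?_, hmap T, hmap F⟩
  have h : ∀ v, R m (L m v) = v → J (j m) (j v) = Φ (0, L m v) := by
    intro v hv
    simp only [J, hrj]
    simp [hj, shear, hv]
  show ⟪J (j m) (j v), J (j m) (j w)⟫_ℝ = _
  rw [h v hv, h w hw, hΦ]

theorem embed {p q : ℕ} {X ι : Type} [TopologicalSpace X] [T2Space X] [CompactSpace X]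
    (C : Ch (Eu p × Eu q) X ι) (g : ι → Eu p × Eu q → Eu p × Eu q → Eu p × Eu q → ℝ)
    (hfol : ∀ i j, ∀ z ∈ C.V i, C.c i z ∈ C.c j '' C.V j → ∀ x,
      (fderiv ℝ (fun z => C.s j (C.c i z)) z (x, 0)).2 = 0)
    (hl : ∀ i, ∀ z ∈ C.V i, ∀ u, IsLinearMap ℝ (g i z u))
    (hsy : ∀ i, ∀ z ∈ C.V i, ∀ u w, g i z u w = g i z w u)
    (hpos : ∀ i, ∀ z ∈ C.V i, ∀ u, u ≠ 0 → 0 < g i z u u)
    (hsm : ∀ i u w, ContDiffOn ℝ ∞ (fun z => g i z u w) (C.V i))
    (htr : ∀ i j, ∀ z ∈ C.V i, C.c i z ∈ C.c j '' C.V j → ∀ u w, g i z u w =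
      g j (C.s j (C.c i z)) (fderiv ℝ (fun z => C.s j (C.c i z)) z u)
        (fderiv ℝ (fun z => C.s j (C.c i z)) z w)) :
    ∃ (N k : ℕ) (A : Atl N p q k) (e : X → Eu N), Continuous e ∧ Function.Injective e ∧
      Set.range e = A.M ∧ ∀ i, ContDiffOn ℝ ∞ (fun z => e (C.c i z)) (C.V i) ∧ ∀ z ∈ C.V i,
        (∀ u w, ⟪A.J (e (C.c i z)) (fderiv ℝ (fun z => e (C.c i z)) z u),
          A.J (e (C.c i z)) (fderiv ℝ (fun z => e (C.c i z)) z w)⟫_ℝ = g i z u w) ∧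
        (∀ v, v ∈ A.T (e (C.c i z)) ↔
          ∃ w, A.J (e (C.c i z)) (fderiv ℝ (fun z => e (C.c i z)) z w) = v) ∧
        ∀ v, v ∈ A.F (e (C.c i z)) ↔
          ∃ x, A.J (e (C.c i z)) (fderiv ℝ (fun z => e (C.c i z)) z (x, 0)) = v := by
  obtain ⟨k, idx, z0, δ, h1, h2, h3⟩ := C.exists_cover
  let D : Fine C k := ⟨idx, z0, δ, h1, h2, h3⟩
  obtain ⟨L, R, hL, hR, hLR⟩ := D.exists_LR g hl hsy hpos hsm htr
  choose U hU hUe using D.exists_U
  let S : Submodule ℝ (Eu p × Eu q) := LinearMap.ker (LinearMap.snd ℝ (Eu p) (Eu q))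
  have hT : ∀ i, ∀ z ∈ C.V i, ∀ v, v ∈ C.dis ⊤ D.e (D.e (C.c i z)) ↔
      ∃ w, fderiv ℝ (fun z => D.e (C.c i z)) z w = v := by
    intro i z hz v
    rw [C.mem_dis ⊤ D.e_sm D.e_inj (fun _ _ _ _ _ _ _ => Submodule.mem_top) i hz]
    simp
  have hF : ∀ i, ∀ z ∈ C.V i, ∀ v, v ∈ C.dis S D.e (D.e (C.c i z)) ↔
      ∃ x, fderiv ℝ (fun z => D.e (C.c i z)) z (x, 0) = v := by
    intro i z hz v
    rw [C.mem_dis S D.e_sm D.e_inj (fun i j z hz h w hw => by
      obtain ⟨x, y⟩ := w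
      have : y = 0 := hw
      subst this
      exact hfol i j z hz h x) i hz]
    constructor
    · rintro ⟨⟨x, y⟩, hw, h⟩
      have : y = 0 := hw
      subst this
      exact ⟨x, h⟩
    · rintro ⟨x, h⟩
      exact ⟨(x, 0), rfl, h⟩
  obtain ⟨N, A, j, hj, hM, hin, hAT, hAF⟩ := assemble (range D.e) (C.dis ⊤ D.e) (C.dis S D.e) U
    D.ψ D.φ Fine.χ L R hL hR hU D.ψ_sm D.φ_sm Fine.χ_sm hUe (fun a z hz => D.φ_ψ a hz)
    (fun a z hz v => by
      rw [Fine.ψ, hT _ _ (D.pt_mem a z)]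
      simp only [D.ψ_der a hz]
      constructor
      · rintro ⟨w, rfl⟩
        exact ⟨(D.δ a)⁻¹ • w, by rw [smul_inv_smul₀ (D.pos a).ne']⟩
      · rintro ⟨w, rfl⟩
        exact ⟨_, rfl⟩)
    (fun a z hz v => by
      rw [Fine.ψ, hF _ _ (D.pt_mem a z)]
      simp only [D.ψ_der a hz, Prod.smul_mk, smul_zero]
      constructor
      · rintro ⟨w, rfl⟩
        exact ⟨(D.δ a)⁻¹ • w, by rw [smul_inv_smul₀ (D.pos a).ne']⟩
      · rintro ⟨w, rfl⟩
        exact ⟨_, rfl⟩)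
    (fun a => ⟨3 / 4, by norm_num, by
      rintro _ ⟨x, rfl⟩ h
      exact D.χ_supp a x h⟩)
    (by
      rintro _ ⟨x, rfl⟩
      exact D.χ_sum x)
  refine ⟨N, k, A, fun x => j (D.e x), j.continuous.comp D.e_sm.continuous, hj.comp D.e_inj,
    by rw [hM, ← range_comp]; rfl, fun i => ⟨j.contDiff.comp_contDiffOn (D.e_sm i),
      fun z hz => ?_⟩⟩
  have hder : ∀ w, fderiv ℝ (fun z => j (D.e (C.c i z))) z w =
      j (fderiv ℝ (fun z => D.e (C.c i z)) z w) := by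
    intro w
    have : (fun z => j (D.e (C.c i z))) = j ∘ fun z => D.e (C.c i z) := rfl
    rw [this, fderiv_comp z j.differentiableAt ((D.e_sm.at i hz).differentiableAt (by simp)),
      j.fderiv]
    rfl
  simp only [hder]
  refine ⟨fun u w => ?_, fun v => ?_, fun v => ?_⟩
  · rw [hin _ _ _ ((hLR i z hz).1 u) ((hLR i z hz).1 w), (hLR i z hz).2]
  · rw [hAT]
    simp only [hT i z hz]
    constructor
    · rintro ⟨_, ⟨w, rfl⟩, h⟩
      exact ⟨w, h⟩
    · rintro ⟨w, h⟩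
      exact ⟨_, ⟨w, rfl⟩, h⟩
  · rw [hAF]
    simp only [hF i z hz]
    constructor
    · rintro ⟨_, ⟨w, rfl⟩, h⟩
      exact ⟨w, h⟩
    · rintro ⟨w, h⟩
      exact ⟨_, ⟨w, rfl⟩, h⟩

end Pool.Agent.P.MP_e0a138_an.Wh
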