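import Pool.Agent.P.MP_e0a138_an.ADefs

set_option autoImplicit false

open Matrix
open scoped InnerProductSpace

noncomputable section
namespace Pool.Agent.P.MP_e0a138_an.Wh
open AD

theorem car_mat (N : ℕ) : ∃ (I : Type) (_ : Fintype I) (_ : DecidableEq I),
    Fintype.card I = 2 ^ N ∧ ∃ a : Fin N → Matrix I I ℂ, (∀ i j, a i * a j + a j * a i = 0) ∧
      ∀ i j, (a i)ᴴ * a j + a j * (a i)ᴴ = if i = j then 1 else 0 := by
  induction N with
  | zero => exact ⟨Unit, inferInstance, inferInstance, rfl, fun i => i.elim0, fun i => i.elim0,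
      fun i => i.elim0⟩
  | succ N ih =>
    obtain ⟨I, _, _, hc, a, h1, h2⟩ := ih
    refine ⟨I ⊕ I, inferInstance, inferInstance, by simp [hc, pow_succ, mul_two],
      Fin.cons (fromBlocks 0 0 1 0) fun i => fromBlocks (a i) 0 0 (-a i), fun i j => ?_,
      fun i j => ?_⟩
    · refine Fin.cases ?_ (fun i => ?_) i <;> refine Fin.cases ?_ (fun j => ?_) j <;>
        simp [fromBlocks_multiply, fromBlocks_add, h1]
    · refine Fin.cases ?_ (fun i => ?_) i <;> refine Fin.cases ?_ (fun j => ?_) j
      · simp [fromBlocks_multiply, fromBlocks_add, fromBlocks_conjTranspose]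
      · simp [fromBlocks_multiply, fromBlocks_add, fromBlocks_conjTranspose,
          (Fin.succ_ne_zero j).symm]
      · simp [fromBlocks_multiply, fromBlocks_add, fromBlocks_conjTranspose]
      · by_cases h : i = j <;>
          simp [fromBlocks_multiply, fromBlocks_add, fromBlocks_conjTranspose, h2, h]

theorem car_fin (N : ℕ) : ∃ a : Fin N → Matrix (Fin (2 ^ N)) (Fin (2 ^ N)) ℂ,
    (∀ i j, a i * a j + a j * a i = 0) ∧
      ∀ i j, star (a i) * a j + a j * star (a i) = if i = j then 1 else 0 := by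
  obtain ⟨I, _, _, hc, a, h1, h2⟩ := car_mat N
  let e : Fin (2 ^ N) ≃ I := (Fintype.equivFinOfCardEq hc).symm
  refine ⟨fun i => (a i).submatrix e e, fun i j => ?_, fun i j => ?_⟩
  · have := congrArg (fun m => m.submatrix e e) (h1 i j)
    simpa [submatrix_add] using this
  · have := congrArg (fun m => m.submatrix e e) (h2 i j)
    by_cases h : i = j <;> simpa [submatrix_add, star_eq_conjTranspose, h] using this

theorem car_op {N : ℕ} {W : Type} [NormedAddCommGroup W] [InnerProductSpace ℂ W] [CompleteSpace W]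
    (a : Fin N → Op W) (h1 : ∀ i j, a i * a j + a j * a i = 0)
    (h2 : ∀ i j, star (a i) * a j + a j * star (a i) = if i = j then 1 else 0) :
    IsCAR fun v : Eu N => ∑ i, (((show EuclideanSpace ℝ (Fin N) from v) i : ℝ) : ℂ) • a i := by
  have key : ∀ (x y : Fin N → ℂ) (b : Fin N → Op W),
      (∑ i, x i • b i) * (∑ i, y i • a i) + (∑ i, y i • a i) * (∑ i, x i • b i) =
        ∑ i, ∑ j, (x i * y j) • (b i * a j + a j * b i) := by
    intro x y b
    rw [Finset.sum_mul_sum, Finset.sum_mul_sum, Finset.sum_comm (f := fun i j => y i • a i * x j • b j),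
      ← Finset.sum_add_distrib]
    refine Finset.sum_congr rfl fun i _ => ?_
    rw [← Finset.sum_add_distrib]
    refine Finset.sum_congr rfl fun j _ => ?_
    rw [smul_mul_smul_comm, smul_mul_smul_comm, smul_add, mul_comm (y j)]
  refine ⟨⟨fun v w => ?_, fun c v => ?_⟩, fun v w => ⟨?_, ?_⟩⟩
  · rw [← Finset.sum_add_distrib]
    refine Finset.sum_congr rfl fun i _ => ?_
    rw [← add_smul, ← Complex.ofReal_add]
    rfl
  · rw [Finset.smul_sum]
    refine Finset.sum_congr rfl fun i _ => ?_
    rw [← smul_assoc, Complex.real_smul, ← Complex.ofReal_mul]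
    rfl
  · simp only [key, h1, smul_zero, Finset.sum_const_zero]
  · simp only [star_sum, star_smul, Complex.star_def, Complex.conj_ofReal]
    rw [key]
    have : ⟪v, w⟫_ℝ = ∑ i, (show EuclideanSpace ℝ (Fin N) from v) i *
        (show EuclideanSpace ℝ (Fin N) from w) i := by
      show ⟪(show EuclideanSpace ℝ (Fin N) from v), (show EuclideanSpace ℝ (Fin N) from w)⟫_ℝ = _
      rw [PiLp.inner_apply]
      simp [mul_comm]
    rw [this]
    simp [h2, Finset.sum_smul]

theorem car (N : ℕ) : ∃ ε : Eu N → Op (EuclideanSpace ℂ (Fin (2 ^ N))), IsCAR ε := by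
  obtain ⟨a, h1, h2⟩ := car_fin N
  refine ⟨_, car_op (fun i => toEuclideanCLM (𝕜 := ℂ) (a i)) (fun i j => ?_) fun i j => ?_⟩
  · rw [← map_mul, ← map_mul, ← map_add, h1, map_zero]
  · rw [← map_star, ← map_mul, ← map_mul, ← map_add, h2]
    split_ifs <;> simp

end Pool.Agent.P.MP_e0a138_an.Wh
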