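import Pool.Agent.P.MP_e0a138_an.ADefs

set_option autoImplicit false
set_option linter.unusedSectionVars false

open Complex Filter Topology Set
open scoped InnerProductSpace

noncomputable section
namespace Pool.Agent.P.MP_e0a138_an.Wh
open AD

section
variable {H : Type} [NormedAddCommGroup H] [InnerProductSpace ℂ H] [CompleteSpace H]

theorem res_uniq {G : Set (H × H)} (hG : EssSA G) {R R' : Op H} (h : IsRes G R)
    (h' : IsRes G R') : R = R' := by
  have key : ∀ t, star (R - R') t = 0 := by
    intro t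
    have h1 : ∀ w, ⟪w, star (R - R') t⟫_ℂ = ⟪R w - R' w, t⟫_ℂ := fun w =>
      ContinuousLinearMap.adjoint_inner_right (R - R') w t
    have h2 : Perp G (star (R - R') t) := (hG.2 I (by simp) _).1 fun g hg => by
      rw [h1, h.1 g hg, h'.1 g hg, sub_self, inner_zero_left]
    rw [← inner_self_eq_zero (𝕜 := ℂ), h1, h.2 _ h2, h'.2 _ h2, sub_self, inner_zero_left]
  have : star (R - R') = 0 := ContinuousLinearMap.ext key
  rwa [star_eq_zero, sub_eq_zero] at this

theorem cfc_eigen {T : Op H} (hT : IsSelfAdjoint T) {u : H} {μ : ℝ} (hu : T u = (μ : ℂ) • u)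
    {F : ℂ → ℂ} (hF : Continuous F) : cfc F T u = F μ • u := by
  by_cases h0 : u = 0
  · simp [h0]
  have hn : IsStarNormal T := hT.isStarNormal
  have hμ : (μ : ℂ) ∈ spectrum ℂ T := by
    rw [spectrum.mem_iff]
    rintro ⟨a, ha⟩
    apply h0
    have h1 : (a : Op H) u = 0 := by
      rw [ha]
      simp [hu, Algebra.algebraMap_eq_smul_one]
    have h2 := congrArg (fun A : Op H => A u) a.inv_mul
    simp only [ContinuousLinearMap.mul_apply, h1, map_zero] at h2
    exact h2.symm
  have key : ∀ f : C(spectrum ℂ T, ℂ), cfcHom hn f u = f ⟨μ, hμ⟩ • u := by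
    intro f
    induction f using ContinuousMap.induction_on_of_compact with
    | const r =>
      have : (ContinuousMap.const (spectrum ℂ T) r) = algebraMap ℂ _ r := rfl
      rw [this, AlgHomClass.commutes]
      simp [Algebra.algebraMap_eq_smul_one]
    | id =>
      rw [cfcHom_id hn, hu]
      rfl
    | star_id =>
      rw [map_star, cfcHom_id hn, hT.star_eq, hu]
      simp
    | add f g h1 h2 => simp [h1, h2, add_smul]
    | mul f g h1 h2 => simp [h1, h2, smul_smul, mul_comm]
    | frequently f h =>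
      refine h.mem_of_closed (s := {f : C(spectrum ℂ T, ℂ) | cfcHom hn f u = f ⟨μ, hμ⟩ • u})
        (isClosed_eq ?_ ?_)
      · exact (cfcHom_continuous hn).clm_apply continuous_const
      · exact (continuous_eval_const _).smul continuous_const
  rw [cfc_apply F T hn hF.continuousOn, key]
  rfl

theorem fn_cont {f : ℝ → ℂ} (hf : Continuous f) (hc : HasCompactSupport f) :
    Continuous fun r : ℝ => if 0 < r then f √(r⁻¹ - 1) else 0 := by
  obtain ⟨L, hL0, hL⟩ := hc.exists_pos_le_norm
  have hr : 0 < (1 + L ^ 2)⁻¹ := by positivity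
  have hz : ∀ r < (1 + L ^ 2)⁻¹, (if 0 < r then f √(r⁻¹ - 1) else 0) = 0 := fun r h => by
    split_ifs with h1
    · refine hL _ ?_
      rw [lt_inv_comm₀ h1 (by positivity)] at h
      rw [Real.norm_of_nonneg (Real.sqrt_nonneg _)]
      exact Real.le_sqrt_of_sq_le (by linarith)
    · rfl
  refine continuous_iff_continuousAt.2 fun r => ?_
  rcases lt_or_ge r (1 + L ^ 2)⁻¹ with h | h
  · refine (continuousAt_const (y := (0 : ℂ))).congr ?_
    filter_upwards [Iio_mem_nhds h] with x hx using (hz x hx).symm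
  · have h1 : 0 < r := hr.trans_le h
    have h2 : ContinuousAt (fun r : ℝ => f √(r⁻¹ - 1)) r :=
      hf.continuousAt.comp (Real.continuous_sqrt.continuousAt.comp
        ((continuousAt_inv₀ h1.ne').sub continuousAt_const))
    refine h2.congr ?_
    filter_upwards [Ioi_mem_nhds h1] with x hx using (if_pos hx).symm

theorem fn_eig {G : Set (H × H)} (hG : EssSA G) {R : Op H} (h : IsRes G R) {u : H} {t : ℝ}
    (hu : (u, (t : ℂ) • u) ∈ G) {f : ℝ → ℂ} (hf : Continuous f) (hc : HasCompactSupport f)
    (he : ∀ x, f (-x) = f x) : fn f R u = f t • u := by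
  have hp : (t : ℂ) + I ≠ 0 := fun h => by simpa using congrArg im h
  have hm : (t : ℂ) - I ≠ 0 := fun h => by simpa using congrArg im h
  have h1 : R u = ((t : ℂ) + I)⁻¹ • u := by
    have := h.1 _ hu
    simp only at this
    rw [← add_smul, map_smul] at this
    rw [eq_inv_smul_iff₀ hp, this]
  have h2 : star R u = ((t : ℂ) - I)⁻¹ • u := by
    have a1 : ∀ w, ⟪w, star R u⟫_ℂ = ⟪R w, u⟫_ℂ := fun w =>
      ContinuousLinearMap.adjoint_inner_right R w u
    have a2 : Perp G (star R u - ((t : ℂ) - I)⁻¹ • u) := (hG.2 I (by simp) _).1 fun g hg => by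
      have := hG.1 g hg _ hu
      simp only at this
      rw [inner_sub_right, a1, h.1 g hg, inner_smul_right, inner_add_left, this,
        inner_smul_right, inner_smul_left, conj_I]
      field_simp
      ring
    have a3 : ⟪star R u - ((t : ℂ) - I)⁻¹ • u, u⟫_ℂ = 0 := by
      rw [inner_eq_zero_symm]
      exact a2 _ hu
    rw [← sub_eq_zero, ← inner_self_eq_zero (𝕜 := ℂ), inner_sub_right, a1, h.2 _ a2,
      inner_smul_right, a3]
    simp
  have h3 : (star R * R) u = (((1 + t ^ 2)⁻¹ : ℝ) : ℂ) • u := by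
    rw [ContinuousLinearMap.mul_apply, h1, map_smul, h2, smul_smul, ← mul_inv]
    congr 1
    push_cast
    congr 1
    linear_combination (-1 : ℂ) * I_sq
  have h4 : Continuous fun r : ℂ => if 0 < r.re then f √(r.re⁻¹ - 1) else 0 :=
    (fn_cont hf hc).comp continuous_re
  rw [fn, cfc_eigen (IsSelfAdjoint.star_mul_self R) h3 h4]
  congr 1
  simp only [ofReal_re]
  rw [if_pos (by positivity), inv_inv, add_sub_cancel_left, Real.sqrt_sq_eq_abs]
  rcases abs_choice t with h | h <;> rw [h]
  exact he t

end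

variable {N : ℕ} {W : Type} [NormedAddCommGroup W] [InnerProductSpace ℂ W]
  [FiniteDimensional ℂ W] [CompleteSpace W] {ε : Eu N → Op W}

/-- The number operator. -/
def nu (ε : Eu N → Op W) (S : Submodule ℝ (Eu N)) : Op W :=
  ∑ a, ε (S.starProjection (bs a)) * star (ε (S.starProjection (bs a)))

theorem deg_fix (S : Submodule ℝ (Eu N)) (j : ℕ) (x : W) :
    deg ε S j x = x ↔ nu ε S x = (j : ℂ) • x := by
  rw [deg, Submodule.starProjection_eq_self_iff, LinearMap.mem_ker]
  change nu ε S x - (j : ℂ) • x = 0 ↔ _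
  rw [sub_eq_zero]

theorem sum_bs' (v : Eu N) : ∑ a, ⟪bs a, v⟫_ℝ • bs a = v := by
  have h := (EuclideanSpace.basisFun (Fin N) ℝ).sum_repr' v
  simp only [EuclideanSpace.basisFun_apply] at h
  exact h

theorem eps_sum (hε : IsCAR ε) (S : Submodule ℝ (Eu N)) (v : Eu N) :
    ∑ a, ((⟪bs a, v⟫_ℝ : ℝ) : ℂ) • ε (S.starProjection (bs a)) = ε (S.starProjection v) := by
  have h : ε (S.starProjection v) = (hε.1.mk' ε) (S.starProjection (∑ a, ⟪bs a, v⟫_ℝ • bs a)) := by
    rw [sum_bs']
    rfl
  rw [h, map_sum, map_sum]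
  refine Finset.sum_congr rfl fun a _ => ?_
  rw [map_smul, map_smul, Complex.coe_smul]
  rfl

theorem nu_comm (hε : IsCAR ε) (S : Submodule ℝ (Eu N)) (v : Eu N) :
    nu ε S * ε v = ε v * nu ε S + ε (S.starProjection v) := by
  have key : ∀ x : Eu N, ε x * star (ε x) * ε v = ε v * (ε x * star (ε x)) +
      ((⟪x, v⟫_ℝ : ℝ) : ℂ) • ε x := by
    intro x
    have h1 := (hε.2 x v).1
    have h2 := (hε.2 x v).2
    have h3 : ε v * ε x = -(ε x * ε v) := eq_neg_of_add_eq_zero_right h1
    rw [mul_assoc, eq_sub_of_add_eq h2, ← mul_assoc (ε v), h3, mul_sub, mul_smul_comm, mul_one,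
      neg_mul, mul_assoc]
    abel
  rw [nu, Finset.sum_mul, Finset.mul_sum]
  simp only [key]
  rw [Finset.sum_add_distrib]
  congr 1
  have := eps_sum hε S (S.starProjection v)
  rw [Submodule.starProjection_eq_self_iff.2 (S.starProjection_apply_mem v)] at this
  rw [← this]
  refine Finset.sum_congr rfl fun a _ => ?_
  rw [Submodule.inner_starProjection_left_eq_right]

theorem deg_pin (hε : IsCAR ε) (S : Submodule ℝ (Eu N)) (w : W) :
    (deg ε S 0 w = w ↔ ∀ v ∈ S, star (ε v) w = 0) ∧ ∀ j, deg ε S j w = w →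
      (∀ v ∈ S, deg ε S (j + 1) (ε v w) = ε v w) ∧ ∀ v ∈ Sᗮ, deg ε S j (ε v w) = ε v w := by
  refine ⟨?_, fun j hj => ⟨fun v hv => ?_, fun v hv => ?_⟩⟩
  · rw [deg_fix, Nat.cast_zero, zero_smul]
    constructor
    · intro h v hv
      have h1 : ∑ a, ‖star (ε (S.starProjection (bs a))) w‖ ^ 2 = 0 := by
        have : (⟪w, nu ε S w⟫_ℂ).re = ∑ a, ‖star (ε (S.starProjection (bs a))) w‖ ^ 2 := by
          rw [nu, ContinuousLinearMap.sum_apply, inner_sum, Complex.re_sum]
          refine Finset.sum_congr rfl fun a _ => ?_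
          rw [ContinuousLinearMap.mul_apply, ← ContinuousLinearMap.adjoint_inner_left,
            ← ContinuousLinearMap.star_eq_adjoint]
          exact inner_self_eq_norm_sq (𝕜 := ℂ) _
        rw [← this, h]
        simp
      have h2 : ∀ a, star (ε (S.starProjection (bs a))) w = 0 := fun a => by
        have := (Finset.sum_eq_zero_iff_of_nonneg fun a _ => sq_nonneg _).1 h1 a (Finset.mem_univ a)
        simpa using this
      have h3 := eps_sum hε S v
      rw [Submodule.starProjection_eq_self_iff.2 hv] at h3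
      rw [← h3, star_sum, ContinuousLinearMap.sum_apply]
      simp [h2]
    · intro h
      rw [nu, ContinuousLinearMap.sum_apply]
      refine Finset.sum_eq_zero fun a _ => ?_
      rw [ContinuousLinearMap.mul_apply, h _ (S.starProjection_apply_mem _), map_zero]
  · rw [deg_fix] at hj ⊢
    have := congrArg (fun A : Op W => A w) (nu_comm hε S v)
    simp only [ContinuousLinearMap.mul_apply, ContinuousLinearMap.add_apply, hj, map_smul,
      Submodule.starProjection_eq_self_iff.2 hv] at this
    rw [this]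
    push_cast
    rw [add_smul, one_smul]
  · rw [deg_fix] at hj ⊢
    have := congrArg (fun A : Op W => A w) (nu_comm hε S v)
    simp only [ContinuousLinearMap.mul_apply, ContinuousLinearMap.add_apply, hj, map_smul,
      (Submodule.starProjection_apply_eq_zero_iff S).2 hv, hε.1.map_zero] at this
    simpa using this

end Pool.Agent.P.MP_e0a138_an.Wh
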