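import Pool.Agent.P.MP_e0a138_an.Wh4
import Pool.Agent.P.MP_e0a138_an.Wh5
import Pool.Agent.P.MP_e0a138_an.Wh6

set_option autoImplicit false

open Set
open scoped ContDiff

namespace Pool.Agent.P.MP_e0a138_an.Wh
open AD

theorem embed' {p q : ℕ} {X ι : Type} [MetricSpace X]
    (compact : ∀ (κ : Type) (O : κ → Set X), (∀ j, IsOpen (O j)) → (∀ x, ∃ j, x ∈ O j) →
      ∃ t : Finset κ, ∀ x, ∃ j ∈ t, x ∈ O j)
    (V : ι → Set (Eu p × Eu q)) (c : ι → Eu p × Eu q → X) (s : ι → X → Eu p × Eu q)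
    (g : ι → Eu p × Eu q → Eu p × Eu q → Eu p × Eu q → ℝ)
    (hV : ∀ i, IsOpen (V i)) (hc : ∀ i, Continuous fun z : V i => c i z)
    (ho : ∀ i B, IsOpen B → B ⊆ V i → IsOpen (c i '' B))
    (hx : ∀ x, ∃ i, ∃ z ∈ V i, c i z = x) (hs : ∀ i, ∀ z ∈ V i, s i (c i z) = z)
    (smooth : ∀ i j, ContDiffOn ℝ ∞ (fun z => s j (c i z)) {z | z ∈ V i ∧ c i z ∈ c j '' V j})
    (foliated : ∀ i j, ∀ z ∈ V i, c i z ∈ c j '' V j → ∀ x,
      (fderiv ℝ (fun z => s j (c i z)) z (x, 0)).2 = 0)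
    (hg : ∀ i u w, ContDiffOn ℝ ∞ (fun z => g i z u w) (V i))
    (hg' : ∀ i, ∀ z ∈ V i, (∀ u, IsLinearMap ℝ (g i z u)) ∧ (∀ u w, g i z u w = g i z w u) ∧
      (∀ u, u ≠ 0 → 0 < g i z u u) ∧ ∀ j, c i z ∈ c j '' V j → ∀ u w, g i z u w =
        g j (s j (c i z)) (fderiv ℝ (fun z => s j (c i z)) z u)
          (fderiv ℝ (fun z => s j (c i z)) z w)) :
    ∃ (N k : ℕ) (A : Atl N p q k) (e : X → Eu N), Continuous e ∧ Function.Injective e ∧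
      Set.range e = A.M ∧ ∀ i, ContDiffOn ℝ ∞ (fun z => e (c i z)) (V i) ∧ ∀ z ∈ V i,
        (∀ u w, inner ℝ (A.J (e (c i z)) (fderiv ℝ (fun z => e (c i z)) z u))
          (A.J (e (c i z)) (fderiv ℝ (fun z => e (c i z)) z w)) = g i z u w) ∧
        (∀ v, v ∈ A.T (e (c i z)) ↔
          ∃ w, A.J (e (c i z)) (fderiv ℝ (fun z => e (c i z)) z w) = v) ∧
        ∀ v, v ∈ A.F (e (c i z)) ↔
          ∃ x, A.J (e (c i z)) (fderiv ℝ (fun z => e (c i z)) z (x, 0)) = v := by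
  have : CompactSpace X := ⟨isCompact_of_finite_subcover fun O hO h => by
    obtain ⟨t, ht⟩ := compact _ O hO fun x => mem_iUnion.1 (h (mem_univ x))
    refine ⟨t, fun x _ => ?_⟩
    obtain ⟨j, hj, hx⟩ := ht x
    exact mem_iUnion₂.2 ⟨j, hj, hx⟩⟩
  exact embed ⟨V, c, s, hV, ho, fun i => continuousOn_iff_continuous_restrict.2 (hc i), hx, hs,
    smooth⟩ g foliated (fun i z hz => (hg' i z hz).1) (fun i z hz => (hg' i z hz).2.1)
    (fun i z hz => (hg' i z hz).2.2.1) hg fun i j z hz => (hg' i z hz).2.2.2 j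

end Pool.Agent.P.MP_e0a138_an.Wh
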